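import Pool.Agent.P.MP_f43029_ag.XL.Asym

/-!
Exact lifts, asymptotic Thom-Whitney algebras: partitions of unity, functions, towers.
-/

set_option autoImplicit false

noncomputable section

namespace Pool.Agent.P.MP_f43029_ag.XL

open Pool.Agent.Theta Filter MvPolynomial

/-! ### Faces and partitions of unity -/

section Part

variable {J : Type} [Fintype J] [DecidableEq J]

theorem sum_prod_bool {R : Type} [CommRing R] (f : J → Bool → R) :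
    ∑ v : J → Bool, ∏ j, f j (v j) = ∏ j, (f j true + f j false) := by
  have := Finset.prod_univ_sum (fun _ : J => (Finset.univ : Finset Bool)) f
  simp only [Fintype.sum_bool, Fintype.piFinset_univ] at this
  exact this.symm

theorem sum_lam : ∑ v : J → Bool, lam ℤ v = 1 := by
  have := sum_prod_bool (R := MvPolynomial J ℤ) fun (j : J) b => if b then X j else 1 - X j
  simpa [lam] using this

theorem sum_lam_lamb : ∑ v : J → Bool, lam ℤ v * lamb ℤ v = 1 := by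
  have := sum_prod_bool (R := MvPolynomial J ℤ) fun (j : J) b =>
    (if b then X j else 1 - X j) * ((if b then X j else 1 - X j) *
      if b then 3 - 2 * X j else 1 + 2 * X j)
  simp only [Finset.prod_mul_distrib] at this
  refine this.trans (Finset.prod_eq_one fun j _ => ?_)
  simp only [if_true, Bool.false_eq_true, if_false]
  ring

omit [DecidableEq J] in
theorem rC_lam {v : J → Bool} {σ : Face J} (h : σ ∉ St (vf v)) : rC ℤ σ (lam ℤ v) = 0 := by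
  simp only [St, Face.le, Set.mem_ofPred_eq, not_forall, not_or, vf] at h
  obtain ⟨j, h1, h2⟩ := h
  rw [lam, map_prod]
  refine Finset.prod_eq_zero (Finset.mem_univ j) ?_
  rcases h : σ j with _ | _ | _
  · exact absurd h h1
  · have : v j = true := by
      by_contra h'
      exact h2 (by rw [h, Bool.not_eq_true _ |>.mp h'])
    simp [this, rv_false h]
  · have : v j = false := by
      by_contra h'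
      exact h2 (by rw [h, Bool.not_eq_false _ |>.mp h'])
    simp [this, rv_true h]

omit [DecidableEq J] in
theorem rC_lamb {v : J → Bool} {σ : Face J} (h : σ ∉ St (vf v)) : rC ℤ σ (lamb ℤ v) = 0 := by
  rw [lamb, map_mul, rC_lam h, zero_mul]

omit [Fintype J] [DecidableEq J] in
theorem mem_St_jn {v v' : J → Bool} {σ : Face J} :
    σ ∈ St (jn v v') ↔ σ ∈ St (vf v) ∧ σ ∈ St (vf v') := by
  simp only [St, Face.le, Set.mem_ofPred_eq, vf, jn, ← forall_and]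
  refine forall_congr' fun j => ?_
  rcases σ j with _ | _ | _ <;> cases v j <;> cases v' j <;> simp

end Part

namespace Amb

variable {n : ℕ} {K F : Type} [Field K] [Field F] [CharZero K] [CharZero F] [Algebra K F]
  {𝔸 : Amb n K F} {J : Type}

namespace Sys

variable {𝔅 𝔅' 𝔅'' : 𝔸.Sys J}

theorem on_B (𝔅 : 𝔸.Sys J) {s : Set (Face J)} {σ : Face J} (h : σ ∈ s) :
    (𝔅.on s).B σ = 𝔅.B σ := if_pos h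

theorem on_B_top (𝔅 : 𝔸.Sys J) {s : Set (Face J)} {σ : Face J} (h : σ ∉ s) :
    (𝔅.on s).B σ = ⊤ := if_neg h

theorem le_on (𝔅 : 𝔸.Sys J) (s : Set (Face J)) : 𝔅 ≤ 𝔅.on s := fun σ => by
  by_cases h : σ ∈ s
  · rw [on_B _ h]
  · rw [on_B_top _ h]
    exact le_top

theorem on_le_on (𝔅 : 𝔸.Sys J) {s t : Set (Face J)} (h : t ⊆ s) : 𝔅.on s ≤ 𝔅.on t := fun σ => by
  by_cases h' : σ ∈ t
  · rw [on_B _ h', on_B _ (h h')]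
  · rw [on_B_top _ h']
    exact le_top

theorem le_refl' (𝔅 : 𝔸.Sys J) : 𝔅 ≤ 𝔅 := fun _ => le_rfl

theorem le_trans' (h : 𝔅 ≤ 𝔅') (h' : 𝔅' ≤ 𝔅'') : 𝔅 ≤ 𝔅'' := fun σ => (h σ).trans (h' σ)

/-- The class of a moderate sequence of polynomials. -/
def clA (𝔅 : 𝔸.Sys J) (w : ℕ → MvPolynomial J F) (hw : w ∈ 𝔅.fC.Seq false) : 𝔅.A := 𝔅.fC.cl w hw

@[elab_as_elim] theorem indA {p : 𝔅.A → Prop} (x : 𝔅.A) (h : ∀ w hw, p (𝔅.clA w hw)) : p x :=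
  Fil.ind (F := 𝔅.fC) x h

theorem clA_eq {w w' : ℕ → MvPolynomial J F} {hw : w ∈ 𝔅.fC.Seq false} {hw' : w' ∈ 𝔅.fC.Seq false} :
    𝔅.clA w hw = 𝔅.clA w' hw' ↔ w - w' ∈ 𝔅.fC.Seq true := Fil.cl_eq

theorem clA_eq_zero {w : ℕ → MvPolynomial J F} {hw : w ∈ 𝔅.fC.Seq false} :
    𝔅.clA w hw = 0 ↔ w ∈ 𝔅.fC.Seq true := Fil.cl_eq_zero

theorem clA_congr {w w' : ℕ → MvPolynomial J F} {hw : w ∈ 𝔅.fC.Seq false}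
    {hw' : w' ∈ 𝔅.fC.Seq false} (h : ∀ m, w m = w' m) : 𝔅.clA w hw = 𝔅.clA w' hw' :=
  Fil.cl_congr' h

theorem clA_mul (w w' : ℕ → MvPolynomial J F) (hw : w ∈ 𝔅.fC.Seq false)
    (hw' : w' ∈ 𝔅.fC.Seq false) :
    𝔅.clA w hw * 𝔅.clA w' hw' = 𝔅.clA (w * w') (𝔅.fC.seq_mul hw hw') := 𝔅.fC.cl_mul _ _ _ _

theorem clA_add (w w' : ℕ → MvPolynomial J F) (hw : w ∈ 𝔅.fC.Seq false)
    (hw' : w' ∈ 𝔅.fC.Seq false) :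
    𝔅.clA w hw + 𝔅.clA w' hw' = 𝔅.clA (w + w') (add_mem hw hw') := 𝔅.fC.cl_add _ _ _ _

theorem clA_sub (w w' : ℕ → MvPolynomial J F) (hw : w ∈ 𝔅.fC.Seq false)
    (hw' : w' ∈ 𝔅.fC.Seq false) :
    𝔅.clA w hw - 𝔅.clA w' hw' = 𝔅.clA (w - w') (sub_mem hw hw') := 𝔅.fC.cl_sub _ _ _ _

theorem clA_one (𝔅 : 𝔸.Sys J) : (1 : 𝔅.A) = 𝔅.clA 1 (𝔅.fC.const_mem 𝔅.fC.one) := 𝔅.fC.cl_one

theorem clA_zero (𝔅 : 𝔸.Sys J) : (0 : 𝔅.A) = 𝔅.clA 0 (zero_mem _) := 𝔅.fC.cl_zero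

theorem le_seqC (h : 𝔅 ≤ 𝔅') {τ : Bool} {w : ℕ → MvPolynomial J F} (hw : w ∈ 𝔅.fC.Seq τ) :
    w ∈ 𝔅'.fC.Seq τ := AFil.Seq.of_rel0 hw fun _ D a => le_mem_fC h D a _

theorem gl_seqC (P : MvPolynomial J ℤ) (h : ∀ σ, rC ℤ σ P = 0 ∨ 𝔅'.B σ ≤ 𝔅.B σ) {τ : Bool}
    {w : ℕ → MvPolynomial J F} (hw : w ∈ 𝔅'.fC.Seq τ) : (fun m => zP F P * w m) ∈ 𝔅.fC.Seq τ :=
  (AFil.Bd.of_shift P.totalDegree 0 fun D a x hx => by simpa using zP_mul_mem P h hx).seq hw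

theorem mpA_cl (h : 𝔅 ≤ 𝔅') (w : ℕ → MvPolynomial J F) (hw : w ∈ 𝔅.fC.Seq false) :
    mpA h (𝔅.clA w hw) = 𝔅'.clA w (le_seqC h hw) := rfl

theorem pA_eq (𝔅 : 𝔸.Sys J) (P : MvPolynomial J ℤ) :
    𝔅.pA P = 𝔅.clA (fun _ => zP F P) (𝔅.fC.const_mem (𝔅.zP_mem_fC P)) := rfl

theorem cF_eq {B : Subring F} (hB : ∀ σ, B ≤ 𝔅.B σ) (y : 𝔸.loc B) :
    𝔅.cF B hB y = 𝔅.clA (fun _ => C (y : F)) (𝔅.fC.fin_seq (𝔅.C_mem_fin hB y)) := rfl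

theorem π_eq (𝔅 : 𝔸.Sys J) :
    (𝔅.bdd.π : 𝔅.A) = 𝔅.clA (fun _ => C (𝔸.ϖ : F)) (𝔅.fC.const_mem 𝔅.unif.mem) := rfl

theorem gl_cl (P : MvPolynomial J ℤ) (h : ∀ σ, rC ℤ σ P = 0 ∨ 𝔅'.B σ ≤ 𝔅.B σ)
    (w : ℕ → MvPolynomial J F) (hw : w ∈ 𝔅'.fC.Seq false) :
    gl P h (𝔅'.clA w hw) = 𝔅.clA (fun m => zP F P * w m) (gl_seqC P h hw) := rfl

theorem mpA_mpA (h : 𝔅 ≤ 𝔅') (h' : 𝔅' ≤ 𝔅'') (h'' : 𝔅 ≤ 𝔅'') (x : 𝔅.A) :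
    mpA h' (mpA h x) = mpA h'' x := by
  induction x using indA
  rw [mpA_cl, mpA_cl, mpA_cl]

theorem mpA_self (h : 𝔅 ≤ 𝔅) (x : 𝔅.A) : mpA h x = x := by
  induction x using indA
  rw [mpA_cl]

theorem mpA_pA (h : 𝔅 ≤ 𝔅') (P : MvPolynomial J ℤ) : mpA h (𝔅.pA P) = 𝔅'.pA P := by
  rw [pA_eq, mpA_cl, pA_eq]

/-- Constants only depend on the underlying element of `F`. -/
theorem mpA_cF (h : 𝔅 ≤ 𝔅') {B B' : Subring F} (hB : ∀ σ, B ≤ 𝔅.B σ) (hB' : ∀ σ, B' ≤ 𝔅'.B σ)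
    (y : 𝔸.loc B) (y' : 𝔸.loc B') (e : (y : F) = y') :
    mpA h (𝔅.cF B hB y) = 𝔅'.cF B' hB' y' := by
  rw [cF_eq, mpA_cl, cF_eq]
  exact clA_congr fun _ => congrArg C e

theorem mpA_π (h : 𝔅 ≤ 𝔅') : mpA h (𝔅.bdd.π : 𝔅.A) = 𝔅'.bdd.π := by
  rw [π_eq, mpA_cl, π_eq]

theorem mpA_Ap (h : 𝔅 ≤ 𝔅') {x : 𝔅.A} (hx : x ∈ 𝔅.bdd.Ap) : mpA h x ∈ 𝔅'.bdd.Ap :=
  Fil.mapR_mem_Ap _ _ _ _ (le_mem_fC h) hx

theorem cF_π {B : Subring F} (hV : 𝔸.VF ≤ B) (hB : ∀ σ, B ≤ 𝔅.B σ) :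
    𝔅.cF B hB (𝔸.πL B hV : 𝔸.loc B) = 𝔅.bdd.π := by
  rw [cF_eq, π_eq]
  rfl

theorem _root_.Pool.Agent.P.MP_f43029_ag.XL.Amb.pow_bdd {B : Subring F} (hV : 𝔸.VF ≤ B)
    {y : 𝔸.loc B} (hy : y ∈ 𝔸.Bplus B) : ∃ e : ℕ, ∀ j : ℕ, (y : F) ^ j ∈ fil 𝔸.ϖ B (-(e : ℤ)) := by
  have hy' : IsIntegral B (y : F) := hy
  have hϖ := hV 𝔸.ϖ_mem
  obtain ⟨a, ha⟩ := (mem_loc hV).1 y.2
  have h1 : ∀ i : ℕ, (y : F) ^ i ∈ fil 𝔸.ϖ B (-((i * a.natAbs : ℕ) : ℤ)) := fun i => by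
    induction i with
    | zero => simpa using fil_zero.2 (one_mem B)
    | succ i ih =>
      rw [pow_succ]
      refine fil_anti hϖ ?_ (fil_mul ih ha)
      push_cast
      have := neg_abs_le a
      linarith
  obtain ⟨p, hp, hp0⟩ := hy'
  refine ⟨p.natDegree * a.natAbs, fun j => ?_⟩
  have h2 : (y : F) ^ j = Polynomial.aeval (y : F) (Polynomial.X ^ j %ₘ p) := by
    rw [Polynomial.aeval_modByMonic_eq_self_of_root hp0]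
    simp
  rw [h2, Polynomial.aeval_eq_sum_range]
  refine sum_mem fun i hi => ?_
  have h3 : i ≤ p.natDegree := (Nat.lt_succ_iff.1 (Finset.mem_range.1 hi)).trans
    (Polynomial.natDegree_modByMonic_le _ hp)
  have h4 := fil_mul (fil_zero (u := 𝔸.ϖ).2 ((Polynomial.X ^ j %ₘ p).coeff i).2) (h1 i)
  refine fil_anti hϖ ?_ h4
  have := Nat.mul_le_mul_right a.natAbs h3
  omega

theorem cF_Bplus [Finite J] {B : Subring F} (hV : 𝔸.VF ≤ B) (hB : ∀ σ, B ≤ 𝔅.B σ) {y : 𝔸.loc B}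
    (hy : y ∈ 𝔸.Bplus B) : 𝔅.cF B hB y ∈ 𝔅.bdd.Ap := by
  obtain ⟨e, he⟩ := pow_bdd hV hy
  refine 𝔅.fC.cst_mem_Ap ⟨_, 𝔅.C_mem_fin hB y⟩ (D := 0) (e := e) fun j => ?_
  change (C (y : F) : MvPolynomial J F) ^ j ∈ _
  rw [← C_pow, mul_zero]
  exact 𝔅.C_mem_fC fun σ => fil_mono _ (hB σ) _ (he j)

theorem pA_Ap (𝔅 : 𝔸.Sys J) (P : MvPolynomial J ℤ) : 𝔅.pA P ∈ 𝔅.bdd.Ap :=
  𝔅.fC.cst_mem_Ap0 ⟨_, _, _, 𝔅.zP_mem_fC P⟩ (𝔅.zP_mem_fC P)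

theorem gl_mul (P : MvPolynomial J ℤ) (h : ∀ σ, rC ℤ σ P = 0 ∨ 𝔅'.B σ ≤ 𝔅.B σ) (hle : 𝔅 ≤ 𝔅')
    (x : 𝔅.A) (y : 𝔅'.A) : gl P h (mpA hle x * y) = x * gl P h y := by
  induction x using indA
  induction y using indA
  rw [mpA_cl, clA_mul, gl_cl, gl_cl, clA_mul]
  exact clA_congr fun m => mul_left_comm _ _ _

theorem gl_one (P : MvPolynomial J ℤ) (h : ∀ σ, rC ℤ σ P = 0 ∨ 𝔅'.B σ ≤ 𝔅.B σ) :
    gl P h (1 : 𝔅'.A) = 𝔅.pA P := by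
  rw [clA_one, gl_cl, pA_eq]
  exact clA_congr fun m => mul_one _

theorem gl_Ap (P : MvPolynomial J ℤ) (h : ∀ σ, rC ℤ σ P = 0 ∨ 𝔅'.B σ ≤ 𝔅.B σ)
    {y : 𝔅'.A} (hy : y ∈ 𝔅'.bdd.Ap) : gl P h y ∈ 𝔅.bdd.Ap :=
  Fil.glue_mem_Ap _ _ _ (𝔅'.zP_mem_fC P) (fun _ _ _ hx => zP_mul_mem P h hx) _ hy

theorem π_zpow_eq (𝔅 : 𝔸.Sys J) (a : ℤ) : ((𝔅.bdd.π ^ a : 𝔅.Aˣ) : 𝔅.A) =
    𝔅.cF 𝔸.VF 𝔅.V_le ((𝔸.πL 𝔸.VF le_rfl ^ a : (𝔸.loc 𝔸.VF)ˣ) : 𝔸.loc 𝔸.VF) := by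
  have : 𝔅.bdd.π = Units.map (𝔅.cF 𝔸.VF 𝔅.V_le).toMonoidHom (𝔸.πL 𝔸.VF le_rfl) :=
    Units.ext (cF_π le_rfl 𝔅.V_le).symm
  rw [this, ← map_zpow]
  rfl

theorem gl_fil (P : MvPolynomial J ℤ) (h : ∀ σ, rC ℤ σ P = 0 ∨ 𝔅'.B σ ≤ 𝔅.B σ) {a : ℤ}
    {y : 𝔅'.A} (hy : y ∈ fil 𝔅'.bdd.π 𝔅'.bdd.Ap a) : gl P h y ∈ fil 𝔅.bdd.π 𝔅.bdd.Ap a := by
  have h1 := gl_Ap P h (mem_fil.1 hy)
  rw [mem_fil]
  convert h1 using 1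
  induction y using indA
  rw [π_zpow_eq, π_zpow_eq, cF_eq, cF_eq, clA_mul, gl_cl, gl_cl, clA_mul]
  exact clA_congr fun m => mul_left_comm _ _ _

/-- Gluing commutes with enlarging the coefficient rings. -/
theorem mpA_gl {𝔆 𝔆' : 𝔸.Sys J} (P : MvPolynomial J ℤ)
    (h : ∀ σ, rC ℤ σ P = 0 ∨ 𝔅'.B σ ≤ 𝔅.B σ) (h' : ∀ σ, rC ℤ σ P = 0 ∨ 𝔆'.B σ ≤ 𝔆.B σ)
    (l : 𝔅 ≤ 𝔆) (l' : 𝔅' ≤ 𝔆') (y : 𝔅'.A) : mpA l (gl P h y) = gl P h' (mpA l' y) := by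
  induction y using indA
  rw [gl_cl, mpA_cl, mpA_cl, gl_cl]

/-- The product of two glued functions. -/
theorem gl_gl {𝔆 : 𝔸.Sys J} (P Q : MvPolynomial J ℤ)
    (h : ∀ σ, rC ℤ σ P = 0 ∨ 𝔅'.B σ ≤ 𝔅.B σ) (h' : ∀ σ, rC ℤ σ Q = 0 ∨ 𝔅''.B σ ≤ 𝔅.B σ)
    (h'' : ∀ σ, rC ℤ σ (P * Q) = 0 ∨ 𝔆.B σ ≤ 𝔅.B σ) (l : 𝔅' ≤ 𝔆) (l' : 𝔅'' ≤ 𝔆)
    (y : 𝔅'.A) (z : 𝔅''.A) : gl P h y * gl Q h' z = gl (P * Q) h'' (mpA l y * mpA l' z) := by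
  induction y using indA
  induction z using indA
  rw [gl_cl, gl_cl, mpA_cl, mpA_cl, clA_mul, clA_mul, gl_cl]
  exact clA_congr fun m => by
    simp only [Pi.mul_apply, map_mul]
    ring

variable [DecidableEq J]

theorem ev_seqC {j : J} {b : Bool} (h : 𝔅.upd j b ≤ 𝔅') {τ : Bool} {w : ℕ → MvPolynomial J F}
    (hw : w ∈ 𝔅.fC.Seq τ) : (fun m => rC F (fj j b) (w m)) ∈ 𝔅'.fC.Seq τ :=
  AFil.Seq.of_rel0 hw fun _ D a => ev_mem_fC h D a _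

theorem evA_cl (j : J) (b : Bool) (h : 𝔅.upd j b ≤ 𝔅') (w : ℕ → MvPolynomial J F)
    (hw : w ∈ 𝔅.fC.Seq false) :
    evA j b h (𝔅.clA w hw) = 𝔅'.clA (fun m => rC F (fj j b) (w m)) (ev_seqC h hw) := rfl

theorem evA_mpA {𝔆 𝔆' : 𝔸.Sys J} (j : J) (b : Bool) (h : 𝔅.upd j b ≤ 𝔆) (h' : 𝔅'.upd j b ≤ 𝔆')
    (l : 𝔅 ≤ 𝔅') (l' : 𝔆 ≤ 𝔆') (x : 𝔅.A) : evA j b h' (mpA l x) = mpA l' (evA j b h x) := by
  induction x using indA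
  rw [mpA_cl, evA_cl, evA_cl, mpA_cl]

theorem evA_cF (j : J) (b : Bool) (h : 𝔅.upd j b ≤ 𝔅') {B B' : Subring F}
    (hB : ∀ σ, B ≤ 𝔅.B σ) (hB' : ∀ σ, B' ≤ 𝔅'.B σ) (y : 𝔸.loc B) (y' : 𝔸.loc B')
    (e : (y : F) = y') : evA j b h (𝔅.cF B hB y) = 𝔅'.cF B' hB' y' := by
  rw [cF_eq, evA_cl, cF_eq]
  exact clA_congr fun _ => (rC_C _ _).trans (congrArg C e)

theorem evA_pA (j : J) (b : Bool) (h : 𝔅.upd j b ≤ 𝔅') (P : MvPolynomial J ℤ) :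
    evA j b h (𝔅.pA P) = 𝔅'.pA (rC ℤ (fj j b) P) := by
  rw [pA_eq, evA_cl, pA_eq]
  exact clA_congr fun _ => rC_map _ _ _

theorem evA_π (j : J) (b : Bool) (h : 𝔅.upd j b ≤ 𝔅') :
    evA j b h (𝔅.bdd.π : 𝔅.A) = 𝔅'.bdd.π := by
  rw [π_eq, evA_cl, π_eq]
  exact clA_congr fun _ => rC_C _ _

theorem evA_Ap (j : J) (b : Bool) (h : 𝔅.upd j b ≤ 𝔅') {x : 𝔅.A} (hx : x ∈ 𝔅.bdd.Ap) :
    evA j b h x ∈ 𝔅'.bdd.Ap := Fil.mapR_mem_Ap _ _ _ _ (ev_mem_fC h) hx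

theorem Free.upd_le {j : J} (h : 𝔅.Free j) (b : Bool) : 𝔅.upd j b ≤ 𝔅 := fun σ => (h σ _).le

variable [Fintype J]

/-- The class of a moderate sequence of forms. -/
def clO (𝔅 : 𝔸.Sys J) (w : ℕ → Fm n J F) (hw : w ∈ 𝔅.fO.Seq false) : 𝔅.Om := 𝔅.fO.cl w hw

@[elab_as_elim] theorem indO {p : 𝔅.Om → Prop} (x : 𝔅.Om) (h : ∀ w hw, p (𝔅.clO w hw)) : p x :=
  Fil.ind (F := 𝔅.fO) x h

theorem clO_eq {w w' : ℕ → Fm n J F} {hw : w ∈ 𝔅.fO.Seq false} {hw' : w' ∈ 𝔅.fO.Seq false} :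
    𝔅.clO w hw = 𝔅.clO w' hw' ↔ w - w' ∈ 𝔅.fO.Seq true := Fil.cl_eq

theorem clO_eq_zero {w : ℕ → Fm n J F} {hw : w ∈ 𝔅.fO.Seq false} :
    𝔅.clO w hw = 0 ↔ w ∈ 𝔅.fO.Seq true := Fil.cl_eq_zero

theorem clO_congr {w w' : ℕ → Fm n J F} {hw : w ∈ 𝔅.fO.Seq false}
    {hw' : w' ∈ 𝔅.fO.Seq false} (h : ∀ m, w m = w' m) : 𝔅.clO w hw = 𝔅.clO w' hw' :=
  Fil.cl_congr' h

theorem clO_mul (w w' : ℕ → Fm n J F) (hw : w ∈ 𝔅.fO.Seq false) (hw' : w' ∈ 𝔅.fO.Seq false) :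
    𝔅.clO w hw * 𝔅.clO w' hw' = 𝔅.clO (w * w') (𝔅.fO.seq_mul hw hw') := 𝔅.fO.cl_mul _ _ _ _

theorem clO_add (w w' : ℕ → Fm n J F) (hw : w ∈ 𝔅.fO.Seq false) (hw' : w' ∈ 𝔅.fO.Seq false) :
    𝔅.clO w hw + 𝔅.clO w' hw' = 𝔅.clO (w + w') (add_mem hw hw') := 𝔅.fO.cl_add _ _ _ _

theorem clO_sub (w w' : ℕ → Fm n J F) (hw : w ∈ 𝔅.fO.Seq false) (hw' : w' ∈ 𝔅.fO.Seq false) :
    𝔅.clO w hw - 𝔅.clO w' hw' = 𝔅.clO (w - w') (sub_mem hw hw') := 𝔅.fO.cl_sub _ _ _ _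

theorem clO_zero (𝔅 : 𝔸.Sys J) : (0 : 𝔅.Om) = 𝔅.clO 0 (zero_mem _) := 𝔅.fO.cl_zero

theorem of0_seq {τ : Bool} {w : ℕ → MvPolynomial J F} (hw : w ∈ 𝔅.fC.Seq τ) :
    (fun m => (Gr.of0 (w m) : Fm n J F)) ∈ 𝔅.fO.Seq τ :=
  AFil.Seq.of_rel0 hw fun _ D a => 𝔅.of0_mem_fO D a _

theorem dF_seq {τ : Bool} {w : ℕ → Fm n J F} (hw : w ∈ 𝔅.fO.Seq τ) :
    (fun m => 𝔸.dF J (w m)) ∈ 𝔅.fO.Seq τ := 𝔅.bd_dF.seq hw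

theorem le_seqO (h : 𝔅 ≤ 𝔅') {τ : Bool} {w : ℕ → Fm n J F} (hw : w ∈ 𝔅.fO.Seq τ) :
    w ∈ 𝔅'.fO.Seq τ := AFil.Seq.of_rel0 hw fun _ D a => le_mem_fO h D a _

theorem ev_seqO {j : J} {b : Bool} (h : 𝔅.upd j b ≤ 𝔅') {τ : Bool} {w : ℕ → Fm n J F}
    (hw : w ∈ 𝔅.fO.Seq τ) : (fun m => rO (fj j b) (w m)) ∈ 𝔅'.fO.Seq τ :=
  AFil.Seq.of_rel0 hw fun _ D a => ev_mem_fO h D a _

theorem i_cl (w : ℕ → MvPolynomial J F) (hw : w ∈ 𝔅.fC.Seq false) :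
    𝔅.dg.i (𝔅.clA w hw) = 𝔅.clO (fun m => Gr.of0 (w m)) (of0_seq hw) := rfl

theorem d_cl (w : ℕ → Fm n J F) (hw : w ∈ 𝔅.fO.Seq false) :
    𝔅.dg.d (𝔅.clO w hw) = 𝔅.clO (fun m => 𝔸.dF J (w m)) (dF_seq hw) := rfl

theorem mpO_cl (h : 𝔅 ≤ 𝔅') (w : ℕ → Fm n J F) (hw : w ∈ 𝔅.fO.Seq false) :
    (mpH h).o (𝔅.clO w hw) = 𝔅'.clO w (le_seqO h hw) := rfl

theorem evO_cl (j : J) (b : Bool) (h : 𝔅.upd j b ≤ 𝔅') (w : ℕ → Fm n J F)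
    (hw : w ∈ 𝔅.fO.Seq false) :
    (evH j b h).o (𝔅.clO w hw) = 𝔅'.clO (fun m => rO (fj j b) (w m)) (ev_seqO h hw) := rfl

theorem mem_Fd {r : ℕ} {x : 𝔅.Om} :
    x ∈ 𝔅.dg.Fd r ↔ ∃ w hw, 𝔅.clO w hw = x ∧ ∀ m I, I.card < r → w m I = 0 := Iff.rfl

theorem _root_.Pool.Agent.P.MP_f43029_ag.XL.Amb.dF_C (c : K) :
    𝔸.dF J (Gr.of0 (C (algebraMap K F c))) = 0 := by
  rw [dF, Gr.dd_of0]
  refine Finset.sum_eq_zero fun i _ => ?_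
  rcases i with i | j
  · rw [derC_inl, mpa_C, 𝔸.δ_c, C_0, zero_smul]
  · rw [derC_inr, pderiv_C, zero_smul]

theorem d_π (𝔅 : 𝔸.Sys J) : 𝔅.dg.d (𝔅.dg.i (𝔅.bdd.π : 𝔅.A)) = 0 := by
  rw [π_eq, i_cl, d_cl, clO_zero]
  exact clO_congr fun _ => 𝔸.dF_C 𝔸.π

end Sys

end Amb

namespace Tow

open Amb

variable {n : ℕ} {K F : Type} [Field K] [Field F] [CharZero K] [CharZero F] [Algebra K F]
  {𝔸 : Amb (n + 1) K F} {ι : Type} (𝒯 : Tow 𝔸 ι)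

theorem _root_.Pool.Agent.P.MP_f43029_ag.XL.Face.le.ne {J : Type} {σ σ' : Face J} (h : σ.le σ')
    {j : J} {b : Bool} (h' : σ j ≠ some b) : σ' j ≠ some b := by
  rcases h j with e | e <;> rw [e]
  · simp
  · exact h'

theorem gens_mono {σ σ' : Face (Cub n ι)} (h : σ.le σ') : 𝒯.gens σ ⊆ 𝒯.gens σ' :=
  fun _ ⟨c, hc⟩ => ⟨c, hc.imp (fun h' => ⟨h.ne h'.1, h'.2⟩) fun h' => ⟨h.ne h'.1, h'.2⟩⟩

theorem IS_mono {σ σ' : Face (Cub n ι)} (h : σ.le σ') : IS σ ⊆ IS σ' :=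
  fun _ hi j => ⟨fun h' => h.ne ((hi j).1 h'), fun h' => h.ne ((hi j).2 h')⟩

theorem sD_mono : 𝒯.sD.Mono := fun _ _ h => cell_mono (𝒯.gens_mono h)

theorem sS_mono : 𝒯.sS.Mono := fun _ _ h => cell_mono
  (Set.union_subset_union (𝒯.gens_mono h) fun _ ⟨i, hi, e⟩ => ⟨i, IS_mono h hi, e⟩)

theorem sD_le : 𝒯.sD ≤ 𝒯.sS := fun _ => cell_mono Set.subset_union_left

theorem base_le_sD (σ : Face (Cub n ι)) : 𝔸.cell ∅ ≤ 𝒯.sD.B σ := cell_mono (Set.empty_subset _)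

theorem base_le_sS (σ : Face (Cub n ι)) : 𝔸.cell ∅ ≤ 𝒯.sS.B σ := cell_mono (Set.empty_subset _)

/-- At every vertex of the sphere one coordinate is inverted. -/
theorem exists_inv (v : Cub n ι → Bool) : ∃ i, (((𝔸.w i)⁻¹ : Fˣ) : F) ∈ 𝒯.sS.B (vf v) := by
  classical
  have : ∃ i, i ∈ IS (vf v) := by
    by_cases h : ∃ j : Fin n, v (some (Sum.inl j)) = false
    · obtain ⟨j, hj, hmin⟩ := wellFounded_lt.has_min {j : Fin n | v (some (Sum.inl j)) = false} h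
      refine ⟨j.castSucc, fun k => ⟨fun hk e => hmin k (Option.some.inj e) ?_, fun hk e => ?_⟩⟩
      · exact Fin.castSucc_lt_castSucc_iff.1 hk
      · rw [Fin.castSucc_inj.1 hk] at e
        exact absurd ((Option.some.inj e).symm.trans hj) (by simp)
    · exact ⟨Fin.last n, fun k => ⟨fun _ e => h ⟨k, Option.some.inj e⟩,
        fun hk => absurd hk (Fin.castSucc_lt_last k).ne⟩⟩
  obtain ⟨i, hi⟩ := this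
  exact ⟨i, 𝔸.mem_cell (Or.inr ⟨i, hi, rfl⟩)⟩

/-- The coordinate functions `(π w i) ^ q`. -/
def zc (q : ℕ) (i : Fin (n + 1)) : 𝔸.loc (𝔸.cell ∅) :=
  ⟨((𝔸.ϖ : F) * 𝔸.w i) ^ q, Subring.subset_closure (Or.inl
    (pow_mem (mul_mem (𝔸.VF_le_cell _ 𝔸.ϖ_mem) (𝔸.w_mem_cell _ i)) q))⟩

variable [DecidableEq ι]

theorem sD_free : 𝒯.sD.Free none := fun σ o => by
  simp [sD, gens]

theorem sS_free : 𝒯.sS.Free none := fun σ o => by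
  simp [sS, gens, IS]

theorem on_free (c : ι) (P : Option Bool → Prop) : (𝒯.sS.on {σ | P (σ (cj c))}).Free none :=
  fun σ o => by
    by_cases h : P (σ (cj c))
    · rw [Sys.on_B _ (by simpa using h), Sys.on_B _ (by simpa using h), 𝒯.sS_free]
    · rw [Sys.on_B_top _ (by simpa using h), Sys.on_B_top _ (by simpa using h)]

theorem sU_free (c : ι) : (𝒯.sU c).Free none := 𝒯.on_free c (· ≠ some true)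

theorem sO_free (c : ι) : (𝒯.sO c).Free none := 𝒯.on_free c (· = none)

theorem sW_le (c : ι) : 𝒯.sW c ≤ 𝒯.sS.upd (cj c) false := fun _ => 𝒯.sD_le _

theorem upd_le_on (c : ι) (b : Bool) :
    𝒯.sS.upd (cj c) b ≤ 𝒯.sS.on {σ | σ (cj c) ≠ some (!b)} := fun σ => by
  by_cases h : σ (cj c) ≠ some (!b)
  · rw [Sys.on_B _ (by simpa using h)]
    refine 𝒯.sS_mono _ _ fun j => ?_
    by_cases hj : j = cj c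
    · subst hj
      rw [Function.update_self]
      revert h
      rcases σ (cj c) with _ | _ | _ <;> cases b <;> simp
    · exact Or.inr (Function.update_of_ne hj _ _).symm
  · rw [Sys.on_B_top _ (by simpa using h)]
    exact le_top

theorem upd_le_sU (c : ι) : 𝒯.sS.upd (cj c) false ≤ 𝒯.sU c := 𝒯.upd_le_on c false

theorem upd_le_sT (c : ι) : 𝒯.sS.upd (cj c) true ≤ 𝒯.sT c := 𝒯.upd_le_on c true

theorem sW_le_sU (c : ι) : 𝒯.sW c ≤ 𝒯.sU c := Sys.le_trans' (𝒯.sW_le c) (𝒯.upd_le_sU c)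

omit [DecidableEq ι] in
theorem sU_le_sO (c : ι) : 𝒯.sU c ≤ 𝒯.sO c := 𝒯.sS.on_le_on fun σ h => by
  simp [show σ (cj c) = none from h]

omit [DecidableEq ι] in
theorem sT_le_sO (c : ι) : 𝒯.sT c ≤ 𝒯.sO c := 𝒯.sS.on_le_on fun σ h => by
  simp [show σ (cj c) = none from h]

theorem sU_upd (c : ι) : (𝒯.sU c).upd (cj c) false ≤ 𝒯.sU c := fun σ =>
  (Sys.on_B 𝒯.sS (by simp)).le.trans (𝒯.upd_le_sU c σ)

theorem sT_upd (c : ι) : (𝒯.sT c).upd (cj c) true ≤ 𝒯.sT c := fun σ =>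
  (Sys.on_B 𝒯.sS (by simp)).le.trans (𝒯.upd_le_sT c σ)

variable [Fintype ι]

/-- The properties of the residue. -/
structure IsRes (Res : 𝒯.sS.Om →ₗ[ℚ] ℚ) : Prop where
  d : ∀ ω, Res (𝒯.sS.dg.d ω) = 0
  disc : ∀ ω : 𝒯.sD.Om, 𝒯.sD.dg.d ω = 0 → Res ((Sys.mpH 𝒯.sD_le).o ω) = 0
  kos : ∀ q : ℕ, 0 < q → ∃ y : Fin (n + 1) → 𝒯.sS.A,
    ∑ i, 𝒯.sS.cF _ 𝒯.base_le_sS (zc q i) * y i = 1 ∧
    Res (𝒯.sS.dg.oo (kpar (n + 1))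
      (kos (n + 1) (fun i => 𝒯.sS.cF _ 𝒯.base_le_sS (zc q i)) y) (2 * n + 1)) ≠ 0

end Tow

end Pool.Agent.P.MP_f43029_ag.XL
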