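import Pool.Agent.P.MP_f43029_ag.XL.Asym
import Pool.Agent.P.MP_f43029_ag.Mx.ALaur

/-!
Cells are noetherian; intermediate towers of cells.
-/

set_option autoImplicit false

noncomputable section

namespace Pool.Agent.P.MP_f43029_ag.XL

open Pool.Agent.Theta

namespace ACe

variable {n : ℕ} {K F : Type} [Field K] [Field F] [CharZero K] [CharZero F] [Algebra K F]
  (𝔸 : Amb n K F)

theorem noeth {G : Set F} (hG : G.Finite) : IsNoetherianRing (𝔸.cell G) := by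
  have := 𝔸.noeth
  have : IsNoetherianRing 𝔸.VF :=
    isNoetherianRing_of_ringEquiv 𝔸.V (𝔸.V.equivMapOfInjective _ (algebraMap K F).injective)
  have hf : (Set.range (fun i => (𝔸.w i : F)) ∪ G).Finite := (Set.finite_range _).union hG
  have h1 : IsNoetherianRing (Algebra.adjoin 𝔸.VF (Set.range (fun i => (𝔸.w i : F)) ∪ G)) :=
    isNoetherianRing_of_fg (Subalgebra.fg_def.2 ⟨_, hf, rfl⟩)
  have e : (Algebra.adjoin 𝔸.VF (Set.range (fun i => (𝔸.w i : F)) ∪ G)).toSubring = 𝔸.cell G := by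
    rw [Algebra.adjoin_eq_ring_closure, Amb.cell, Set.union_assoc]
    congr 2
    ext x
    exact ⟨fun ⟨a, ha⟩ => ha ▸ a.2, fun hx => ⟨⟨x, hx⟩, rfl⟩⟩
  rw [← e]
  exact h1

theorem cell_union (G H : Set F) : 𝔸.cell (H ∪ G) = Subring.closure (H ∪ (𝔸.cell G : Set F)) := by
  refine le_antisymm (Subring.closure_le.2 ?_) (Subring.closure_le.2 ?_)
  · rintro x (hx | hx | hx)
    · exact Subring.subset_closure (Or.inr (Subring.subset_closure (Or.inl hx)))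
    · exact Subring.subset_closure (Or.inl hx)
    · exact Subring.subset_closure (Or.inr (𝔸.mem_cell hx))
  · rintro x (hx | hx)
    · exact 𝔸.mem_cell (Or.inl hx)
    · exact Amb.cell_mono Set.subset_union_right hx

end ACe

namespace Tow

open Amb

variable {n : ℕ} {K F : Type} [Field K] [Field F] [CharZero K] [CharZero F] [Algebra K F]
  {𝔸 : Amb (n + 1) K F} {ι : Type} (𝒯 : Tow 𝔸 ι)

/-- All generators of cells. -/
def Gen : Set F :=
  {y | (∃ c, y = 𝒯.h c ∨ y = ((𝒯.h c)⁻¹ : Fˣ)) ∨ ∃ i, y = ((𝔸.w i)⁻¹ : Fˣ)}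

theorem Gen_finite [Finite ι] : 𝒯.Gen.Finite := by
  refine (((Set.finite_range fun c => (𝒯.h c : F)).union
    (Set.finite_range fun c => (((𝒯.h c)⁻¹ : Fˣ) : F))).union
    (Set.finite_range fun i => (((𝔸.w i)⁻¹ : Fˣ) : F))).subset ?_
  rintro y (⟨c, rfl | rfl⟩ | ⟨c, rfl⟩)
  · exact Or.inl (Or.inl ⟨c, rfl⟩)
  · exact Or.inl (Or.inr ⟨c, rfl⟩)
  · exact Or.inr ⟨c, rfl⟩

/-- The system of cells with prescribed generators. -/
def sX (X : Face (Cub n ι) → Set F) (hX : ∀ σ, X σ ⊆ 𝒯.Gen) : 𝔸.Sys (Cub n ι) where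
  B σ := 𝔸.cell (X σ)
  V_le _ := 𝔸.VF_le_cell _
  stab := ⟨𝒯.e, fun σ i _ hy => 𝒯.δ_cell (hX σ) i hy⟩

/-- The generators that belong to the comparisons in `T`. -/
def gT (T : Finset ι) (σ : Face (Cub n ι)) : Set F :=
  {y | ∃ c ∈ T, (σ (cj c) ≠ some false ∧ y = 𝒯.h c) ∨
    (σ (cj c) ≠ some true ∧ y = ((𝒯.h c)⁻¹ : Fˣ))}

theorem gT_sub (T : Finset ι) {X : Face (Cub n ι) → Set F} (hX : ∀ σ, X σ ⊆ 𝒯.Gen)
    (σ : Face (Cub n ι)) : 𝒯.gT T σ ∪ X σ ⊆ 𝒯.Gen := by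
  rintro y (⟨c, -, ⟨-, rfl⟩ | ⟨-, rfl⟩⟩ | hy)
  · exact Or.inl ⟨c, Or.inl rfl⟩
  · exact Or.inl ⟨c, Or.inr rfl⟩
  · exact hX σ hy

theorem gT_mono (T : Finset ι) {σ σ' : Face (Cub n ι)} (h : σ.le σ') : 𝒯.gT T σ ⊆ 𝒯.gT T σ' := by
  rintro y ⟨c, hc, hy⟩
  refine ⟨c, hc, ?_⟩
  rcases h (cj c) with h | h
  · rcases hy with hy | hy
    · exact Or.inl ⟨by simp [h], hy.2⟩
    · exact Or.inr ⟨by simp [h], hy.2⟩
  · rwa [h]

theorem gT_univ [Fintype ι] (σ : Face (Cub n ι)) : 𝒯.gT Finset.univ σ = 𝒯.gens σ := by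
  ext y
  simp [gT, gens]

variable [DecidableEq ι]

theorem gT_upd {T : Finset ι} {c : ι} (hc : c ∉ T) (σ : Face (Cub n ι)) (o : Option Bool) :
    𝒯.gT T (Function.update σ (cj c) o) = 𝒯.gT T σ := by
  ext y
  refine exists_congr fun c' => and_congr_right fun hc' => ?_
  have : (cj c' : Cub n ι) ≠ cj c := fun e => hc (by
    rwa [← Sum.inr.inj (Option.some.inj e)])
  rw [Function.update_of_ne this]

theorem gT_insert (T : Finset ι) (c : ι) (σ : Face (Cub n ι)) :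
    𝒯.gT (insert c T) σ = {y : F | (σ (cj c) ≠ some false ∧ y = 𝒯.h c) ∨
      (σ (cj c) ≠ some true ∧ y = ((𝒯.h c)⁻¹ : Fˣ))} ∪ 𝒯.gT T σ := by
  ext y
  simp [gT]

end Tow

end Pool.Agent.P.MP_f43029_ag.XL
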