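import Pool.Agent.P.MP_f43029_ag.XL.AKosA
import Pool.Agent.P.MP_f43029_ag.XL.AApi

/-! The Koszul form on the sphere is the class of an explicit top form. -/

set_option autoImplicit false
set_option linter.unusedSectionVars false

noncomputable section

namespace Pool.Agent.P.MP_f43029_ag.XL

open Pool.Agent.Theta MvPolynomial CW

theorem Fil.Cp.oo_cst {P Ω : Type} [CommRing P] [Algebra ℚ P] [Ring Ω] [Algebra ℚ Ω] {F : Fil P}
    {E : Fil Ω} {G : DG P Ω} (h : Fil.Cp F E G) {ι : Type} [Fintype ι] [DecidableEq ι]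
    (p : ι → Bool) (B : Matrix ι ι F.fin) (m : ℕ) :
    ∃ hw : G.oo p (B.map F.fin.subtype) m ∈ E.fin,
      (Fil.toDG h).oo p (B.map F.cst) m = E.cst ⟨_, hw⟩ := by
  have hi : ∀ x : F.fin, G.i x ∈ E.fin := fun ⟨x, D, a, hx⟩ =>
    let ⟨_, hk⟩ := h.i
    ⟨_, _, hk D a x hx⟩
  have hd : ∀ x : E.fin, G.d x ∈ E.fin := fun ⟨x, D, a, hx⟩ =>
    let ⟨_, hk⟩ := h.d
    ⟨_, _, hk D a x hx⟩
  let X : Matrix ι ι E.fin := B.map fun x => ⟨G.i x, hi x⟩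
  let Y : Matrix ι ι E.fin := B.map fun x => ⟨G.d (G.i x), hd ⟨_, hi x⟩⟩
  have e : ∀ {R : Type} [Ring R] (f : E.fin →+* R),
      f (Matrix.trace (SM E.fin p * (X * Y) ^ m)) =
        Matrix.trace (SM R p * (X.map f * Y.map f) ^ m) := fun f => by
    rw [map_trace', Matrix.map_mul, SM_map, map_pow', Matrix.map_mul]
  have e1 : G.oo p (B.map F.fin.subtype) m = (Matrix.trace (SM E.fin p * (X * Y) ^ m) : E.fin) :=
    (e E.fin.subtype).symm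
  exact ⟨e1 ▸ Subtype.prop _, (e E.cst).symm.trans (congrArg _ (Subtype.ext e1.symm))⟩

theorem pW_gen {τ C : Type} [Fintype τ] [DecidableEq τ] [CommRing C] [SD (Gr τ C)] :
    ∀ (n : ℕ) (a : Fin (n + 1) → τ) (b : Fin n → τ) (c : Fin (n + 1) → C) (s : Fin n → C),
      Function.Injective a → Function.Injective b → (∀ i j, a i ≠ b j) →
      (∀ j, d0 (Gr τ C) (s j) = Gr.gen (b j)) → ∃ ε : ℤ, (ε = 1 ∨ ε = -1) ∧
        pW n (fun i => c i • (Gr.gen (a i) : Gr τ C)) s =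
          ε • (∏ i, c i) • Gr.bas (Finset.univ.image a ∪ Finset.univ.image b)
  | 0, a, b, c, s, _, _, _, _ => ⟨1, Or.inl rfl, by simp [pW, Gr.gen]⟩
  | n + 1, a, b, c, s, ha, hb, hab, hs => by
    obtain ⟨ε, hε, e⟩ := pW_gen n (fun i => a i.succ) (fun j => b j.succ) (fun i => c i.succ)
      (fun j => s j.succ) (ha.comp (Fin.succ_injective _)) (hb.comp (Fin.succ_injective _))
      (fun i j => hab _ _) fun j => hs _
    have d1 : Disjoint {b 0} (Finset.univ.image (fun i : Fin (n + 1) => a i.succ) ∪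
        Finset.univ.image fun j : Fin n => b j.succ) := by
      simp [(hab _ _), hb.eq_iff]
    have d2 : Disjoint {a 0} ({b 0} ∪ (Finset.univ.image (fun i : Fin (n + 1) => a i.succ) ∪
        Finset.univ.image fun j : Fin n => b j.succ)) := by
      simp [(hab _ _), (hab _ _).symm, ha.eq_iff]
    have e2 : {a 0} ∪ ({b 0} ∪ (Finset.univ.image (fun i : Fin (n + 1) => a i.succ) ∪
        Finset.univ.image fun j : Fin n => b j.succ)) =
        Finset.univ.image a ∪ Finset.univ.image b := by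
      ext x
      simp only [Finset.mem_union, Finset.mem_singleton, Finset.mem_image, Finset.mem_univ,
        true_and, Fin.exists_fin_succ, eq_comm]
      tauto
    obtain ⟨u, hu, e3⟩ : ∃ u : ℤ, (u = 1 ∨ u = -1) ∧ (Gr.gen (a 0) * (Gr.gen (b 0) *
        Gr.bas (Finset.univ.image (fun i : Fin (n + 1) => a i.succ) ∪
          Finset.univ.image fun j : Fin n => b j.succ)) : Gr τ C) =
        u • Gr.bas (Finset.univ.image a ∪ Finset.univ.image b) := by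
      rw [Gr.gen, Gr.gen, Gr.bas_mul_bas d1, mul_smul_comm, Gr.bas_mul_bas d2, e2, smul_smul]
      refine ⟨_, ?_, rfl⟩
      rw [← Int.isUnit_iff]
      exact (Int.isUnit_iff.2 (sg_cases _ _)).mul (Int.isUnit_iff.2 (sg_cases _ _))
    refine ⟨ε * u, ?_, ?_⟩
    · rcases hε with rfl | rfl <;> rcases hu with rfl | rfl <;> simp
    · rw [pW, e, hs, Fin.prod_univ_succ c, smul_mul_assoc, smul_mul_assoc, mul_smul_comm,
        mul_smul_comm, mul_assoc, e3]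
      module

variable {n : ℕ} {K F : Type} [Field K] [Field F] [CharZero K] [CharZero F] [Algebra K F]
  {𝔸 : Amb (n + 1) K F} {ι : Type} [Fintype ι] [DecidableEq ι]

/-- All `dw` and all differentials of simplex coordinates. -/
def topI (n : ℕ) (ι : Type) [Fintype ι] [DecidableEq ι] : Finset (Fin (n + 1) ⊕ Cub n ι) :=
  Finset.univ.image Sum.inl ∪ Finset.univ.image fun j : Fin n => Sum.inr (some (Sum.inl j))

variable (𝔸 ι) in
/-- The top form of the sphere. -/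
def topF : Fm (n + 1) (Cub n ι) F :=
  (C ((∏ i, (𝔸.w i)⁻¹ : Fˣ) : F) * ∏ j : Fin n, X (some (Sum.inl j)) ^ (n - 1 - j) :
    MvPolynomial (Cub n ι) F) • Gr.bas (topI n ι)

theorem topF_apply (I : Finset (Fin (n + 1) ⊕ Cub n ι)) : topF 𝔸 ι I = if I = topI n ι then
    C ((∏ i, (𝔸.w i)⁻¹ : Fˣ) : F) * ∏ j : Fin n, X (some (Sum.inl j)) ^ (n - 1 - j) else 0 := by
  rw [topF, Gr.smul_apply, Gr.bas, mul_ite, mul_one, mul_zero]

theorem mem_topI {x : Fin (n + 1) ⊕ Cub n ι} :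
    x ∈ topI n ι ↔ (∃ i, x = Sum.inl i) ∨ ∃ j, x = Sum.inr (some (Sum.inl j)) := by
  simp [topI, eq_comm]

theorem res_top : 𝔸.res ((∏ i, (𝔸.w i)⁻¹ : Fˣ) : F) = 1 := by
  simpa using 𝔸.res_w fun _ => -1

/-- The simplex coordinates. -/
def lS (n : ℕ) (ι : Type) (i : Fin (n + 1)) : MvPolynomial (Cub n ι) ℤ :=
  lc n (fun j => X (some (Sum.inl j))) i

theorem rC_lS {σ : Face (Cub n ι)} {i : Fin (n + 1)} (h : i ∉ IS σ) : rC ℤ σ (lS n ι i) = 0 := by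
  rw [lS, lc_map]
  simp only [IS, Set.mem_ofPred_eq, not_forall, not_and_or, Classical.not_imp, not_not] at h
  obtain ⟨j, ⟨h1, h2⟩ | ⟨rfl, h2⟩⟩ := h
  · exact lc_of_zero _ _ j i (by rw [rC_X, rv_false h2]) h1
  · exact lc_of_one _ _ j (by rw [rC_X, rv_true h2])

theorem δ_pow (i j : Fin (n + 1)) (q : ℕ) : 𝔸.δ i (((𝔸.ϖ : F) * 𝔸.w j) ^ (q + 1)) =
    if i = j then ((q + 1 : ℕ) : F) * ((𝔸.ϖ : F) * 𝔸.w j) ^ q * 𝔸.ϖ else 0 := by
  have e : 𝔸.δ i ((𝔸.ϖ : F) * 𝔸.w j) = if i = j then (𝔸.ϖ : F) else 0 := by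
    have := 𝔸.δ_ϖ_zpow i 1 (𝔸.w j)
    rw [zpow_one, 𝔸.δ_w] at this
    rw [this, mul_ite, mul_one, mul_zero]
  induction q with
  | zero => simpa using e
  | succ q ih =>
    rw [pow_succ, 𝔸.der.leib, ih, e]
    split_ifs
    · push_cast
      ring
    · simp

theorem amb_kos (q : ℕ) (hq : 0 < q) : ∃ ε : ℤ, (ε = 1 ∨ ε = -1) ∧
    (𝔸.dgF (Cub n ι)).oo (kpar (n + 1)) (kos (n + 1) (fun i => C (((𝔸.ϖ : F) * 𝔸.w i) ^ q))
      fun i => C ((((𝔸.ϖ : F) * 𝔸.w i) ^ q)⁻¹) * zP F (lS n ι i)) (2 * n + 1) =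
      (ε * (2 * (2 * n + 1).factorial * q ^ (n + 1) : ℕ)) • topF 𝔸 ι := by
  obtain ⟨q, rfl⟩ : ∃ q', q = q' + 1 := ⟨q - 1, by omega⟩
  have ne : ∀ i, ((𝔸.ϖ : F) * 𝔸.w i) ≠ 0 := fun i => mul_ne_zero 𝔸.ϖ.ne_zero (𝔸.w i).ne_zero
  have hz : ∀ i, (C (((𝔸.ϖ : F) * 𝔸.w i) ^ (q + 1)) : MvPolynomial (Cub n ι) F) *
      C ((((𝔸.ϖ : F) * 𝔸.w i) ^ (q + 1))⁻¹) = 1 := fun i => by
    rw [← C_mul, mul_inv_cancel₀ (pow_ne_zero _ (ne i)), C_1]
  have el : ∀ i, zP F (lS n ι i) = lc n (fun j => X (some (Sum.inl j))) i := fun i => by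
    rw [lS, lc_map]
    simp
  simp only [el]
  obtain ⟨s, hs, e⟩ := (𝔸.dgF (Cub n ι)).oo_kos n (fun i => C (((𝔸.ϖ : F) * 𝔸.w i) ^ (q + 1)))
    (fun i => C ((((𝔸.ϖ : F) * 𝔸.w i) ^ (q + 1))⁻¹) * lc n (fun j => X (some (Sum.inl j))) i) (by
      simp only [← mul_assoc, hz, one_mul, sum_lc])
  letI := toSD (𝔸.dgF (Cub n ι))
  haveI : EvAlg (MvPolynomial (Cub n ι) F) (Fm (n + 1) (Cub n ι) F) :=
    ⟨Gr.inv_of0, (𝔸.dgF (Cub n ι)).d_comm⟩
  have k := kos_simplex (Ω := Fm (n + 1) (Cub n ι) F) n hz fun j => X (some (Sum.inl j))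
  have dd : ∀ P : MvPolynomial (Cub n ι) F, d0 (Fm (n + 1) (Cub n ι) F) P =
      ∑ i, 𝔸.derC _ i P • Gr.gen i := fun P => Gr.dd_of0 _ P
  have a : ∀ i, (C ((((𝔸.ϖ : F) * 𝔸.w i) ^ (q + 1))⁻¹) : MvPolynomial (Cub n ι) F) •
      d0 (Fm (n + 1) (Cub n ι) F) (C (((𝔸.ϖ : F) * 𝔸.w i) ^ (q + 1)) : MvPolynomial (Cub n ι) F) =
      (C (((q + 1 : ℕ) : F) * ((𝔸.w i)⁻¹ : Fˣ)) : MvPolynomial (Cub n ι) F) •
        Gr.gen (Sum.inl i) := fun i => by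
    rw [dd, Fintype.sum_sum_type, Finset.sum_eq_single i, Finset.sum_eq_zero, add_zero, smul_smul,
      Amb.derC_inl, mpa_C, δ_pow, if_pos rfl, ← C_mul]
    · congr 2
      have := 𝔸.ϖ.ne_zero
      have := (𝔸.w i).ne_zero
      rw [Units.val_inv_eq_inv_val]
      field_simp
      ring
    · intro j _
      rw [Amb.derC_inr, pderiv_C, zero_smul]
    · intro j _ hj
      rw [Amb.derC_inl, mpa_C, δ_pow, if_neg hj, C_0, zero_smul]
    · simp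
  obtain ⟨ε, hε, e2⟩ := pW_gen (τ := Fin (n + 1) ⊕ Cub n ι) (C := MvPolynomial (Cub n ι) F) n
    Sum.inl (fun j => Sum.inr (some (Sum.inl j)))
    (fun i => C (((q + 1 : ℕ) : F) * ((𝔸.w i)⁻¹ : Fˣ))) (fun j => X (some (Sum.inl j)))
    Sum.inl_injective (fun _ _ h => by simpa using h) (fun _ _ => Sum.inl_ne_inr) fun j => by
      rw [dd, Fintype.sum_sum_type, Finset.sum_eq_zero, zero_add,
        Finset.sum_eq_single (some (Sum.inl j)), Amb.derC_inr, pderiv_X_self, one_smul]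
      · intro j' _ hj
        rw [Amb.derC_inr, pderiv_X_of_ne hj.symm, zero_smul]
      · simp
      · intro i _
        rw [Amb.derC_inl, X, mpa_monomial, show 𝔸.δ i 1 = 0 by simpa using 𝔸.δ_c i 1,
          monomial_zero, zero_smul]
  simp only [a, e2] at k
  simp only [Algebra.smul_def (R := MvPolynomial (Cub n ι) F)] at k
  refine ⟨-(s * ε * (-1) ^ n), ?_, e.trans ?_⟩
  · rcases hs with rfl | rfl <;> rcases hε with rfl | rfl <;>
      rcases neg_one_pow_eq_or ℤ n with h | h <;> simp [h]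
  · refine (congrArg _ k).trans ?_
    simp only [← Algebra.smul_def (R := MvPolynomial (Cub n ι) F)]
    rw [topF, ← map_prod, Finset.prod_mul_distrib, Finset.prod_const, Finset.card_univ,
      Fintype.card_fin, C_mul, C_pow, map_natCast, Units.coe_prod, topI]
    push_cast
    module

theorem Amb.Sys.kos_form (𝔅 : 𝔸.Sys (Cub n ι)) (hb : ∀ σ, 𝔸.cell ∅ ≤ 𝔅.B σ)
    (hw : ∀ σ, ∀ i ∈ IS σ, (((𝔸.w i)⁻¹ : Fˣ) : F) ∈ 𝔅.B σ) (q : ℕ) (hq : 0 < q) :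
    ∃ (y : Fin (n + 1) → 𝔅.A) (N : ℤ) (hT : (fun _ : ℕ => topF 𝔸 ι) ∈ 𝔅.fO.Seq false), N ≠ 0 ∧
      ∑ i, 𝔅.cF _ hb (Tow.zc q i) * y i = 1 ∧
      𝔅.dg.oo (kpar (n + 1)) (kos (n + 1) (fun i => 𝔅.cF _ hb (Tow.zc q i)) y) (2 * n + 1) =
        N • (𝔅.fO.cl (fun _ => topF 𝔸 ι) hT : 𝔅.Om) := by
  have ne : ∀ i, ((𝔸.ϖ : F) * 𝔸.w i) ≠ 0 := fun i => mul_ne_zero 𝔸.ϖ.ne_zero (𝔸.w i).ne_zero
  have hy : ∀ i, C ((((𝔸.ϖ : F) * 𝔸.w i) ^ q)⁻¹) * zP F (lS n ι i) ∈ 𝔅.fC.fin := fun i =>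
    ⟨_, -q, fun σ => by
      rw [mul_comm, map_mul, rC_map, rC_C]
      by_cases h : i ∈ IS σ
      · refine cd_mono (by simpa using totalDegree_rC_le σ _) le_rfl
          (zP_mul_cd _ (C_mem_cd (mem_fil.2 ?_) 0))
        rw [neg_neg, zpow_natCast, mul_pow, mul_inv, Units.val_pow_eq_pow_val, ← mul_assoc,
          mul_inv_cancel₀ (pow_ne_zero _ 𝔸.ϖ.ne_zero), one_mul, ← inv_pow,
          ← Units.val_inv_eq_inv_val]
        exact pow_mem (hw σ i h) q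
      · rw [rC_lS h, map_zero, zero_mul]
        exact zero_mem _⟩
  let z : Fin (n + 1) → 𝔅.fC.fin := fun i => ⟨_, 𝔅.C_mem_fin hb (Tow.zc q i)⟩
  let y : Fin (n + 1) → 𝔅.fC.fin := fun i => ⟨_, hy i⟩
  have hs : ∑ i, z i * y i = 1 := Subtype.ext (by
    have : ∀ i, ((z i * y i : 𝔅.fC.fin) : MvPolynomial (Cub n ι) F) = zP F (lS n ι i) := fun i => by
      change C (((𝔸.ϖ : F) * 𝔸.w i) ^ q) * (C _ * _) = _
      rw [← mul_assoc, ← C_mul, mul_inv_cancel₀ (pow_ne_zero _ (ne i)), C_1, one_mul]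
    rw [AddSubmonoidClass.coe_finsetSum, Finset.sum_congr rfl fun i _ => this i, ← map_sum]
    simp only [lS, sum_lc, map_one, OneMemClass.coe_one])
  obtain ⟨ε, hε, e⟩ := amb_kos (𝔸 := 𝔸) (ι := ι) q hq
  obtain ⟨h0, e2⟩ := 𝔅.cp.oo_cst (kpar (n + 1)) (kos (n + 1) z y) (2 * n + 1)
  rw [kos_map 𝔅.fC.cst] at e2
  have e3 : (𝔸.dgF (Cub n ι)).oo (kpar (n + 1)) ((kos (n + 1) z y).map 𝔅.fC.fin.subtype)
      (2 * n + 1) = _ := (congrArg ((𝔸.dgF (Cub n ι)).oo _ · _) (kos_map _ _ _ _)).trans e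
  have hN : (ε * (2 * (2 * n + 1).factorial * q ^ (n + 1) : ℕ) : ℤ) ≠ 0 :=
    mul_ne_zero (by rcases hε with rfl | rfl <;> simp) (by positivity)
  generalize (ε * (2 * (2 * n + 1).factorial * q ^ (n + 1) : ℕ) : ℤ) = N at e3 hN
  have hT : topF 𝔸 ι ∈ 𝔅.fO.fin := by
    have h1 : N • topF 𝔸 ι ∈ 𝔅.fO.fin := e3 ▸ h0
    have h2 := mul_mem (𝔅.fO.rat (N : ℚ)⁻¹ : _ ∈ 𝔅.fO.fin) h1
    rwa [zsmul_eq_mul, ← mul_assoc, ← map_intCast (algebraMap ℚ (Fm (n + 1) (Cub n ι) F)),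
      ← map_mul, inv_mul_cancel₀ (by exact_mod_cast hN), map_one, one_mul] at h2
  refine ⟨𝔅.fC.cst ∘ y, N, 𝔅.fO.fin_seq hT, hN, ?_, e2.trans ?_⟩
  · change ∑ i, 𝔅.fC.cst (z i) * 𝔅.fC.cst (y i) = 1
    simp only [← map_mul, ← map_sum, hs, map_one]
  · change _ = N • 𝔅.fO.cst ⟨_, hT⟩
    rw [← map_zsmul]
    exact congrArg _ (Subtype.ext e3)

end Pool.Agent.P.MP_f43029_ag.XL
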