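import Pool.Agent.P.MP_f43029_ag.XL.AResC
import Pool.Agent.P.MP_f43029_ag.XL.AKos

/-!
The residue on the sphere without comparisons.
-/

set_option autoImplicit false

noncomputable section

namespace Pool.Agent.P.MP_f43029_ag.XL

open Pool.Agent.Theta Filter MvPolynomial

namespace ARc

variable {n : ℕ} {K F : Type} [Field K] [Field F] [CharZero K] [CharZero F] [Algebra K F]
  {𝔸 : Amb (n + 1) K F} {ι : Type} [Fintype ι] [DecidableEq ι]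

/-- The face on which only the simplex coordinates are free. -/
def σ₀ (n : ℕ) (ι : Type) : Face (Cub n ι)
  | some (Sum.inl _) => none
  | _ => some false

variable (𝔸 ι) in
/-- The integral of the residue of a polynomial. -/
def ir : MvPolynomial (Cub n ι) F →+ K :=
  intP.toAddMonoidHom.comp (mpa 𝔸.res.toAddMonoidHom)

omit [DecidableEq ι] in
theorem ir_apply (P : MvPolynomial (Cub n ι) F) :
    ir 𝔸 ι P = intP (mpa 𝔸.res.toAddMonoidHom P) := rfl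

omit [DecidableEq ι] in
theorem ir_zero {P : MvPolynomial (Cub n ι) F} (h : ∀ m, 𝔸.res (coeff m P) = 0) : ir 𝔸 ι P = 0 := by
  have : mpa 𝔸.res.toAddMonoidHom P = 0 := MvPolynomial.ext _ _ h
  rw [ir_apply, this, map_zero]

variable (𝔸 ι) in
/-- The residue of an ambient form. -/
def rho : Fm (n + 1) (Cub n ι) F →+ K where
  toFun ω := ir 𝔸 ι (rO (σ₀ n ι) ω (topI n ι))
  map_zero' := by simp
  map_add' a b := by simp

theorem rho_apply (ω : Fm (n + 1) (Cub n ι) F) :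
    rho 𝔸 ι ω = ir 𝔸 ι (rO (σ₀ n ι) ω (topI n ι)) := rfl

variable (𝔸) in
/-- The filtration on the constants. -/
def fK : Fil K where
  B _ a := fil 𝔸.π 𝔸.V a
  mono _ ha := fil_anti 𝔸.π_mem ha
  mul := fil_mul
  one := one_mem_fil _ _
  rat r := by
    refine ⟨0, -((𝔸.M * r.den : ℕ) : ℤ), ?_⟩
    rw [eq_ratCast, Rat.cast_def, div_eq_mul_inv, ← zsmul_eq_mul]
    exact AddSubgroup.zsmul_mem _ (𝔸.inv_nat _ _ Nat.lt_two_pow_self.le) _

theorem fK_one : (1 : (fK 𝔸).Q) ≠ 0 := by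
  intro h0
  obtain ⟨c, h⟩ := Fil.cl_eq_zero.1 ((fK 𝔸).cl_one.symm.trans h0)
  obtain ⟨m, hm⟩ := (h 1).exists
  have h1 : (1 : K) ∈ fil 𝔸.π 𝔸.V 1 := fil_anti 𝔸.π_mem (by omega) hm
  exact 𝔸.π_inv (by simpa [mem_fil] using h1)

omit [DecidableEq ι] in
theorem ir_mem {I : Set (Fin (n + 1))} {D : ℕ} {a : ℤ} {P : MvPolynomial (Cub n ι) F}
    (h : P ∈ cd D (fil 𝔸.ϖ (𝔸.cell (invs 𝔸 I)) a)) :
    ir 𝔸 ι P ∈ fil 𝔸.π 𝔸.V (a - (𝔸.M * Fintype.card (Cub n ι) : ℕ) * lg D) := by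
  refine cd_ind _ _ h fun m g hm hg => ?_
  rw [ir_apply, mpa_monomial, intP_monomial]
  have h1 : ∀ s : Finset (Cub n ι), ∏ j ∈ s, ((m j + 1 : ℕ) : K)⁻¹ ∈
      fil 𝔸.π 𝔸.V (-((𝔸.M * s.card : ℕ) * lg D)) := fun s => by
    classical
    induction s using Finset.induction_on with
    | empty => simpa using one_mem_fil _ _
    | insert j s hj ih =>
      rw [Finset.prod_insert hj, Finset.card_insert_of_notMem hj]
      refine fil_of_eq (fil_mul (𝔸.inv_nat _ (Nat.log 2 D + 1)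
        (((Finsupp.le_degree j m).trans hm).trans_lt (Nat.lt_pow_succ_log_self one_lt_two D))) ih) ?_
      simp only [lg]
      push_cast
      ring
  exact fil_mul (res_fil hg) (h1 _)

variable {𝔅 : 𝔸.Sys (Cub n ι)}

theorem rho_bd (h : ∀ σ, 𝔅.B σ ≤ 𝔸.cell (invs 𝔸 (IS σ))) :
    𝔅.fO.Bd (fK 𝔸).toAFil (rho 𝔸 ι) :=
  ⟨_, fun _ a _ hx => ir_mem (cd_mono le_rfl (fil_mono _ (h _) a) (hx _ _))⟩

theorem rho_dF (h : ∀ σ, 𝔅.B σ ≤ 𝔸.cell (invs 𝔸 (IS σ))) {D : ℕ} {a : ℤ}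
    {η : Fm (n + 1) (Cub n ι) F} (hη : η ∈ 𝔅.fO.B D a) : rho 𝔸 ι (𝔸.dF _ η) = 0 := by
  rw [rho_apply, 𝔸.rO_dF, Amb.dF, Gr.dd_apply, map_sum]
  refine Finset.sum_eq_zero fun g hg => ?_
  rw [← zsmul_eq_mul, map_zsmul]
  refine smul_eq_zero_of_right _ ?_
  obtain ⟨i, rfl⟩ | ⟨j, rfl⟩ := mem_topI.mp hg
  · exact ir_zero fun m => res_δ i (fil_mono _ (h _) a ((hη _ _).2 m))
  · have key : ∀ b, intP (rC K (fj (some (Sum.inl j)) b) (mpa 𝔸.res.toAddMonoidHom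
        (rO (σ₀ n ι) η ((topI n ι).erase (Sum.inr (some (Sum.inl j))))))) = 0 := fun b => by
      have e : σ₀ n ι = Function.update (σ₀ n ι) (some (Sum.inl j)) none :=
        (Function.update_eq_self _ _).symm
      have h1 := hη (Function.update (σ₀ n ι) (some (Sum.inl j)) (some b))
        ((topI n ι).erase (Sum.inr (some (Sum.inl j))))
      rw [← fj_rO, ← e, rO_apply, if_pos (disjoint_kl.2 fun k hk => by
        rw [fj, Function.update_of_ne fun e => (Finset.ne_of_mem_erase hk) (congrArg _ e)])] at h1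
      rw [rC_mpa]
      refine ir_zero fun m => res_zero (i := if b then j.castSucc else j.succ) (fun hi => ?_)
        (fil_mono _ (h _) a (h1.2 m))
      cases b
      · exact (hi j).1 j.castSucc_lt_succ (Function.update_self ..)
      · exact (hi j).2 rfl (Function.update_self ..)
    rw [Amb.derC_inr, ir_apply, ← pderiv_mpa, intP_pderiv, key, key, sub_zero]

theorem rho_disc (h : ∀ σ, 𝔅.B σ = 𝔸.cell ∅) {D : ℕ} {a : ℤ}
    {η : Fm (n + 1) (Cub n ι) F} (hη : η ∈ 𝔅.fO.B D a) : rho 𝔸 ι η = 0 :=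
  ir_zero fun m => res_zero (I := ∅) (i := 0) id
    (fil_mono _ ((h _).le.trans (Amb.cell_mono (Set.empty_subset _))) a ((hη _ _).2 m))

theorem rho_top : ∃ r : ℚ, r ≠ 0 ∧ rho 𝔸 ι (topF 𝔸 ι) = r := by
  have hm : ∀ s : Finset (Fin n), ∃ m : Cub n ι →₀ ℕ,
      (∏ j ∈ s, X (some (Sum.inl j)) ^ (n - 1 - j) : MvPolynomial (Cub n ι) F) = monomial m 1 := by
    intro s
    induction s using Finset.induction_on with
    | empty => exact ⟨0, rfl⟩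
    | insert j s hj ih =>
      obtain ⟨m, hm⟩ := ih
      exact ⟨_, by rw [Finset.prod_insert hj, hm, X_pow_eq_monomial, monomial_mul, one_mul]⟩
  obtain ⟨m, hm⟩ := hm Finset.univ
  refine ⟨∏ j, ((m j + 1 : ℕ) : ℚ)⁻¹, Finset.prod_ne_zero_iff.mpr fun j _ =>
    inv_ne_zero (Nat.cast_ne_zero.mpr (m j).succ_ne_zero), ?_⟩
  rw [rho_apply, rO_apply, if_pos (disjoint_kl.2 fun k hk => by
    obtain ⟨i, h⟩ | ⟨j, h⟩ := mem_topI.mp hk
    · cases h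
    · cases h
      rfl), topF_apply, if_pos rfl, map_mul, rC_C, map_prod]
  simp only [map_pow, rC_X, rv_none (show σ₀ n ι (some (Sum.inl _)) = none from rfl)]
  rw [hm, C_mul_monomial, mul_one, ir_apply, mpa_monomial, intP_monomial]
  change 𝔸.res _ * _ = _
  rw [res_top, one_mul]
  push_cast
  rfl

end ARc

open ARc in
/-- The residue on the sphere without comparisons. -/
theorem exists_res0 {n : ℕ} {K F : Type} [Field K] [Field F] [CharZero K] [CharZero F]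
    [Algebra K F] {𝔸 : Amb (n + 1) K F} {ι : Type} [Fintype ι] [DecidableEq ι]
    (𝔅 : 𝔸.Sys (Cub n ι)) (h : ∀ σ, 𝔅.B σ = 𝔸.cell {y | ∃ i ∈ IS σ, y = ((𝔸.w i)⁻¹ : Fˣ)}) :
    ∃ R : 𝔅.Om →ₗ[ℚ] ℚ, (∀ ω, R (𝔅.dg.d ω) = 0) ∧
      (∀ (𝔇 : 𝔸.Sys (Cub n ι)) (l : 𝔇 ≤ 𝔅), (∀ σ, 𝔇.B σ = 𝔸.cell ∅) →
        ∀ ω, R ((Amb.Sys.mpH l).o ω) = 0) ∧
      ∀ q : ℕ, 0 < q → ∀ hb : ∀ σ, 𝔸.cell ∅ ≤ 𝔅.B σ, ∃ y : Fin (n + 1) → 𝔅.A,
        ∑ i, 𝔅.cF _ hb (Tow.zc q i) * y i = 1 ∧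
        R (𝔅.dg.oo (kpar (n + 1)) (kos (n + 1) (fun i => 𝔅.cF _ hb (Tow.zc q i)) y)
          (2 * n + 1)) ≠ 0 := by
  have h' : ∀ σ, 𝔅.B σ ≤ 𝔸.cell (invs 𝔸 (IS σ)) := fun σ => (h σ).le
  obtain ⟨l, hl⟩ := Module.Projective.exists_dual_ne_zero ℚ (fK_one (𝔸 := 𝔸))
  let T : 𝔅.Om →+ (fK 𝔸).Q := 𝔅.fO.map (fK 𝔸) (rho 𝔸 ι) (rho_bd h')
  have hT : ∀ w hw, T (𝔅.clO w hw) = (fK 𝔸).cl (fun m => rho 𝔸 ι (w m)) ((rho_bd h').seq hw) :=
    fun _ _ => rfl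
  have h0 : ∀ w hw, (∀ᶠ m in atTop, rho 𝔸 ι (w m) = 0) → T (𝔅.clO w hw) = 0 := fun w hw e => by
    rw [hT, Fil.cl_eq_zero]
    exact AFil.seq_of_eventually_zero _ _ e
  have hR : ∀ x, (l ∘ₗ T.toRatLinearMap) x = l (T x) := fun _ => rfl
  refine ⟨l ∘ₗ T.toRatLinearMap, fun ω => ?_, fun 𝔇 l' hD ω => ?_, fun q hq hb => ?_⟩
  · induction ω using Amb.Sys.indO with | h w hw
    obtain ⟨c, a, ha⟩ := id hw
    rw [hR, Amb.Sys.d_cl, h0 _ _ (Eventually.mono ha fun m hm => rho_dF h' hm), map_zero]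
  · induction ω using Amb.Sys.indO with | h w hw
    obtain ⟨c, a, ha⟩ := id hw
    rw [hR, Amb.Sys.mpO_cl, h0 _ _ (Eventually.mono ha fun m hm => rho_disc hD hm), map_zero]
  · obtain ⟨y, N, hw, hN, h₁, h₂⟩ := 𝔅.kos_form hb
      (fun σ i hi => h σ ▸ 𝔸.mem_cell ⟨i, hi, rfl⟩) q hq
    obtain ⟨r, hr, hr'⟩ := rho_top (𝔸 := 𝔸) (ι := ι)
    refine ⟨y, h₁, ?_⟩
    have e : T (𝔅.clO _ hw) = r • 1 := by
      rw [hT, ← Algebra.algebraMap_eq_smul_one, Fil.algebraMap_eq]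
      exact Fil.cl_congr' fun _ => hr'
    rw [h₂.trans (show _ = N • 𝔅.clO _ hw from rfl), map_zsmul, hR, e, map_smul]
    exact smul_ne_zero hN (smul_ne_zero hr hl)

end Pool.Agent.P.MP_f43029_ag.XL
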