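import Pool.Agent.P.MP_f43029_ag.XL.CWa

/-! Koszul matrices (pure algebra) and the square-zero contraction from the Catalan series.
Sketch. `kos_*`: induction on `n`, `kos (n+1) z y = tens id (k1 (z 0) (y 0)) (kos n ..)`; use
`tens_odd`, `tens_sq`, `SM_anti`, `Matrix.mul_kronecker_mul`, `Fin.sum_univ_succ`.
`Bdd.contr`: `mu = h * h` commutes with `D` and `h`; `w = γ • mu`; `c = ev catalan` has
`c = 1 + w * c * c` (`PowerSeries.catalanSeries_sq_mul_X_add_one`, map `ℕ → ℤ`), `N = ev` of the
inverse of `1 - 2 X c` (constant coefficient 1); `c`, `N` commute with `D`, `h` and with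
`PP A p false` (hence are even). `Z = (h - c * mu * D) * N`: `D Z + Z D = (1 - 2 w c) N = 1`,
`Z * Z = mu * (1 - c + w * c * c) * N * N = 0`. -/

set_option autoImplicit false

noncomputable section

namespace Pool.Agent.P.MP_f43029_ag.XL

open Matrix
open scoped Kronecker

section Aux

variable {A ι₁ ι₂ : Type} [CommRing A] [DecidableEq ι₁] [DecidableEq ι₂]

theorem CWk_tens_add (p : ι₁ → Bool) (E E' : Matrix ι₁ ι₁ A) (F F' : Matrix ι₂ ι₂ A) :
    tens p (E + E') (F + F') = tens p E F + tens p E' F' := by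
  simp only [tens, add_kronecker, kronecker_add]
  abel

theorem CWk_tens_smul (p : ι₁ → Bool) (c : A) (E : Matrix ι₁ ι₁ A) (F : Matrix ι₂ ι₂ A) :
    tens p (c • E) (c • F) = c • tens p E F := by
  simp only [tens, smul_kronecker, kronecker_smul, smul_add]

theorem CWk_tens_apply (p : ι₁ → Bool) (E : Matrix ι₁ ι₁ A) (F : Matrix ι₂ ι₂ A)
    (i i' : ι₁) (j j' : ι₂) : tens p E F (i, j) (i', j') =
      (if j = j' then E i i' else 0) + if i = i' then sg (p i) • F j j' else 0 := by
  simp only [tens, Matrix.add_apply, kroneckerMap_apply, SM, Matrix.one_apply, diagonal_apply,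
    mul_ite, mul_one, mul_zero, ite_mul, zero_mul, zsmul_eq_mul]

theorem CWk_tens_map {A' : Type} [CommRing A'] (φ : A →+* A') (p : ι₁ → Bool)
    (E : Matrix ι₁ ι₁ A) (F : Matrix ι₂ ι₂ A) :
    (tens p E F).map φ = tens p (E.map φ) (F.map φ) := by
  ext ⟨i, j⟩ ⟨i', j'⟩
  rw [Matrix.map_apply, CWk_tens_apply, CWk_tens_apply, map_add]
  congr 1 <;> split_ifs <;> simp

theorem CWk_k1_odd (z y : A) : OddM (fun b : Bool => b) (fun b => b) (k1 z y) := by
  intro i j h
  cases i <;> cases j <;> simp_all [k1]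

theorem CWk_k1_sq (z y : A) : k1 z y * k1 z y = (z * y) • (1 : Matrix Bool Bool A) := by
  ext i j
  cases i <;> cases j <;> simp [k1, Matrix.mul_apply, mul_comm]

theorem CWk_k1_add (z y z' y' : A) : k1 (z + z') (y + y') = k1 z y + k1 z' y' := by
  ext i j
  cases i <;> cases j <;> simp [k1]

theorem CWk_k1_smul (c z y : A) : k1 (c * z) (c * y) = c • k1 z y := by
  ext i j
  cases i <;> cases j <;> simp [k1]

theorem CWk_k1_map {A' : Type} [CommRing A'] (φ : A →+* A') (z y : A) :
    (k1 z y).map φ = k1 (φ z) (φ y) := by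
  ext i j
  cases i <;> cases j <;> simp [k1]

theorem CWk_odd_iff {ι : Type} [Fintype ι] [DecidableEq ι] {p : ι → Bool} {X : Matrix ι ι A} :
    OddM p p X ↔ X * PP A p false = (1 - PP A p false) * X := by
  rw [sub_mul, one_mul, eq_sub_iff_add_eq, ← Matrix.ext_iff]
  refine forall_congr' fun i => forall_congr' fun j => ?_
  simp only [PP, Matrix.add_apply, mul_diagonal, diagonal_mul]
  cases p i <;> cases p j <;> simp [eq_comm]

/-- The ring computation behind the square-zero contraction. -/
theorem CWk_alg {R : Type} [Ring R] {D h c N g : R} (hg : ∀ x, Commute g x) (hsq : D * D = g)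
    (hom : D * h + h * D = 1) (hc : g * (h * h) * c * c + 1 = c)
    (hN : (1 - 2 * (g * (h * h)) * c) * N = 1) (Dc : Commute D c) (hc' : Commute h c)
    (DN : Commute D N) (hN' : Commute h N) (cN : Commute c N) :
    (h - c * (h * h) * D) * N * ((h - c * (h * h) * D) * N) = 0 ∧
      D * ((h - c * (h * h) * D) * N) + (h - c * (h * h) * D) * N * D = 1 := by
  have Dμ : Commute D (h * h) := by
    have e1 : D * h = 1 - h * D := eq_sub_of_add_eq hom
    have e2 : h * D = 1 - D * h := eq_sub_of_add_eq' hom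
    change D * (h * h) = h * h * D
    rw [← mul_assoc, e1, mul_assoc h h D, e2]
    conv_lhs => rw [← e2]
    rw [sub_mul, mul_sub, one_mul, mul_one, mul_assoc]
  have hμ : Commute h (h * h) := (Commute.refl h).mul_right (Commute.refl h)
  have μc : Commute (h * h) c := hc'.mul_left hc'
  have μN : Commute (h * h) N := hN'.mul_left hN'
  obtain ⟨μ, hμe⟩ : ∃ μ, μ = h * h := ⟨_, rfl⟩
  rw [← hμe] at hc hN Dμ hμ μc μN ⊢
  have Da : Commute D (c * μ) := Dc.mul_right Dμ
  have ha : Commute h (c * μ) := hc'.mul_right hμ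
  have aN : Commute (c * μ) N := cN.mul_left μN
  have e0 : g * μ * c = c * μ * g := by rw [mul_assoc, μc.eq, (hg _).eq]
  have e1 : μ - c * μ + c * μ * (c * μ) * g = 0 := by
    have : c * μ * (c * μ) * g = g * μ * c * c * μ := by
      rw [e0, mul_assoc (c * μ * g), mul_assoc (c * μ) g, (hg (c * μ)).eq,
        mul_assoc (c * μ) (c * μ)]
    rw [this]
    conv_lhs => arg 1; arg 2; rw [← hc]
    rw [add_mul, one_mul]
    abel
  obtain ⟨a, hae⟩ : ∃ a, a = c * μ := ⟨_, rfl⟩
  rw [mul_assoc 2, e0] at hN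
  rw [← hae] at hN Da ha aN e1 ⊢
  have ZN : Commute (h - a * D) N := hN'.sub_left (aN.mul_left DN)
  constructor
  · have e2 : (h - a * D) * (h - a * D) = μ - a * (D * h + h * D) + a * a * g := by
      rw [sub_mul, mul_sub, mul_sub, ← mul_assoc h a, ha.eq, mul_assoc a D (a * D),
        ← mul_assoc D a, Da.eq, mul_assoc a D D, hsq, hμe, mul_add]
      simp only [mul_assoc]
      abel
    rw [mul_assoc, ← mul_assoc N, ← ZN.eq, ← mul_assoc, ← mul_assoc, e2, hom, mul_one, e1,
      zero_mul, zero_mul]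
  · rw [mul_assoc _ N D, ← DN.eq, ← mul_assoc, ← mul_assoc, ← add_mul, mul_sub, sub_mul,
      ← mul_assoc D a, Da.eq, mul_assoc a D D, hsq, ← hN, ← hom, two_mul]
    congr 1
    abel

end Aux

theorem kos_odd {A : Type} [CommRing A] (n : ℕ) (z y : Fin n → A) :
    OddM (kpar n) (kpar n) (kos n z y) := by
  induction n with
  | zero => exact fun _ _ _ => rfl
  | succ n ih => exact tens_odd (CWk_k1_odd _ _) (ih _ _)

theorem kos_add {A : Type} [CommRing A] (n : ℕ) (z y z' y' : Fin n → A) :
    kos n (z + z') (y + y') = kos n z y + kos n z' y' := by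
  induction n with
  | zero => exact (add_zero _).symm
  | succ n ih =>
    refine Eq.trans ?_ (CWk_tens_add (fun b : Bool => b) _ _ _ _)
    rw [← ih, ← CWk_k1_add]
    rfl

theorem kos_map {A A' : Type} [CommRing A] [CommRing A'] (φ : A →+* A') (n : ℕ)
    (z y : Fin n → A) : (kos n z y).map φ = kos n (φ ∘ z) (φ ∘ y) := by
  induction n with
  | zero => exact Matrix.map_zero _ (map_zero φ)
  | succ n ih =>
    refine (CWk_tens_map φ (fun b : Bool => b) _ _).trans ?_
    rw [ih, CWk_k1_map]
    rfl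

theorem kos_smul {A : Type} [CommRing A] (n : ℕ) (c : A) (z y : Fin n → A) :
    kos n (c • z) (c • y) = c • kos n z y := by
  induction n with
  | zero => exact (smul_zero _).symm
  | succ n ih =>
    refine Eq.trans ?_ (CWk_tens_smul (fun b : Bool => b) c _ _)
    rw [← ih, ← CWk_k1_smul]
    rfl

theorem CWk_kos_sq {A : Type} [CommRing A] (n : ℕ) (z y : Fin n → A) :
    kos n z y * kos n z y = (∑ i, z i * y i) • (1 : Matrix (KI n) (KI n) A) := by
  induction n with
  | zero =>
    rw [Fin.sum_univ_zero, zero_smul]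
    exact mul_zero _
  | succ n ih =>
    rw [Fin.sum_univ_succ]
    exact tens_sq (CWk_k1_odd _ _) (CWk_k1_sq _ _) (ih _ _)

theorem kos_anti {A : Type} [CommRing A] (n : ℕ) (z y z' y' : Fin n → A) :
    kos n z y * kos n z' y' + kos n z' y' * kos n z y =
      (∑ i, (z i * y' i + z' i * y i)) • (1 : Matrix (KI n) (KI n) A) := by
  have h := CWk_kos_sq n (z + z') (y + y')
  rw [kos_add, add_mul, mul_add, mul_add, CWk_kos_sq, CWk_kos_sq] at h
  have e : ∑ i, (z + z') i * (y + y') i =
      ∑ i, z i * y i + ∑ i, (z i * y' i + z' i * y i) + ∑ i, z' i * y' i := by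
    rw [← Finset.sum_add_distrib, ← Finset.sum_add_distrib]
    exact Finset.sum_congr rfl fun i _ => by simp only [Pi.add_apply]; ring
  rw [e, add_smul, add_smul, ← add_assoc, add_left_inj, add_assoc, add_right_inj] at h
  exact h

theorem kos_sq {A : Type} [CommRing A] (n : ℕ) (z y : Fin n → A) :
    kos n z y * kos n z y = (∑ i, z i * y i) • (1 : Matrix (KI n) (KI n) A) :=
  CWk_kos_sq n z y

/-- Every entry of the Koszul matrix is an integer combination of the `z i` and `y i`. -/
theorem kos_mem {A : Type} [CommRing A] (G : AddSubgroup A) (n : ℕ) (z y : Fin n → A)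
    (hz : ∀ i, z i ∈ G) (hy : ∀ i, y i ∈ G) : MemM G (kos n z y) := by
  induction n with
  | zero => exact fun _ _ => G.zero_mem
  | succ n ih =>
    rintro ⟨i, j⟩ ⟨i', j'⟩
    have e := CWk_tens_apply (fun b : Bool => b) (k1 (z 0) (y 0))
      (kos n (fun i => z i.succ) fun i => y i.succ) i i' j j'
    refine (congrArg (· ∈ G) e).mpr (G.add_mem ?_ ?_)
    · split_ifs
      · simp only [k1]
        split_ifs
        · exact hz 0
        · exact hy 0
        · exact G.zero_mem
      · exact G.zero_mem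
    · split_ifs
      · exact G.zsmul_mem (ih _ _ (fun i => hz _) (fun i => hy _) j j') _
      · exact G.zero_mem

/-- A square-zero contraction from a contraction `h` when `γ * h ^ 2` is small. -/
theorem Bdd.contr {A ι : Type} [CommRing A] [Fintype ι] [DecidableEq ι] (B : Bdd A)
    {p : ι → Bool} {D h : Matrix ι ι A} {γ : A} (hD : OddM p p D)
    (hsq : D * D = γ • (1 : Matrix ι ι A)) (hh : OddM p p h) (hom : D * h + h * D = 1)
    (hs : MemM (fil B.π B.Ap 1) (γ • (h * h))) : ∃ Z, Contr p D Z := by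
  obtain ⟨ev, hX, -, hcm⟩ := B.cat ι _ hs
  let C : PowerSeries ℤ := PowerSeries.map (Nat.castRingHom ℤ) PowerSeries.catalanSeries
  have hC : PowerSeries.X * C * C + 1 = C := by
    have := congrArg (PowerSeries.map (Nat.castRingHom ℤ))
      PowerSeries.catalanSeries_sq_mul_X_add_one
    rw [map_add, map_mul, map_pow, PowerSeries.map_X, map_one] at this
    refine Eq.trans ?_ this
    ring
  have hU : IsUnit (1 - 2 * PowerSeries.X * C) := by
    rw [PowerSeries.isUnit_iff_constantCoeff]
    simp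
  obtain ⟨M, hM⟩ := hU.exists_right_inv
  have hw : γ • (h * h) = (γ • (1 : Matrix ι ι A)) * (h * h) := by rw [smul_mul_assoc, one_mul]
  have hg : ∀ x : Matrix ι ι A, Commute (γ • (1 : Matrix ι ι A)) x := fun x =>
    (Commute.one_left x).smul_left γ
  have Dμ : D * (h * h) = h * h * D := by
    have e1 : D * h = 1 - h * D := eq_sub_of_add_eq hom
    have e2 : h * D = 1 - D * h := eq_sub_of_add_eq' hom
    rw [← mul_assoc, e1, mul_assoc h h D, e2]
    conv_lhs => rw [← e2]
    rw [sub_mul, mul_sub, one_mul, mul_one, mul_assoc]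
  have cD : ∀ s, Commute D (ev s) := fun s =>
    hcm s D (by rw [mul_smul_comm, smul_mul_assoc, Dμ])
  have ch : ∀ s, Commute h (ev s) := fun s =>
    hcm s h (by rw [mul_smul_comm, smul_mul_assoc, mul_assoc])
  have hP := CWk_odd_iff.1 hh
  have DP := CWk_odd_iff.1 hD
  have μP : Commute (PP A p false) (h * h) := by
    change _ * (h * h) = h * h * _
    rw [mul_assoc, hP, ← mul_assoc h, mul_sub, mul_one, hP, sub_mul (1 : Matrix ι ι A), one_mul,
      sub_sub_cancel, mul_assoc]
  have cP : ∀ s, Commute (PP A p false) (ev s) := fun s =>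
    hcm s _ (by rw [mul_smul_comm, smul_mul_assoc, μP.eq])
  have h1 : γ • (1 : Matrix ι ι A) * (h * h) * ev C * ev C + 1 = ev C := by
    have := congrArg ev hC
    rwa [map_add, map_mul, map_mul, map_one, hX, hw] at this
  have h2 : (1 - 2 * (γ • (1 : Matrix ι ι A) * (h * h)) * ev C) * ev M = 1 := by
    have := congrArg ev hM
    rwa [map_mul, map_sub, map_mul, map_mul, map_one, map_ofNat, hX, hw] at this
  obtain ⟨z1, z2⟩ := CWk_alg hg hsq hom h1 h2 (cD C) (ch C) (cD M) (ch M)
    ((Commute.all C M).map ev)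
  refine ⟨_, CWk_odd_iff.2 ?_, z1, z2⟩
  have aP : Commute (1 - PP A p false) (ev C * (h * h)) :=
    (Commute.one_left _).sub_left ((cP C).mul_right μP)
  rw [mul_assoc, ← (cP M).eq, ← mul_assoc, sub_mul h, hP, mul_assoc _ D, DP, ← mul_assoc _ _ D,
    ← aP.eq, mul_assoc (1 - PP A p false), ← mul_sub, mul_assoc]

end Pool.Agent.P.MP_f43029_ag.XL
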