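import Pool.Agent.P.MP_f43029_ag.XL.CWt
import Pool.Agent.P.MP_f43029_ag.XL.CWk

/-! The characteristic form of the Koszul matrix.
Sketch. For `k1 z y` with parity `id`: `ck i = -2 dz dy` if `i = 2` and `0` otherwise,
`tk i = y dz - z dy` if `i = 1` and `0` otherwise (`dM ^ 3 = 0`). Induction on `n` with `ck_tens`,
`tk_tens`. For the sum over `i : Fin (n + 2)` use `Fin.sum_univ_succ`, `List.ofFn_succ`,
`Fin.succ_succAbove_zero`, `Fin.succ_succAbove_succ`; `dz * dy` commutes with the odd form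
`z dy - y dz` (`Od.comm`). `oo_kos`: `letI := toSD G; letI := toAlg G; haveI := toEv G`, `oo_eq`,
`tk_eq_om`, `kos_sq`. -/

set_option autoImplicit false
set_option linter.unusedSectionVars false

namespace Pool.Agent.P.MP_f43029_ag

open Matrix

namespace CW

open XL

variable {A Ω : Type} [CommRing A] [Ring Ω] [Algebra A Ω] [SD Ω] [EvAlg A Ω]

namespace CWo

theorem sum_anti {M : Type} [AddCommMonoid M] (f : ℕ × ℕ → M) (m a b : ℕ)
    (h : ∀ i j, i ≠ a ∨ j ≠ b → f (i, j) = 0) :
    ∑ ij ∈ Finset.HasAntidiagonal.antidiagonal m, f ij = if m = a + b then f (a, b) else 0 := by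
  split_ifs with hm
  · refine Finset.sum_eq_single (a, b) ?_ ?_
    · rintro ⟨i, j⟩ _ hne
      refine h i j ?_
      by_contra hc
      push Not at hc
      exact hne (by rw [hc.1, hc.2])
    · intro hn
      exact (hn (Finset.HasAntidiagonal.mem_antidiagonal.2 hm.symm)).elim
  · refine Finset.sum_eq_zero ?_
    rintro ⟨i, j⟩ hij
    refine h i j ?_
    by_contra hc
    push Not at hc
    have := Finset.HasAntidiagonal.mem_antidiagonal.1 hij
    exact hm (by rw [← this, hc.1, hc.2])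

theorem k1_odd (z y : A) : OddM (fun b : Bool => b) (fun b : Bool => b) (k1 z y) := by
  intro i j e
  cases i <;> cases j <;> simp_all [k1]

theorem anti (z y : A) : d0 Ω y * d0 Ω z = -(d0 Ω z * d0 Ω y) :=
  (od_d0 y).anti (inv_d0 z)

theorem cube (z y : A) : dM Ω (k1 z y) ^ 3 = 0 := by
  have h1 : d0 Ω z * (d0 Ω y * d0 Ω z) = 0 := by
    rw [anti z y, mul_neg, ← mul_assoc, (od_d0 z).sq, zero_mul, neg_zero]
  have h2 : d0 Ω y * (d0 Ω z * d0 Ω y) = 0 := by
    rw [anti y z, mul_neg, ← mul_assoc, (od_d0 y).sq, zero_mul, neg_zero]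
  ext i j
  cases i <;> cases j <;>
    simp [pow_succ', Matrix.mul_apply, dM, k1, d0_zero, h1, h2]

theorem pow_big (z y : A) {i : ℕ} (hi : 3 ≤ i) : dM Ω (k1 z y) ^ i = 0 := by
  obtain ⟨k, rfl⟩ := Nat.exists_eq_add_of_le hi
  rw [pow_add, cube, zero_mul]

theorem ck_two (z y : A) :
    ck Ω (fun b : Bool => b) (k1 z y) 2 = (-2 : ℤ) • (d0 Ω z * d0 Ω y) := by
  simp [ck, trace, pow_succ', Matrix.mul_apply, dM, k1, d0_zero, SM, sg, Matrix.diagonal_apply,
    anti z y, two_mul]

theorem ck_ne (z y : A) {i : ℕ} (hi : i ≠ 2) : ck Ω (fun b : Bool => b) (k1 z y) i = 0 := by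
  rcases i with _ | _ | _ | i
  · simp [ck, trace, SM, sg]
  · exact ck_odd (k1_odd z y) odd_one
  · exact (hi rfl).elim
  · rw [ck, pow_big z y (by omega), mul_zero, trace_zero]

theorem tk_one (z y : A) :
    tk Ω (fun b : Bool => b) (k1 z y) 1 = -(z • d0 Ω y - y • d0 Ω z) := by
  simp [tk, trace, Matrix.mul_apply, dM, cM, k1, d0_zero, SM, sg, Matrix.diagonal_apply,
    Algebra.smul_def, sub_eq_add_neg, add_comm]

theorem tk_ne (z y : A) {i : ℕ} (hi : i ≠ 1) : tk Ω (fun b : Bool => b) (k1 z y) i = 0 := by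
  rcases i with _ | _ | _ | i
  · exact tk_even (k1_odd z y) Even.zero
  · exact (hi rfl).elim
  · exact tk_even (k1_odd z y) even_two
  · rw [tk, pow_big z y (by omega), mul_zero, mul_zero, trace_zero]

theorem ck_succ (n : ℕ) (z y : Fin (n + 1) → A) (m : ℕ) :
    ck Ω (kpar (n + 1)) (kos (n + 1) z y) m =
      ∑ ij ∈ Finset.HasAntidiagonal.antidiagonal m, m.choose ij.1 •
        (ck Ω (fun b : Bool => b) (k1 (z 0) (y 0)) ij.1 *
          ck Ω (kpar n) (kos n (fun i => z i.succ) fun i => y i.succ) ij.2) :=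
  ck_tens (k1_odd _ _) (kos_odd _ _ _) m

theorem tk_succ (n : ℕ) (z y : Fin (n + 1) → A) (m : ℕ) :
    tk Ω (kpar (n + 1)) (kos (n + 1) z y) m =
      ∑ ij ∈ Finset.HasAntidiagonal.antidiagonal m, m.choose ij.1 •
        (tk Ω (fun b : Bool => b) (k1 (z 0) (y 0)) ij.1 *
          ck Ω (kpar n) (kos n (fun i => z i.succ) fun i => y i.succ) ij.2 +
        ck Ω (fun b : Bool => b) (k1 (z 0) (y 0)) ij.1 *
          tk Ω (kpar n) (kos n (fun i => z i.succ) fun i => y i.succ) ij.2) :=
  tk_tens (k1_odd _ _) (kos_odd _ _ _) m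

theorem choose_two (k : ℕ) : ((2 + k).choose 2 * 2 * k.factorial : ℕ) = (2 + k).factorial := by
  have := Nat.add_choose_mul_factorial_mul_factorial k 2
  rw [add_comm 2 k, ← this]
  simp [Nat.factorial]
  ring

theorem tk_zero (z y : Fin 0 → A) (m : ℕ) : tk Ω (kpar 0) (kos 0 z y) m = 0 := by
  rw [tk, kos, cM_zero, zero_mul, mul_zero, trace_zero]

theorem comm_form (a b z y : A) : d0 Ω a * d0 Ω b * (z • d0 Ω y - y • d0 Ω z) =
    (z • d0 Ω y - y • d0 Ω z) * (d0 Ω a * d0 Ω b) := by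
  have ho : Od (z • d0 Ω y - y • d0 Ω z) := by
    rw [sub_eq_add_neg]
    exact ((od_d0 y).smul z).add ((od_d0 z).smul y).neg
  refine (ho.comm ?_).symm
  rw [map_mul, inv_d0, inv_d0, neg_mul_neg]

end CWo

open CWo

theorem ck_kos (n : ℕ) (z y : Fin n → A) (m : ℕ) :
    ck Ω (kpar n) (kos n z y) m = if m = 2 * n then
      ((-1) ^ n * (2 * n).factorial : ℤ) • (List.ofFn fun j => d0 Ω (z j) * d0 Ω (y j)).prod
      else 0 := by
  induction n generalizing m with
  | zero =>
    rcases m with _ | m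
    · have hc : Fintype.card (KI 0) = 1 := rfl
      simp [ck, trace, SM, sg, kpar, hc]
    · rw [ck, kos, dM_zero, zero_pow (by omega), mul_zero, trace_zero, if_neg (by omega)]
  | succ n ih =>
    rw [ck_succ, sum_anti _ m 2 (2 * n)]
    · rw [show 2 * (n + 1) = 2 + 2 * n by ring]
      split_ifs with hm
      · subst hm
        rw [ck_two, ih, if_pos rfl, List.ofFn_succ, List.prod_cons, smul_mul_smul_comm,
          ← natCast_zsmul, smul_smul, ← choose_two]
        congr 1
        push_cast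
        ring
      · rfl
    · rintro i j (h | h)
      · rw [ck_ne _ _ h, zero_mul, smul_zero]
      · rw [ih, if_neg h, mul_zero, smul_zero]

theorem tk_kos (n : ℕ) (z y : Fin (n + 1) → A) (m : ℕ) :
    tk Ω (kpar (n + 1)) (kos (n + 1) z y) m = if m = 2 * n + 1 then
      ((-1) ^ (n + 1) * (2 * n + 1).factorial : ℤ) • ∑ i, (z i • d0 Ω (y i) - y i • d0 Ω (z i)) *
        (List.ofFn fun j : Fin n => d0 Ω (z (i.succAbove j)) * d0 Ω (y (i.succAbove j))).prod
      else 0 := by
  have first : ∀ (n : ℕ) (z y : Fin (n + 1) → A) (m : ℕ),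
      ∑ ij ∈ Finset.HasAntidiagonal.antidiagonal m, m.choose ij.1 •
        (tk Ω (fun b : Bool => b) (k1 (z 0) (y 0)) ij.1 *
          ck Ω (kpar n) (kos n (fun i => z i.succ) fun i => y i.succ) ij.2) =
      if m = 2 * n + 1 then ((-1) ^ (n + 1) * (2 * n + 1).factorial : ℤ) •
        ((z 0 • d0 Ω (y 0) - y 0 • d0 Ω (z 0)) *
          (List.ofFn fun j : Fin n => d0 Ω (z j.succ) * d0 Ω (y j.succ)).prod) else 0 := by
    intro n z y m
    rw [sum_anti _ m 1 (2 * n)]
    · rw [add_comm 1 (2 * n)]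
      split_ifs with hm
      · subst hm
        rw [tk_one, ck_kos, if_pos rfl, neg_mul, mul_smul_comm, Nat.choose_one_right,
          ← natCast_zsmul, ← neg_smul, smul_smul, Nat.factorial_succ]
        congr 1
        push_cast
        ring
      · rfl
    · rintro i j (h | h)
      · rw [tk_ne _ _ h, zero_mul, smul_zero]
      · rw [ck_kos, if_neg h, mul_zero, smul_zero]
  induction n generalizing m with
  | zero =>
    rw [tk_succ]
    simp only [tk_zero, mul_zero, add_zero]
    rw [first 0 z y m]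
    simp
  | succ n ih =>
    rw [tk_succ]
    simp only [smul_add]
    rw [Finset.sum_add_distrib, first (n + 1) z y m, sum_anti _ m 2 (2 * n + 1)]
    · rw [show 2 + (2 * n + 1) = 2 * (n + 1) + 1 by ring]
      split_ifs with hm
      · subst hm
        rw [Fin.sum_univ_succ (n := n + 1), smul_add]
        congr 1
        rw [ck_two, ih, if_pos rfl, smul_mul_smul_comm, ← natCast_zsmul, smul_smul,
          Finset.mul_sum, show 2 * (n + 1) + 1 = 2 + (2 * n + 1) by ring, ← choose_two]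
        congr 1
        · push_cast
          ring
        · refine Finset.sum_congr rfl fun i _ => ?_
          rw [List.ofFn_succ, List.prod_cons, ← mul_assoc, ← mul_assoc, comm_form]
          simp only [Fin.succ_succAbove_zero, Fin.succ_succAbove_succ]
      · simp
    · rintro i j (h | h)
      · rw [ck_ne _ _ h, zero_mul, smul_zero]
      · rw [ih, if_neg h, mul_zero, smul_zero]

end CW

namespace XL.DG

variable {A Ω : Type} [CommRing A] [Ring Ω] [Algebra ℚ Ω]

/-- The Koszul form. -/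
theorem oo_kos (G : DG A Ω) (n : ℕ) (z y : Fin (n + 1) → A) (h : ∑ i, z i * y i = 1) :
    ∃ s : ℤ, (s = 1 ∨ s = -1) ∧ G.oo (kpar (n + 1)) (kos (n + 1) z y) (2 * n + 1) =
      (s * (2 * n + 1).factorial : ℤ) • ∑ i, (G.i (z i) * G.d (G.i (y i)) -
        G.i (y i) * G.d (G.i (z i))) *
          (List.ofFn fun j : Fin n =>
            G.d (G.i (z (i.succAbove j))) * G.d (G.i (y (i.succAbove j)))).prod := by
  let _ := CW.toSD G
  let _ := CW.toAlg G
  have _ := CW.toEv G
  have hsq : kos (n + 1) z y * kos (n + 1) z y = 1 := by rw [kos_sq, h, one_smul]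
  have e1 := CW.tk_eq_om (Ω := Ω) (p := kpar (n + 1)) hsq n
  have e2 := CW.tk_kos (Ω := Ω) n z y (2 * n + 1)
  rw [if_pos rfl, e1] at e2
  refine ⟨-1, Or.inr rfl, ?_⟩
  rw [CW.oo_eq]
  have e3 := congrArg (fun w => ((-1 : ℤ) ^ n) • w) e2
  simp only [smul_smul, ← mul_pow, neg_mul_neg, mul_one, one_pow, one_smul] at e3
  rw [e3]
  congr 1
  rw [← mul_assoc, ← pow_add, Odd.neg_one_pow ⟨n, by ring⟩]

end XL.DG

end Pool.Agent.P.MP_f43029_ag
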