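import Pool.Agent.P.MP_f43029_ag.XL.CWe
import Pool.Agent.P.MP_f43029_ag.XL.CWo

/-! The whole Chern-Weil block. -/
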