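import Pool.Agent.P.MP_f43029_ag.XL.ALq
import Pool.Agent.P.MP_f43029_ag.XL.AApi
import Pool.Agent.P.MP_f43029_ag.XL.CW
import Pool.Agent.P.MP_f43029_ag.XL.ARes0

/-!
Vanishing of the cohomology of the affinoid in high degree; transport of the residue.
-/

set_option autoImplicit false
set_option linter.unusedSectionVars false

noncomputable section

namespace Pool.Agent.P.MP_f43029_ag.XL

open Pool.Agent.Theta Filter

namespace Amb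

variable {n : ℕ} {K F : Type} [Field K] [Field F] [CharZero K] [CharZero F] [Algebra K F]
  {𝔸 : Amb n K F} {J : Type} [Fintype J] [DecidableEq J]

/-- The part of degree at least `r`. -/
def hi (r : ℕ) : Fm n J F →+ Fm n J F where
  toFun ω := fun I => if r ≤ I.card then ω I else 0
  map_zero' := by
    ext1 I
    simp
  map_add' a b := by
    ext1 I
    simp only [Gr.add_apply]
    split_ifs <;> simp

theorem hi_apply (r : ℕ) (ω : Fm n J F) (I : Finset (Fin n ⊕ J)) :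
    hi r ω I = if r ≤ I.card then ω I else 0 := rfl

theorem hi_dF (r : ℕ) (ω : Fm n J F) : hi (r + 1) (𝔸.dF J ω) = 𝔸.dF J (hi r ω) := by
  ext1 I
  rw [hi_apply, dF, Gr.dd_apply, Gr.dd_apply]
  split_ifs with h
  · refine Finset.sum_congr rfl fun i hi => ?_
    rw [hi_apply, if_pos (by have := Finset.card_erase_add_one hi; omega)]
  · refine (Finset.sum_eq_zero fun i hi => ?_).symm
    rw [hi_apply, if_neg (by have := Finset.card_erase_add_one hi; omega), map_zero, mul_zero]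

theorem hi_seq (𝔅 : 𝔸.Sys J) (r : ℕ) {τ : Bool} {w : ℕ → Fm n J F} (hw : w ∈ 𝔅.fO.Seq τ) :
    (fun m => hi r (w m)) ∈ 𝔅.fO.Seq τ :=
  AFil.Seq.of_rel0 hw fun m D a hm => mem_FilO'.2 fun I σ hσ => by
    rw [hi_apply]
    split_ifs
    · exact mem_FilO'.1 hm I σ hσ
    · rw [map_zero]
      exact zero_mem _

theorem const_van {𝔅 : 𝔸.Sys J} (hc : ∀ σ σ', 𝔅.B σ = 𝔅.B σ') {x : ℕ → Fm n J F}
    (hx : x ∈ 𝔅.fO.Seq false) (hd : (fun m => 𝔸.dF J (x m)) ∈ 𝔅.fO.Seq true) (T : Finset J) :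
    ∃ y ∈ 𝔅.fO.Seq false, (fun m => x m - rO (fun j => if j ∈ T then some false else none) (x m) -
      𝔸.dF J (y m)) ∈ 𝔅.fO.Seq true := by
  have hr : ∀ (σ : Face J) τ (w : ℕ → Fm n J F), w ∈ 𝔅.fO.Seq τ →
      (fun m => rO σ (w m)) ∈ 𝔅.fO.Seq τ := fun σ τ w hw =>
    AFil.Seq.of_rel0 hw fun m D a hm σ' => by
      rw [rO_rO]
      exact cdO_mono le_rfl (Sys.G_le (hc _ _).le a) (hm _)
  induction T using Finset.induction_on with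
  | empty =>
    refine ⟨0, zero_mem _, AFil.seq_of_eventually_zero _ _ (Eventually.of_forall fun m => ?_)⟩
    simp [rO_none]
  | insert j T hj ih =>
    obtain ⟨y, hy, h⟩ := ih
    have bK := AKn.KJ_bd (𝔅 := 𝔅) (𝔅' := 𝔅) j fun σ _ => (hc _ _).le
    refine ⟨_, add_mem hy (bK.seq (hr (fun j => if j ∈ T then some false else none) _ _ hx)),
      AFil.Seq.congr (add_mem h (bK.seq (hr (fun j => if j ∈ T then some false else none) _ _ hd)))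
        (Eventually.of_forall fun m => ?_)⟩
    have e : (fun k => (if k ∈ T then some false else none : Option Bool).or (fj j false k)) =
        fun k => if k ∈ insert j T then some false else none := by
      funext k
      by_cases h1 : k = j
      · simp [fj, h1, hj]
      · by_cases h2 : k ∈ T <;> simp [fj, h1, h2]
    have := AKn.dF_KJ 𝔸 j (rO (fun j => if j ∈ T then some false else none) (x m))
    rw [rO_rO, e] at this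
    simp only [Pi.add_apply, map_add, 𝔸.rO_dF]
    linear_combination (norm := abel1) this

theorem Sys.QI.van {𝔅 𝔅' : 𝔸.Sys J} (h : 𝔅.QI 𝔅') (hc : ∀ σ σ', 𝔅.B σ = 𝔅.B σ') :
    ∀ ω ∈ 𝔅'.dg.Fd (n + 1), 𝔅'.dg.d ω = 0 → 𝔅'.dg.Ex ω := by
  rintro _ ⟨w, hw, rfl, hF⟩ hω
  obtain ⟨x, hx, hdx, η, hη, e⟩ := h.2.1 w hw (Fil.cl_eq_zero.1 hω)
  obtain ⟨y, hy, e'⟩ := const_van hc (hi_seq 𝔅 (n + 1) hx) (AFil.Seq.congr (hi_seq 𝔅 (n + 1 + 1) hdx)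
    (Eventually.of_forall fun m => hi_dF _ _)) Finset.univ
  refine ⟨𝔅'.clO _ (add_mem (Sys.le_seqO h.1 hy) (hi_seq 𝔅' n hη)), Eq.symm (Sys.clO_eq.2
    (AFil.Seq.congr (add_mem (hi_seq 𝔅' (n + 1) e) (Sys.le_seqO h.1 e'))
      (Eventually.of_forall fun m => ?_)))⟩
  have e1 : hi (n + 1) (w m) = w m := by
    ext1 I
    rw [hi_apply]
    split_ifs with hI
    · rfl
    · exact (hF m I (not_le.1 hI)).symm
  have e2 : rO (fun j => if j ∈ Finset.univ then some false else none) (hi (n + 1) (x m)) = 0 := by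
    ext1 I
    rw [rO_apply, hi_apply]
    split_ifs with h1 h2
    · have : I ⊆ Finset.univ.map ⟨Sum.inl, Sum.inl_injective⟩ := by
        rintro (i | j) hi
        · simp
        · simpa using disjoint_kl.1 h1 j hi
      have := Finset.card_le_card this
      simp at this
      omega
    · exact map_zero _
    · rfl
  change _ = w m - 𝔸.dF J (y m + hi n (η m))
  simp only [Pi.add_apply, map_add, map_sub, e1, e2, hi_dF]
  abel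

theorem Sys.mpO_mpO {𝔅 𝔅' 𝔅'' : 𝔸.Sys J} (h : 𝔅 ≤ 𝔅') (h' : 𝔅' ≤ 𝔅'') (h'' : 𝔅 ≤ 𝔅'')
    (x : 𝔅.Om) : (Sys.mpH h').o ((Sys.mpH h).o x) = (Sys.mpH h'').o x := by
  induction x using Sys.indO
  rw [Sys.mpO_cl, Sys.mpO_cl, Sys.mpO_cl]

theorem Sys.QI.extend {𝔅 𝔅' : 𝔸.Sys J} (h : 𝔅.QI 𝔅') (R : 𝔅.Om →ₗ[ℚ] ℚ)
    (hR : ∀ ω, R (𝔅.dg.d ω) = 0) : ∃ R' : 𝔅'.Om →ₗ[ℚ] ℚ, (∀ ω, R' (𝔅'.dg.d ω) = 0) ∧
      ∀ x, 𝔅.dg.d x = 0 → R' ((Sys.mpH h.1).o x) = R x := by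
  let Z := LinearMap.ker 𝔅.dg.d.toRatLinearMap
  let φ : Z × 𝔅'.Om →ₗ[ℚ] 𝔅'.Om :=
    ((Sys.mpH h.1).o.toAddMonoidHom.toRatLinearMap ∘ₗ Z.subtype).coprod 𝔅'.dg.d.toRatLinearMap
  have hψ : (R ∘ₗ Z.subtype) ∘ₗ LinearMap.fst ℚ Z 𝔅'.Om ∈ (LinearMap.ker φ).dualAnnihilator := by
    rw [Submodule.mem_dualAnnihilator]
    rintro ⟨z, η⟩ hz
    obtain ⟨y, hy⟩ := h.inj z.1 z.2 ⟨-η, by
      rw [map_neg, neg_eq_iff_add_eq_zero, add_comm]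
      exact hz⟩
    change R z.1 = 0
    rw [← hy, hR]
  rw [← LinearMap.range_dualMap_eq_dualAnnihilator_ker] at hψ
  obtain ⟨R', hR'⟩ := hψ
  refine ⟨R', fun ω => ?_, fun x hx => ?_⟩
  · have := LinearMap.congr_fun hR' (0, ω)
    simpa [φ] using this
  · have := LinearMap.congr_fun hR' (⟨x, hx⟩, 0)
    simpa [φ] using this

end Amb

namespace Tow

open Amb

variable {n : ℕ} {K F : Type} [Field K] [Field F] [CharZero K] [CharZero F] [Algebra K F]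
  {𝔸 : Amb (n + 1) K F} {ι : Type} (𝒯 : Tow 𝔸 ι) [Fintype ι] [DecidableEq ι]

/-- Closed forms of high degree on the affinoid are exact. -/
theorem van (c : ι) : ∀ ω ∈ (𝒯.sW c).dg.Fd (n + 1 + 1), (𝒯.sW c).dg.d ω = 0 →
    (𝒯.sW c).dg.Ex ω := by
  have hX : ∀ _ : Face (Cub n ι), {(((𝒯.h c)⁻¹ : Fˣ) : F)} ⊆ 𝒯.Gen := fun _ _ hy =>
    Or.inl ⟨c, Or.inr hy⟩
  refine ((𝒯.tower_qi hX (fun _ _ _ => le_rfl) (Finset.univ.erase c) fun _ _ _ _ => rfl).trans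
    (Sys.QI.of_eq fun σ => ?_)).van fun _ _ => rfl
  change 𝔸.cell (_ ∪ _) = 𝔸.cell (𝒯.gens _)
  rw [← gT_univ, ← Finset.insert_erase (Finset.mem_univ c), gT_insert,
    gT_upd _ (Finset.notMem_erase _ _), Function.update_self, Set.union_comm,
    Finset.erase_insert (Finset.notMem_erase _ _)]
  congr 2
  ext y
  simp

theorem exists_res_of
    (h0 : ∀ 𝔅 : 𝔸.Sys (Cub n ι),
      (∀ σ, 𝔅.B σ = 𝔸.cell {y | ∃ i ∈ IS σ, y = ((𝔸.w i)⁻¹ : Fˣ)}) →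
      ∃ R : 𝔅.Om →ₗ[ℚ] ℚ, (∀ ω, R (𝔅.dg.d ω) = 0) ∧
        (∀ (𝔇 : 𝔸.Sys (Cub n ι)) (h : 𝔇 ≤ 𝔅), (∀ σ, 𝔇.B σ = 𝔸.cell ∅) →
          ∀ ω, R ((Sys.mpH h).o ω) = 0) ∧
        ∀ q : ℕ, 0 < q → ∀ hb : ∀ σ, 𝔸.cell ∅ ≤ 𝔅.B σ, ∃ y : Fin (n + 1) → 𝔅.A,
          ∑ i, 𝔅.cF _ hb (zc q i) * y i = 1 ∧
          R (𝔅.dg.oo (kpar (n + 1)) (kos (n + 1) (fun i => 𝔅.cF _ hb (zc q i)) y)
            (2 * n + 1)) ≠ 0) :
    ∃ Res, 𝒯.IsRes Res := by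
  have hS : ∀ σ : Face (Cub n ι), {y : F | ∃ i ∈ IS σ, y = ((𝔸.w i)⁻¹ : Fˣ)} ⊆ 𝒯.Gen :=
    fun _ _ ⟨i, _, hy⟩ => Or.inr ⟨i, hy⟩
  have hD : ∀ _ : Face (Cub n ι), ∅ ⊆ 𝒯.Gen := fun _ => Set.empty_subset _
  have qS : (𝒯.sX _ hS).QI 𝒯.sS := by
    refine (𝒯.tower_qi hS (fun _ _ h _ ⟨i, hi, hy⟩ => ⟨i, IS_mono h hi, hy⟩) Finset.univ
      fun c _ σ o => ?_).trans (Sys.QI.of_eq fun σ => ?_)
    · simp [IS]
    · change 𝔸.cell (_ ∪ _) = 𝔸.cell (_ ∪ _)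
      rw [gT_univ]
  have qD : (𝒯.sX _ hD).QI 𝒯.sD := by
    refine (𝒯.tower_qi hD (fun _ _ _ => le_rfl) Finset.univ
      fun _ _ _ _ => rfl).trans (Sys.QI.of_eq fun σ => ?_)
    change 𝔸.cell (_ ∪ _) = 𝔸.cell _
    rw [gT_univ, Set.union_empty]
  have hb : 𝒯.sX _ hD ≤ 𝒯.sX _ hS := fun _ => cell_mono (Set.empty_subset _)
  have hb' : ∀ σ, 𝔸.cell ∅ ≤ (𝒯.sX _ hS).B σ := hb
  obtain ⟨R, h1, h2, h3⟩ := h0 (𝒯.sX _ hS) fun _ => rfl
  obtain ⟨R', k1, k2⟩ := qS.extend R h1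
  refine ⟨R', k1, fun ω hω => ?_, fun q hq => ?_⟩
  · obtain ⟨x, hx, η, hη⟩ := qD.srj ω hω
    rw [eq_sub_iff_add_eq] at hη
    rw [← hη, map_add, map_add, DG.Hom.o_d, k1, zero_add,
      Sys.mpO_mpO _ _ (Sys.le_trans' hb qS.1), ← Sys.mpO_mpO hb qS.1, k2, h2 _ _ fun _ => rfl]
    rw [← DG.Hom.o_d, hx, map_zero]
  · obtain ⟨y, hy, hR⟩ := h3 q hq hb'
    have e : ∀ i, Sys.mpA qS.1 ((𝒯.sX _ hS).cF (𝔸.cell ∅) hb' (zc q i)) =
        𝒯.sS.cF _ 𝒯.base_le_sS (zc q i) := fun i => Sys.mpA_cF _ _ _ _ _ rfl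
    refine ⟨fun i => Sys.mpA qS.1 (y i), ?_, ?_⟩
    · simp only [← e, ← map_mul]
      rw [← map_sum, hy, map_one]
    · rw [← k2 _ (DG.oo_closed _ (kos_odd _ _ _) (by rw [kos_sq, hy, one_smul]) ⟨n, rfl⟩),
        DG.oo_map, Sys.mpH_a, kos_map] at hR
      simp only [← e]
      exact hR

theorem exists_res : ∃ Res, 𝒯.IsRes Res := 𝒯.exists_res_of exists_res0

end Tow

end Pool.Agent.P.MP_f43029_ag.XL
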