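import Pool.Agent.P.MP_f43029_ag.XL.AHot
import Pool.Agent.P.MP_f43029_ag.XL.AVan

/-!
Exact lifts, asymptotic Thom-Whitney algebras: patching and the geometry of the end game.
-/

set_option autoImplicit false

noncomputable section

namespace Pool.Agent.P.MP_f43029_ag.XL

open Pool.Agent.Theta Filter MvPolynomial

namespace Amb

variable {n : ℕ} {K F : Type} [Field K] [Field F] [CharZero K] [CharZero F] [Algebra K F]
  {𝔸 : Amb n K F} {J : Type} [DecidableEq J]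

namespace Sys

variable {𝔅 𝔅' 𝔅'' : 𝔸.Sys J}

theorem evA_X_false (j : J) (h : 𝔅.upd j false ≤ 𝔅') : evA j false h (𝔅.pA (X j)) = 0 := by
  rw [evA_pA, rC_X, rv_false (by simp [fj]), map_zero]

theorem evA_X_true (j : J) (h : 𝔅.upd j true ≤ 𝔅') : evA j true h (𝔅.pA (X j)) = 1 := by
  rw [evA_pA, rC_X, rv_true (by simp [fj]), map_one]

theorem evA_X_ne {j k : J} (hk : k ≠ j) (b : Bool) (h : 𝔅.upd j b ≤ 𝔅') :
    evA j b h (𝔅.pA (X k)) = 𝔅'.pA (X k) := by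
  rw [evA_pA, rC_X, rv_none (by simp [fj, hk])]

/-- Patching of the conditions on polynomials along a coordinate. -/
theorem patch_fC (j : J) {D : ℕ} {a : ℤ} {x : MvPolynomial J F}
    (hO : x ∈ (𝔅.on {σ | σ j = none}).fC.B D a)
    (hU : rC F (fj j false) x ∈ (𝔅.on {σ | σ j ≠ some true}).fC.B D a)
    (hT : rC F (fj j true) x ∈ (𝔅.on {σ | σ j ≠ some false}).fC.B D a) : x ∈ 𝔅.fC.B D a :=
  fun σ => by
    rcases h : σ j with _ | _ | _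
    · exact cd_mono le_rfl (G_le (on_B 𝔅 (by simpa using h)).le a) (hO σ)
    · have := hU σ
      rw [rC_fj, Function.update_eq_self_iff.2 h.symm] at this
      exact cd_mono le_rfl (G_le (on_B 𝔅 (by simp [h])).le a) this
    · have := hT σ
      rw [rC_fj, Function.update_eq_self_iff.2 h.symm] at this
      exact cd_mono le_rfl (G_le (on_B 𝔅 (by simp [h])).le a) this

theorem patch_A (j : J) (lO : 𝔅.on {σ | σ j ≠ some true} ≤ 𝔅.on {σ | σ j = none})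
    (eU : (𝔅.on {σ | σ j ≠ some true}).upd j false ≤ 𝔅.on {σ | σ j ≠ some true})
    (eT : (𝔅.on {σ | σ j ≠ some false}).upd j true ≤ 𝔅.on {σ | σ j ≠ some false}) (y : 𝔅.A)
    (hO : mpA lO (mpA (𝔅.le_on _) y) = 0) (hU : evA j false eU (mpA (𝔅.le_on _) y) = 0)
    (hT : evA j true eT (mpA (𝔅.le_on _) y) = 0) : y = 0 := by
  induction y using indA
  rw [mpA_cl, mpA_cl, clA_eq_zero] at hO
  rw [mpA_cl, evA_cl, clA_eq_zero] at hU hT
  rw [clA_eq_zero]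
  exact AFil.Seq.of_rel0 (AFil.Seq.pair hO (AFil.Seq.pair hU hT)) fun m D a h =>
    patch_fC j h.1 h.2.1 h.2.2

theorem ext_cond (𝔅 : 𝔸.Sys J) (j : J) (b : Bool) {P : MvPolynomial J ℤ}
    (hP : rC ℤ (fj j b) P = 0) (σ : Face J) :
    rC ℤ σ P = 0 ∨ (𝔅.on {σ | σ j ≠ some b}).B σ ≤ 𝔅.B σ := by
  by_cases h : σ j = some b
  · left
    have := rC_fj σ j b P
    rw [hP, map_zero, Function.update_eq_self_iff.2 h.symm] at this
    exact this.symm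
  · exact Or.inr (on_B 𝔅 (by simpa using h)).le

/-- Extension by zero of functions. -/
theorem ext_A (j : J) (b : Bool) {P : MvPolynomial J ℤ} (hP : rC ℤ (fj j b) P = 0)
    (l : 𝔅 ≤ 𝔅') (e : 𝔅'.upd j b ≤ 𝔅'') (y : (𝔅.on {σ | σ j ≠ some b}).A) :
    ∃ y' : 𝔅.A, mpA (𝔅.le_on _) y' = mpA (𝔅.le_on _) (𝔅.pA P) * y ∧ evA j b e (mpA l y') = 0 := by
  refine ⟨gl P (𝔅.ext_cond j b hP) y, ?_, ?_⟩
  · induction y using indA
    rw [gl_cl, mpA_cl, mpA_pA, pA_eq, clA_mul]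
    rfl
  · induction y using indA
    rw [gl_cl, mpA_cl, evA_cl, clA_zero]
    exact clA_congr fun m => by rw [map_mul, rC_map, hP, map_zero, zero_mul, Pi.zero_apply]

variable [Fintype J]

/-- Patching of the conditions on forms along a coordinate. -/
theorem patch_fO (j : J) {D : ℕ} {a : ℤ} {x : Fm n J F}
    (hO : x ∈ (𝔅.on {σ | σ j = none}).fO.B D a)
    (hU : rO (fj j false) x ∈ (𝔅.on {σ | σ j ≠ some true}).fO.B D a)
    (hT : rO (fj j true) x ∈ (𝔅.on {σ | σ j ≠ some false}).fO.B D a) : x ∈ 𝔅.fO.B D a :=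
  fun σ => by
    rcases h : σ j with _ | _ | _
    · exact cdO_mono le_rfl (G_le (on_B 𝔅 (by simpa using h)).le a) (hO σ)
    · have := hU σ
      rw [rO_fj, Function.update_eq_self_iff.2 h.symm] at this
      exact cdO_mono le_rfl (G_le (on_B 𝔅 (by simp [h])).le a) this
    · have := hT σ
      rw [rO_fj, Function.update_eq_self_iff.2 h.symm] at this
      exact cdO_mono le_rfl (G_le (on_B 𝔅 (by simp [h])).le a) this

theorem patch_O (j : J) (lO : 𝔅.on {σ | σ j ≠ some true} ≤ 𝔅.on {σ | σ j = none})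
    (eU : (𝔅.on {σ | σ j ≠ some true}).upd j false ≤ 𝔅.on {σ | σ j ≠ some true})
    (eT : (𝔅.on {σ | σ j ≠ some false}).upd j true ≤ 𝔅.on {σ | σ j ≠ some false}) (y : 𝔅.Om)
    (hO : (mpH lO).o ((mpH (𝔅.le_on _)).o y) = 0)
    (hU : (evH j false eU).o ((mpH (𝔅.le_on _)).o y) = 0)
    (hT : (evH j true eT).o ((mpH (𝔅.le_on _)).o y) = 0) : y = 0 := by
  induction y using indO
  rw [mpO_cl, mpO_cl, clO_eq_zero] at hO
  rw [mpO_cl, evO_cl, clO_eq_zero] at hU hT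
  rw [clO_eq_zero]
  exact AFil.Seq.of_rel0 (AFil.Seq.pair hO (AFil.Seq.pair hU hT)) fun m D a h =>
    patch_fO j h.1 h.2.1 h.2.2

theorem glO_seq {l : Fm n J F} {k e : ℕ} (hl : l ∈ 𝔅.fO.B k (-(e : ℤ)))
    (h : ∀ σ, rO σ l = 0 ∨ 𝔅'.B σ ≤ 𝔅.B σ) {τ : Bool} {w : ℕ → Fm n J F} (hw : w ∈ 𝔅'.fO.Seq τ) :
    (fun m => l * w m) ∈ 𝔅.fO.Seq τ := by
  refine (AFil.Bd.of_shift (F' := 𝔅.fO.toAFil) (f := fun x => l * x) k e
    fun D a x hx σ => ?_).seq hw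
  rw [map_mul]
  rcases h σ with h | h
  · rw [h, zero_mul]
    exact zero_mem _
  · refine cdO_mono (add_comm k D).le le_rfl
      (cdO_mul (fun x hx y hy => ?_) (hl σ) (cdO_mono le_rfl (G_le h a) (hx σ)))
    rw [sub_eq_neg_add]
    exact fil_mul hx hy

/-- Extension by zero of forms. -/
theorem ext_O (j : J) (b : Bool) {P : MvPolynomial J ℤ} (hP : rC ℤ (fj j b) P = 0)
    (l : 𝔅 ≤ 𝔅') (e : 𝔅'.upd j b ≤ 𝔅'') (y : (𝔅.on {σ | σ j ≠ some b}).Om) :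
    ∃ y' : 𝔅.Om, (mpH (𝔅.le_on _)).o y' =
      (𝔅.on {σ | σ j ≠ some b}).dg.i (mpA (𝔅.le_on _) (𝔅.pA P)) * y ∧
        (evH j b e).o ((mpH l).o y') = 0 := by
  induction y using indO with | h w hw
  refine ⟨𝔅.clO _ (glO_seq (e := 0) (𝔅.of0_mem_fO _ _ _ (𝔅.zP_mem_fC P))
    (fun σ => (𝔅.ext_cond j b hP σ).imp_left fun h => ?_) hw), ?_, ?_⟩
  · rw [rO_of0, rC_map, h, map_zero, map_zero]
  · rw [mpO_cl, mpA_pA, pA_eq, i_cl, clO_mul]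
    rfl
  · rw [mpO_cl, evO_cl, clO_zero]
    exact clO_congr fun m => by
      rw [map_mul, rO_of0, rC_map, hP, map_zero, map_zero, zero_mul, Pi.zero_apply]

theorem rO_dX {σ : Face J} {j : J} (h : σ j ≠ none) :
    rO σ (𝔸.dF J (Gr.of0 (zP F (X j)))) = 0 := by
  rw [rO_dF, rO_of0, map_X, rC_X]
  rcases h' : σ j with _ | _ | _
  · exact absurd h' h
  · rw [rv_false h', map_zero, map_zero]
  · rw [rv_true h', map_one]
    exact Gr.dd_one (𝔸.isDer_derC J)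

/-- Extension by zero of multiples of the differential of a coordinate. -/
theorem ext_dO (j : J) {𝔘 𝔗 : 𝔸.Sys J} (lU : 𝔅 ≤ 𝔘) (lT : 𝔅 ≤ 𝔗)
    (lO : 𝔘 ≤ 𝔅.on {σ | σ j = none}) (eU : 𝔘.upd j false ≤ 𝔘) (eT : 𝔗.upd j true ≤ 𝔗)
    (y : (𝔅.on {σ | σ j = none}).Om) :
    ∃ y' : 𝔅.Om, (mpH lO).o ((mpH lU).o y') = (𝔅.on {σ | σ j = none}).dg.d
      ((𝔅.on {σ | σ j = none}).dg.i (mpA lO (mpA lU (𝔅.pA (X j))))) * y ∧
        (evH j false eU).o ((mpH lU).o y') = 0 ∧ (evH j true eT).o ((mpH lT).o y') = 0 := by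
  induction y using indO with | h w hw
  obtain ⟨e, he⟩ := 𝔅.dF_mem_fO
  have h1 := he _ _ _ (𝔅.of0_mem_fO _ _ _ (𝔅.zP_mem_fC (X j)))
  rw [zero_sub] at h1
  refine ⟨𝔅.clO _ (glO_seq h1 (fun σ => ?_) hw), ?_, ?_, ?_⟩
  · by_cases h : σ j = none
    · exact Or.inr (on_B 𝔅 (by simpa using h)).le
    · exact Or.inl (rO_dX h)
  · rw [mpO_cl, mpO_cl, mpA_pA, mpA_pA, pA_eq, i_cl, d_cl, clO_mul]
    rfl
  · rw [mpO_cl, evO_cl, clO_zero]
    exact clO_congr fun m => by rw [map_mul, rO_dX (by simp [fj]), zero_mul, Pi.zero_apply]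
  · rw [mpO_cl, evO_cl, clO_zero]
    exact clO_congr fun m => by rw [map_mul, rO_dX (by simp [fj]), zero_mul, Pi.zero_apply]

omit [Fintype J] in
theorem on_update_none (𝔅 : 𝔸.Sys J) (j : J) (σ : Face J) (h : σ j ≠ some false) :
    (𝔅.on {σ | σ j ≠ some true}).B (Function.update σ j none) ≤
      (𝔅.on {σ | σ j ≠ some true}).B σ := by
  rcases h' : σ j with _ | _ | _
  · rw [Function.update_eq_self_iff.2 h'.symm]
  · exact absurd h' h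
  · rw [on_B_top 𝔅 (σ := σ) (by simp [h'])]
    exact le_top

end Sys

end Amb

namespace Tow

open Amb

variable {n : ℕ} {K F : Type} [Field K] [Field F] [CharZero K] [CharZero F] [Algebra K F]
  {𝔸 : Amb (n + 1) K F} {ι : Type} (𝒯 : Tow 𝔸 ι) [Fintype ι] [DecidableEq ι]

/-- The geometry of the end game. -/
def geo (c : ι) {Res : 𝒯.sS.Om →ₗ[ℚ] ℚ} (hR : 𝒯.IsRes Res) :
    Geo (n + 1) 𝒯.sS.A 𝒯.sS.Om (𝒯.sU c).A (𝒯.sU c).Om (𝒯.sT c).A (𝒯.sT c).Om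
      (𝒯.sO c).A (𝒯.sO c).Om (𝒯.sW c).A (𝒯.sW c).Om where
  GS := 𝒯.sS.dg
  GU := (𝒯.sU c).dg
  GT := (𝒯.sT c).dg
  GO := (𝒯.sO c).dg
  GW := (𝒯.sW c).dg
  hS := 𝒯.sS.hot none 𝒯.sS_free
  hU := (𝒯.sU c).hot none (𝒯.sU_free c)
  hO := (𝒯.sO c).hot none (𝒯.sO_free c)
  ρU := Sys.mpH (𝒯.sS.le_on _)
  ρT := Sys.mpH (𝒯.sS.le_on _)
  σU := Sys.mpH (𝒯.sU_le_sO c)
  σT := Sys.mpH (𝒯.sT_le_sO c)
  κ := Sys.mpH (𝒯.sW_le_sU c)
  σρ ω := (Sys.mpO_mpO (𝒯.sS.le_on _) (𝒯.sU_le_sO c) (𝒯.sS.le_on _) ω).trans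
    (Sys.mpO_mpO (𝒯.sS.le_on _) (𝒯.sT_le_sO c) (𝒯.sS.le_on _) ω).symm
  σρa y := (Sys.mpA_mpA (𝒯.sS.le_on _) (𝒯.sU_le_sO c) (𝒯.sS.le_on _) y).trans
    (Sys.mpA_mpA (𝒯.sS.le_on _) (𝒯.sT_le_sO c) (𝒯.sS.le_on _) y).symm
  τ := 𝒯.sS.pA (MvPolynomial.X (cj c))
  τ_r := Sys.evA_X_ne (Option.some_ne_none _) false (𝒯.sS_free.upd_le false)
  zU := Sys.evH (cj c) false (𝒯.sU_upd c)
  zT := Sys.evH (cj c) true (𝒯.sT_upd c)
  zU_τ := (congrArg (Sys.evA (cj c) false (𝒯.sU_upd c)) (Sys.mpA_pA (𝒯.sS.le_on _) _)).trans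
    (Sys.evA_X_false _ _)
  zT_τ := (congrArg (Sys.evA (cj c) true (𝒯.sT_upd c)) (Sys.mpA_pA (𝒯.sS.le_on _) _)).trans
    (Sys.evA_X_true _ _)
  zU_ex := AKn.ex_false (cj c) (𝒯.sS.on_update_none (cj c)) (𝒯.sU_upd c)
  inj := Sys.patch_O (cj c) (𝒯.sU_le_sO c) (𝒯.sU_upd c) (𝒯.sT_upd c)
  inja := Sys.patch_A (cj c) (𝒯.sU_le_sO c) (𝒯.sU_upd c) (𝒯.sT_upd c)
  exU ω := by
    have := Sys.ext_O (P := 1 - X (cj c)) (cj c) true (by simp [rv, fj]) (𝒯.sS.le_on _)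
      (𝒯.sT_upd c) ω
    rwa [map_sub, map_sub, map_one, map_one] at this
  exT := Sys.ext_O (P := X (cj c)) (cj c) false (by simp [rv, fj]) (𝒯.sS.le_on _) (𝒯.sU_upd c)
  exO := Sys.ext_dO (cj c) (𝒯.sS.le_on _) (𝒯.sS.le_on _) (𝒯.sU_le_sO c) (𝒯.sU_upd c) (𝒯.sT_upd c)
  exUa y := by
    have := Sys.ext_A (P := 1 - X (cj c)) (cj c) true (by simp [rv, fj]) (𝒯.sS.le_on _)
      (𝒯.sT_upd c) y
    rwa [map_sub, map_sub, map_one, map_one] at this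
  exTa := Sys.ext_A (P := X (cj c)) (cj c) false (by simp [rv, fj]) (𝒯.sS.le_on _) (𝒯.sU_upd c)
  Res := Res
  Res_d := hR.d
  van := 𝒯.van c

end Tow

end Pool.Agent.P.MP_f43029_ag.XL
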