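import Pool.Agent.P.MP_f43029_ag.XL.Basic

/-!
Exact lifts, pure algebra: closure properties of filtered matrices, pairs, parities and normal
forms.
-/

set_option autoImplicit false

noncomputable section

namespace Pool.Agent.P.MP_f43029_ag.XL

open Matrix Kronecker

section Fil

variable {L L' : Type} [CommRing L] [CommRing L'] {u : Lˣ} {B : Subring L}

theorem zpow_val_add (u : Lˣ) (a b : ℤ) :
    ((u ^ (a + b) : Lˣ) : L) = ((u ^ a : Lˣ) : L) * ((u ^ b : Lˣ) : L) := by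
  rw [_root_.zpow_add, Units.val_mul]

theorem zpow_val_neg (u : Lˣ) (a : ℤ) : ((u ^ a : Lˣ) : L) * ((u ^ (-a) : Lˣ) : L) = 1 := by
  rw [← zpow_val_add]; simp

theorem zpow_val_neg' (u : Lˣ) (a : ℤ) : ((u ^ (-a) : Lˣ) : L) * ((u ^ a : Lˣ) : L) = 1 := by
  rw [mul_comm, zpow_val_neg]

theorem one_mem_fil (u : Lˣ) (B : Subring L) : (1 : L) ∈ fil u B 0 := fil_zero.2 B.one_mem

theorem intCast_mem_fil (u : Lˣ) (B : Subring L) (n : ℤ) : (n : L) ∈ fil u B 0 :=
  fil_zero.2 (intCast_mem B n)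

theorem fil_shift {a b : ℤ} {y : L} :
    ((u ^ b : Lˣ) : L) * y ∈ fil u B (b + a) ↔ y ∈ fil u B a := by
  rw [mem_fil, mem_fil, ← mul_assoc, ← zpow_val_add]
  have : -(b + a) + b = -a := by ring
  rw [this]

theorem fil_of_eq {a b : ℤ} {y : L} (h : y ∈ fil u B a) (e : a = b) : y ∈ fil u B b := e ▸ h

theorem map_zpow_val (φ : L →+* L') {u : Lˣ} {u' : L'ˣ} (h : φ u = u') (a : ℤ) :
    φ ((u ^ a : Lˣ) : L) = ((u' ^ a : L'ˣ) : L') := by
  have e : Units.map (φ : L →* L') u = u' := Units.ext h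
  rw [← e, ← map_zpow]
  rfl

theorem fil_map (φ : L →+* L') {u' : L'ˣ} {B' : Subring L'} (h : φ u = u')
    (hB : ∀ y ∈ B, φ y ∈ B') {a : ℤ} {y : L} (hy : y ∈ fil u B a) : φ y ∈ fil u' B' a := by
  have := hB _ hy
  rwa [map_mul, map_zpow_val φ h] at this

end Fil

namespace MemM

variable {a b c d L : Type}

section Add

variable [AddCommGroup L] {G G' : AddSubgroup L} {X Y : Matrix a b L}

theorem zero (G : AddSubgroup L) : MemM G (0 : Matrix a b L) := fun _ _ => G.zero_mem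

theorem add (hX : MemM G X) (hY : MemM G Y) : MemM G (X + Y) :=
  fun i j => G.add_mem (hX i j) (hY i j)

theorem sub (hX : MemM G X) (hY : MemM G Y) : MemM G (X - Y) :=
  fun i j => G.sub_mem (hX i j) (hY i j)

theorem neg (hX : MemM G X) : MemM G (-X) := fun i j => G.neg_mem (hX i j)

theorem sum {σ : Type} (s : Finset σ) {f : σ → Matrix a b L} (h : ∀ t ∈ s, MemM G (f t)) :
    MemM G (∑ t ∈ s, f t) := fun i j => by
  rw [Matrix.sum_apply]
  exact G.sum_mem fun t ht => h t ht i j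

theorem mono (h : G ≤ G') (hX : MemM G X) : MemM G' X := fun i j => h (hX i j)

theorem transpose (hX : MemM G X) : MemM G Xᵀ := fun i j => hX j i

theorem submatrix (hX : MemM G X) (e : c → a) (f : d → b) : MemM G (X.submatrix e f) :=
  fun i j => hX (e i) (f j)

theorem fromBlocks {X₁ : Matrix a c L} {X₂ : Matrix a d L} {X₃ : Matrix b c L}
    {X₄ : Matrix b d L} (h₁ : MemM G X₁) (h₂ : MemM G X₂) (h₃ : MemM G X₃) (h₄ : MemM G X₄) :
    MemM G (Matrix.fromBlocks X₁ X₂ X₃ X₄) := by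
  rintro (i | i) (j | j)
  exacts [h₁ i j, h₂ i j, h₃ i j, h₄ i j]

theorem of_eq (hX : MemM G X) (e : X = Y) : MemM G Y := e ▸ hX

end Add

variable [CommRing L] {u : Lˣ} {B : Subring L} {r s : ℤ}

theorem mul [Fintype b] {X : Matrix a b L} {Y : Matrix b c L} (hX : MemM (fil u B r) X)
    (hY : MemM (fil u B s) Y) : MemM (fil u B (r + s)) (X * Y) := fun i j => by
  rw [Matrix.mul_apply]
  exact AddSubgroup.sum_mem _ fun k _ => fil_mul (hX i k) (hY k j)

theorem smul {y : L} {X : Matrix a b L} (hy : y ∈ fil u B r) (hX : MemM (fil u B s) X) :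
    MemM (fil u B (r + s)) (y • X) := fun i j => fil_mul hy (hX i j)

theorem kron {X : Matrix a b L} {Y : Matrix c d L} (hX : MemM (fil u B r) X)
    (hY : MemM (fil u B s) Y) : MemM (fil u B (r + s)) (X ⊗ₖ Y) :=
  fun i j => fil_mul (hX i.1 j.1) (hY i.2 j.2)

theorem one [DecidableEq a] (u : Lˣ) (B : Subring L) : MemM (fil u B 0) (1 : Matrix a a L) :=
  fun i j => by
    rw [Matrix.one_apply]
    split_ifs
    exacts [one_mem_fil u B, zero_mem _]

theorem anti (hu : (u : L) ∈ B) {X : Matrix a b L} (hX : MemM (fil u B s) X) (h : r ≤ s) :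
    MemM (fil u B r) X := hX.mono (fil_anti hu h)

theorem lvl {X : Matrix a b L} (hX : MemM (fil u B s) X) (h : s = r) : MemM (fil u B r) X :=
  h ▸ hX

theorem map {L' : Type} [CommRing L'] (φ : L →+* L') {u' : L'ˣ} {B' : Subring L'} (h : φ u = u')
    (hB : ∀ y ∈ B, φ y ∈ B') {X : Matrix a b L} (hX : MemM (fil u B r) X) :
    MemM (fil u' B' r) (X.map φ) := fun i j => fil_map φ h hB (hX i j)

theorem sm [DecidableEq a] (u : Lˣ) (B : Subring L) (p : a → Bool) :
    MemM (fil u B 0) (SM L p) := fun i j => by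
  rw [SM, diagonal_apply]
  split_ifs
  exacts [intCast_mem_fil u B _, zero_mem _]

theorem dg [DecidableEq a] (hu : (u : L) ∈ B) {w : a → ℤ} (hw : ∀ i, r ≤ w i) :
    MemM (fil u B r) (XL.dg u w) := fun i j => by
  rw [XL.dg, diagonal_apply]
  split_ifs
  exacts [fil_anti hu (hw i) (zpow_mem_fil u B _), zero_mem _]

theorem hd [DecidableEq a] (hu : (u : L) ∈ B) {w : a → ℤ} (hw : ∀ i, w i ≤ r) :
    MemM (fil u B (-r)) (XL.hd u w) := fun i j => by
  rw [XL.hd]
  split_ifs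
  exacts [fil_anti hu (neg_le_neg (hw _)) (zpow_mem_fil u B _), zero_mem _]

end MemM

/-! ### Parities -/

section Par

variable {a b c d α : Type} {p : a → Bool} {p' : b → Bool} {p'' : c → Bool}

theorem EvenM.zero [Zero α] : EvenM p p' (0 : Matrix a b α) := fun _ _ _ => rfl

theorem oddM_zero [Zero α] : OddM p p' (0 : Matrix a b α) := fun _ _ _ => rfl

theorem EvenM.transpose [Zero α] {X : Matrix a b α} (h : EvenM p p' X) : EvenM p' p Xᵀ :=
  fun i j hij => h j i hij.symm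

theorem oddM_transpose [Zero α] {X : Matrix a b α} (h : OddM p p' X) : OddM p' p Xᵀ :=
  fun i j hij => h j i hij.symm

theorem EvenM.flip [Zero α] {X : Matrix a b α} (h : EvenM p p' X) :
    EvenM (fun i => !p i) (fun i => !p' i) X :=
  fun i j hij => h i j fun e => hij (by simp only [e])

theorem oddM_flip [Zero α] {X : Matrix a b α} (h : OddM p p' X) :
    OddM (fun i => !p i) (fun i => !p' i) X :=
  fun i j hij => h i j (Bool.not_inj hij)

theorem EvenM.submatrix [Zero α] {X : Matrix a b α} (h : EvenM p p' X) (e : c → a) (f : d → b) :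
    EvenM (p ∘ e) (p' ∘ f) (X.submatrix e f) := fun i j hij => h (e i) (f j) hij

theorem oddM_submatrix [Zero α] {X : Matrix a b α} (h : OddM p p' X) (e : c → a) (f : d → b) :
    OddM (p ∘ e) (p' ∘ f) (X.submatrix e f) := fun i j hij => h (e i) (f j) hij

theorem EvenM.map {β : Type} [Zero α] [Zero β] {X : Matrix a b α} (h : EvenM p p' X) {φ : α → β}
    (h0 : φ 0 = 0) : EvenM p p' (X.map φ) := fun i j hij => by
  rw [Matrix.map_apply, h i j hij, h0]

theorem oddM_map {β : Type} [Zero α] [Zero β] {X : Matrix a b α} (h : OddM p p' X) {φ : α → β}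
    (h0 : φ 0 = 0) : OddM p p' (X.map φ) := fun i j hij => by
  rw [Matrix.map_apply, h i j hij, h0]

theorem EvenM.diagonal [Zero α] [DecidableEq a] (p : a → Bool) (v : a → α) :
    EvenM p p (Matrix.diagonal v) := fun _ _ hij =>
  Matrix.diagonal_apply_ne _ fun e => hij (e ▸ rfl)

variable [Ring α]

theorem EvenM.one [DecidableEq a] (p : a → Bool) : EvenM p p (1 : Matrix a a α) :=
  EvenM.diagonal p _

theorem EvenM.add {X Y : Matrix a b α} (hX : EvenM p p' X) (hY : EvenM p p' Y) :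
    EvenM p p' (X + Y) := fun i j h => by rw [Matrix.add_apply, hX i j h, hY i j h, add_zero]

theorem EvenM.sub {X Y : Matrix a b α} (hX : EvenM p p' X) (hY : EvenM p p' Y) :
    EvenM p p' (X - Y) := fun i j h => by rw [Matrix.sub_apply, hX i j h, hY i j h, sub_zero]

theorem EvenM.neg {X : Matrix a b α} (hX : EvenM p p' X) : EvenM p p' (-X) :=
  fun i j h => by rw [Matrix.neg_apply, hX i j h, neg_zero]

theorem EvenM.smul {X : Matrix a b α} (hX : EvenM p p' X) (y : α) : EvenM p p' (y • X) :=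
  fun i j h => by rw [Matrix.smul_apply, hX i j h, smul_zero]

theorem EvenM.sum {σ : Type} (s : Finset σ) {f : σ → Matrix a b α}
    (h : ∀ t ∈ s, EvenM p p' (f t)) : EvenM p p' (∑ t ∈ s, f t) := fun i j hij => by
  rw [Matrix.sum_apply]
  exact Finset.sum_eq_zero fun t ht => h t ht i j hij

theorem oddM_add {X Y : Matrix a b α} (hX : OddM p p' X) (hY : OddM p p' Y) :
    OddM p p' (X + Y) := fun i j h => by rw [Matrix.add_apply, hX i j h, hY i j h, add_zero]

theorem oddM_sub {X Y : Matrix a b α} (hX : OddM p p' X) (hY : OddM p p' Y) :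
    OddM p p' (X - Y) := fun i j h => by rw [Matrix.sub_apply, hX i j h, hY i j h, sub_zero]

theorem oddM_neg {X : Matrix a b α} (hX : OddM p p' X) : OddM p p' (-X) :=
  fun i j h => by rw [Matrix.neg_apply, hX i j h, neg_zero]

theorem oddM_smul {X : Matrix a b α} (hX : OddM p p' X) (y : α) : OddM p p' (y • X) :=
  fun i j h => by rw [Matrix.smul_apply, hX i j h, smul_zero]

theorem oddM_sum {σ : Type} (s : Finset σ) {f : σ → Matrix a b α}
    (h : ∀ t ∈ s, OddM p p' (f t)) : OddM p p' (∑ t ∈ s, f t) := fun i j hij => by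
  rw [Matrix.sum_apply]
  exact Finset.sum_eq_zero fun t ht => h t ht i j hij

variable [Fintype b] {X : Matrix a b α} {Y : Matrix b c α}

theorem EvenM.mul (hX : EvenM p p' X) (hY : EvenM p' p'' Y) : EvenM p p'' (X * Y) :=
  fun i j h => by
    rw [Matrix.mul_apply]
    refine Finset.sum_eq_zero fun k _ => ?_
    by_cases e : p i = p' k
    · rw [hY k j (e ▸ h), mul_zero]
    · rw [hX i k e, zero_mul]

theorem EvenM.mul_odd (hX : EvenM p p' X) (hY : OddM p' p'' Y) : OddM p p'' (X * Y) :=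
  fun i j h => by
    rw [Matrix.mul_apply]
    refine Finset.sum_eq_zero fun k _ => ?_
    by_cases e : p i = p' k
    · rw [hY k j (e ▸ h), mul_zero]
    · rw [hX i k e, zero_mul]

theorem oddM_mul_even (hX : OddM p p' X) (hY : EvenM p' p'' Y) : OddM p p'' (X * Y) :=
  fun i j h => by
    rw [Matrix.mul_apply]
    refine Finset.sum_eq_zero fun k _ => ?_
    by_cases e : p i = p' k
    · rw [hX i k e, zero_mul]
    · rw [hY k j fun e' => e (h.trans e'.symm), mul_zero]

theorem oddM_mul_odd (hX : OddM p p' X) (hY : OddM p' p'' Y) : EvenM p p'' (X * Y) :=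
  fun i j h => by
    rw [Matrix.mul_apply]
    refine Finset.sum_eq_zero fun k _ => ?_
    by_cases e : p i = p' k
    · rw [hX i k e, zero_mul]
    · rw [hY k j (by revert e h; cases p i <;> cases p' k <;> cases p'' j <;> simp), mul_zero]

end Par

/-- A square matrix is even iff it commutes with the projection to the odd indices. -/
theorem evenM_iff_comm {a α : Type} [Ring α] [Fintype a] [DecidableEq a] (p : a → Bool)
    (X : Matrix a a α) : EvenM p p X ↔
      diagonal (fun i => if p i then (1 : α) else 0) * X =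
        X * diagonal (fun i => if p i then (1 : α) else 0) := by
  constructor
  · intro h
    ext i j
    rw [diagonal_mul, mul_diagonal]
    by_cases e : p i = p j
    · rw [e]
      split_ifs <;> simp
    · rw [h i j e, mul_zero, zero_mul]
  · intro h i j hij
    have := congrFun (congrFun h i) j
    rw [diagonal_mul, mul_diagonal] at this
    revert hij this
    cases p i <;> cases p j <;> simp [eq_comm]

theorem EvenM.kron {a b c d α : Type} [Ring α] {p : a → Bool} {p' : b → Bool} {r : c → Bool}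
    {r' : d → Bool} {X : Matrix a b α} {Y : Matrix c d α} (hX : EvenM p p' X)
    (hY : EvenM r r' Y) : EvenM (tpar p r) (tpar p' r') (X ⊗ₖ Y) := fun i j h => by
  rw [kroneckerMap_apply]
  by_cases e : p i.1 = p' j.1
  · rw [hY i.2 j.2 fun e' => h (by simp only [tpar, e, e']), mul_zero]
  · rw [hX i.1 j.1 e, zero_mul]

theorem EvenM.sm_comm {a b α : Type} [Ring α] [Fintype a] [DecidableEq a] [Fintype b]
    [DecidableEq b] {p : a → Bool} {p' : b → Bool} {X : Matrix a b α} (h : EvenM p p' X) :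
    SM α p * X = X * SM α p' := by
  ext i j
  rw [SM, SM, diagonal_mul, mul_diagonal]
  by_cases e : p i = p' j
  · rw [e, Int.cast_comm]
  · rw [h i j e, mul_zero, zero_mul]

theorem oddM_sm_comm {a b α : Type} [Ring α] [Fintype a] [DecidableEq a] [Fintype b]
    [DecidableEq b] {p : a → Bool} {p' : b → Bool} {X : Matrix a b α} (h : OddM p p' X) :
    SM α p * X = -(X * SM α p') := by
  ext i j
  rw [SM, SM, diagonal_mul, Matrix.neg_apply, mul_diagonal]
  by_cases e : p i = p' j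
  · rw [h i j e, mul_zero, zero_mul, neg_zero]
  · revert e
    cases p i <;> cases p' j <;> simp [sg]

theorem sm_mul_sm {a α : Type} [Ring α] [Fintype a] [DecidableEq a] (p : a → Bool) :
    SM α p * SM α p = 1 := by
  rw [SM, diagonal_mul_diagonal, ← diagonal_one]
  congr 1
  funext i
  cases p i <;> simp [sg]

/-! ### Normal forms -/

section Dl

variable {β ι L L' : Type} [DecidableEq β] [CommRing L] [CommRing L'] (u : Lˣ) (γ : L) (a : β → ℤ)

theorem dl_map (φ : L →+* L') {u : Lˣ} {u' : L'ˣ} (h : φ u = u') (γ : L) (a : β → ℤ) :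
    (dl u γ a).map φ = dl u' (φ γ) a := by
  ext i j
  simp only [Matrix.map_apply, dl]
  split_ifs <;> simp only [map_zpow_val φ h, map_mul, map_zero]

theorem hd_map (φ : L →+* L') {u : Lˣ} {u' : L'ˣ} (h : φ u = u') (a : β → ℤ) :
    (hd u a).map φ = hd u' a := by
  ext i j
  simp only [Matrix.map_apply, hd]
  split_ifs <;> simp only [map_zpow_val φ h, map_zero]

theorem dg_map (φ : L →+* L') {u : Lˣ} {u' : L'ˣ} (h : φ u = u') (a : β → ℤ) :
    (dg u a).map φ = dg u' a := by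
  ext i j
  simp only [Matrix.map_apply, dg, diagonal_apply]
  split_ifs <;> simp only [map_zpow_val φ h, map_zero]

theorem dl_odd (pb : β → Bool) : OddM (bpar pb) (bpar pb) (dl u γ a) := by
  rintro ⟨i, s⟩ ⟨j, t⟩ h
  simp only [dl]
  split_ifs with h1 h2 h3
  · subst h1
    obtain ⟨rfl, rfl⟩ := h2
    simp [bpar] at h
  · subst h1
    obtain ⟨rfl, rfl⟩ := h3
    simp [bpar] at h
  · rfl
  · rfl

theorem hd_odd (pb : β → Bool) : OddM (bpar pb) (bpar pb) (hd u a) := by
  rintro ⟨i, s⟩ ⟨j, t⟩ h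
  simp only [hd]
  split_ifs with h1
  · obtain ⟨rfl, rfl, rfl⟩ := h1
    simp [bpar] at h
  · rfl

theorem dg_even (p : β → Bool) : EvenM p p (dg u a) := EvenM.diagonal p _

theorem dl_transpose :
    (dl u γ a)ᵀ = (dl u γ a).submatrix (fun x => (x.1, !x.2)) fun x => (x.1, !x.2) := by
  ext ⟨i, s⟩ ⟨j, t⟩
  simp only [transpose_apply, submatrix_apply, dl]
  by_cases e : i = j
  · subst e
    cases s <;> cases t <;> simp
  · simp [e, Ne.symm e]

theorem dg_zero : dg u (0 : β → ℤ) = 1 := by simp [dg]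

variable [Fintype β]

theorem dg_mul (a a' : β → ℤ) : dg u a * dg u a' = dg u (a + a') := by
  rw [dg, dg, dg, diagonal_mul_diagonal]
  simp only [Pi.add_apply, zpow_val_add]

theorem dg_mul_neg (a : β → ℤ) : dg u a * dg u (-a) = 1 := by
  rw [dg_mul, add_neg_cancel, dg_zero]

theorem dg_neg_mul (a : β → ℤ) : dg u (-a) * dg u a = 1 := by
  rw [dg_mul, neg_add_cancel, dg_zero]

theorem mul_dl_false (X : Matrix ι (β × Bool) L) (i : ι) (b : β) :
    (X * dl u γ a) i (b, false) = X i (b, true) * ((u ^ a b : Lˣ) : L) := by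
  rw [Matrix.mul_apply, Finset.sum_eq_single (b, true)]
  · simp [dl]
  · rintro ⟨c, t⟩ - h
    by_cases e : c = b
    · subst e
      cases t
      · simp [dl]
      · exact absurd rfl h
    · simp [dl, e]
  · simp

theorem mul_dl_true (X : Matrix ι (β × Bool) L) (i : ι) (b : β) :
    (X * dl u γ a) i (b, true) = X i (b, false) * (γ * ((u ^ (-a b) : Lˣ) : L)) := by
  rw [Matrix.mul_apply, Finset.sum_eq_single (b, false)]
  · simp [dl]
  · rintro ⟨c, t⟩ - h
    by_cases e : c = b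
    · subst e
      cases t
      · exact absurd rfl h
      · simp [dl]
    · simp [dl, e]
  · simp

theorem dl_mul_true (X : Matrix (β × Bool) ι L) (b : β) (j : ι) :
    (dl u γ a * X) (b, true) j = ((u ^ a b : Lˣ) : L) * X (b, false) j := by
  rw [Matrix.mul_apply, Finset.sum_eq_single (b, false)]
  · simp [dl]
  · rintro ⟨c, t⟩ - h
    by_cases e : b = c
    · subst e
      cases t
      · exact absurd rfl h
      · simp [dl]
    · simp [dl, e]
  · simp

theorem dl_mul_false (X : Matrix (β × Bool) ι L) (b : β) (j : ι) :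
    (dl u γ a * X) (b, false) j = γ * ((u ^ (-a b) : Lˣ) : L) * X (b, true) j := by
  rw [Matrix.mul_apply, Finset.sum_eq_single (b, true)]
  · simp [dl]
  · rintro ⟨c, t⟩ - h
    by_cases e : b = c
    · subst e
      cases t
      · simp [dl]
      · exact absurd rfl h
    · simp [dl, e]
  · simp

theorem hd_mul_true (X : Matrix (β × Bool) ι L) (b : β) (j : ι) :
    (hd u a * X) (b, true) j = 0 := by
  rw [Matrix.mul_apply]
  exact Finset.sum_eq_zero fun k _ => by simp [hd]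

theorem hd_mul_false (X : Matrix (β × Bool) ι L) (b : β) (j : ι) :
    (hd u a * X) (b, false) j = ((u ^ (-a b) : Lˣ) : L) * X (b, true) j := by
  rw [Matrix.mul_apply, Finset.sum_eq_single (b, true)]
  · simp [hd]
  · rintro ⟨c, t⟩ - h
    by_cases e : b = c
    · subst e
      cases t
      · simp [hd]
      · exact absurd rfl h
    · simp [hd, e]
  · simp

theorem dl_sq : dl u γ a * dl u γ a = γ • (1 : Matrix (β × Bool) (β × Bool) L) := by
  ext ⟨i, s⟩ ⟨j, t⟩
  have h1 := zpow_val_neg u (a i)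
  cases s
  · rw [dl_mul_false]
    by_cases e : i = j
    · subst e
      cases t
      · simp only [dl, if_true, and_self, Matrix.smul_apply, one_apply_eq, smul_eq_mul]
        linear_combination γ * h1
      · simp [dl]
    · simp [dl, e]
  · rw [dl_mul_true]
    by_cases e : i = j
    · subst e
      cases t
      · simp [dl]
      · simp only [dl, if_true, and_self, Matrix.smul_apply, one_apply_eq, smul_eq_mul,
          Bool.false_eq_true, Bool.true_eq_false, if_false]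
        linear_combination γ * h1
    · simp [dl, e]

theorem hd_sq : hd u a * hd u a = 0 := by
  ext ⟨i, s⟩ j
  cases s
  · rw [hd_mul_false]
    simp [hd]
  · rw [hd_mul_true]
    rfl

theorem dl_hd : dl u γ a * hd u a + hd u a * dl u γ a = 1 := by
  ext ⟨i, s⟩ ⟨j, t⟩
  have h1 := zpow_val_neg u (a i)
  rw [Matrix.add_apply]
  cases s
  · rw [dl_mul_false, hd_mul_false]
    by_cases e : i = j
    · subst e
      cases t
      · simp only [dl, hd, if_true, and_self, one_apply_eq, Bool.false_eq_true,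
          Bool.true_eq_false, and_false, if_false]
        linear_combination h1
      · simp [dl, hd]
    · simp [dl, hd, e]
  · rw [dl_mul_true, hd_mul_true]
    by_cases e : i = j
    · subst e
      cases t
      · simp [hd]
      · simp only [hd, if_true, and_self, one_apply_eq]
        linear_combination h1
    · simp [hd, e]

end Dl

/-! ### Pairs -/

namespace PairD

variable {K L K' L' : Type} [CommRing K] [CommRing L] [CommRing K'] [CommRing L'] {q : ℕ}
  (P : PairD K L q)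

theorem u_zpow (a : ℤ) : ((P.u ^ a : (K × L)ˣ) : K × L) =
    (((P.ϖ ^ a : Kˣ) : K), ((P.π ^ a : Lˣ) : L)) := by
  refine Prod.ext ?_ ?_
  · exact map_zpow_val (RingHom.fst K L) (u := P.u) (u' := P.ϖ) rfl a
  · exact map_zpow_val (RingHom.snd K L) (u := P.u) (u' := P.π) rfl a

theorem u_memΓ : ((P.u : (K × L)ˣ) : K × L) ∈ P.Γ := P.u_mem

theorem ϖ_mem : (P.ϖ : K) ∈ P.S := P.fst_mem _ P.u_mem

theorem π_mem : (P.π : L) ∈ P.Bp := P.snd_mem _ P.u_mem

variable {P}

theorem mem_T {a : ℤ} {y : K} {y' : L} : (y, y') ∈ P.T a ↔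
    (((P.ϖ ^ (-a) : Kˣ) : K) * y, ((P.π ^ (-a) : Lˣ) : L) * y') ∈ P.Γ := by
  rw [T, mem_fil, u_zpow]
  rfl

theorem T_zero {y : K} {y' : L} : (y, y') ∈ P.T 0 ↔ (y, y') ∈ P.Γ := fil_zero

theorem T_fst {a : ℤ} {y : K} {y' : L} (h : (y, y') ∈ P.T a) : y ∈ fil P.ϖ P.S a :=
  P.fst_mem _ (mem_T.1 h)

theorem T_snd {a : ℤ} {y : K} {y' : L} (h : (y, y') ∈ P.T a) : y' ∈ fil P.π P.Bp a :=
  P.snd_mem _ (mem_T.1 h)

theorem T_mul {a b : ℤ} {x y : K} {x' y' : L} (hx : (x, x') ∈ P.T a) (hy : (y, y') ∈ P.T b) :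
    (x * y, x' * y') ∈ P.T (a + b) := fil_mul hx hy

theorem T_add {a : ℤ} {x y : K} {x' y' : L} (hx : (x, x') ∈ P.T a) (hy : (y, y') ∈ P.T a) :
    (x + y, x' + y') ∈ P.T a := (P.T a).add_mem hx hy

theorem T_sub {a : ℤ} {x y : K} {x' y' : L} (hx : (x, x') ∈ P.T a) (hy : (y, y') ∈ P.T a) :
    (x - y, x' - y') ∈ P.T a := (P.T a).sub_mem hx hy

theorem T_neg {a : ℤ} {x : K} {x' : L} (hx : (x, x') ∈ P.T a) : (-x, -x') ∈ P.T a :=
  (P.T a).neg_mem hx

theorem T_anti {a b : ℤ} {z : K × L} (h : z ∈ P.T b) (hab : a ≤ b) : z ∈ P.T a :=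
  fil_anti P.u_memΓ hab h

theorem T_zpow (P : PairD K L q) (a : ℤ) :
    (((P.ϖ ^ a : Kˣ) : K), ((P.π ^ a : Lˣ) : L)) ∈ P.T a := by
  rw [← u_zpow]
  exact zpow_mem_fil _ _ _

theorem T_one (P : PairD K L q) : ((1 : K), (1 : L)) ∈ P.T 0 := one_mem_fil _ _

theorem T_int (P : PairD K L q) (n : ℤ) : ((n : K), (n : L)) ∈ P.T 0 := intCast_mem_fil _ _ n

theorem T_kerR {a : ℤ} {y : L} (h : ((0 : K), y) ∈ P.T a) : y ∈ fil P.π P.Bp (q + a) := by
  rw [mem_T, mul_zero] at h
  have := P.kerR _ h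
  rw [← fil_shift (b := -a)]
  exact fil_of_eq this (by ring)

theorem T_kerL {a : ℤ} {y : K} : (y, (0 : L)) ∈ P.T a ↔ y ∈ fil P.ϖ P.S (q + a) := by
  rw [mem_T, mul_zero, P.kerL, ← fil_shift (b := -a) (a := q + a)]
  have : -a + (q + a) = q := by ring
  rw [this]

theorem T_uniq {a : ℤ} {y : K} {x x' : L} (h : (y, x) ∈ P.T a) (h' : (y, x') ∈ P.T a) :
    x - x' ∈ fil P.π P.Bp (q + a) := by
  have := T_sub h h'
  rw [sub_self] at this
  exact T_kerR this

theorem T_surj {a : ℤ} {y' : L} (h : y' ∈ fil P.π P.Bp a) : ∃ y, (y, y') ∈ P.T a := by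
  obtain ⟨y, hy⟩ := P.surj _ h
  refine ⟨((P.ϖ ^ a : Kˣ) : K) * y, mem_T.2 ?_⟩
  rwa [← mul_assoc, zpow_val_neg', one_mul]

namespace TM

variable {ι ι' ι'' ι''' : Type} {a b : ℤ} {X X' : Matrix ι ι' K} {Y Y' : Matrix ι ι' L}

theorem fst (h : P.TM a X Y) : MemM (fil P.ϖ P.S a) X := fun i j => T_fst (h i j)

theorem snd (h : P.TM a X Y) : MemM (fil P.π P.Bp a) Y := fun i j => T_snd (h i j)

theorem zero (P : PairD K L q) (a : ℤ) : P.TM a (0 : Matrix ι ι' K) 0 :=
  fun _ _ => (P.T a).zero_mem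

theorem add (h : P.TM a X Y) (h' : P.TM a X' Y') : P.TM a (X + X') (Y + Y') :=
  fun i j => T_add (h i j) (h' i j)

theorem sub (h : P.TM a X Y) (h' : P.TM a X' Y') : P.TM a (X - X') (Y - Y') :=
  fun i j => T_sub (h i j) (h' i j)

theorem neg (h : P.TM a X Y) : P.TM a (-X) (-Y) := fun i j => T_neg (h i j)

theorem anti (h : P.TM b X Y) (hab : a ≤ b) : P.TM a X Y := fun i j => T_anti (h i j) hab

theorem lvl (h : P.TM b X Y) (hab : b = a) : P.TM a X Y := hab ▸ h

theorem transpose (h : P.TM a X Y) : P.TM a Xᵀ Yᵀ := fun i j => h j i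

theorem submatrix (h : P.TM a X Y) (e : ι'' → ι) (f : ι''' → ι') :
    P.TM a (X.submatrix e f) (Y.submatrix e f) := fun i j => h (e i) (f j)

theorem mul [Fintype ι'] {Z : Matrix ι' ι'' K} {W : Matrix ι' ι'' L} (h : P.TM a X Y)
    (h' : P.TM b Z W) : P.TM (a + b) (X * Z) (Y * W) := fun i j => by
  rw [Matrix.mul_apply, Matrix.mul_apply, prod_mk_sum]
  exact AddSubgroup.sum_mem _ fun k _ => T_mul (h i k) (h' k j)

theorem smul {y : K} {y' : L} (hy : (y, y') ∈ P.T a) (h : P.TM b X Y) :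
    P.TM (a + b) (y • X) (y' • Y) := fun i j => T_mul hy (h i j)

theorem kron {Z : Matrix ι'' ι''' K} {W : Matrix ι'' ι''' L} (h : P.TM a X Y) (h' : P.TM b Z W) :
    P.TM (a + b) (X ⊗ₖ Z) (Y ⊗ₖ W) := fun i j => T_mul (h i.1 j.1) (h' i.2 j.2)

theorem diagonal [DecidableEq ι] {v : ι → K} {v' : ι → L} (h : ∀ i, (v i, v' i) ∈ P.T a) :
    P.TM a (Matrix.diagonal v) (Matrix.diagonal v') := fun i j => by
  rw [diagonal_apply, diagonal_apply]
  split_ifs
  exacts [h i, (P.T a).zero_mem]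

theorem one [DecidableEq ι] (P : PairD K L q) : P.TM 0 (1 : Matrix ι ι K) 1 :=
  diagonal fun _ => P.T_one

theorem sm [DecidableEq ι] (P : PairD K L q) (p : ι → Bool) : P.TM 0 (SM K p) (SM L p) :=
  diagonal fun _ => P.T_int _

theorem dg [DecidableEq ι] (P : PairD K L q) {w : ι → ℤ} (hw : ∀ i, a ≤ w i) :
    P.TM a (XL.dg P.ϖ w) (XL.dg P.π w) := diagonal fun i => T_anti (P.T_zpow _) (hw i)

theorem fromBlocks {X₁ : Matrix ι ι'' K} {X₂ : Matrix ι ι''' K} {X₃ : Matrix ι' ι'' K}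
    {X₄ : Matrix ι' ι''' K} {Y₁ : Matrix ι ι'' L} {Y₂ : Matrix ι ι''' L} {Y₃ : Matrix ι' ι'' L}
    {Y₄ : Matrix ι' ι''' L} (h₁ : P.TM a X₁ Y₁) (h₂ : P.TM a X₂ Y₂) (h₃ : P.TM a X₃ Y₃)
    (h₄ : P.TM a X₄ Y₄) :
    P.TM a (Matrix.fromBlocks X₁ X₂ X₃ X₄) (Matrix.fromBlocks Y₁ Y₂ Y₃ Y₄) := by
  rintro (i | i) (j | j)
  exacts [h₁ i j, h₂ i j, h₃ i j, h₄ i j]

/-- Two approximations of the same matrix are close. -/
theorem uniq (h : P.TM a X Y) (h' : P.TM a X Y') : MemM (fil P.π P.Bp (q + a)) (Y - Y') :=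
  fun i j => T_uniq (h i j) (h' i j)

theorem kerL : P.TM a X (0 : Matrix ι ι' L) ↔ MemM (fil P.ϖ P.S (q + a)) X :=
  forall_congr' fun _ => forall_congr' fun _ => T_kerL

end TM

namespace Hom

variable {P' : PairD K' L' q} (f : P.Hom P')

theorem T {a : ℤ} {y : K} {y' : L} (h : (y, y') ∈ P.T a) : (f.φ y, f.ψ y') ∈ P'.T a := by
  have := f.mapΓ _ (mem_T.1 h)
  rw [mem_T]
  simpa only [map_mul, map_zpow_val f.φ f.φϖ, map_zpow_val f.ψ f.ψπ] using this

theorem TM {ι ι' : Type} {a : ℤ} {X : Matrix ι ι' K} {Y : Matrix ι ι' L} (h : P.TM a X Y) :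
    P'.TM a (X.map f.φ) (Y.map f.ψ) := fun i j => f.T (h i j)

theorem Dec {C e : ℕ} {y : K} {y' : L} (h : P.Dec C y y' e) : P'.Dec C (f.φ y) (f.ψ y') e := by
  refine ⟨h.1, f.T h.2.1, fun he => ?_⟩
  obtain ⟨z, z', h1, h2, h3⟩ := h.2.2 he
  exact ⟨f.φ z, f.ψ z', by rw [← map_mul, h1, map_one], by rw [← map_mul, h2, map_one], f.T h3⟩

theorem mapBp {y : L} (h : y ∈ P.Bp) : f.ψ y ∈ P'.Bp := by
  obtain ⟨x, hx⟩ := P.surj y h
  exact P'.snd_mem _ (f.mapΓ _ hx)

end Hom

theorem Dec.neg {C e : ℕ} {y : K} {y' : L} (h : P.Dec C y y' e) : P.Dec C (-y) (-y') e := by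
  refine ⟨h.1, T_neg h.2.1, fun he => ?_⟩
  obtain ⟨z, z', h1, h2, h3⟩ := h.2.2 he
  exact ⟨-z, -z', by rw [neg_mul_neg, h1], by rw [neg_mul_neg, h2], T_neg h3⟩

theorem Dec.zero (P : PairD K L q) (C : ℕ) : P.Dec C 0 0 C :=
  ⟨le_rfl, (P.T C).zero_mem, fun h => absurd h (lt_irrefl _)⟩

/-- A matrix congruent to the identity is invertible on the left side of a pair. -/
theorem inv_one_add (P : PairD K L q) {ι : Type} [Fintype ι] [DecidableEq ι] {a : ℤ} (ha : 1 ≤ a)
    {w : Matrix ι ι K} (hw : MemM (fil P.ϖ P.S a) w) :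
    ∃ k : Matrix ι ι K, (1 + w) * k = 1 ∧ k * (1 + w) = 1 ∧ MemM (fil P.ϖ P.S a) (k - 1) := by
  have h1 := hw.anti P.ϖ_mem ha
  let w₀ : Matrix ι ι P.S := fun i j => ⟨_, h1 i j⟩
  let t : P.S := ⟨P.ϖ, P.ϖ_mem⟩
  have hw₀ : (1 + t • w₀).map P.S.subtype = 1 + w := by
    ext i j
    have := zpow_val_neg P.ϖ 1
    rw [zpow_one] at this
    rw [Matrix.map_apply, Matrix.add_apply, Matrix.add_apply, map_add]
    congr 1
    · rw [Matrix.one_apply, Matrix.one_apply]
      split_ifs <;> simp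
    · change (P.ϖ : K) * (((P.ϖ ^ (-1 : ℤ) : Kˣ) : K) * w i j) = w i j
      rw [← mul_assoc, this, one_mul]
  have hdet : ∃ y : P.S, (1 + t • w₀).det = 1 + t * y := by
    have h := Matrix.det_one_add_smul t w₀
    exact ⟨_, by rw [h, add_assoc, sq, mul_comm _ t, ← mul_assoc, mul_comm _ t, ← mul_add]⟩
  obtain ⟨y, hy⟩ := hdet
  obtain ⟨z, hz, hyz⟩ := P.jac y y.2
  have hu : (1 + t • w₀).det * ⟨z, hz⟩ = 1 := by
    rw [hy]
    exact Subtype.ext hyz
  let k₀ : Matrix ι ι P.S := (⟨z, hz⟩ : P.S) • (1 + t • w₀).adjugate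
  have e1 : (1 + t • w₀) * k₀ = 1 := by
    rw [Matrix.mul_smul, mul_adjugate, smul_smul, mul_comm, hu, one_smul]
  have e2 : (1 + w) * k₀.map P.S.subtype = 1 := by
    rw [← hw₀, ← Matrix.map_mul, e1, Matrix.map_one _ (map_zero _) (map_one _)]
  have hk : MemM (fil P.ϖ P.S 0) (k₀.map P.S.subtype) := fun i j => fil_zero.2 (k₀ i j).2
  refine ⟨k₀.map P.S.subtype, e2, mul_eq_one_comm.1 e2, ?_⟩
  have : k₀.map P.S.subtype - 1 = -(w * k₀.map P.S.subtype) := by
    rw [add_mul, one_mul] at e2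
    rw [← e2]
    abel
  rw [this]
  exact ((hw.mul hk).lvl (add_zero a)).neg

end PairD

/-! ### Bounded rings -/

namespace Bdd

variable {A : Type} [CommRing A] (B : Bdd A) {ι : Type} [Fintype ι] [DecidableEq ι]

/-- The geometric series. -/
theorem inv_one_sub {a : ℤ} (ha : 1 ≤ a) {w : Matrix ι ι A} (hw : MemM (fil B.π B.Ap a) w) :
    ∃ k : Matrix ι ι A, (1 - w) * k = 1 ∧ k * (1 - w) = 1 ∧ MemM (fil B.π B.Ap a) (k - 1) ∧
      ∀ y, y * w = w * y → y * k = k * y := by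
  obtain ⟨ev, hX, hm, hc⟩ := B.cat ι w (hw.anti B.π_mem ha)
  have e1 : (1 - w) * ev (PowerSeries.mk 1) = 1 := by
    rw [← hX, ← map_one ev, ← map_sub, ← map_mul, mul_comm, PowerSeries.mk_one_mul_one_sub_eq_one]
  refine ⟨ev (PowerSeries.mk 1), e1, mul_eq_one_comm.1 e1, ?_, hc _⟩
  have : ev (PowerSeries.mk 1) - 1 = w * ev (PowerSeries.mk 1) := by
    rw [sub_mul, one_mul] at e1
    rw [← e1]
    abel
  rw [this]
  exact (hw.mul (hm _)).lvl (add_zero a)

/-- A matrix close to the identity has an inverse close to the identity, of the same parity. -/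
theorem inv_near {a : ℤ} (ha : 1 ≤ a) {Z : Matrix ι ι A} (hZ : MemM (fil B.π B.Ap a) (Z - 1)) :
    ∃ k : Matrix ι ι A, Z * k = 1 ∧ k * Z = 1 ∧ MemM (fil B.π B.Ap a) (k - 1) ∧
      ∀ p : ι → Bool, EvenM p p Z → EvenM p p k := by
  obtain ⟨k, h1, h2, h3, h4⟩ := B.inv_one_sub ha hZ.neg
  have e : 1 - -(Z - 1) = Z := by abel
  rw [e] at h1 h2
  refine ⟨k, h1, h2, h3, fun p hp => ?_⟩
  exact (evenM_iff_comm p k).2 (h4 _ ((evenM_iff_comm p _).1 (hp.sub (EvenM.one p)).neg))

/-- A small idempotent vanishes. -/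
theorem idem_eq_zero {a : ℤ} (ha : 1 ≤ a) {w : Matrix ι ι A} (hw : MemM (fil B.π B.Ap a) w)
    (h : w * w = w) : w = 0 := by
  obtain ⟨k, h1, -, -, -⟩ := B.inv_one_sub ha hw
  calc w = w * ((1 - w) * k) := by rw [h1, mul_one]
    _ = 0 := by rw [← mul_assoc, mul_sub, mul_one, h, sub_self, zero_mul]

end Bdd

theorem Cst.mem {K L A : Type} [CommRing K] [CommRing L] [CommRing A] {q : ℕ} {P : PairD K L q}
    {B : Bdd A} {c : L →+* A} (h : Cst P B c) {ι ι' : Type} {a : ℤ} {X : Matrix ι ι' L}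
    (hX : MemM (fil P.π P.Bp a) X) : MemM (fil B.π B.Ap a) (X.map c) :=
  hX.map c h.cπ h.cB

end Pool.Agent.P.MP_f43029_ag.XL
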