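import Pool.Agent.P.MP_f43029_ag.XL.AK
import Pool.Agent.P.MP_f43029_ag.XL.AApi
import Pool.Agent.P.MP_f43029_ag.XL.LApi

/-!
Homotopy parameters.
-/

set_option autoImplicit false
set_option linter.unusedSectionVars false

noncomputable section

namespace Pool.Agent.P.MP_f43029_ag.XL

open Matrix Pool.Agent.Theta Filter

namespace Amb

variable {n : ℕ} {K F : Type} [Field K] [Field F] [CharZero K] [CharZero F] [Algebra K F]
  {𝔸 : Amb n K F} {J : Type}

namespace Sys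

variable [DecidableEq J] [Fintype J]

theorem evA_evA {𝔅 : 𝔸.Sys J} (j : J) (b b' : Bool) (h : 𝔅.upd j b ≤ 𝔅) (h' : 𝔅.upd j b' ≤ 𝔅)
    (y : 𝔅.A) : evA j b h (evA j b' h' y) = evA j b' h' y := by
  induction y using indA
  rw [evA_cl, evA_cl]
  exact clA_congr fun _ => by rw [rC_fj, fj, Function.update_idem, fj]

theorem evA_X {𝔅 𝔅' : 𝔸.Sys J} (j : J) (b : Bool) (h : 𝔅.upd j b ≤ 𝔅') :
    evA j b h (𝔅.pA (MvPolynomial.X j)) = if b then 1 else 0 := by
  rw [evA_pA, rC_X]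
  cases b <;> simp [rv, fj]

/-- A free coordinate is a homotopy parameter. -/
def hot (𝔅 : 𝔸.Sys J) (j : J) (h : 𝔅.Free j) : 𝔅.dg.Hot where
  x := 𝔅.pA (MvPolynomial.X j)
  r b := evH j b (h.upd_le b)
  r_false := evA_X j false (h.upd_le _)
  r_true := evA_X j true (h.upd_le _)
  r_r b := evA_evA j b false (h.upd_le _) (h.upd_le _)
  ex b := AKn.ex_free j h b _

/-- A matrix close to the identity is joined to the identity. -/
theorem unip_of_small (𝔅 : 𝔸.Sys J) (j : J) (h : 𝔅.Free j) {ι : Type} [Fintype ι] [DecidableEq ι]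
    {p : ι → Bool} {Z : Matrix ι ι 𝔅.A} (he : EvenM p p Z)
    (hZ : MemM (fil 𝔅.bdd.π 𝔅.bdd.Ap 1) (Z - 1)) : IsUnit Z ∧ (𝔅.hot j h).Unip p Z := by
  obtain ⟨k, k1, k2, -⟩ := 𝔅.bdd.inv_near le_rfl hZ
  have hY : MemM (fil 𝔅.bdd.π 𝔅.bdd.Ap 1) (1 + 𝔅.pA (MvPolynomial.X j) •
      (Z - 1).map (evA j false (h.upd_le false)) - 1) := fun a b => by
    rw [add_sub_cancel_left]
    have := fil_mul (fil_zero.2 (𝔅.pA_Ap (MvPolynomial.X j)))
      (fil_map (evA j false (h.upd_le false)) (evA_π j false _) (fun _ => evA_Ap j false _) (hZ a b))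
    rwa [zero_add] at this
  obtain ⟨k', k3, -⟩ := 𝔅.bdd.inv_near le_rfl hY
  refine ⟨⟨⟨Z, k, k1, k2⟩, rfl⟩, _, k', (EvenM.one p).add
    (((he.sub (EvenM.one p)).map (map_zero _)).smul _), k3, ?_, ?_⟩
  · refine Matrix.ext fun a b => ?_
    change evA j false (h.upd_le _) ((1 : Matrix ι ι 𝔅.A) a b + 𝔅.pA (MvPolynomial.X j) *
      evA j false (h.upd_le _) (Z a b - (1 : Matrix ι ι 𝔅.A) a b)) = _
    rw [map_add, map_mul, evA_X, Matrix.one_apply]
    split_ifs <;> simp_all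
  · refine Matrix.ext fun a b => ?_
    change evA j true (h.upd_le _) ((1 : Matrix ι ι 𝔅.A) a b + 𝔅.pA (MvPolynomial.X j) *
      evA j false (h.upd_le _) (Z a b - (1 : Matrix ι ι 𝔅.A) a b)) = evA j false (h.upd_le _) (Z a b)
    rw [map_add, map_mul, evA_X, evA_evA, map_sub, Matrix.one_apply]
    split_ifs <;> simp_all

end Sys

end Amb

end Pool.Agent.P.MP_f43029_ag.XL
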