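import Pool.Agent.P.MP_f43029_ag.XL.Asym

/-!
Integration along a cube coordinate.
-/

set_option autoImplicit false
set_option linter.unusedSectionVars false

noncomputable section

namespace Pool.Agent.P.MP_f43029_ag.XL

open Pool.Agent.Theta MvPolynomial

namespace AKn

section Con

variable {ι C : Type} [Fintype ι] [DecidableEq ι] [CommRing C]

/-- The contraction with a generator. -/
def con (j : ι) : Gr ι C →+ Gr ι C where
  toFun a := fun I => if j ∈ I then 0 else (Theta.sg {j} I : C) * a (insert j I)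
  map_zero' := by
    ext I
    simp
  map_add' a b := by
    ext I
    simp only [Gr.add_apply]
    split_ifs <;> simp [mul_add]

theorem con_apply (j : ι) (a : Gr ι C) (I : Finset ι) :
    con j a I = if j ∈ I then 0 else (Theta.sg {j} I : C) * a (insert j I) := rfl

omit [DecidableEq ι] in
theorem sg_sq (T U : Finset ι) (c : C) :
    (Theta.sg T U : C) * ((Theta.sg T U : C) * c) = c := by
  rw [← mul_assoc, ← Int.cast_mul, sg_mul_self, Int.cast_one, one_mul]

theorem ev_one (j : ι) (e : C →+* C) (a : Gr ι C) (I : Finset ι) :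
    Gr.ev {j} e a I = if j ∈ I then 0 else e (a I) := by
  rw [Gr.ev_apply]
  simp only [Finset.disjoint_singleton_right, ite_not]

theorem con_gen_self (j : ι) (a : Gr ι C) : con j (Gr.gen j * a) = Gr.ev {j} (RingHom.id C) a := by
  ext I
  rw [con_apply, ev_one, Gr.gen_mul]
  split_ifs with h h'
  · rfl
  · rw [Finset.erase_insert h, sg_sq, RingHom.id_apply]
  · exact absurd (Finset.mem_insert_self _ _) h'

theorem gen_con (j : ι) (a : Gr ι C) : Gr.gen j * con j a + Gr.ev {j} (RingHom.id C) a = a := by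
  ext I
  rw [Gr.add_apply, ev_one, Gr.gen_mul, con_apply]
  split_ifs with h h'
  · exact absurd h' (Finset.notMem_erase _ _)
  · rw [Finset.insert_erase h, sg_sq, add_zero]
  · simp

theorem con_ev (j : ι) (e : C →+* C) (a : Gr ι C) : con j (Gr.ev {j} e a) = 0 := by
  ext I
  simp [con_apply, ev_one]

theorem ev_con (j : ι) (a : Gr ι C) : Gr.ev {j} (RingHom.id C) (con j a) = con j a := by
  ext I
  rw [ev_one, con_apply]
  split_ifs <;> rfl

theorem ev_gen {i j : ι} (h : i ≠ j) : Gr.ev {j} (RingHom.id C) (Gr.gen i) = Gr.gen i := by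
  ext I
  rw [ev_one, Gr.gen, Gr.bas]
  split_ifs with h1 h2
  · subst h2
    exact absurd (Finset.mem_singleton.1 h1).symm h
  all_goals simp

theorem con_gen {i j : ι} (h : i ≠ j) (a : Gr ι C) : con j (Gr.gen i * a) = -(Gr.gen i * con j a) := by
  conv_lhs => rw [← gen_con j a, mul_add, map_add, ← mul_assoc, Gr.gen_mul_gen_comm, neg_mul,
    map_neg, mul_assoc, con_gen_self, map_mul, ev_con, ev_gen h]
  rw [add_eq_left, ← ev_gen h, ← map_mul, con_ev]

theorem cmap_con (j : ι) (e : C →+ C) (a : Gr ι C) : Gr.cmap e (con j a) = con j (Gr.cmap e a) := by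
  ext I
  simp only [Gr.cmap_apply, con_apply]
  split_ifs
  · exact map_zero _
  · rw [← zsmul_eq_mul, map_zsmul, zsmul_eq_mul]

theorem dd_con {δ : ι → C →+ C} (j : ι) (s : C →+ C) (r : C →+* C) (h1 : ∀ c, δ j (s c) = c)
    (h2 : ∀ c, s (δ j c) = c - r c) (h3 : ∀ i, i ≠ j → ∀ c, δ i (s c) = s (δ i c)) (a : Gr ι C) :
    Gr.dd δ (con j (Gr.cmap s a)) + con j (Gr.cmap s (Gr.dd δ a)) = a - Gr.ev {j} r a := by
  have hs : ∀ i (b : Gr ι C), Gr.cmap s (Gr.gen i * b) = Gr.gen i * Gr.cmap s b := fun i b => by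
    ext I
    simp only [Gr.cmap_apply, Gr.gen_mul]
    split_ifs
    · rw [← zsmul_eq_mul, map_zsmul, zsmul_eq_mul]
    · exact map_zero _
  simp only [Gr.dd_eq, map_sum, ← Finset.sum_add_distrib, hs, cmap_con]
  rw [Finset.sum_eq_single j]
  · have e1 : Gr.cmap (δ j) (Gr.cmap s a) = a := Gr.ext fun I => h1 _
    rw [e1, con_gen_self, eq_sub_iff_add_eq, add_assoc]
    conv_rhs => rw [← gen_con j a]
    congr 1
    ext I
    simp only [Gr.add_apply, ev_one, Gr.cmap_apply, h2]
    split_ifs <;> simp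
  · intro i _ hi
    have e1 : Gr.cmap (δ i) (Gr.cmap s a) = Gr.cmap s (Gr.cmap (δ i) a) := Gr.ext fun I => h3 i hi _
    rw [con_gen hi, e1, add_neg_cancel]
  · simp

end Con

section Poly

variable {J F : Type} [Field F] [CharZero F]

/-- The primitive in the variable `j` that vanishes at zero. -/
def itg (j : J) : MvPolynomial J F →ₗ[F] MvPolynomial J F :=
  (basisMonomials J F).constr F fun m => monomial (m + Finsupp.single j 1) ((m j + 1 : ℕ) : F)⁻¹

theorem itg_monomial (j : J) (m : J →₀ ℕ) (c : F) :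
    itg j (monomial m c) = monomial (m + Finsupp.single j 1) (((m j + 1 : ℕ) : F)⁻¹ * c) := by
  have : (monomial m c : MvPolynomial J F) = c • basisMonomials J F m := by
    simp [smul_monomial]
  rw [this, map_smul, itg, Module.Basis.constr_basis, smul_monomial, smul_eq_mul, mul_comm]

theorem add_ext {H : Type} [AddCommGroup H] {f g : MvPolynomial J F →+ H}
    (h : ∀ m c, f (monomial m c) = g (monomial m c)) (P : MvPolynomial J F) : f P = g P := by
  induction P using MvPolynomial.induction_on' with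
  | monomial m c => exact h m c
  | add p q hp hq => rw [map_add, map_add, hp, hq]

theorem pderiv_itg (j : J) (P : MvPolynomial J F) : pderiv j (itg j P) = P := by
  induction P using MvPolynomial.induction_on' with
  | monomial m c =>
    rw [itg_monomial, pderiv_monomial, add_tsub_cancel_right]
    congr 1
    have : ((m j + 1 : ℕ) : F) ≠ 0 := Nat.cast_ne_zero.2 (by omega)
    simp only [Finsupp.add_apply, Finsupp.single_eq_same]
    field_simp
  | add p q hp hq => rw [map_add, map_add, hp, hq]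

theorem pderiv_itg_ne {j k : J} (h : k ≠ j) (P : MvPolynomial J F) :
    pderiv k (itg j P) = itg j (pderiv k P) := by
  induction P using MvPolynomial.induction_on' with
  | monomial m c =>
    rw [itg_monomial, pderiv_monomial, pderiv_monomial, itg_monomial]
    have e : m + Finsupp.single j 1 - Finsupp.single k 1 =
        m - Finsupp.single k 1 + Finsupp.single j 1 := by
      ext l
      simp only [Finsupp.coe_tsub, Finsupp.coe_add, Pi.sub_apply, Pi.add_apply]
      by_cases hl : l = k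
      · subst hl
        simp [Finsupp.single_eq_of_ne h]
      · simp [Finsupp.single_eq_of_ne hl]
    rw [e]
    congr 1
    simp [Finsupp.single_eq_of_ne h, Finsupp.single_eq_of_ne h.symm, mul_assoc]
  | add p q hp hq => simp only [map_add, hp, hq]

theorem monomial_succ (j : J) (m : J →₀ ℕ) (c : F) :
    monomial (m + Finsupp.single j 1) c = monomial m c * X j := by
  rw [X, monomial_mul, mul_one]

variable [DecidableEq J]

theorem rC_itg_false {σ : Face J} {j : J} (h : σ j = some false) (P : MvPolynomial J F) :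
    rC F σ (itg j P) = 0 := by
  induction P using MvPolynomial.induction_on' with
  | monomial m c => simp [itg_monomial, monomial_succ, rv_false h]
  | add p q hp hq => simp only [map_add, hp, hq, add_zero]

theorem eq_of_pderiv {j : J} {P Q : MvPolynomial J F} (h : pderiv j P = pderiv j Q)
    (h0 : rC F (fj j false) P = rC F (fj j false) Q)
    (key : ∀ P : MvPolynomial J F, itg j (pderiv j P) = P - rC F (fj j false) P) : P = Q := by
  have := key P
  rw [h, key, h0] at this
  exact (sub_left_inj.1 this).symm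

theorem rC_free {j : J} (b : Bool) {m : J →₀ ℕ} (hm : m j = 0) (c : F) :
    rC F (fj j b) (monomial m c) = monomial m c := by
  rw [monomial_eq, map_mul, rC_C, Finsupp.prod, map_prod]
  congr 1
  refine Finset.prod_congr rfl fun k hk => ?_
  have : k ≠ j := fun e => by simp [e, hm] at hk
  simp [rv, fj, this]

theorem itg_pderiv (j : J) (P : MvPolynomial J F) :
    itg j (pderiv j P) = P - rC F (fj j false) P := by
  induction P using MvPolynomial.induction_on' with
  | monomial m c =>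
    rw [pderiv_monomial, itg_monomial]
    by_cases hm : m j = 0
    · simp [hm, rC_free false hm]
    · have e : m - Finsupp.single j 1 + Finsupp.single j 1 = m :=
        tsub_add_cancel_of_le (Finsupp.single_le_iff.2 (by omega))
      have e0 : rC F (fj j false) (monomial m c) = 0 := by
        rw [← e, monomial_succ, map_mul, rC_X]
        simp [fj, rv]
      have e1 : (m - Finsupp.single j 1 : J →₀ ℕ) j + 1 = m j := by
        simp only [Finsupp.coe_tsub, Pi.sub_apply, Finsupp.single_eq_same]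
        omega
      rw [e, e0, sub_zero, e1]
      congr 1
      have : ((m j : ℕ) : F) ≠ 0 := Nat.cast_ne_zero.2 hm
      field_simp
  | add p q hp hq =>
    simp only [map_add, hp, hq]
    ring

theorem rC_itg {σ : Face J} {j : J} (h : σ j = none) (P : MvPolynomial J F) :
    rC F σ (itg j P) = itg j (rC F σ P) := by
  refine eq_of_pderiv (j := j) ?_ ?_ (itg_pderiv j)
  · rw [pderiv_rC_of_none h, pderiv_itg, pderiv_itg]
  · rw [rC_rC, rC_itg_false (by simp [h, fj]), rC_itg_false (by simp [fj])]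

theorem itg_cd (j : J) {G G' : AddSubgroup F} {D : ℕ}
    (h : ∀ N : ℕ, N ≤ D + 1 → ∀ c ∈ G, (N : F)⁻¹ * c ∈ G') {P : MvPolynomial J F}
    (hP : P ∈ cd D G) : itg j P ∈ cd (D + 1) G' := by
  refine cd_ind (itg j).toAddMonoidHom _ hP fun m g hm hg => ?_
  change itg j (monomial m g) ∈ _
  rw [itg_monomial]
  refine monomial_mem_cd (by simpa using hm) (h _ ?_ _ hg)
  have h1 := Finsupp.le_degree j m
  omega

end Poly

variable {J F : Type} [Field F] [CharZero F] [Fintype J] [DecidableEq J] {n : ℕ}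

theorem rO_upd (σ : Face J) (j : J) (ω : Fm n J F) :
    rO σ (rO (Function.update σ j none) ω) = rO σ ω := by
  rw [rO_rO]
  congr 2
  funext k
  by_cases hk : k = j
  · subst hk
    simp
  · simp [hk]

theorem rO_fj_eq (j : J) (b : Bool) (ω : Fm n J F) :
    rO (fj j b) ω = Gr.ev {Sum.inr j} (rC F (fj j b)) ω := by
  rw [rO]
  congr 2
  ext k
  rcases k with k | k
  · simp
  · by_cases hk : k = j <;> simp [fj, hk]

theorem fj_fj (j : J) (b b' : Bool) (ω : Fm n J F) :
    rO (fj j b) (rO (fj j b') ω) = rO (fj j b') ω := by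
  rw [rO_fj, fj, Function.update_idem, fj]

/-- Integration of forms along the coordinate `j`. -/
def KJ (j : J) : Fm n J F →+ Fm n J F :=
  (con (Sum.inr j)).comp (Gr.cmap (itg j).toAddMonoidHom)

theorem KJ_apply (j : J) (ω : Fm n J F) (I : Finset (Fin n ⊕ J)) : KJ j ω I =
    if Sum.inr j ∈ I then 0 else Theta.sg {Sum.inr j} I • itg j (ω (insert (Sum.inr j) I)) := by
  rw [zsmul_eq_mul]
  rfl

theorem KJ_fj (j : J) (b : Bool) (ω : Fm n J F) : KJ j (rO (fj j b) ω) = 0 := by
  ext1 I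
  rw [KJ_apply, rO_fj_eq, ev_one]
  simp

theorem rO_KJ_false {σ : Face J} {j : J} (h : σ j = some false) (ω : Fm n J F) :
    rO σ (KJ j ω) = 0 := by
  ext1 I
  rw [rO_apply, KJ_apply]
  split_ifs <;> simp [rC_itg_false h]

theorem rO_KJ {σ : Face J} {j : J} (h : σ j = none) (ω : Fm n J F) :
    rO σ (KJ j ω) = KJ j (rO σ ω) := by
  ext1 I
  rw [rO_apply, KJ_apply, KJ_apply, rO_apply]
  have e : Disjoint (insert (Sum.inr j) I) (kl n σ) ↔ Disjoint I (kl n σ) := by
    simp [h]
  simp only [e]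
  split_ifs <;> simp [rC_itg h]

theorem KJ_cdO (j : J) {G G' : AddSubgroup F} {D : ℕ}
    (h : ∀ N : ℕ, N ≤ D + 1 → ∀ c ∈ G, (N : F)⁻¹ * c ∈ G') {ω : Fm n J F}
    (hω : ω ∈ cdO D G) : KJ j ω ∈ cdO (D + 1) G' := fun I => by
  rw [KJ_apply]
  split_ifs
  · exact zero_mem _
  · exact AddSubgroup.zsmul_mem _ (itg_cd j h (hω _)) _

variable {K : Type} [Field K] [CharZero K] [Algebra K F] (𝔸 : Amb n K F)

theorem δ_cmul (i : Fin n) (c : K) (y : F) :
    𝔸.δ i (algebraMap K F c * y) = algebraMap K F c * 𝔸.δ i y := by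
  rw [𝔸.der.leib, 𝔸.δ_c, zero_mul, zero_add]

theorem dF_KJ (j : J) (ω : Fm n J F) :
    𝔸.dF J (KJ j ω) + KJ j (𝔸.dF J ω) = ω - rO (fj j false) ω := by
  rw [rO_fj_eq]
  refine dd_con (δ := 𝔸.derC J) (Sum.inr j) (itg j).toAddMonoidHom _ (pderiv_itg j)
    (itg_pderiv j) ?_ ω
  rintro (i | k) hk P
  · refine add_ext (f := (mpa (𝔸.δ i)).comp (itg j).toAddMonoidHom)
      (g := (itg j).toAddMonoidHom.comp (mpa (𝔸.δ i))) (fun m c => ?_) P
    change mpa (𝔸.δ i) (itg j (monomial m c)) = itg j (mpa (𝔸.δ i) (monomial m c))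
    rw [itg_monomial, mpa_monomial, mpa_monomial, itg_monomial, ← map_natCast (algebraMap K F),
      ← map_inv₀, δ_cmul]
  · exact pderiv_itg_ne (fun e => hk (congrArg _ e)) P

theorem inv_mul_fil {B : Subring F} (hB : 𝔸.VF ≤ B) (D : ℕ) (a : ℤ) (N : ℕ) (hN : N ≤ D + 1) :
    ∀ c ∈ fil 𝔸.ϖ B a, (N : F)⁻¹ * c ∈ fil 𝔸.ϖ B (a - 𝔸.M * lg D) := by
  intro c hc
  have h3 := fil_mul (fil_mono _ hB _ (𝔸.inv_nat_mem N (Nat.log 2 D + 1)
    (hN.trans (Nat.lt_pow_succ_log_self one_lt_two D)))) hc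
  rwa [show -((𝔸.M * (Nat.log 2 D + 1) : ℕ) : ℤ) + a = a - 𝔸.M * lg D by
    simp only [lg]
    push_cast
    ring] at h3

variable {𝔸} {𝔅 𝔅' : 𝔸.Sys J}

theorem rO_KJ_mem {σ : Face J} {j : J} {D : ℕ} {a : ℤ} {ω : Fm n J F} (hω : ω ∈ 𝔅.fO.B D a) :
    rO σ (KJ j ω) ∈ cdO (D + 1) (𝔅.G (a - 𝔸.M * lg D) (Function.update σ j none)) := by
  rw [← rO_upd σ j, rO_KJ (by simp)]
  exact rO_cdO σ (KJ_cdO j (inv_mul_fil 𝔸 (𝔅.V_le _) D a) (hω _))

/-- The bound for the integration. -/
theorem KJ_mem (j : J) (h : ∀ σ, σ j ≠ some false → 𝔅.B (Function.update σ j none) ≤ 𝔅'.B σ)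
    {D : ℕ} {a : ℤ} {ω : Fm n J F} (hω : ω ∈ 𝔅.fO.B D a) :
    KJ j ω ∈ 𝔅'.fO.B (D + 1) (a - 𝔸.M * lg D) := fun σ => by
  by_cases hσ : σ j = some false
  · rw [rO_KJ_false hσ]
    exact zero_mem _
  · exact cdO_mono le_rfl (Amb.Sys.G_le (h σ hσ) _) (rO_KJ_mem hω)

theorem lvl (M k : ℕ) (D : ℕ) (a : ℤ) : a - ((M + k : ℕ) : ℤ) * lg D ≤ a - M * lg D := by
  have := lg_pos D
  push_cast
  nlinarith [Int.natCast_nonneg k]

theorem KJ_bd (j : J) (h : ∀ σ, σ j ≠ some false → 𝔅.B (Function.update σ j none) ≤ 𝔅'.B σ) :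
    𝔅.fO.Bd 𝔅'.fO.toAFil (KJ j) :=
  ⟨𝔸.M + 1, fun D a _ hx => 𝔅'.fO.mono (by omega) (lvl _ _ D a) (KJ_mem j h hx)⟩

/-- A closed form is cohomologous to its restriction to `t j = 0`. -/
theorem ex_false (j : J) (h : ∀ σ, σ j ≠ some false → 𝔅.B (Function.update σ j none) ≤ 𝔅.B σ)
    (h0 : 𝔅.upd j false ≤ 𝔅) (ω : 𝔅.Om) (hω : 𝔅.dg.d ω = 0) :
    𝔅.dg.Ex (ω - (Amb.Sys.evH j false h0).o ω) := by
  induction ω using Fil.ind with | h w hw
  refine ⟨𝔅.fO.cl _ ((KJ_bd j h).seq hw), Fil.cl_eq.2 (AFil.Seq.congr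
    (neg_mem ((KJ_bd j h).seq (Fil.cl_eq_zero.1 hω))) (Filter.Eventually.of_forall fun m => ?_))⟩
  change -KJ j (𝔸.dF J (w m)) = 𝔸.dF J (KJ j (w m)) - (w m - rO (fj j false) (w m))
  rw [← dF_KJ 𝔸]
  abel

/-- A closed form is cohomologous to its restrictions to the ends of a free coordinate. -/
theorem ex_free (j : J) (h : 𝔅.Free j) (b : Bool) (hb : 𝔅.upd j b ≤ 𝔅) (ω : 𝔅.Om)
    (hω : 𝔅.dg.d ω = 0) : 𝔅.dg.Ex (ω - (Amb.Sys.evH j b hb).o ω) := by
  have h0 : 𝔅.upd j false ≤ 𝔅 := fun σ => (h σ _).le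
  obtain ⟨η, hη⟩ := ex_false j (fun σ _ => (h σ _).le) h0 ω hω
  have e : (Amb.Sys.evH j b hb).o ((Amb.Sys.evH j false h0).o ω) = (Amb.Sys.evH j false h0).o ω := by
    induction ω using Fil.ind
    exact Fil.cl_congr' fun m => fj_fj j b false _
  cases b
  · exact ⟨η, hη⟩
  · refine ⟨η - (Amb.Sys.evH j true hb).o η, ?_⟩
    rw [map_sub, ← DG.Hom.o_d, hη, map_sub, e]
    abel

end AKn

end Pool.Agent.P.MP_f43029_ag.XL
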