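import Pool.Agent.P.MP_f43029_ag.XL.CWo

/-! The Koszul form for simplex coordinates. -/

set_option autoImplicit false
set_option linter.unusedSectionVars false

noncomputable section

namespace Pool.Agent.P.MP_f43029_ag

open Matrix

namespace XL

variable {A A' : Type} [CommRing A] [CommRing A']

/-- Simplex coordinates from cube coordinates. -/
def lc : ∀ n : ℕ, (Fin n → A) → Fin (n + 1) → A
  | 0, _ => fun _ => 1
  | n + 1, s => Fin.cons (1 - s 0) fun i => s 0 * lc n (fun j => s j.succ) i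

theorem lc_map (g : A →+* A') : ∀ (n : ℕ) (s : Fin n → A) (i : Fin (n + 1)),
    g (lc n s i) = lc n (fun j => g (s j)) i
  | 0, _, _ => map_one g
  | n + 1, s, i => by
    refine Fin.cases ?_ (fun i => ?_) i
    · simp [lc]
    · simp only [lc, Fin.cons_succ, map_mul, lc_map g n]

theorem sum_lc : ∀ (n : ℕ) (s : Fin n → A), ∑ i, lc n s i = 1
  | 0, _ => by simp [lc]
  | n + 1, s => by
    rw [Fin.sum_univ_succ]
    simp only [lc, Fin.cons_zero, Fin.cons_succ]
    rw [← Finset.mul_sum, sum_lc n, mul_one, sub_add_cancel]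

theorem lc_of_zero : ∀ (n : ℕ) (s : Fin n → A) (j : Fin n) (i : Fin (n + 1)), s j = 0 →
    j.castSucc < i → lc n s i = 0
  | n + 1, s, j, i, h, hi => by
    obtain ⟨i, rfl⟩ := Fin.exists_succ_eq.2 (Fin.pos_iff_ne_zero.1 (lt_of_le_of_lt (Fin.zero_le _) hi))
    simp only [lc, Fin.cons_succ]
    revert h hi
    refine Fin.cases (fun h _ => by rw [h, zero_mul]) (fun j h hi => ?_) j
    rw [lc_of_zero n _ j i h (by rwa [← Fin.succ_castSucc, Fin.succ_lt_succ_iff] at hi), mul_zero]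

theorem lc_of_one : ∀ (n : ℕ) (s : Fin n → A) (j : Fin n), s j = 1 → lc n s j.castSucc = 0
  | n + 1, s, j, h => by
    revert h
    refine Fin.cases (fun h => ?_) (fun j h => ?_) j
    · simp [lc, h]
    · rw [← Fin.succ_castSucc]
      simp only [lc, Fin.cons_succ]
      rw [lc_of_one n _ j h, mul_zero]

end XL

namespace CW

open XL

variable {A Ω : Type} [CommRing A] [Ring Ω] [Algebra A Ω] [SD Ω] [EvAlg A Ω]

/-- The product of the `α j * d (l j)`. -/
def pE {N : ℕ} (α : Fin N → Ω) (l : Fin N → A) : Ω := (List.ofFn fun j => α j * d0 Ω (l j)).prod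

/-- The sum over `i` of `b i` times the product of the other factors. -/
def pS {N : ℕ} (b α : Fin (N + 1) → Ω) (l : Fin (N + 1) → A) : Ω :=
  ∑ i, b i * pE (fun j => α (i.succAbove j)) fun j => l (i.succAbove j)

theorem pE_succ {N : ℕ} (α : Fin (N + 1) → Ω) (l : Fin (N + 1) → A) :
    pE α l = α 0 * d0 Ω (l 0) * pE (fun j => α j.succ) fun j => l j.succ := by
  rw [pE, List.ofFn_succ, List.prod_cons, pE]

theorem od_comm2 {a b c : Ω} (ha : Od a) (hb : inv b = -b) (hc : inv c = -c) :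
    a * (b * c) = b * c * a := ha.comm (by rw [map_mul, hb, hc, neg_mul_neg])

theorem pS_succ {N : ℕ} {b α : Fin (N + 2) → Ω} (hb : ∀ i, Od (b i)) (hα : ∀ i, Od (α i))
    (l : Fin (N + 2) → A) : pS b α l = b 0 * pE (fun j => α j.succ) (fun j => l j.succ) +
      α 0 * d0 Ω (l 0) * pS (fun j => b j.succ) (fun j => α j.succ) fun j => l j.succ := by
  rw [pS, Fin.sum_univ_succ, pS, Finset.mul_sum]
  congr 1
  refine Finset.sum_congr rfl fun i _ => ?_
  rw [pE_succ, ← mul_assoc, od_comm2 (hb _) (hα _).1 (inv_d0 _), mul_assoc]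
  simp only [Fin.succ_succAbove_zero, Fin.succ_succAbove_succ]

theorem ds_pE (s : A) : ∀ {N : ℕ} {α : Fin N → Ω}, (∀ i, Od (α i)) → ∀ l : Fin N → A,
    d0 Ω s * pE α (fun j => s * l j) = s ^ N • (d0 Ω s * pE α l)
  | 0, _, _, _ => by simp [pE]
  | N + 1, α, hα, l => by
    have w := od_d0 (Ω := Ω) s
    have e : d0 Ω s * (α 0 * d0 Ω (s * l 0)) = s • (α 0 * d0 Ω (l 0) * d0 Ω s) := by
      rw [od_comm2 w (hα 0).1 (inv_d0 _), d0_mul, mul_add, add_mul, mul_smul_comm, mul_smul_comm,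
        smul_mul_assoc, smul_mul_assoc, mul_assoc (α 0) (d0 Ω s), w.sq, mul_zero, smul_zero,
        zero_add]
    rw [pE_succ, pE_succ, ← mul_assoc, e, smul_mul_assoc, mul_assoc, ds_pE s fun i => hα i.succ,
      mul_smul_comm, smul_smul, ← pow_succ', ← mul_assoc (d0 Ω s),
      od_comm2 w (hα 0).1 (inv_d0 _), mul_assoc _ (d0 Ω s)]

theorem ds_pS (s : A) {N : ℕ} {b b' α : Fin (N + 1) → Ω} (hb : ∀ i, Od (b i))
    (hα : ∀ i, Od (α i)) (h : ∀ i, d0 Ω s * b' i = s • (d0 Ω s * b i)) (l : Fin (N + 1) → A) :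
    d0 Ω s * pS b' α (fun j => s * l j) = s ^ (N + 1) • (d0 Ω s * pS b α l) := by
  rw [pS, pS, Finset.mul_sum, Finset.mul_sum, Finset.smul_sum]
  refine Finset.sum_congr rfl fun i _ => ?_
  rw [← mul_assoc, ← mul_assoc, h, (od_d0 s).anti (hb i).1, smul_mul_assoc, neg_mul, neg_mul,
    mul_assoc, mul_assoc, ds_pE s fun j => hα _, mul_smul_comm, ← smul_neg, smul_smul, ← pow_succ']

theorem pE_scale (s : A) : ∀ {N : ℕ} {α : Fin (N + 1) → Ω}, (∀ i, Od (α i)) →
    ∀ l : Fin (N + 1) → A, pE α (fun j => s * l j) =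
      s ^ (N + 1) • pE α l - s ^ N • (d0 Ω s * pS (fun i => l i • α i) α l)
  | 0, α, hα, l => by
    simp only [pE, pS, List.ofFn_succ, List.ofFn_zero, List.prod_cons, List.prod_nil, mul_one,
      Fin.sum_univ_succ, Fin.sum_univ_zero, add_zero, zero_add, pow_one, pow_zero, one_smul]
    rw [d0_mul, mul_add, mul_smul_comm, mul_smul_comm, mul_smul_comm, (od_d0 s).anti (hα 0).1,
      smul_neg, sub_neg_eq_add, add_comm]
    rfl
  | N + 1, α, hα, l => by
    have w := od_d0 (Ω := Ω) s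
    have k := ds_pE s (fun i => hα i.succ) fun j => l j.succ
    rw [pE_succ, pE_succ α l, pS_succ (fun i => (hα i).smul _) hα, d0_mul, mul_add, add_mul,
      mul_smul_comm, smul_mul_assoc, mul_assoc (α 0) (d0 Ω s), k,
      pE_scale s (fun i => hα i.succ), mul_add (d0 Ω s), ← mul_assoc (d0 Ω s) (α 0 * _),
      od_comm2 w (hα 0).1 (inv_d0 _), ← mul_assoc (d0 Ω s), mul_smul_comm (l 0),
      w.anti (hα 0).1]
    simp only [mul_smul_comm, smul_mul_assoc, mul_sub, mul_assoc, neg_mul, smul_neg]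
    module

/-- The product `α 0 * d (s 0) * α 1 * d (s 1) * ... * α n`. -/
def pW : ∀ (n : ℕ), (Fin (n + 1) → Ω) → (Fin n → A) → Ω
  | 0, α, _ => α 0
  | n + 1, α, s => α 0 * d0 Ω (s 0) * pW n (fun i => α i.succ) fun j => s j.succ

theorem simplex : ∀ (n : ℕ) {α : Fin (n + 1) → Ω}, (∀ i, Od (α i)) → ∀ s : Fin n → A,
    pE α (lc n s) = 0 ∧ pS (fun i => d0 Ω (lc n s i)) α (lc n s) = 0 ∧
      pS (fun i => lc n s i • α i) α (lc n s) =
        ((-1) ^ n * ∏ j : Fin n, s j ^ (n - 1 - j) : A) • pW n α s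
  | 0, α, _, s => by simp [pE, pS, lc, d0_one, pW]
  | n + 1, α, hα, s => by
    obtain ⟨h1, h2, h3⟩ := simplex n (fun i => hα i.succ) fun j => s j.succ
    have w := od_d0 (Ω := Ω) (s 0)
    have e0 : lc (n + 1) s 0 = 1 - s 0 := rfl
    have e1 : (fun i : Fin (n + 1) => lc (n + 1) s i.succ) =
        fun i => s 0 * lc n (fun j => s j.succ) i := rfl
    have e2 : ∀ i : Fin (n + 1), lc (n + 1) s i.succ = s 0 * lc n (fun j => s j.succ) i :=
      fun _ => rfl
    have d1 : d0 Ω (1 - s 0) = -d0 Ω (s 0) := by rw [d0_sub, d0_one, zero_sub]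
    have k := ds_pE (s 0) (fun i => hα i.succ) (lc n fun j => s j.succ)
    rw [h1, mul_zero, smul_zero] at k
    refine ⟨?_, ?_, ?_⟩
    · rw [pE_succ, e0, e1, d1, mul_assoc, neg_mul, k, neg_zero, mul_zero]
    · rw [pS_succ (fun i => od_d0 _) hα, e0, e1, d1, neg_mul, k, mul_assoc, neg_mul,
        ds_pS (s 0) (b := fun i => d0 Ω (lc n (fun j => s j.succ) i)) (fun i => od_d0 _)
          (fun i => hα i.succ) fun i => by
            rw [e2, d0_mul, mul_add, mul_smul_comm, mul_smul_comm, w.sq, smul_zero, zero_add], h2]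
      simp
    · rw [pS_succ (fun i => (hα i).smul _) hα, e0, e1, d1, mul_assoc, neg_mul,
        ds_pS (s 0) (b := fun i => lc n (fun j => s j.succ) i • α i.succ)
          (fun i => (hα _).smul _) (fun i => hα i.succ) fun i => by
            rw [e2, mul_smul, mul_smul_comm],
        pE_scale (s 0) (fun i => hα i.succ), h1, h3, pW, Fin.prod_univ_succ]
      have e3 : ∀ j : Fin n, n - (j.succ : ℕ) = n - 1 - j := fun j => by
        rw [Fin.val_succ]
        omega
      simp only [e3, mul_smul_comm, smul_mul_assoc, mul_assoc, mul_neg, smul_zero, zero_sub,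
        Fin.val_zero, Nat.add_sub_cancel, Nat.sub_zero]
      module

theorem kos_simplex (n : ℕ) {z z' : Fin (n + 1) → A} (hz : ∀ i, z i * z' i = 1) (s : Fin n → A) :
    ∑ i, (z i • d0 Ω (z' i * lc n s i) - (z' i * lc n s i) • d0 Ω (z i)) *
      (List.ofFn fun j : Fin n => d0 Ω (z (i.succAbove j)) *
        d0 Ω (z' (i.succAbove j) * lc n s (i.succAbove j))).prod =
      (-2 * (-1) ^ n * ∏ j : Fin n, s j ^ (n - 1 - j) : A) •
        pW n (fun i => z' i • d0 Ω (z i)) s := by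
  have dz : ∀ i, d0 Ω (z' i) = -((z' i * z' i) • d0 Ω (z i)) := fun i => by
    have e := d0_mul (Ω := Ω) (z i) (z' i)
    rw [hz, d0_one] at e
    have e2 := congrArg (z' i • ·) e
    simp only [smul_zero, smul_add, smul_smul] at e2
    rw [mul_comm (z' i) (z i), hz, one_smul] at e2
    exact eq_neg_of_add_eq_zero_right e2.symm
  obtain ⟨-, h2, h3⟩ := simplex n (α := fun i => z' i • d0 Ω (z i)) (fun i => (od_d0 _).smul _) s
  have e1 : ∀ i, d0 Ω (z i) * d0 Ω (z' i * lc n s i) = z' i • d0 Ω (z i) * d0 Ω (lc n s i) :=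
    fun i => by
      rw [d0_mul, dz, mul_add, smul_neg, mul_neg, mul_smul_comm, mul_smul_comm, (od_d0 _).sq,
        mul_smul_comm, smul_mul_assoc]
      simp
  have e2 : ∀ i, z i • d0 Ω (z' i * lc n s i) - (z' i * lc n s i) • d0 Ω (z i) =
      d0 Ω (lc n s i) - (2 : A) • lc n s i • z' i • d0 Ω (z i) := fun i => by
    have : (z i * z' i) • d0 Ω (lc n s i) = d0 Ω (lc n s i) := by rw [hz, one_smul]
    have h' : (z i * z' i * (z' i * lc n s i)) • d0 Ω (z i) = (z' i * lc n s i) • d0 Ω (z i) := by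
      rw [hz, one_mul]
    rw [d0_mul, dz]
    linear_combination (norm := module) this - h'
  simp only [e1, e2, sub_mul, smul_mul_assoc (2 : A), Finset.sum_sub_distrib, ← Finset.smul_sum]
  change pS (fun i => d0 Ω (lc n s i)) (fun i => z' i • d0 Ω (z i)) (lc n s) -
    (2 : A) • pS (fun i => lc n s i • z' i • d0 Ω (z i)) (fun i => z' i • d0 Ω (z i)) (lc n s) = _
  rw [h2, h3, smul_smul, zero_sub, ← neg_smul]
  congr 1
  ring

end CW

end Pool.Agent.P.MP_f43029_ag
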