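import Pool.Agent.P.MP_f43029_ag.XL.AsymPre

/-!
Splitting of polynomials and forms on a cube along a sum of coefficient groups.
-/

set_option autoImplicit false

noncomputable section

namespace Pool.Agent.P.MP_f43029_ag.XL

open Pool.Agent.Theta MvPolynomial

namespace ASp

variable {J L : Type} [CommRing L]

theorem X_mul_cd {D : ℕ} {G : AddSubgroup L} (j : J) {P : MvPolynomial J L} (hP : P ∈ cd D G) :
    X j * P ∈ cd (D + 1) G := by
  have := zP_mul_cd (X j) hP
  rwa [map_X, totalDegree_X, add_comm] at this

/-- The conditions on the faces that only freeze coordinates in `T`. -/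
def FT (T : Finset J) (D : ℕ) (G : Face J → AddSubgroup L) (P : MvPolynomial J L) : Prop :=
  ∀ σ : Face J, (∀ j ∉ T, σ j = none) → rC L σ P ∈ cd D (G σ)

/-- Monotone families of coefficient groups. -/
def Mo (G : Face J → AddSubgroup L) : Prop := ∀ σ σ', Face.le σ σ' → G σ ≤ G σ'

variable [DecidableEq J]

theorem Mo.upd {G : Face J → AddSubgroup L} (h : Mo G) (j : J) (o : Option Bool) :
    Mo fun σ => G (Function.update σ j o) := fun σ σ' hσ => h _ _ fun k => by
  by_cases hk : k = j
  · subst hk
    simp
  · simpa [hk] using hσ k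

/-- Gluing along the coordinate `j`. -/
def glu (j : J) (a a0 a1 : MvPolynomial J L) : MvPolynomial J L :=
  a + (1 - X j) * rC L (fj j false) (a0 - a) + X j * rC L (fj j true) (a1 - a)

theorem glu_mem {T : Finset J} {j : J} {D : ℕ} {G : Face J → AddSubgroup L} (hG : Mo G)
    {a a0 a1 : MvPolynomial J L} (h : FT T D G a)
    (h0 : FT T D (fun σ => G (Function.update σ j (some false))) a0)
    (h1 : FT T D (fun σ => G (Function.update σ j (some true))) a1) :
    FT (insert j T) (D + 1) G (glu j a a0 a1) := by
  intro σ hσ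
  have hσ' : ∀ k ∉ T, Function.update σ j none k = none := fun k hk => by
    by_cases hkj : k = j
    · subst hkj
      simp
    · simpa [hkj] using hσ k (by simp [hkj, hk])
  have up : ∀ G : AddSubgroup L, (cd D G : AddSubgroup (MvPolynomial J L)) ≤ cd (D + 1) G :=
    fun G => cd_mono (Nat.le_succ D) le_rfl
  simp only [glu, map_add, map_mul, map_sub, map_one, rC_fj, rC_X]
  rcases hs : σ j with _ | _ | _
  · have e : Function.update σ j none = σ := by rw [← hs, Function.update_eq_self]
    have key := fun b => fj_rC (L := L) σ j b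
    rw [e] at hσ' key
    have le : ∀ b, G (Function.update σ j (some b)) ≤ G σ := fun b => hG _ _ fun k => by
      by_cases hk : k = j
      · subst hk
        exact Or.inl hs
      · simp [hk]
    have e0 := sub_mem (rC_cd (fj j false) (cd_mono le_rfl (le _) (h0 σ hσ')))
      (rC_cd (fj j false) (h σ hσ'))
    have e1 := sub_mem (rC_cd (fj j true) (cd_mono le_rfl (le _) (h1 σ hσ')))
      (rC_cd (fj j true) (h σ hσ'))
    simp only [← key, sub_mul, one_mul, rv_none hs]
    exact add_mem (add_mem (up _ (h σ hσ')) (sub_mem (up _ e0) (X_mul_cd j e0))) (X_mul_cd j e1)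
  · have e : Function.update σ j (some false) = σ := by rw [← hs, Function.update_eq_self]
    have := rC_cd (fj j false) (h0 _ hσ')
    simp only [fj_rC, Function.update_idem, e] at this
    simpa [e, rv_false hs] using up _ this
  · have e : Function.update σ j (some true) = σ := by rw [← hs, Function.update_eq_self]
    have := rC_cd (fj j true) (h1 _ hσ')
    simp only [fj_rC, Function.update_idem, e] at this
    simpa [e, rv_true hs] using up _ this

theorem split_FT (T : Finset J) : ∀ (G0 G1 : Face J → AddSubgroup L), Mo G0 → Mo G1 →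
    ∀ (P : MvPolynomial J L) (D : ℕ), FT T D (fun σ => G0 σ ⊔ G1 σ) P →
      ∃ P0, FT T (D + T.card) G0 P0 ∧ FT T (D + T.card) G1 (P - P0) := by
  induction T using Finset.induction_on with
  | empty =>
    intro G0 G1 _ _ P D hP
    have h1 := hP (fun _ => none) fun _ _ => rfl
    rw [rC_none] at h1
    choose a ha b hb hab using fun m => AddSubgroup.mem_sup.1 (h1.2 m)
    have hs : ∀ σ : Face J, (∀ j ∉ (∅ : Finset J), σ j = none) → σ = fun _ => none :=
      fun σ hσ => funext fun j => hσ j (by simp)
    have hd : ∀ m ∈ P.support, m.degree ≤ D := fun m hm => (le_totalDegree hm).trans h1.1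
    refine ⟨∑ m ∈ P.support, monomial m (a m), fun σ hσ => ?_, fun σ hσ => ?_⟩
    · rw [hs σ hσ, rC_none]
      exact sum_mem fun m hm => monomial_mem_cd (hd m hm) (ha m)
    · rw [hs σ hσ, rC_none]
      have : P - ∑ m ∈ P.support, monomial m (a m) = ∑ m ∈ P.support, monomial m (b m) := by
        rw [sub_eq_iff_eq_add', ← Finset.sum_add_distrib]
        conv_lhs => rw [P.as_sum]
        exact Finset.sum_congr rfl fun m _ => by rw [← map_add, hab]
      rw [this]
      exact sum_mem fun m hm => monomial_mem_cd (hd m hm) (hb m)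
  | insert j T hj ih =>
    intro G0 G1 m0 m1 P D hP
    obtain ⟨a, ha, ha'⟩ := ih G0 G1 m0 m1 P D
      fun σ hσ => hP σ fun k hk => hσ k fun h => hk (Finset.mem_insert_of_mem h)
    have key : ∀ b : Bool, ∃ P0,
        FT T (D + T.card) (fun σ => G0 (Function.update σ j (some b))) P0 ∧
        FT T (D + T.card) (fun σ => G1 (Function.update σ j (some b))) (rC L (fj j b) P - P0) :=
      fun b => ih _ _ (m0.upd j _) (m1.upd j _) _ D fun σ hσ => by
        rw [rC_fj]
        refine hP _ fun k hk => ?_
        rw [Finset.mem_insert, not_or] at hk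
        simpa [hk.1] using hσ k hk.2
    obtain ⟨a0, h0, h0'⟩ := key false
    obtain ⟨a1, h1, h1'⟩ := key true
    rw [Finset.card_insert_of_notMem hj]
    refine ⟨glu j a a0 a1, glu_mem m0 ha h0 h1, ?_⟩
    have e : ∀ b, rC L (fj j b) (rC L (fj j b) P) = rC L (fj j b) P := fun b => by
      rw [rC_fj, fj, Function.update_idem]
    have : P - glu j a a0 a1 =
        glu j (P - a) (rC L (fj j false) P - a0) (rC L (fj j true) P - a1) := by
      simp only [glu, map_sub, e]
      ring
    rw [this]
    exact glu_mem m1 ha' h0' h1'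

variable [Fintype J] {n : ℕ}

/-- Open the directions of the differentials in `I`. -/
def opn (I : Finset (Fin n ⊕ J)) (σ : Face J) : Face J := fun j =>
  if Sum.inr j ∈ I then none else σ j

theorem mem_FilO_FT {D : ℕ} {G : Face J → AddSubgroup L} {ω : Fm n J L} :
    ω ∈ FilO D G ↔ ∀ I, FT Finset.univ D (fun σ => G (opn I σ)) (ω I) := by
  rw [mem_FilO']
  refine forall_congr' fun I => ⟨fun h σ _ => ?_, fun h σ hσ => ?_⟩
  · have h2 := rC_cd σ (h (opn I σ) fun j hj => by simp [opn, hj])
    have e : (fun j => (opn I σ j).or (σ j)) = σ := funext fun j => by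
      unfold opn
      split_ifs <;> simp
    rwa [rC_rC, e] at h2
  · have h1 := h σ (by simp)
    have e : opn I σ = σ := funext fun j => by
      unfold opn
      split_ifs with hj
      · exact (hσ j hj).symm
      · rfl
    simpa only [e] using h1

theorem split_FilO {G0 G1 : Face J → AddSubgroup L} (m0 : Mo G0) (m1 : Mo G1) {ω : Fm n J L}
    {D : ℕ} (h : ω ∈ FilO D fun σ => G0 σ ⊔ G1 σ) :
    ∃ ω0 : Fm n J L, ω0 ∈ FilO (D + Fintype.card J) G0 ∧
      ω - ω0 ∈ FilO (D + Fintype.card J) G1 := by
  have mo : ∀ (G : Face J → AddSubgroup L), Mo G → ∀ I : Finset (Fin n ⊕ J),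
      Mo fun σ => G (opn I σ) := fun G hG I σ σ' hσ => hG _ _ fun j => by
    unfold opn
    split_ifs
    · exact Or.inl rfl
    · exact hσ j
  choose a ha ha' using fun I => split_FT Finset.univ _ _ (mo G0 m0 I) (mo G1 m1 I) (ω I) D
    (mem_FilO_FT.1 h I)
  exact ⟨a, mem_FilO_FT.2 ha, mem_FilO_FT.2 ha'⟩

end ASp

end Pool.Agent.P.MP_f43029_ag.XL
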