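import Pool.Agent.P.MP_f43029_ag.XL.AQi
import Pool.Agent.P.MP_f43029_ag.XL.ASplit
import Pool.Agent.P.MP_f43029_ag.XL.AK
import Pool.Agent.P.MP_f43029_ag.XL.ACell

/-!
A Laurent coordinate does not change the cohomology; towers of Laurent coordinates.
-/

set_option autoImplicit false
set_option linter.unusedSectionVars false

noncomputable section

namespace Pool.Agent.P.MP_f43029_ag.XL

open Pool.Agent.Theta Filter

namespace Amb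

variable {n : ℕ} {K F : Type} [Field K] [Field F] [CharZero K] [CharZero F] [Algebra K F]
  {𝔸 : Amb n K F} {J : Type} [Fintype J] [DecidableEq J]

theorem fil_sup {B B0 B1 : Subring F} (u : Fˣ) (h : ∀ y ∈ B, ∃ a ∈ B0, ∃ b ∈ B1, y = a + b)
    (a : ℤ) : fil u B a ≤ fil u B0 a ⊔ fil u B1 a := by
  intro y hy
  obtain ⟨α, hα, β, hβ, e⟩ := h _ hy
  have h0 := fil_mul (zpow_mem_fil u B0 a) (fil_zero.2 hα)
  have h1 := fil_mul (zpow_mem_fil u B1 a) (fil_zero.2 hβ)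
  rw [add_zero] at h0 h1
  refine AddSubgroup.mem_sup.2 ⟨_, h0, _, h1, ?_⟩
  rw [← mul_add, ← e, ← mul_assoc, ← Units.val_mul, ← zpow_add, add_neg_cancel, zpow_zero,
    Units.val_one, one_mul]

/-- The coordinate `j` compares `h` with `1`. -/
structure Sys.IsLau (𝔅o 𝔅 : 𝔸.Sys J) (j : J) (h : F) : Prop where
  ne : h ≠ 0
  free : 𝔅o.Free j
  mono : 𝔅o.Mono
  noeth : ∀ σ, IsNoetherianRing (𝔅o.B σ)
  bd : ∃ e : ℕ, ∀ σ, h ∈ fil 𝔸.ϖ (𝔅o.B σ) (-(e : ℤ))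
  e0 : ∀ σ, 𝔅.B (Function.update σ j (some false)) = Subring.closure (insert h⁻¹ (𝔅o.B σ))
  e1 : ∀ σ, 𝔅.B (Function.update σ j (some true)) = Subring.closure (insert h (𝔅o.B σ))
  en : ∀ σ, 𝔅.B (Function.update σ j none) = Subring.closure (insert h (insert h⁻¹ (𝔅o.B σ)))

namespace Sys.IsLau

variable {𝔅o 𝔅 : 𝔸.Sys J} {j : J} {h : F}

theorem le (H : 𝔅o.IsLau 𝔅 j h) : 𝔅o ≤ 𝔅 := fun σ y hy => by
  rw [← Function.update_eq_self j σ]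
  rcases σ j with _ | _ | _
  · rw [H.en]
    exact Subring.subset_closure (Or.inr (Or.inr hy))
  · rw [H.e0]
    exact Subring.subset_closure (Or.inr hy)
  · rw [H.e1]
    exact Subring.subset_closure (Or.inr hy)

theorem split (H : 𝔅o.IsLau 𝔅 j h) {D : ℕ} {a : ℤ} {w : Fm n J F} (hw : w ∈ 𝔅.fO.B D a) :
    ∃ ζ ∈ (𝔅.upd j false).fO.B (D + 1 + Fintype.card J) (a - 𝔸.M * lg D),
      rO (fj j true) (AKn.KJ j w) - ζ ∈
        (𝔅.upd j true).fO.B (D + 1 + Fintype.card J) (a - 𝔸.M * lg D) ∧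
      AKn.KJ j w - ζ ∈ 𝔅.fO.B (D + 1 + Fintype.card J) (a - 𝔸.M * lg D) := by
  have mo : ∀ (b : Bool) (a : ℤ), ASp.Mo ((𝔅.upd j b).G a) := fun b a σ σ' hσ => by
    refine fil_mono _ ?_ _
    change 𝔅.B _ ≤ 𝔅.B _
    cases b
    · rw [H.e0, H.e0]
      exact Subring.closure_mono (Set.insert_subset_insert (H.mono _ _ hσ))
    · rw [H.e1, H.e1]
      exact Subring.closure_mono (Set.insert_subset_insert (H.mono _ _ hσ))
  obtain ⟨ζ, h0, h1⟩ := ASp.split_FilO (mo false (a - 𝔸.M * lg D)) (mo true (a - 𝔸.M * lg D))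
    (ω := rO (fj j true) (AKn.KJ j w)) (D := D + 1) fun σ => by
      rw [rO_fj]
      refine cdO_mono le_rfl ?_ (AKn.rO_KJ_mem hw)
      rw [Function.update_idem]
      refine fil_sup _ (fun y hy => ?_) _
      change ∃ a ∈ 𝔅.B _, ∃ b ∈ 𝔅.B _, _
      rw [H.en] at hy
      obtain ⟨α, hα, β, hβ, e⟩ := Mx.laurent_sum _ H.ne hy
      rw [H.e0, H.e1]
      exact ⟨β, hβ, α, hα, by rw [e, add_comm]⟩
  refine ⟨ζ, h0, h1, fun σ => ?_⟩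
  have e := Function.update_eq_self j σ
  rcases hs : σ j with _ | _ | _
  · rw [hs] at e
    rw [map_sub]
    refine sub_mem (cdO_mono (by omega) (by rw [e]) (AKn.rO_KJ_mem hw))
      (cdO_mono le_rfl (fil_mono _ ?_ _) (h0 σ))
    change 𝔅.B _ ≤ 𝔅.B _
    conv_rhs => rw [← e]
    rw [H.e0, H.en]
    exact Subring.closure_mono (Set.subset_insert _ _)
  · rw [hs] at e
    rw [map_sub, AKn.rO_KJ_false hs, zero_sub]
    refine neg_mem (cdO_mono le_rfl (fil_mono _ ?_ _) (h0 σ))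
    change 𝔅.B _ ≤ 𝔅.B _
    rw [e]
  · rw [hs] at e
    have h2 := h1 σ
    rw [map_sub, rO_fj, e, ← map_sub] at h2
    refine cdO_mono le_rfl (fil_mono _ ?_ _) h2
    change 𝔅.B _ ≤ 𝔅.B _
    rw [e]

theorem inter (H : 𝔅o.IsLau 𝔅 j h) : ∃ E : ℕ, ∀ σ a y, y ∈ (𝔅.upd j false).G a σ →
    y ∈ (𝔅.upd j true).G a σ → y ∈ 𝔅o.G (a - E) σ := by
  obtain ⟨e, he⟩ := H.bd
  have key : ∀ σ, ∃ E : ℕ, ∀ a y, y ∈ (𝔅.upd j false).G a σ →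
      y ∈ (𝔅.upd j true).G a σ → y ∈ 𝔅o.G (a - E) σ := fun σ => by
    have := H.noeth σ
    obtain ⟨e', he'⟩ := Mx.laurent_inter (𝔅o.B σ) (u := (𝔸.ϖ : F) ^ e) H.ne
      (pow_mem (𝔅o.V_le σ 𝔸.ϖ_mem) e) (by simpa [mem_fil] using he σ)
    refine ⟨e * e', fun a y h0 h1 => ?_⟩
    change _ ∈ 𝔅.B _ at h0 h1
    rw [H.e0] at h0
    rw [H.e1] at h1
    have h2 := he' _ h1 h0
    change _ ∈ 𝔅o.B σ
    rwa [neg_sub, sub_eq_add_neg, zpow_add, Units.val_mul, zpow_natCast,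
      Units.val_pow_eq_pow_val, pow_mul, mul_assoc]
  choose E hE using key
  refine ⟨∑ σ, E σ, fun σ a y h0 h1 => 𝔅o.G_anti ?_ σ (hE σ a y h0 h1)⟩
  have := Finset.single_le_sum (f := E) (fun _ _ => Nat.zero_le _) (Finset.mem_univ σ)
  omega

theorem laur (H : 𝔅o.IsLau 𝔅 j h) :
    AFil.Laur (𝔸.dF J) (AKn.KJ j) (rO (fj j false)).toAddMonoidHom (rO (fj j true)).toAddMonoidHom
      𝔅o.fO.toAFil 𝔅.fO.toAFil (𝔅.upd j false).fO.toAFil (𝔅.upd j true).fO.toAFil where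
  dd := (𝔸.dgF J).d_d
  hom := AKn.dF_KJ 𝔸 j
  d_r0 x := (𝔸.rO_dF _ x).symm
  d_r1 x := (𝔸.rO_dF _ x).symm
  r0_r0 := AKn.fj_fj j false false
  r1_r0 := AKn.fj_fj j true false
  K_r0 := AKn.KJ_fj j false
  bd0 := (bd_dF _).sbd
  bd1 := (bd_dF _).sbd
  br0 := (AFil.Bd.of_strict (ev_mem_fO fun _ => le_rfl)).sbd
  br1 := (AFil.Bd.of_strict (ev_mem_fO fun _ => le_rfl)).sbd
  bK := (AKn.KJ_bd j fun σ _ => (H.free σ _).le).sbd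
  le := AFil.SLe.of_le (le_mem_fO H.le)
  split τ w hw := by
    obtain ⟨y, hy, hR⟩ := AFil.Seq.choose
      (F' := ((𝔅.upd j false).fO.prod (𝔅.upd j true).fO.toAFil).prod 𝔅.fO.toAFil) hw
      (fun m y => y.1.2 = rO (fj j true) (AKn.KJ j (w m)) - y.1.1 ∧ y.2 = AKn.KJ j (w m) - y.1.1)
      (𝔸.M + (1 + Fintype.card J)) fun m D a hm => by
        obtain ⟨ζ, h0, h1, h2⟩ := H.split hm
        have l := AKn.lvl 𝔸.M (1 + Fintype.card J) D a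
        have l' : D + 1 + Fintype.card J ≤ D + (𝔸.M + (1 + Fintype.card J)) := by omega
        exact ⟨((ζ, _), _), ⟨rfl, rfl⟩, ⟨AFil.mono _ l' l h0, AFil.mono _ l' l h1⟩,
          AFil.mono _ l' l h2⟩
    exact ⟨fun m => (y m).1.1, AFil.Seq.of_rel0 hy fun _ _ _ h => h.1.1,
      AFil.Seq.congr (AFil.Seq.of_rel0 hy fun _ _ _ h => h.1.2) (hR.mono fun _ h => h.1),
      AFil.Seq.congr (AFil.Seq.of_rel0 hy fun _ _ _ h => h.2) (hR.mono fun _ h => h.2)⟩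
  inter τ w h0 h1 := by
    obtain ⟨E, hE⟩ := H.inter
    refine AFil.Seq.of_rel₂ h0 h1 E fun m D a h0 h1 => 𝔅o.fO.mono (Nat.le_add_right D E)
      (a := a - E) ?_ fun σ I => ⟨(h0 σ I).1, fun k => hE σ a _ ((h0 σ I).2 k) ((h1 σ I).2 k)⟩
    have := lg_pos D
    nlinarith [Int.natCast_nonneg E]

end Sys.IsLau

/-- The inclusion is an isomorphism on cohomology. -/
def Sys.QI (𝔅 𝔅' : 𝔸.Sys J) : Prop :=
  𝔅 ≤ 𝔅' ∧ AFil.Srj (𝔸.dF J) 𝔅.fO.toAFil 𝔅'.fO.toAFil ∧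
    AFil.Inj (𝔸.dF J) 𝔅.fO.toAFil 𝔅'.fO.toAFil

theorem Sys.QI.of_eq {𝔅 𝔅' : 𝔸.Sys J} (h : ∀ σ, 𝔅.B σ = 𝔅'.B σ) : 𝔅.QI 𝔅' :=
  have l := AFil.SLe.of_le (Sys.le_mem_fO (𝔅 := 𝔅') (𝔅' := 𝔅) fun σ => (h σ).ge)
  ⟨fun σ => (h σ).le, AFil.Srj.of_le l, AFil.Inj.of_le l⟩

theorem Sys.QI.trans {𝔅 𝔅' 𝔅'' : 𝔸.Sys J} (h : 𝔅.QI 𝔅') (h' : 𝔅'.QI 𝔅'') : 𝔅.QI 𝔅'' :=
  ⟨fun σ => (h.1 σ).trans (h'.1 σ), h.2.1.trans h'.2.1 (AFil.SLe.of_le (Sys.le_mem_fO h'.1)),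
    h.2.2.trans h'.2.2 (AFil.SLe.of_le (Sys.le_mem_fO h.1))⟩

theorem Sys.IsLau.qi {𝔅o 𝔅 : 𝔸.Sys J} {j : J} {h : F} (H : 𝔅o.IsLau 𝔅 j h) : 𝔅o.QI 𝔅 :=
  ⟨H.le, H.laur.srj, H.laur.inj⟩

theorem Sys.QI.srj {𝔅 𝔅' : 𝔸.Sys J} (h : 𝔅.QI 𝔅') (ω : 𝔅'.Om) (hω : 𝔅'.dg.d ω = 0) :
    ∃ x : 𝔅.Om, 𝔅.dg.d x = 0 ∧ 𝔅'.dg.Ex (ω - (Sys.mpH h.1).o x) := by
  induction ω using Fil.ind with | h w hw
  obtain ⟨x, hx, hdx, η, hη, e⟩ := h.2.1 w hw (Fil.cl_eq_zero.1 hω)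
  refine ⟨𝔅.fO.cl x hx, Fil.cl_eq_zero.2 hdx, 𝔅'.fO.cl η hη, (Fil.cl_eq.2 e).symm⟩

theorem Sys.QI.inj {𝔅 𝔅' : 𝔸.Sys J} (h : 𝔅.QI 𝔅') (x : 𝔅.Om) (hx : 𝔅.dg.d x = 0)
    (he : 𝔅'.dg.Ex ((Sys.mpH h.1).o x)) : 𝔅.dg.Ex x := by
  induction x using Fil.ind with | h x hx'
  obtain ⟨η, hη⟩ := he
  induction η using Fil.ind with | h η hη'
  obtain ⟨y, hy, e⟩ := h.2.2 x hx' (Fil.cl_eq_zero.1 hx) η hη' (Fil.cl_eq.1 hη.symm)
  exact ⟨𝔅.fO.cl y hy, (Fil.cl_eq.2 e).symm⟩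

end Amb

namespace Tow

open Amb

variable {n : ℕ} {K F : Type} [Field K] [Field F] [CharZero K] [CharZero F] [Algebra K F]
  {𝔸 : Amb (n + 1) K F} {ι : Type} [Fintype ι] [DecidableEq ι] (𝒯 : Tow 𝔸 ι)

theorem tower_qi {X : Face (Cub n ι) → Set F} (hX : ∀ σ, X σ ⊆ 𝒯.Gen)
    (mo : ∀ σ σ', Face.le σ σ' → X σ ⊆ X σ') (T : Finset ι)
    (fr : ∀ c ∈ T, ∀ σ o, X (Function.update σ (cj c) o) = X σ) :
    (𝒯.sX X hX).QI (𝒯.sX _ (𝒯.gT_sub T hX)) := by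
  induction T using Finset.induction_on with
  | empty =>
    refine Sys.QI.of_eq fun σ => congrArg 𝔸.cell ?_
    simp [gT]
  | insert c T hc ih =>
    refine (ih fun c' hc' => fr c' (Finset.mem_insert_of_mem hc')).trans
      (Sys.IsLau.qi (j := cj c) (h := 𝒯.h c) ?_)
    have fc := fr c (Finset.mem_insert_self _ _)
    have key : ∀ σ o, (𝒯.sX _ (𝒯.gT_sub (insert c T) hX)).B (Function.update σ (cj c) o) =
        Subring.closure ({y : F | (o ≠ some false ∧ y = 𝒯.h c) ∨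
          (o ≠ some true ∧ y = ((𝒯.h c)⁻¹ : Fˣ))} ∪ (𝒯.sX _ (𝒯.gT_sub T hX)).B σ) := fun σ o => by
      change 𝔸.cell (_ ∪ _) = Subring.closure (_ ∪ (𝔸.cell (_ ∪ _) : Set F))
      rw [gT_insert, gT_upd _ hc, fc, Function.update_self, Set.union_assoc, ACe.cell_union]
    refine ⟨(𝒯.h c).ne_zero, fun σ o => ?_, fun σ σ' hσ => ?_, fun σ => ?_, ⟨𝒯.e, fun σ => ?_⟩,
      fun σ => ?_, fun σ => ?_, fun σ => ?_⟩
    · change 𝔸.cell (_ ∪ _) = 𝔸.cell (_ ∪ _)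
      rw [gT_upd _ hc, fc]
    · exact cell_mono (Set.union_subset_union (𝒯.gT_mono T hσ) (mo _ _ hσ))
    · exact ACe.noeth 𝔸 (𝒯.Gen_finite.subset (𝒯.gT_sub T hX σ))
    · exact fil_mono _ (cell_mono (Set.empty_subset _)) _ (𝒯.h_mem c)
    · rw [key]
      congr 1
      ext y
      simp
    · rw [key]
      congr 1
      ext y
      simp
    · rw [key]
      congr 1
      ext y
      simp [or_assoc]

end Tow

end Pool.Agent.P.MP_f43029_ag.XL
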