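import Pool.Agent.P.MP_f43029_ag.XL.Fil

/-!
Comparison of the cohomology of two asymptotic complexes inside one ambient complex.
-/

set_option autoImplicit false

noncomputable section

namespace Pool.Agent.P.MP_f43029_ag.XL

open Filter

namespace AFil

variable {G : Type} [AddCommGroup G]

/-- The map `f` preserves moderate and negligible sequences. -/
def SBd (F F' : AFil G) (f : G → G) : Prop :=
  ∀ τ w, w ∈ F.Seq τ → (fun m => f (w m)) ∈ F'.Seq τ

theorem Bd.sbd {F F' : AFil G} {f : G → G} (h : F.Bd F' f) : F.SBd F' f := fun _ _ hw => h.seq hw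

/-- Inclusion of moderate and negligible sequences. -/
def SLe (F F' : AFil G) : Prop := ∀ τ, F.Seq τ ≤ F'.Seq τ

theorem SLe.of_le {F F' : AFil G} (h : ∀ D a, F.B D a ≤ F'.B D a) : F.SLe F' := fun _ _ hw =>
  Seq.of_rel0 hw fun _ D a hm => h D a hm

theorem SLe.trans {F F' F'' : AFil G} (h : F.SLe F') (h' : F'.SLe F'') : F.SLe F'' := fun τ =>
  (h τ).trans (h' τ)

/-- Surjectivity on cohomology. -/
def Srj (d : G →+ G) (F F' : AFil G) : Prop :=
  ∀ w ∈ F'.Seq false, (fun m => d (w m)) ∈ F'.Seq true →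
    ∃ x ∈ F.Seq false, (fun m => d (x m)) ∈ F.Seq true ∧
      ∃ η ∈ F'.Seq false, (fun m => w m - x m - d (η m)) ∈ F'.Seq true

/-- Injectivity on cohomology. -/
def Inj (d : G →+ G) (F F' : AFil G) : Prop :=
  ∀ x ∈ F.Seq false, (fun m => d (x m)) ∈ F.Seq true →
    ∀ η ∈ F'.Seq false, (fun m => x m - d (η m)) ∈ F'.Seq true →
      ∃ y ∈ F.Seq false, (fun m => x m - d (y m)) ∈ F.Seq true

variable {d : G →+ G} {F F' F'' : AFil G}

theorem Srj.of_le (h : F'.SLe F) : Srj d F F' := fun w hw hd =>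
  ⟨w, h _ hw, h _ hd, 0, zero_mem _, F'.seq_of_eventually_zero true
    (Eventually.of_forall fun m => by simp)⟩

theorem Inj.of_le (h : F'.SLe F) : Inj d F F' := fun _ _ _ η hη h1 => ⟨η, h _ hη, h _ h1⟩

theorem Srj.trans (h : Srj d F F') (h' : Srj d F' F'') (l : F'.SLe F'') : Srj d F F'' := by
  intro w hw hd
  obtain ⟨x, hx, hdx, η, hη, h1⟩ := h' w hw hd
  obtain ⟨x', hx', hdx', η', hη', h2⟩ := h x hx hdx
  refine ⟨x', hx', hdx', η + η', add_mem hη (l _ hη'), Seq.congr (add_mem h1 (l _ h2)) ?_⟩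
  refine Eventually.of_forall fun m => ?_
  simp only [Pi.add_apply, map_add]
  abel

theorem Inj.trans (h : Inj d F F') (h' : Inj d F' F'') (l : F.SLe F') : Inj d F F'' := by
  intro x hx hd η hη h1
  obtain ⟨y, hy, h2⟩ := h' x (l _ hx) (l _ hd) η hη h1
  exact h x hx hd y hy h2

/-- The data of a Laurent coordinate. -/
structure Laur (d K r0 r1 : G →+ G) (Fo F F0 F1 : AFil G) : Prop where
  dd : ∀ x, d (d x) = 0
  hom : ∀ x, d (K x) + K (d x) = x - r0 x
  d_r0 : ∀ x, d (r0 x) = r0 (d x)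
  d_r1 : ∀ x, d (r1 x) = r1 (d x)
  r0_r0 : ∀ x, r0 (r0 x) = r0 x
  r1_r0 : ∀ x, r1 (r0 x) = r0 x
  K_r0 : ∀ x, K (r0 x) = 0
  bd0 : F0.SBd F0 d
  bd1 : F1.SBd F1 d
  br0 : F.SBd F0 r0
  br1 : F.SBd F1 r1
  bK : Fo.SBd Fo K
  le : Fo.SLe F
  split : ∀ τ w, w ∈ F.Seq τ → ∃ ζ ∈ F0.Seq τ, (fun m => r1 (K (w m)) - ζ m) ∈ F1.Seq τ ∧
    (fun m => K (w m) - ζ m) ∈ F.Seq τ
  inter : ∀ τ w, w ∈ F0.Seq τ → w ∈ F1.Seq τ → w ∈ Fo.Seq τ

namespace Laur

variable {K r0 r1 : G →+ G} {Fo F0 F1 : AFil G}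

theorem hom1 (h : Laur d K r0 r1 Fo F F0 F1) (x : G) :
    d (r1 (K x)) + r1 (K (d x)) = r1 x - r0 x := by
  rw [h.d_r1, ← map_add, h.hom, map_sub, h.r1_r0]

theorem srj (h : Laur d K r0 r1 Fo F F0 F1) : Srj d Fo F := by
  intro w hw hd
  obtain ⟨ζ, z0, z1, z2⟩ := h.split _ _ hw
  obtain ⟨ν, n0, n1, n2⟩ := h.split _ _ hd
  have e : ∀ m, r0 (w m) + d (ζ m) + ν m =
      r1 (w m) - d (r1 (K (w m)) - ζ m) - (r1 (K (d (w m))) - ν m) := fun m => by
    have := h.hom1 (w m)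
    rw [map_sub, eq_sub_iff_add_eq] at *
    linear_combination (norm := abel1) this
  refine ⟨fun m => r0 (w m) + d (ζ m) + ν m, h.inter _ _ ?_ ?_, h.inter _ _ ?_ ?_, _, z2, ?_⟩
  · exact add_mem (add_mem (h.br0 _ _ hw) (h.bd0 _ _ z0)) (F0.le_mod _ n0)
  · exact Seq.congr (sub_mem (sub_mem (h.br1 _ _ hw) (h.bd1 _ _ z1)) (F1.le_mod _ n1))
      (Eventually.of_forall fun m => (e m).symm)
  · refine Seq.congr (add_mem (h.br0 _ _ hd) (h.bd0 _ _ n0)) (Eventually.of_forall fun m => ?_)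
    simp only [Pi.add_apply, map_add, h.dd, h.d_r0, add_zero]
  · refine Seq.congr (sub_mem (h.br1 _ _ hd) (h.bd1 _ _ n1)) (Eventually.of_forall fun m => ?_)
    simp only [Pi.sub_apply, e, map_sub, h.dd, h.d_r1, sub_zero, map_zero]
  · refine Seq.congr n2 (Eventually.of_forall fun m => ?_)
    have := h.hom (w m)
    simp only [map_sub]
    linear_combination (norm := abel1) this

theorem inj (h : Laur d K r0 r1 Fo F F0 F1) : Inj d Fo F := by
  intro x hx hd η hη h1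
  have hη' : (fun m => η m - K (x m)) ∈ F.Seq false := sub_mem hη (h.le _ (h.bK _ _ hx))
  have hν : (fun m => r0 (x m) - d (η m - K (x m))) ∈ F.Seq true := by
    refine Seq.congr (sub_mem h1 (h.le _ (h.bK _ _ hd))) (Eventually.of_forall fun m => ?_)
    have := h.hom (x m)
    simp only [Pi.sub_apply, map_sub]
    linear_combination (norm := abel1) -this
  generalize hη'' : (fun m => η m - K (x m)) = θ at hη'
  have hθ : ∀ m, η m - K (x m) = θ m := fun m => congrFun hη'' m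
  simp only [hθ] at hν
  obtain ⟨ζ, z0, z1, -⟩ := h.split _ _ hη'
  obtain ⟨ν, n0, n1, -⟩ := h.split _ _ hν
  have e : ∀ m, r0 (θ m) + d (ζ m) - ν m =
      r1 (θ m) - d (r1 (K (θ m)) - ζ m) + (r1 (K (r0 (x m) - d (θ m))) - ν m) := fun m => by
    have := h.hom1 (θ m)
    simp only [map_sub, h.K_r0, map_zero]
    linear_combination (norm := abel1) this
  have hy : (fun m => r0 (θ m) + d (ζ m) - ν m) ∈ Fo.Seq false := by
    refine h.inter _ _ ?_ ?_
    · exact sub_mem (add_mem (h.br0 _ _ hη') (h.bd0 _ _ z0)) (F0.le_mod _ n0)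
    · exact Seq.congr (add_mem (sub_mem (h.br1 _ _ hη') (h.bd1 _ _ z1)) (F1.le_mod _ n1))
        (Eventually.of_forall fun m => (e m).symm)
  have hz : (fun m => r0 (x m) - d (r0 (θ m) + d (ζ m) - ν m)) ∈ Fo.Seq true := by
    refine h.inter _ _ ?_ ?_
    · refine Seq.congr (add_mem (h.br0 _ _ hν) (h.bd0 _ _ n0)) (Eventually.of_forall fun m => ?_)
      simp only [Pi.add_apply, map_add, map_sub, h.dd, h.d_r0, h.r0_r0]
      abel
    · refine Seq.congr (sub_mem (h.br1 _ _ hν) (h.bd1 _ _ n1)) (Eventually.of_forall fun m => ?_)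
      rw [e]
      simp only [Pi.sub_apply, map_add, map_sub, h.dd, h.d_r1, h.r1_r0, map_zero]
      abel
  refine ⟨_, add_mem hy (h.bK _ _ hx), Seq.congr (add_mem hz (h.bK _ _ hd))
    (Eventually.of_forall fun m => ?_)⟩
  have := h.hom (x m)
  simp only [Pi.add_apply, map_add]
  linear_combination (norm := abel1) this

end Laur

end AFil

end Pool.Agent.P.MP_f43029_ag.XL
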