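import Pool.Agent.P.MP_f43029_ag.XL.Asym
import Pool.Agent.P.MP_f43029_ag.XL.LApi

/-!
The residue on the tower over the sphere.
-/

set_option autoImplicit false

noncomputable section

namespace Pool.Agent.P.MP_f43029_ag.XL

open Pool.Agent.Theta Filter MvPolynomial

namespace ARc

section Cell

variable {n : ℕ} {K F : Type} [Field K] [Field F] [CharZero K] [CharZero F] [Algebra K F]
  (𝔸 : Amb n K F)

/-- Laurent monomials. -/
def mon (m : Fin n → ℤ) : F := ((∏ i, 𝔸.w i ^ m i : Fˣ) : F)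

theorem mon_add (m m' : Fin n → ℤ) : mon 𝔸 (m + m') = mon 𝔸 m * mon 𝔸 m' := by
  simp only [mon, Pi.add_apply, zpow_add, Finset.prod_mul_distrib, Units.val_mul]

theorem mon_zero : mon 𝔸 0 = 1 := by simp [mon]

theorem mon_single (i : Fin n) (k : ℤ) : mon 𝔸 (Pi.single i k) = ((𝔸.w i ^ k : Fˣ) : F) := by
  rw [mon, Finset.prod_eq_single i, Pi.single_eq_same]
  · intro j _ hj
    rw [Pi.single_eq_of_ne hj, zpow_zero]
  · simp

theorem res_mon (m : Fin n → ℤ) : 𝔸.res (mon 𝔸 m) = if m = fun _ => -1 then 1 else 0 := 𝔸.res_w m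

theorem δ_one (i : Fin n) : 𝔸.δ i 1 = 0 := by simpa using 𝔸.δ_c i 1

theorem δ_mon (i : Fin n) (m : Fin n → ℤ) :
    𝔸.δ i (mon 𝔸 m) = (m i : F) * mon 𝔸 (m + Pi.single i (-1)) := by
  have hadd : ∀ m m' : Fin n → ℤ, 𝔸.δ i (mon 𝔸 m) = (m i : F) * mon 𝔸 (m + Pi.single i (-1)) →
      𝔸.δ i (mon 𝔸 m') = (m' i : F) * mon 𝔸 (m' + Pi.single i (-1)) →
      𝔸.δ i (mon 𝔸 (m + m')) = ((m + m') i : F) * mon 𝔸 (m + m' + Pi.single i (-1)) := by
    intro m m' h h'
    rw [mon_add, 𝔸.der.leib, h, h']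
    simp only [mon_add, Pi.add_apply, Int.cast_add]
    ring
  have h1 : ∀ j, 𝔸.δ i (mon 𝔸 (Pi.single j 1)) =
      ((Pi.single j 1 : Fin n → ℤ) i : F) * mon 𝔸 (Pi.single j 1 + Pi.single i (-1)) := fun j => by
    rw [mon_single, zpow_one, 𝔸.δ_w]
    by_cases h : i = j
    · subst h
      rw [← Pi.single_add]
      simp [mon_zero]
    · simp [h]
  have h2 : ∀ j, 𝔸.δ i (mon 𝔸 (Pi.single j (-1))) = ((Pi.single j (-1) : Fin n → ℤ) i : F) *
      mon 𝔸 (Pi.single j (-1) + Pi.single i (-1)) := fun j => by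
    rw [mon_add, mon_single, mon_single, zpow_neg_one, zpow_neg_one, 𝔸.δ_inv, 𝔸.δ_w]
    by_cases h : i = j
    · subst h
      simp
    · simp [h]
  induction m using Pi.single_induction with
  | zero => simp [mon_zero, δ_one]
  | add m m' h h' => exact hadd m m' h h'
  | single j k =>
    induction k using Int.induction_on with
    | zero => simp [mon_zero, δ_one]
    | succ k ih => rw [Pi.single_add]; exact hadd _ _ ih (h1 j)
    | pred k ih => rw [sub_eq_add_neg, Pi.single_add]; exact hadd _ _ ih (h2 j)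

/-- The inverses of the coordinates in `I`. -/
def invs (I : Set (Fin n)) : Set F := {y | ∃ i ∈ I, y = ((𝔸.w i)⁻¹ : Fˣ)}

/-- An additive map on a cell is controlled by its values on monomials. -/
theorem cell_ind {Y : Type} [AddCommGroup Y] (T : F →+ Y) (H : AddSubgroup Y) {I : Set (Fin n)}
    (h : ∀ c ∈ 𝔸.V, ∀ m : Fin n → ℤ, (∀ i ∉ I, 0 ≤ m i) → T (algebraMap K F c * mon 𝔸 m) ∈ H)
    {y : F} (hy : y ∈ 𝔸.cell (invs 𝔸 I)) : T y ∈ H := by
  let S : Set F := {y | ∃ c ∈ 𝔸.V, ∃ m : Fin n → ℤ, (∀ i ∉ I, 0 ≤ m i) ∧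
    y = algebraMap K F c * mon 𝔸 m}
  have h1 : (1 : F) ∈ S := ⟨1, one_mem _, 0, fun _ _ => le_rfl, by simp [mon_zero]⟩
  have hS : y ∈ AddSubgroup.closure S := by
    induction hy using Subring.closure_induction with
    | mem x hx =>
      refine AddSubgroup.subset_closure ?_
      rcases hx with (⟨c, hc, rfl⟩ | ⟨j, rfl⟩) | ⟨j, hj, rfl⟩
      · exact ⟨c, hc, 0, fun _ _ => le_rfl, by simp [mon_zero]⟩
      · exact ⟨1, one_mem _, Pi.single j 1, fun i _ => by
          rw [Pi.single_apply]; split_ifs <;> simp, by simp [mon_single]⟩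
      · exact ⟨1, one_mem _, Pi.single j (-1), fun i hi => by
          rw [Pi.single_eq_of_ne fun e : i = j => hi (e ▸ hj)], by simp [mon_single]⟩
    | zero => exact zero_mem _
    | one => exact AddSubgroup.subset_closure h1
    | add x y _ _ hx hy => exact add_mem hx hy
    | neg x _ hx => exact neg_mem hx
    | mul x y hx' hy' hx hy =>
      clear hx' hy'
      induction hx, hy using AddSubgroup.closure_induction₂ with
      | mem x y hx hy =>
        obtain ⟨c, hc, m, hm, rfl⟩ := hx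
        obtain ⟨c', hc', m', hm', rfl⟩ := hy
        exact AddSubgroup.subset_closure ⟨c * c', mul_mem hc hc', m + m',
          fun i hi => add_nonneg (hm i hi) (hm' i hi), by rw [mon_add, map_mul]; ring⟩
      | zero_left => simp
      | zero_right => simp
      | add_left x y z _ _ _ h h' => rw [add_mul]; exact add_mem h h'
      | add_right x y z _ _ _ h h' => rw [mul_add]; exact add_mem h h'
      | neg_left x y _ _ h => rw [neg_mul]; exact neg_mem h
      | neg_right x y _ _ h => rw [mul_neg]; exact neg_mem h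
  refine (AddSubgroup.closure_le (H.comap T)).mpr ?_ hS
  rintro _ ⟨c, hc, m, hm, rfl⟩
  exact h c hc m hm

theorem res_mul (c : K) (y : F) : 𝔸.res (algebraMap K F c * y) = c * 𝔸.res y := by
  rw [← Algebra.smul_def, map_smul, smul_eq_mul]

theorem eq_mul (a : ℤ) (y : F) :
    y = algebraMap K F ((𝔸.π ^ a : Kˣ) : K) * (((𝔸.ϖ ^ (-a) : Fˣ) : F) * y) := by
  rw [← 𝔸.ϖ_zpow, ← mul_assoc, zpow_val_neg, one_mul]

variable {𝔸} {I : Set (Fin n)} {a : ℤ} {y : F}

theorem res_fil (hy : y ∈ fil 𝔸.ϖ (𝔸.cell (invs 𝔸 I)) a) : 𝔸.res y ∈ fil 𝔸.π 𝔸.V a := by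
  have h := cell_ind 𝔸 𝔸.res.toAddMonoidHom 𝔸.V.toAddSubgroup (fun c hc m _ => by
    change 𝔸.res _ ∈ 𝔸.V
    rw [res_mul, res_mon]
    split_ifs
    · rwa [mul_one]
    · rw [mul_zero]
      exact zero_mem _) hy
  rw [eq_mul 𝔸 a y, res_mul]
  simpa using fil_mul (zpow_mem_fil 𝔸.π 𝔸.V a) (fil_zero.2 h)

theorem res_zero {i : Fin n} (hi : i ∉ I) (hy : y ∈ fil 𝔸.ϖ (𝔸.cell (invs 𝔸 I)) a) :
    𝔸.res y = 0 := by
  have h := cell_ind 𝔸 𝔸.res.toAddMonoidHom ⊥ (fun c hc m hm => by
    change 𝔸.res _ = 0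
    rw [res_mul, res_mon, if_neg, mul_zero]
    rintro rfl
    exact absurd (hm i hi) (by simp)) hy
  rw [eq_mul 𝔸 a y, res_mul]
  exact mul_eq_zero_of_right _ h

theorem res_δ (i : Fin n) (hy : y ∈ fil 𝔸.ϖ (𝔸.cell (invs 𝔸 I)) a) : 𝔸.res (𝔸.δ i y) = 0 := by
  have hc : ∀ (c : K) y, 𝔸.δ i (algebraMap K F c * y) = algebraMap K F c * 𝔸.δ i y :=
    fun c y => by rw [𝔸.der.leib, 𝔸.δ_c, zero_mul, zero_add]
  have h := cell_ind 𝔸 (𝔸.res.toAddMonoidHom.comp (𝔸.δ i)) ⊥ (fun c _ m _ => by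
    change 𝔸.res (𝔸.δ i _) = 0
    rw [hc, res_mul, δ_mon, ← map_intCast (algebraMap K F), res_mul, res_mon]
    split_ifs with h
    · have : m i = 0 := by simpa using congrFun h i
      simp [this]
    · simp) hy
  rw [eq_mul 𝔸 a y, hc, res_mul]
  exact mul_eq_zero_of_right _ h

end Cell

section Int

variable {J K : Type} [Field K] [CharZero K] [Fintype J] [DecidableEq J]

/-- Integration over the unit cube. -/
def intP : MvPolynomial J K →ₗ[K] K :=
  (basisMonomials J K).constr K fun m => ∏ j, ((m j + 1 : ℕ) : K)⁻¹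

omit [CharZero K] [DecidableEq J] in
theorem intP_monomial (m : J →₀ ℕ) (c : K) :
    intP (monomial m c) = c * ∏ j, ((m j + 1 : ℕ) : K)⁻¹ := by
  have : monomial m c = c • basisMonomials J K m := by simp [smul_monomial]
  rw [this, map_smul, intP, Module.Basis.constr_basis, smul_eq_mul]

omit [Fintype J] [CharZero K] in
theorem rC_fj_monomial (j : J) (b : Bool) (m : J →₀ ℕ) (c : K) :
    rC K (fj j b) (monomial m c) = (if b then 1 else 0) ^ m j * monomial (m.erase j) c := by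
  have h : ∀ m : J →₀ ℕ, m j = 0 → rC K (fj j b) (monomial m c) = monomial m c := fun m hm => by
    rw [monomial_eq, map_mul, rC_C, Finsupp.prod, map_prod]
    congr 1
    refine Finset.prod_congr rfl fun k hk => ?_
    have : k ≠ j := fun e => (Finsupp.mem_support_iff.mp hk) (e ▸ hm)
    rw [map_pow, rC_X, rv_none (by simp [fj, this])]
  conv_lhs => rw [← Finsupp.single_add_erase j m, monomial_single_add, map_mul, map_pow, rC_X,
    h _ Finsupp.erase_same]
  simp [rv, fj]

theorem intP_pderiv (j : J) (P : MvPolynomial J K) :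
    intP (pderiv j P) = intP (rC K (fj j true) P) - intP (rC K (fj j false) P) := by
  induction P using MvPolynomial.induction_on' with
  | add p q hp hq => simp only [map_add, hp, hq]; ring
  | monomial m c =>
    rw [pderiv_monomial, rC_fj_monomial, rC_fj_monomial]
    rcases h : m j with _ | k
    · simp
    · have e : ∀ (m' : J →₀ ℕ), (∀ i, i ≠ j → m' i = m i) → ∏ i, ((m' i + 1 : ℕ) : K)⁻¹ =
          ((m' j + 1 : ℕ) : K)⁻¹ * ∏ i ∈ Finset.univ.erase j, ((m i + 1 : ℕ) : K)⁻¹ := by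
        intro m' hm'
        rw [← Finset.mul_prod_erase _ _ (Finset.mem_univ j)]
        exact congrArg _ (Finset.prod_congr rfl fun i hi => by rw [hm' i (Finset.ne_of_mem_erase hi)])
      simp only [if_true, one_pow, one_mul, Bool.false_eq_true, if_false, zero_pow k.succ_ne_zero,
        zero_mul, map_zero, sub_zero, intP_monomial]
      rw [e _ fun i hi => by simp [Finsupp.single_eq_of_ne hi],
        e _ fun i hi => Finsupp.erase_ne hi]
      have : ((k + 1 : ℕ) : K) ≠ 0 := Nat.cast_ne_zero.mpr k.succ_ne_zero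
      simp only [Finsupp.coe_tsub, Pi.sub_apply, h, Finsupp.single_eq_same, Nat.add_sub_cancel,
        Finsupp.erase_same]
      field_simp
      simp

end Int

end ARc

end Pool.Agent.P.MP_f43029_ag.XL
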