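import Pool.Agent.P.MP_f43029_ag.XL.AGeo

/-! Exact lifts: block A (asymptotic Thom-Whitney algebras) in one import. -/
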