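import Pool.Agent.P.MP_f43029_ag.XL.AsymPre

/-!
Exact lifts, asymptotic Thom-Whitney algebras: definitions.
-/

set_option autoImplicit false

noncomputable section

namespace Pool.Agent.P.MP_f43029_ag.XL

open Pool.Agent.Theta Filter MvPolynomial

namespace Fil

variable {P Ω P' Ω' : Type} [CommRing P] [Algebra ℚ P] [Ring Ω] [Algebra ℚ Ω] [CommRing P']
  [Algebra ℚ P'] [Ring Ω'] [Algebra ℚ Ω']

/-- Filtrations that are compatible with a differential graded algebra. -/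
structure Cp (F : Fil P) (E : Fil Ω) (G : DG P Ω) : Prop where
  i : F.Bd E.toAFil G.i
  d : E.Bd E.toAFil G.d
  ε : E.Bd E.toAFil G.ε

/-- The asymptotic differential graded algebra. -/
def toDG {F : Fil P} {E : Fil Ω} {G : DG P Ω} (h : Cp F E G) : DG F.Q E.Q where
  i := F.mapR E G.i h.i
  d := E.map E G.d h.d
  ε := E.mapR E G.ε h.ε
  Fd r :=
    { carrier := {x | ∃ w hw, E.cl w hw = x ∧ ∀ m, w m ∈ G.Fd r}
      zero_mem' := ⟨0, zero_mem _, rfl, fun _ => zero_mem _⟩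
      add_mem' := by
        rintro _ _ ⟨w, hw, rfl, h⟩ ⟨w', hw', rfl, h'⟩
        exact ⟨w + w', add_mem hw hw', rfl, fun m => add_mem (h m) (h' m)⟩
      neg_mem' := by
        rintro _ ⟨w, hw, rfl, h⟩
        exact ⟨-w, neg_mem hw, rfl, fun m => neg_mem (h m)⟩ }
  comm a ω := by
    induction a using ind
    induction ω using ind
    exact cl_congr' fun m => G.comm _ _
  ε_i a := by
    induction a using ind
    exact cl_congr' fun m => G.ε_i _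
  ε_d ω := by
    induction ω using ind
    exact cl_congr' fun m => G.ε_d _
  d_mul x y := by
    induction x using ind
    induction y using ind
    exact cl_congr' fun m => G.d_mul _ _
  d_d ω := by
    induction ω using ind
    exact cl_congr' fun m => G.d_d _
  d_comm a ω := by
    induction a using ind
    induction ω using ind
    exact cl_congr' fun m => G.d_comm _ _
  d_sq a := by
    induction a using ind
    exact cl_congr' fun m => G.d_sq _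
  Fd_zero ω := by
    induction ω using ind with | h w hw
    exact ⟨w, hw, rfl, fun _ => G.Fd_zero _⟩
  Fd_mul := by
    rintro r s _ _ ⟨w, hw, rfl, h⟩ ⟨w', hw', rfl, h'⟩
    exact ⟨w * w', E.seq_mul hw hw', rfl, fun m => G.Fd_mul _ _ _ _ (h m) (h' m)⟩
  Fd_d a := by
    induction a using ind with | h w hw
    exact ⟨_, _, rfl, fun m => G.Fd_d _⟩
  Fd_anti := by
    rintro r s hrs _ ⟨w, hw, rfl, h⟩
    exact ⟨w, hw, rfl, fun m => G.Fd_anti _ _ hrs (h m)⟩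

/-- The morphism induced by a bounded morphism. -/
def toHom {F : Fil P} {E : Fil Ω} {G : DG P Ω} (h : Cp F E G) {F' : Fil P'} {E' : Fil Ω'}
    {G' : DG P' Ω'} (h' : Cp F' E' G') (φ : G.Hom G') (ha : F.Bd F'.toAFil φ.a)
    (ho : E.Bd E'.toAFil φ.o) : (toDG h).Hom (toDG h') where
  a := F.mapR F' φ.a ha
  o := E.mapR E' φ.o ho
  o_i x := by
    induction x using ind
    exact cl_congr' fun m => φ.o_i _
  o_d ω := by
    induction ω using ind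
    exact cl_congr' fun m => φ.o_d _

end Fil

namespace Amb

variable {n : ℕ} {K F : Type} [Field K] [Field F] [CharZero K] [CharZero F] [Algebra K F]
  (𝔸 : Amb n K F)

/-- The pseudo-uniformiser in `F`. -/
def ϖ : Fˣ := Units.map (algebraMap K F).toMonoidHom 𝔸.π

/-- The constants in `F`. -/
def VF : Subring F := 𝔸.V.map (algebraMap K F)

/-- The cell generated by a set. -/
def cell (G : Set F) : Subring F :=
  Subring.closure ((𝔸.VF : Set F) ∪ Set.range (fun i => (𝔸.w i : F)) ∪ G)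

theorem ϖ_mem : (𝔸.ϖ : F) ∈ 𝔸.VF := ⟨_, 𝔸.π_mem, rfl⟩

theorem ϖ_zpow (a : ℤ) : ((𝔸.ϖ ^ a : Fˣ) : F) = algebraMap K F ((𝔸.π ^ a : Kˣ) : K) := by
  rw [ϖ, ← map_zpow]
  rfl

theorem map_mem_fil {a : ℤ} {y : K} (h : y ∈ fil 𝔸.π 𝔸.V a) :
    algebraMap K F y ∈ fil 𝔸.ϖ 𝔸.VF a := ⟨_, h, by rw [map_mul, ϖ_zpow]⟩

theorem inv_nat_mem (N j : ℕ) (h : N ≤ 2 ^ j) :
    ((N : F))⁻¹ ∈ fil 𝔸.ϖ 𝔸.VF (-((𝔸.M * j : ℕ) : ℤ)) := by
  simpa using 𝔸.map_mem_fil (𝔸.inv_nat N j h)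

theorem rat_mem (r : ℚ) : ∃ a, (r : F) ∈ fil 𝔸.ϖ 𝔸.VF a := by
  rw [Rat.cast_def, div_eq_mul_inv, ← zsmul_eq_mul]
  exact ⟨_, AddSubgroup.zsmul_mem _ (𝔸.inv_nat_mem _ _ Nat.lt_two_pow_self.le) _⟩

theorem δ_ϖ_zpow (i : Fin n) (a : ℤ) (y : F) :
    𝔸.δ i (((𝔸.ϖ ^ a : Fˣ) : F) * y) = ((𝔸.ϖ ^ a : Fˣ) : F) * 𝔸.δ i y := by
  rw [𝔸.der.leib, ϖ_zpow, 𝔸.δ_c, zero_mul, zero_add]

variable {𝔸} in
theorem VF_le_cell (G : Set F) : 𝔸.VF ≤ 𝔸.cell G := fun _ h =>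
  Subring.subset_closure (Or.inl (Or.inl h))

theorem w_mem_cell (G : Set F) (i : Fin n) : (𝔸.w i : F) ∈ 𝔸.cell G :=
  Subring.subset_closure (Or.inl (Or.inr ⟨i, rfl⟩))

theorem mem_cell {G : Set F} {y : F} (h : y ∈ G) : y ∈ 𝔸.cell G := Subring.subset_closure (Or.inr h)

theorem δ_inv (i : Fin n) (h : Fˣ) :
    𝔸.δ i ((h⁻¹ : Fˣ) : F) = -(((h⁻¹ : Fˣ) : F) * ((h⁻¹ : Fˣ) : F) * 𝔸.δ i h) := by
  have h1 : 𝔸.δ i 1 = 0 := by simpa using 𝔸.δ_c i 1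
  have h2 := 𝔸.der.leib i (h : F) ((h⁻¹ : Fˣ) : F)
  rw [Units.mul_inv, h1] at h2
  have h3 : ((h⁻¹ : Fˣ) : F) * h = 1 := Units.inv_mul h
  linear_combination (-((h⁻¹ : Fˣ) : F)) * h2 - 𝔸.δ i ((h⁻¹ : Fˣ) : F) * h3

/-- The derivations are bounded on a cell as soon as they are bounded on the generators. -/
theorem δ_cell {G : Set F} {e : ℕ} {i : Fin n}
    (hG : ∀ y ∈ G, 𝔸.δ i y ∈ fil 𝔸.ϖ (𝔸.cell G) (-(e : ℤ))) {y : F} (hy : y ∈ 𝔸.cell G) :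
    𝔸.δ i y ∈ fil 𝔸.ϖ (𝔸.cell G) (-(e : ℤ)) := by
  have h1 : (1 : F) ∈ fil 𝔸.ϖ (𝔸.cell G) (-(e : ℤ)) :=
    fil_anti (𝔸.VF_le_cell G 𝔸.ϖ_mem) (by omega) (fil_zero.2 (one_mem _))
  induction hy using Subring.closure_induction with
  | mem x hx =>
    rcases hx with (⟨c, -, rfl⟩ | ⟨j, rfl⟩) | hx
    · rw [𝔸.δ_c]
      exact zero_mem _
    · rw [𝔸.δ_w]
      split_ifs
      exacts [h1, zero_mem _]
    · exact hG x hx
  | zero => simp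
  | one =>
    rw [show 𝔸.δ i 1 = 0 by simpa using 𝔸.δ_c i 1]
    exact zero_mem _
  | add x y _ _ hx hy => exact map_add (𝔸.δ i) x y ▸ add_mem hx hy
  | neg x _ hx => exact map_neg (𝔸.δ i) x ▸ neg_mem hx
  | mul x y hx' hy' hx hy =>
    rw [𝔸.der.leib]
    exact add_mem (by simpa using fil_mul hx (fil_zero (B := 𝔸.cell G).2 hy'))
      (by simpa using fil_mul (fil_zero (B := 𝔸.cell G).2 hx') hy)

theorem δ_fil {B : Subring F} {e : ℕ} {i : Fin n}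
    (h : ∀ y ∈ B, 𝔸.δ i y ∈ fil 𝔸.ϖ B (-(e : ℤ))) {a : ℤ} {y : F} (hy : y ∈ fil 𝔸.ϖ B a) :
    𝔸.δ i y ∈ fil 𝔸.ϖ B (a - e) := by
  have h1 := fil_mul (zpow_mem_fil 𝔸.ϖ B a) (h _ hy)
  rwa [δ_ϖ_zpow, ← mul_assoc, ← Units.val_mul, ← zpow_add, add_neg_cancel, zpow_zero,
    Units.val_one, one_mul, ← sub_eq_add_neg] at h1

/-- All first derivatives on the coefficient ring. -/
def derC (J : Type) : Fin n ⊕ J → MvPolynomial J F →+ MvPolynomial J F :=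
  Sum.elim (fun i => mpa (𝔸.δ i)) fun j => (pderiv j).toLinearMap.toAddMonoidHom

@[simp] theorem derC_inl {J : Type} (i : Fin n) (P : MvPolynomial J F) :
    𝔸.derC J (Sum.inl i) P = mpa (𝔸.δ i) P := rfl

@[simp] theorem derC_inr {J : Type} (j : J) (P : MvPolynomial J F) :
    𝔸.derC J (Sum.inr j) P = pderiv j P := rfl

theorem isDer_derC (J : Type) : IsDer (𝔸.derC J) where
  leib i a b := by
    classical
    rcases i with i | j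
    · ext m
      simp only [derC_inl, coeff_mpa, coeff_mul, map_sum, coeff_add, 𝔸.der.leib,
        Finset.sum_add_distrib]
    · exact pderiv_mul
  comm i j a := by
    rcases i with i | i <;> rcases j with j | j
    · ext m
      exact 𝔸.der.comm _ _ _
    · exact (pderiv_mpa _ _ _).symm
    · exact pderiv_mpa _ _ _
    · exact pderiv_comm _ _ _

/-- The exterior derivative on the ambient forms. -/
def dF (J : Type) [Fintype J] [DecidableEq J] : Fm n J F →+ Fm n J F := Gr.dd (𝔸.derC J)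

theorem rO_dF {J : Type} [Fintype J] [DecidableEq J] (σ : Face J) (ω : Fm n J F) :
    rO σ (𝔸.dF J ω) = 𝔸.dF J (rO σ ω) := by
  refine rO_dd σ (fun i P hi => ?_) (fun i P hi => ?_) ω
  · rcases i with i | j
    · exact (rC_mpa _ _ _).symm
    · exact pderiv_rC_of_none (by simpa using hi) P
  · rcases i with i | j
    · exact absurd hi (by simp)
    · exact pderiv_rC_of_ne (by simpa using hi) P

/-- The ambient differential graded algebra. -/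
def dgF (J : Type) [Fintype J] [DecidableEq J] : DG (MvPolynomial J F) (Fm n J F) where
  i := Gr.of0
  d := 𝔸.dF J
  ε := Gr.inv
  Fd r :=
    { carrier := {ω | ∀ I, I.card < r → ω I = 0}
      zero_mem' := fun _ _ => rfl
      add_mem' := fun h h' I hI => by rw [Gr.add_apply, h I hI, h' I hI, add_zero]
      neg_mem' := fun h I hI => by rw [Gr.neg_apply, h I hI, neg_zero] }
  comm a ω := Algebra.commutes a ω
  ε_i := Gr.inv_of0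
  ε_d := Gr.inv_dd _
  d_mul := Gr.dd_mul (𝔸.isDer_derC J)
  d_d := Gr.dd_dd (𝔸.isDer_derC J)
  d_comm a := Gr.comm_of_deg_one (Gr.proj_one_dd_of0 _ a)
  d_sq a := by
    have h1 := Gr.proj_one_dd_of0 (𝔸.derC J) a
    have h2 := Gr.comm_of_deg_one h1 (Gr.dd (𝔸.derC J) (Gr.of0 a))
    rw [Gr.inv_of_deg_one h1, neg_mul] at h2
    ext1 I
    exact CharZero.eq_neg_self_iff.1 (congrFun h2 I)
  Fd_zero _ _ h := absurd h (Nat.not_lt_zero _)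
  Fd_mul r s x y h h' I hI := by
    rw [Gr.mul_apply]
    refine Finset.sum_eq_zero fun T hT => ?_
    have := Finset.card_sdiff_add_card_eq_card (Finset.mem_powerset.1 hT)
    by_cases h1 : T.card < r
    · rw [h T h1, zero_mul, mul_zero]
    · rw [h' _ (by omega), mul_zero, mul_zero]
  Fd_d a I hI := by
    change Gr.dd _ (Gr.of0 a) I = 0
    rw [← Gr.proj_one_dd_of0, Gr.proj_apply, if_neg hI.ne]
  Fd_anti _ _ hrs _ h I hI := h I (hI.trans_le hrs)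

/-- The identity of the ambient algebra. -/
def idF (J : Type) [Fintype J] [DecidableEq J] : (𝔸.dgF J).Hom (𝔸.dgF J) where
  a := RingHom.id _
  o := RingHom.id _
  o_i _ := rfl
  o_d _ := rfl

/-- Restriction to a face on the ambient algebra. -/
def rF {J : Type} [Fintype J] [DecidableEq J] (σ : Face J) : (𝔸.dgF J).Hom (𝔸.dgF J) where
  a := rC F σ
  o := rO σ
  o_i := rO_of0 σ
  o_d := 𝔸.rO_dF σ

/-- A system of coefficient rings on the faces of a cube. -/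
@[ext] structure Sys (J : Type) where
  B : Face J → Subring F
  V_le : ∀ σ, 𝔸.VF ≤ B σ
  stab : ∃ e : ℕ, ∀ σ i, ∀ y ∈ B σ, 𝔸.δ i y ∈ fil 𝔸.ϖ (B σ) (-(e : ℤ))

/-- The ring `B[1/π]`. -/
def loc (B : Subring F) : Subring F := Subring.closure ((B : Set F) ∪ {((𝔸.ϖ⁻¹ : Fˣ) : F)})

/-- The pseudo-uniformiser in `B[1/π]`. -/
def πL (B : Subring F) (h : 𝔸.VF ≤ B) : (𝔸.loc B)ˣ where
  val := ⟨𝔸.ϖ, Subring.subset_closure (Or.inl (h ⟨_, 𝔸.π_mem, rfl⟩))⟩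
  inv := ⟨((𝔸.ϖ⁻¹ : Fˣ) : F), Subring.subset_closure (Or.inr rfl)⟩
  val_inv := Subtype.ext (by simp)
  inv_val := Subtype.ext (by simp)

/-- The elements of `B[1/π]` that are integral over `B`. -/
def Bplus (B : Subring F) : Subring (𝔸.loc B) :=
  (integralClosure B F).toSubring.comap (𝔸.loc B).subtype

variable {𝔸} {J : Type}

theorem mem_loc {B : Subring F} (hB : 𝔸.VF ≤ B) {y : F} :
    y ∈ 𝔸.loc B ↔ ∃ a : ℤ, y ∈ fil 𝔸.ϖ B a := by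
  have hϖ := hB 𝔸.ϖ_mem
  constructor
  · intro hy
    induction hy using Subring.closure_induction with
    | mem x hx =>
      rcases hx with hx | rfl
      · exact ⟨0, fil_zero.2 hx⟩
      · exact ⟨-1, by simpa using zpow_mem_fil 𝔸.ϖ B (-1)⟩
    | zero => exact ⟨0, zero_mem _⟩
    | one => exact ⟨0, fil_zero.2 (one_mem _)⟩
    | add x y _ _ hx hy =>
      obtain ⟨a, ha⟩ := hx
      obtain ⟨b, hb⟩ := hy
      exact ⟨min a b, add_mem (fil_anti hϖ (min_le_left _ _) ha)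
        (fil_anti hϖ (min_le_right _ _) hb)⟩
    | neg x _ hx => exact hx.imp fun _ h => neg_mem h
    | mul x y _ _ hx hy =>
      obtain ⟨a, ha⟩ := hx
      obtain ⟨b, hb⟩ := hy
      exact ⟨_, fil_mul ha hb⟩
  · rintro ⟨a, ha⟩
    have h1 : y = ((𝔸.ϖ ^ a : Fˣ) : F) * (((𝔸.ϖ ^ (-a) : Fˣ) : F) * y) := by
      rw [← mul_assoc, ← Units.val_mul, ← zpow_add]
      simp
    rw [h1]
    refine mul_mem ?_ (Subring.subset_closure (Or.inl ha))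
    obtain ⟨m, rfl | rfl⟩ := a.eq_nat_or_neg
    · rw [zpow_natCast, Units.val_pow_eq_pow_val]
      exact (𝔸.loc B).pow_mem (Subring.subset_closure (Or.inl hϖ)) m
    · rw [zpow_neg, zpow_natCast, ← inv_pow, Units.val_pow_eq_pow_val]
      exact (𝔸.loc B).pow_mem (Subring.subset_closure (Or.inr rfl)) m

theorem loc_mono {B B' : Subring F} (h : B ≤ B') : 𝔸.loc B ≤ 𝔸.loc B' :=
  Subring.closure_mono (Set.union_subset_union_left _ h)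

theorem cell_mono {G G' : Set F} (h : G ⊆ G') : 𝔸.cell G ≤ 𝔸.cell G' :=
  Subring.closure_mono (Set.union_subset_union_right _ h)

instance : LE (𝔸.Sys J) := ⟨fun 𝔅 𝔅' => ∀ σ, 𝔅.B σ ≤ 𝔅'.B σ⟩

/-- The system is monotone in the face. -/
def Sys.Mono (𝔅 : 𝔸.Sys J) : Prop := ∀ σ σ', Face.le σ σ' → 𝔅.B σ ≤ 𝔅.B σ'

open Classical in
/-- Keep only the conditions on the faces in `Σ`. -/
def Sys.on (𝔅 : 𝔸.Sys J) (s : Set (Face J)) : 𝔸.Sys J where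
  B σ := if σ ∈ s then 𝔅.B σ else ⊤
  V_le σ := by
    split_ifs
    · exact 𝔅.V_le σ
    · exact le_top
  stab := by
    obtain ⟨e, he⟩ := 𝔅.stab
    refine ⟨e, fun σ i y hy => ?_⟩
    split_ifs at hy ⊢
    · exact he σ i y hy
    · exact Subring.mem_top _

/-- Freeze the coordinate `j`. -/
def Sys.upd [DecidableEq J] (𝔅 : 𝔸.Sys J) (j : J) (b : Bool) : 𝔸.Sys J where
  B σ := 𝔅.B (Function.update σ j (some b))
  V_le _ := 𝔅.V_le _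
  stab := by
    obtain ⟨e, he⟩ := 𝔅.stab
    exact ⟨e, fun σ i y hy => he _ i y hy⟩

/-- The coefficient rings do not depend on the coordinate `j`. -/
def Sys.Free [DecidableEq J] (𝔅 : 𝔸.Sys J) (j : J) : Prop :=
  ∀ σ o, 𝔅.B (Function.update σ j o) = 𝔅.B σ

namespace Sys

/-- The filtration by powers of the pseudo-uniformiser. -/
def G (𝔅 : 𝔸.Sys J) (a : ℤ) : Face J → AddSubgroup F := fun σ => fil 𝔸.ϖ (𝔅.B σ) a

theorem G_anti (𝔅 : 𝔸.Sys J) {a b : ℤ} (h : a ≤ b) (σ : Face J) : 𝔅.G b σ ≤ 𝔅.G a σ :=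
  fil_anti (𝔅.V_le σ 𝔸.ϖ_mem) h

theorem G_le {𝔅 𝔅' : 𝔸.Sys J} {σ σ' : Face J} (h : 𝔅.B σ ≤ 𝔅'.B σ') (a : ℤ) :
    𝔅.G a σ ≤ 𝔅'.G a σ' := fil_mono _ h a

/-- The filtration on polynomials. -/
def fC (𝔅 : 𝔸.Sys J) : Fil (MvPolynomial J F) where
  B D a := FilC D (𝔅.G a)
  mono hD ha := fun _ h σ => cd_mono hD (𝔅.G_anti ha σ) (h σ)
  mul h h' := fun σ => by
    rw [map_mul]
    exact cd_mul (fun _ hx _ hy => fil_mul hx hy) (h σ) (h' σ)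
  one := fun σ => by
    rw [map_one, ← C_1]
    exact C_mem_cd (fil_zero.2 (one_mem _)) 0
  rat r := by
    obtain ⟨a, ha⟩ := 𝔸.rat_mem r
    refine ⟨0, a, fun σ => ?_⟩
    change rC F σ (C (r : F)) ∈ _
    rw [rC_C]
    exact C_mem_cd (fil_mono _ (𝔅.V_le σ) a ha) 0

theorem mem_fC {𝔅 : 𝔸.Sys J} {D : ℕ} {a : ℤ} {P : MvPolynomial J F} :
    P ∈ 𝔅.fC.B D a ↔ ∀ σ, rC F σ P ∈ cd D (𝔅.G a σ) := Iff.rfl

theorem C_mem_fC (𝔅 : 𝔸.Sys J) {a : ℤ} {y : F} (h : ∀ σ, y ∈ 𝔅.G a σ) :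
    (C y : MvPolynomial J F) ∈ 𝔅.fC.B 0 a := fun σ => by
  rw [rC_C]
  exact C_mem_cd (h σ) 0

theorem zP_mul_mem {𝔅 𝔅' : 𝔸.Sys J} (P : MvPolynomial J ℤ)
    (h : ∀ σ, rC ℤ σ P = 0 ∨ 𝔅'.B σ ≤ 𝔅.B σ) {D : ℕ} {a : ℤ} {x : MvPolynomial J F}
    (hx : x ∈ 𝔅'.fC.B D a) : zP F P * x ∈ 𝔅.fC.B (D + P.totalDegree) a := fun σ => by
  rw [map_mul, rC_map]
  rcases h σ with h | h
  · rw [h, map_zero, zero_mul]
    exact zero_mem _
  · exact cd_mono (by have := totalDegree_rC_le σ P; omega) (G_le h a) (zP_mul_cd _ (hx σ))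

theorem zP_mem_fC (𝔅 : 𝔸.Sys J) (P : MvPolynomial J ℤ) : zP F P ∈ 𝔅.fC.B P.totalDegree 0 := by
  simpa using zP_mul_mem P (fun _ => Or.inr le_rfl) 𝔅.fC.one

theorem le_mem_fC {𝔅 𝔅' : 𝔸.Sys J} (h : 𝔅 ≤ 𝔅') (D : ℕ) (a : ℤ) (x : MvPolynomial J F)
    (hx : x ∈ 𝔅.fC.B D a) : x ∈ 𝔅'.fC.B D a := fun σ => cd_mono le_rfl (G_le (h σ) a) (hx σ)

theorem ev_mem_fC [DecidableEq J] {𝔅 𝔅' : 𝔸.Sys J} {j : J} {b : Bool} (h : 𝔅.upd j b ≤ 𝔅')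
    (D : ℕ) (a : ℤ) (x : MvPolynomial J F) (hx : x ∈ 𝔅.fC.B D a) :
    rC F (fj j b) x ∈ 𝔅'.fC.B D a := fun σ => by
  rw [rC_fj]
  exact cd_mono le_rfl (G_le (h σ) a) (hx _)

variable (𝔸 J) in
/-- The pseudo-uniformiser as a polynomial. -/
def ϖC : (MvPolynomial J F)ˣ := Units.map (C : F →+* MvPolynomial J F).toMonoidHom 𝔸.ϖ

theorem unif (𝔅 : 𝔸.Sys J) : 𝔅.fC.Unif (ϖC 𝔸 J) := fun D a x => by
  constructor
  · intro hx
    have h1 : (C (𝔸.ϖ : F) : MvPolynomial J F) ∈ 𝔅.fC.B 0 1 :=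
      𝔅.C_mem_fC fun σ => by simpa [G] using zpow_mem_fil 𝔸.ϖ (𝔅.B σ) 1
    have := 𝔅.fC.mul h1 hx
    rwa [zero_add, add_comm] at this
  · intro hx
    have h1 : (C ((𝔸.ϖ⁻¹ : Fˣ) : F) : MvPolynomial J F) ∈ 𝔅.fC.B 0 (-1) :=
      𝔅.C_mem_fC fun σ => by simpa [G] using zpow_mem_fil 𝔸.ϖ (𝔅.B σ) (-1)
    have := 𝔅.fC.mul h1 hx
    change _ * (C (𝔸.ϖ : F) * x) ∈ _ at this
    rwa [← mul_assoc, ← C_mul, Units.inv_mul, C_1, one_mul, zero_add, neg_add_cancel_comm_assoc]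
      at this

/-- The asymptotic ring of functions. -/
def A (𝔅 : 𝔸.Sys J) : Type := 𝔅.fC.Q

instance (𝔅 : 𝔸.Sys J) : CommRing 𝔅.A := inferInstanceAs (CommRing 𝔅.fC.Q)

/-- Integer polynomials in the cube variables as functions. -/
def pA (𝔅 : 𝔸.Sys J) : MvPolynomial J ℤ →+* 𝔅.A :=
  𝔅.fC.cst.comp ((zP F).codRestrict 𝔅.fC.fin fun P => ⟨_, _, 𝔅.zP_mem_fC P⟩)

theorem C_mem_fin (𝔅 : 𝔸.Sys J) {B : Subring F} (h : ∀ σ, B ≤ 𝔅.B σ) (y : 𝔸.loc B) :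
    (C (y : F) : MvPolynomial J F) ∈ 𝔅.fC.fin := by
  obtain ⟨y, hy⟩ := y
  induction hy using Subring.closure_induction with
  | mem x hx =>
    rcases hx with hx | rfl
    · exact ⟨0, 0, 𝔅.C_mem_fC fun σ => fil_zero.2 (h σ hx)⟩
    · exact ⟨0, -1, 𝔅.unif.inv_mem⟩
  | zero => simp
  | one => simp
  | add x y _ _ hx hy => exact C_add (σ := J) (a := x) (a' := y) ▸ add_mem hx hy
  | neg x _ hx => exact C_neg J x ▸ neg_mem hx
  | mul x y _ _ hx hy => exact C_mul (σ := J) (a := x) (a' := y) ▸ mul_mem hx hy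

/-- Constants from a ring that is contained in all coefficient rings. -/
def cF (𝔅 : 𝔸.Sys J) (B : Subring F) (h : ∀ σ, B ≤ 𝔅.B σ) : 𝔸.loc B →+* 𝔅.A :=
  𝔅.fC.cst.comp (((C : F →+* MvPolynomial J F).comp (𝔸.loc B).subtype).codRestrict
    𝔅.fC.fin (𝔅.C_mem_fin h))

/-- The bounded structure on the asymptotic ring. -/
def bdd (𝔅 : 𝔸.Sys J) : Bdd 𝔅.A := 𝔅.fC.bdd 𝔅.unif

/-- The map of function rings for larger coefficient rings. -/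
def mpA {𝔅 𝔅' : 𝔸.Sys J} (h : 𝔅 ≤ 𝔅') : 𝔅.A →+* 𝔅'.A :=
  𝔅.fC.mapR 𝔅'.fC (RingHom.id _) (AFil.Bd.of_strict (le_mem_fC h))

/-- Evaluation of the coordinate `j` on functions. -/
def evA [DecidableEq J] {𝔅 𝔅' : 𝔸.Sys J} (j : J) (b : Bool) (h : 𝔅.upd j b ≤ 𝔅') :
    𝔅.A →+* 𝔅'.A :=
  𝔅.fC.mapR 𝔅'.fC (rC F (fj j b)) (AFil.Bd.of_strict (ev_mem_fC h))

/-- Multiplication by an integer polynomial that vanishes where the coefficients are too big. -/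
def gl {𝔅 𝔅' : 𝔸.Sys J} (P : MvPolynomial J ℤ)
    (h : ∀ σ, rC ℤ σ P = 0 ∨ 𝔅'.B σ ≤ 𝔅.B σ) : 𝔅'.A →+ 𝔅.A :=
  𝔅'.fC.map 𝔅.fC (AddMonoidHom.mulLeft (zP F P))
    (AFil.Bd.of_shift P.totalDegree 0 fun D a x hx => by simpa using zP_mul_mem P h hx)

variable [Fintype J] [DecidableEq J]

/-- The filtration on forms. -/
def fO (𝔅 : 𝔸.Sys J) : Fil (Fm n J F) where
  B D a := FilO D (𝔅.G a)
  mono hD ha := fun _ h σ => cdO_mono hD (𝔅.G_anti ha σ) (h σ)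
  mul h h' := fun σ => by
    rw [map_mul]
    exact cdO_mul (fun _ hx _ hy => fil_mul hx hy) (h σ) (h' σ)
  one := fun σ => by
    rw [map_one, ← map_one Gr.of0, ← C_1]
    exact of0_cdO (C_mem_cd (fil_zero.2 (one_mem _)) 0)
  rat r := by
    obtain ⟨D, a, h⟩ := 𝔅.fC.rat r
    refine ⟨D, a, fun σ => ?_⟩
    rw [algebraMap_Fm, rO_of0]
    exact of0_cdO (h σ)

theorem mem_fO {𝔅 : 𝔸.Sys J} {D : ℕ} {a : ℤ} {ω : Fm n J F} :
    ω ∈ 𝔅.fO.B D a ↔ ∀ σ, rO σ ω ∈ cdO D (𝔅.G a σ) := Iff.rfl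

theorem of0_mem_fO (𝔅 : 𝔸.Sys J) (D : ℕ) (a : ℤ) (x : MvPolynomial J F) (hx : x ∈ 𝔅.fC.B D a) :
    (Gr.of0 x : Fm n J F) ∈ 𝔅.fO.B D a := fun σ => by
  rw [rO_of0]
  exact of0_cdO (hx σ)

theorem le_mem_fO {𝔅 𝔅' : 𝔸.Sys J} (h : 𝔅 ≤ 𝔅') (D : ℕ) (a : ℤ) (x : Fm n J F)
    (hx : x ∈ 𝔅.fO.B D a) : x ∈ 𝔅'.fO.B D a := fun σ => cdO_mono le_rfl (G_le (h σ) a) (hx σ)

theorem ev_mem_fO {𝔅 𝔅' : 𝔸.Sys J} {j : J} {b : Bool} (h : 𝔅.upd j b ≤ 𝔅')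
    (D : ℕ) (a : ℤ) (x : Fm n J F) (hx : x ∈ 𝔅.fO.B D a) :
    rO (fj j b) x ∈ 𝔅'.fO.B D a := fun σ => by
  rw [rO_fj]
  exact cdO_mono le_rfl (G_le (h σ) a) (hx _)

theorem inv_mem_fO (𝔅 : 𝔸.Sys J) (D : ℕ) (a : ℤ) (x : Fm n J F) (hx : x ∈ 𝔅.fO.B D a) :
    Gr.inv x ∈ 𝔅.fO.B D a := fun σ => by
  rw [rO_inv]
  exact inv_cdO (hx σ)

theorem dF_mem_fO (𝔅 : 𝔸.Sys J) : ∃ e : ℕ, ∀ D a x, x ∈ 𝔅.fO.B D a →
    𝔸.dF J x ∈ 𝔅.fO.B D (a - e) := by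
  obtain ⟨e, he⟩ := 𝔅.stab
  refine ⟨e, fun D a x hx σ => ?_⟩
  rw [rO_dF]
  refine dd_cdO (fun i P hP => ?_) (hx σ)
  rcases i with i | j
  · exact mpa_cd _ (fun y hy => 𝔸.δ_fil (he σ i) hy) hP
  · exact cd_mono le_rfl (𝔅.G_anti (by omega) σ) (pderiv_cd j hP)

theorem bd_dF (𝔅 : 𝔸.Sys J) : 𝔅.fO.Bd 𝔅.fO.toAFil (𝔸.dF J) := by
  obtain ⟨e, he⟩ := 𝔅.dF_mem_fO
  exact AFil.Bd.of_shift 0 e he

/-- The asymptotic algebra of forms. -/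
def Om (𝔅 : 𝔸.Sys J) : Type := 𝔅.fO.Q

instance (𝔅 : 𝔸.Sys J) : Ring 𝔅.Om := inferInstanceAs (Ring 𝔅.fO.Q)

instance (𝔅 : 𝔸.Sys J) : Algebra ℚ 𝔅.Om := inferInstanceAs (Algebra ℚ 𝔅.fO.Q)

theorem cp (𝔅 : 𝔸.Sys J) : Fil.Cp 𝔅.fC 𝔅.fO (𝔸.dgF J) :=
  ⟨AFil.Bd.of_strict 𝔅.of0_mem_fO, 𝔅.bd_dF, AFil.Bd.of_strict 𝔅.inv_mem_fO⟩

/-- The differential graded algebra of a system. -/
def dg (𝔅 : 𝔸.Sys J) : DG 𝔅.A 𝔅.Om := Fil.toDG 𝔅.cp

/-- The morphism for larger coefficient rings. -/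
def mpH {𝔅 𝔅' : 𝔸.Sys J} (h : 𝔅 ≤ 𝔅') : 𝔅.dg.Hom 𝔅'.dg :=
  Fil.toHom 𝔅.cp 𝔅'.cp (𝔸.idF J) (AFil.Bd.of_strict (le_mem_fC h))
    (AFil.Bd.of_strict (le_mem_fO h))

/-- Evaluation of the coordinate `j`. -/
def evH {𝔅 𝔅' : 𝔸.Sys J} (j : J) (b : Bool) (h : 𝔅.upd j b ≤ 𝔅') : 𝔅.dg.Hom 𝔅'.dg :=
  Fil.toHom 𝔅.cp 𝔅'.cp (𝔸.rF (fj j b)) (AFil.Bd.of_strict (ev_mem_fC h))
    (AFil.Bd.of_strict (ev_mem_fO h))

theorem mpH_a {𝔅 𝔅' : 𝔸.Sys J} (h : 𝔅 ≤ 𝔅') : (mpH h).a = mpA h := rfl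

theorem evH_a {𝔅 𝔅' : 𝔸.Sys J} (j : J) (b : Bool) (h : 𝔅.upd j b ≤ 𝔅') :
    (evH j b h).a = evA j b h := rfl

end Sys

end Amb

/-- The cube coordinates: a homotopy parameter, simplex coordinates and comparisons. -/
abbrev Cub (n : ℕ) (ι : Type) : Type := Option (Fin n ⊕ ι)

/-- The coordinates that are inverted on a face. -/
def IS {n : ℕ} {ι : Type} (σ : Face (Cub n ι)) : Set (Fin (n + 1)) :=
  {i | ∀ j : Fin n, (j.castSucc < i → σ (some (Sum.inl j)) ≠ some false) ∧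
    (j.castSucc = i → σ (some (Sum.inl j)) ≠ some true)}

/-- A finite family of Laurent coordinates. -/
structure Tow {n : ℕ} {K F : Type} [Field K] [Field F] [CharZero K] [CharZero F] [Algebra K F]
    (𝔸 : Amb (n + 1) K F) (ι : Type) where
  h : ι → Fˣ
  e : ℕ
  h_mem : ∀ c, (h c : F) ∈ fil 𝔸.ϖ (𝔸.cell ∅) (-(e : ℤ))

namespace Tow

variable {n : ℕ} {K F : Type} [Field K] [Field F] [CharZero K] [CharZero F] [Algebra K F]
  {𝔸 : Amb (n + 1) K F} {ι : Type} (𝒯 : Tow 𝔸 ι)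

/-- The generators of the cell of a face: `true` means `|h| ≤ 1`, `false` means `|h| ≥ 1`. -/
def gens (σ : Face (Cub n ι)) : Set F :=
  {y | ∃ c, (σ (some (Sum.inr c)) ≠ some false ∧ y = 𝒯.h c) ∨
    (σ (some (Sum.inr c)) ≠ some true ∧ y = ((𝒯.h c)⁻¹ : Fˣ))}

theorem δ_h (G : Set F) (i : Fin (n + 1)) (c : ι) :
    𝔸.δ i (𝒯.h c) ∈ fil 𝔸.ϖ (𝔸.cell G) (-(𝒯.e : ℤ)) := by
  have := 𝔸.δ_fil (B := 𝔸.cell ∅) (e := 0) (i := i)
    (fun y hy => 𝔸.δ_cell (fun _ h => h.elim) hy) (𝒯.h_mem c)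
  exact fil_mono _ (Amb.cell_mono (Set.empty_subset G)) _ (by simpa using this)

/-- The derivations are bounded on cells generated by Laurent coordinates. -/
theorem δ_cell {G : Set F}
    (hG : ∀ y ∈ G, (∃ c, y = 𝒯.h c ∨ y = ((𝒯.h c)⁻¹ : Fˣ)) ∨ ∃ i, y = ((𝔸.w i)⁻¹ : Fˣ))
    (i : Fin (n + 1)) {y : F} (hy : y ∈ 𝔸.cell G) :
    𝔸.δ i y ∈ fil 𝔸.ϖ (𝔸.cell G) (-(𝒯.e : ℤ)) := by
  refine 𝔸.δ_cell (fun x hx => ?_) hy
  have h1 := fil_zero (u := 𝔸.ϖ).2 (mul_mem (𝔸.mem_cell hx) (𝔸.mem_cell hx))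
  rcases hG x hx with ⟨c, rfl | rfl⟩ | ⟨j, rfl⟩
  · exact 𝒯.δ_h G i c
  · rw [𝔸.δ_inv]
    exact neg_mem (by simpa using fil_mul h1 (𝒯.δ_h G i c))
  · rw [𝔸.δ_inv, 𝔸.δ_w]
    refine neg_mem (fil_anti (𝔸.VF_le_cell G 𝔸.ϖ_mem) (b := 0) (by omega) ?_)
    split_ifs
    · rwa [mul_one]
    · rw [mul_zero]
      exact zero_mem _

/-- The tower over the closed polydisc. -/
def sD : 𝔸.Sys (Cub n ι) where
  B σ := 𝔸.cell (𝒯.gens σ)
  V_le _ := 𝔸.VF_le_cell _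
  stab := ⟨𝒯.e, fun σ i _ hy => 𝒯.δ_cell (G := 𝒯.gens σ)
    (fun _ ⟨c, h⟩ => Or.inl ⟨c, h.imp And.right And.right⟩) i hy⟩

/-- The tower over the sphere. -/
def sS : 𝔸.Sys (Cub n ι) where
  B σ := 𝔸.cell (𝒯.gens σ ∪ {y | ∃ i ∈ IS σ, y = ((𝔸.w i)⁻¹ : Fˣ)})
  V_le _ := 𝔸.VF_le_cell _
  stab := ⟨𝒯.e, fun _ i _ hy => 𝒯.δ_cell
    (fun _ h => h.elim (fun ⟨c, h⟩ => Or.inl ⟨c, h.imp And.right And.right⟩)
      fun ⟨j, _, h⟩ => Or.inr ⟨j, h⟩) i hy⟩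

/-- The cube coordinate of a comparison. -/
abbrev cj (c : ι) : Cub n ι := some (Sum.inr c)

/-- The region `τ < 1`. -/
def sU (c : ι) : 𝔸.Sys (Cub n ι) := 𝒯.sS.on {σ | σ (cj c) ≠ some true}

/-- The region `τ > 0`. -/
def sT (c : ι) : 𝔸.Sys (Cub n ι) := 𝒯.sS.on {σ | σ (cj c) ≠ some false}

/-- The region `0 < τ < 1`. -/
def sO (c : ι) : 𝔸.Sys (Cub n ι) := 𝒯.sS.on {σ | σ (cj c) = none}

/-- The affinoid `|h c| ≥ 1` in the polydisc. -/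
def sW [DecidableEq ι] (c : ι) : 𝔸.Sys (Cub n ι) := 𝒯.sD.upd (cj c) false

end Tow

end Pool.Agent.P.MP_f43029_ag.XL
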