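import Pool.Agent.P.MP_f43029_ag.XL.Fil

/-!
Power-bounded elements of asymptotic rings and evaluation of power series at small matrices.
-/

set_option autoImplicit false

noncomputable section

namespace Pool.Agent.P.MP_f43029_ag.XL

open Filter Finset

namespace Fil

section Ev

variable {R : Type} [Ring R] [Algebra ℚ R]

/-- A topologically nilpotent sequence. -/
def Top (F : Fil R) (W : ℕ → R) : Prop :=
  ∃ c e : ℕ, ∀ᶠ m in atTop, ∀ j : ℕ, W m ^ j ∈ F.B (j * dgb c m) ((j : ℤ) - e)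

theorem aeval_mem (F : Fil R) {W : R} {D e : ℕ} (hW : ∀ j : ℕ, W ^ j ∈ F.B (j * D) ((j : ℤ) - e))
    (g : Polynomial ℤ) {N N' : ℕ} (h0 : ∀ j < N, g.coeff j = 0) (hd : g.natDegree ≤ N') :
    Polynomial.aeval W g ∈ F.B (N' * D) ((N : ℤ) - e) := by
  rw [Polynomial.aeval_eq_sum_range]
  refine sum_mem fun j hj => ?_
  by_cases h : j < N
  · simp [h0 j h]
  · have hj' : j ≤ N' := (Nat.lt_succ_iff.1 (mem_range.1 hj)).trans hd
    exact AddSubgroup.zsmul_mem _
      (F.mono (Nat.mul_le_mul_right D hj') (by omega) (hW j)) _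

theorem sq_mul_dgb (c m : ℕ) : 2 * (m + 1) ^ 2 * dgb c m ≤ dgb (c + 3) m := by
  have h1 := succ_le_dgb m
  have h2 := le_dgb 1 m
  have : dgb (c + 3) m = dgb 1 m * (dgb 1 m * dgb 1 m) * dgb c m := by
    simp only [dgb_mul]
    congr 1
    omega
  rw [this, sq]
  exact Nat.mul_le_mul_right _ (Nat.mul_le_mul h2 (Nat.mul_le_mul h1 h1))

theorem natDegree_trunc_le (s : PowerSeries ℤ) (N : ℕ) : (PowerSeries.trunc N s).natDegree ≤ N :=
  Polynomial.natDegree_le_of_degree_le (PowerSeries.degree_trunc_lt s N).le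

/-- The truncated values of a power series. -/
def evs (W : ℕ → R) (s : PowerSeries ℤ) (m : ℕ) : R :=
  Polynomial.aeval (W m) (PowerSeries.trunc ((m + 1) ^ 2) s)

theorem Top.evs_mem {F : Fil R} {W : ℕ → R} (hW : F.Top W) (s : PowerSeries ℤ) :
    evs W s ∈ F.Seq false := by
  obtain ⟨c, e, h⟩ := hW
  refine ⟨c + 3, -e, h.mono fun m hm => ?_⟩
  refine F.mono (le_trans ?_ (sq_mul_dgb c m)) ?_
    (F.aeval_mem hm _ (N := 0) (by simp) (natDegree_trunc_le s _))
  · exact Nat.mul_le_mul_right _ (by omega)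
  · push_cast
    nlinarith [Int.natCast_nonneg e, Int.natCast_nonneg m]

theorem Top.seq {F : Fil R} {W : ℕ → R} (hW : F.Top W) : W ∈ F.Seq false := by
  obtain ⟨c, e, h⟩ := hW
  refine ⟨c, -e, h.mono fun m hm => ?_⟩
  have h1 := hm 1
  rw [pow_one, one_mul] at h1
  refine F.mono le_rfl ?_ h1
  push_cast
  nlinarith [Int.natCast_nonneg e, Int.natCast_nonneg m]

/-- Evaluation of power series at a topologically nilpotent sequence. -/
def ev (F : Fil R) {W : ℕ → R} (hW : F.Top W) : PowerSeries ℤ →+* F.Q where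
  toFun s := F.cl (evs W s) (hW.evs_mem s)
  map_zero' := cl_congr' fun m => by simp [evs]
  map_add' s t := cl_congr' fun m => by simp [evs]
  map_one' := cl_congr' fun m => by
    obtain ⟨N, hN⟩ : ∃ N, (m + 1) ^ 2 = N + 1 := ⟨_, (Nat.succ_pred_eq_of_pos (by positivity)).symm⟩
    simp [evs, hN]
  map_mul' s t := by
    rw [cl_mul, cl_eq]
    obtain ⟨c, e, h⟩ := hW
    refine ⟨c + 3, fun K => ?_⟩
    filter_upwards [h, eventually_ge_atTop (K.toNat + e)] with m hm hK
    have key := F.aeval_mem hm (PowerSeries.trunc ((m + 1) ^ 2) (s * t) -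
      PowerSeries.trunc ((m + 1) ^ 2) s * PowerSeries.trunc ((m + 1) ^ 2) t) (N := (m + 1) ^ 2)
      (N' := 2 * (m + 1) ^ 2) (fun j hj => by
        rw [Polynomial.coeff_sub, PowerSeries.coeff_trunc, if_pos hj,
          PowerSeries.coeff_mul_eq_coeff_trunc_mul_trunc s t hj, ← Polynomial.coe_mul,
          Polynomial.coeff_coe, sub_self])
      ((Polynomial.natDegree_sub_le _ _).trans (max_le
        ((natDegree_trunc_le _ _).trans (by omega))
        (Polynomial.natDegree_mul_le.trans (by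
          have := natDegree_trunc_le s ((m + 1) ^ 2)
          have := natDegree_trunc_le t ((m + 1) ^ 2)
          omega))))
    rw [map_sub (Polynomial.aeval (R := ℤ) (W m)), map_mul (Polynomial.aeval (R := ℤ) (W m))] at key
    refine F.mono (sq_mul_dgb c m) ?_ key
    have h1 : K + e ≤ m := by omega
    push_cast
    nlinarith [Int.natCast_nonneg e, Int.natCast_nonneg m]

theorem ev_X (F : Fil R) {W : ℕ → R} (hW : F.Top W) : F.ev hW PowerSeries.X = F.cl W hW.seq :=
  cl_congr <| (eventually_ge_atTop 1).mono fun m hm => by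
    rw [evs, PowerSeries.trunc_X_of (by nlinarith), Polynomial.aeval_X]

theorem comm_pow_mem (F : Fil R) {W Y : R} {D e D' : ℕ} {a : ℤ}
    (hW : ∀ j : ℕ, W ^ j ∈ F.B (j * D) ((j : ℤ) - e)) (h : Y * W - W * Y ∈ F.B D' a) (j : ℕ) :
    Y * W ^ j - W ^ j * Y ∈ F.B (j * D + D') (a - 2 * e) := by
  have : Y * W ^ j - W ^ j * Y = ∑ i ∈ range j, W ^ i * (Y * W - W * Y) * W ^ (j - 1 - i) := by
    induction j with
    | zero => simp
    | succ j ih =>
      rw [sum_range_succ, Nat.add_sub_cancel, Nat.sub_self, pow_zero, mul_one]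
      have : ∑ i ∈ range j, W ^ i * (Y * W - W * Y) * W ^ (j - i) =
          (∑ i ∈ range j, W ^ i * (Y * W - W * Y) * W ^ (j - 1 - i)) * W := by
        rw [sum_mul]
        refine sum_congr rfl fun i hi => ?_
        rw [mul_assoc _ _ W, ← pow_succ]
        congr 2
        have := mem_range.1 hi
        omega
      rw [this, ← ih, pow_succ]
      noncomm_ring
  rw [this]
  refine sum_mem fun i hi => F.mono ?_ ?_ (F.mul (F.mul (hW i) h) (hW (j - 1 - i)))
  · have h1 : i + (j - 1 - i) ≤ j := by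
      have := mem_range.1 hi
      omega
    have := Nat.mul_le_mul_right D h1
    rw [add_mul] at this
    omega
  · omega

theorem ev_comm (F : Fil R) {W : ℕ → R} (hW : F.Top W) (s : PowerSeries ℤ) {y : F.Q}
    (h : y * F.cl W hW.seq = F.cl W hW.seq * y) : y * F.ev hW s = F.ev hW s * y := by
  induction y using ind with | h Y hY
  rw [cl_mul, cl_mul, cl_eq] at h
  change F.cl Y hY * F.cl _ _ = F.cl _ _ * F.cl Y hY
  rw [cl_mul, cl_mul, cl_eq]
  obtain ⟨c, e, hc⟩ := hW
  obtain ⟨c', h'⟩ := h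
  refine ⟨c + 3 + c' + 1, fun K => ?_⟩
  filter_upwards [hc, h' (K + 2 * e)] with m hm h1
  change Y m * evs W s m - evs W s m * Y m ∈ _
  rw [evs, Polynomial.aeval_eq_sum_range, mul_sum, sum_mul, ← sum_sub_distrib]
  refine sum_mem fun j hj => ?_
  rw [mul_smul_comm, smul_mul_assoc, ← smul_sub]
  refine AddSubgroup.zsmul_mem _ (F.mono ?_ ?_ (F.comm_pow_mem hm h1 j)) _
  · refine le_trans (Nat.add_le_add_right (le_trans (Nat.mul_le_mul_right _ ?_)
      (sq_mul_dgb c m)) _) (dgb_add_dgb _ _ m)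
    have := (Nat.lt_succ_iff.1 (mem_range.1 hj)).trans (natDegree_trunc_le s _)
    omega
  · nlinarith [Int.natCast_nonneg e, Int.natCast_nonneg m]

end Ev

section Mat

variable {P : Type} [Ring P] [Algebra ℚ P] (ι : Type) [Fintype ι] [DecidableEq ι]

/-- The filtration on matrices. -/
def mat (F : Fil P) : Fil (Matrix ι ι P) where
  B D a :=
    { carrier := {X | ∀ i j, X i j ∈ F.B D a}
      zero_mem' := fun _ _ => zero_mem _
      add_mem' := fun h h' i j => add_mem (h i j) (h' i j)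
      neg_mem' := fun h i j => neg_mem (h i j) }
  mono hD ha := fun _ h i j => F.mono hD ha (h i j)
  mul h h' := fun i j => by
    rw [Matrix.mul_apply]
    exact sum_mem fun k _ => F.mul (h i k) (h' k j)
  one := fun i j => by
    rw [Matrix.one_apply]
    split_ifs
    exacts [F.one, zero_mem _]
  rat r := by
    obtain ⟨D, a, h⟩ := F.rat r
    refine ⟨D, a, fun i j => ?_⟩
    rw [Matrix.algebraMap_matrix_apply]
    split_ifs
    exacts [h, zero_mem _]

variable {ι}

theorem mat_seq {F : Fil P} {τ : Bool} {W : ℕ → Matrix ι ι P} :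
    W ∈ (F.mat ι).Seq τ ↔ ∀ i j, (fun m => W m i j) ∈ F.Seq τ := by
  refine ⟨fun h i j => AFil.Seq.of_rel0 h fun m D a hm => hm i j, fun h => ?_⟩
  have : W = ∑ i, ∑ j, fun m => Matrix.single i j (W m i j) := by
    ext m : 1
    simp only [Finset.sum_apply]
    exact Matrix.matrix_eq_sum_single (W m)
  rw [this]
  refine sum_mem fun i _ => sum_mem fun j _ => AFil.Seq.of_rel0 (h i j) fun m D a hm i' j' => ?_
  rw [Matrix.single_apply]
  split_ifs
  exacts [hm, zero_mem _]

theorem cl_sum (F : Fil P) {α : Type} (s : Finset α) (w : α → ℕ → P)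
    (hw : ∀ a, w a ∈ F.Seq false) :
    ∑ a ∈ s, F.cl (w a) (hw a) = F.cl (∑ a ∈ s, w a) (sum_mem fun a _ => hw a) := by
  classical
  induction s using Finset.induction_on with
  | empty => rfl
  | insert a s ha ih =>
    rw [sum_insert ha, ih, cl_add]
    exact cl_congr' fun m => by rw [sum_insert ha]

/-- The entries of the class of a sequence of matrices. -/
def matHom (F : Fil P) : (F.mat ι).Q →+* Matrix ι ι F.Q :=
  Ideal.Quotient.lift (F.mat ι).Neg
    { toFun := fun W => Matrix.of fun i j => F.cl (fun m => W.1 m i j) (mat_seq.1 W.2 i j)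
      map_zero' := by
        ext i j
        rfl
      map_add' := fun W W' => by
        ext i j
        rfl
      map_one' := by
        ext i j
        rw [Matrix.of_apply, Matrix.one_apply]
        split_ifs with h
        · exact cl_congr' fun m => by simp [h]
        · exact cl_congr' fun m => by simp [h]
      map_mul' := fun W W' => by
        ext i j
        simp only [Matrix.of_apply, Matrix.mul_apply, cl_mul]
        rw [cl_sum]
        exact cl_congr' fun m => by simp [Matrix.mul_apply] }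
    fun W hW => by
      ext i j
      exact cl_eq_zero.2 (mat_seq.1 hW i j)

theorem matHom_cl (F : Fil P) (W : ℕ → Matrix ι ι P) (hW : W ∈ (F.mat ι).Seq false) (i j : ι) :
    F.matHom ((F.mat ι).cl W hW) i j = F.cl (fun m => W m i j) (mat_seq.1 hW i j) := rfl

theorem matHom_injective (F : Fil P) : Function.Injective (F.matHom (ι := ι)) := by
  rw [injective_iff_map_eq_zero]
  intro x hx
  induction x using ind with | h W hW
  exact cl_eq_zero.2 (mat_seq.2 fun i j => cl_eq_zero.1 (congrFun₂ hx i j))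

theorem matHom_surjective (F : Fil P) : Function.Surjective (F.matHom (ι := ι)) := by
  intro X
  have : ∀ i j, ∃ w, ∃ hw, F.cl w hw = X i j := fun i j => by
    induction X i j using ind with | h w hw
    exact ⟨w, hw, rfl⟩
  choose w hw h using this
  exact ⟨(F.mat ι).cl (fun m => Matrix.of fun i j => w i j m) (mat_seq.2 hw),
    Matrix.ext fun i j => h i j⟩

end Mat

section PB

variable {P P' : Type} [CommRing P] [Algebra ℚ P] [CommRing P'] [Algebra ℚ P']

/-- A power-bounded sequence. -/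
def PB (F : Fil P) (y : ℕ → P) : Prop :=
  ∃ c e : ℕ, ∀ᶠ m in atTop, ∀ j : ℕ, y m ^ j ∈ F.B (j * dgb c m) (-(e : ℤ))

theorem PB.seq {F : Fil P} {y : ℕ → P} (h : F.PB y) : y ∈ F.Seq false := by
  obtain ⟨c, e, h⟩ := h
  refine ⟨c, -e, h.mono fun m hm => ?_⟩
  have h1 := hm 1
  rw [pow_one, one_mul] at h1
  refine F.mono le_rfl ?_ h1
  nlinarith [Int.natCast_nonneg e, Int.natCast_nonneg m]

theorem PB.add {F : Fil P} {y y' : ℕ → P} (h : F.PB y) (h' : F.PB y') : F.PB (y + y') := by
  obtain ⟨c, e, h⟩ := h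
  obtain ⟨c', e', h'⟩ := h'
  refine ⟨c + c', e + e', ?_⟩
  filter_upwards [h, h'] with m h1 h2 j
  rw [Pi.add_apply, add_pow]
  refine sum_mem fun i hi => ?_
  rw [← nsmul_eq_mul']
  refine AddSubgroup.nsmul_mem _ (F.mono ?_ (by push_cast; omega) (F.mul (h1 i) (h2 (j - i)))) _
  have h3 := Nat.mul_le_mul_left i (dgb_mono (Nat.le_add_right c c') m)
  have h4 := Nat.mul_le_mul_left (j - i) (dgb_mono (Nat.le_add_left c' c) m)
  have h5 : i + (j - i) = j := by
    have := mem_range.1 hi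
    omega
  calc _ ≤ i * dgb (c + c') m + (j - i) * dgb (c + c') m := add_le_add h3 h4
    _ = _ := by rw [← add_mul, h5]

theorem PB.mul {F : Fil P} {y y' : ℕ → P} (h : F.PB y) (h' : F.PB y') : F.PB (y * y') := by
  obtain ⟨c, e, h⟩ := h
  obtain ⟨c', e', h'⟩ := h'
  refine ⟨c + c' + 1, e + e', ?_⟩
  filter_upwards [h, h'] with m h1 h2 j
  rw [Pi.mul_apply, mul_pow]
  refine F.mono ?_ (by push_cast; omega) (F.mul (h1 j) (h2 j))
  rw [← mul_add]
  exact Nat.mul_le_mul_left j (dgb_add_dgb c c' m)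

theorem PB.neg {F : Fil P} {y : ℕ → P} (h : F.PB y) : F.PB (-y) := by
  obtain ⟨c, e, h⟩ := h
  refine ⟨c, e, h.mono fun m hm j => ?_⟩
  rw [Pi.neg_apply, neg_pow]
  rcases neg_one_pow_eq_or P j with h1 | h1 <;> rw [h1]
  · simpa using hm j
  · simpa using neg_mem (hm j)

theorem PB.const {F : Fil P} {x : P} {D e : ℕ} (h : ∀ j : ℕ, x ^ j ∈ F.B (j * D) (-(e : ℤ))) :
    F.PB fun _ => x :=
  ⟨D, e, Eventually.of_forall fun m j => F.mono
    (Nat.mul_le_mul_left j ((Nat.le_succ D).trans (le_dgb D m))) le_rfl (h j)⟩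

theorem pow_mem (F : Fil P) {x : P} {D : ℕ} {a : ℤ} (h : x ∈ F.B D a) (j : ℕ) :
    x ^ j ∈ F.B (j * D) (j * a) := by
  induction j with
  | zero => simpa using F.one
  | succ j ih =>
    rw [pow_succ, Nat.succ_mul]
    exact F.mono le_rfl (by push_cast; rw [add_mul, one_mul]) (F.mul ih h)

theorem PB.const0 {F : Fil P} {x : P} {D : ℕ} (h : x ∈ F.B D 0) : F.PB fun _ => x :=
  PB.const (D := D) (e := 0) fun j => by simpa using F.pow_mem h j

/-- Power-bounded elements. -/
def Ap (F : Fil P) : Subring F.Q where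
  carrier := {x | ∃ y, ∃ h : F.PB y, F.cl y h.seq = x}
  zero_mem' := ⟨_, PB.const0 (zero_mem (F.B 0 0)), rfl⟩
  one_mem' := ⟨_, PB.const0 F.one, rfl⟩
  add_mem' := by
    rintro _ _ ⟨y, h, rfl⟩ ⟨y', h', rfl⟩
    exact ⟨_, h.add h', rfl⟩
  mul_mem' := by
    rintro _ _ ⟨y, h, rfl⟩ ⟨y', h', rfl⟩
    exact ⟨_, h.mul h', rfl⟩
  neg_mem' := by
    rintro _ ⟨y, h, rfl⟩
    exact ⟨_, h.neg, rfl⟩

theorem cst_mem_Ap (F : Fil P) (x : F.fin) {D e : ℕ}
    (h : ∀ j : ℕ, (x : P) ^ j ∈ F.B (j * D) (-(e : ℤ))) : F.cst x ∈ F.Ap := ⟨_, PB.const h, rfl⟩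

theorem cst_mem_Ap0 (F : Fil P) (x : F.fin) {D : ℕ} (h : (x : P) ∈ F.B D 0) : F.cst x ∈ F.Ap :=
  ⟨_, PB.const0 h, rfl⟩

/-- Strictly bounded ring maps preserve power-bounded elements. -/
theorem mapR_mem_Ap (F : Fil P) (F' : Fil P') (f : P →+* P') (hf : F.Bd F'.toAFil f)
    (h : ∀ D a x, x ∈ F.B D a → f x ∈ F'.B D a) {x : F.Q} (hx : x ∈ F.Ap) :
    F.mapR F' f hf x ∈ F'.Ap := by
  obtain ⟨y, ⟨c, e, hy⟩, rfl⟩ := hx
  exact ⟨fun m => f (y m), ⟨c, e, hy.mono fun m hm j => map_pow f _ j ▸ h _ _ _ (hm j)⟩, rfl⟩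

/-- Multiplication by `l` from a weaker to a stronger filtration preserves power-bounded
elements. -/
theorem glue_mem_Ap (F F' : Fil P) (l : P) {k : ℕ} (hl : l ∈ F.B k 0)
    (h : ∀ D a x, x ∈ F.B D a → l * x ∈ F'.B (D + k) a)
    (hf : F.Bd F'.toAFil (AddMonoidHom.mulLeft l)) {x : F.Q} (hx : x ∈ F.Ap) :
    F.map F' (AddMonoidHom.mulLeft l) hf x ∈ F'.Ap := by
  obtain ⟨y, ⟨c, e, hy⟩, rfl⟩ := hx
  refine ⟨fun m => l * y m, ⟨c + k, e, hy.mono fun m hm j => ?_⟩, rfl⟩
  rcases j with _ | j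
  · simpa using F'.mono le_rfl (by omega) F'.one
  · have h1 := h _ _ _ (F.mul (F.pow_mem hl j) (hm (j + 1)))
    rw [mul_pow, pow_succ' l, mul_assoc]
    refine F'.mono ?_ (by simp) h1
    have := Nat.mul_le_mul_left (j + 1) (dgb_add c k m)
    nlinarith

/-- Sums of monomials of degree at most `j` in a family. -/
def mons {α : Type} [Fintype α] (y : α → P) (j : ℕ) : AddSubgroup P :=
  AddSubgroup.closure {x | ∃ k : α → ℕ, ∑ a, k a ≤ j ∧ x = ∏ a, y a ^ k a}

omit [Algebra ℚ P] in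
theorem mons_mono {α : Type} [Fintype α] (y : α → P) {i j : ℕ} (h : i ≤ j) :
    mons y i ≤ mons y j :=
  AddSubgroup.closure_mono fun _ ⟨k, hk, hx⟩ => ⟨k, hk.trans h, hx⟩

omit [Algebra ℚ P] in
theorem one_mem_mons {α : Type} [Fintype α] (y : α → P) (j : ℕ) : 1 ∈ mons y j :=
  AddSubgroup.subset_closure ⟨0, by simp, by simp⟩

omit [Algebra ℚ P] in
theorem self_mem_mons {α : Type} [Fintype α] (y : α → P) (a : α) : y a ∈ mons y 1 := by
  classical
  refine AddSubgroup.subset_closure ⟨Pi.single a 1, by simp, ?_⟩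
  rw [prod_eq_single a (fun b _ hb => by simp [hb]) (by simp)]
  simp

omit [Algebra ℚ P] in
theorem mul_mem_mons {α : Type} [Fintype α] {y : α → P} {i j : ℕ} {x x' : P} (hx : x ∈ mons y i)
    (hx' : x' ∈ mons y j) : x * x' ∈ mons y (i + j) := by
  induction hx using AddSubgroup.closure_induction with
  | mem x h =>
    induction hx' using AddSubgroup.closure_induction with
    | mem x' h' =>
      obtain ⟨k, hk, rfl⟩ := h
      obtain ⟨k', hk', rfl⟩ := h'
      refine AddSubgroup.subset_closure ⟨k + k', ?_, ?_⟩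
      · simp only [Pi.add_apply, sum_add_distrib]
        omega
      · simp only [Pi.add_apply, pow_add, prod_mul_distrib]
    | zero => simp
    | add _ _ _ _ h h' => exact mul_add (_ : P) _ _ ▸ add_mem h h'
    | neg _ _ h => exact mul_neg (_ : P) _ ▸ neg_mem h
  | zero => simp
  | add _ _ _ _ h h' => exact add_mul (_ : P) _ _ ▸ add_mem h h'
  | neg _ _ h => exact neg_mul (_ : P) _ ▸ neg_mem h

omit [Algebra ℚ P] in
theorem pow_mem_mons {α : Type} [Fintype α] {y : α → P} {i : ℕ} {x : P} (hx : x ∈ mons y i)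
    (j : ℕ) : x ^ j ∈ mons y (j * i) := by
  induction j with
  | zero => simpa using one_mem_mons y 0
  | succ j ih =>
    rw [pow_succ, Nat.succ_mul]
    exact mul_mem_mons ih hx

omit [Algebra ℚ P] in
theorem matpow_mem_mons {α ι : Type} [Fintype α] [Fintype ι] [DecidableEq ι] {y : α → P} {i : ℕ}
    {X : Matrix ι ι P} (hX : ∀ a b, X a b ∈ mons y i) (j : ℕ) (a b : ι) :
    (X ^ j) a b ∈ mons y (j * i) := by
  induction j generalizing a b with
  | zero =>
    rw [pow_zero, Matrix.one_apply]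
    split_ifs
    exacts [one_mem_mons y _, zero_mem _]
  | succ j ih =>
    rw [pow_succ, Nat.succ_mul, Matrix.mul_apply]
    exact sum_mem fun k _ => mul_mem_mons (ih a k) (hX k b)

theorem prod_mem (F : Fil P) {α : Type} (s : Finset α) {x : α → P} {D : α → ℕ} {a : α → ℤ}
    (h : ∀ i ∈ s, x i ∈ F.B (D i) (a i)) :
    ∏ i ∈ s, x i ∈ F.B (∑ i ∈ s, D i) (∑ i ∈ s, a i) := by
  classical
  induction s using Finset.induction_on with
  | empty => simpa using F.one
  | insert i s hi ih =>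
    rw [prod_insert hi, sum_insert hi, sum_insert hi]
    exact F.mul (h i (mem_insert_self _ _)) (ih fun j hj => h j (mem_insert_of_mem hj))

theorem mons_le (F : Fil P) {α : Type} [Fintype α] {y : α → P} {D e : ℕ}
    (h : ∀ a (j : ℕ), y a ^ j ∈ F.B (j * D) (-(e : ℤ))) (j : ℕ) :
    mons y j ≤ F.B (j * D) (-((Fintype.card α * e : ℕ) : ℤ)) := by
  refine (AddSubgroup.closure_le _).2 ?_
  rintro _ ⟨k, hk, rfl⟩
  refine F.mono ?_ ?_ (F.prod_mem univ fun a _ => h a (k a))
  · rw [← sum_mul]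
    exact Nat.mul_le_mul_right D hk
  · simp

/-- Multiplication by `π` shifts the level. -/
def Unif (F : Fil P) (π : Pˣ) : Prop := ∀ D a x, x ∈ F.B D a ↔ (π : P) * x ∈ F.B D (a + 1)

theorem Unif.mem {F : Fil P} {π : Pˣ} (h : F.Unif π) : (π : P) ∈ F.B 0 1 := by
  simpa using (h 0 0 1).1 F.one

theorem Unif.inv_mem {F : Fil P} {π : Pˣ} (h : F.Unif π) : ((π⁻¹ : Pˣ) : P) ∈ F.B 0 (-1) :=
  (h 0 (-1) _).2 (by simpa using F.one)

/-- The uniformiser of the asymptotic ring. -/
def Unif.unit {F : Fil P} {π : Pˣ} (h : F.Unif π) : F.Qˣ where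
  val := F.cst ⟨π, 0, 1, h.mem⟩
  inv := F.cst ⟨(π⁻¹ : Pˣ), 0, -1, h.inv_mem⟩
  val_inv := cl_congr' fun _ => by simp
  inv_val := cl_congr' fun _ => by simp

theorem eventually_family {F : Fil P} {α : Type} [Fintype α] {y : α → ℕ → P}
    (h : ∀ a, F.PB (y a)) : ∃ c e : ℕ, ∀ᶠ m in atTop, ∀ a (j : ℕ),
      y a m ^ j ∈ F.B (j * dgb c m) (-(e : ℤ)) := by
  choose c e h using h
  refine ⟨∑ a, c a, ∑ a, e a, eventually_all.2 fun a => (h a).mono fun m hm j => ?_⟩
  have h1 : c a ≤ ∑ a, c a := single_le_sum (fun _ _ => Nat.zero_le _) (mem_univ a)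
  have h2 : e a ≤ ∑ a, e a := single_le_sum (fun _ _ => Nat.zero_le _) (mem_univ a)
  exact F.mono (Nat.mul_le_mul_left j (dgb_mono h1 m)) (by omega) (hm j)

/-- The bounded structure on an asymptotic ring. -/
def bdd (F : Fil P) {π : Pˣ} (h : F.Unif π) : Bdd F.Q where
  π := h.unit
  Ap := F.Ap
  π_mem := F.cst_mem_Ap0 _ (F.mono le_rfl zero_le_one h.mem)
  cat ι _ _ w hw := by
    choose y hy e1 using hw
    have hπ : F.PB fun _ => (π : P) := PB.const0 (F.mono le_rfl zero_le_one h.mem)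
    let z : Option (ι × ι) → ℕ → P := fun a => a.elim (fun _ => (π : P)) fun b => y b.1 b.2
    obtain ⟨c, e, hz⟩ := eventually_family (F := F) (y := z) fun a => by
      rcases a with _ | b
      exacts [hπ, hy b.1 b.2]
    let Y : ℕ → Matrix ι ι P := fun m => Matrix.of fun a b => y a b m
    let W : ℕ → Matrix ι ι P := fun m => (π : P) • Y m
    have hY : ∀ m a b, Y m a b ∈ mons (fun a => z a m) 1 := fun m a b =>
      self_mem_mons (fun a => z a m) (some (a, b))
    have hW : (F.mat ι).Top W := ⟨c, Fintype.card (Option (ι × ι)) * e, hz.mono fun m hm j a b => by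
      have h1 := F.mons_le hm _ (matpow_mem_mons (hY m) j a b)
      have h2 := F.mul (F.pow_mem h.mem j) h1
      rw [smul_pow, Matrix.smul_apply, smul_eq_mul]
      exact F.mono (by simp) (by simp [sub_eq_add_neg]) h2⟩
    have hw : F.matHom ((F.mat ι).cl W hW.seq) = w := by
      ext a b
      have h1 : w a b = h.unit * F.cl (y a b) (hy a b).seq := by
        rw [e1, ← mul_assoc, ← Units.val_mul]
        simp
      rw [h1]
      rfl
    refine ⟨F.matHom.comp ((F.mat ι).ev hW), ?_, fun s a b => ?_, fun s x hx => ?_⟩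
    · rw [RingHom.comp_apply, ev_X, hw]
    · refine fil_zero.2 ⟨fun m => evs W s m a b,
        ⟨c + 3, Fintype.card (Option (ι × ι)) * e, hz.mono fun m hm j => ?_⟩, rfl⟩
      have h1 : evs W s m a b ∈ mons (fun a => z a m) (2 * (m + 1) ^ 2) := by
        rw [evs, Polynomial.aeval_eq_sum_range, Matrix.sum_apply]
        refine sum_mem fun i hi => ?_
        rw [Matrix.smul_apply]
        refine AddSubgroup.zsmul_mem _ (mons_mono _ ?_ (matpow_mem_mons (i := 1 + 1)
          (fun a b => mul_mem_mons (self_mem_mons (fun a => z a m) none) (hY m a b)) i a b)) _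
        have := (Nat.lt_succ_iff.1 (mem_range.1 hi)).trans (natDegree_trunc_le s _)
        omega
      refine F.mono ?_ le_rfl (F.mons_le hm _ (pow_mem_mons h1 j))
      rw [mul_assoc]
      exact Nat.mul_le_mul_left j (sq_mul_dgb c m)
    · obtain ⟨x, rfl⟩ := F.matHom_surjective x
      rw [← hw, ← map_mul, ← map_mul] at hx
      rw [RingHom.comp_apply, ← map_mul, ← map_mul,
        (F.mat ι).ev_comm hW s (F.matHom_injective hx)]

end PB

end Fil

end Pool.Agent.P.MP_f43029_ag.XL
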