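import Pool.Agent.P.MP_f43029_ag.XL.DG
import Pool.Agent.P.MP_f43029_ag.XL.FilB
import Pool.Agent.P.MP_f43029_ag.GrB

/-!
Exact lifts, asymptotic Thom-Whitney algebras: polynomials and forms on a cube.
-/

set_option autoImplicit false

noncomputable section

namespace Pool.Agent.P.MP_f43029_ag.XL

open Pool.Agent.Theta Filter MvPolynomial

/-- The ambient data: constants `V ≤ K`, a field `F` with coordinates, derivations and a residue. -/
structure Amb (n : ℕ) (K F : Type) [Field K] [Field F] [CharZero K] [CharZero F] [Algebra K F] where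
  V : Subring K
  noeth : IsNoetherianRing V
  π : Kˣ
  π_mem : (π : K) ∈ V
  π_inv : ((π⁻¹ : Kˣ) : K) ∉ V
  M : ℕ
  inv_nat : ∀ N j : ℕ, N ≤ 2 ^ j → ((N : K))⁻¹ ∈ fil π V (-((M * j : ℕ) : ℤ))
  w : Fin n → Fˣ
  δ : Fin n → F →+ F
  der : IsDer δ
  δ_c : ∀ i (c : K), δ i (algebraMap K F c) = 0
  δ_w : ∀ i j, δ i (w j) = if i = j then 1 else 0
  res : F →ₗ[K] K
  res_w : ∀ m : Fin n → ℤ, res ((∏ i, w i ^ m i : Fˣ) : F) = if m = fun _ => -1 then 1 else 0

/-- Faces of a cube: `none` is the open direction. -/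
abbrev Face (J : Type) : Type := J → Option Bool

/-- `σ` is a face of `σ'`. -/
def Face.le {J : Type} (σ σ' : Face J) : Prop := ∀ j, σ' j = none ∨ σ' j = σ j

/-- The vertex face. -/
def vf {J : Type} (v : J → Bool) : Face J := fun j => some (v j)

/-- The faces that contain `σ`. -/
def St {J : Type} (σ : Face J) : Set (Face J) := {σ' | σ.le σ'}

/-- The smallest face that contains two vertices. -/
def jn {J : Type} (v v' : J → Bool) : Face J := fun j => if v j = v' j then some (v j) else none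

/-- The face that freezes only `j`. -/
def fj {J : Type} [DecidableEq J] (j : J) (b : Bool) : Face J :=
  Function.update (fun _ => none) j (some b)

section Poly

variable {J : Type} (L : Type) [CommRing L]

/-- The value of a coordinate on a face. -/
def rv (σ : Face J) (j : J) : MvPolynomial J L :=
  match σ j with
  | none => X j
  | some b => if b then 1 else 0

/-- Restriction of a polynomial to a face. -/
def rC (σ : Face J) : MvPolynomial J L →+* MvPolynomial J L := eval₂Hom C (rv L σ)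

/-- The partition of unity. -/
def lam [Fintype J] (v : J → Bool) : MvPolynomial J L := ∏ j, if v j then X j else 1 - X j

/-- The second factor of the quadratic partition of unity. -/
def lamb [Fintype J] (v : J → Bool) : MvPolynomial J L :=
  lam L v * ∏ j, if v j then 3 - 2 * X j else 1 + 2 * X j

/-- Integer polynomials. -/
abbrev zP : MvPolynomial J ℤ →+* MvPolynomial J L := MvPolynomial.map (Int.castRingHom L)

variable {L}

theorem rv_none {σ : Face J} {j : J} (h : σ j = none) : rv L σ j = X j := by simp [rv, h]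

theorem rv_false {σ : Face J} {j : J} (h : σ j = some false) : rv L σ j = 0 := by simp [rv, h]

theorem rv_true {σ : Face J} {j : J} (h : σ j = some true) : rv L σ j = 1 := by simp [rv, h]

@[simp] theorem rC_C (σ : Face J) (a : L) : rC L σ (C a) = C a := by simp [rC]

@[simp] theorem rC_X (σ : Face J) (j : J) : rC L σ (X j) = rv L σ j := by simp [rC]

theorem rC_map {L' : Type} [CommRing L'] (f : L →+* L') (σ : Face J) (P : MvPolynomial J L) :
    rC L' σ (MvPolynomial.map f P) = MvPolynomial.map f (rC L σ P) := by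
  have : (rC L' σ).comp (MvPolynomial.map f) = (MvPolynomial.map f).comp (rC L σ) := by
    refine ringHom_ext (fun a => by simp) fun j => ?_
    rcases h : σ j with _ | _ | _
    · simp [rv_none h]
    · simp [rv_false h]
    · simp [rv_true h]
  exact DFunLike.congr_fun this P

theorem rC_none (P : MvPolynomial J L) : rC L (fun _ => none) P = P := by
  have : rC L (fun _ : J => none) = RingHom.id _ :=
    ringHom_ext (fun a => by simp) fun j => by simp [rv]
  rw [this]
  rfl

theorem rC_rC (σ τ : Face J) (P : MvPolynomial J L) :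
    rC L σ (rC L τ P) = rC L (fun j => (τ j).or (σ j)) P := by
  have : (rC L σ).comp (rC L τ) = rC L fun j => (τ j).or (σ j) := by
    refine ringHom_ext (fun a => by simp) fun j => ?_
    rcases h : τ j with _ | _ | _
    · simp [rv, h]
    · simp [rv, h]
    · simp [rv, h]
  exact DFunLike.congr_fun this P

theorem fj_or [DecidableEq J] (σ : Face J) (j : J) (b : Bool) :
    (fun k => (fj j b k).or (σ k)) = Function.update σ j (some b) := by
  funext k
  by_cases h : k = j
  · simp [fj, h]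
  · simp [fj, h]

theorem rC_fj [DecidableEq J] (σ : Face J) (j : J) (b : Bool) (P : MvPolynomial J L) :
    rC L σ (rC L (fj j b) P) = rC L (Function.update σ j (some b)) P := by
  rw [rC_rC, fj_or]

theorem or_fj [DecidableEq J] (σ : Face J) (j : J) (b : Bool) :
    (fun k => (Function.update σ j none k).or (fj j b k)) = Function.update σ j (some b) := by
  funext k
  by_cases h : k = j
  · simp [fj, h]
  · simp [fj, h]

theorem fj_rC [DecidableEq J] (σ : Face J) (j : J) (b : Bool) (P : MvPolynomial J L) :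
    rC L (fj j b) (rC L (Function.update σ j none) P) = rC L (Function.update σ j (some b)) P := by
  rw [rC_rC, or_fj]

theorem pderiv_rC_of_none {σ : Face J} {j : J} (h : σ j = none) (P : MvPolynomial J L) :
    pderiv j (rC L σ P) = rC L σ (pderiv j P) := by
  classical
  induction P using MvPolynomial.induction_on with
  | C a => simp
  | add p q hp hq => simp [hp, hq]
  | mul_X p k hp =>
    have : pderiv j (rv L σ k) = rC L σ (pderiv j (X k)) := by
      by_cases hk : k = j
      · subst hk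
        simp [rv_none h]
      · rw [pderiv_X_of_ne hk, map_zero]
        rcases h' : σ k with _ | _ | _
        · rw [rv_none h', pderiv_X_of_ne hk]
        · simp [rv_false h']
        · simp [rv_true h']
    rw [map_mul, pderiv_mul, pderiv_mul, map_add, map_mul, map_mul, hp, rC_X, this]

theorem pderiv_rC_of_ne {σ : Face J} {j : J} (h : σ j ≠ none) (P : MvPolynomial J L) :
    pderiv j (rC L σ P) = 0 := by
  classical
  induction P using MvPolynomial.induction_on with
  | C a => simp
  | add p q hp hq => simp [hp, hq]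
  | mul_X p k hp =>
    have : pderiv j (rv L σ k) = 0 := by
      rcases h' : σ k with _ | _ | _
      · rw [rv_none h', pderiv_X_of_ne fun e : k = j => h (e ▸ h')]
      · simp [rv_false h']
      · simp [rv_true h']
    rw [map_mul, pderiv_mul, hp, rC_X, this]
    simp

theorem pderiv_comm (i j : J) (P : MvPolynomial J L) :
    pderiv i (pderiv j P) = pderiv j (pderiv i P) := by
  classical
  by_cases h : i = j
  · rw [h]
  · ext m
    simp only [coeff_pderiv, Finsupp.add_apply, Finsupp.single_apply, h, Ne.symm h, if_false,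
      add_zero]
    rw [add_right_comm]
    ring

/-- An additive map applied to all coefficients. -/
def mpa {L' : Type} [CommRing L'] (δ : L →+ L') : MvPolynomial J L →+ MvPolynomial J L' :=
  AddMonoidHom.mk' (AddMonoidAlgebra.map δ) (AddMonoidAlgebra.map_add _)

theorem coeff_mpa {L' : Type} [CommRing L'] (δ : L →+ L') (P : MvPolynomial J L) (m : J →₀ ℕ) :
    coeff m (mpa δ P) = δ (coeff m P) := rfl

theorem mpa_monomial {L' : Type} [CommRing L'] (δ : L →+ L') (m : J →₀ ℕ) (c : L) :
    mpa δ (monomial m c) = monomial m (δ c) := by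
  classical
  ext k
  rw [coeff_mpa, coeff_monomial, coeff_monomial]
  split_ifs <;> simp

theorem mpa_C {L' : Type} [CommRing L'] (δ : L →+ L') (c : L) :
    mpa δ (C c : MvPolynomial J L) = C (δ c) := mpa_monomial δ 0 c

theorem mpa_zP_mul {L' : Type} [CommRing L'] (δ : L →+ L') (Q : MvPolynomial J ℤ)
    (P : MvPolynomial J L) : mpa δ (zP L Q * P) = zP L' Q * mpa δ P := by
  classical
  ext m
  simp only [coeff_mpa, coeff_mul, map_sum, coeff_map, eq_intCast]
  exact Finset.sum_congr rfl fun x _ => by rw [← zsmul_eq_mul, map_zsmul, zsmul_eq_mul]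

theorem monomial_eq_zP (m : J →₀ ℕ) (c : L) : monomial m c = zP L (monomial m 1) * C c := by
  rw [map_monomial, map_one, mul_comm, C_mul_monomial, mul_one]

theorem rC_mpa {L' : Type} [CommRing L'] (δ : L →+ L') (σ : Face J) (P : MvPolynomial J L) :
    rC L' σ (mpa δ P) = mpa δ (rC L σ P) := by
  induction P using MvPolynomial.induction_on' with
  | add p q hp hq => simp [hp, hq]
  | monomial m c =>
    rw [mpa_monomial, monomial_eq_zP, monomial_eq_zP m c, map_mul, map_mul, rC_map, rC_map, rC_C,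
      rC_C, mpa_zP_mul, mpa_C]

theorem pderiv_mpa {L' : Type} [CommRing L'] (δ : L →+ L') (j : J) (P : MvPolynomial J L) :
    pderiv j (mpa δ P) = mpa δ (pderiv j P) := by
  ext m
  rw [coeff_pderiv, coeff_mpa, coeff_mpa, coeff_pderiv, ← Nat.cast_succ, ← Nat.cast_succ,
    ← nsmul_eq_mul', ← nsmul_eq_mul', map_nsmul]

/-- Polynomials of degree at most `D` with coefficients in `G`. -/
def cd (D : ℕ) (G : AddSubgroup L) : AddSubgroup (MvPolynomial J L) where
  carrier := {P | P.totalDegree ≤ D ∧ ∀ m, coeff m P ∈ G}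
  add_mem' := fun {a b} ha hb => ⟨(totalDegree_add a b).trans (max_le ha.1 hb.1), fun m => by
    simpa using G.add_mem (ha.2 m) (hb.2 m)⟩
  zero_mem' := ⟨by simp, fun m => by simp⟩
  neg_mem' := fun {a} ha => ⟨by simpa using ha.1, fun m => by simpa using G.neg_mem (ha.2 m)⟩

theorem mem_cd {D : ℕ} {G : AddSubgroup L} {P : MvPolynomial J L} :
    P ∈ cd D G ↔ P.totalDegree ≤ D ∧ ∀ m, coeff m P ∈ G := Iff.rfl

theorem cd_mono {D D' : ℕ} {G G' : AddSubgroup L} (hD : D ≤ D') (hG : G ≤ G') :
    (cd D G : AddSubgroup (MvPolynomial J L)) ≤ cd D' G' :=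
  fun _ h => ⟨h.1.trans hD, fun m => hG (h.2 m)⟩

theorem cd_ind {D : ℕ} {G : AddSubgroup L} {Y : Type} [AddCommGroup Y] (T : MvPolynomial J L →+ Y)
    (H : AddSubgroup Y) {P : MvPolynomial J L} (hP : P ∈ cd D G)
    (h : ∀ (m : J →₀ ℕ) (g : L), m.degree ≤ D → g ∈ G → T (monomial m g) ∈ H) : T P ∈ H := by
  rw [P.as_sum, map_sum]
  exact sum_mem fun m hm => h m _ ((le_totalDegree hm).trans hP.1) (hP.2 m)

theorem monomial_mem_cd {D : ℕ} {G : AddSubgroup L} {m : J →₀ ℕ} {g : L} (hm : m.degree ≤ D)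
    (hg : g ∈ G) : monomial m g ∈ cd D G := by
  classical
  refine ⟨(totalDegree_monomial_le m g).trans hm, fun k => ?_⟩
  rw [coeff_monomial]
  split_ifs
  exacts [hg, zero_mem _]

theorem C_mem_cd {G : AddSubgroup L} {g : L} (hg : g ∈ G) (D : ℕ) :
    (C g : MvPolynomial J L) ∈ cd D G := monomial_mem_cd (m := 0) (by simp) hg

theorem cd_mul {D D' : ℕ} {G G' G'' : AddSubgroup L} (h : ∀ x ∈ G, ∀ y ∈ G', x * y ∈ G'')
    {P Q : MvPolynomial J L} (hP : P ∈ cd D G) (hQ : Q ∈ cd D' G') : P * Q ∈ cd (D + D') G'' := by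
  classical
  refine ⟨(totalDegree_mul P Q).trans (add_le_add hP.1 hQ.1), fun m => ?_⟩
  rw [coeff_mul]
  exact sum_mem fun x _ => h _ (hP.2 _) _ (hQ.2 _)

theorem totalDegree_zP (Q : MvPolynomial J ℤ) : (zP L Q).totalDegree ≤ Q.totalDegree :=
  Finset.sup_mono (support_map_subset _ _)

theorem zP_mul_cd {D : ℕ} {G : AddSubgroup L} (Q : MvPolynomial J ℤ) {P : MvPolynomial J L}
    (hP : P ∈ cd D G) : zP L Q * P ∈ cd (Q.totalDegree + D) G := by
  refine cd_mul (G := AddSubgroup.zmultiples 1) ?_ ⟨totalDegree_zP Q, fun m => ?_⟩ hP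
  · rintro _ ⟨z, rfl⟩ y hy
    simpa using G.zsmul_mem hy z
  · exact ⟨coeff m Q, by simp [coeff_map]⟩

theorem intCast_mul_cd {D : ℕ} {G : AddSubgroup L} (z : ℤ) {P : MvPolynomial J L}
    (hP : P ∈ cd D G) : (z : MvPolynomial J L) * P ∈ cd D G := by
  rw [← zsmul_eq_mul]
  exact AddSubgroup.zsmul_mem _ hP z

theorem totalDegree_rC_monomial (σ : Face J) (m : J →₀ ℕ) :
    (rC ℤ σ (monomial m 1)).totalDegree ≤ m.degree := by
  rw [monomial_eq, C_1, one_mul, Finsupp.prod, map_prod, Finsupp.degree_apply]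
  refine (totalDegree_finsetProd _ _).trans (Finset.sum_le_sum fun j _ => ?_)
  rw [map_pow, rC_X]
  refine (totalDegree_pow _ _).trans ?_
  rcases h : σ j with _ | _ | _
  · simp [rv_none h]
  · simp [rv_false h]
  · simp [rv_true h]

theorem rC_cd {D : ℕ} {G : AddSubgroup L} (σ : Face J) {P : MvPolynomial J L} (hP : P ∈ cd D G) :
    rC L σ P ∈ cd D G := by
  refine cd_ind (rC L σ).toAddMonoidHom _ hP fun m g hm hg => ?_
  change rC L σ _ ∈ _
  rw [monomial_eq_zP, map_mul, rC_map, rC_C]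
  exact cd_mono (by simpa using (totalDegree_rC_monomial σ m).trans hm) le_rfl
    (zP_mul_cd _ (C_mem_cd hg 0))

theorem totalDegree_rC_le (σ : Face J) (P : MvPolynomial J L) :
    (rC L σ P).totalDegree ≤ P.totalDegree :=
  (rC_cd (G := ⊤) σ ⟨le_rfl, fun _ => trivial⟩).1

theorem pderiv_cd {D : ℕ} {G : AddSubgroup L} (j : J) {P : MvPolynomial J L} (hP : P ∈ cd D G) :
    pderiv j P ∈ cd D G := by
  refine cd_ind (pderiv j).toLinearMap.toAddMonoidHom _ hP fun m g hm hg => ?_
  change pderiv j _ ∈ _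
  rw [pderiv_monomial, ← nsmul_eq_mul']
  exact monomial_mem_cd ((Finsupp.degree_mono tsub_le_self).trans hm) (G.nsmul_mem hg _)

theorem mpa_cd {L' : Type} [CommRing L'] {D : ℕ} {G : AddSubgroup L} {G' : AddSubgroup L'}
    (δ : L →+ L') (h : ∀ x ∈ G, δ x ∈ G') {P : MvPolynomial J L} (hP : P ∈ cd D G) :
    mpa δ P ∈ cd D G' := by
  refine cd_ind _ _ hP fun m g hm hg => ?_
  rw [mpa_monomial]
  exact monomial_mem_cd hm (h g hg)

/-- Polynomials of degree at most `D` whose restriction to the face `σ` has coefficients in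
`G σ`. -/
def FilC (D : ℕ) (G : Face J → AddSubgroup L) : AddSubgroup (MvPolynomial J L) where
  carrier := {P | ∀ σ, rC L σ P ∈ cd D (G σ)}
  add_mem' := fun {a b} ha hb σ => map_add (rC L σ) a b ▸ add_mem (ha σ) (hb σ)
  zero_mem' := fun σ => map_zero (rC L σ) ▸ zero_mem _
  neg_mem' := fun {a} ha σ => map_neg (rC L σ) a ▸ neg_mem (ha σ)

theorem mem_FilC {D : ℕ} {G : Face J → AddSubgroup L} {P : MvPolynomial J L} :
    P ∈ FilC D G ↔ ∀ σ, rC L σ P ∈ cd D (G σ) := Iff.rfl

end Poly

section Forms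

variable {J L : Type} [CommRing L] [Fintype J] [DecidableEq J] {n : ℕ}

/-- Forms on the cube. -/
abbrev Fm (n : ℕ) (J L : Type) [CommRing L] : Type := Gr (Fin n ⊕ J) (MvPolynomial J L)

/-- The differentials that vanish on a face. -/
def kl (n : ℕ) (σ : Face J) : Finset (Fin n ⊕ J) :=
  (Finset.univ.filter fun j => σ j ≠ none).image Sum.inr

@[simp] theorem inl_mem_kl (σ : Face J) (i : Fin n) : Sum.inl i ∉ kl n σ := by simp [kl]

@[simp] theorem inr_mem_kl (σ : Face J) (j : J) : Sum.inr j ∈ kl n σ ↔ σ j ≠ none := by simp [kl]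

theorem disjoint_kl {σ : Face J} {I : Finset (Fin n ⊕ J)} :
    Disjoint I (kl n σ) ↔ ∀ j, Sum.inr j ∈ I → σ j = none := by
  rw [Finset.disjoint_left]
  refine ⟨fun h j hj => by simpa using h hj, fun h a ha => ?_⟩
  rcases a with i | j
  · simp
  · simpa using h j ha

/-- Restriction of a form to a face. -/
def rO (σ : Face J) : Fm n J L →+* Fm n J L := Gr.ev (kl n σ) (rC L σ)

theorem rO_apply (σ : Face J) (ω : Fm n J L) (I : Finset (Fin n ⊕ J)) :
    rO σ ω I = if Disjoint I (kl n σ) then rC L σ (ω I) else 0 := rfl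

theorem rO_of0 (σ : Face J) (P : MvPolynomial J L) :
    rO σ (Gr.of0 P : Fm n J L) = Gr.of0 (rC L σ P) := by
  ext1 I
  rw [rO_apply, Gr.of0_apply, Gr.of0_apply]
  by_cases h : I = ∅
  · simp [h]
  · simp [h]

theorem rO_none (ω : Fm n J L) : rO (fun _ => none) ω = ω := by
  ext1 I
  rw [rO_apply, if_pos (disjoint_kl.2 fun _ _ => rfl), rC_none]

theorem rO_rO (σ τ : Face J) (ω : Fm n J L) :
    rO σ (rO τ ω) = rO (fun j => (τ j).or (σ j)) ω := by
  ext1 I
  simp only [rO_apply, disjoint_kl, Option.or_eq_none_iff]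
  by_cases h1 : ∀ j, Sum.inr j ∈ I → σ j = none
  · by_cases h2 : ∀ j, Sum.inr j ∈ I → τ j = none
    · rw [if_pos h1, if_pos h2, if_pos fun j hj => ⟨h2 j hj, h1 j hj⟩, rC_rC]
    · rw [if_pos h1, if_neg h2, if_neg fun h => h2 fun j hj => (h j hj).1, map_zero]
  · rw [if_neg h1, if_neg fun h => h1 fun j hj => (h j hj).2]

theorem rO_fj (σ : Face J) (j : J) (b : Bool) (ω : Fm n J L) :
    rO σ (rO (fj j b) ω) = rO (Function.update σ j (some b)) ω := by
  rw [rO_rO, fj_or]

theorem fj_rO (σ : Face J) (j : J) (b : Bool) (ω : Fm n J L) :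
    rO (fj j b) (rO (Function.update σ j none) ω) = rO (Function.update σ j (some b)) ω := by
  rw [rO_rO, or_fj]

theorem rO_inv (σ : Face J) (ω : Fm n J L) : rO σ (Gr.inv ω) = Gr.inv (rO σ ω) := by
  ext1 I
  rw [rO_apply, Gr.inv_apply, Gr.inv_apply, rO_apply]
  split_ifs <;> simp

theorem rO_dd {δ : Fin n ⊕ J → MvPolynomial J L →+ MvPolynomial J L} (σ : Face J)
    (h1 : ∀ i P, i ∉ kl n σ → δ i (rC L σ P) = rC L σ (δ i P))
    (h2 : ∀ i P, i ∈ kl n σ → δ i (rC L σ P) = 0) (ω : Fm n J L) :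
    rO σ (Gr.dd δ ω) = Gr.dd δ (rO σ ω) := by
  ext1 I
  rw [rO_apply, Gr.dd_apply, Gr.dd_apply]
  split_ifs with h
  · rw [map_sum]
    refine Finset.sum_congr rfl fun i hi => ?_
    rw [rO_apply, if_pos (h.mono_left (Finset.erase_subset _ _)),
      h1 i _ (Finset.disjoint_left.1 h hi), map_mul, map_intCast]
  · refine (Finset.sum_eq_zero fun i hi => ?_).symm
    rw [rO_apply]
    split_ifs with h'
    · rw [h2 i _ (by
        by_contra hk
        refine h ?_
        rw [← Finset.insert_erase hi]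
        exact Finset.disjoint_insert_left.2 ⟨hk, h'⟩), mul_zero]
    · simp

/-- Forms with all components in `cd D G`. -/
def cdO (D : ℕ) (G : AddSubgroup L) : AddSubgroup (Fm n J L) where
  carrier := {ω | ∀ I, ω I ∈ cd D G}
  add_mem' := fun ha hb I => add_mem (ha I) (hb I)
  zero_mem' := fun _ => zero_mem _
  neg_mem' := fun ha I => neg_mem (ha I)

theorem cdO_mono {D D' : ℕ} {G G' : AddSubgroup L} (hD : D ≤ D') (hG : G ≤ G') :
    (cdO D G : AddSubgroup (Fm n J L)) ≤ cdO D' G' := fun _ h I => cd_mono hD hG (h I)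

theorem cdO_mul {D D' : ℕ} {G G' G'' : AddSubgroup L} (h : ∀ x ∈ G, ∀ y ∈ G', x * y ∈ G'')
    {P Q : Fm n J L} (hP : P ∈ cdO D G) (hQ : Q ∈ cdO D' G') : P * Q ∈ cdO (D + D') G'' :=
  fun I => by
    rw [Gr.mul_apply]
    exact sum_mem fun T _ => intCast_mul_cd _ (cd_mul h (hP _) (hQ _))

theorem of0_cdO {D : ℕ} {G : AddSubgroup L} {P : MvPolynomial J L} (hP : P ∈ cd D G) :
    (Gr.of0 P : Fm n J L) ∈ cdO D G := fun I => by
  rw [Gr.of0_apply]
  split_ifs
  exacts [hP, zero_mem _]

theorem rO_cdO {D : ℕ} {G : AddSubgroup L} (σ : Face J) {ω : Fm n J L} (h : ω ∈ cdO D G) :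
    rO σ ω ∈ cdO D G := fun I => by
  rw [rO_apply]
  split_ifs
  exacts [rC_cd σ (h I), zero_mem _]

theorem inv_cdO {D : ℕ} {G : AddSubgroup L} {ω : Fm n J L} (h : ω ∈ cdO D G) :
    Gr.inv ω ∈ cdO D G := fun I => by
  have := intCast_mul_cd ((-1) ^ I.card) (h I)
  push_cast at this
  exact this

theorem dd_cdO {D D' : ℕ} {G G' : AddSubgroup L}
    {δ : Fin n ⊕ J → MvPolynomial J L →+ MvPolynomial J L}
    (hδ : ∀ i, ∀ P ∈ cd D G, δ i P ∈ cd D' G') {ω : Fm n J L} (h : ω ∈ cdO D G) :
    Gr.dd δ ω ∈ cdO D' G' := fun I => by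
  rw [Gr.dd_apply]
  exact sum_mem fun i _ => intCast_mul_cd _ (hδ i _ (h _))

/-- Forms of degree at most `D` whose restriction to the face `σ` has coefficients in `G σ`. -/
def FilO (D : ℕ) (G : Face J → AddSubgroup L) : AddSubgroup (Fm n J L) where
  carrier := {ω | ∀ σ, rO σ ω ∈ cdO D (G σ)}
  add_mem' := fun {a b} ha hb σ => map_add (rO σ) a b ▸ add_mem (ha σ) (hb σ)
  zero_mem' := fun σ => by
    rw [map_zero]
    exact zero_mem _
  neg_mem' := fun {a} ha σ => map_neg (rO σ) a ▸ neg_mem (ha σ)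

theorem mem_FilO {D : ℕ} {G : Face J → AddSubgroup L} {ω : Fm n J L} :
    ω ∈ FilO D G ↔ ∀ σ, rO σ ω ∈ cdO D (G σ) := Iff.rfl

/-- The conditions on a form in terms of its components. -/
theorem mem_FilO' {D : ℕ} {G : Face J → AddSubgroup L} {ω : Fm n J L} :
    ω ∈ FilO D G ↔
      ∀ I σ, (∀ j, Sum.inr j ∈ I → σ j = none) → rC L σ (ω I) ∈ cd D (G σ) := by
  refine ⟨fun h I σ hσ => ?_, fun h σ I => ?_⟩
  · have := h σ I
    rwa [rO_apply, if_pos (disjoint_kl.2 hσ)] at this
  · rw [rO_apply]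
    split_ifs with h'
    exacts [h I σ (disjoint_kl.1 h'), zero_mem _]

instance [Algebra ℚ L] : Algebra ℚ (Fm n J L) :=
  Algebra.compHom (Fm n J L) (algebraMap ℚ (MvPolynomial J L))

theorem algebraMap_Fm [Algebra ℚ L] (r : ℚ) :
    algebraMap ℚ (Fm n J L) r = Gr.of0 (C (algebraMap ℚ L r)) := rfl

end Forms

end Pool.Agent.P.MP_f43029_ag.XL
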