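import Pool.Agent.P.MP_f43029_ag.Iface

/-!
Exact lifts, pure algebra: filtrations by powers of a unit, pairs, normal forms.
-/

set_option autoImplicit false

noncomputable section

namespace Pool.Agent.P.MP_f43029_ag.XL

open Matrix

/-- `fil u B a` is `u ^ a * B`. -/
def fil {L : Type} [CommRing L] (u : Lˣ) (B : Subring L) (a : ℤ) : AddSubgroup L where
  carrier := {y | ((u ^ (-a) : Lˣ) : L) * y ∈ B}
  add_mem' := fun {x y} hx hy => by
    simp only [Set.mem_ofPred_eq, mul_add] at *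
    exact B.add_mem hx hy
  zero_mem' := by simp
  neg_mem' := fun {x} hx => by
    simp only [Set.mem_ofPred_eq, mul_neg] at *
    exact B.neg_mem hx

theorem mem_fil {L : Type} [CommRing L] {u : Lˣ} {B : Subring L} {a : ℤ} {y : L} :
    y ∈ fil u B a ↔ ((u ^ (-a) : Lˣ) : L) * y ∈ B := Iff.rfl

theorem fil_mul {L : Type} [CommRing L] {u : Lˣ} {B : Subring L} {a b : ℤ} {x y : L}
    (hx : x ∈ fil u B a) (hy : y ∈ fil u B b) : x * y ∈ fil u B (a + b) := by
  have := B.mul_mem hx hy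
  rw [mem_fil, neg_add, _root_.zpow_add, Units.val_mul]
  convert this using 1
  ring

theorem fil_zero {L : Type} [CommRing L] {u : Lˣ} {B : Subring L} {y : L} :
    y ∈ fil u B 0 ↔ y ∈ B := by simp [mem_fil]

theorem zpow_mem_fil {L : Type} [CommRing L] (u : Lˣ) (B : Subring L) (a : ℤ) :
    ((u ^ a : Lˣ) : L) ∈ fil u B a := by
  rw [mem_fil, ← Units.val_mul, ← _root_.zpow_add]
  simp

theorem fil_anti {L : Type} [CommRing L] {u : Lˣ} {B : Subring L} (hu : (u : L) ∈ B) {a b : ℤ}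
    (hab : a ≤ b) : fil u B b ≤ fil u B a := fun y hy => by
  obtain ⟨m, rfl⟩ := Int.le.dest hab
  have h1 : ((u ^ (m : ℤ) : Lˣ) : L) ∈ B := by
    rw [zpow_natCast, Units.val_pow_eq_pow_val]
    exact B.pow_mem hu m
  have := B.mul_mem h1 hy
  rw [mem_fil]
  convert this using 1
  rw [← mul_assoc, ← Units.val_mul, ← _root_.zpow_add]
  congr 3
  ring

theorem fil_mono {L : Type} [CommRing L] (u : Lˣ) {B B' : Subring L} (h : B ≤ B') (a : ℤ) :
    fil u B a ≤ fil u B' a := fun _ hy => h hy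

/-- All entries of a matrix lie in a subgroup. -/
def MemM {a b L : Type} [AddCommGroup L] (G : AddSubgroup L) (X : Matrix a b L) : Prop :=
  ∀ i j, X i j ∈ G

/-- A matrix is even if it only joins indices of the same parity. -/
def EvenM {ι ι' α : Type} [Zero α] (p : ι → Bool) (p' : ι' → Bool) (X : Matrix ι ι' α) : Prop :=
  ∀ i j, p i ≠ p' j → X i j = 0

/-- The parity on the basis of a normal form: `(b, false)` is a source, `(b, true)` its target. -/
def bpar {β : Type} (pb : β → Bool) : β × Bool → Bool := fun x => xor (pb x.1) x.2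

/-- The normal form: source to target by `u ^ a`, target to source by `γ * u ^ (-a)`. -/
def dl {β L : Type} [DecidableEq β] [CommRing L] (u : Lˣ) (γ : L) (a : β → ℤ) :
    Matrix (β × Bool) (β × Bool) L := fun i j =>
  if i.1 = j.1 then
    (if i.2 = true ∧ j.2 = false then ((u ^ a j.1 : Lˣ) : L)
      else if i.2 = false ∧ j.2 = true then γ * ((u ^ (-a j.1) : Lˣ) : L) else 0)
  else 0

/-- The contraction of the normal form. -/
def hd {β L : Type} [DecidableEq β] [CommRing L] (u : Lˣ) (a : β → ℤ) :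
    Matrix (β × Bool) (β × Bool) L := fun i j =>
  if i.1 = j.1 ∧ i.2 = false ∧ j.2 = true then ((u ^ (-a j.1) : Lˣ) : L) else 0

/-- Diagonal matrix of powers of a unit. -/
def dg {ι L : Type} [DecidableEq ι] [CommRing L] (u : Lˣ) (w : ι → ℤ) : Matrix ι ι L :=
  diagonal fun i => ((u ^ w i : Lˣ) : L)

/-- Two rings that agree modulo the `q`-th power of a pseudo-uniformiser. -/
structure PairD (K L : Type) [CommRing K] [CommRing L] (q : ℕ) where
  ϖ : Kˣ
  π : Lˣ
  S : Subring K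
  Bp : Subring L
  Γ : Subring (K × L)
  u_mem : ((ϖ : K), (π : L)) ∈ Γ
  fst_mem : ∀ z ∈ Γ, z.1 ∈ S
  snd_mem : ∀ z ∈ Γ, z.2 ∈ Bp
  kerL : ∀ y, (y, 0) ∈ Γ ↔ y ∈ fil ϖ S q
  kerR : ∀ y, (0, y) ∈ Γ → y ∈ fil π Bp q
  surj : ∀ b ∈ Bp, ∃ y, (y, b) ∈ Γ
  jac : ∀ y ∈ S, ∃ z ∈ S, (1 + ϖ * y) * z = 1

namespace PairD

variable {K L K' L' : Type} [CommRing K] [CommRing L] [CommRing K'] [CommRing L'] {q : ℕ}

/-- The pair of pseudo-uniformisers. -/
def u (P : PairD K L q) : (K × L)ˣ := MulEquiv.prodUnits.symm (P.ϖ, P.π)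

/-- Pairs that agree at level `a`. -/
def T (P : PairD K L q) (a : ℤ) : AddSubgroup (K × L) := fil P.u P.Γ a

/-- Matrices that agree at level `a`. -/
def TM (P : PairD K L q) {ι ι' : Type} (a : ℤ) (X : Matrix ι ι' K) (Y : Matrix ι ι' L) : Prop :=
  ∀ i j, (X i j, Y i j) ∈ P.T a

/-- A morphism of pairs. -/
structure Hom (P : PairD K L q) (P' : PairD K' L' q) where
  φ : K →+* K'
  ψ : L →+* L'
  φϖ : φ P.ϖ = P'.ϖ
  ψπ : ψ P.π = P'.π
  mapS : ∀ y ∈ P.S, φ y ∈ P'.S
  mapΓ : ∀ z ∈ P.Γ, (φ z.1, ψ z.2) ∈ P'.Γ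

/-- The size of the pair `(y, y')` is known: it is `u ^ e` up to a bounded factor, or below the
floor `C`. -/
def Dec (P : PairD K L q) (C : ℕ) (y : K) (y' : L) (e : ℕ) : Prop :=
  e ≤ C ∧ (y, y') ∈ P.T e ∧
    (e < C → ∃ z z', y * z = 1 ∧ y' * z' = 1 ∧ (z, z') ∈ P.T (-(e : ℤ) - 2))

/-- A normal form of the matrix `D` with potential `γ`, together with approximations of the
change of basis on the other side. -/
structure NF (P : PairD K L q) {ι : Type} [Fintype ι] [DecidableEq ι] (p : ι → Bool)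
    (D : Matrix ι ι K) (γ : K) (κ : ℕ) (am : ℤ) where
  β : Type
  [fβ : Fintype β]
  [dβ : DecidableEq β]
  pb : β → Bool
  a : β → ℤ
  a_le : ∀ b, a b ≤ am
  U : Matrix ι (β × Bool) K
  U' : Matrix (β × Bool) ι K
  V : Matrix ι (β × Bool) L
  V' : Matrix (β × Bool) ι L
  evU : EvenM p (bpar pb) U
  evU' : EvenM (bpar pb) p U'
  evV : EvenM p (bpar pb) V
  evV' : EvenM (bpar pb) p V'
  UV : P.TM (-(κ : ℤ)) U V
  UV' : P.TM (-(κ : ℤ)) U' V'
  UU' : U * U' = 1
  DU : D * U = U * dl P.ϖ γ a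
  UD : U' * D = dl P.ϖ γ a * U'

attribute [instance] NF.fβ NF.dβ

end PairD

/-- A commutative ring with a subring of bounded elements in which small matrices behave as if the
ring were complete. -/
structure Bdd (A : Type) [CommRing A] where
  π : Aˣ
  Ap : Subring A
  π_mem : (π : A) ∈ Ap
  cat : ∀ (ι : Type) [Fintype ι] [DecidableEq ι] (w : Matrix ι ι A), MemM (fil π Ap 1) w →
    ∃ ev : PowerSeries ℤ →+* Matrix ι ι A, ev PowerSeries.X = w ∧
      (∀ s, MemM (fil π Ap 0) (ev s)) ∧ ∀ s y, y * w = w * y → y * ev s = ev s * y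

/-- The matrix `Dt` over `A` is intertwined with the normal form by matrices close to the
approximations. -/
structure Loc {K L A : Type} [CommRing K] [CommRing L] [CommRing A] {q : ℕ} (P : PairD K L q)
    (B : Bdd A) (c : L →+* A) {ι : Type} [Fintype ι] [DecidableEq ι] (p : ι → Bool)
    (D : Matrix ι ι K) (γ : K) (Dt : Matrix ι ι A) (γt : A) (κ : ℕ) (μ am : ℤ) where
  nf : P.NF p D γ κ am
  Y : Matrix ι (nf.β × Bool) A
  Y' : Matrix (nf.β × Bool) ι A
  evY : EvenM p (bpar nf.pb) Y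
  evY' : EvenM (bpar nf.pb) p Y'
  DY : Dt * Y = Y * dl B.π γt nf.a
  YD : Y' * Dt = dl B.π γt nf.a * Y'
  YV : MemM (fil B.π B.Ap μ) (Y - nf.V.map c)
  YV' : MemM (fil B.π B.Ap μ) (Y' - nf.V'.map c)

/-- The map of constants respects the bounded structures. -/
structure Cst {K L A : Type} [CommRing K] [CommRing L] [CommRing A] {q : ℕ} (P : PairD K L q)
    (B : Bdd A) (c : L →+* A) : Prop where
  cπ : c P.π = B.π
  cB : ∀ y ∈ P.Bp, c y ∈ B.Ap

end Pool.Agent.P.MP_f43029_ag.XL
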