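import Pool.Agent.P.MP_f43029_ag.XL.Basic

/-!
Exact lifts, Chern-Weil side: abstract differential graded algebras.
-/

set_option autoImplicit false

noncomputable section

namespace Pool.Agent.P.MP_f43029_ag.XL

open Matrix

/-- A graded-commutative differential algebra `Ω` generated over its functions `A`, in the weak
form that the trace computations use. `Fd r` are the forms of degree at least `r`. -/
structure DG (A Ω : Type) [CommRing A] [Ring Ω] [Algebra ℚ Ω] where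
  i : A →+* Ω
  d : Ω →+ Ω
  ε : Ω →+* Ω
  Fd : ℕ → AddSubgroup Ω
  comm : ∀ a ω, i a * ω = ω * i a
  ε_i : ∀ a, ε (i a) = i a
  ε_d : ∀ ω, ε (d ω) = -d (ε ω)
  d_mul : ∀ x y, d (x * y) = d x * y + ε x * d y
  d_d : ∀ ω, d (d ω) = 0
  d_comm : ∀ a ω, d (i a) * ω = ε ω * d (i a)
  d_sq : ∀ a, d (i a) * d (i a) = 0
  Fd_zero : ∀ ω, ω ∈ Fd 0
  Fd_mul : ∀ r s x y, x ∈ Fd r → y ∈ Fd s → x * y ∈ Fd (r + s)
  Fd_d : ∀ a, d (i a) ∈ Fd 1
  Fd_anti : ∀ r s, r ≤ s → Fd s ≤ Fd r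

namespace DG

variable {A Ω A' Ω' : Type} [CommRing A] [Ring Ω] [Algebra ℚ Ω] [CommRing A'] [Ring Ω']
  [Algebra ℚ Ω']

/-- Exact forms. -/
def Ex (G : DG A Ω) (ω : Ω) : Prop := ∃ η, G.d η = ω

/-- A morphism. -/
structure Hom (G : DG A Ω) (G' : DG A' Ω') where
  a : A →+* A'
  o : Ω →+* Ω'
  o_i : ∀ x, o (G.i x) = G'.i (a x)
  o_d : ∀ ω, o (G.d ω) = G'.d (o ω)

/-- A homotopy parameter. -/
structure Hot (G : DG A Ω) where
  x : A
  r : Bool → G.Hom G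
  r_false : (r false).a x = 0
  r_true : (r true).a x = 1
  r_r : ∀ b y, (r b).a ((r false).a y) = (r false).a y
  ex : ∀ b ω, G.d ω = 0 → G.Ex (ω - (r b).o ω)

variable {ι : Type} [Fintype ι] [DecidableEq ι]

/-- An even invertible matrix that is joined to the identity by a path of such matrices. -/
def Hot.Unip {G : DG A Ω} (h : G.Hot) (p : ι → Bool) (Z : Matrix ι ι A) : Prop :=
  ∃ Y Y' : Matrix ι ι A, EvenM p p Y ∧ Y * Y' = 1 ∧ Y.map (h.r false).a = 1 ∧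
    Y.map (h.r true).a = Z.map (h.r false).a

/-- A matrix of functions as a matrix of forms. -/
def iM (G : DG A Ω) {a b : Type} (X : Matrix a b A) : Matrix a b Ω := X.map G.i

/-- The differential of a matrix of functions. -/
def dM (G : DG A Ω) {a b : Type} (X : Matrix a b A) : Matrix a b Ω := X.map fun y => G.d (G.i y)

/-- The supertrace. -/
def str (p : ι → Bool) (X : Matrix ι ι Ω) : Ω := trace (SM Ω p * X)

/-- `str (dX ^ m)`. -/
def cc (G : DG A Ω) (p : ι → Bool) (X : Matrix ι ι A) (m : ℕ) : Ω := str p (G.dM X ^ m)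

/-- `str (X dX ^ m)`. -/
def tt (G : DG A Ω) (p : ι → Bool) (X : Matrix ι ι A) (m : ℕ) : Ω := str p (G.iM X * G.dM X ^ m)

/-- The odd Chern form `str ((B dB) ^ m)` of an odd involution. -/
def oo (G : DG A Ω) (p : ι → Bool) (B : Matrix ι ι A) (m : ℕ) : Ω :=
  str p ((G.iM B * G.dM B) ^ m)

end DG

/-- The projection to the indices of parity `b`. -/
def PP (α : Type) [Zero α] [One α] {ι : Type} [DecidableEq ι] (p : ι → Bool) (b : Bool) :
    Matrix ι ι α := diagonal fun i => if p i = b then 1 else 0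

/-- `H` is an odd contraction of square zero of the complex `D`. -/
structure Contr {A ι : Type} [CommRing A] [Fintype ι] [DecidableEq ι] (p : ι → Bool)
    (D H : Matrix ι ι A) : Prop where
  odd : OddM p p H
  sq : H * H = 0
  hom : D * H + H * D = 1

/-- The involution attached to a matrix factorization of a unit `γ` with inverse `γ'`. -/
def BU {A ι : Type} [CommRing A] [Fintype ι] [DecidableEq ι] (p : ι → Bool) (D : Matrix ι ι A)
    (γ' : A) : Matrix ι ι A := D * PP A p false + γ' • (D * PP A p true)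

/-- The geometric situation of the end game: a sphere `S` covered by `U` and a tube `T` with
overlap `O`, and an affinoid `W` mapping to `U`. -/
structure Geo (n : ℕ) (AS ΩS AU ΩU AT ΩT AO ΩO AW ΩW : Type)
    [CommRing AS] [Ring ΩS] [Algebra ℚ ΩS] [CommRing AU] [Ring ΩU] [Algebra ℚ ΩU]
    [CommRing AT] [Ring ΩT] [Algebra ℚ ΩT] [CommRing AO] [Ring ΩO] [Algebra ℚ ΩO]
    [CommRing AW] [Ring ΩW] [Algebra ℚ ΩW] where
  GS : DG AS ΩS
  GU : DG AU ΩU
  GT : DG AT ΩT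
  GO : DG AO ΩO
  GW : DG AW ΩW
  hS : GS.Hot
  hU : GU.Hot
  hO : GO.Hot
  ρU : GS.Hom GU
  ρT : GS.Hom GT
  σU : GU.Hom GO
  σT : GT.Hom GO
  κ : GW.Hom GU
  σρ : ∀ ω, σU.o (ρU.o ω) = σT.o (ρT.o ω)
  σρa : ∀ y, σU.a (ρU.a y) = σT.a (ρT.a y)
  τ : AS
  τ_r : (hS.r false).a τ = τ
  zU : GU.Hom GU
  zT : GT.Hom GT
  zU_τ : zU.a (ρU.a τ) = 0
  zT_τ : zT.a (ρT.a τ) = 1
  zU_ex : ∀ ω, GU.d ω = 0 → GU.Ex (ω - zU.o ω)
  inj : ∀ ω, σU.o (ρU.o ω) = 0 → zU.o (ρU.o ω) = 0 → zT.o (ρT.o ω) = 0 → ω = 0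
  inja : ∀ y, σU.a (ρU.a y) = 0 → zU.a (ρU.a y) = 0 → zT.a (ρT.a y) = 0 → y = 0
  exU : ∀ ω, ∃ ω', ρU.o ω' = GU.i (1 - ρU.a τ) * ω ∧ zT.o (ρT.o ω') = 0
  exT : ∀ ω, ∃ ω', ρT.o ω' = GT.i (ρT.a τ) * ω ∧ zU.o (ρU.o ω') = 0
  exO : ∀ ω, ∃ ω', σU.o (ρU.o ω') = GO.d (GO.i (σU.a (ρU.a τ))) * ω ∧ zU.o (ρU.o ω') = 0 ∧
    zT.o (ρT.o ω') = 0
  exUa : ∀ y, ∃ y', ρU.a y' = (1 - ρU.a τ) * y ∧ zT.a (ρT.a y') = 0
  exTa : ∀ y, ∃ y', ρT.a y' = ρT.a τ * y ∧ zU.a (ρU.a y') = 0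
  Res : ΩS →ₗ[ℚ] ℚ
  Res_d : ∀ ω, Res (GS.d ω) = 0
  van : ∀ ω ∈ GW.Fd (n + 1), GW.d ω = 0 → GW.Ex ω

/-- The data of one matrix factorization in the end game: a square-zero contraction on the tube
and a model over the affinoid. -/
structure Geo.Obj {n : ℕ} {AS ΩS AU ΩU AT ΩT AO ΩO AW ΩW : Type}
    [CommRing AS] [Ring ΩS] [Algebra ℚ ΩS] [CommRing AU] [Ring ΩU] [Algebra ℚ ΩU]
    [CommRing AT] [Ring ΩT] [Algebra ℚ ΩT] [CommRing AO] [Ring ΩO] [Algebra ℚ ΩO]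
    [CommRing AW] [Ring ΩW] [Algebra ℚ ΩW] (G : Geo n AS ΩS AU ΩU AT ΩT AO ΩO AW ΩW)
    {ι : Type} [Fintype ι] [DecidableEq ι] (p : ι → Bool) (D : Matrix ι ι AS) (γ : AS)
    (γW : AW) : Prop where
  odd : OddM p p D
  sq : D * D = γ • (1 : Matrix ι ι AS)
  tube : ∃ Z, Contr p (D.map G.ρT.a) Z
  aff : ∃ (DW : Matrix ι ι AW) (Z : Matrix ι ι AU), OddM p p DW ∧
    DW * DW = γW • (1 : Matrix ι ι AW) ∧ EvenM p p Z ∧ IsUnit Z ∧ G.hU.Unip p Z ∧
    Z * DW.map G.κ.a = (D.map G.ρU.a).map G.zU.a * Z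

/-- The index set of the iterated tensor product of rank one complexes. -/
def KI : ℕ → Type
  | 0 => Unit
  | n + 1 => Bool × KI n

instance KI.fintype : ∀ n, Fintype (KI n)
  | 0 => inferInstanceAs (Fintype Unit)
  | n + 1 => @instFintypeProd Bool (KI n) _ (KI.fintype n)

instance KI.decEq : ∀ n, DecidableEq (KI n)
  | 0 => inferInstanceAs (DecidableEq Unit)
  | n + 1 => @instDecidableEqProd Bool (KI n) _ (KI.decEq n)

/-- The parity on the Koszul complex. -/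
def kpar : ∀ n, KI n → Bool
  | 0 => fun _ => false
  | n + 1 => tpar (fun b : Bool => b) (kpar n)

/-- The rank one matrix with `z` from even to odd and `y` from odd to even. -/
def k1 {A : Type} [CommRing A] (z y : A) : Matrix Bool Bool A := fun i j =>
  if i = true ∧ j = false then z else if i = false ∧ j = true then y else 0

/-- The Koszul matrix `∑ z i * ext i + y i * con i`. -/
def kos {A : Type} [CommRing A] : ∀ n, (Fin n → A) → (Fin n → A) → Matrix (KI n) (KI n) A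
  | 0, _, _ => 0
  | n + 1, z, y => tens (ι₁ := Bool) (ι₂ := KI n) (fun b => b) (k1 (z 0) (y 0))
      (kos n (fun i => z i.succ) fun i => y i.succ)

end Pool.Agent.P.MP_f43029_ag.XL
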