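import Pool.Agent.P.MP_f43029_ag.CATens
import Pool.Agent.P.MP_f43029_ag.XL.DG

/-!
Characteristic forms over an abstract super commutative differential algebra.
-/

set_option autoImplicit false
set_option linter.unusedSectionVars false

namespace Pool.Agent.P.MP_f43029_ag.CW

open Matrix

/-- A differential algebra with a parity automorphism. -/
class SD (Ω : Type) [Ring Ω] where
  inv : Ω →+* Ω
  d : Ω →+ Ω
  d_mul : ∀ a b, d (a * b) = d a * b + inv a * d b
  d_d : ∀ a, d (d a) = 0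
  inv_d : ∀ a, inv (d a) = -d (inv a)
  tf : ∀ a : Ω, a = -a → a = 0

export SD (inv d)

/-- The zero forms `A` are even. -/
class EvAlg (A Ω : Type) [CommRing A] [Ring Ω] [Algebra A Ω] [SD Ω] : Prop where
  inv_alg : ∀ a : A, inv (algebraMap A Ω a) = algebraMap A Ω a
  d_comm : ∀ (a : A) (w : Ω), d (algebraMap A Ω a) * w = inv w * d (algebraMap A Ω a)

section Basic

variable {Ω : Type} [Ring Ω] [SD Ω]

theorem d_one : d (1 : Ω) = 0 := by
  have h := SD.d_mul (1 : Ω) 1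
  simp only [mul_one, map_one, one_mul] at h
  simpa using h

theorem d_intCast (n : ℤ) : d (n : Ω) = 0 := by
  rw [← zsmul_one, map_zsmul, d_one, smul_zero]

/-- `a` and `b` differ by an exact form. -/
def Coh (a b : Ω) : Prop := ∃ c, a - b = d c

theorem Coh.refl (a : Ω) : Coh a a := ⟨0, by simp⟩

theorem Coh.of_eq {a b : Ω} (h : a = b) : Coh a b := h ▸ Coh.refl a

theorem Coh.symm {a b : Ω} (h : Coh a b) : Coh b a := by
  obtain ⟨c, hc⟩ := h
  exact ⟨-c, by rw [map_neg, ← hc, neg_sub]⟩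

theorem Coh.trans {a b c : Ω} (h : Coh a b) (h' : Coh b c) : Coh a c := by
  obtain ⟨x, hx⟩ := h
  obtain ⟨y, hy⟩ := h'
  exact ⟨x + y, by rw [map_add, ← hx, ← hy, sub_add_sub_cancel]⟩

theorem Coh.add {a b a' b' : Ω} (h : Coh a b) (h' : Coh a' b') : Coh (a + a') (b + b') := by
  obtain ⟨x, hx⟩ := h
  obtain ⟨y, hy⟩ := h'
  exact ⟨x + y, by rw [map_add, ← hx, ← hy]; abel⟩

theorem Coh.neg {a b : Ω} (h : Coh a b) : Coh (-a) (-b) := by
  obtain ⟨x, hx⟩ := h
  exact ⟨-x, by rw [map_neg, ← hx]; abel⟩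

theorem Coh.mul_right {a b : Ω} (h : Coh a b) {c : Ω} (hc : d c = 0) : Coh (a * c) (b * c) := by
  obtain ⟨x, hx⟩ := h
  exact ⟨x * c, by rw [SD.d_mul, hc, mul_zero, add_zero, ← hx, sub_mul]⟩

theorem Coh.sub {a b a' b' : Ω} (h : Coh a b) (h' : Coh a' b') : Coh (a - a') (b - b') := by
  rw [sub_eq_add_neg, sub_eq_add_neg]
  exact h.add h'.neg

theorem Coh.zsmul {a b : Ω} (h : Coh a b) (n : ℤ) : Coh (n • a) (n • b) := by
  obtain ⟨x, hx⟩ := h
  exact ⟨n • x, by rw [map_zsmul, ← hx, smul_sub]⟩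

theorem Coh.mul_left_ev {a b : Ω} (h : Coh a b) {c : Ω} (hc : d c = 0) (hi : inv c = c) :
    Coh (c * a) (c * b) := by
  obtain ⟨x, hx⟩ := h
  exact ⟨c * x, by rw [SD.d_mul, hc, zero_mul, zero_add, hi, ← hx, mul_sub]⟩

theorem Coh.mul_left_od {a b : Ω} (h : Coh a b) {c : Ω} (hc : d c = 0) (hi : inv c = -c) :
    Coh (c * a) (c * b) := by
  obtain ⟨x, hx⟩ := h
  exact ⟨-(c * x), by
    rw [map_neg, SD.d_mul, hc, zero_mul, zero_add, hi, neg_mul, neg_neg, ← hx, mul_sub]⟩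

theorem Coh.closed {a b : Ω} (h : Coh a b) (hb : d b = 0) : d a = 0 := by
  obtain ⟨x, hx⟩ := h
  rw [← sub_add_cancel a b, hx, map_add, SD.d_d, hb, add_zero]

theorem d_mul_closed {a b : Ω} (ha : d a = 0) (hb : d b = 0) : d (a * b) = 0 := by
  rw [SD.d_mul, ha, hb, zero_mul, mul_zero, add_zero]

/-- Odd elements that commute in the graded sense with everything. -/
def Od (a : Ω) : Prop := inv a = -a ∧ ∀ b, a * b = inv b * a

theorem Od.zero : Od (0 : Ω) := ⟨by simp, fun b => by simp⟩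

theorem Od.add {a b : Ω} (ha : Od a) (hb : Od b) : Od (a + b) :=
  ⟨by rw [map_add, ha.1, hb.1, neg_add], fun c => by rw [add_mul, mul_add, ha.2, hb.2]⟩

theorem Od.neg {a : Ω} (ha : Od a) : Od (-a) :=
  ⟨by rw [map_neg, ha.1], fun c => by rw [neg_mul, mul_neg, ha.2]⟩

theorem Od.sum {κ : Type} (s : Finset κ) {a : κ → Ω} (ha : ∀ k ∈ s, Od (a k)) :
    Od (∑ k ∈ s, a k) :=
  Finset.sum_induction _ _ (fun _ _ => Od.add) Od.zero ha

theorem Od.sq {a : Ω} (h : Od a) : a * a = 0 := by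
  refine SD.tf _ ?_
  conv_lhs => rw [h.2, h.1, neg_mul]

theorem Od.anti {a b : Ω} (ha : Od a) (hb : inv b = -b) : a * b = -(b * a) := by
  rw [ha.2, hb, neg_mul]

theorem Od.comm {a b : Ω} (ha : Od a) (hb : inv b = b) : a * b = b * a := by
  rw [ha.2, hb]

/-- Morphisms. -/
structure IsHom {Ω' : Type} [Ring Ω'] [SD Ω'] (f : Ω →+* Ω') : Prop where
  map_d : ∀ a, f (d a) = d (f a)

theorem IsHom.comp {Ω' Ω'' : Type} [Ring Ω'] [SD Ω'] [Ring Ω''] [SD Ω''] {g : Ω' →+* Ω''}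
    {f : Ω →+* Ω'} (hg : IsHom g) (hf : IsHom f) : IsHom (g.comp f) :=
  ⟨fun a => by rw [RingHom.comp_apply, hf.map_d, hg.map_d, RingHom.comp_apply]⟩

theorem Coh.map {Ω' : Type} [Ring Ω'] [SD Ω'] {f : Ω →+* Ω'} (hf : IsHom f) {a b : Ω}
    (h : Coh a b) : Coh (f a) (f b) := by
  obtain ⟨x, hx⟩ := h
  exact ⟨f x, by rw [← hf.map_d, ← hx, map_sub]⟩

theorem IsHom.closed {Ω' : Type} [Ring Ω'] [SD Ω'] {f : Ω →+* Ω'} (hf : IsHom f) {a : Ω}
    (h : d a = 0) : d (f a) = 0 := by rw [← hf.map_d, h, map_zero]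

end Basic

section Mat

variable {Ω : Type} [Ring Ω] [SD Ω] {ι κ μ : Type} [Fintype ι] [Fintype κ] [Fintype μ]
  [DecidableEq ι] [DecidableEq κ] [DecidableEq μ]

/-- All entries are odd forms. -/
def OdE (X : Matrix ι κ Ω) : Prop := ∀ i j, Od (X i j)

theorem OdE.map_inv {X : Matrix ι κ Ω} (h : OdE X) : X.map inv = -X := by
  ext i j
  exact (h i j).1

theorem OdE.add {X Y : Matrix ι κ Ω} (h : OdE X) (h' : OdE Y) : OdE (X + Y) :=
  fun i j => (h i j).add (h' i j)

theorem OdE.neg {X : Matrix ι κ Ω} (h : OdE X) : OdE (-X) := fun i j => (h i j).neg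

theorem dmap_mul (X : Matrix ι κ Ω) (Y : Matrix κ μ Ω) :
    (X * Y).map d = X.map d * Y + X.map inv * Y.map d := by
  ext i j
  simp only [Matrix.map_apply, Matrix.mul_apply, Matrix.add_apply, map_sum, SD.d_mul, Finset.sum_add_distrib]

theorem trace_odE (X : Matrix ι κ Ω) {Y : Matrix κ ι Ω} (hY : OdE Y) :
    trace (Y * X) = trace (X.map inv * Y) := by
  simp only [trace, Matrix.diag, Matrix.mul_apply, Matrix.map_apply]
  rw [Finset.sum_comm]
  exact Finset.sum_congr rfl fun i _ => Finset.sum_congr rfl fun j _ => (hY _ _).2 _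

theorem SM_map {α β : Type} [Ring α] [Ring β] (f : α →+* β) (p : ι → Bool) :
    (SM α p).map f = SM β p := by
  rw [SM, SM, diagonal_map (map_zero f)]
  simp

theorem SM_d (p : ι → Bool) : (SM Ω p).map d = 0 := by
  ext i j
  simp only [SM, Matrix.map_apply, Matrix.diagonal_apply, Matrix.zero_apply]
  split_ifs
  · exact d_intCast _
  · exact map_zero _

theorem SM_sq {α : Type} [Ring α] (p : ι → Bool) : SM α p * SM α p = 1 := by
  rw [SM, diagonal_mul_diagonal, ← diagonal_one]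
  congr 1
  funext i
  cases p i <;> simp [sg]

theorem SM_anti' {α : Type} [Ring α] {p : ι → Bool} {X : Matrix ι ι α} (h : OddM p p X) :
    X * SM α p = -(SM α p * X) := by
  ext i j
  simp only [SM, mul_diagonal, diagonal_mul, Matrix.neg_apply]
  by_cases e : p i = p j
  · simp [h i j e]
  · cases hi : p i <;> cases hj : p j <;> simp_all [sg]

theorem trace_SM_comm {α : Type} [Ring α] (p : ι → Bool) (X : Matrix ι ι α) :
    trace (X * SM α p) = trace (SM α p * X) := by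
  simp only [trace, Matrix.diag, SM, mul_diagonal, diagonal_mul]
  exact Finset.sum_congr rfl fun i _ => (Int.cast_comm _ _).symm

theorem d_trace_SM (p : ι → Bool) (X : Matrix ι ι Ω) :
    d (trace (SM Ω p * X)) = trace (SM Ω p * X.map d) := by
  have : d (trace (SM Ω p * X)) = trace ((SM Ω p * X).map d) := by
    simp only [trace, Matrix.diag, map_sum, Matrix.map_apply]
  rw [this, dmap_mul, SM_d, zero_mul, zero_add, SM_map]

theorem map_trace' {α β : Type} [Ring α] [Ring β] (f : α →+* β) (X : Matrix ι ι α) :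
    f (trace X) = trace (X.map f) := by
  simp only [trace, Matrix.diag, map_sum, Matrix.map_apply]

theorem map_pow' {α β : Type} [Ring α] [Ring β] (f : α →+* β) (X : Matrix ι ι α) (m : ℕ) :
    (X ^ m).map f = X.map f ^ m := map_pow f.mapMatrix X m

theorem OdE.inv_pow {X : Matrix ι ι Ω} (h : OdE X) (m : ℕ) :
    (X ^ m).map inv = (-1 : ℤ) ^ m • X ^ m := by
  rw [map_pow', h.map_inv, ← neg_one_zsmul, smul_pow]

/-- Even powers of a matrix of odd forms have no supertrace. -/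
theorem trace_even_pow {p : ι → Bool} {X : Matrix ι ι Ω} (h : OdE X)
    (hc : X * SM Ω p = SM Ω p * X) (m : ℕ) : trace (SM Ω p * X ^ (2 * m + 2)) = 0 := by
  refine SD.tf _ ?_
  have e1 : SM Ω p * X ^ (2 * m + 2) = X * (SM Ω p * X ^ (2 * m + 1)) := by
    rw [← mul_assoc, hc, mul_assoc, ← pow_succ']
  conv_lhs => rw [e1, trace_odE _ h, Matrix.map_mul, SM_map, h.inv_pow]
  rw [Odd.neg_one_pow ⟨m, rfl⟩, neg_one_zsmul, mul_neg, neg_mul, trace_neg, mul_assoc,
    ← pow_succ]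

/-- Flat connection forms. -/
structure MC (p : ι → Bool) (θ : Matrix ι ι Ω) : Prop where
  od : OdE θ
  dd : θ.map d = -(θ * θ)
  cs : θ * SM Ω p = SM Ω p * θ

/-- The odd characteristic form of degree `2 m + 1`. -/
def om (p : ι → Bool) (θ : Matrix ι ι Ω) (m : ℕ) : Ω := trace (SM Ω p * θ ^ (2 * m + 1))

theorem MC.d_pow {p : ι → Bool} {θ : Matrix ι ι Ω} (h : MC p θ) (m : ℕ) :
    (θ ^ (2 * m)).map d = 0 ∧ (θ ^ (2 * m + 1)).map d = -θ ^ (2 * m + 2) := by
  have key : ∀ m, (θ ^ (2 * m)).map d = 0 → (θ ^ (2 * m + 1)).map d = -θ ^ (2 * m + 2) := by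
    intro m hm
    rw [pow_succ, dmap_mul, hm, zero_mul, zero_add, h.od.inv_pow, h.dd,
      Even.neg_one_pow ⟨m, by ring⟩, one_smul, mul_neg, ← mul_assoc, ← pow_succ, ← pow_succ]
  induction m with
  | zero =>
    have : (θ ^ (2 * 0)).map d = 0 := by
      ext i j
      simp only [mul_zero, pow_zero, Matrix.map_apply, Matrix.one_apply, Matrix.zero_apply]
      split_ifs
      · exact d_one
      · exact map_zero _
    exact ⟨this, key 0 this⟩
  | succ m ih =>
    have : (θ ^ (2 * (m + 1))).map d = 0 := by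
      rw [show 2 * (m + 1) = 2 * m + 1 + 1 by ring, pow_succ, dmap_mul, ih.2, h.od.inv_pow, h.dd,
        Odd.neg_one_pow ⟨m, rfl⟩, neg_one_zsmul, neg_mul_neg, neg_mul, ← mul_assoc, ← pow_succ,
        ← pow_succ, ← pow_succ, neg_add_cancel]
    exact ⟨this, key _ this⟩

theorem MC.closed {p : ι → Bool} {θ : Matrix ι ι Ω} (h : MC p θ) (m : ℕ) : d (om p θ m) = 0 := by
  rw [om, d_trace_SM, (h.d_pow m).2, mul_neg, trace_neg, trace_even_pow h.od h.cs, neg_zero]

theorem inv_om {p : ι → Bool} {θ : Matrix ι ι Ω} (h : OdE θ) (m : ℕ) :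
    inv (om p θ m) = -om p θ m := by
  rw [om, map_trace', Matrix.map_mul, SM_map, h.inv_pow, Odd.neg_one_pow ⟨m, rfl⟩, neg_one_zsmul,
    mul_neg, trace_neg]

theorem map_om {Ω' : Type} [Ring Ω'] [SD Ω'] (f : Ω →+* Ω') (p : ι → Bool) (θ : Matrix ι ι Ω)
    (m : ℕ) : f (om p θ m) = om p (θ.map f) m := by
  rw [om, map_trace', Matrix.map_mul, SM_map, map_pow', om]

end Mat

section Zero

variable {A Ω : Type} [CommRing A] [Ring Ω] [Algebra A Ω] [SD Ω] [EvAlg A Ω]
  {ι κ μ : Type} [Fintype ι] [Fintype κ] [Fintype μ]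
  [DecidableEq ι] [DecidableEq κ] [DecidableEq μ]

variable (Ω) in
/-- The differential of a zero form. -/
def d0 (a : A) : Ω := d (algebraMap A Ω a)

variable (Ω) in
/-- A matrix of zero forms. -/
def cM (X : Matrix ι κ A) : Matrix ι κ Ω := X.map (algebraMap A Ω)

variable (Ω) in
/-- The differential of a matrix of zero forms. -/
def dM (X : Matrix ι κ A) : Matrix ι κ Ω := X.map (d0 Ω)

theorem inv_d0 (a : A) : inv (d0 Ω a) = -d0 Ω a := by
  rw [d0, SD.inv_d, EvAlg.inv_alg]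

theorem od_d0 (a : A) : Od (d0 Ω a) := ⟨inv_d0 a, EvAlg.d_comm a⟩

theorem d_d0 (a : A) : d (d0 Ω a) = 0 := SD.d_d _

theorem d0_add (a b : A) : d0 Ω (a + b) = d0 Ω a + d0 Ω b := by simp [d0]

theorem d0_sub (a b : A) : d0 Ω (a - b) = d0 Ω a - d0 Ω b := by simp [d0]

theorem d0_neg (a : A) : d0 Ω (-a) = -d0 Ω a := by simp [d0]

theorem d0_zero : d0 Ω (0 : A) = 0 := by simp [d0]

theorem d0_one : d0 Ω (1 : A) = 0 := by rw [d0, map_one, d_one]

theorem d0_intCast (n : ℤ) : d0 Ω (n : A) = 0 := by rw [d0, map_intCast, d_intCast]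

theorem d_smul (a : A) (x : Ω) : d (a • x) = d0 Ω a * x + a • d x := by
  rw [Algebra.smul_def, SD.d_mul, EvAlg.inv_alg, Algebra.smul_def, d0]

theorem inv_smul (a : A) (x : Ω) : inv (a • x) = a • inv x := by
  rw [Algebra.smul_def, map_mul, EvAlg.inv_alg, Algebra.smul_def]

theorem Od.smul {x : Ω} (h : Od x) (a : A) : Od (a • x) :=
  ⟨by rw [inv_smul, h.1, smul_neg], fun b => by rw [smul_mul_assoc, h.2, mul_smul_comm]⟩

theorem d0_mul (a b : A) : d0 Ω (a * b) = b • d0 Ω a + a • d0 Ω b := by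
  rw [d0, map_mul, SD.d_mul, EvAlg.inv_alg, Algebra.smul_def, Algebra.smul_def,
    Algebra.commutes b, d0, d0]

theorem d0_pow (a : A) (m : ℕ) : d0 Ω (a ^ (m + 1)) = ((m + 1 : ℕ) * a ^ m : A) • d0 Ω a := by
  induction m with
  | zero => simp
  | succ m ih =>
    rw [pow_succ, d0_mul, ih, smul_smul, ← add_smul]
    congr 1
    push_cast
    ring

theorem cM_mul (X : Matrix ι κ A) (Y : Matrix κ μ A) : cM Ω (X * Y) = cM Ω X * cM Ω Y :=
  Matrix.map_mul

theorem cM_add (X Y : Matrix ι κ A) : cM Ω (X + Y) = cM Ω X + cM Ω Y :=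
  Matrix.map_add _ (map_add _) _ _

theorem cM_sub (X Y : Matrix ι κ A) : cM Ω (X - Y) = cM Ω X - cM Ω Y :=
  Matrix.map_sub _ (map_sub _) _ _

theorem cM_zero : cM Ω (0 : Matrix ι κ A) = 0 := Matrix.map_zero _ (map_zero _)

theorem cM_one : cM Ω (1 : Matrix ι ι A) = 1 := Matrix.map_one _ (map_zero _) (map_one _)

theorem cM_smul (a : A) (X : Matrix ι κ A) : cM Ω (a • X) = a • cM Ω X := by
  ext i j
  simp [cM, Algebra.smul_def]

theorem cM_SM (p : ι → Bool) : cM Ω (SM A p) = SM Ω p := SM_map _ p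

theorem cM_inv (X : Matrix ι κ A) : (cM Ω X).map inv = cM Ω X := by
  ext i j
  exact EvAlg.inv_alg _

theorem cM_d (X : Matrix ι κ A) : (cM Ω X).map d = dM Ω X := rfl

theorem dM_od (X : Matrix ι κ A) : OdE (dM Ω X) := fun _ _ => od_d0 _

theorem OdE.cM_mul {Y : Matrix κ μ Ω} (h : OdE Y) (X : Matrix ι κ A) : OdE (cM Ω X * Y) :=
  fun i j => Od.sum _ fun k _ => by
    change Od (algebraMap A Ω (X i k) * Y k j)
    rw [← Algebra.smul_def]
    exact (h k j).smul _

theorem OdE.mul_cM {Y : Matrix ι κ Ω} (h : OdE Y) (X : Matrix κ μ A) : OdE (Y * cM Ω X) :=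
  fun i j => Od.sum _ fun k _ => by
    change Od (Y i k * algebraMap A Ω (X k j))
    rw [← Algebra.commutes, ← Algebra.smul_def]
    exact (h i k).smul _

theorem OdE.smul {Y : Matrix ι κ Ω} (h : OdE Y) (a : A) : OdE (a • Y) :=
  fun i j => (h i j).smul a

theorem dM_d (X : Matrix ι κ A) : (dM Ω X).map d = 0 := by
  ext i j
  exact d_d0 _

theorem dM_mul (X : Matrix ι κ A) (Y : Matrix κ μ A) :
    dM Ω (X * Y) = dM Ω X * cM Ω Y + cM Ω X * dM Ω Y := by
  rw [← cM_d, cM_mul, dmap_mul, cM_inv, cM_d, cM_d]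

theorem dM_add (X Y : Matrix ι κ A) : dM Ω (X + Y) = dM Ω X + dM Ω Y := by
  ext i j
  exact d0_add _ _

theorem dM_sub (X Y : Matrix ι κ A) : dM Ω (X - Y) = dM Ω X - dM Ω Y := by
  ext i j
  exact d0_sub _ _

theorem dM_zero : dM Ω (0 : Matrix ι κ A) = 0 := by
  ext i j
  exact d0_zero

theorem dM_one : dM Ω (1 : Matrix ι ι A) = 0 := by
  ext i j
  simp only [dM, Matrix.map_apply, Matrix.one_apply, Matrix.zero_apply]
  split_ifs
  · exact d0_one
  · exact d0_zero

theorem dM_smul (a : A) (X : Matrix ι κ A) :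
    dM Ω (a • X) = d0 Ω a • cM Ω X + a • dM Ω X := by
  ext i j
  simp only [dM, cM, Matrix.map_apply, Matrix.smul_apply, smul_eq_mul, Matrix.add_apply, d0_mul]
  rw [Algebra.smul_def, Algebra.commutes]

theorem trace_cM (X : Matrix ι κ A) (Y : Matrix κ ι Ω) :
    trace (cM Ω X * Y) = trace (Y * cM Ω X) := by
  simp only [trace, Matrix.diag, Matrix.mul_apply, cM, Matrix.map_apply]
  rw [Finset.sum_comm]
  exact Finset.sum_congr rfl fun i _ => Finset.sum_congr rfl fun j _ => Algebra.commutes _ _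

theorem cM_odd {p : ι → Bool} {q : κ → Bool} {X : Matrix ι κ A} (h : OddM p q X) :
    OddM p q (cM Ω X) := fun i j e => by simp [cM, h i j e]

theorem dM_odd {p : ι → Bool} {q : κ → Bool} {X : Matrix ι κ A} (h : OddM p q X) :
    OddM p q (dM Ω X) := fun i j e => by simp [dM, h i j e, d0_zero]

theorem dM_SM (p : ι → Bool) : dM Ω (SM A p) = 0 := by rw [← cM_d, cM_SM, SM_d]

theorem cM_comm_SM {p : ι → Bool} {X : Matrix ι ι A} (h : X * SM A p = SM A p * X) :
    cM Ω X * SM Ω p = SM Ω p * cM Ω X := by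
  rw [← cM_SM (A := A), ← cM_mul, h, cM_mul]

theorem dM_comm_SM {p : ι → Bool} {X : Matrix ι ι A} (h : X * SM A p = SM A p * X) :
    dM Ω X * SM Ω p = SM Ω p * dM Ω X := by
  have := congrArg (dM Ω) h
  rwa [dM_mul, dM_mul, dM_SM, mul_zero, zero_mul, add_zero, zero_add, cM_SM] at this

variable (Ω) in
/-- `tr (S X dX ^ i)`. -/
def tk (p : ι → Bool) (X : Matrix ι ι A) (i : ℕ) : Ω := trace (SM Ω p * (cM Ω X * dM Ω X ^ i))

variable (Ω) in
/-- `tr (S dX ^ i)`. -/
def ck (p : ι → Bool) (X : Matrix ι ι A) (i : ℕ) : Ω := trace (SM Ω p * dM Ω X ^ i)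

variable (Ω) in
/-- The flat connection form `X' dX`. -/
def th (X' X : Matrix ι ι A) : Matrix ι ι Ω := cM Ω X' * dM Ω X

theorem th_od (X' X : Matrix ι ι A) : OdE (th Ω X' X) := (dM_od X).cM_mul X'

theorem dM_inverse {X' X : Matrix ι ι A} (h : X * X' = 1) (h' : X' * X = 1) :
    dM Ω X' = -(cM Ω X' * dM Ω X * cM Ω X') := by
  have e := congrArg (dM Ω) h'
  rw [dM_mul, dM_one] at e
  have e2 : dM Ω X' = dM Ω X' * cM Ω X * cM Ω X' := by
    rw [mul_assoc, ← cM_mul, h, cM_one, mul_one]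
  rw [e2, eq_neg_of_add_eq_zero_left e, neg_mul]

theorem th_d {X' X : Matrix ι ι A} (h : X * X' = 1) (h' : X' * X = 1) :
    (th Ω X' X).map d = -(th Ω X' X * th Ω X' X) := by
  rw [th, dmap_mul, dM_d, mul_zero, add_zero, cM_d, dM_inverse h h', neg_mul, mul_assoc]

theorem mc_of_odd {p : ι → Bool} {B : Matrix ι ι A} (ho : OddM p p B) (h : B * B = 1) :
    MC p (th Ω B B) :=
  ⟨th_od _ _, th_d h h, by
    rw [th, mul_assoc, SM_anti' (dM_odd ho), mul_neg, ← mul_assoc, SM_anti' (cM_odd ho), neg_mul,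
      neg_neg, mul_assoc]⟩

theorem mc_of_even {p : ι → Bool} {V V' : Matrix ι ι A} (hs : V * SM A p = SM A p * V)
    (h : V * V' = 1) (h' : V' * V = 1) : MC p (th Ω V' V) := by
  have hs' : V' * SM A p = SM A p * V' := by
    calc V' * SM A p = V' * SM A p * (V * V') := by rw [h, mul_one]
      _ = V' * (V * SM A p) * V' := by rw [hs]; simp only [mul_assoc]
      _ = SM A p * V' := by rw [← mul_assoc, h', one_mul]
  exact ⟨th_od _ _, th_d h h', by
    rw [th, mul_assoc, dM_comm_SM hs, ← mul_assoc, cM_comm_SM hs', mul_assoc]⟩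

theorem anti_of_sq {B : Matrix ι ι A} (h : B * B = 1) :
    dM Ω B * cM Ω B = -(cM Ω B * dM Ω B) := by
  have e := congrArg (dM Ω) h
  rw [dM_mul, dM_one] at e
  exact eq_neg_of_add_eq_zero_left e

theorem th_sq {B : Matrix ι ι A} (h : B * B = 1) :
    th Ω B B * th Ω B B = -(dM Ω B * dM Ω B) := by
  have e : th Ω B B = -(dM Ω B * cM Ω B) := by rw [anti_of_sq h, neg_neg, th]
  conv_lhs => arg 1; rw [e]
  rw [th, neg_mul, mul_assoc, ← mul_assoc (cM Ω B), ← cM_mul, h, cM_one, one_mul]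

theorem tk_eq_om {p : ι → Bool} {B : Matrix ι ι A} (h : B * B = 1) (m : ℕ) :
    tk Ω p B (2 * m + 1) = (-1 : ℤ) ^ m • om p (th Ω B B) m := by
  have e : dM Ω B * dM Ω B = -(th Ω B B * th Ω B B) := by rw [th_sq h, neg_neg]
  rw [tk, om, pow_succ', pow_succ', pow_mul, pow_mul, pow_two, pow_two, e, ← mul_assoc (cM Ω B),
    ← neg_one_zsmul, smul_pow, Matrix.mul_smul, Matrix.mul_smul, trace_smul, th]

/-- The form attached to an odd involution is closed. -/
theorem tk_closed {p : ι → Bool} {B : Matrix ι ι A} (ho : OddM p p B) (h : B * B = 1) (m : ℕ) :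
    d (tk Ω p B (2 * m + 1)) = 0 := by
  rw [tk_eq_om h, map_zsmul, (mc_of_odd ho h).closed, smul_zero]

section Nat

variable {A' Ω' : Type} [CommRing A'] [Ring Ω'] [Algebra A' Ω'] [SD Ω'] [EvAlg A' Ω']

/-- A morphism of pairs (zero forms, forms). -/
structure IsMap (g : A →+* A') (f : Ω →+* Ω') : Prop extends IsHom f where
  map_alg : ∀ a, f (algebraMap A Ω a) = algebraMap A' Ω' (g a)

theorem IsMap.comp {A'' Ω'' : Type} [CommRing A''] [Ring Ω''] [Algebra A'' Ω''] [SD Ω'']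
    [EvAlg A'' Ω''] {g' : A' →+* A''} {f' : Ω' →+* Ω''} {g : A →+* A'} {f : Ω →+* Ω'}
    (h' : IsMap g' f') (h : IsMap g f) : IsMap (g'.comp g) (f'.comp f) :=
  ⟨h'.toIsHom.comp h.toIsHom, fun a => by
    rw [RingHom.comp_apply, h.map_alg, h'.map_alg, RingHom.comp_apply]⟩

variable {g : A →+* A'} {f : Ω →+* Ω'}

theorem IsMap.d0 (h : IsMap g f) (a : A) : f (d0 Ω a) = d0 Ω' (g a) := by
  rw [CW.d0, h.map_d, h.map_alg, CW.d0]

theorem IsMap.smul (h : IsMap g f) (a : A) (x : Ω) : f (a • x) = g a • f x := by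
  rw [Algebra.smul_def, map_mul, h.map_alg, Algebra.smul_def]

theorem IsMap.cM (h : IsMap g f) (X : Matrix ι κ A) : (cM Ω X).map f = cM Ω' (X.map g) := by
  ext i j
  exact h.map_alg _

theorem IsMap.dM (h : IsMap g f) (X : Matrix ι κ A) : (dM Ω X).map f = dM Ω' (X.map g) := by
  ext i j
  exact h.d0 _

theorem IsMap.th (h : IsMap g f) (X' X : Matrix ι ι A) :
    (th Ω X' X).map f = th Ω' (X'.map g) (X.map g) := by
  rw [CW.th, Matrix.map_mul, h.cM, h.dM, CW.th]

theorem IsMap.tk (h : IsMap g f) (p : ι → Bool) (X : Matrix ι ι A) (i : ℕ) :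
    f (tk Ω p X i) = tk Ω' p (X.map g) i := by
  rw [CW.tk, map_trace', Matrix.map_mul, Matrix.map_mul, SM_map, map_pow', h.cM, h.dM, CW.tk]

theorem IsMap.ck (h : IsMap g f) (p : ι → Bool) (X : Matrix ι ι A) (i : ℕ) :
    f (ck Ω p X i) = ck Ω' p (X.map g) i := by
  rw [CW.ck, map_trace', Matrix.map_mul, SM_map, map_pow', h.dM, CW.ck]

end Nat

variable (A Ω) in
/-- A homotopy coordinate. -/
structure Hx where
  x : A
  g : Bool → A →+* A
  r : Bool → Ω →+* Ω
  isMap : ∀ b, IsMap (g b) (r b)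
  g_x : ∀ b, g b x = if b then 1 else 0
  coh : ∀ b w, d w = 0 → Coh (r b w) w

theorem Hx.htpy (H : Hx A Ω) {a b c : Ω} (ha : d a = 0) (hb : d b = 0) (hc : d c = 0)
    (h0 : H.r false c = H.r false a) (h1 : H.r true c = H.r true b) : Coh a b :=
  (((H.coh false a ha).symm.trans (h0 ▸ H.coh false c hc)).trans
    (H.coh true c hc).symm).trans (h1 ▸ H.coh true b hb)

theorem th_mul {G' G V' V : Matrix ι ι A} (h : G' * G = 1) :
    th Ω (V' * G') (G * V) = cM Ω V' * th Ω G' G * cM Ω V + th Ω V' V := by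
  rw [th, th, th, dM_mul, cM_mul, mul_add, ← mul_assoc, ← mul_assoc, ← mul_assoc,
    mul_assoc (cM Ω V') (cM Ω G') (cM Ω G), ← cM_mul G' G, h, cM_one, mul_one]

theorem comm_SM_of_even {α : Type} [Ring α] {p : ι → Bool} {X : Matrix ι ι α}
    (h : XL.EvenM p p X) : X * SM α p = SM α p * X := by
  ext i j
  simp only [SM, mul_diagonal, diagonal_mul]
  by_cases e : p i = p j
  · rw [e]
    exact (Int.cast_comm _ _).symm
  · simp [h i j e]

theorem trace_SM_odd {α : Type} [Ring α] {p : ι → Bool} {X : Matrix ι ι α} (h : OddM p p X) :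
    trace (SM α p * X) = 0 := by
  simp only [trace, Matrix.diag, SM, diagonal_mul]
  exact Finset.sum_eq_zero fun i _ => by rw [h i i rfl, mul_zero]

end Zero

section Bridge

open XL

variable {A Ω A' Ω' : Type} [CommRing A] [Ring Ω] [Algebra ℚ Ω] [CommRing A'] [Ring Ω']
  [Algebra ℚ Ω']

/-- The class attached to a structure. -/
abbrev toSD (G : DG A Ω) : SD Ω where
  inv := G.ε
  d := G.d
  d_mul := G.d_mul
  d_d := G.d_d
  inv_d := G.ε_d
  tf := fun a h => by
    have e : (2 : ℚ) • a = 0 := by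
      rw [two_smul]
      exact add_eq_zero_iff_eq_neg.2 h
    exact (smul_eq_zero.1 e).resolve_left two_ne_zero

/-- The algebra attached to a structure. -/
abbrev toAlg (G : DG A Ω) : Algebra A Ω := G.i.toAlgebra' G.comm

theorem toEv (G : DG A Ω) : @EvAlg A Ω _ _ (toAlg G) (toSD G) :=
  @EvAlg.mk A Ω _ _ (toAlg G) (toSD G) G.ε_i G.d_comm

theorem ex_iff (G : DG A Ω) (a b : Ω) : G.Ex (a - b) ↔ @Coh Ω _ (toSD G) a b :=
  exists_congr fun _ => eq_comm

theorem toMap {G : DG A Ω} {G' : DG A' Ω'} (φ : G.Hom G') :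
    @IsMap A Ω _ _ (toAlg G) (toSD G) A' Ω' _ _ (toAlg G') (toSD G') φ.a φ.o :=
  @IsMap.mk A Ω _ _ (toAlg G) (toSD G) A' Ω' _ _ (toAlg G') (toSD G') φ.a φ.o
    (@IsHom.mk Ω _ (toSD G) Ω' _ (toSD G') φ.o φ.o_d) φ.o_i

/-- The homotopy coordinate attached to a structure. -/
def toHx {G : DG A Ω} (h : G.Hot) : @Hx A Ω _ _ (toAlg G) (toSD G) :=
  letI := toSD G
  letI := toAlg G
  { x := h.x
    g := fun b => (h.r b).a
    r := fun b => (h.r b).o
    isMap := fun b => toMap (h.r b)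
    g_x := fun b => by cases b <;> simp [h.r_false, h.r_true]
    coh := fun b w hw => ((ex_iff G _ _).1 (h.ex b w hw)).symm }

theorem oo_eq {ι : Type} [Fintype ι] [DecidableEq ι] (G : DG A Ω) (p : ι → Bool)
    (B : Matrix ι ι A) (m : ℕ) :
    G.oo p B (2 * m + 1) = om p (@th A Ω _ _ (toAlg G) (toSD G) ι _ B B) m := rfl

end Bridge

end Pool.Agent.P.MP_f43029_ag.CW
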