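import Pool.Agent.P.MP_f43029_ag.XL.CWa
import Pool.Agent.P.MP_f43029_ag.XL.LApi

/-! Formal properties and homotopy invariance of the odd characteristic forms. -/

set_option autoImplicit false
set_option linter.unusedSectionVars false

noncomputable section

namespace Pool.Agent.P.MP_f43029_ag

open Matrix

theorem OddM.mul_even {α ι κ μ : Type} [NonUnitalNonAssocSemiring α] [Fintype κ] {p : ι → Bool}
    {q : κ → Bool} {r : μ → Bool} {X : Matrix ι κ α} {Y : Matrix κ μ α} (hX : OddM p q X)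
    (hY : XL.EvenM q r Y) : OddM p r (X * Y) := fun i j e => by
  rw [Matrix.mul_apply]
  refine Finset.sum_eq_zero fun k _ => ?_
  by_cases h : p i = q k
  · rw [hX i k h, zero_mul]
  · rw [hY k j fun h' => h (e.trans h'.symm), mul_zero]

theorem OddM.mul_odd {α ι κ μ : Type} [NonUnitalNonAssocSemiring α] [Fintype κ] {p : ι → Bool}
    {q : κ → Bool} {r : μ → Bool} {X : Matrix ι κ α} {Y : Matrix κ μ α} (hX : OddM p q X)
    (hY : OddM q r Y) : XL.EvenM p r (X * Y) := fun i j e => by
  rw [Matrix.mul_apply]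
  refine Finset.sum_eq_zero fun k _ => ?_
  by_cases h : p i = q k
  · rw [hX i k h, zero_mul]
  · rw [hY k j (by revert e h; cases p i <;> cases q k <;> cases r j <;> simp), mul_zero]

theorem XL.EvenM.mul_even {α ι κ μ : Type} [NonUnitalNonAssocSemiring α] [Fintype κ]
    {p : ι → Bool} {q : κ → Bool} {r : μ → Bool} {X : Matrix ι κ α} {Y : Matrix κ μ α}
    (hX : XL.EvenM p q X) (hY : XL.EvenM q r Y) : XL.EvenM p r (X * Y) := fun i j e => by
  rw [Matrix.mul_apply]
  refine Finset.sum_eq_zero fun k _ => ?_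
  by_cases h : p i = q k
  · rw [hY k j fun h' => e (h.trans h'), mul_zero]
  · rw [hX i k h, zero_mul]

theorem OddM.add' {α ι κ : Type} [AddZeroClass α] {p : ι → Bool} {q : κ → Bool}
    {X Y : Matrix ι κ α} (hX : OddM p q X) (hY : OddM p q Y) : OddM p q (X + Y) :=
  fun i j e => by rw [Matrix.add_apply, hX i j e, hY i j e, add_zero]

theorem OddM.smul' {α ι κ : Type} [MulZeroClass α] {p : ι → Bool} {q : κ → Bool}
    {X : Matrix ι κ α} (hX : OddM p q X) (c : α) : OddM p q (c • X) :=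
  fun i j e => by rw [Matrix.smul_apply, hX i j e, smul_eq_mul, mul_zero]

theorem OddM.map' {α β ι κ : Type} [Semiring α] [Semiring β] {p : ι → Bool} {q : κ → Bool}
    {X : Matrix ι κ α} (hX : OddM p q X) (f : α →+* β) : OddM p q (X.map f) :=
  fun i j e => by rw [Matrix.map_apply, hX i j e, map_zero]

theorem XL.EvenM.map' {α β ι κ : Type} [Semiring α] [Semiring β] {p : ι → Bool} {q : κ → Bool}
    {X : Matrix ι κ α} (hX : XL.EvenM p q X) (f : α →+* β) : XL.EvenM p q (X.map f) :=
  fun i j e => by rw [Matrix.map_apply, hX i j e, map_zero]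

namespace CW

open XL

section PPs

variable {α ι : Type} [Ring α] [Fintype ι] [DecidableEq ι]

theorem PP_even (p : ι → Bool) (b : Bool) : EvenM p p (PP α p b) := fun i j e => by
  rw [PP, diagonal_apply_ne _ fun h => e (by rw [h])]

theorem PP_comm {p : ι → Bool} {X : Matrix ι ι α} (h : EvenM p p X) (b : Bool) :
    X * PP α p b = PP α p b * X := by
  ext i j
  simp only [PP, mul_diagonal, diagonal_mul]
  by_cases e : p i = p j
  · rw [e]
    split_ifs <;> simp
  · simp [h i j e]

theorem even_of_comm {p : ι → Bool} {X : Matrix ι ι α}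
    (h : X * PP α p false = PP α p false * X) : EvenM p p X := fun i j e => by
  have := congrFun (congrFun h i) j
  simp only [PP, mul_diagonal, diagonal_mul] at this
  cases hi : p i <;> cases hj : p j <;> simp_all

theorem even_inverse {p : ι → Bool} {X X' : Matrix ι ι α} (h : EvenM p p X) (h1 : X * X' = 1)
    (h2 : X' * X = 1) : EvenM p p X' := by
  refine even_of_comm ?_
  calc X' * PP α p false = X' * PP α p false * (X * X') := by rw [h1, mul_one]
    _ = X' * (X * PP α p false) * X' := by rw [PP_comm h]; simp only [mul_assoc]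
    _ = PP α p false * X' := by rw [← mul_assoc, h2, one_mul]

theorem PP_odd {p : ι → Bool} {X : Matrix ι ι α} (h : OddM p p X) (b : Bool) :
    X * PP α p b = PP α p (!b) * X := by
  ext i j
  simp only [PP, mul_diagonal, diagonal_mul]
  by_cases e : p i = p j
  · simp [h i j e]
  · cases hi : p i <;> cases hj : p j <;> cases b <;> simp_all

theorem PP_mul (p : ι → Bool) (b c : Bool) :
    PP α p b * PP α p c = if b = c then PP α p b else 0 := by
  rw [PP, PP, diagonal_mul_diagonal]
  split_ifs with h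
  · subst h
    congr 1
    funext i
    split_ifs <;> simp
  · rw [← diagonal_zero]
    congr 1
    funext i
    cases p i <;> cases b <;> cases c <;> simp_all

theorem PP_add (p : ι → Bool) : PP α p false + PP α p true = 1 := by
  rw [PP, PP, diagonal_add, ← diagonal_one]
  congr 1
  funext i
  cases p i <;> simp

theorem PP_map {β : Type} [Ring β] (f : α →+* β) (p : ι → Bool) (b : Bool) :
    (PP α p b).map f = PP β p b := by
  rw [PP, PP, diagonal_map (map_zero f)]
  congr 1
  funext i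
  split_ifs <;> simp

theorem PP_not (p : ι → Bool) (b : Bool) : PP α (fun i => !p i) b = PP α p (!b) := by
  rw [PP, PP]
  congr 1
  funext i
  cases p i <;> cases b <;> simp

theorem PP_transpose (p : ι → Bool) (b : Bool) : (PP α p b)ᵀ = PP α p b := diagonal_transpose _

theorem SM_not (p : ι → Bool) : SM α (fun i => !p i) = -SM α p := by
  rw [SM, SM, diagonal_neg]
  congr 1
  funext i
  cases p i <;> simp [sg]

end PPs

variable {A Ω : Type} [CommRing A] [Ring Ω] [Algebra A Ω] [SD Ω] [EvAlg A Ω]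
  {ι κ : Type} [Fintype ι] [Fintype κ] [DecidableEq ι] [DecidableEq κ]

theorem smul_map {A' : Type} [CommRing A'] (g : A →+* A') (c : A) (X : Matrix ι κ A) :
    (c • X).map g = g c • X.map g := by
  ext i j
  simp

theorem IsMap.om {A' Ω' : Type} [CommRing A'] [Ring Ω'] [Algebra A' Ω'] [SD Ω'] [EvAlg A' Ω']
    {g : A →+* A'} {f : Ω →+* Ω'} (h : IsMap g f) (p : ι → Bool) (X' X : Matrix ι ι A) (m : ℕ) :
    f (CW.om p (CW.th Ω X' X) m) = CW.om p (CW.th Ω' (X'.map g) (X.map g)) m := by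
  rw [map_om, h.th]

theorem contr_sq {D H : Matrix ι ι A} (hD : D * D = 0) (hH : D * H + H * D = 1) :
    (D + H * D * H) * (D + H * D * H) = 1 := by
  have e1 : H * D = 1 - D * H := eq_sub_of_add_eq' hH
  have e2 : D * H * D = D := by rw [mul_assoc, e1, mul_sub, ← mul_assoc, hD, zero_mul]; simp
  have e3 : D * (H * H) * D = 0 := by
    have : D * (H * H) = H * H * D := by
      rw [mul_assoc H, e1, ← mul_assoc D, eq_sub_of_add_eq hH, sub_mul, mul_sub, one_mul, mul_one,
        mul_assoc H D H, eq_sub_of_add_eq hH]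
    rw [this, mul_assoc, hD, mul_zero]
  calc (D + H * D * H) * (D + H * D * H)
      = D * D + (D * H * D) * H + H * (D * H * D) + H * (D * (H * H) * D) * H := by noncomm_ring
    _ = 1 := by rw [hD, e2, e3, zero_add, hH]; simp

theorem Contr.hdh {p : ι → Bool} {D H : Matrix ι ι A} (h : Contr p D H) : H * D * H = H := by
  rw [mul_assoc, eq_sub_of_add_eq h.hom, mul_sub, ← mul_assoc, h.sq]
  simp

theorem om_contr (h : Hx A Ω) {p : ι → Bool} {D H H' : Matrix ι ι A} (ho : OddM p p D)
    (hD : D * D = 0) (hH : Contr p D H) (hH' : Contr p D H') (m : ℕ) :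
    Coh (om p (th Ω (D + H) (D + H)) m) (om p (th Ω (D + H') (D + H')) m) := by
  have cl : ∀ K : Matrix ι ι A, OddM p p K → D * K + K * D = 1 →
      d (om p (th Ω (D + K * D * K) (D + K * D * K)) m) = 0 := fun K hK h1 =>
    (mc_of_odd (ho.add' ((hK.mul_odd ho).mul_odd hK)) (contr_sq hD h1)).closed m
  have c1 := cl H hH.odd hH.hom
  have c2 := cl H' hH'.odd hH'.hom
  have c3 := cl ((1 - h.x) • H + h.x • H') ((hH.odd.smul' _).add' (hH'.odd.smul' _)) (by
    rw [mul_add, add_mul, Matrix.mul_smul, Matrix.mul_smul, Matrix.smul_mul, Matrix.smul_mul,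
      add_add_add_comm, ← smul_add, ← smul_add, hH.hom, hH'.hom, ← add_smul]
    simp)
  rw [← Contr.hdh hH, ← Contr.hdh hH']
  refine h.htpy c1 c2 c3 ?_ ?_ <;>
  · rw [(h.isMap _).om, (h.isMap _).om]
    simp [Matrix.map_add, Matrix.map_mul, smul_map, h.g_x]

theorem om_conj_const {p : ι → Bool} {B' B C C' : Matrix ι ι A} (h1 : C * C' = 1)
    (hC : EvenM p p C) (hd : dM Ω C = 0) (m : ℕ) :
    om p (th Ω (C * B' * C') (C * B * C')) m = om p (th Ω B' B) m := by
  have h2 : C' * C = 1 := mul_eq_one_comm.1 h1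
  have hd' : dM Ω C' = 0 := by rw [dM_inverse h1 h2, hd, mul_zero, zero_mul, neg_zero]
  have e1 : cM Ω C' * cM Ω C = 1 := by rw [← cM_mul, h2, cM_one]
  have e : th Ω (C * B' * C') (C * B * C') = cM Ω C * th Ω B' B * cM Ω C' := by
    rw [th, th, dM_mul, dM_mul, hd, hd', cM_mul, cM_mul]
    simp only [zero_mul, mul_zero, zero_add, add_zero, mul_assoc]
    rw [← mul_assoc (cM Ω C'), e1, one_mul]
  have ep : ∀ k : ℕ, (cM Ω C * th Ω B' B * cM Ω C') ^ (k + 1) =
      cM Ω C * (th Ω B' B ^ (k + 1) * cM Ω C') := by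
    intro k
    induction k with
    | zero => simp [mul_assoc]
    | succ k ih =>
      rw [pow_succ, ih, pow_succ _ (k + 1)]
      simp only [mul_assoc]
      rw [← mul_assoc (cM Ω C'), e1, one_mul]
  rw [om, om, e, ep, ← mul_assoc, ← cM_comm_SM (comm_SM_of_even hC), mul_assoc, trace_cM,
    mul_assoc, mul_assoc, e1, mul_one]

theorem conj_sq {B Y Y' : Matrix ι ι A} (hB : B * B = 1) (h : Y * Y' = 1) :
    Y * B * Y' * (Y * B * Y') = 1 := by
  have h2 : Y' * Y = 1 := mul_eq_one_comm.1 h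
  calc Y * B * Y' * (Y * B * Y') = Y * B * (Y' * Y) * B * Y' := by simp only [mul_assoc]
    _ = 1 := by rw [h2, mul_one, mul_assoc Y, hB, mul_one, h]

theorem om_conj_unip (h : Hx A Ω) (hr : ∀ b y, h.g b (h.g false y) = h.g false y) {p : ι → Bool}
    {B Z Z' Y Y' : Matrix ι ι A} (ho : OddM p p B) (hB : B * B = 1) (hZ : Z * Z' = 1)
    (hZe : EvenM p p Z) (hYe : EvenM p p Y) (hY : Y * Y' = 1) (h0 : Y.map (h.g false) = 1)
    (h1 : Y.map (h.g true) = Z.map (h.g false)) (m : ℕ) :
    Coh (om p (th Ω (Z * B * Z') (Z * B * Z')) m) (om p (th Ω B B) m) := by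
  have hB0 : B.map (h.g false) * B.map (h.g false) = 1 := by
    rw [← Matrix.map_mul, hB, Matrix.map_one _ (map_zero _) (map_one _)]
  have hrr : ∀ b, (B.map (h.g false)).map (h.g b) = B.map (h.g false) := fun b => by
    ext i j
    exact hr b _
  have inv_map : ∀ (b) {U U' : Matrix ι ι A}, U * U' = 1 →
      U.map (h.g b) * U'.map (h.g b) = 1 := fun b U U' hU => by
    rw [← Matrix.map_mul, hU, Matrix.map_one _ (map_zero _) (map_one _)]
  have y0 : Y'.map (h.g false) = 1 := by simpa [h0] using inv_map false hY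
  have y1 : Y'.map (h.g true) = Z'.map (h.g false) :=
    left_inv_eq_right_inv (mul_eq_one_comm.1 (h1 ▸ inv_map true hY)) (inv_map false hZ)
  have c0 := (mc_of_odd (Ω := Ω) ho hB).closed m
  have c1 := (mc_of_odd (Ω := Ω) ((hZe.mul_odd ho).mul_even
    (even_inverse hZe hZ (mul_eq_one_comm.1 hZ))) (conj_sq hB hZ)).closed m
  have c2 := (mc_of_odd (Ω := Ω) ((hYe.mul_odd (ho.map' (h.g false))).mul_even
    (even_inverse hYe hY (mul_eq_one_comm.1 hY))) (conj_sq hB0 hY)).closed m
  have k0 := h.coh false _ c2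
  have k1 := h.coh true _ c2
  rw [(h.isMap _).om, Matrix.map_mul, Matrix.map_mul, hrr, h0, y0, one_mul, mul_one,
    ← (h.isMap _).om] at k0
  rw [(h.isMap _).om, Matrix.map_mul, Matrix.map_mul, hrr, h1, y1, ← Matrix.map_mul,
    ← Matrix.map_mul, ← (h.isMap _).om] at k1
  exact ((h.coh false _ c1).symm.trans k1).trans (k0.symm.trans (h.coh false _ c0))

end CW

namespace XL.DG

open CW

variable {A Ω A' Ω' : Type} [CommRing A] [Ring Ω] [Algebra ℚ Ω] [CommRing A'] [Ring Ω']
  [Algebra ℚ Ω'] {ι κ : Type} [Fintype ι] [DecidableEq ι] [Fintype κ] [DecidableEq κ]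

theorem oo_closed (G : DG A Ω) {p : ι → Bool} {B : Matrix ι ι A} (ho : OddM p p B)
    (hB : B * B = 1) {m : ℕ} (hm : Odd m) : G.d (G.oo p B m) = 0 := by
  obtain ⟨m, rfl⟩ := hm
  letI := toSD G
  letI := toAlg G
  haveI := toEv G
  exact (mc_of_odd ho hB).closed m

theorem oo_map {G : DG A Ω} {G' : DG A' Ω'} (φ : G.Hom G') (p : ι → Bool) (B : Matrix ι ι A)
    (m : ℕ) : φ.o (G.oo p B m) = G'.oo p (B.map φ.a) m := by
  rw [oo, str, map_trace', Matrix.map_mul, SM_map, map_pow', Matrix.map_mul, oo, str]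
  congr 4
  · ext i j
    exact φ.o_i _
  · ext i j
    simp only [dM, Matrix.map_apply, φ.o_d, φ.o_i]

theorem oo_reindex (G : DG A Ω) (e : ι ≃ κ) (p : κ → Bool) (B : Matrix κ κ A) (m : ℕ) :
    G.oo (p ∘ e) (B.submatrix e e) m = G.oo p B m := by
  have e1 : SM Ω (p ∘ e) = (SM Ω p).submatrix e e := by
    rw [SM, SM, submatrix_diagonal_equiv]
    rfl
  have e2 : G.iM (B.submatrix e e) * G.dM (B.submatrix e e) =
      (G.iM B * G.dM B).submatrix e e := by
    rw [← submatrix_mul_equiv _ _ e e e]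
    rfl
  have e3 : ∀ (X : Matrix κ κ Ω) (k : ℕ), X.submatrix e e ^ k = (X ^ k).submatrix e e := by
    intro X k
    induction k with
    | zero => simp
    | succ k ih => rw [pow_succ, pow_succ, ih, submatrix_mul_equiv]
  rw [oo, oo, str, str, e1, e2, e3, submatrix_mul_equiv]
  exact e.sum_comp fun k => (SM Ω p * (G.iM B * G.dM B) ^ m) k k

theorem oo_sum (G : DG A Ω) (p : ι → Bool) (p' : κ → Bool) (B : Matrix ι ι A)
    (B' : Matrix κ κ A) (m : ℕ) (hm : 0 < m) :
    G.oo (Sum.elim p p') (fromBlocks B 0 0 B') m = G.oo p B m + G.oo p' B' m := by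
  have e1 : SM Ω (Sum.elim p p') = fromBlocks (SM Ω p) 0 0 (SM Ω p') := by
    rw [SM, SM, SM, fromBlocks_diagonal]
    congr 1
    funext i
    cases i <;> rfl
  have e2 : G.iM (fromBlocks B 0 0 B') = fromBlocks (G.iM B) 0 0 (G.iM B') := by
    ext (i | i) (j | j) <;> simp [iM]
  have e3 : G.dM (fromBlocks B 0 0 B') = fromBlocks (G.dM B) 0 0 (G.dM B') := by
    ext (i | i) (j | j) <;> simp [dM]
  rw [oo, oo, oo, str, str, str, e1, e2, e3, fromBlocks_multiply]
  simp only [Matrix.mul_zero, Matrix.zero_mul, add_zero, zero_add]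
  rw [fromBlocks_diagonal_pow, fromBlocks_multiply]
  simp [trace, Fintype.sum_sum_type]

theorem oo_flip (G : DG A Ω) (p : ι → Bool) (B : Matrix ι ι A) (m : ℕ) :
    G.oo (fun i => !p i) B m = -G.oo p B m := by
  rw [oo, oo, str, str, SM_not, neg_mul, trace_neg]

/-- Independence of the contraction. -/
theorem oo_contr {G : DG A Ω} (h : G.Hot) {p : ι → Bool} {D H H' : Matrix ι ι A}
    (ho : OddM p p D) (hD : D * D = 0) (hH : Contr p D H) (hH' : Contr p D H') {m : ℕ}
    (hm : Odd m) : G.Ex (G.oo p (D + H) m - G.oo p (D + H') m) := by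
  obtain ⟨m, rfl⟩ := hm
  letI := toSD G
  letI := toAlg G
  haveI := toEv G
  exact (ex_iff G _ _).2 (om_contr (toHx h) ho hD hH hH' m)

/-- Conjugation by a constant even matrix times a matrix joined to the identity. -/
theorem oo_conj {G : DG A Ω} (h : G.Hot) {p : ι → Bool} {B B' C Z : Matrix ι ι A}
    (ho : OddM p p B) (hB : B * B = 1) (hC : IsUnit C) (hCe : EvenM p p C) (hdC : G.dM C = 0)
    (hZ : IsUnit Z) (hZe : EvenM p p Z) (hZu : h.Unip p Z) (hBB : C * Z * B = B' * (C * Z))
    {m : ℕ} (hm : Odd m) : G.Ex (G.oo p B' m - G.oo p B m) := by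
  obtain ⟨m, rfl⟩ := hm
  letI := toSD G
  letI := toAlg G
  haveI := toEv G
  obtain ⟨C', hC'⟩ := hC.exists_right_inv
  obtain ⟨Z', hZ'⟩ := hZ.exists_right_inv
  obtain ⟨Y, Y', hYe, hY, h0, h1⟩ := hZu
  have e : B' = C * (Z * B * Z') * C' := by
    rw [← mul_assoc, ← mul_assoc, hBB, mul_assoc, mul_assoc, mul_assoc, ← mul_assoc Z, hZ',
      one_mul, hC', mul_one]
  refine (ex_iff G _ _).2 ?_
  rw [oo_eq, oo_eq, e, om_conj_const hC' hCe hdC]
  exact om_conj_unip (toHx h) h.r_r ho hB hZ' hZe hYe hY h0 h1 m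

end XL.DG

end Pool.Agent.P.MP_f43029_ag
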