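import Pool.Agent.P.MP_f43029_ag.XL.CWm

/-! The end game. -/

set_option autoImplicit false
set_option linter.unusedSectionVars false

noncomputable section

namespace Pool.Agent.P.MP_f43029_ag

open Matrix

namespace CW

open XL

/-- A morphism with its two components. -/
structure Mp (A Ω A' Ω' : Type) [CommRing A] [Ring Ω] [Algebra A Ω] [SD Ω] [CommRing A'] [Ring Ω']
    [Algebra A' Ω'] [SD Ω'] where
  a : A →+* A'
  o : Ω →+* Ω'
  is : IsMap a o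

/-- The geometric situation of the end game. -/
structure Ge (n : ℕ) (AS ΩS AU ΩU AT ΩT AO ΩO AW ΩW : Type)
    [CommRing AS] [Ring ΩS] [Algebra AS ΩS] [SD ΩS] [CommRing AU] [Ring ΩU] [Algebra AU ΩU] [SD ΩU]
    [CommRing AT] [Ring ΩT] [Algebra AT ΩT] [SD ΩT] [CommRing AO] [Ring ΩO] [Algebra AO ΩO] [SD ΩO]
    [CommRing AW] [Ring ΩW] [Algebra AW ΩW] [SD ΩW] where
  hS : Hx AS ΩS
  hU : Hx AU ΩU
  hUr : ∀ b y, hU.g b (hU.g false y) = hU.g false y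
  hO : Hx AO ΩO
  ρU : Mp AS ΩS AU ΩU
  ρT : Mp AS ΩS AT ΩT
  σU : Mp AU ΩU AO ΩO
  σT : Mp AT ΩT AO ΩO
  κ : Mp AW ΩW AU ΩU
  σρ : ∀ ω, σU.o (ρU.o ω) = σT.o (ρT.o ω)
  σρa : ∀ y, σU.a (ρU.a y) = σT.a (ρT.a y)
  τ : AS
  zU : Mp AU ΩU AU ΩU
  zT : Mp AT ΩT AT ΩT
  zU_τ : zU.a (ρU.a τ) = 0
  zT_τ : zT.a (ρT.a τ) = 1
  zU_ex : ∀ ω, d ω = 0 → Coh ω (zU.o ω)
  inj : ∀ ω, σU.o (ρU.o ω) = 0 → zU.o (ρU.o ω) = 0 → zT.o (ρT.o ω) = 0 → ω = 0
  inja : ∀ y, σU.a (ρU.a y) = 0 → zU.a (ρU.a y) = 0 → zT.a (ρT.a y) = 0 → y = 0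
  exU : ∀ ω, ∃ ω', ρU.o ω' = (1 - ρU.a τ) • ω ∧ zT.o (ρT.o ω') = 0
  exT : ∀ ω, ∃ ω', ρT.o ω' = ρT.a τ • ω ∧ zU.o (ρU.o ω') = 0
  exO : ∀ ω, ∃ ω', σU.o (ρU.o ω') = d0 ΩO (σU.a (ρU.a τ)) * ω ∧ zU.o (ρU.o ω') = 0 ∧
    zT.o (ρT.o ω') = 0
  exUa : ∀ y, ∃ y', ρU.a y' = (1 - ρU.a τ) * y ∧ zT.a (ρT.a y') = 0
  exTa : ∀ y, ∃ y', ρT.a y' = ρT.a τ * y ∧ zU.a (ρU.a y') = 0
  Res : ΩS →+ ℚ
  Res_d : ∀ ω, Res (d ω) = 0
  Φ : Flt AW ΩW
  van : ∀ ω ∈ Φ.Fd (n + 1), d ω = 0 → Coh ω 0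

namespace Ge

variable {n : ℕ} {AS ΩS AU ΩU AT ΩT AO ΩO AW ΩW : Type}
  [CommRing AS] [Ring ΩS] [Algebra AS ΩS] [SD ΩS] [EvAlg AS ΩS]
  [CommRing AU] [Ring ΩU] [Algebra AU ΩU] [SD ΩU] [EvAlg AU ΩU]
  [CommRing AT] [Ring ΩT] [Algebra AT ΩT] [SD ΩT] [EvAlg AT ΩT]
  [CommRing AO] [Ring ΩO] [Algebra AO ΩO] [SD ΩO] [EvAlg AO ΩO]
  [CommRing AW] [Ring ΩW] [Algebra AW ΩW] [SD ΩW] [EvAlg AW ΩW]
  (G : Ge n AS ΩS AU ΩU AT ΩT AO ΩO AW ΩW)
  {ι κ : Type} [Fintype ι] [DecidableEq ι] [Fintype κ] [DecidableEq κ]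

theorem Res_coh {a b : ΩS} (h : Coh a b) : G.Res a = G.Res b := by
  obtain ⟨c, hc⟩ := h
  rw [← sub_eq_zero, ← map_sub, hc, G.Res_d]

/-- The coordinate on the overlap. -/
def tO : AO := G.σU.a (G.ρU.a G.τ)

/-- `w'` is the extension by zero of `dτ w`. -/
def Gl (w : ΩO) (w' : ΩS) : Prop :=
  G.σU.o (G.ρU.o w') = d0 ΩO G.tO * w ∧ G.zU.o (G.ρU.o w') = 0 ∧ G.zT.o (G.ρT.o w') = 0

theorem Gl.unique {w : ΩO} {a b : ΩS} (ha : G.Gl w a) (hb : G.Gl w b) : a = b := by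
  rw [← sub_eq_zero]
  refine G.inj _ ?_ ?_ ?_
  · rw [map_sub, map_sub, ha.1, hb.1, sub_self]
  · rw [map_sub, map_sub, ha.2.1, hb.2.1, sub_self]
  · rw [map_sub, map_sub, ha.2.2, hb.2.2, sub_self]

theorem gl_choose (w : ΩO) : G.Gl w (G.exO w).choose := (G.exO w).choose_spec

/-- The boundary functional. -/
def bd : ΩO →+ ℚ := AddMonoidHom.mk' (fun w => G.Res (G.exO w).choose) fun a b => by
  rw [← map_add]
  congr 1
  refine (G.gl_choose _).unique G ⟨?_, ?_, ?_⟩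
  · rw [map_add, map_add, (G.gl_choose a).1, (G.gl_choose b).1, mul_add]
  · rw [map_add, map_add, (G.gl_choose a).2.1, (G.gl_choose b).2.1, add_zero]
  · rw [map_add, map_add, (G.gl_choose a).2.2, (G.gl_choose b).2.2, add_zero]

theorem bd_eq {w : ΩO} {w' : ΩS} (h : G.Gl w w') : G.bd w = G.Res w' :=
  congrArg G.Res ((G.gl_choose w).unique G h)

theorem closure_ind {P : AO} (hP : P ∈ Subring.closure {G.tO}) {w : ΩO}
    (h : ∀ j : ℕ, G.bd (G.tO ^ j • w) = 0) : G.bd (P • w) = 0 := by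
  rw [Subring.mem_closure_iff] at hP
  induction hP using AddSubgroup.closure_induction with
  | mem x hx =>
    obtain ⟨j, rfl⟩ := Submonoid.mem_closure_singleton.1 hx
    exact h j
  | zero => rw [zero_smul, map_zero]
  | add x y _ _ hx hy => rw [add_smul, map_add, hx, hy, add_zero]
  | neg x _ hx => rw [neg_smul, map_neg, hx, neg_zero]

theorem bd_coh {P : AO} (hP : P ∈ Subring.closure {G.tO}) {a b : ΩO} (h : Coh a b) :
    G.bd (P • a) = G.bd (P • b) := by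
  obtain ⟨c, hc⟩ := h
  rw [← sub_eq_zero, ← map_sub, ← smul_sub, hc]
  refine G.closure_ind hP fun j => ?_
  have g := G.gl_choose (G.tO ^ j • c)
  have e : d0 ΩO G.tO * d0 ΩO (G.tO ^ j) = 0 := by
    cases j with
    | zero => rw [pow_zero, d0_one, mul_zero]
    | succ j => rw [d0_pow, mul_smul_comm, (od_d0 _).sq, smul_zero]
  have k : G.Gl (G.tO ^ j • d c) (d (-(G.exO (G.tO ^ j • c)).choose)) := by
    refine ⟨?_, ?_, ?_⟩
    · rw [G.ρU.is.map_d, G.σU.is.map_d, map_neg, map_neg, g.1, map_neg, SD.d_mul, d_d0, zero_mul,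
        zero_add, inv_d0, neg_mul, neg_neg, d_smul, mul_add, ← mul_assoc, e, zero_mul, zero_add]
    · rw [G.ρU.is.map_d, G.zU.is.map_d, map_neg, map_neg, g.2.1, neg_zero, map_zero]
    · rw [G.ρT.is.map_d, G.zT.is.map_d, map_neg, map_neg, g.2.2, neg_zero, map_zero]
  rw [G.bd_eq k, G.Res_d]

theorem bd_of_gl {j : ℕ} {w : ΩO} {w' : ΩS} (s : ℤ) (hs : s ≠ 0)
    (h : G.Gl (s • (((j + 1 : ℕ) * G.tO ^ j : AO) • w)) (d w')) : G.bd (G.tO ^ j • w) = 0 := by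
  have := G.bd_eq h
  rw [G.Res_d, map_zsmul, mul_smul, Nat.cast_smul_eq_nsmul, map_nsmul] at this
  exact (smul_eq_zero.1 ((smul_eq_zero.1 this).resolve_left hs)).resolve_left j.succ_ne_zero

theorem bd_U {P : AO} (hP : P ∈ Subring.closure {G.tO}) {w : ΩU} (hw : d w = 0) :
    G.bd (P • G.σU.o w) = 0 := by
  refine G.closure_ind hP fun j => ?_
  obtain ⟨w', h1, h2⟩ := G.exU ((∑ i ∈ Finset.range (j + 1), G.ρU.a G.τ ^ i) • w)
  rw [smul_smul, mul_neg_geom_sum] at h1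
  have e : G.ρU.o (d w') = -(((j + 1 : ℕ) * G.ρU.a G.τ ^ j : AU) • (d0 ΩU (G.ρU.a G.τ) * w)) := by
    rw [G.ρU.is.map_d, h1, d_smul, hw, smul_zero, add_zero, d0_sub, d0_one, zero_sub, d0_pow,
      neg_mul, smul_mul_assoc]
  refine G.bd_of_gl (w' := w') (-1) (by simp) ⟨?_, ?_, ?_⟩
  · rw [e, map_neg, G.σU.is.smul, map_mul, map_mul, G.σU.is.d0, map_natCast, map_pow,
      neg_one_zsmul, mul_neg, mul_smul_comm, tO]
  · rw [e, map_neg, G.zU.is.smul, map_mul G.zU.o, G.zU.is.d0, G.zU_τ, d0_zero, zero_mul, smul_zero,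
      neg_zero]
  · rw [G.ρT.is.map_d, G.zT.is.map_d, h2, map_zero]

theorem bd_T {P : AO} (hP : P ∈ Subring.closure {G.tO}) {w : ΩT} (hw : d w = 0) :
    G.bd (P • G.σT.o w) = 0 := by
  refine G.closure_ind hP fun j => ?_
  obtain ⟨w', h1, h2⟩ := G.exT (G.ρT.a G.τ ^ j • w)
  rw [smul_smul, ← pow_succ'] at h1
  have e : G.ρT.o (d w') = ((j + 1 : ℕ) * G.ρT.a G.τ ^ j : AT) • (d0 ΩT (G.ρT.a G.τ) * w) := by
    rw [G.ρT.is.map_d, h1, d_smul, hw, smul_zero, add_zero, d0_pow, smul_mul_assoc]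
  refine G.bd_of_gl (w' := w') 1 (by simp) ⟨?_, ?_, ?_⟩
  · rw [G.σρ, e, G.σT.is.smul, map_mul, map_mul, G.σT.is.d0, map_natCast, map_pow, one_smul,
      mul_smul_comm, tO, G.σρa]
  · rw [G.ρU.is.map_d, G.zU.is.map_d, h2, map_zero]
  · rw [e, G.zT.is.smul, map_mul G.zT.o, G.zT.is.d0, G.zT_τ, d0_one, zero_mul, smul_zero]

theorem extU {X Y : Matrix ι κ AS} (h1 : X.map G.ρU.a = Y.map G.ρU.a)
    (h2 : (X.map G.ρT.a).map G.zT.a = (Y.map G.ρT.a).map G.zT.a) : X = Y := by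
  ext i j
  have e1 : G.ρU.a (X i j) = G.ρU.a (Y i j) := congrFun (congrFun h1 i) j
  have e2 : G.zT.a (G.ρT.a (X i j)) = G.zT.a (G.ρT.a (Y i j)) := congrFun (congrFun h2 i) j
  rw [← sub_eq_zero]
  refine G.inja _ ?_ ?_ ?_ <;> simp [e1, e2]

theorem extT {X Y : Matrix ι κ AS} (h1 : X.map G.ρT.a = Y.map G.ρT.a)
    (h2 : (X.map G.ρU.a).map G.zU.a = (Y.map G.ρU.a).map G.zU.a) : X = Y := by
  ext i j
  have e1 : G.ρT.a (X i j) = G.ρT.a (Y i j) := congrFun (congrFun h1 i) j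
  have e2 : G.zU.a (G.ρU.a (X i j)) = G.zU.a (G.ρU.a (Y i j)) := congrFun (congrFun h2 i) j
  rw [← sub_eq_zero]
  refine G.inja _ ?_ ?_ ?_ <;> simp [e1, e2, G.σρa]

/-- The glued homotopy of the first factor. -/
structure XE (p : ι → Bool) (D X : Matrix ι ι AS) (δ' : AU) : Prop where
  u : X.map G.ρU.a = (1 - G.ρU.a G.τ) • δ' • (D.map G.ρU.a * PP AU p true)
  t : (X.map G.ρT.a).map G.zT.a = 0

/-- The glued homotopy of the second factor. -/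
structure XF (Y : Matrix κ κ AS) (Z : Matrix κ κ AT) : Prop where
  t : Y.map G.ρT.a = G.ρT.a G.τ • Z
  u : (Y.map G.ρU.a).map G.zU.a = 0

theorem exists_XE (p : ι → Bool) (D : Matrix ι ι AS) (δ' : AU) : ∃ X, G.XE p D X δ' := by
  choose f hf using G.exUa
  refine ⟨(δ' • (D.map G.ρU.a * PP AU p true)).map f, ?_, ?_⟩ <;> ext i j
  · exact (hf _).1
  · exact (hf _).2

theorem exists_XF (Z : Matrix κ κ AT) : ∃ Y, G.XF Y Z := by
  choose f hf using G.exTa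
  refine ⟨Z.map f, ?_, ?_⟩ <;> ext i j
  · exact (hf _).1
  · exact (hf _).2

theorem XE.transpose {p : ι → Bool} {D X : Matrix ι ι AS} {δ' : AU} (ho : OddM p p D)
    (h : G.XE p D X δ') : G.XE (fun i => !p i) Dᵀ Xᵀ δ' := by
  refine ⟨?_, ?_⟩
  · rw [transpose_map, h.u, transpose_map, PP_not, PP_odd (ho.map' _), transpose_smul,
      transpose_smul, transpose_mul, PP_transpose]
  · rw [transpose_map, transpose_map, h.t, transpose_zero]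

variable {p : ι → Bool} {q : κ → Bool} {D X : Matrix ι ι AS} {F Y : Matrix κ κ AS}
  {Z : Matrix κ κ AT} {δ : AS} {δ' : AU}

theorem rel (oD : OddM p p D) (oF : OddM q q F) (DD : D * D = δ • (1 : Matrix ι ι AS))
    (FF : F * F = (-δ) • (1 : Matrix κ κ AS)) (hδ : G.ρU.a δ * δ' = 1) (hX : G.XE p D X δ')
    (hZ : Contr q (F.map G.ρT.a) Z) (hY : G.XF Y Z) : Rel p q D X F Y δ G.τ := by
  have oU := oD.map' G.ρU.a
  refine ⟨oD, fun i j e => ?_, oF, fun i j e => ?_, DD, FF, ?_, ?_, ?_, ?_⟩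
  · have e1 : G.ρU.a (X i j) = 0 := (congrFun (congrFun hX.u i) j).trans
      (((oU.mul_even (PP_even p true)).smul' _).smul' _ i j e)
    exact G.inja _ (by rw [e1, map_zero]) (by rw [e1, map_zero]) (congrFun (congrFun hX.t i) j)
  · have e1 : G.ρT.a (Y i j) = 0 := (congrFun (congrFun hY.t i) j).trans (hZ.odd.smul' _ i j e)
    exact G.inja _ (by rw [G.σρa, e1, map_zero]) (congrFun (congrFun hY.u i) j)
      (by rw [e1, map_zero])
  · refine G.extU ?_ ?_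
    · rw [Matrix.map_mul, hX.u, PP_map, Matrix.smul_mul, Matrix.smul_mul, mul_assoc, PP_mul,
        if_pos rfl]
    · rw [Matrix.map_mul, Matrix.map_mul, hX.t, zero_mul]
  · refine G.extU ?_ ?_
    · rw [add_map', Matrix.map_mul, Matrix.map_mul, hX.u, smul_map, one_map', map_sub, map_one,
        Matrix.smul_mul, Matrix.smul_mul, Matrix.mul_smul, Matrix.mul_smul, ← smul_add, ← smul_add,
        mul_assoc, show PP AU p true * D.map G.ρU.a = D.map G.ρU.a * PP AU p false from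
          (PP_odd oU false).symm, ← mul_add, ← mul_add, add_comm, PP_add, mul_one,
        sq_map _ DD, smul_smul δ', mul_comm δ', hδ, one_smul]
    · rw [add_map', add_map', Matrix.map_mul, Matrix.map_mul, Matrix.map_mul, Matrix.map_mul, hX.t,
        smul_map, smul_map, map_sub, map_sub, G.zT_τ]
      simp
  · refine G.extT ?_ ?_
    · rw [Matrix.map_mul, hY.t, Matrix.smul_mul, Matrix.mul_smul, hZ.sq]
      simp
    · rw [Matrix.map_mul, Matrix.map_mul, hY.u]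
      simp
  · refine G.extT ?_ ?_
    · rw [add_map', Matrix.map_mul, Matrix.map_mul, hY.t, Matrix.smul_mul, Matrix.mul_smul,
        ← smul_add, hZ.hom, smul_map, one_map']
    · rw [add_map', add_map', Matrix.map_mul, Matrix.map_mul, Matrix.map_mul, Matrix.map_mul, hY.u,
        smul_map, smul_map, G.zU_τ]
      simp

/-- The form on `U`. -/
def oU (p : ι → Bool) (D : Matrix ι ι AS) (δ' : AU) (m : ℕ) : ΩU :=
  om p (th ΩU (BU p (D.map G.ρU.a) δ') (BU p (D.map G.ρU.a) δ')) m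

/-- The form on `T`. -/
def oT (p : ι → Bool) (D : Matrix ι ι AS) (Z : Matrix ι ι AT) (δ : AS) (m : ℕ) : ΩT :=
  om p (th ΩT (BT (D.map G.ρT.a) Z (G.ρT.a δ)) (BT (D.map G.ρT.a) Z (G.ρT.a δ))) m

/-- The main formula. -/
theorem formula (oD : OddM p p D) (oF : OddM q q F) (DD : D * D = δ • (1 : Matrix ι ι AS))
    (FF : F * F = (-δ) • (1 : Matrix κ κ AS)) (hδ : G.ρU.a δ * δ' = 1) (hX : G.XE p D X δ')
    (hZ : Contr q (F.map G.ρT.a) Z) (hY : G.XF Y Z) (hp : trace (SM AS p) = 0)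
    (hq : trace (SM AS q) = 0) (m : ℕ) :
    G.Res (tk ΩS (tpar p q) (tens p D F + tens p X Y) (2 * m + 1)) =
      ∑ ij ∈ Finset.HasAntidiagonal.antidiagonal (2 * m + 1), (2 * m + 1).choose ij.1 •
        G.bd (Pc G.tO ij.1 ij.2 • (G.σU.o (G.oU p D δ' ((ij.1 - 1) / 2)) *
          G.σT.o (G.oT q F Z (-δ) ((ij.2 - 1) / 2)))) := by
  have R := G.rel oD oF DD FF hδ hX hZ hY
  have oU := oD.map' G.ρU.a
  have oT := oF.map' G.ρT.a
  have bU := BU_sq oU (sq_map _ DD) hδ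
  have bT := BT_sq (sq_map G.ρT.a FF) hZ
  have eU : (AE p D X G.τ 1).map G.ρU.a =
      BU p (D.map G.ρU.a) δ' * uu p 1 (1 - G.ρU.a G.τ * G.ρU.a G.τ) := by
    rw [AE_one, add_map', smul_map, Matrix.map_mul, PP_map, hX.u, BU_eq, mul_assoc, uu_mul, uu,
      mul_add, Matrix.mul_smul, Matrix.mul_smul, map_add, map_one]
    module
  have eT : (AF F Y δ G.τ 1).map G.ρT.a = G.ρT.a G.τ • BT (F.map G.ρT.a) Z (G.ρT.a (-δ)) := by
    rw [AF_one, add_map', smul_map, smul_map, hY.t, BT, map_add, map_one, map_neg]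
    module
  rw [G.Res_coh (R.coh G.hS m)]
  simp only [← map_nsmul]
  rw [← map_sum]
  refine (G.bd_eq ⟨?_, ?_, ?_⟩).symm
  · have e1 : ((AE p D X G.τ 1).map G.ρU.a).map G.σU.a =
        (BU p (D.map G.ρU.a) δ').map G.σU.a * uu p 1 (1 - G.tO * G.tO) := by
      rw [eU, Matrix.map_mul, uu, uu, add_map', smul_map, smul_map, PP_map, PP_map]
      simp [tO]
    have e2 : ((AF F Y δ G.τ 1).map G.ρU.a).map G.σU.a =
        (BT (F.map G.ρT.a) Z (G.ρT.a (-δ))).map G.σT.a * uu q G.tO G.tO := by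
      rw [uu_same, Matrix.mul_smul, mul_one, tO, G.σρa, ← smul_map, ← eT]
      ext i j
      exact G.σρa _
    have o1 := (BU_odd oU δ').map' G.σU.a
    have o2 := (BT_odd oT hZ (G.ρT.a (-δ))).map' G.σT.a
    rw [G.ρU.is.tk, G.σU.is.tk, tens_map', tens_map', e1, e2,
      tk_tens (o1.mul_even (uu_even _ _ _)) (o2.mul_even (uu_even _ _ _)), Finset.mul_sum]
    refine Finset.sum_congr rfl fun ij hij => ?_
    rw [term_eq o1 (by rw [← Matrix.map_mul, bU, one_map']) o2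
      (by rw [← Matrix.map_mul, bT, one_map'])
      (trace_SM_map (G.σU.a.comp G.ρU.a) hp) (trace_SM_map (G.σU.a.comp G.ρU.a) hq) _
      (by rw [Finset.HasAntidiagonal.mem_antidiagonal.1 hij]; exact ⟨m, rfl⟩),
      mul_smul_comm ((2 * m + 1).choose ij.1) (d0 ΩO G.tO), Ge.oU, Ge.oT, G.σU.is.om, G.σT.is.om]
  · have e : ((AF F Y δ G.τ 1).map G.ρU.a).map G.zU.a = 0 := by
      rw [AF_one, add_map', add_map', smul_map, smul_map, smul_map, smul_map, hY.u, G.zU_τ]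
      simp
    rw [G.ρU.is.tk, G.zU.is.tk, tens_map', tens_map', e]
    exact tk_tens_zero (((R.odd 1).1.map' _).map' _) (trace_SM_map G.ρU.a hq) _
  · have e : ((AE p D X G.τ 1).map G.ρT.a).map G.zT.a =
        (D.map G.ρT.a).map G.zT.a * PP AT p false := by
      rw [AE_one, add_map', add_map', smul_map, smul_map, hX.t, smul_zero, add_zero,
        Matrix.map_mul, Matrix.map_mul, PP_map, PP_map]
    rw [G.ρT.is.tk, G.zT.is.tk, tens_map', tens_map', e, eT, smul_map, G.zT_τ, one_smul]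
    exact tk_tens_one ((oD.map' _).map' _) ((BT_odd oT hZ _).map' _)
      (by rw [← Matrix.map_mul, bT, one_map']) (trace_SM_map G.ρT.a hp) (trace_SM_map G.ρT.a hq) _

/-- The subring generated by the potential and its inverse. -/
abbrev Cl (γ γ' : AW) : Subring AW := Subring.closure {γ, γ'}

/-- One matrix factorization. -/
structure Ob (γ γ' : AW) (p : ι → Bool) (D : Matrix ι ι AS) (δ : AS) (ε ε' : AW) : Prop where
  odd : OddM p p D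
  sq : D * D = δ • (1 : Matrix ι ι AS)
  un : ε * ε' = 1
  mem : ε ∈ Cl γ γ'
  mem' : ε' ∈ Cl γ γ'
  kap : G.κ.a ε = G.ρU.a δ
  tube : ∃ Z, Contr p (D.map G.ρT.a) Z
  aff : ∃ (DW : Matrix ι ι AW) (V V' Y Y' : Matrix ι ι AU), OddM p p DW ∧
    DW * DW = ε • (1 : Matrix ι ι AW) ∧ EvenM p p V ∧ V * V' = 1 ∧ EvenM p p Y ∧ Y * Y' = 1 ∧
    Y.map (G.hU.g false) = 1 ∧ Y.map (G.hU.g true) = V.map (G.hU.g false) ∧
    V * DW.map G.κ.a = (D.map G.ρU.a).map G.zU.a * V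

variable {γ γ' ε ε' : AW}

theorem Ob.unit (h : G.Ob γ γ' p D δ ε ε') : G.ρU.a δ * G.κ.a ε' = 1 := by
  rw [← h.kap, ← map_mul, h.un, map_one]

theorem Ob.closedU (h : G.Ob γ γ' p D δ ε ε') (m : ℕ) : d (G.oU p D (G.κ.a ε') m) = 0 :=
  (mc_of_odd (BU_odd (h.odd.map' _) _) (BU_sq (h.odd.map' _) (sq_map _ h.sq) (h.unit G))).closed m

theorem Ob.closedT (h : G.Ob γ γ' p D δ ε ε') {Z : Matrix ι ι AT}
    (hZ : Contr p (D.map G.ρT.a) Z) (m : ℕ) : d (G.oT p D Z δ m) = 0 :=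
  (mc_of_odd (BT_odd (h.odd.map' _) hZ _) (BT_sq (sq_map _ h.sq) hZ)).closed m

theorem zU_fix (hγ : γ * γ' = 1) (hz : G.zU.a (G.κ.a γ) = G.κ.a γ) {u : AW} (hu : u ∈ Cl γ γ') :
    G.zU.a (G.κ.a u) = G.κ.a u := by
  refine RingHom.eqOn_set_closure (f := G.zU.a.comp G.κ.a) (g := G.κ.a) ?_ hu
  rintro x (rfl | rfl)
  · exact hz
  · refine left_inv_eq_right_inv (a := G.κ.a γ) ?_ (by rw [← map_mul, hγ, map_one])
    rw [← hz, RingHom.comp_apply, ← map_mul, ← map_mul, mul_comm, hγ, map_one, map_one]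

theorem Ob.vanU (hγ : γ * γ' = 1) (hz : G.zU.a (G.κ.a γ) = G.κ.a γ) (h : G.Ob γ γ' p D δ ε ε')
    {m : ℕ} (hm : n < 2 * m + 2) {ξ : ΩW} (hξ : Lg (Cl γ γ') ξ) :
    Coh (G.oU p D (G.κ.a ε') m * G.κ.o ξ) 0 := by
  obtain ⟨DW, V, V', Y, Y', o, sq, eV, iV, eY, iY, y0, y1, hV⟩ := h.aff
  have cξ := hξ.closed hγ
  have cκ := G.κ.is.closed cξ
  have bW := BU_sq o sq h.un
  have z : G.zU.o (G.κ.o ξ) = G.κ.o ξ := by
    obtain ⟨u, hu, v, hv, rfl⟩ := hξ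
    rw [G.κ.is.smul, G.κ.is.d0, G.zU.is.smul, G.zU.is.d0, G.zU_fix hγ hz hu, G.zU_fix hγ hz hv]
  have c1 := G.zU_ex _ (d_mul_closed (h.closedU G m) cκ)
  rw [map_mul, z, oU, G.zU.is.om, BU_map, G.zU_fix hγ hz h.mem', BU_conj eV iV hV] at c1
  have c2 := (om_conj_unip G.hU G.hUr (BU_odd (o.map' G.κ.a) (G.κ.a ε'))
    (by rw [← BU_map, ← Matrix.map_mul, bW, one_map']) iV eV eY iY y0 y1 m).mul_right cκ
  refine c1.trans (c2.trans ?_)
  rw [← BU_map, ← G.κ.is.om, ← map_mul, ← map_zero G.κ.o]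
  refine Coh.map G.κ.is.toIsHom (G.van _ ?_ (d_mul_closed ((mc_of_odd (BU_odd o _) bW).closed m) cξ))
  exact G.Φ.Fd_anti _ _ (by omega) (G.Φ.Fd_mul _ _ _ _ (G.Φ.om_mem _ _ _ m) (G.Φ.lg_mem hξ))

/-- A product of a logarithmic form and a closed even form from the tube. -/
def Cor (γ γ' : AW) (w : ΩO) : Prop := ∃ (ξ : ΩW) (e : ΩT), Lg (Cl γ γ') ξ ∧ d e = 0 ∧
  inv (G.σT.o e) = G.σT.o e ∧ w = G.σU.o (G.κ.o ξ) * G.σT.o e

theorem Ob.cmp (h : G.Ob γ γ' p D δ ε ε') {Z : Matrix ι ι AT} (hZ : Contr p (D.map G.ρT.a) Z)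
    (m : ℕ) : ∃ w₀ w₁, G.Cor γ γ' w₀ ∧ G.Cor γ γ' w₁ ∧
      Coh (G.σU.o (G.oU p D (G.κ.a ε') m)) (G.σT.o (G.oT p D Z δ m) + w₀ + w₁) := by
  have e : (D.map G.ρU.a).map G.σU.a = (D.map G.ρT.a).map G.σT.a := by
    ext i j
    exact G.σρa _
  have oT := h.odd.map' G.ρT.a
  have e1 : G.σT.a (G.ρT.a δ) = G.σU.a (G.κ.a ε) := by rw [h.kap, G.σρa]
  have c := om_BU_BT G.hO (oT.map' G.σT.a) (sq_map _ (sq_map _ h.sq))
    (γ' := G.σU.a (G.κ.a ε')) (by rw [e1, ← map_mul, ← map_mul, h.un, map_one, map_one])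
    (Contr.map' G.σT.a hZ) m
  have k : ∀ (u u' : AW) (b : Bool), u ∈ Cl γ γ' → u' ∈ Cl γ γ' →
      G.Cor γ γ' ((cz m (G.σU.a (G.κ.a u)) (G.σU.a (G.κ.a u')) • d0 ΩO (G.σU.a (G.κ.a u))) *
        tk ΩO p (eb p ((D.map G.ρT.a).map G.σT.a) (Z.map G.σT.a) b) (2 * m)) := by
    intro u u' b hu hu'
    refine ⟨cz m u u' • d0 ΩW u, tk ΩT p (eb p (D.map G.ρT.a) Z b) (2 * m),
      ⟨_, cz_mem m hu hu', _, hu, rfl⟩,
      tk_idem_closed (eb_idem oT hZ b) (comm_SM_of_even (eb_even oT hZ b)) m, ?_, ?_⟩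
    · rw [G.σT.is.tk, inv_tk_even]
    · rw [G.κ.is.smul, G.κ.is.d0, G.σU.is.smul, G.σU.is.d0, cz_map, cz_map, G.σT.is.tk, eb_map]
  refine ⟨_, _, k ε ε' false h.mem h.mem', k ε' ε true h.mem' h.mem, ?_⟩
  rw [oU, Ge.oT, G.σU.is.om, G.σT.is.om, BU_map, BT_map, e, ← e1]
  exact c

theorem od_lg {ξ : ΩW} (hξ : Lg (Cl γ γ') ξ) : Od (G.σU.o (G.κ.o ξ)) := by
  obtain ⟨u, -, v, -, rfl⟩ := hξ
  rw [G.κ.is.smul, G.κ.is.d0, G.σU.is.smul, G.σU.is.d0]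
  exact (od_d0 _).smul _

theorem inv_oU (p : ι → Bool) (D : Matrix ι ι AS) (δ' : AU) (m : ℕ) :
    inv (G.σU.o (G.oU p D δ' m)) = -G.σU.o (G.oU p D δ' m) := by
  rw [oU, G.σU.is.om]
  exact inv_om (th_od _ _) m

theorem Ob.mul_cor (hγ : γ * γ' = 1) (hz : G.zU.a (G.κ.a γ) = G.κ.a γ)
    (h : G.Ob γ γ' p D δ ε ε') {m : ℕ} (hm : n < 2 * m + 2) {w : ΩO} (hw : G.Cor γ γ' w) :
    Coh (G.σU.o (G.oU p D (G.κ.a ε') m) * w) 0 := by
  obtain ⟨ξ, e, hξ, he, -, rfl⟩ := hw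
  have := ((h.vanU G hγ hz hm hξ).map G.σU.is.toIsHom).mul_right (G.σT.is.closed he)
  rwa [map_mul, map_zero, zero_mul, mul_assoc] at this

theorem Ob.cor_mul (hγ : γ * γ' = 1) (hz : G.zU.a (G.κ.a γ) = G.κ.a γ)
    (h : G.Ob γ γ' p D δ ε ε') {Z : Matrix ι ι AT} (hZ : Contr p (D.map G.ρT.a) Z) {m : ℕ}
    (hm : n < 2 * m + 2) {w : ΩO} (hw : G.Cor γ γ' w) :
    Coh (w * G.σT.o (G.oT p D Z δ m)) 0 := by
  obtain ⟨w₀, w₁, h₀, h₁, c⟩ := h.cmp G hZ m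
  obtain ⟨ξ, e, hξ, he, ie, rfl⟩ := hw
  have o := G.od_lg hξ
  have cξ := G.σU.is.closed (G.κ.is.closed (hξ.closed hγ))
  have z : ∀ w', G.Cor γ γ' w' → G.σU.o (G.κ.o ξ) * w' = 0 := by
    rintro _ ⟨ξ', e', hξ', -, -, rfl⟩
    rw [← mul_assoc, ← map_mul, ← map_mul, hξ.mul hγ hξ', map_zero, map_zero, zero_mul]
  have c1 := c.mul_left_od cξ o.1
  rw [mul_add, mul_add, z _ h₀, z _ h₁, add_zero, add_zero, o.anti (G.inv_oU _ _ _ _)] at c1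
  have c2 := ((h.vanU G hγ hz hm hξ).map G.σU.is.toIsHom).neg
  rw [map_mul, map_zero, neg_zero] at c2
  have := (c1.symm.trans c2).mul_left_ev (G.σT.is.closed he) ie
  rwa [mul_zero, ← mul_assoc, ← o.comm ie] at this

theorem vanish (hγ : γ * γ' = 1) (hz : G.zU.a (G.κ.a γ) = G.κ.a γ) {δ₂ : AS} {ε₂ ε₂' : AW}
    (hD : G.Ob γ γ' p D δ ε ε') (hF : G.Ob γ γ' q F δ₂ ε₂ ε₂') (hZ : Contr q (F.map G.ρT.a) Z)
    {P : AO} (hP : P ∈ Subring.closure {G.tO}) {a b : ℕ} (h : n < 2 * a + 2 ∨ n < 2 * b + 2) :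
    G.bd (P • (G.σU.o (G.oU p D (G.κ.a ε') a) * G.σT.o (G.oT q F Z δ₂ b))) = 0 := by
  rcases h with h | h
  · obtain ⟨w₀, w₁, h₀, h₁, c⟩ := hF.cmp G hZ b
    have c1 := c.mul_left_od (G.σU.is.closed (hD.closedU G a)) (G.inv_oU _ _ _ _)
    rw [mul_add, mul_add] at c1
    have c2 := c1.trans (((Coh.refl _).add (hD.mul_cor G hγ hz h h₀)).add
      (hD.mul_cor G hγ hz h h₁))
    rw [add_zero, add_zero, ← map_mul] at c2
    rw [← G.bd_coh hP c2]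
    exact G.bd_U hP (d_mul_closed (hD.closedU G a) (hF.closedU G b))
  · obtain ⟨Z', hZ'⟩ := hD.tube
    obtain ⟨w₀, w₁, h₀, h₁, c⟩ := hD.cmp G hZ' a
    have c1 := c.mul_right (G.σT.is.closed (hF.closedT G hZ b))
    rw [add_mul, add_mul] at c1
    have c2 := c1.trans (((Coh.refl _).add (hF.cor_mul G hγ hz hZ h h₀)).add
      (hF.cor_mul G hγ hz hZ h h₁))
    rw [add_zero, add_zero, ← map_mul] at c2
    rw [G.bd_coh hP c2]
    exact G.bd_T hP (d_mul_closed (hD.closedT G hZ' a) (hF.closedT G hZ b))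

theorem endgame {m : ℕ} (G : Ge (m + 1) AS ΩS AU ΩU AT ΩT AO ΩO AW ΩW) (hγ : γ * γ' = 1)
    (hz : G.zU.a (G.κ.a γ) = G.κ.a γ) {ε₂ ε₂' : AW} (hD : G.Ob γ γ' p D δ ε ε')
    (hF : G.Ob γ γ' q F (-δ) ε₂ ε₂') (hp : trace (SM AS p) = 0) (hq : trace (SM AS q) = 0) :
    ∃ H H', Contr (tpar p q) (tens p D F) H ∧
      Contr (tpar (fun i => !p i) q) (tens (fun i => !p i) Dᵀ F) H' ∧
      tens p D F * tens p D F = 0 ∧
      tens (fun i => !p i) Dᵀ F * tens (fun i => !p i) Dᵀ F = 0 ∧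
      (Odd (m + 1) → G.Res (tk ΩS (tpar p q) (tens p D F + H) (2 * m + 1)) = 0) ∧
      (Even (m + 1) → G.Res (tk ΩS (tpar (fun i => !p i) q) (tens (fun i => !p i) Dᵀ F + H')
        (2 * m + 1)) = -(-1) ^ ((m + 1) / 2) *
          G.Res (tk ΩS (tpar p q) (tens p D F + H) (2 * m + 1))) := by
  obtain ⟨Z, hZ⟩ := hF.tube
  obtain ⟨X, hX⟩ := G.exists_XE p D (G.κ.a ε')
  obtain ⟨Y, hY⟩ := G.exists_XF Z
  have oD' : OddM (fun i => !p i) (fun i => !p i) Dᵀ := fun i j e =>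
    hD.odd j i (Bool.not_inj e).symm
  have DD' : Dᵀ * Dᵀ = δ • (1 : Matrix ι ι AS) := by
    rw [← transpose_mul, hD.sq, transpose_smul, transpose_one]
  have hp' : trace (SM AS fun i => !p i) = 0 := by rw [SM_not, trace_neg, hp, neg_zero]
  have hX' := hX.transpose G hD.odd
  have van : ∀ ij ∈ Finset.HasAntidiagonal.antidiagonal (2 * m + 1),
      2 * ((ij.1 - 1) / 2) + 2 ≠ m + 1 →
      G.bd (Pc G.tO ij.1 ij.2 • (G.σU.o (G.oU p D (G.κ.a ε') ((ij.1 - 1) / 2)) *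
        G.σT.o (G.oT q F Z (-δ) ((ij.2 - 1) / 2)))) = 0 := fun ij hij hne => by
    have e := Finset.HasAntidiagonal.mem_antidiagonal.1 hij
    by_cases h0 : ij.1 = 0 ∨ ij.2 = 0
    · rw [Pc, if_pos h0, zero_smul, map_zero]
    · exact G.vanish hγ hz hD hF hZ (Pc_mem _ _ _) (by omega)
  refine ⟨tens p X Y, tens (fun i => !p i) Xᵀ Y,
    (G.rel hD.odd hF.odd hD.sq hF.sq (hD.unit G) hX hZ hY).contr,
    (G.rel oD' hF.odd DD' hF.sq (hD.unit G) hX' hZ hY).contr,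
    by rw [tens_sq hD.odd hD.sq hF.sq]; simp, by rw [tens_sq oD' DD' hF.sq]; simp,
    fun ho => ?_, fun he => ?_⟩
  · rw [G.formula hD.odd hF.odd hD.sq hF.sq (hD.unit G) hX hZ hY hp hq]
    refine Finset.sum_eq_zero fun ij hij => ?_
    rw [van ij hij (by obtain ⟨k, hk⟩ := ho; omega), smul_zero]
  · rw [G.formula hD.odd hF.odd hD.sq hF.sq (hD.unit G) hX hZ hY hp hq,
      G.formula oD' hF.odd DD' hF.sq (hD.unit G) hX' hZ hY hp' hq, Finset.mul_sum]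
    refine Finset.sum_congr rfl fun ij hij => ?_
    have e : ∀ a, G.oU (fun i => !p i) Dᵀ (G.κ.a ε') a = (-1 : ℤ) ^ a • G.oU p D (G.κ.a ε') a :=
      fun a => by
        rw [oU, transpose_map, BU_transpose (hD.odd.map' _),
          om_transpose (BU_sq (hD.odd.map' _) (sq_map _ hD.sq) (hD.unit G)), oU]
    rw [e, map_zsmul, smul_mul_assoc, smul_comm (Pc _ _ _), map_zsmul, mul_smul_comm]
    congr 1
    by_cases h : 2 * ((ij.1 - 1) / 2) + 2 = m + 1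
    · rw [show (m + 1) / 2 = (ij.1 - 1) / 2 + 1 by omega, pow_succ]
      simp
    · rw [van ij hij h, smul_zero, mul_zero]

end Ge

end CW

namespace XL

open CW

/-- The end game. -/
theorem Geo.endgame {n : ℕ} {AS ΩS AU ΩU AT ΩT AO ΩO AW ΩW : Type}
    [CommRing AS] [Ring ΩS] [Algebra ℚ ΩS] [CommRing AU] [Ring ΩU] [Algebra ℚ ΩU]
    [CommRing AT] [Ring ΩT] [Algebra ℚ ΩT] [CommRing AO] [Ring ΩO] [Algebra ℚ ΩO]
    [CommRing AW] [Ring ΩW] [Algebra ℚ ΩW] (G : Geo n AS ΩS AU ΩU AT ΩT AO ΩO AW ΩW)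
    (hn : 0 < n) {ι κ : Type} [Fintype ι] [DecidableEq ι] [Fintype κ] [DecidableEq κ]
    {p : ι → Bool} {p' : κ → Bool} {E : Matrix ι ι AS} {F : Matrix κ κ AS} {γ : AS} {γW : AW}
    (hγ : IsUnit γW) (hκ : G.κ.a γW = G.ρU.a γ) (hz : G.zU.a (G.ρU.a γ) = G.ρU.a γ)
    (hE : G.Obj p E γ γW) (hF : G.Obj p' F (-γ) (-γW))
    (hE1 : ∃ h, OddM p p h ∧ E * h + h * E = 1) (hF1 : ∃ h, OddM p' p' h ∧ F * h + h * F = 1) :
    ∃ H H', Contr (tpar p p') (tens p E F) H ∧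
      Contr (tpar (fun i => !p i) p') (tens (fun i => !p i) Eᵀ F) H' ∧
      (Odd n → G.Res (G.GS.oo (tpar p p') (tens p E F + H) (2 * n - 1)) = 0) ∧
      (Even n → G.Res (G.GS.oo (tpar (fun i => !p i) p') (tens (fun i => !p i) Eᵀ F + H')
        (2 * n - 1)) = -(-1) ^ (n / 2) *
          G.Res (G.GS.oo (tpar p p') (tens p E F + H) (2 * n - 1))) := by
  obtain ⟨m, rfl⟩ : ∃ m, n = m + 1 := ⟨n - 1, by omega⟩
  letI := toSD G.GS
  letI := toAlg G.GS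
  haveI := toEv G.GS
  letI := toSD G.GU
  letI := toAlg G.GU
  haveI := toEv G.GU
  letI := toSD G.GT
  letI := toAlg G.GT
  haveI := toEv G.GT
  letI := toSD G.GO
  letI := toAlg G.GO
  haveI := toEv G.GO
  letI := toSD G.GW
  letI := toAlg G.GW
  haveI := toEv G.GW
  let G' : Ge (m + 1) AS ΩS AU ΩU AT ΩT AO ΩO AW ΩW :=
    { hS := toHx G.hS
      hU := toHx G.hU
      hUr := G.hU.r_r
      hO := toHx G.hO
      ρU := ⟨_, _, toMap G.ρU⟩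
      ρT := ⟨_, _, toMap G.ρT⟩
      σU := ⟨_, _, toMap G.σU⟩
      σT := ⟨_, _, toMap G.σT⟩
      κ := ⟨_, _, toMap G.κ⟩
      σρ := G.σρ
      σρa := G.σρa
      τ := G.τ
      zU := ⟨_, _, toMap G.zU⟩
      zT := ⟨_, _, toMap G.zT⟩
      zU_τ := G.zU_τ
      zT_τ := G.zT_τ
      zU_ex := fun ω h => (ex_iff G.GU _ _).1 (G.zU_ex ω h)
      inj := G.inj
      inja := G.inja
      exU := G.exU
      exT := G.exT
      exO := G.exO
      exUa := G.exUa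
      exTa := G.exTa
      Res := G.Res.toAddMonoidHom
      Res_d := G.Res_d
      Φ := ⟨G.GW.Fd, G.GW.Fd_zero, G.GW.Fd_mul, G.GW.Fd_d, G.GW.Fd_anti⟩
      van := fun ω h h' => (ex_iff G.GW _ _).1 (by rw [sub_zero]; exact G.van ω h h') }
  obtain ⟨γ', hγ'⟩ := hγ.exists_right_inv
  have m1 : γW ∈ Ge.Cl γW γ' := Subring.subset_closure (Or.inl rfl)
  have m2 : γ' ∈ Ge.Cl γW γ' := Subring.subset_closure (Or.inr rfl)
  have ob : ∀ {ι : Type} [Fintype ι] [DecidableEq ι] {p : ι → Bool} {D : Matrix ι ι AS} {δ : AS}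
      {ε ε' : AW}, G.Obj p D δ ε → ε * ε' = 1 → ε ∈ Ge.Cl γW γ' → ε' ∈ Ge.Cl γW γ' →
      G.κ.a ε = G.ρU.a δ → G'.Ob γW γ' p D δ ε ε' := by
    intro ι _ _ p D δ ε ε' h h1 h2 h3 h4
    obtain ⟨DW, V, o, sq, eV, uV, ⟨Y, Y', eY, iY, y0, y1⟩, hV⟩ := h.aff
    obtain ⟨V', iV⟩ := uV.exists_right_inv
    exact ⟨h.odd, h.sq, h1, h2, h3, h4, h.tube, DW, V, V', Y, Y', o, sq, eV, iV, eY, iY, y0, y1, hV⟩
  obtain ⟨h1, -, c1⟩ := hE1
  obtain ⟨h2, -, c2⟩ := hF1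
  obtain ⟨H, H', k, k', s, s', r1, r2⟩ := G'.endgame hγ' (by rw [← hκ] at hz; exact hz)
    (ob hE hγ' m1 m2 hκ)
    (ob (ε' := -γ') hF (by rw [neg_mul_neg, hγ']) (neg_mem m1) (neg_mem m2)
      (by rw [map_neg, map_neg, hκ]))
    (trace_SM_of_contr hE.odd c1) (trace_SM_of_contr hF.odd c2)
  have e : ∀ {ι : Type} [Fintype ι] [DecidableEq ι] {p : ι → Bool} {D H : Matrix ι ι AS},
      D * D = 0 → Contr p D H → G.Res (G.GS.oo p (D + H) (2 * (m + 1) - 1)) =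
        (-1) ^ m * G'.Res (tk ΩS p (D + H) (2 * m + 1)) := by
    intro ι _ _ p D H h0 hH
    have := contr_sq h0 hH.hom
    rw [Contr.hdh hH] at this
    rw [tk_eq_om this, map_zsmul, zsmul_eq_mul, ← mul_assoc]
    push_cast
    rw [← mul_pow, neg_mul_neg, one_mul, one_pow, one_mul,
      show 2 * (m + 1) - 1 = 2 * m + 1 by omega]
    rfl
  refine ⟨H, H', k, k', fun h => ?_, fun h => ?_⟩
  · rw [e s k, r1 h, mul_zero]
  · rw [e s k, e s' k', r2 h]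
    ring

end XL

end Pool.Agent.P.MP_f43029_ag
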