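import Pool.Agent.P.MP_f43029_ag.XL.CWa

/-! Gauge transformations.
Sketch. `om_gauge`: on `ι ⊕ ι` with parity `Sum.elim p p` let `W = V - 1`, `W' = V' - 1`,
`M = fromBlocks (1 + a • W) (b • W) (c • W) (1 + e • W)` and `M'` the same with `W'`, where
`a = x^2 (3-2x)`, `b = x (1-x) (1+2x)`, `c = (1-x) x (3-2x)`, `e = (1-x)^2 (1+2x)`, `x = H.x`
(the matrix `!![a, b; c, e]` is idempotent, `W + W' + W W' = 0`), so `M M' = 1 = M' M`.
`G2 = fromBlocks G 0 0 1`. The form `th (M' G2') (G2 M)` is flat (`mc_gauge`, `om_sum`). Apply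
`H.htpy` with `a = th (diag G' V') (diag G V)` (x = 0) and `b = th (diag (V' G') 1) (diag (G V) 1)`
(x = 1), using `map_om`, `IsMap.th`, `H.g_x`.
`om_idem`: `α = z' dz e`, `β = (z - 1) V' de`, `θ = α + β`, `α α = 0`, `β β = (z-1)^2 z' de de`
commutes with `e`, `de`, `dz`; `δ = α β + β α` has `δ δ = 0`, `α δ = 0`;
`θ ^ (2m) = β ^ (2m) + m β ^ (2m-2) δ`; `J = 2 e - 1` anticommutes with `de` and `β`, `J J = 1`, so
supertraces of odd powers of `de`, `β` vanish (`SD.tf`); `trace_odE` for the cyclic move. Scalar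
forms as matrices: `Matrix.scalar ι ω`.
`om_transpose`: `(dB ^ k)ᵀ = (-1) ^ (k.choose 2) • dBᵀ ^ k` (`OdE.inv_pow`), `tk_eq_om`,
`anti_of_sq`, `SM (!p) = - SM p`. -/

set_option autoImplicit false
set_option linter.unusedSectionVars false

namespace Pool.Agent.P.MP_f43029_ag.CW

open Matrix

variable {A Ω : Type} [CommRing A] [Ring Ω] [Algebra A Ω] [SD Ω] [EvAlg A Ω]
  {ι κ : Type} [Fintype ι] [Fintype κ] [DecidableEq ι] [DecidableEq κ]

private theorem SM_sum (α : Type) [Ring α] (p : ι → Bool) (q : κ → Bool) :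
    SM α (Sum.elim p q) = fromBlocks (SM α p) 0 0 (SM α q) := by
  rw [SM, SM, SM, fromBlocks_diagonal]
  congr 1
  funext i
  cases i <;> rfl

theorem om_sum (p : ι → Bool) (q : κ → Bool) (θ : Matrix ι ι Ω) (θ' : Matrix κ κ Ω) (m : ℕ) :
    om (Sum.elim p q) (fromBlocks θ 0 0 θ') m = om p θ m + om q θ' m := by
  rw [om, om, om, SM_sum, fromBlocks_diagonal_pow, fromBlocks_multiply]
  simp [trace, Fintype.sum_sum_type]

theorem mc_gauge {p : ι → Bool} {G' G V' V : Matrix ι ι A} (hG : G * G' = 1)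
    (hθ : MC p (th Ω G' G)) (hs : V * SM A p = SM A p * V) (hV : V * V' = 1) :
    MC p (th Ω (V' * G') (G * V)) := by
  have hG' : G' * G = 1 := mul_eq_one_comm.1 hG
  have hV' : V' * V = 1 := mul_eq_one_comm.1 hV
  have hs' : V' * SM A p = SM A p * V' := by
    calc V' * SM A p = V' * SM A p * (V * V') := by rw [hV, mul_one]
      _ = V' * (V * SM A p) * V' := by rw [hs]; simp only [mul_assoc]
      _ = SM A p * V' := by rw [← mul_assoc, hV', one_mul]
  refine ⟨th_od _ _, th_d ?_ ?_, ?_⟩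
  · rw [mul_assoc, ← mul_assoc V, hV, one_mul, hG]
  · rw [mul_assoc, ← mul_assoc G', hG', one_mul, hV']
  · rw [th_mul hG', add_mul, mul_add, (mc_of_even (Ω := Ω) hs hV hV').cs, mul_assoc,
      cM_comm_SM hs, ← mul_assoc, mul_assoc (cM Ω V'), hθ.cs, ← mul_assoc, cM_comm_SM hs']
    simp only [mul_assoc]

private theorem th_blocks (X' X : Matrix ι ι A) (Y' Y : Matrix κ κ A) :
    th Ω (fromBlocks X' 0 0 Y') (fromBlocks X 0 0 Y) =
      fromBlocks (th Ω X' X) 0 0 (th Ω Y' Y) := by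
  have e1 : cM Ω (fromBlocks X' 0 0 Y') = fromBlocks (cM Ω X') 0 0 (cM Ω Y') := by
    rw [cM, fromBlocks_map]
    change fromBlocks (cM Ω X') (cM Ω 0) (cM Ω 0) (cM Ω Y') = _
    rw [cM_zero, cM_zero]
  have e2 : dM Ω (fromBlocks X 0 0 Y) = fromBlocks (dM Ω X) 0 0 (dM Ω Y) := by
    rw [dM, fromBlocks_map]
    change fromBlocks (dM Ω X) (dM Ω 0) (dM Ω 0) (dM Ω Y) = _
    rw [dM_zero, dM_zero]
  rw [th, e1, e2, fromBlocks_multiply, th, th]
  simp

private theorem th_one : th Ω (1 : Matrix ι ι A) 1 = 0 := by rw [th, dM_one, mul_zero]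

private theorem om_zero (p : ι → Bool) (m : ℕ) : om p (0 : Matrix ι ι Ω) m = 0 := by
  rw [om, zero_pow (by omega), mul_zero, trace_zero]

/-- The path from `diag (1, 1 + W)` to `diag (1 + W, 1)`. -/
private def rotM (x : A) (W : Matrix ι ι A) : Matrix (ι ⊕ ι) (ι ⊕ ι) A :=
  fromBlocks (1 + (x ^ 2 * (3 - 2 * x)) • W) ((x * (1 - x) * (1 + 2 * x)) • W)
    (((1 - x) * x * (3 - 2 * x)) • W) (1 + ((1 - x) ^ 2 * (1 + 2 * x)) • W)

private theorem rotM_mul (x : A) {W W' : Matrix ι ι A} (h : W * W' = -W - W') :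
    rotM x W * rotM x W' = 1 := by
  rw [rotM, rotM, fromBlocks_multiply, ← fromBlocks_one]
  simp only [add_mul, mul_add, one_mul, mul_one, smul_mul_assoc, mul_smul_comm, h]
  congr 1 <;> module

private theorem rotM_SM (x : A) {p : ι → Bool} {W : Matrix ι ι A} (h : W * SM A p = SM A p * W) :
    rotM x W * SM A (Sum.elim p p) = SM A (Sum.elim p p) * rotM x W := by
  rw [rotM, SM_sum, fromBlocks_multiply, fromBlocks_multiply]
  simp only [add_mul, mul_add, one_mul, mul_one, smul_mul_assoc, mul_smul_comm, h, mul_zero,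
    zero_mul, add_zero, zero_add, smul_zero]

private theorem rotM_map (g : A →+* A) (x : A) (W : Matrix ι ι A) :
    (rotM x W).map g = rotM (g x) (W.map g) := by
  ext i j
  rcases i with i | i <;> rcases j with j | j <;>
    simp [rotM, Matrix.one_apply, apply_ite g, map_ofNat]

private theorem rotM_zero (W : Matrix ι ι A) : rotM 0 W = fromBlocks 1 0 0 (1 + W) := by
  simp [rotM]

private theorem rotM_one (W : Matrix ι ι A) : rotM 1 W = fromBlocks (1 + W) 0 0 1 := by
  have : (3 : A) - 2 = 1 := by norm_num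
  simp [rotM, this]

private theorem rotM_false (H : Hx A Ω) (V : Matrix ι ι A) :
    (rotM H.x (V - 1)).map (H.g false) = (fromBlocks 1 0 0 V).map (H.g false) := by
  have e : fromBlocks 1 0 0 V = rotM 0 (V - 1) := by rw [rotM_zero, add_sub_cancel]
  rw [e, rotM_map, rotM_map, H.g_x, map_zero]
  rfl

private theorem rotM_true (H : Hx A Ω) (V : Matrix ι ι A) :
    (rotM H.x (V - 1)).map (H.g true) = (fromBlocks V 0 0 1).map (H.g true) := by
  have e : fromBlocks V 0 0 1 = rotM 1 (V - 1) := by rw [rotM_one, add_sub_cancel]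
  rw [e, rotM_map, rotM_map, H.g_x, map_one]
  rfl

/-- The odd characteristic forms are additive up to exact forms. -/
theorem om_gauge (H : Hx A Ω) {p : ι → Bool} {G' G V' V : Matrix ι ι A} (hG : G * G' = 1)
    (hθ : MC p (th Ω G' G)) (hs : V * SM A p = SM A p * V) (hV : V * V' = 1) (m : ℕ) :
    Coh (om p (th Ω (V' * G') (G * V)) m) (om p (th Ω G' G) m + om p (th Ω V' V) m) := by
  have hG' : G' * G = 1 := mul_eq_one_comm.1 hG
  have hV' : V' * V = 1 := mul_eq_one_comm.1 hV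
  have hW : (V - 1) * (V' - 1) = -(V - 1) - (V' - 1) := by
    rw [sub_mul, mul_sub, hV, one_mul, mul_one]
    abel
  have hsW : (V - 1) * SM A p = SM A p * (V - 1) := by
    rw [sub_mul, mul_sub, hs, one_mul, mul_one]
  have h2 : (fromBlocks G 0 0 1 : Matrix (ι ⊕ ι) (ι ⊕ ι) A) * fromBlocks G' 0 0 1 = 1 := by
    rw [fromBlocks_multiply, ← fromBlocks_one]
    simp [hG]
  have hθ2 : MC (Sum.elim p p) (th Ω (fromBlocks G' 0 0 (1 : Matrix ι ι A)) (fromBlocks G 0 0 1)) := by
    refine ⟨th_od _ _, th_d h2 (mul_eq_one_comm.1 h2), ?_⟩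
    rw [th_blocks, th_one, SM_sum, fromBlocks_multiply, fromBlocks_multiply]
    simp [hθ.cs]
  have hc := (mc_gauge h2 hθ2 (rotM_SM H.x hsW) (rotM_mul H.x hW)).closed m
  have ea : om (Sum.elim p p) (th Ω (fromBlocks G' 0 0 V') (fromBlocks G 0 0 V)) m =
      om p (th Ω G' G) m + om p (th Ω V' V) m := by rw [th_blocks, om_sum]
  have eb : om (Sum.elim p p) (th Ω (fromBlocks (V' * G') 0 0 (1 : Matrix ι ι A))
      (fromBlocks (G * V) 0 0 1)) m = om p (th Ω (V' * G') (G * V)) m := by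
    rw [th_blocks, om_sum, th_one, om_zero, add_zero]
  have ha : d (om p (th Ω G' G) m + om p (th Ω V' V) m) = 0 := by
    rw [map_add, hθ.closed, (mc_of_even hs hV hV').closed, add_zero]
  have hb := (mc_gauge hG hθ hs hV).closed m
  refine (H.htpy ha hb hc ?_ ?_).symm
  · have e1 : fromBlocks G' 0 0 V' =
        (fromBlocks 1 0 0 V' : Matrix (ι ⊕ ι) (ι ⊕ ι) A) * fromBlocks G' 0 0 1 := by
      rw [fromBlocks_multiply]
      simp
    have e2 : fromBlocks G 0 0 V =
        (fromBlocks G 0 0 1 : Matrix (ι ⊕ ι) (ι ⊕ ι) A) * fromBlocks 1 0 0 V := by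
      rw [fromBlocks_multiply]
      simp
    rw [← ea, map_om, map_om, (H.isMap false).th, (H.isMap false).th, e1, e2, Matrix.map_mul,
      Matrix.map_mul, Matrix.map_mul, Matrix.map_mul, rotM_false, rotM_false]
  · have e1 : fromBlocks (V' * G') 0 0 1 =
        (fromBlocks V' 0 0 1 : Matrix (ι ⊕ ι) (ι ⊕ ι) A) * fromBlocks G' 0 0 1 := by
      rw [fromBlocks_multiply]
      simp
    have e2 : fromBlocks (G * V) 0 0 1 =
        (fromBlocks G 0 0 1 : Matrix (ι ⊕ ι) (ι ⊕ ι) A) * fromBlocks V 0 0 1 := by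
      rw [fromBlocks_multiply]
      simp
    rw [← eb, map_om, map_om, (H.isMap true).th, (H.isMap true).th, e1, e2, Matrix.map_mul,
      Matrix.map_mul, Matrix.map_mul, Matrix.map_mul, rotM_true, rotM_true]

private theorem trace_SM_anti {p : ι → Bool} {J : Matrix ι ι A} (hJ : J * J = 1)
    (hs : J * SM A p = SM A p * J) {X : Matrix ι ι Ω} (hX : X * cM Ω J = -(cM Ω J * X)) :
    trace (SM Ω p * X) = 0 := by
  refine SD.tf _ ?_
  have hJ' : cM Ω J * cM Ω J = 1 := by rw [← cM_mul, hJ, cM_one]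
  have e : SM Ω p * X = cM Ω J * (SM Ω p * (cM Ω J * X)) := by
    rw [← mul_assoc, cM_comm_SM hs, mul_assoc, ← mul_assoc (cM Ω J), hJ', one_mul]
  conv_lhs => rw [e, trace_cM, mul_assoc, mul_assoc, hX, mul_neg, ← mul_assoc (cM Ω J), hJ',
    one_mul, mul_neg, trace_neg]

private theorem dM_pow_d (X : Matrix ι ι A) (k : ℕ) : (dM Ω X ^ k).map d = 0 := by
  induction k with
  | zero =>
    have := dM_one (A := A) (Ω := Ω) (ι := ι)
    rwa [← cM_d, cM_one, ← pow_zero (dM Ω X)] at this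
  | succ k ih => rw [pow_succ, dmap_mul, ih, dM_d, zero_mul, mul_zero, add_zero]

private theorem idem_rel {e : Matrix ι ι A} (he : e * e = e) :
    dM Ω e * cM Ω e = dM Ω e - cM Ω e * dM Ω e := by
  have h := congrArg (dM Ω) he
  rw [dM_mul] at h
  exact eq_sub_of_add_eq h

private theorem refl_sq {e : Matrix ι ι A} (he : e * e = e) : (e + e - 1) * (e + e - 1) = 1 := by
  simp only [sub_mul, mul_sub, add_mul, mul_add, he, one_mul, mul_one]
  abel

private theorem refl_SM {p : ι → Bool} {e : Matrix ι ι A} (hs : e * SM A p = SM A p * e) :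
    (e + e - 1) * SM A p = SM A p * (e + e - 1) := by
  simp only [sub_mul, mul_sub, add_mul, mul_add, hs, one_mul, mul_one]

private theorem cM_refl (e : Matrix ι ι A) : cM Ω (e + e - 1) = cM Ω e + cM Ω e - 1 := by
  rw [cM_sub, cM_add, cM_one]

private theorem anti_pow {R : Type} [Ring R] {X J : R} (h : X * J = -(J * X)) (m : ℕ) :
    X ^ (2 * m) * J = J * X ^ (2 * m) := by
  have h2 : Commute (X ^ 2) J := by
    change X ^ 2 * J = J * X ^ 2
    rw [pow_two, mul_assoc, h, mul_neg, ← mul_assoc, h, neg_mul, neg_neg, mul_assoc]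
  rw [pow_mul]
  exact (h2.pow_left m).eq

private theorem anti_refl {e : Matrix ι ι A} (he : e * e = e) :
    dM Ω e * cM Ω (e + e - 1) = -(cM Ω (e + e - 1) * dM Ω e) := by
  rw [cM_refl]
  simp only [sub_mul, mul_sub, add_mul, mul_add, idem_rel he, one_mul, mul_one]
  abel

theorem tk_idem_closed {p : ι → Bool} {e : Matrix ι ι A} (he : e * e = e)
    (hs : e * SM A p = SM A p * e) (m : ℕ) : d (tk Ω p e (2 * m)) = 0 := by
  rw [tk, d_trace_SM, dmap_mul, dM_pow_d, mul_zero, add_zero, cM_d]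
  refine trace_SM_anti (refl_sq he) (refl_SM hs) ?_
  rw [mul_assoc, anti_pow (anti_refl he), ← mul_assoc, anti_refl he, neg_mul, mul_assoc]

theorem inv_tk_even (p : ι → Bool) (e : Matrix ι ι A) (m : ℕ) :
    inv (tk Ω p e (2 * m)) = tk Ω p e (2 * m) := by
  rw [tk, map_trace', Matrix.map_mul, Matrix.map_mul, SM_map, cM_inv, (dM_od e).inv_pow,
    Even.neg_one_pow ⟨m, by ring⟩, one_smul]

private theorem idem_pow {R : Type} [Ring R] [Algebra A R] {E X D : R} (hE : E * E = E)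
    (hX : X * E = X - E * X) (hD : E * D = D * E) (hXD : X * D = -(D * X)) (hDD : D * D = 0)
    (z z' : A) (m : ℕ) :
    ((1 + (z' - 1) • E) * (D * E + (z - 1) • X)) ^ (2 * m + 1) =
      ((z - 1) ^ 2 * z') ^ m • (((z - 1) • ((1 + (z' - 1) • E) * X) +
        z' • (D * E) + ((m : A) * z') • (D * (E + E - 1))) * X ^ (2 * m)) := by
  have hE' : ∀ y, E * (E * y) = E * y := fun y => by rw [← mul_assoc, hE]
  have hX' : ∀ y, X * (E * y) = X * y - E * (X * y) := fun y => by
    rw [← mul_assoc, hX, sub_mul, mul_assoc]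
  have hD' : ∀ y, E * (D * y) = D * (E * y) := fun y => by rw [← mul_assoc, hD, mul_assoc]
  have hXD' : ∀ y, X * (D * y) = -(D * (X * y)) := fun y => by
    rw [← mul_assoc, hXD, neg_mul, mul_assoc]
  have hDD' : ∀ y, D * (D * y) = 0 := fun y => by rw [← mul_assoc, hDD, zero_mul]
  induction m with
  | zero =>
    simp only [mul_zero, zero_add, pow_one, pow_zero, one_smul, mul_one, Nat.cast_zero, zero_mul,
      zero_smul, add_zero, add_mul, mul_add, one_mul, smul_mul_assoc, mul_smul_comm, hD', hE]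
    module
  | succ m ih =>
    have c1 : Commute (X ^ 2) E := by
      change X ^ 2 * E = E * X ^ 2
      simp only [pow_two, mul_assoc, hX, mul_sub, hX']
      abel
    have c2 : Commute (X ^ 2) D := by
      change X ^ 2 * D = D * X ^ 2
      simp only [pow_two, mul_assoc, hXD, mul_neg, hXD', neg_neg]
    have c3 : Commute (X ^ 2) X := Commute.pow_left (Commute.refl X) 2
    have c4 : Commute (X ^ (2 * m)) ((1 + (z' - 1) • E) * (D * E + (z - 1) • X)) := by
      rw [pow_mul]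
      exact Commute.pow_left (((Commute.one_right _).add_right (c1.smul_right _)).mul_right
        ((c2.mul_right c1).add_right (c3.smul_right _))) m
    have c5 : ∀ P T Y : R, Commute Y T → P * Y * T * T = P * T * T * Y := fun P T Y h => by
      rw [mul_assoc P Y, h.eq, ← mul_assoc, mul_assoc _ Y, h.eq, ← mul_assoc]
    rw [show 2 * (m + 1) + 1 = 2 * m + 1 + 1 + 1 by ring, pow_succ, pow_succ, ih,
      show 2 * (m + 1) = 2 * m + 1 + 1 by ring, pow_succ' X, pow_succ' X, smul_mul_assoc,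
      smul_mul_assoc, c5 _ _ _ c4, pow_succ ((z - 1) ^ 2 * z'),
      mul_smul (((z - 1) ^ 2 * z') ^ m)]
    refine congrArg _ ?_
    generalize X ^ (2 * m) = Y
    simp only [mul_assoc, add_mul, mul_add, sub_mul, mul_sub, one_mul, mul_one, smul_mul_assoc,
      mul_smul_comm, hE', hX', hD', hXD', hDD', mul_neg, neg_mul, zero_mul, smul_zero, neg_zero,
      smul_neg, neg_neg, neg_sub, smul_sub, smul_add]
    push_cast
    module

private theorem trace_SM_smul (p : ι → Bool) (c : Ω) (Y : Matrix ι ι Ω) :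
    trace (SM Ω p * (c • Y)) = c * trace (SM Ω p * Y) := by
  simp only [trace, Matrix.diag, SM, diagonal_mul, Matrix.smul_apply, smul_eq_mul, Finset.mul_sum]
  exact Finset.sum_congr rfl fun i _ => by
    rw [← mul_assoc, Int.cast_comm, mul_assoc]

/-- The forms of `1 + (z - 1) e` for an even idempotent `e` and a unit `z`. -/
theorem om_idem {p : ι → Bool} {e : Matrix ι ι A} (he : e * e = e)
    (hs : e * SM A p = SM A p * e) {z z' : A} (hz : z * z' = 1) (m : ℕ) :
    om p (th Ω (1 + (z' - 1) • e) (1 + (z - 1) • e)) m =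
      ((((2 * m + 1 : ℕ) : A) * z' * ((z - 1) ^ 2 * z') ^ m) • d0 Ω z) * tk Ω p e (2 * m) := by
  have _ := hz
  obtain ⟨D, hD⟩ : ∃ D : Matrix ι ι Ω, D = diagonal fun _ => d0 Ω z := ⟨_, rfl⟩
  have hDs : ∀ Y : Matrix ι ι Ω, D * Y = d0 Ω z • Y := fun Y => by
    rw [hD, smul_eq_diagonal_mul]
  have hE : cM Ω e * cM Ω e = cM Ω e := by rw [← cM_mul, he]
  have h1 : cM Ω e * D = D * cM Ω e := by
    ext i j
    rw [hD, mul_diagonal, diagonal_mul]
    exact Algebra.commutes _ _
  have h2 : dM Ω e * D = -(D * dM Ω e) := by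
    ext i j
    rw [hD, Matrix.neg_apply, mul_diagonal, diagonal_mul]
    exact (dM_od e i j).anti (inv_d0 z)
  have h3 : D * D = 0 := by
    rw [hD, diagonal_mul_diagonal, (od_d0 z).sq, diagonal_zero]
  have eθ : th Ω (1 + (z' - 1) • e) (1 + (z - 1) • e) =
      (1 + (z' - 1) • cM Ω e) * (D * cM Ω e + (z - 1) • dM Ω e) := by
    rw [th, cM_add, cM_one, cM_smul, dM_add, dM_one, zero_add, dM_smul, d0_sub, d0_one, sub_zero,
      hDs]
  have t1 : trace (SM Ω p * ((1 + (z' - 1) • cM Ω e) * dM Ω e * dM Ω e ^ (2 * m))) = 0 := by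
    refine trace_SM_anti (refl_sq he) (refl_SM hs) ?_
    have c : (1 + (z' - 1) • cM Ω e) * cM Ω (e + e - 1) =
        cM Ω (e + e - 1) * (1 + (z' - 1) • cM Ω e) := by
      rw [cM_refl]
      simp only [sub_mul, mul_sub, add_mul, mul_add, hE, one_mul, mul_one, smul_mul_assoc,
        mul_smul_comm]
      module
    rw [mul_assoc, anti_pow (anti_refl he), ← mul_assoc, mul_assoc _ (dM Ω e), anti_refl he,
      mul_neg, ← mul_assoc, c, neg_mul]
    simp only [mul_assoc]
  have t2 : trace (SM Ω p * (D * cM Ω e * dM Ω e ^ (2 * m))) = d0 Ω z * tk Ω p e (2 * m) := by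
    rw [mul_assoc, hDs, trace_SM_smul, tk]
  have t3 : (m : A) • trace (SM Ω p * (D * dM Ω e ^ (2 * m))) = 0 := by
    cases m with
    | zero => rw [Nat.cast_zero, zero_smul]
    | succ m =>
      rw [hDs, trace_SM_smul, show 2 * (m + 1) = 2 * m + 2 by ring,
        trace_even_pow (dM_od e) (dM_comm_SM hs), mul_zero, smul_zero]
  rw [om, eθ, idem_pow hE (idem_rel he) h1 h2 h3, smul_mul_assoc, ← t2]
  simp only [add_mul, mul_add, sub_mul, mul_sub, mul_one, smul_mul_assoc, mul_smul_comm,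
    trace_add, trace_sub, trace_smul] at t1 ⊢
  push_cast
  linear_combination (norm := module) (((z - 1) ^ 2 * z') ^ m * (z - 1)) • t1 -
    (((z - 1) ^ 2 * z') ^ m * z') • t3

private theorem transpose_mul_odE {X : Matrix ι ι Ω} (h : OdE X) (Y : Matrix ι ι Ω) :
    (X * Y)ᵀ = (Y.map inv)ᵀ * Xᵀ := by
  ext i j
  simp only [transpose_apply, Matrix.mul_apply, Matrix.map_apply]
  exact Finset.sum_congr rfl fun k _ => (h _ _).2 _

private theorem transpose_pow_odE {X : Matrix ι ι Ω} (h : OdE X) (m : ℕ) :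
    Xᵀ ^ (2 * m + 1) = (-1 : ℤ) ^ m • (X ^ (2 * m + 1))ᵀ := by
  have key : ∀ k, (X ^ (k + 1))ᵀ = (-1 : ℤ) ^ k • ((X ^ k)ᵀ * Xᵀ) := fun k => by
    rw [pow_succ' X, transpose_mul_odE h, h.inv_pow, transpose_smul, smul_mul_assoc]
  induction m with
  | zero => simp
  | succ m ih =>
    have s1 : (-1 : ℤ) ^ (2 * m + 1 + 1) = 1 := Even.neg_one_pow ⟨m + 1, by ring⟩
    have s2 : (-1 : ℤ) ^ (2 * m + 1) = -1 := Odd.neg_one_pow ⟨m, rfl⟩
    rw [show 2 * (m + 1) + 1 = 2 * m + 1 + 1 + 1 by ring, pow_succ Xᵀ, pow_succ Xᵀ, ih,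
      key (2 * m + 1 + 1), key (2 * m + 1), s1, s2, one_smul, smul_mul_assoc, smul_mul_assoc,
      smul_mul_assoc, smul_smul, pow_succ (-1 : ℤ)]
    congr 1
    ring

private theorem SM_not (α : Type) [Ring α] (p : ι → Bool) : SM α (fun i => !p i) = -SM α p := by
  rw [SM, SM, diagonal_neg]
  congr 1
  funext i
  cases p i <;> simp [sg]

private theorem tk_transpose {p : ι → Bool} {B : Matrix ι ι A} (h : B * B = 1) (m : ℕ) :
    tk Ω (fun i => !p i) Bᵀ (2 * m + 1) = (-1 : ℤ) ^ m • tk Ω p B (2 * m + 1) := by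
  have e1 : dM Ω Bᵀ = (dM Ω B)ᵀ := rfl
  have e2 : ∀ Y : Matrix ι ι Ω, cM Ω Bᵀ * Yᵀ = (Y * cM Ω B)ᵀ := fun Y => by
    ext i j
    simp only [transpose_apply, Matrix.mul_apply, cM, Matrix.map_apply]
    exact Finset.sum_congr rfl fun k _ => Algebra.commutes _ _
  have e3 : ∀ Y : Matrix ι ι Ω, trace (SM Ω p * Yᵀ) = trace (SM Ω p * Y) := fun Y => by
    simp only [trace, Matrix.diag, SM, diagonal_mul, transpose_apply]
  have e4 : dM Ω B ^ (2 * m + 1) * cM Ω B = -(cM Ω B * dM Ω B ^ (2 * m + 1)) := by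
    rw [pow_succ', mul_assoc, anti_pow (anti_of_sq h), ← mul_assoc, anti_of_sq h, neg_mul,
      mul_assoc]
  rw [tk, tk, SM_not, e1, transpose_pow_odE (dM_od B), Matrix.mul_smul, Matrix.mul_smul,
    trace_smul, e2, neg_mul, trace_neg, e3, e4, mul_neg, trace_neg, neg_neg]

/-- The dual involution. -/
theorem om_transpose {p : ι → Bool} {B : Matrix ι ι A} (h : B * B = 1) (m : ℕ) :
    om (fun i => !p i) (th Ω Bᵀ Bᵀ) m = (-1 : ℤ) ^ m • om p (th Ω B B) m := by
  have hT : Bᵀ * Bᵀ = 1 := by rw [← transpose_mul, h, transpose_one]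
  have e := tk_transpose (Ω := Ω) (p := p) h m
  rw [tk_eq_om hT, tk_eq_om h] at e
  have u : ((-1 : ℤ) ^ m) * (-1) ^ m = 1 := by rw [← mul_pow]; simp
  have e' := congrArg (fun w => ((-1 : ℤ) ^ m) • w) e
  simp only [smul_smul, u, one_smul] at e'
  exact e'

end Pool.Agent.P.MP_f43029_ag.CW
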