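import Pool.Agent.P.MP_f43029_ag.XL.CWa

/-! The characteristic forms of a tensor product.
Sketch. Over `Ω` (not commutative) use `kroneckerMap (· * ·)`:
`(X ⊗ Y) * (X' ⊗ Y') = (X * X') ⊗ (Y * Y')` as soon as the entries of `Y` commute with those of
`X'`. `dM (tens p X Y) = P + Q`, `P = dM X ⊗ 1`, `Q = SM p ⊗ dM Y`, and `P`, `Q` commute (the
entries of `dM X` and `dM Y` anticommute, `Od.anti`, and `SM_anti'`). `Commute.add_pow'`,
`P ^ i * Q ^ j = (dM X ^ i * S ^ j) ⊗ dM Y ^ j`, `SM (tpar p q) = SM p ⊗ SM q`, `trace_kronecker`.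
For odd `j` the factor `ck q Y j` vanishes, for even `j` the factor `tk q Y j` vanishes
(`trace_SM_odd`), so `S ^ j` can be evaluated. -/

set_option autoImplicit false
set_option linter.unusedSectionVars false

namespace Pool.Agent.P.MP_f43029_ag.CW

open Matrix

variable {A Ω : Type} [CommRing A] [Ring Ω] [Algebra A Ω] [SD Ω] [EvAlg A Ω]
  {ι κ : Type} [Fintype ι] [Fintype κ] [DecidableEq ι] [DecidableEq κ]

open scoped Kronecker

theorem ct_pow_SM {p : ι → Bool} {X : Matrix ι ι Ω} (h : X * SM Ω p = -(SM Ω p * X)) (j : ℕ) :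
    X ^ j * SM Ω p = (-1 : ℤ) ^ j • (SM Ω p * X ^ j) := by
  induction j with
  | zero => simp
  | succ j ih =>
    rw [pow_succ, mul_assoc, h, mul_neg, ← mul_assoc, ih, smul_mul_assoc, pow_succ (-1 : ℤ),
      mul_neg_one, neg_smul, mul_assoc]

theorem ck_odd {p : ι → Bool} {X : Matrix ι ι A} (hX : OddM p p X) {j : ℕ} (hj : Odd j) :
    ck Ω p X j = 0 := by
  refine SD.tf _ ?_
  have h := ct_pow_SM (SM_anti' (dM_odd (Ω := Ω) hX)) j
  rw [hj.neg_one_pow, neg_one_zsmul] at h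
  conv_lhs => rw [ck, ← trace_SM_comm, h, trace_neg]
  rfl

theorem tk_even {p : ι → Bool} {X : Matrix ι ι A} (hX : OddM p p X) {j : ℕ} (hj : Even j) :
    tk Ω p X j = 0 := by
  refine SD.tf _ ?_
  have h := ct_pow_SM (SM_anti' (dM_odd (Ω := Ω) hX)) j
  rw [hj.neg_one_pow, one_smul] at h
  conv_lhs => rw [tk, ← trace_SM_comm, mul_assoc, h, ← mul_assoc, SM_anti' (cM_odd hX), neg_mul,
    trace_neg, mul_assoc]
  rfl

theorem ct_kmul (X X' : Matrix ι ι Ω) (Y Y' : Matrix κ κ Ω)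
    (h : ∀ k l i j, Y k l * X' i j = X' i j * Y k l) :
    (X ⊗ₖ Y) * (X' ⊗ₖ Y') = (X * X') ⊗ₖ (Y * Y') := by
  ext ⟨i, k⟩ ⟨j, l⟩
  simp only [Matrix.mul_apply, kroneckerMap_apply, Fintype.sum_prod_type, Finset.sum_mul_sum]
  refine Finset.sum_congr rfl fun i' _ => Finset.sum_congr rfl fun k' _ => ?_
  rw [mul_assoc, ← mul_assoc (Y k k'), h, mul_assoc, mul_assoc]

theorem ct_kmul_anti (X X' : Matrix ι ι Ω) (Y Y' : Matrix κ κ Ω)
    (h : ∀ k l i j, Y k l * X' i j = -(X' i j * Y k l)) :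
    (X ⊗ₖ Y) * (X' ⊗ₖ Y') = (-(X * X')) ⊗ₖ (Y * Y') := by
  ext ⟨i, k⟩ ⟨j, l⟩
  simp only [Matrix.mul_apply, kroneckerMap_apply, Fintype.sum_prod_type, Matrix.neg_apply,
    neg_mul, Finset.sum_mul_sum, ← Finset.sum_neg_distrib]
  refine Finset.sum_congr rfl fun i' _ => Finset.sum_congr rfl fun k' _ => ?_
  rw [mul_assoc, ← mul_assoc (Y k k'), h, neg_mul, mul_neg, mul_assoc, mul_assoc]

theorem ct_one_comm (k l : κ) (w : Ω) : (1 : Matrix κ κ Ω) k l * w = w * (1 : Matrix κ κ Ω) k l := by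
  rw [Matrix.one_apply]
  split_ifs <;> simp

theorem ct_SM_comm (q : κ → Bool) (k l : κ) (w : Ω) : SM Ω q k l * w = w * SM Ω q k l := by
  rw [SM, Matrix.diagonal_apply]
  split_ifs
  · exact Int.cast_comm _ _
  · simp

theorem ct_SM_pow (p : ι → Bool) (j : ℕ) : SM Ω p ^ j = if Even j then 1 else SM Ω p := by
  induction j with
  | zero => simp
  | succ j ih =>
    rw [pow_succ, ih]
    by_cases h : Even j
    · simp [h, Nat.even_add_one]
    · simp [h, Nat.even_add_one, SM_sq]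

theorem ct_SM_tpar (p : ι → Bool) (q : κ → Bool) :
    SM Ω (tpar p q) = SM Ω p ⊗ₖ SM Ω q := by
  rw [SM, SM, SM, diagonal_kronecker_diagonal]
  congr 1
  funext x
  cases hp : p x.1 <;> cases hq : q x.2 <;> simp [tpar, sg, hp, hq]

theorem ct_cM_kron (X : Matrix ι ι A) (Y : Matrix κ κ A) :
    cM Ω (X ⊗ₖ Y) = cM Ω X ⊗ₖ cM Ω Y := by
  ext ⟨i, k⟩ ⟨j, l⟩
  simp [cM]

theorem ct_dM_kron (X : Matrix ι ι A) (Y : Matrix κ κ A) :
    dM Ω (X ⊗ₖ Y) = dM Ω X ⊗ₖ cM Ω Y + cM Ω X ⊗ₖ dM Ω Y := by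
  ext ⟨i, k⟩ ⟨j, l⟩
  simp only [dM, cM, Matrix.map_apply, kroneckerMap_apply, Matrix.add_apply, d0_mul]
  rw [Algebra.smul_def, Algebra.smul_def, Algebra.commutes]

theorem ct_cM_tens (p : ι → Bool) (X : Matrix ι ι A) (Y : Matrix κ κ A) :
    cM Ω (tens p X Y) = cM Ω X ⊗ₖ (1 : Matrix κ κ Ω) + SM Ω p ⊗ₖ cM Ω Y := by
  rw [tens, cM_add, ct_cM_kron, ct_cM_kron, cM_one, cM_SM]

theorem ct_dM_tens (p : ι → Bool) (X : Matrix ι ι A) (Y : Matrix κ κ A) :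
    dM Ω (tens p X Y) = dM Ω X ⊗ₖ (1 : Matrix κ κ Ω) + SM Ω p ⊗ₖ dM Ω Y := by
  rw [tens, dM_add, ct_dM_kron, ct_dM_kron, cM_one, cM_SM, dM_one, dM_SM, kronecker_zero,
    zero_kronecker, add_zero, zero_add]

theorem ct_left_pow (X : Matrix ι ι Ω) (i : ℕ) :
    (X ⊗ₖ (1 : Matrix κ κ Ω)) ^ i = (X ^ i) ⊗ₖ (1 : Matrix κ κ Ω) := by
  induction i with
  | zero => simp
  | succ i ih =>
    rw [pow_succ, ih, ct_kmul _ _ 1 _ fun k l _ _ => ct_one_comm k l _, ← pow_succ, mul_one]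

theorem ct_right_pow (p : ι → Bool) (Y : Matrix κ κ Ω) (j : ℕ) :
    (SM Ω p ⊗ₖ Y) ^ j = (SM Ω p ^ j) ⊗ₖ (Y ^ j) := by
  induction j with
  | zero => simp
  | succ j ih =>
    rw [pow_succ, ih, ct_kmul _ (SM Ω p) _ _ fun _ _ i j => (ct_SM_comm p i j _).symm, ← pow_succ,
      ← pow_succ]

theorem ct_pow_tens {p : ι → Bool} {X : Matrix ι ι A} (hX : OddM p p X) (Y : Matrix κ κ A)
    (m : ℕ) : dM Ω (tens p X Y) ^ m = ∑ ij ∈ Finset.HasAntidiagonal.antidiagonal m,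
      m.choose ij.1 • ((dM Ω X ^ ij.1 * SM Ω p ^ ij.2) ⊗ₖ (dM Ω Y ^ ij.2)) := by
  have hc : Commute (dM Ω X ⊗ₖ (1 : Matrix κ κ Ω)) (SM Ω p ⊗ₖ dM Ω Y) := by
    rw [Commute, SemiconjBy, ct_kmul _ _ 1 _ fun k l _ _ => ct_one_comm k l _,
      ct_kmul_anti _ (dM Ω X) (dM Ω Y) _ fun k l i j => (dM_od Y k l).anti (dM_od X i j).1,
      SM_anti' (dM_odd hX), one_mul, mul_one]
  rw [ct_dM_tens, hc.add_pow']
  refine Finset.sum_congr rfl fun ij _ => ?_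
  rw [ct_left_pow, ct_right_pow, ct_kmul _ _ 1 _ fun k l _ _ => ct_one_comm k l _, one_mul]

theorem ct_trace (p : ι → Bool) (q : κ → Bool) (U : Matrix ι ι Ω) (V : Matrix κ κ Ω) :
    trace (SM Ω (tpar p q) * (U ⊗ₖ V)) = trace (SM Ω p * U) * trace (SM Ω q * V) := by
  rw [ct_SM_tpar, ct_kmul _ _ (SM Ω q) _ fun k l _ _ => ct_SM_comm q k l _, trace_kronecker]

theorem ck_tens {p : ι → Bool} {q : κ → Bool} {X : Matrix ι ι A} {Y : Matrix κ κ A}
    (hX : OddM p p X) (hY : OddM q q Y) (m : ℕ) :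
    ck Ω (tpar p q) (tens p X Y) m =
      ∑ ij ∈ Finset.HasAntidiagonal.antidiagonal m, m.choose ij.1 • (ck Ω p X ij.1 * ck Ω q Y ij.2) := by
  rw [ck, ct_pow_tens hX, Finset.mul_sum, trace_sum]
  refine Finset.sum_congr rfl fun ij _ => ?_
  rw [mul_smul_comm, trace_smul, ct_trace, ct_SM_pow]
  congr 1
  change _ * ck Ω q Y ij.2 = _
  by_cases h : Even ij.2
  · rw [if_pos h, mul_one]
    rfl
  · rw [ck_odd hY (Nat.not_even_iff_odd.mp h), mul_zero, mul_zero]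

theorem tk_tens {p : ι → Bool} {q : κ → Bool} {X : Matrix ι ι A} {Y : Matrix κ κ A}
    (hX : OddM p p X) (hY : OddM q q Y) (m : ℕ) :
    tk Ω (tpar p q) (tens p X Y) m =
      ∑ ij ∈ Finset.HasAntidiagonal.antidiagonal m, m.choose ij.1 •
        (tk Ω p X ij.1 * ck Ω q Y ij.2 + ck Ω p X ij.1 * tk Ω q Y ij.2) := by
  rw [tk, ct_pow_tens hX, Finset.mul_sum, Finset.mul_sum, trace_sum]
  refine Finset.sum_congr rfl fun ij _ => ?_
  rw [mul_smul_comm, mul_smul_comm, trace_smul, ct_cM_tens, add_mul,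
    ct_kmul _ _ 1 _ fun k l _ _ => ct_one_comm k l _,
    ct_kmul _ _ (cM Ω Y) _ fun k l _ _ => Algebra.commutes _ _, mul_add, trace_add, ct_trace,
    ct_trace, ct_SM_pow, one_mul]
  congr 1
  change _ * ck Ω q Y ij.2 + _ * tk Ω q Y ij.2 = _
  by_cases h : Even ij.2
  · rw [if_pos h, mul_one, tk_even hY h, mul_zero, mul_zero, tk]
  · rw [if_neg h, ck_odd hY (Nat.not_even_iff_odd.mp h), mul_zero, mul_zero,
      ← mul_assoc (SM Ω p) (SM Ω p), SM_sq, one_mul, trace_SM_comm, ck]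

end Pool.Agent.P.MP_f43029_ag.CW
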