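import Pool.Agent.P.MP_f43029_ag.XL.CWu
import Pool.Agent.P.MP_f43029_ag.XL.CWt
import Pool.Agent.P.MP_f43029_ag.XL.CWg

/-! Local computations for the end game. -/

set_option autoImplicit false
set_option linter.unusedSectionVars false

noncomputable section

namespace Pool.Agent.P.MP_f43029_ag.CW

open Matrix XL Kronecker

section Alg

variable {A A' : Type} [CommRing A] [CommRing A'] {ι κ : Type} [Fintype ι] [Fintype κ]
  [DecidableEq ι] [DecidableEq κ]

theorem tens_map' (g : A →+* A') (p : ι → Bool) (X : Matrix ι ι A) (Y : Matrix κ κ A) :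
    (tens p X Y).map g = tens p (X.map g) (Y.map g) := by
  ext ⟨i, k⟩ ⟨j, l⟩
  simp only [tens, Matrix.map_apply, Matrix.add_apply, kroneckerMap_apply, SM, Matrix.one_apply,
    diagonal_apply, map_add, map_mul]
  split_ifs <;> simp

theorem tens_add' (p : ι → Bool) (X X' : Matrix ι ι A) (Y Y' : Matrix κ κ A) :
    tens p (X + X') (Y + Y') = tens p X Y + tens p X' Y' := by
  rw [tens, tens, tens, add_kronecker, kronecker_add]
  abel

theorem trace_SM_of_contr {p : ι → Bool} {D h : Matrix ι ι A} (ho : OddM p p D)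
    (hh : D * h + h * D = 1) : trace (SM A p) = 0 := by
  have : trace (SM A p * (D * h + h * D)) = 0 := by
    rw [mul_add, trace_add, ← mul_assoc _ h, trace_mul_comm _ D, ← mul_assoc D, SM_anti' ho,
      neg_mul, trace_neg, mul_assoc, add_neg_cancel]
  rwa [hh, mul_one] at this

theorem trace_SM_map {α β : Type} [Ring α] [Ring β] (f : α →+* β) {p : ι → Bool}
    (h : trace (SM α p) = 0) : trace (SM β p) = 0 := by
  rw [← SM_map f, ← map_trace', h, map_zero]

theorem one_map' (g : A →+* A') : (1 : Matrix ι ι A).map g = 1 :=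
  Matrix.map_one _ (map_zero _) (map_one _)

theorem add_map' (g : A →+* A') (X Y : Matrix ι κ A) : (X + Y).map g = X.map g + Y.map g :=
  Matrix.map_add _ (map_add _) _ _

theorem sq_map (g : A →+* A') {D : Matrix ι ι A} {γ : A} (h : D * D = γ • (1 : Matrix ι ι A)) :
    D.map g * D.map g = g γ • (1 : Matrix ι ι A') := by
  rw [← Matrix.map_mul, h, smul_map, one_map']

theorem Contr.map' (g : A →+* A') {p : ι → Bool} {D H : Matrix ι ι A} (h : Contr p D H) :
    Contr p (D.map g) (H.map g) :=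
  ⟨h.odd.map' g, by rw [← Matrix.map_mul, h.sq, Matrix.map_zero _ (map_zero _)], by
    rw [← Matrix.map_mul, ← Matrix.map_mul, ← add_map', h.hom, one_map']⟩

theorem BU_map (g : A →+* A') (p : ι → Bool) (D : Matrix ι ι A) (γ' : A) :
    (BU p D γ').map g = BU p (D.map g) (g γ') := by
  rw [BU, BU, add_map', smul_map, Matrix.map_mul, Matrix.map_mul, PP_map, PP_map]

theorem BU_eq (p : ι → Bool) (D : Matrix ι ι A) (γ' : A) : BU p D γ' = D * uu p 1 γ' := by
  rw [BU, uu, mul_add, one_smul, Matrix.mul_smul]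

theorem BU_odd {p : ι → Bool} {D : Matrix ι ι A} (ho : OddM p p D) (γ' : A) :
    OddM p p (BU p D γ') := by
  rw [BU_eq]
  exact ho.mul_even (uu_even p _ _)

theorem BU_sq {p : ι → Bool} {D : Matrix ι ι A} {γ γ' : A} (ho : OddM p p D)
    (h : D * D = γ • (1 : Matrix ι ι A)) (hγ : γ * γ' = 1) : BU p D γ' * BU p D γ' = 1 := by
  rw [BU_eq]
  conv_lhs => arg 2; rw [uu_odd ho]
  rw [mul_assoc, ← mul_assoc (uu p _ _), uu_mul, one_mul, mul_one, uu_same, Matrix.smul_mul,
    one_mul, Matrix.mul_smul, h, smul_smul, mul_comm, hγ, one_smul]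

theorem BU_transpose {p : ι → Bool} {D : Matrix ι ι A} (ho : OddM p p D) (γ' : A) :
    BU (fun i => !p i) Dᵀ γ' = (BU p D γ')ᵀ := by
  rw [BU, BU, PP_not, PP_not, PP_odd ho false, PP_odd ho true, transpose_add, transpose_smul,
    transpose_mul, transpose_mul, PP_transpose, PP_transpose]

theorem BU_conj {p : ι → Bool} {D D' Z Z' : Matrix ι ι A} (hZ : EvenM p p Z) (h : Z * Z' = 1)
    (hD : Z * D' = D * Z) (γ' : A) : BU p D γ' = Z * BU p D' γ' * Z' := by
  have e : Z * BU p D' γ' = BU p D γ' * Z := by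
    rw [BU, BU, mul_add, add_mul, Matrix.mul_smul, Matrix.smul_mul, ← mul_assoc, ← mul_assoc, hD,
      mul_assoc, mul_assoc, mul_assoc, mul_assoc, PP_comm hZ, PP_comm hZ]
  rw [e, mul_assoc, h, mul_one]

/-- The involution attached to a square-zero contraction. -/
def BT (D Z : Matrix ι ι A) (γ : A) : Matrix ι ι A := D + (1 - γ) • Z

theorem BT_map (g : A →+* A') (D Z : Matrix ι ι A) (γ : A) :
    (BT D Z γ).map g = BT (D.map g) (Z.map g) (g γ) := by
  rw [BT, BT, add_map', smul_map, map_sub, map_one]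

theorem BT_odd {p : ι → Bool} {D Z : Matrix ι ι A} (ho : OddM p p D) (hZ : Contr p D Z) (γ : A) :
    OddM p p (BT D Z γ) := ho.add' (hZ.odd.smul' _)

theorem BT_sq {p : ι → Bool} {D Z : Matrix ι ι A} {γ : A} (h : D * D = γ • (1 : Matrix ι ι A))
    (hZ : Contr p D Z) : BT D Z γ * BT D Z γ = 1 := by
  rw [BT, mul_add, add_mul, add_mul, Matrix.mul_smul, Matrix.mul_smul, Matrix.smul_mul,
    Matrix.smul_mul, hZ.sq, h, smul_zero, smul_zero, add_zero, add_assoc, ← smul_add,
    add_comm (Z * D), hZ.hom, ← add_smul]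
  simp

/-- The two idempotents comparing `BU` and `BT`. -/
def eb (p : ι → Bool) (D Z : Matrix ι ι A) : Bool → Matrix ι ι A
  | false => D * Z * PP A p false
  | true => Z * D * PP A p true

theorem eb_map (g : A →+* A') (p : ι → Bool) (D Z : Matrix ι ι A) (b : Bool) :
    (eb p D Z b).map g = eb p (D.map g) (Z.map g) b := by
  cases b <;> simp only [eb, Matrix.map_mul, PP_map]

theorem eb_even {p : ι → Bool} {D Z : Matrix ι ι A} (ho : OddM p p D) (hZ : Contr p D Z)
    (b : Bool) : EvenM p p (eb p D Z b) := by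
  cases b
  · exact (ho.mul_odd hZ.odd).mul_even (PP_even p _)
  · exact (hZ.odd.mul_odd ho).mul_even (PP_even p _)

theorem eb_idem {p : ι → Bool} {D Z : Matrix ι ι A} (ho : OddM p p D) (hZ : Contr p D Z)
    (b : Bool) : eb p D Z b * eb p D Z b = eb p D Z b := by
  have e := Contr.hdh hZ
  cases b
  · rw [eb, mul_assoc, ← mul_assoc (PP A p false), ← PP_comm (ho.mul_odd hZ.odd), mul_assoc _ (PP A p false),
      PP_mul, if_pos rfl, ← mul_assoc, mul_assoc D, ← mul_assoc Z, e]
  · rw [eb, mul_assoc, ← mul_assoc (PP A p true), ← PP_comm (hZ.odd.mul_odd ho), mul_assoc _ (PP A p true),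
      PP_mul, if_pos rfl, ← mul_assoc, ← mul_assoc, e]

theorem idem_inv {e : Matrix ι ι A} (he : e * e = e) {z z' : A} (hz : z * z' = 1) :
    (1 + (z - 1) • e) * (1 + (z' - 1) • e) = 1 := by
  rw [mul_add, add_mul, add_mul, Matrix.mul_smul, Matrix.mul_smul, Matrix.smul_mul,
    Matrix.smul_mul, he, mul_one, one_mul, mul_one, smul_smul, add_assoc, ← add_smul, ← add_smul]
  rw [show z - 1 + (z' - 1 + (z' - 1) * (z - 1)) = 0 by linear_combination hz, zero_smul, add_zero]

theorem idem_comm {p : ι → Bool} {e : Matrix ι ι A} (he : EvenM p p e) (z : A) :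
    (1 + z • e) * SM A p = SM A p * (1 + z • e) := by
  rw [add_mul, mul_add, Matrix.smul_mul, Matrix.mul_smul, comm_SM_of_even he, one_mul, mul_one]

theorem BU_eq_BT {p : ι → Bool} {D Z : Matrix ι ι A} {γ γ' : A} (ho : OddM p p D)
    (h : D * D = γ • (1 : Matrix ι ι A)) (hγ : γ * γ' = 1) (hZ : Contr p D Z) :
    BU p D γ' = BT D Z γ * (1 + (γ - 1) • eb p D Z false) * (1 + (γ' - 1) • eb p D Z true) := by
  have e0 : eb p D Z false * eb p D Z true = 0 := by
    rw [eb, eb, mul_assoc, ← mul_assoc (PP A p false), ← PP_comm (hZ.odd.mul_odd ho), mul_assoc _ (PP A p false), PP_mul]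
    simp
  have e1 : BT D Z γ * BU p D γ' =
      (1 + (γ - 1) • eb p D Z false) * (1 + (γ' - 1) • eb p D Z true) := by
    have k : Z * D = 1 - D * Z := eq_sub_of_add_eq' hZ.hom
    have k2 : (γ * γ') • PP A p true = PP A p true := by rw [hγ, one_smul]
    have k3 : ((1 - γ) * γ') • (Z * D * PP A p true) = (γ' - 1) • (Z * D * PP A p true) := by
      rw [sub_mul, hγ, one_mul]
    have r : (1 + (γ - 1) • eb p D Z false) * (1 + (γ' - 1) • eb p D Z true) =
        1 + (γ - 1) • eb p D Z false + (γ' - 1) • eb p D Z true := by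
      simp only [mul_add, add_mul, Matrix.mul_smul, Matrix.smul_mul, e0, mul_one, one_mul,
        smul_zero, add_zero]
    have k4 : Z * D * PP A p false = PP A p false - D * Z * PP A p false := by
      rw [k, sub_mul, one_mul]
    rw [r, BT, BU, eb, eb]
    simp only [mul_add, add_mul, Matrix.mul_smul, Matrix.smul_mul, ← mul_assoc, h, one_mul,
      smul_add, smul_smul]
    rw [mul_comm γ' γ, k2, mul_comm γ', k3, k4, ← PP_add p]
    module
  rw [mul_assoc, ← e1, ← mul_assoc, BT_sq h hZ, one_mul]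

/-- The first factor of the deformation. -/
def AE (p : ι → Bool) (D X : Matrix ι ι A) (τ x : A) : Matrix ι ι A :=
  D * PP A p false + ((1 - x * (1 - τ)) * (1 - x)) • (D * PP A p true) + (1 + τ * x) • X

/-- The second factor of the deformation. -/
def AF (F Y : Matrix κ κ A) (δ τ x : A) : Matrix κ κ A :=
  (1 - x * (1 - τ)) • F + (1 + x * δ) • Y

theorem AE_map (g : A →+* A') (p : ι → Bool) (D X : Matrix ι ι A) (τ x : A) :
    (AE p D X τ x).map g = AE p (D.map g) (X.map g) (g τ) (g x) := by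
  simp only [AE, add_map', smul_map, Matrix.map_mul, PP_map, map_mul, map_sub, map_add, map_one]

theorem AF_map (g : A →+* A') (F Y : Matrix κ κ A) (δ τ x : A) :
    (AF F Y δ τ x).map g = AF (F.map g) (Y.map g) (g δ) (g τ) (g x) := by
  simp only [AF, add_map', smul_map, map_mul, map_sub, map_add, map_one]

theorem AE_zero (p : ι → Bool) (D X : Matrix ι ι A) (τ : A) : AE p D X τ 0 = D + X := by
  simp [AE, ← mul_add, PP_add]

theorem AF_zero (F Y : Matrix κ κ A) (δ τ : A) : AF F Y δ τ 0 = F + Y := by simp [AF]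

theorem AE_one (p : ι → Bool) (D X : Matrix ι ι A) (τ : A) :
    AE p D X τ 1 = D * PP A p false + (1 + τ) • X := by simp [AE]

theorem AF_one (F Y : Matrix κ κ A) (δ τ : A) : AF F Y δ τ 1 = τ • F + (1 + δ) • Y := by
  simp [AF]

/-- The relations satisfied by the glued homotopies. -/
structure Rel (p : ι → Bool) (q : κ → Bool) (D X : Matrix ι ι A) (F Y : Matrix κ κ A) (δ τ : A) :
    Prop where
  oD : OddM p p D
  oX : OddM p p X
  oF : OddM q q F
  oY : OddM q q Y
  DD : D * D = δ • (1 : Matrix ι ι A)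
  FF : F * F = (-δ) • (1 : Matrix κ κ A)
  XP : X * PP A p true = X
  DX : D * X + X * D = (1 - τ) • (1 : Matrix ι ι A)
  YY : Y * Y = 0
  FY : F * Y + Y * F = τ • (1 : Matrix κ κ A)

variable {p : ι → Bool} {q : κ → Bool} {D X : Matrix ι ι A} {F Y : Matrix κ κ A} {δ τ : A}

theorem Rel.PX (h : Rel p q D X F Y δ τ) : PP A p true * X = 0 := by
  have : PP A p true * X = X * PP A p false := (PP_odd h.oX false).symm
  rw [this, ← h.XP, mul_assoc, PP_mul]
  simp

theorem Rel.XX (h : Rel p q D X F Y δ τ) : X * X = 0 := by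
  conv_lhs => arg 1; rw [← h.XP]
  rw [mul_assoc, h.PX, mul_zero]

theorem Rel.odd (h : Rel p q D X F Y δ τ) (x : A) :
    OddM p p (AE p D X τ x) ∧ OddM q q (AF F Y δ τ x) :=
  ⟨((h.oD.mul_even (PP_even p _)).add' ((h.oD.mul_even (PP_even p _)).smul' _)).add'
    (h.oX.smul' _), (h.oF.smul' _).add' (h.oY.smul' _)⟩

theorem Rel.sq (h : Rel p q D X F Y δ τ) (x : A) :
    tens p (AE p D X τ x) (AF F Y δ τ x) * tens p (AE p D X τ x) (AF F Y δ τ x) = 1 := by
  have pp : ∀ b c, D * PP A p b * (D * PP A p c) = δ • (PP A p (!b) * PP A p c) := fun b c => by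
    rw [PP_odd h.oD b, mul_assoc, ← mul_assoc D, h.DD, Matrix.smul_mul, one_mul, Matrix.mul_smul]
  have e1 : D * PP A p true * X = 0 := by rw [mul_assoc, h.PX, mul_zero]
  have e2 : X * (D * PP A p true) = 0 := by
    rw [PP_odd h.oD, ← h.XP, mul_assoc, ← mul_assoc (PP A p true), PP_mul]
    simp
  have k : D * PP A p false = D - D * PP A p true := by
    rw [eq_sub_iff_add_eq, ← mul_add, PP_add, mul_one]
  have e3 : X * (D * PP A p false) = (1 - τ) • (1 : Matrix ι ι A) - D * PP A p false * X := by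
    rw [k, mul_sub, sub_mul, e1, e2, sub_zero, sub_zero, ← h.DX, add_sub_cancel_left]
  have k1 : PP A p true = 1 - PP A p false := eq_sub_of_add_eq' (PP_add p)
  have hE : AE p D X τ x * AE p D X τ x =
      ((1 - x * (1 - τ)) * (1 - x) * δ + (1 + τ * x) * (1 - τ)) • (1 : Matrix ι ι A) := by
    simp only [AE, mul_add, add_mul, Matrix.mul_smul, Matrix.smul_mul, pp, PP_mul, e1, e2, e3,
      h.XX]
    simp only [Bool.not_false, Bool.not_true, Bool.true_eq_false, Bool.false_eq_true, if_true,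
      if_false, k1]
    module
  have hF : AF F Y δ τ x * AF F Y δ τ x =
      (-(1 - x * (1 - τ)) ^ 2 * δ + (1 - x * (1 - τ)) * (1 + x * δ) * τ) • (1 : Matrix κ κ A) := by
    simp only [AF, mul_add, add_mul, Matrix.mul_smul, Matrix.smul_mul, h.FF, h.YY,
      eq_sub_of_add_eq h.FY]
    module
  rw [tens_sq (h.odd x).1 hE hF]
  convert one_smul A (1 : Matrix (ι × κ) (ι × κ) A)
  ring

theorem Rel.contr (h : Rel p q D X F Y δ τ) : Contr (tpar p q) (tens p D F) (tens p X Y) := by
  have e1 : tens p D F * tens p D F = 0 := by rw [tens_sq h.oD h.DD h.FF]; simp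
  have e2 : tens p X Y * tens p X Y = 0 := by
    rw [tens_sq (f := 0) (g := 0) h.oX (by rw [h.XX, zero_smul]) (by rw [h.YY, zero_smul])]
    simp
  have e3 := h.sq 0
  rw [AE_zero, AF_zero, tens_add', mul_add, add_mul, add_mul, e1, e2, zero_add, add_zero,
    add_comm] at e3
  exact ⟨tens_odd h.oX h.oY, e2, e3⟩

end Alg

end Pool.Agent.P.MP_f43029_ag.CW
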