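import Pool.Agent.P.MP_f43029_ag.XL.CWl

/-! Local computations with forms for the end game. -/

set_option autoImplicit false
set_option linter.unusedSectionVars false

noncomputable section

namespace Pool.Agent.P.MP_f43029_ag.CW

open Matrix XL

variable {A Ω : Type} [CommRing A] [Ring Ω] [Algebra A Ω] [SD Ω] [EvAlg A Ω]
  {ι κ : Type} [Fintype ι] [Fintype κ] [DecidableEq ι] [DecidableEq κ]

theorem inv_tk_odd (p : ι → Bool) (X : Matrix ι ι A) (m : ℕ) :
    inv (tk Ω p X (2 * m + 1)) = -tk Ω p X (2 * m + 1) := by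
  rw [tk, map_trace', Matrix.map_mul, Matrix.map_mul, SM_map, cM_inv, (dM_od X).inv_pow,
    Odd.neg_one_pow ⟨m, rfl⟩, neg_one_zsmul, mul_neg, mul_neg, trace_neg]

theorem Od.anti' {a b : Ω} (ha : Od a) (hb : inv b = -b) : b * a = -(a * b) := by
  rw [ha.anti hb, neg_neg]

theorem ck_zero {p : ι → Bool} (h : trace (SM A p) = 0) (X : Matrix ι ι A) : ck Ω p X 0 = 0 := by
  rw [ck, pow_zero, mul_one]
  exact trace_SM_map (algebraMap A Ω) h

/-- The coefficient in the formula for `1 + (z - 1) e`. -/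
def cz (m : ℕ) (z z' : A) : A := ((2 * m + 1 : ℕ) : A) * z' * ((z - 1) ^ 2 * z') ^ m

theorem cz_map {A' : Type} [CommRing A'] (g : A →+* A') (m : ℕ) (z z' : A) :
    g (cz m z z') = cz m (g z) (g z') := by
  simp only [cz, map_mul, map_pow, map_sub, map_one, map_natCast]

theorem cz_mem {S : Subring A} (m : ℕ) {z z' : A} (hz : z ∈ S) (hz' : z' ∈ S) : cz m z z' ∈ S :=
  S.mul_mem (S.mul_mem (natCast_mem S _) hz')
    (S.pow_mem (S.mul_mem (S.pow_mem (S.sub_mem hz S.one_mem) _) hz') _)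

theorem om_BU_BT (H : Hx A Ω) {p : ι → Bool} {D Z : Matrix ι ι A} {γ γ' : A} (ho : OddM p p D)
    (h : D * D = γ • (1 : Matrix ι ι A)) (hγ : γ * γ' = 1) (hZ : Contr p D Z) (m : ℕ) :
    Coh (om p (th Ω (BU p D γ') (BU p D γ')) m) (om p (th Ω (BT D Z γ) (BT D Z γ)) m +
      (cz m γ γ' • d0 Ω γ) * tk Ω p (eb p D Z false) (2 * m) +
      (cz m γ' γ • d0 Ω γ') * tk Ω p (eb p D Z true) (2 * m)) := by
  have hγ' : γ' * γ = 1 := by rw [mul_comm, hγ]
  have i0 := idem_inv (eb_idem ho hZ false) hγ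
  have i1 := idem_inv (eb_idem ho hZ true) hγ'
  have s0 := idem_comm (eb_even ho hZ false) (γ - 1)
  have s1 := idem_comm (eb_even ho hZ true) (γ' - 1)
  have hT := BT_sq h hZ
  have m0 := mc_of_odd (Ω := Ω) (BT_odd ho hZ γ) hT
  have m1 := mc_gauge hT m0 s0 i0
  have j0 : BT D Z γ * (1 + (γ - 1) • eb p D Z false) *
      ((1 + (γ' - 1) • eb p D Z false) * BT D Z γ) = 1 := by
    rw [mul_assoc, ← mul_assoc _ _ (BT D Z γ), i0, one_mul, hT]
  have c1 := om_gauge H j0 m1 s1 i1 m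
  have c0 := om_gauge H hT m0 s0 i0 m
  rw [om_idem (eb_idem ho hZ false) (comm_SM_of_even (eb_even ho hZ false)) hγ] at c0
  rw [om_idem (eb_idem ho hZ true) (comm_SM_of_even (eb_even ho hZ true)) hγ',
    ← BU_eq_BT ho h hγ hZ] at c1
  have e : (1 + (γ - 1) • eb p D Z true) * ((1 + (γ' - 1) • eb p D Z false) * BT D Z γ) =
      BU p D γ' := by
    refine left_inv_eq_right_inv (a := BU p D γ') (mul_eq_one_comm.1 ?_) (BU_sq ho h hγ)
    rw [BU_eq_BT ho h hγ hZ, mul_assoc, ← mul_assoc _ (1 + (γ - 1) • eb p D Z true), i1, one_mul,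
      j0]
  rw [e] at c1
  exact c1.trans (c0.add (Coh.refl _))

/-- The coefficient of `dτ` in the terms of the tensor product formula. -/
def Pc (τ : A) (i j : ℕ) : A :=
  if i = 0 ∨ j = 0 then 0 else
    if Even j then -(((j - 1) / 2 + 1 : ℕ) * (-(τ * τ)) ^ ((j - 1) / 2) * (2 * τ) *
      (1 * (1 - τ * τ) * (-(1 * (1 - τ * τ))) ^ ((i - 1) / 2)))
    else ((i - 1) / 2 + 1 : ℕ) * (-(1 * (1 - τ * τ))) ^ ((i - 1) / 2) * (-(2 * τ)) *
      (τ * τ * (-(τ * τ)) ^ ((j - 1) / 2))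

theorem Pc_mem (τ : A) (i j : ℕ) : Pc τ i j ∈ Subring.closure {τ} := by
  have h : τ ∈ Subring.closure {τ} := Subring.subset_closure rfl
  have h2 : (2 : A) ∈ Subring.closure {τ} := ofNat_mem _ 2
  have h1 := (Subring.closure {τ}).one_mem
  unfold Pc
  split_ifs
  · exact zero_mem _
  all_goals
    repeat' first
      | assumption
      | exact natCast_mem _ _
      | apply neg_mem
      | apply mul_mem
      | apply pow_mem
      | apply sub_mem

theorem term_eq {p : ι → Bool} {q : κ → Bool} {B : Matrix ι ι A} {B' : Matrix κ κ A}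
    (ho : OddM p p B) (hB : B * B = 1) (ho' : OddM q q B') (hB' : B' * B' = 1)
    (hp : trace (SM A p) = 0) (hq : trace (SM A q) = 0) (τ : A) {i j : ℕ} (hij : Odd (i + j)) :
    tk Ω p (B * uu p 1 (1 - τ * τ)) i * ck Ω q (B' * uu q τ τ) j +
      ck Ω p (B * uu p 1 (1 - τ * τ)) i * tk Ω q (B' * uu q τ τ) j =
      d0 Ω τ * (Pc τ i j • (om p (th Ω B B) ((i - 1) / 2) * om q (th Ω B' B') ((j - 1) / 2))) := by
  have oE := ho.mul_even (uu_even p 1 (1 - τ * τ))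
  have oF := ho'.mul_even (uu_even q τ τ)
  have w := od_d0 (Ω := Ω) τ
  have d1 : d0 Ω (τ * τ) = (2 * τ) • d0 Ω τ := by rw [d0_mul, ← add_smul, two_mul]
  have d2 : d0 Ω (1 - τ * τ) = (-(2 * τ)) • d0 Ω τ := by
    rw [d0_sub, d0_one, d1, zero_sub, neg_smul]
  have s1 : d0 Ω (1 : A) * d0 Ω (1 - τ * τ) = 0 := by rw [d0_one, zero_mul]
  rcases Nat.even_or_odd j with hj | hj
  · have hi : Odd i := (Nat.odd_add.1 hij).2 hj
    rw [ck_odd oE hi, zero_mul, add_zero]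
    obtain ⟨a, rfl⟩ := hi
    obtain ⟨b, rfl⟩ := hj
    cases b with
    | zero => simp [Pc, ck_zero hq]
    | succ b =>
      have e1 : (2 * a + 1 - 1) / 2 = a := by omega
      have e2 : (b + 1 + (b + 1) - 1) / 2 = b := by omega
      have k := tk_scaled ho hB 1 (1 - τ * τ) s1 w (by rw [d0_one, mul_zero])
        (by rw [d2, mul_smul_comm, w.sq, smul_zero]) a
      rw [Pc, if_neg (by omega), if_pos ⟨_, rfl⟩, e1, e2, ← two_mul, ck_scaled ho' hB' τ τ w.sq,
        d1, smul_mul_assoc, mul_smul_comm, mul_smul_comm, ← mul_assoc,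
        w.anti' (inv_tk_odd _ _ a), k, neg_mul, smul_mul_assoc, mul_smul_comm, mul_assoc (d0 Ω τ),
        smul_neg, smul_neg, smul_smul, smul_smul, neg_smul]
  · have hi : Even i := (Nat.odd_add'.1 hij).1 hj
    have hj' := hj
    rw [ck_odd oF hj, mul_zero, zero_add]
    obtain ⟨b, rfl⟩ := hj
    obtain ⟨a, rfl⟩ := hi
    cases a with
    | zero => simp [Pc, ck_zero hp]
    | succ a =>
      have e1 : (2 * b + 1 - 1) / 2 = b := by omega
      have e2 : (a + 1 + (a + 1) - 1) / 2 = a := by omega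
      have k := tk_scaled ho' hB' τ τ w.sq w w.sq w.sq b
      have o := inv_om (p := p) (th_od (Ω := Ω) B B) a
      have k2 : d0 Ω τ * om p (th Ω B B) a * tk Ω q (B' * uu q τ τ) (2 * b + 1) =
          (τ * τ * (-(τ * τ)) ^ b) • (d0 Ω τ * (om p (th Ω B B) a * om q (th Ω B' B') b)) := by
        rw [w.anti o, neg_mul, mul_assoc, k, mul_smul_comm, ← mul_assoc, w.anti' o, neg_mul,
          smul_neg, neg_neg, mul_assoc (d0 Ω τ)]
      rw [Pc, if_neg (by omega), if_neg (Nat.not_even_iff_odd.2 hj'), e1, e2, ← two_mul,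
        ck_scaled ho hB _ _ s1, one_mul, d2, smul_mul_assoc, smul_mul_assoc, smul_mul_assoc, k2,
        mul_smul_comm, smul_smul, smul_smul]

theorem tk_tens_zero {p : ι → Bool} {q : κ → Bool} {X : Matrix ι ι A} (ho : OddM p p X)
    (hq : trace (SM A q) = 0) (m : ℕ) : tk Ω (tpar p q) (tens p X (0 : Matrix κ κ A)) m = 0 := by
  rw [tk_tens ho (show OddM q q (0 : Matrix κ κ A) from fun _ _ _ => rfl)]
  refine Finset.sum_eq_zero fun ij _ => ?_
  have e1 : ck Ω q (0 : Matrix κ κ A) ij.2 = 0 := by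
    cases ij.2 with
    | zero => exact ck_zero hq _
    | succ j => simp [ck, dM_zero]
  have e2 : tk Ω q (0 : Matrix κ κ A) ij.2 = 0 := by simp [tk, cM_zero]
  rw [e1, e2, mul_zero, mul_zero, add_zero, smul_zero]

theorem tk_tens_one {p : ι → Bool} {q : κ → Bool} {X : Matrix ι ι A} {B : Matrix κ κ A}
    (ho : OddM p p X) (ho' : OddM q q B) (hB : B * B = 1) (hp : trace (SM A p) = 0)
    (hq : trace (SM A q) = 0) (m : ℕ) : tk Ω (tpar p q) (tens p (X * PP A p false) B) m = 0 := by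
  have oX := ho.mul_even (PP_even p false)
  rw [tk_tens oX ho']
  refine Finset.sum_eq_zero fun ij _ => ?_
  have e1 : ∀ j, ck Ω q B j = 0 := fun j => by
    rcases Nat.even_or_odd j with ⟨j, rfl⟩ | hj
    · cases j with
      | zero => exact ck_zero hq _
      | succ j =>
        have := ck_scaled (Ω := Ω) ho' hB 1 1 (by rw [d0_one, zero_mul]) j
        rwa [uu_same, one_smul, mul_one, mul_one, d0_one, zero_mul, smul_zero, two_mul] at this
    · exact ck_odd ho' hj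
  have e2 : ∀ i, ck Ω p (X * PP A p false) i = 0 := fun i => by
    have k : dM Ω (X * PP A p false) = dM Ω X * PP Ω p false := by
      rw [dM_mul, dM_PP, mul_zero, add_zero, cM, PP_map]
    have k2 : dM Ω (X * PP A p false) * dM Ω (X * PP A p false) = 0 := by
      rw [k]
      conv_lhs => arg 2; rw [PP_odd (dM_odd ho)]
      rw [mul_assoc, ← mul_assoc (PP Ω p false), PP_mul]
      simp
    match i with
    | 0 => exact ck_zero hp _
    | 1 => exact ck_odd oX odd_one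
    | i + 2 => rw [ck, pow_add, pow_two, k2, mul_zero, mul_zero, trace_zero]
  rw [e1, e2, mul_zero, zero_mul, add_zero, smul_zero]

theorem Rel.coh (H : Hx A Ω) {p : ι → Bool} {q : κ → Bool} {D X : Matrix ι ι A}
    {F Y : Matrix κ κ A} {δ τ : A} (h : Rel p q D X F Y δ τ) (m : ℕ) :
    Coh (tk Ω (tpar p q) (tens p D F + tens p X Y) (2 * m + 1))
      (tk Ω (tpar p q) (tens p (AE p D X τ 1) (AF F Y δ τ 1)) (2 * m + 1)) := by
  have cl : ∀ x, d (tk Ω (tpar p q) (tens p (AE p D X τ x) (AF F Y δ τ x)) (2 * m + 1)) = 0 :=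
    fun x => tk_closed (tens_odd (h.odd x).1 (h.odd x).2) (h.sq x) m
  rw [← tens_add', ← AE_zero p D X τ, ← AF_zero F Y δ τ]
  refine H.htpy (cl 0) (cl 1) (cl H.x) ?_ ?_ <;>
  · rw [(H.isMap _).tk, (H.isMap _).tk, tens_map', tens_map', AE_map, AE_map, AF_map, AF_map,
      H.g_x]
    simp

/-- Forms `u dv` with `u`, `v` in a subring. -/
def Lg (S : Subring A) (ξ : Ω) : Prop := ∃ u ∈ S, ∃ v ∈ S, ξ = u • d0 Ω v

theorem d0_closure {γ γ' : A} (h : γ * γ' = 1) {u : A} (hu : u ∈ Subring.closure {γ, γ'}) :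
    ∃ b : A, d0 Ω u = b • d0 Ω γ := by
  induction hu using Subring.closure_induction with
  | mem x hx =>
    rcases hx with rfl | rfl
    · exact ⟨1, (one_smul _ _).symm⟩
    · have e := d0_mul (Ω := Ω) γ x
      rw [h, d0_one] at e
      refine ⟨-(x * x), ?_⟩
      have e2 := congrArg (x • ·) e
      simp only [smul_zero, smul_add, smul_smul] at e2
      rw [mul_comm x γ, h, one_smul] at e2
      rw [neg_smul]
      exact eq_neg_of_add_eq_zero_right e2.symm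
  | zero => exact ⟨0, by rw [d0_zero, zero_smul]⟩
  | one => exact ⟨0, by rw [d0_one, zero_smul]⟩
  | add x y _ _ hx hy =>
    obtain ⟨b, hb⟩ := hx
    obtain ⟨c, hc⟩ := hy
    exact ⟨b + c, by rw [d0_add, hb, hc, add_smul]⟩
  | neg x _ hx =>
    obtain ⟨b, hb⟩ := hx
    exact ⟨-b, by rw [d0_neg, hb, neg_smul]⟩
  | mul x y _ _ hx hy =>
    obtain ⟨b, hb⟩ := hx
    obtain ⟨c, hc⟩ := hy
    exact ⟨y * b + x * c, by rw [d0_mul, hb, hc, add_smul, smul_smul, smul_smul]⟩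

theorem Lg.od {S : Subring A} {ξ : Ω} (h : Lg S ξ) : Od ξ := by
  obtain ⟨u, -, v, -, rfl⟩ := h
  exact (od_d0 v).smul u

theorem d0_mul_d0 {γ γ' : A} (h : γ * γ' = 1) {u v : A} (hu : u ∈ Subring.closure {γ, γ'})
    (hv : v ∈ Subring.closure {γ, γ'}) : d0 Ω u * d0 Ω v = 0 := by
  obtain ⟨b, hb⟩ := d0_closure (Ω := Ω) h hu
  obtain ⟨c, hc⟩ := d0_closure (Ω := Ω) h hv
  rw [hb, hc, smul_mul_smul_comm, (od_d0 γ).sq, smul_zero]

theorem Lg.closed {γ γ' : A} (h : γ * γ' = 1) {ξ : Ω} (hξ : Lg (Subring.closure {γ, γ'}) ξ) :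
    d ξ = 0 := by
  obtain ⟨u, hu, v, hv, rfl⟩ := hξ
  rw [d_smul, d0_mul_d0 h hu hv, d_d0, smul_zero, add_zero]

theorem Lg.mul {γ γ' : A} (h : γ * γ' = 1) {ξ ξ' : Ω} (hξ : Lg (Subring.closure {γ, γ'}) ξ)
    (hξ' : Lg (Subring.closure {γ, γ'}) ξ') : ξ * ξ' = 0 := by
  obtain ⟨u, -, v, hv, rfl⟩ := hξ
  obtain ⟨u', -, v', hv', rfl⟩ := hξ'
  rw [smul_mul_smul_comm, d0_mul_d0 h hv hv', smul_zero]

/-- A filtration by degree. -/
structure Flt (A Ω : Type) [CommRing A] [Ring Ω] [Algebra A Ω] [SD Ω] where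
  Fd : ℕ → AddSubgroup Ω
  Fd_zero : ∀ ω, ω ∈ Fd 0
  Fd_mul : ∀ r s x y, x ∈ Fd r → y ∈ Fd s → x * y ∈ Fd (r + s)
  Fd_d : ∀ a : A, d0 Ω a ∈ Fd 1
  Fd_anti : ∀ r s, r ≤ s → Fd s ≤ Fd r

theorem Flt.om_mem (Φ : Flt A Ω) (p : ι → Bool) (X' X : Matrix ι ι A) (m : ℕ) :
    om p (th Ω X' X) m ∈ Φ.Fd (2 * m + 1) := by
  have mul : ∀ {r s : ℕ} {U V : Matrix ι ι Ω}, MemM (Φ.Fd r) U → MemM (Φ.Fd s) V →
      MemM (Φ.Fd (r + s)) (U * V) := fun hU hV i j => by
    rw [Matrix.mul_apply]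
    exact sum_mem fun k _ => Φ.Fd_mul _ _ _ _ (hU i k) (hV k j)
  have z : ∀ U : Matrix ι ι Ω, MemM (Φ.Fd 0) U := fun U i j => Φ.Fd_zero _
  have h1 : MemM (Φ.Fd (0 + 1)) (th Ω X' X) := mul (z _) fun i j => Φ.Fd_d _
  have h2 : ∀ k, MemM (Φ.Fd k) (th Ω X' X ^ k) := fun k => by
    induction k with
    | zero => exact z _
    | succ k ih =>
      rw [pow_succ]
      exact mul ih h1
  have h3 := mul (z (SM Ω p)) (h2 (2 * m + 1))
  rw [zero_add] at h3
  exact sum_mem fun i _ => h3 i i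

theorem Flt.lg_mem (Φ : Flt A Ω) {S : Subring A} {ξ : Ω} (h : Lg S ξ) : ξ ∈ Φ.Fd 1 := by
  obtain ⟨u, -, v, -, rfl⟩ := h
  rw [Algebra.smul_def]
  exact Φ.Fd_mul 0 1 _ _ (Φ.Fd_zero _) (Φ.Fd_d _)

end Pool.Agent.P.MP_f43029_ag.CW
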