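import Pool.Agent.P.MP_f43029_ag.XL.CWb

/-! The characteristic forms of an involution scaled by `s` on the even part and `t` on the odd
part. -/

set_option autoImplicit false
set_option linter.unusedSectionVars false

noncomputable section

namespace Pool.Agent.P.MP_f43029_ag.CW

open Matrix XL

variable {A Ω : Type} [CommRing A] [Ring Ω] [Algebra A Ω] [SD Ω] [EvAlg A Ω]
  {ι κ : Type} [Fintype ι] [Fintype κ] [DecidableEq ι] [DecidableEq κ]

theorem sc_anti {ω : Ω} (h : Od ω) {X : Matrix ι ι Ω} (hX : X.map inv = -X) :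
    scalar ι ω * X = -(X * scalar ι ω) := by
  ext i j
  simp only [scalar_apply, diagonal_mul, mul_diagonal, Matrix.neg_apply]
  exact h.anti (congrFun (congrFun hX i) j)

theorem sc_comm {ω : Ω} (h : Od ω) {X : Matrix ι ι Ω} (hX : X.map inv = X) :
    scalar ι ω * X = X * scalar ι ω := by
  ext i j
  simp only [scalar_apply, diagonal_mul, mul_diagonal]
  exact h.comm (congrFun (congrFun hX i) j)

theorem trace_sc (p : ι → Bool) (ω : Ω) (X : Matrix ι ι Ω) :
    trace (SM Ω p * (scalar ι ω * X)) = ω * trace (SM Ω p * X) := by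
  simp only [trace, Matrix.diag, SM, scalar_apply, diagonal_mul, Finset.mul_sum]
  exact Finset.sum_congr rfl fun i _ => by rw [← mul_assoc, Int.cast_comm, mul_assoc]

theorem sc_smul (a : A) (ω : Ω) : scalar ι (a • ω) = a • scalar ι ω := by
  ext i j
  simp only [scalar_apply, diagonal_apply, Matrix.smul_apply]
  split_ifs <;> simp

theorem dM_smul' (a : A) (X : Matrix ι ι A) :
    dM Ω (a • X) = scalar ι (d0 Ω a) * cM Ω X + a • dM Ω X := by
  rw [dM_smul]
  congr 1
  ext i j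
  simp [scalar_apply, diagonal_mul]

theorem dM_PP (p : ι → Bool) (b : Bool) : dM Ω (PP A p b) = 0 := by
  ext i j
  simp only [dM, PP, Matrix.map_apply, diagonal_apply, Matrix.zero_apply]
  split_ifs
  · exact d0_one
  · exact d0_zero
  · exact d0_zero

theorem cM_even {p : ι → Bool} {q : κ → Bool} {X : Matrix ι κ A} (h : EvenM p q X) :
    EvenM p q (cM Ω X) := h.map' _

/-- `s` on the even part and `t` on the odd part. -/
def uu (p : ι → Bool) (s t : A) : Matrix ι ι A := s • PP A p false + t • PP A p true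

theorem uu_odd {p : ι → Bool} {B : Matrix ι ι A} (ho : OddM p p B) (s t : A) :
    B * uu p s t = uu p t s * B := by
  rw [uu, uu, mul_add, add_mul, Matrix.mul_smul, Matrix.mul_smul, Matrix.smul_mul,
    Matrix.smul_mul, PP_odd ho, PP_odd ho, add_comm]
  rfl

theorem uu_mul (p : ι → Bool) (s t s' t' : A) : uu p s t * uu p s' t' = uu p (s * s') (t * t') := by
  simp [uu, mul_add, add_mul, PP_mul, smul_smul, mul_comm]

theorem uu_same (p : ι → Bool) (s : A) : uu p s s = s • (1 : Matrix ι ι A) := by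
  rw [uu, ← smul_add, PP_add]

theorem uu_even (p : ι → Bool) (s t : A) : EvenM p p (uu p s t) := fun i j e => by
  simp [uu, PP_even p _ i j e]

theorem cM_uu (p : ι → Bool) (s t : A) :
    cM Ω (uu p s t) = s • PP Ω p false + t • PP Ω p true := by
  rw [uu, cM_add, cM_smul, cM_smul, cM, cM, PP_map, PP_map]

theorem dM_uu (p : ι → Bool) (s t : A) :
    dM Ω (uu p s t) = scalar ι (d0 Ω s) * PP Ω p false + scalar ι (d0 Ω t) * PP Ω p true := by
  rw [uu, dM_add, dM_smul', dM_smul', dM_PP, dM_PP, cM, cM, PP_map, PP_map]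
  simp

theorem pow_nil {M : Type} [Ring M] {a b : M} (hc : a * b = b * a) (hb : b * b = 0) (k : ℕ) :
    (a + b) ^ (k + 1) = a ^ (k + 1) + (k + 1) • (a ^ k * b) := by
  induction k with
  | zero => simp
  | succ k ih =>
    rw [pow_succ, ih, add_mul, mul_add, mul_add, smul_mul_assoc, smul_mul_assoc, mul_assoc, ← hc,
      mul_assoc, hb, mul_zero, smul_zero, add_zero, ← mul_assoc, ← pow_succ, ← pow_succ,
      succ_nsmul _ (k + 1)]
    abel

section Scaled

variable {p : ι → Bool} {B : Matrix ι ι A} (ho : OddM p p B) (hB : B * B = 1) (s t : A)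
include ho hB

theorem th_even : EvenM p p (th Ω B B) := (cM_odd ho).mul_odd (dM_odd ho)

theorem th_uu : th Ω B B * cM Ω (uu p s t) = cM Ω (uu p s t) * th Ω B B := by
  rw [cM_uu, mul_add, add_mul, Matrix.mul_smul, Matrix.mul_smul, Matrix.smul_mul,
    Matrix.smul_mul, PP_comm (th_even ho hB), PP_comm (th_even ho hB)]

theorem th_duu : th Ω B B * dM Ω (uu p s t) = -(dM Ω (uu p s t) * th Ω B B) := by
  have e : ∀ (a : A) (b : Bool), th Ω B B * (scalar ι (d0 Ω a) * PP Ω p b) =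
      -(scalar ι (d0 Ω a) * PP Ω p b * th Ω B B) := fun a b => by
    rw [mul_assoc, ← PP_comm (th_even ho hB), ← mul_assoc, ← mul_assoc,
      sc_anti (od_d0 a) (th_od B B).map_inv, neg_mul, neg_neg]
  rw [dM_uu, mul_add, add_mul, e, e, neg_add]

theorem dM_scaled :
    dM Ω (B * uu p s t) = cM Ω B * (th Ω B B * cM Ω (uu p s t) + dM Ω (uu p s t)) := by
  rw [dM_mul, mul_add, th, ← mul_assoc, ← mul_assoc, ← cM_mul, hB, cM_one, one_mul]

theorem cM_dM_scaled : cM Ω (B * uu p s t) * dM Ω (B * uu p s t) =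
    (s * t) • th Ω B B + cM Ω (uu p t s) * dM Ω (uu p s t) := by
  rw [dM_scaled ho hB, ← mul_assoc, ← cM_mul, uu_odd ho, mul_assoc _ B, hB, mul_one, mul_add,
    th_uu ho hB, ← mul_assoc, ← cM_mul, uu_mul, mul_comm t s, uu_same, cM_smul, cM_one,
    Matrix.smul_mul, one_mul]

theorem dM_scaled_sq (hst : d0 Ω s * d0 Ω t = 0) :
    dM Ω (B * uu p s t) * dM Ω (B * uu p s t) =
      (-(s * t)) • (th Ω B B * th Ω B B) + scalar ι (d0 Ω (s * t)) * th Ω B B := by
  have hts : d0 Ω t * d0 Ω s = 0 := by rw [(od_d0 t).anti (inv_d0 s), hst, neg_zero]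
  have bb : cM Ω B * cM Ω B = 1 := by rw [← cM_mul, hB, cM_one]
  have e1 : cM Ω B * th Ω B B = -(th Ω B B * cM Ω B) := by
    rw [th, mul_assoc, anti_of_sq hB, mul_neg, neg_neg]
  have e2 : cM Ω B * cM Ω (uu p s t) = cM Ω (uu p t s) * cM Ω B := by
    rw [← cM_mul, uu_odd ho, cM_mul]
  have e3 : cM Ω B * dM Ω (uu p s t) = dM Ω (uu p t s) * cM Ω B := by
    rw [dM_uu, dM_uu, mul_add, add_mul, ← mul_assoc, ← mul_assoc,
      ← sc_comm (od_d0 s) (cM_inv B), ← sc_comm (od_d0 t) (cM_inv B), mul_assoc, mul_assoc,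
      PP_odd (cM_odd ho), PP_odd (cM_odd ho), add_comm, mul_assoc, mul_assoc]
    rfl
  have e4 : cM Ω B * (th Ω B B * cM Ω (uu p s t) + dM Ω (uu p s t)) =
      (-(th Ω B B * cM Ω (uu p t s)) + dM Ω (uu p t s)) * cM Ω B := by
    rw [mul_add, ← mul_assoc, e1, e3, neg_mul, mul_assoc, e2, add_mul, neg_mul, mul_assoc]
  have e5 : dM Ω (uu p t s) * dM Ω (uu p s t) = 0 := by
    have k : ∀ (a : A) (b : Bool), PP Ω p b * scalar ι (d0 Ω a) = scalar ι (d0 Ω a) * PP Ω p b :=
      fun a b => (sc_comm (od_d0 a) (PP_map _ p b)).symm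
    have k2 : ∀ (a a' : A) (b b' : Bool), scalar ι (d0 Ω a) * PP Ω p b *
        (scalar ι (d0 Ω a') * PP Ω p b') = scalar ι (d0 Ω a * d0 Ω a') * (PP Ω p b * PP Ω p b') :=
      fun a a' b b' => by rw [map_mul, mul_assoc, ← mul_assoc (PP Ω p b), k, mul_assoc, mul_assoc]
    rw [dM_uu, dM_uu, mul_add, add_mul, add_mul, k2, k2, k2, k2, hst, hts]
    simp [PP_mul]
  have e6 : dM Ω (uu p t s) * cM Ω (uu p s t) + cM Ω (uu p t s) * dM Ω (uu p s t) =
      scalar ι (d0 Ω (s * t)) := by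
    rw [← dM_mul, uu_mul, mul_comm t s, uu_same, dM_smul', dM_one, cM_one, smul_zero, add_zero,
      mul_one]
  have e7 : cM Ω (uu p t s) * cM Ω (uu p s t) = (s * t) • (1 : Matrix ι ι Ω) := by
    rw [← cM_mul, uu_mul, mul_comm t s, uu_same, cM_smul, cM_one]
  have e8 : dM Ω (uu p t s) * th Ω B B = -(th Ω B B * dM Ω (uu p t s)) := by
    rw [th_duu ho hB, neg_neg]
  rw [sc_anti (od_d0 _) (th_od B B).map_inv, ← e6, dM_scaled ho hB]
  conv_lhs => arg 1; rw [e4]
  rw [mul_assoc, ← mul_assoc (cM Ω B), bb, one_mul, add_mul, mul_add, mul_add, e5,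
    ← mul_assoc (dM Ω _), e8, neg_mul, neg_mul, neg_mul, mul_assoc (th Ω B B),
    ← mul_assoc (cM Ω (uu p t s)), ← th_uu ho hB, mul_assoc (th Ω B B), e7]
  simp only [mul_add, mul_assoc, Matrix.mul_smul, mul_one, neg_smul]
  abel

theorem dM_scaled_pow (hst : d0 Ω s * d0 Ω t = 0) (k : ℕ) :
    dM Ω (B * uu p s t) ^ (2 * (k + 1)) = (-(s * t)) ^ (k + 1) • th Ω B B ^ (2 * k + 2) +
      ((k + 1 : ℕ) * (-(s * t)) ^ k : A) • (scalar ι (d0 Ω (s * t)) * th Ω B B ^ (2 * k + 1)) := by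
  have a1 := sc_anti (od_d0 (Ω := Ω) (s * t)) (th_od (Ω := Ω) B B).map_inv
  have a2 : scalar ι (d0 Ω (s * t)) * (th Ω B B * th Ω B B) =
      th Ω B B * th Ω B B * scalar ι (d0 Ω (s * t)) := by
    rw [← mul_assoc, a1, neg_mul, mul_assoc, a1, mul_neg, neg_neg, mul_assoc]
  have a3 : ∀ j : ℕ, (th Ω B B * th Ω B B) ^ j * scalar ι (d0 Ω (s * t)) =
      scalar ι (d0 Ω (s * t)) * (th Ω B B * th Ω B B) ^ j := fun j =>
    ((Commute.pow_right a2 j).symm : _)
  rw [pow_mul, pow_two, dM_scaled_sq ho hB s t hst, pow_nil]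
  · rw [smul_pow, smul_pow, Matrix.smul_mul, ← mul_assoc, a3, ← pow_two, ← pow_mul, ← pow_mul,
      mul_assoc, ← pow_succ, ← Nat.cast_smul_eq_nsmul A, smul_smul]
    rfl
  · rw [Matrix.smul_mul, Matrix.mul_smul, ← mul_assoc, ← a2]
    simp only [mul_assoc]
  · rw [mul_assoc, ← mul_assoc (th Ω B B), eq_neg_iff_add_eq_zero.2 (by rw [a1]; simp :
      th Ω B B * scalar ι (d0 Ω (s * t)) + scalar ι (d0 Ω (s * t)) * th Ω B B = 0), neg_mul,
      mul_neg, ← mul_assoc, ← mul_assoc, ← map_mul, (od_d0 _).sq]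
    simp

theorem ck_scaled (hst : d0 Ω s * d0 Ω t = 0) (k : ℕ) :
    ck Ω p (B * uu p s t) (2 * (k + 1)) =
      ((k + 1 : ℕ) * (-(s * t)) ^ k : A) • (d0 Ω (s * t) * om p (th Ω B B) k) := by
  rw [ck, dM_scaled_pow ho hB s t hst, mul_add, trace_add, Matrix.mul_smul, Matrix.mul_smul,
    trace_smul, trace_smul, trace_even_pow (th_od B B) (mc_of_odd ho hB).cs, smul_zero, zero_add,
    trace_sc, om]

theorem tk_scaled (hst : d0 Ω s * d0 Ω t = 0) {ω : Ω} (hω : Od ω) (hs : ω * d0 Ω s = 0)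
    (ht : ω * d0 Ω t = 0) (k : ℕ) : ω * tk Ω p (B * uu p s t) (2 * k + 1) =
      (s * t * (-(s * t)) ^ k) • (ω * om p (th Ω B B) k) := by
  have a1 := sc_anti hω (th_od (Ω := Ω) B B).map_inv
  have a2 : scalar ι ω * dM Ω (uu p s t) = 0 := by
    rw [dM_uu, mul_add, ← mul_assoc, ← mul_assoc, ← map_mul, ← map_mul, hs, ht]
    simp
  have a3 : scalar ι ω * scalar ι (d0 Ω (s * t)) = 0 := by
    rw [← map_mul, d0_mul, mul_add, mul_smul_comm, mul_smul_comm, hs, ht]
    simp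
  have a4 : scalar ι ω * (cM Ω (B * uu p s t) * dM Ω (B * uu p s t)) =
      (s * t) • (scalar ι ω * th Ω B B) := by
    rw [cM_dM_scaled ho hB, mul_add, ← mul_assoc, sc_comm hω (cM_inv _), mul_assoc, a2, mul_zero,
      add_zero, Matrix.mul_smul]
  rw [tk, om, ← trace_sc, ← trace_sc, ← trace_smul, ← Matrix.mul_smul]
  congr 2
  rw [pow_succ', ← mul_assoc (cM Ω _), ← mul_assoc, a4]
  cases k with
  | zero => simp
  | succ k =>
    rw [dM_scaled_pow ho hB s t hst, mul_add, Matrix.mul_smul, Matrix.mul_smul, Matrix.smul_mul,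
      Matrix.smul_mul, a1, neg_mul _ (scalar ι (d0 Ω (s * t)) * _), mul_assoc (th Ω B B),
      ← mul_assoc (scalar ι ω), a3, ← a1, smul_smul, mul_assoc, ← pow_succ', mul_comm (s * t)]
    simp [mul_add]

end Scaled

end Pool.Agent.P.MP_f43029_ag.CW
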