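import Pool.Agent.P.MP_f43029_ag.XL.AApi

/-!
Exact lifts: points, contexts, lifts and the index.
-/

set_option autoImplicit false

noncomputable section

namespace Pool.Agent.P.MP_f43029_ag.XL

open Matrix Filter

section Defs

variable {n : ℕ} {K F : Type} [Field K] [Field F] [CharZero K] [CharZero F] [Algebra K F]

/-- Subrings of `F` that contain the coordinate ring of the polydisc. -/
abbrev Amb.Cel (𝔸 : Amb n K F) : Type := {B : Subring F // 𝔸.cell ∅ ≤ B}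

/-- The coordinate ring of the polydisc. -/
def Amb.c0 (𝔸 : Amb n K F) : 𝔸.Cel := ⟨𝔸.cell ∅, le_rfl⟩

/-- The inclusion of localized cells. -/
def Amb.incl (𝔸 : Amb n K F) {B B' : 𝔸.Cel} (h : B ≤ B') : 𝔸.loc B.1 →+* 𝔸.loc B'.1 :=
  Subring.inclusion (Amb.loc_mono h)

/-- The untilted points over every cell. -/
structure PSys (𝔸 : Amb n K F) (R : Type) [CommRing R] (q : ℕ) where
  KK : 𝔸.Cel → Type
  [inst : ∀ B, CommRing (KK B)]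
  P : ∀ B, PairD (KK B) (𝔸.loc B.1) q
  P_π : ∀ B, (P B).π = 𝔸.πL B.1 ((Amb.VF_le_cell ∅).trans B.2)
  P_Bp : ∀ B, (P B).Bp = 𝔸.Bplus B.1
  mp : ∀ {B B'}, B ≤ B' → KK B →+* KK B'
  mp_mp : ∀ {B B' B''} (h : B ≤ B') (h' : B' ≤ B'') (y : KK B),
    mp h' (mp h y) = mp (h.trans h') y
  mp_ϖ : ∀ {B B'} (h : B ≤ B'), mp h (P B).ϖ = (P B').ϖ
  mp_S : ∀ {B B'} (h : B ≤ B'), ∀ y ∈ (P B).S, mp h y ∈ (P B').S
  mp_Γ : ∀ {B B'} (h : B ≤ B'), ∀ z ∈ (P B).Γ, (mp h z.1, 𝔸.incl h z.2) ∈ (P B').Γ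
  ι : R →+* KK 𝔸.c0
  ι_S : ∀ a, ι a ∈ (P 𝔸.c0).S

attribute [instance] PSys.inst

variable {𝔸 : Amb n K F} {R : Type} [CommRing R] {q : ℕ}

/-- The morphism of pairs for an inclusion of cells. -/
def PSys.hom (𝒬 : PSys 𝔸 R q) {B B' : 𝔸.Cel} (h : B ≤ B') : (𝒬.P B).Hom (𝒬.P B') where
  φ := 𝒬.mp h
  ψ := 𝔸.incl h
  φϖ := 𝒬.mp_ϖ h
  ψπ := by rw [𝒬.P_π, 𝒬.P_π]; rfl
  mapS := 𝒬.mp_S h
  mapΓ := 𝒬.mp_Γ h

/-- Restriction of families from all points to the points over a cell. -/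
def PSys.r (𝒬 : PSys 𝔸 R q) (B : 𝔸.Cel) : 𝒬.KK 𝔸.c0 →+* 𝒬.KK B := 𝒬.mp B.2

/-- A monotone system over the polydisc. -/
structure Amb.Sys.Nice {J : Type} (𝔅 : 𝔸.Sys J) : Prop where
  base : ∀ σ, 𝔸.cell ∅ ≤ 𝔅.B σ
  mono : 𝔅.Mono

variable {J : Type} {𝔅 : 𝔸.Sys J}

/-- The cell of a face. -/
def Amb.Sys.Nice.cel (h : 𝔅.Nice) (σ : Face J) : 𝔸.Cel := ⟨𝔅.B σ, h.base σ⟩

theorem Amb.Sys.Nice.le_star (h : 𝔅.Nice) (σ σ' : Face J) : 𝔅.B σ ≤ (𝔅.on (St σ)).B σ' := by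
  change 𝔅.B σ ≤ @ite _ (σ' ∈ St σ) (Classical.propDecidable _) (𝔅.B σ') ⊤
  split_ifs with h'
  · exact h.mono σ σ' h'
  · exact le_top

/-- Constants on the star of a face. -/
def Amb.Sys.Nice.cst (h : 𝔅.Nice) (σ : Face J) : 𝔸.loc (𝔅.B σ) →+* (𝔅.on (St σ)).A :=
  (𝔅.on (St σ)).cF (𝔅.B σ) (h.le_star σ)

/-- Global constants. -/
def Amb.Sys.Nice.c (h : 𝔅.Nice) : 𝔸.loc (𝔸.cell ∅) →+* 𝔅.A := 𝔅.cF _ h.base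

/-- Restriction to the star of a face. -/
def Amb.Sys.rs (𝔅 : 𝔸.Sys J) (σ : Face J) : 𝔅.A →+* (𝔅.on (St σ)).A :=
  Amb.Sys.mpA (𝔅.le_on _)

variable {ι : Type} [Fintype ι] [DecidableEq ι]

/-- `Dt` is an exact lift of the family `D`. -/
structure Lift (𝒬 : PSys 𝔸 R q) (h : 𝔅.Nice) (p : ι → Bool) (D : Matrix ι ι (𝒬.KK 𝔸.c0))
    (γ : 𝒬.KK 𝔸.c0) (γ₀ : 𝔸.loc (𝔸.cell ∅)) (Dt : Matrix ι ι 𝔅.A) (κ : ℕ) (μ am : ℤ) : Prop where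
  odd : OddM p p Dt
  sq : Dt * Dt = h.c γ₀ • (1 : Matrix ι ι 𝔅.A)
  loc : ∀ v : J → Bool, Nonempty (Loc (𝒬.P (h.cel (vf v))) (𝔅.on (St (vf v))).bdd (h.cst (vf v)) p
    (D.map (𝒬.r _)) (𝒬.r _ γ) (Dt.map (𝔅.rs (vf v))) (𝔅.rs (vf v) (h.c γ₀)) κ μ am)

/-- The potential has a known size at every vertex. -/
def Pot (𝒬 : PSys 𝔸 R q) (h : 𝔅.Nice) (C : ℕ) (γ : 𝒬.KK 𝔸.c0) (γ₀ : 𝔸.loc (𝔸.cell ∅)) : Prop :=
  ∀ v : J → Bool, ∃ e, (𝒬.P (h.cel (vf v))).Dec C (𝒬.r _ γ) (𝔸.incl (B := 𝔸.c0) (h.base _) γ₀) e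

end Defs

end Pool.Agent.P.MP_f43029_ag.XL
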