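import Pool.Agent.P.MP_f43029_ag.XL.Basic

/-!
Asymptotic rings: moderate sequences modulo negligible sequences for a ring with a filtration by a
degree bound and a level.
-/

set_option autoImplicit false

noncomputable section

namespace Pool.Agent.P.MP_f43029_ag.XL

open Filter

/-- The degree bound at place `m`. -/
def dgb (c m : ℕ) : ℕ := 2 ^ (c * (m + 1))

/-- The logarithmic loss. -/
def lg (D : ℕ) : ℤ := (Nat.log 2 D : ℤ) + 1

theorem lg_pos (D : ℕ) : 1 ≤ lg D := by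
  unfold lg
  omega

theorem lg_mono {D D' : ℕ} (h : D ≤ D') : lg D ≤ lg D' := by
  have := Nat.log_mono_right (b := 2) h
  unfold lg
  omega

theorem lg_dgb (c m : ℕ) : lg (dgb c m) = c * (m + 1) + 1 := by
  simp [lg, dgb, Nat.log_pow]

theorem dgb_mono {c c' : ℕ} (h : c ≤ c') (m : ℕ) : dgb c m ≤ dgb c' m :=
  Nat.pow_le_pow_right two_pos (Nat.mul_le_mul_right _ h)

theorem dgb_pos (c m : ℕ) : 1 ≤ dgb c m := Nat.one_le_two_pow

theorem dgb_mul (c c' m : ℕ) : dgb c m * dgb c' m = dgb (c + c') m := by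
  simp [dgb, ← pow_add, add_mul]

theorem le_dgb (k m : ℕ) : k + 1 ≤ dgb k m :=
  (Nat.lt_two_pow_self (n := k)).trans_le
    (Nat.pow_le_pow_right two_pos (Nat.le_mul_of_pos_right _ m.succ_pos))

theorem succ_le_dgb (m : ℕ) : m + 1 ≤ dgb 1 m := by
  simpa [dgb] using (Nat.lt_two_pow_self (n := m + 1)).le

theorem dgb_add (c k m : ℕ) : dgb c m + k ≤ dgb (c + k) m := by
  rw [← dgb_mul]
  have h1 := le_dgb k m
  have h2 := dgb_pos c m
  nlinarith

theorem dgb_add_dgb (c c' m : ℕ) : dgb c m + dgb c' m ≤ dgb (c + c' + 1) m := by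
  rw [← dgb_mul]
  have h1 := le_dgb 1 m
  have h2 := dgb_mono (Nat.le_add_right c c') m
  have h3 := dgb_mono (Nat.le_add_left c' c) m
  nlinarith

/-- For all levels (`true`) or for some level (`false`). -/
def Qf (τ : Bool) (P : ℤ → Prop) : Prop := if τ then ∀ K, P K else ∃ K, P K

theorem Qf.imp {τ : Bool} {P P' : ℤ → Prop} (k : ℤ) (h : ∀ K, P K → P' (K - k)) (hP : Qf τ P) :
    Qf τ P' := by
  cases τ
  · obtain ⟨K, hK⟩ := hP
    exact ⟨_, h K hK⟩
  · intro K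
    simpa using h (K + k) (hP _)

theorem Qf.and {τ : Bool} {P P' : ℤ → Prop} (h : ∀ K K', K' ≤ K → P K → P K')
    (h' : ∀ K K', K' ≤ K → P' K → P' K') (hP : Qf τ P) (hP' : Qf τ P') :
    Qf τ fun K => P K ∧ P' K := by
  cases τ
  · obtain ⟨K, hK⟩ := hP
    obtain ⟨K', hK'⟩ := hP'
    exact ⟨min K K', h _ _ (min_le_left _ _) hK, h' _ _ (min_le_right _ _) hK'⟩
  · exact fun K => ⟨hP K, hP' K⟩

theorem Qf.of_all {τ : Bool} {P : ℤ → Prop} (h : ∀ K, P K) : Qf τ P := by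
  cases τ
  · exact ⟨0, h 0⟩
  · exact h

/-- An abelian group filtered by a degree bound and a level. -/
structure AFil (G : Type) [AddCommGroup G] where
  B : ℕ → ℤ → AddSubgroup G
  mono : ∀ {D D' : ℕ} {a a' : ℤ}, D ≤ D' → a' ≤ a → B D a ≤ B D' a'

namespace AFil

variable {G G' G'' : Type} [AddCommGroup G] [AddCommGroup G'] [AddCommGroup G'']

/-- The sequence has degree bound `c` and level `K`. -/
def At (F : AFil G) (w : ℕ → G) (c : ℕ) (K : ℤ) : Prop :=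
  ∀ᶠ m in atTop, w m ∈ F.B (dgb c m) (K * (m + 1))

theorem At.mono {F : AFil G} {w : ℕ → G} {c c' : ℕ} {K K' : ℤ} (h : F.At w c K) (hc : c ≤ c')
    (hK : K' ≤ K) : F.At w c' K' :=
  Eventually.mono h fun m hm => F.mono (dgb_mono hc m)
    (mul_le_mul_of_nonneg_right hK (by positivity)) hm

/-- Moderate (`false`) and negligible (`true`) sequences. -/
def Seq (F : AFil G) (τ : Bool) : AddSubgroup (ℕ → G) where
  carrier := {w | ∃ c, Qf τ (F.At w c)}
  zero_mem' := ⟨0, Qf.of_all fun _ => Eventually.of_forall fun _ => zero_mem _⟩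
  add_mem' := fun {w w'} ⟨c, h⟩ ⟨c', h'⟩ => ⟨c + c',
    (Qf.and (fun _ _ hK h => h.mono le_rfl hK) (fun _ _ hK h => h.mono le_rfl hK) h h').imp 0
      fun K hK => by
        rw [sub_zero]
        filter_upwards [hK.1.mono (Nat.le_add_right c c') le_rfl,
          hK.2.mono (Nat.le_add_left c' c) le_rfl] with m h1 h2
        exact add_mem h1 h2⟩
  neg_mem' := fun {w} ⟨c, h⟩ => ⟨c, h.imp 0 fun K hK => by
    rw [sub_zero]
    exact Eventually.mono hK fun m hm => neg_mem hm⟩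

theorem mem_seq {F : AFil G} {τ : Bool} {w : ℕ → G} : w ∈ F.Seq τ ↔ ∃ c, Qf τ (F.At w c) :=
  Iff.rfl

theorem neg_le_mod (F : AFil G) (τ : Bool) : F.Seq true ≤ F.Seq τ := fun _ ⟨c, h⟩ =>
  ⟨c, Qf.of_all h⟩

theorem le_mod (F : AFil G) (τ : Bool) : F.Seq τ ≤ F.Seq false := by
  cases τ
  · exact le_rfl
  · exact F.neg_le_mod false

theorem Seq.congr {F : AFil G} {τ : Bool} {w w' : ℕ → G} (hw : w ∈ F.Seq τ)
    (h : ∀ᶠ m in atTop, w m = w' m) : w' ∈ F.Seq τ := by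
  obtain ⟨c, hc⟩ := hw
  refine ⟨c, hc.imp 0 fun K hK => ?_⟩
  rw [sub_zero]
  filter_upwards [hK, h] with m h1 h2
  exact h2 ▸ h1

theorem seq_of_eventually_zero (F : AFil G) (τ : Bool) {w : ℕ → G}
    (h : ∀ᶠ m in atTop, w m = 0) : w ∈ F.Seq τ :=
  Seq.congr (zero_mem _) (h.mono fun _ hm => hm.symm)

theorem exists_level {F : AFil G} {τ : Bool} {w : ℕ → G} (hw : w ∈ F.Seq τ) :
    ∃ (c : ℕ) (κ : ℕ → ℤ), (∀ᶠ m in atTop, w m ∈ F.B (dgb c m) (κ m * (m + 1))) ∧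
      Qf τ fun K => ∀ᶠ m in atTop, K ≤ κ m := by
  classical
  obtain ⟨c, hc⟩ := hw
  cases τ
  · obtain ⟨K, hK⟩ := hc
    exact ⟨c, fun _ => K, hK, K, Eventually.of_forall fun _ => le_rfl⟩
  · refine ⟨c, fun m => (Nat.findGreatest
      (fun K => w m ∈ F.B (dgb c m) ((K : ℤ) * (m + 1))) m : ℕ), ?_, fun K => ?_⟩
    · filter_upwards [hc ((0 : ℕ) : ℤ)] with m hm
      exact Nat.findGreatest_spec (P := fun K => w m ∈ F.B (dgb c m) ((K : ℤ) * (m + 1)))
        (Nat.zero_le m) hm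
    · filter_upwards [hc (K.toNat : ℤ), eventually_ge_atTop K.toNat] with m hm hm'
      have := Nat.le_findGreatest (P := fun K => w m ∈ F.B (dgb c m) ((K : ℤ) * (m + 1))) hm' hm
      omega

/-- Pointwise bounded choices give sequences of the same kind. -/
theorem Seq.choose {F : AFil G} {F' : AFil G'} {τ : Bool} {w : ℕ → G} (hw : w ∈ F.Seq τ)
    (R : ℕ → G' → Prop) (k : ℕ)
    (h : ∀ m D a, w m ∈ F.B D a → ∃ y, R m y ∧ y ∈ F'.B (D + k) (a - k * lg D)) :
    ∃ w' ∈ F'.Seq τ, ∀ᶠ m in atTop, R m (w' m) := by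
  classical
  obtain ⟨c, κ, h1, h2⟩ := exists_level hw
  have key : ∀ m, ∃ y, w m ∈ F.B (dgb c m) (κ m * (m + 1)) →
      R m y ∧ y ∈ F'.B (dgb c m + k) (κ m * (m + 1) - k * lg (dgb c m)) := fun m => by
    by_cases hm : w m ∈ F.B (dgb c m) (κ m * (m + 1))
    · obtain ⟨y, hy⟩ := h m _ _ hm
      exact ⟨y, fun _ => hy⟩
    · exact ⟨0, fun h => absurd h hm⟩
  choose y hy using key
  refine ⟨y, ⟨c + k, h2.imp (k * (c + 1)) fun K hK => ?_⟩, h1.mono fun m hm => (hy m hm).1⟩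
  filter_upwards [h1, hK] with m hm hK
  refine F'.mono (dgb_add c k m) ?_ (hy m hm).2
  rw [lg_dgb]
  have : (0 : ℤ) ≤ k * m := by positivity
  have : K * (m + 1) ≤ κ m * (m + 1) := mul_le_mul_of_nonneg_right hK (by positivity)
  nlinarith

theorem Seq.of_rel {F : AFil G} {F' : AFil G'} {τ : Bool} {w : ℕ → G} (hw : w ∈ F.Seq τ)
    {w' : ℕ → G'} (k : ℕ)
    (h : ∀ m D a, w m ∈ F.B D a → w' m ∈ F'.B (D + k) (a - k * lg D)) : w' ∈ F'.Seq τ := by
  obtain ⟨y, hy, h'⟩ := Seq.choose (F' := F') hw (fun m y => y = w' m) k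
    fun m D a hm => ⟨_, rfl, h m D a hm⟩
  exact Seq.congr hy h'

theorem Seq.of_rel0 {F : AFil G} {F' : AFil G'} {τ : Bool} {w : ℕ → G} (hw : w ∈ F.Seq τ)
    {w' : ℕ → G'} (h : ∀ m D a, w m ∈ F.B D a → w' m ∈ F'.B D a) : w' ∈ F'.Seq τ :=
  Seq.of_rel hw 0 fun m D a hm => by simpa using h m D a hm

/-- The product filtration. -/
def prod (F : AFil G) (F' : AFil G') : AFil (G × G') where
  B D a := (F.B D a).prod (F'.B D a)
  mono hD ha := fun _ hx => ⟨F.mono hD ha hx.1, F'.mono hD ha hx.2⟩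

theorem Seq.pair {F : AFil G} {F' : AFil G'} {τ : Bool} {w : ℕ → G} {w' : ℕ → G'}
    (hw : w ∈ F.Seq τ) (hw' : w' ∈ F'.Seq τ) : (fun m => (w m, w' m)) ∈ (F.prod F').Seq τ := by
  have h1 : (fun m => ((w m, 0) : G × G')) ∈ (F.prod F').Seq τ :=
    Seq.of_rel0 hw fun m D a hm => ⟨hm, zero_mem _⟩
  have h2 : (fun m => ((0, w' m) : G × G')) ∈ (F.prod F').Seq τ :=
    Seq.of_rel0 hw' fun m D a hm => ⟨zero_mem _, hm⟩
  convert add_mem h1 h2 using 1
  ext m <;> simp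

theorem Seq.of_rel₂ {F : AFil G} {F' : AFil G'} {F'' : AFil G''} {τ : Bool} {w : ℕ → G}
    {w' : ℕ → G'} (hw : w ∈ F.Seq τ) (hw' : w' ∈ F'.Seq τ) {w'' : ℕ → G''} (k : ℕ)
    (h : ∀ m D a, w m ∈ F.B D a → w' m ∈ F'.B D a → w'' m ∈ F''.B (D + k) (a - k * lg D)) :
    w'' ∈ F''.Seq τ :=
  Seq.of_rel (Seq.pair hw hw') k fun m D a hm => h m D a hm.1 hm.2

/-- A bounded map. -/
def Bd (F : AFil G) (F' : AFil G') (f : G → G') : Prop :=
  ∃ k : ℕ, ∀ D a x, x ∈ F.B D a → f x ∈ F'.B (D + k) (a - k * lg D)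

theorem Bd.of_strict {F : AFil G} {F' : AFil G'} {f : G → G'}
    (h : ∀ D a x, x ∈ F.B D a → f x ∈ F'.B D a) : F.Bd F' f :=
  ⟨0, fun D a x hx => by simpa using h D a x hx⟩

theorem Bd.of_shift {F : AFil G} {F' : AFil G'} {f : G → G'} (k l : ℕ)
    (h : ∀ D a x, x ∈ F.B D a → f x ∈ F'.B (D + k) (a - l)) : F.Bd F' f :=
  ⟨k + l, fun D a x hx => F'.mono (by omega) (by
    have := lg_pos D
    push_cast
    nlinarith [Int.natCast_nonneg k, Int.natCast_nonneg l]) (h D a x hx)⟩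

theorem Bd.seq {F : AFil G} {F' : AFil G'} {f : G → G'} (hf : F.Bd F' f) {τ : Bool} {w : ℕ → G}
    (hw : w ∈ F.Seq τ) : (fun m => f (w m)) ∈ F'.Seq τ := by
  obtain ⟨k, hk⟩ := hf
  exact Seq.of_rel hw k fun m D a hm => hk D a _ hm

theorem const_mem (F : AFil G) {x : G} {D : ℕ} {a : ℤ} (hx : x ∈ F.B D a) :
    (fun _ : ℕ => x) ∈ F.Seq false :=
  ⟨D, -|a|, Eventually.of_forall fun m => F.mono ((Nat.le_succ D).trans (le_dgb D m)) (by
    have := neg_abs_le a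
    have := abs_nonneg a
    nlinarith [Int.natCast_nonneg m]) hx⟩

end AFil

/-- A filtered `ℚ`-algebra. -/
structure Fil (P : Type) [Ring P] [Algebra ℚ P] extends AFil P where
  mul : ∀ {D D' : ℕ} {a a' : ℤ} {x y : P}, x ∈ B D a → y ∈ B D' a' → x * y ∈ B (D + D') (a + a')
  one : 1 ∈ B 0 0
  rat : ∀ r : ℚ, ∃ D a, algebraMap ℚ P r ∈ B D a

namespace Fil

variable {P P' P'' : Type} [Ring P] [Algebra ℚ P] [Ring P'] [Algebra ℚ P'] [Ring P'']
  [Algebra ℚ P'']

theorem seq_mul (F : Fil P) {τ τ' : Bool} {w w' : ℕ → P} (hw : w ∈ F.Seq τ) (hw' : w' ∈ F.Seq τ') :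
    w * w' ∈ F.Seq (τ || τ') := by
  obtain ⟨c, hc⟩ := hw
  obtain ⟨c', hc'⟩ := hw'
  have key : ∀ K K', F.At w c K → F.At w' c' K' → F.At (w * w') (c + c' + 1) (K + K') :=
    fun K K' h h' => by
      filter_upwards [h, h'] with m h1 h2
      exact F.mono (dgb_add_dgb c c' m) (by rw [add_mul]) (F.mul h1 h2)
  refine ⟨c + c' + 1, ?_⟩
  cases τ <;> cases τ'
  · obtain ⟨K, hK⟩ := hc
    obtain ⟨K', hK'⟩ := hc'
    exact ⟨_, key K K' hK hK'⟩
  · obtain ⟨K, hK⟩ := hc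
    intro K'
    simpa using key K (K' - K) hK (hc' _)
  · obtain ⟨K, hK⟩ := hc'
    intro K'
    simpa using key (K' - K) K (hc _) hK
  · intro K'
    simpa using key K' 0 (hc _) (hc' _)

/-- Moderate sequences. -/
def Mod (F : Fil P) : Subring (ℕ → P) :=
  { F.Seq false with
    mul_mem' := fun h h' => F.seq_mul h h'
    one_mem' := F.const_mem F.one }

/-- Negligible sequences. -/
def Neg (F : Fil P) : Ideal F.Mod where
  carrier := {w | (w : ℕ → P) ∈ F.Seq true}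
  zero_mem' := zero_mem (F.Seq true)
  add_mem' h h' := (F.Seq true).add_mem h h'
  smul_mem' c _ h := F.seq_mul (τ := false) (τ' := true) c.2 h

instance (F : Fil P) : F.Neg.IsTwoSided := ⟨fun b h => F.seq_mul (τ := true) (τ' := false) h b.2⟩

/-- The asymptotic ring. -/
def Q (F : Fil P) : Type := F.Mod ⧸ F.Neg

instance (F : Fil P) : Ring F.Q := inferInstanceAs (Ring (F.Mod ⧸ F.Neg))

/-- The class of a moderate sequence. -/
def cl (F : Fil P) (w : ℕ → P) (hw : w ∈ F.Seq false) : F.Q := Ideal.Quotient.mk F.Neg ⟨w, hw⟩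

theorem cl_eq {F : Fil P} {w w' : ℕ → P} {hw : w ∈ F.Seq false} {hw' : w' ∈ F.Seq false} :
    F.cl w hw = F.cl w' hw' ↔ w - w' ∈ F.Seq true := Ideal.Quotient.eq

theorem cl_eq_zero {F : Fil P} {w : ℕ → P} {hw : w ∈ F.Seq false} :
    F.cl w hw = 0 ↔ w ∈ F.Seq true := Ideal.Quotient.eq_zero_iff_mem

theorem cl_congr {F : Fil P} {w w' : ℕ → P} {hw : w ∈ F.Seq false} {hw' : w' ∈ F.Seq false}
    (h : ∀ᶠ m in atTop, w m = w' m) : F.cl w hw = F.cl w' hw' :=
  cl_eq.2 (F.seq_of_eventually_zero true (h.mono fun m hm => by simp [hm]))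

theorem cl_congr' {F : Fil P} {w w' : ℕ → P} {hw : w ∈ F.Seq false} {hw' : w' ∈ F.Seq false}
    (h : ∀ m, w m = w' m) : F.cl w hw = F.cl w' hw' := cl_congr (Eventually.of_forall h)

@[elab_as_elim] theorem ind {F : Fil P} {p : F.Q → Prop} (x : F.Q)
    (h : ∀ w hw, p (F.cl w hw)) : p x := by
  obtain ⟨⟨w, hw⟩, rfl⟩ := Ideal.Quotient.mk_surjective (I := F.Neg) x
  exact h w hw

theorem cl_add (F : Fil P) (w w' : ℕ → P) (hw : w ∈ F.Seq false) (hw' : w' ∈ F.Seq false) :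
    F.cl w hw + F.cl w' hw' = F.cl (w + w') (add_mem hw hw') := rfl

theorem cl_sub (F : Fil P) (w w' : ℕ → P) (hw : w ∈ F.Seq false) (hw' : w' ∈ F.Seq false) :
    F.cl w hw - F.cl w' hw' = F.cl (w - w') (sub_mem hw hw') := rfl

theorem cl_neg (F : Fil P) (w : ℕ → P) (hw : w ∈ F.Seq false) :
    -F.cl w hw = F.cl (-w) (neg_mem hw) := rfl

theorem cl_mul (F : Fil P) (w w' : ℕ → P) (hw : w ∈ F.Seq false) (hw' : w' ∈ F.Seq false) :
    F.cl w hw * F.cl w' hw' = F.cl (w * w') (F.seq_mul hw hw') := rfl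

theorem cl_one (F : Fil P) : (1 : F.Q) = F.cl 1 (F.const_mem F.one) := rfl

theorem cl_zero (F : Fil P) : (0 : F.Q) = F.cl 0 (zero_mem _) := rfl

/-- The map induced by a bounded additive map. -/
def map (F : Fil P) (F' : Fil P') (f : P →+ P') (hf : F.Bd F'.toAFil f) : F.Q →+ F'.Q :=
  QuotientAddGroup.lift F.Neg.toAddSubgroup
    { toFun := fun w => F'.cl (fun m => f (w.1 m)) (hf.seq w.2)
      map_zero' := cl_congr' fun m => by simp
      map_add' := fun w w' => cl_congr' fun m => by simp }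
    fun w hw => cl_eq_zero.2 (hf.seq (τ := true) hw)

theorem map_cl (F : Fil P) (F' : Fil P') (f : P →+ P') (hf : F.Bd F'.toAFil f) (w : ℕ → P)
    (hw : w ∈ F.Seq false) : F.map F' f hf (F.cl w hw) = F'.cl (fun m => f (w m)) (hf.seq hw) :=
  rfl

/-- The map induced by a bounded ring map. -/
def mapR (F : Fil P) (F' : Fil P') (f : P →+* P') (hf : F.Bd F'.toAFil f) : F.Q →+* F'.Q :=
  { F.map F' (f : P →+ P') hf with
    map_one' := cl_congr' fun m => by simp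
    map_mul' := fun x y => by
      induction x using ind
      induction y using ind
      exact cl_congr' fun m => by simp }

theorem mapR_cl (F : Fil P) (F' : Fil P') (f : P →+* P') (hf : F.Bd F'.toAFil f) (w : ℕ → P)
    (hw : w ∈ F.Seq false) : F.mapR F' f hf (F.cl w hw) = F'.cl (fun m => f (w m)) (hf.seq hw) :=
  rfl

/-- Elements of finite degree and level. -/
def fin (F : Fil P) : Subring P where
  carrier := {x | ∃ D a, x ∈ F.B D a}
  zero_mem' := ⟨0, 0, zero_mem _⟩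
  one_mem' := ⟨0, 0, F.one⟩
  add_mem' := fun ⟨D, a, h⟩ ⟨D', a', h'⟩ => ⟨max D D', min a a',
    add_mem (F.mono (le_max_left _ _) (min_le_left _ _) h)
      (F.mono (le_max_right _ _) (min_le_right _ _) h')⟩
  mul_mem' := fun ⟨_, _, h⟩ ⟨_, _, h'⟩ => ⟨_, _, F.mul h h'⟩
  neg_mem' := fun ⟨D, a, h⟩ => ⟨D, a, neg_mem h⟩

theorem fin_seq (F : Fil P) {x : P} (hx : x ∈ F.fin) : (fun _ : ℕ => x) ∈ F.Seq false := by
  obtain ⟨D, a, h⟩ := hx
  exact F.const_mem h

/-- Constant sequences. -/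
def cst (F : Fil P) : F.fin →+* F.Q where
  toFun x := F.cl (fun _ => x) (F.fin_seq x.2)
  map_one' := rfl
  map_mul' _ _ := rfl
  map_zero' := rfl
  map_add' _ _ := rfl

theorem cst_apply (F : Fil P) (x : F.fin) : F.cst x = F.cl (fun _ => x) (F.fin_seq x.2) := rfl

instance (F : Fil P) : Algebra ℚ F.Q :=
  RingHom.toAlgebra' (F.cst.comp ((algebraMap ℚ P).codRestrict F.fin F.rat)) fun c x => by
    induction x using ind
    exact cl_congr' fun m => Algebra.commutes c _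

theorem algebraMap_eq (F : Fil P) (r : ℚ) :
    algebraMap ℚ F.Q r = F.cl (fun _ => algebraMap ℚ P r) (F.fin_seq (F.rat r)) := rfl

instance {P : Type} [CommRing P] [Algebra ℚ P] (F : Fil P) : CommRing F.Q :=
  { (inferInstance : Ring F.Q) with
    mul_comm := fun x y => by
      induction x using ind
      induction y using ind
      exact cl_congr' fun m => mul_comm _ _ }

end Fil

end Pool.Agent.P.MP_f43029_ag.XL
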