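import Pool.Agent.P.MP_f43029_ag.XL.LApi

/-!
Exact lifts, pure algebra: closure properties of local lifts.
-/

set_option autoImplicit false
set_option linter.unusedSectionVars false

noncomputable section

namespace Pool.Agent.P.MP_f43029_ag.XL

open Matrix

variable {K L A K' L' A' : Type} [CommRing K] [CommRing L] [CommRing A] [CommRing K'] [CommRing L']
  [CommRing A'] {q : ℕ} {ι ι' : Type} [Fintype ι] [DecidableEq ι] [Fintype ι'] [DecidableEq ι']

theorem EvenM.of_inv {R : Type} [Ring R] {p : ι → Bool} {G k : Matrix ι ι R} (hG : EvenM p p G)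
    (h1 : G * k = 1) (h2 : k * G = 1) : EvenM p p k := by
  rw [evenM_iff_comm] at hG ⊢
  generalize (Matrix.diagonal fun i => if p i then (1 : R) else 0) = Q at hG ⊢
  calc Q * k = k * G * Q * k := by rw [h2, one_mul]
    _ = k * (Q * G) * k := by rw [hG, mul_assoc k]
    _ = k * Q * (G * k) := by simp only [mul_assoc]
    _ = k * Q := by rw [h1, mul_one]

theorem dl_sum {β β' : Type} [DecidableEq β] [DecidableEq β'] (u : Lˣ) (γ : L) (a : β → ℤ)
    (a' : β' → ℤ) : dl u γ (Sum.elim a a') = (fromBlocks (dl u γ a) 0 0 (dl u γ a')).submatrix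
      (Equiv.sumProdDistrib β β' Bool) (Equiv.sumProdDistrib β β' Bool) := by
  ext ⟨i | i, s⟩ ⟨j | j, t⟩ <;> simp [dl]

theorem EvenM.fromBlocks {a b a' b' α : Type} [Zero α] {p : a → Bool} {r : b → Bool}
    {p' : a' → Bool} {r' : b' → Bool} {X : Matrix a b α} {Y : Matrix a' b' α} (hX : EvenM p r X)
    (hY : EvenM p' r' Y) : EvenM (Sum.elim p p') (Sum.elim r r') (Matrix.fromBlocks X 0 0 Y) := by
  rintro (i | i) (j | j) h
  exacts [hX i j h, rfl, rfl, hY i j h]

theorem bpar_sum {β β' : Type} (pb : β → Bool) (pb' : β' → Bool) : bpar (Sum.elim pb pb') =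
    Sum.elim (bpar pb) (bpar pb') ∘ Equiv.sumProdDistrib β β' Bool := by
  funext ⟨i, s⟩
  cases i <;> rfl

theorem bpar_not {β : Type} (pb : β → Bool) : bpar (fun b => !pb b) = fun x => !bpar pb x := by
  funext ⟨i, s⟩
  simp only [bpar]
  cases pb i <;> cases s <;> rfl

/-- Exchange of sources and targets. -/
def swp (β : Type) : β × Bool ≃ β × Bool where
  toFun x := (x.1, !x.2)
  invFun x := (x.1, !x.2)
  left_inv x := by simp
  right_inv x := by simp

theorem bpar_swp {β : Type} (pb : β → Bool) : bpar pb = (fun x => !bpar pb x) ∘ swp β := by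
  funext ⟨i, s⟩
  simp only [bpar, swp, Function.comp, Equiv.coe_fn_mk]
  cases pb i <;> cases s <;> rfl

theorem dl_swp {β : Type} [DecidableEq β] (u : Lˣ) (γ : L) (a : β → ℤ) :
    dl u γ a = (dl u γ a)ᵀ.submatrix (swp β) (swp β) := by
  rw [dl_transpose]
  ext ⟨i, s⟩ ⟨j, t⟩
  simp [swp]

section Gen

variable {R β β' : Type} [CommRing R] [Fintype β] [DecidableEq β] [Fintype β'] [DecidableEq β']
  {u : Rˣ} {g : R} {a : β → ℤ} {a' : β' → ℤ} {p : ι → Bool} {p' : ι' → Bool} {pb : β → Bool}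
  {pb' : β' → Bool} {M : Matrix ι ι R} {M' : Matrix ι' ι' R}

theorem clo_even_swp {Z : Matrix (β × Bool) ι R} (h : EvenM (bpar pb) p Z) :
    EvenM (fun i => !p i) (bpar pb) (Zᵀ.submatrix id (swp β)) := by
  have := h.transpose.flip.submatrix id (swp β)
  rwa [← bpar_swp] at this

theorem clo_even_swp' {Z : Matrix ι (β × Bool) R} (h : EvenM p (bpar pb) Z) :
    EvenM (bpar pb) (fun i => !p i) (Zᵀ.submatrix (swp β) id) := by
  have := h.transpose.flip.submatrix (swp β) id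
  rwa [← bpar_swp] at this

theorem clo_mul_swp {Z : Matrix (β × Bool) ι R} (h : Z * M = dl u g a * Z) :
    Mᵀ * Zᵀ.submatrix id (swp β) = Zᵀ.submatrix id (swp β) * dl u g a := by
  conv_rhs => rw [dl_swp, submatrix_mul_equiv, ← transpose_mul, ← h, transpose_mul,
    submatrix_mul _ _ _ id _ Function.bijective_id, submatrix_id_id]

theorem clo_swp_mul {Z : Matrix ι (β × Bool) R} (h : M * Z = Z * dl u g a) :
    Zᵀ.submatrix (swp β) id * Mᵀ = dl u g a * Zᵀ.submatrix (swp β) id := by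
  conv_rhs => rw [dl_swp, submatrix_mul_equiv, ← transpose_mul, ← h, transpose_mul,
    submatrix_mul _ _ _ id _ Function.bijective_id, submatrix_id_id]

theorem clo_even_not {Z : Matrix ι (β × Bool) R} (h : EvenM p (bpar pb) Z) :
    EvenM (fun i => !p i) (bpar fun b => !pb b) Z := by
  rw [bpar_not]
  exact h.flip

theorem clo_even_not' {Z : Matrix (β × Bool) ι R} (h : EvenM (bpar pb) p Z) :
    EvenM (bpar fun b => !pb b) (fun i => !p i) Z := by
  rw [bpar_not]
  exact h.flip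

theorem clo_even_sum {Z : Matrix ι (β × Bool) R} {Z' : Matrix ι' (β' × Bool) R}
    (h : EvenM p (bpar pb) Z) (h' : EvenM p' (bpar pb') Z') :
    EvenM (Sum.elim p p') (bpar (Sum.elim pb pb'))
      ((fromBlocks Z 0 0 Z').submatrix id (Equiv.sumProdDistrib β β' Bool)) := by
  rw [bpar_sum]
  exact (h.fromBlocks h').submatrix id _

theorem clo_even_sum' {Z : Matrix (β × Bool) ι R} {Z' : Matrix (β' × Bool) ι' R}
    (h : EvenM (bpar pb) p Z) (h' : EvenM (bpar pb') p' Z') :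
    EvenM (bpar (Sum.elim pb pb')) (Sum.elim p p')
      ((fromBlocks Z 0 0 Z').submatrix (Equiv.sumProdDistrib β β' Bool) id) := by
  rw [bpar_sum]
  exact (h.fromBlocks h').submatrix _ id

theorem clo_mul_sum {Z : Matrix ι (β × Bool) R} {Z' : Matrix ι' (β' × Bool) R}
    (h : M * Z = Z * dl u g a) (h' : M' * Z' = Z' * dl u g a') :
    fromBlocks M 0 0 M' * (fromBlocks Z 0 0 Z').submatrix id (Equiv.sumProdDistrib β β' Bool) =
      (fromBlocks Z 0 0 Z').submatrix id (Equiv.sumProdDistrib β β' Bool) *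
        dl u g (Sum.elim a a') := by
  rw [dl_sum, submatrix_mul_equiv, ← submatrix_id_id (fromBlocks M 0 0 M'),
    ← submatrix_mul _ _ _ id _ Function.bijective_id, fromBlocks_multiply, fromBlocks_multiply]
  simp [h, h']

theorem clo_sum_mul {Z : Matrix (β × Bool) ι R} {Z' : Matrix (β' × Bool) ι' R}
    (h : Z * M = dl u g a * Z) (h' : Z' * M' = dl u g a' * Z') :
    (fromBlocks Z 0 0 Z').submatrix (Equiv.sumProdDistrib β β' Bool) id * fromBlocks M 0 0 M' =
      dl u g (Sum.elim a a') *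
        (fromBlocks Z 0 0 Z').submatrix (Equiv.sumProdDistrib β β' Bool) id := by
  rw [dl_sum, submatrix_mul_equiv, ← submatrix_id_id (fromBlocks M 0 0 M'),
    ← submatrix_mul _ _ _ id _ Function.bijective_id, fromBlocks_multiply, fromBlocks_multiply]
  simp [h, h']

theorem clo_mul_re {σ : Type} [Fintype σ] {Z : Matrix ι σ R} {N : Matrix σ σ R}
    (h : M * Z = Z * N) (e : ι' ≃ ι) : M.submatrix e e * Z.submatrix e id = Z.submatrix e id * N := by
  rw [submatrix_mul_equiv, h, submatrix_mul _ _ _ id _ Function.bijective_id, submatrix_id_id]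

theorem clo_re_mul {σ : Type} [Fintype σ] {Z : Matrix σ ι R} {N : Matrix σ σ R}
    (h : Z * M = N * Z) (e : ι' ≃ ι) : Z.submatrix id e * M.submatrix e e = N * Z.submatrix id e := by
  rw [submatrix_mul_equiv, h, submatrix_mul _ _ _ id _ Function.bijective_id, submatrix_id_id]

end Gen

namespace Loc

variable {P : PairD K L q} {B : Bdd A} {c : L →+* A} {p : ι → Bool} {D D' : Matrix ι ι K} {γ : K}
  {Dt Dt' : Matrix ι ι A} {γt : A} {κ : ℕ} {μ am : ℤ}

/-- The flat constructor. -/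
theorem intro {β : Type} [Fintype β] [DecidableEq β] (pb : β → Bool) (a : β → ℤ)
    (U : Matrix ι (β × Bool) K) (U' : Matrix (β × Bool) ι K) (V : Matrix ι (β × Bool) L)
    (V' : Matrix (β × Bool) ι L) (Y : Matrix ι (β × Bool) A) (Y' : Matrix (β × Bool) ι A)
    (a_le : ∀ b, a b ≤ am) (evU : EvenM p (bpar pb) U) (evU' : EvenM (bpar pb) p U')
    (evV : EvenM p (bpar pb) V) (evV' : EvenM (bpar pb) p V') (evY : EvenM p (bpar pb) Y)
    (evY' : EvenM (bpar pb) p Y') (UV : P.TM (-(κ : ℤ)) U V) (UV' : P.TM (-(κ : ℤ)) U' V')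
    (UU' : U * U' = 1) (DU : D * U = U * dl P.ϖ γ a) (UD : U' * D = dl P.ϖ γ a * U')
    (DY : Dt * Y = Y * dl B.π γt a) (YD : Y' * Dt = dl B.π γt a * Y')
    (YV : MemM (fil B.π B.Ap μ) (Y - V.map c)) (YV' : MemM (fil B.π B.Ap μ) (Y' - V'.map c)) :
    Nonempty (Loc P B c p D γ Dt γt κ μ am) :=
  ⟨{ nf :=
      { β := β
        pb := pb
        a := a
        a_le := a_le
        U := U
        U' := U'
        V := V
        V' := V'
        evU := evU
        evU' := evU'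
        evV := evV
        evV' := evV'
        UV := UV
        UV' := UV'
        UU' := UU'
        DU := DU
        UD := UD }
     Y := Y
     Y' := Y'
     evY := evY
     evY' := evY'
     DY := DY
     YD := YD
     YV := YV
     YV' := YV' }⟩

theorem mono (X : Loc P B c p D γ Dt γt κ μ am) {κ' : ℕ} {μ' am' : ℤ} (hκ : κ ≤ κ') (hμ : μ' ≤ μ)
    (ham : am ≤ am') : Nonempty (Loc P B c p D γ Dt γt κ' μ' am') :=
  intro X.nf.pb X.nf.a X.nf.U X.nf.U' X.nf.V X.nf.V' X.Y X.Y' (fun b => (X.nf.a_le b).trans ham)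
    X.nf.evU X.nf.evU' X.nf.evV X.nf.evV' X.evY X.evY' (X.nf.UV.anti (by omega))
    (X.nf.UV'.anti (by omega)) X.nf.UU' X.nf.DU X.nf.UD X.DY X.YD (X.YV.anti B.π_mem hμ)
    (X.YV'.anti B.π_mem hμ)

theorem map {P' : PairD K' L' q} {B' : Bdd A'} {c' : L' →+* A'} (X : Loc P B c p D γ Dt γt κ μ am)
    (f : P.Hom P') (g : A →+* A') (gπ : g B.π = B'.π) (gA : ∀ y ∈ B.Ap, g y ∈ B'.Ap)
    (gc : ∀ y, g (c y) = c' (f.ψ y)) :
    Nonempty (Loc P' B' c' p (D.map f.φ) (f.φ γ) (Dt.map g) (g γt) κ μ am) := by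
  refine intro X.nf.pb X.nf.a (X.nf.U.map f.φ) (X.nf.U'.map f.φ) (X.nf.V.map f.ψ)
    (X.nf.V'.map f.ψ) (X.Y.map g) (X.Y'.map g) X.nf.a_le (X.nf.evU.map (map_zero _))
    (X.nf.evU'.map (map_zero _)) (X.nf.evV.map (map_zero _)) (X.nf.evV'.map (map_zero _))
    (X.evY.map (map_zero _)) (X.evY'.map (map_zero _)) (f.TM X.nf.UV) (f.TM X.nf.UV') ?_ ?_ ?_ ?_ ?_
    ((X.YV.map g gπ gA).of_eq ?_) ((X.YV'.map g gπ gA).of_eq ?_)
  · rw [← Matrix.map_mul, X.nf.UU', Matrix.map_one _ (map_zero _) (map_one _)]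
  · rw [← dl_map f.φ f.φϖ, ← Matrix.map_mul, ← Matrix.map_mul, X.nf.DU]
  · rw [← dl_map f.φ f.φϖ, ← Matrix.map_mul, ← Matrix.map_mul, X.nf.UD]
  · rw [← dl_map g gπ, ← Matrix.map_mul, ← Matrix.map_mul, X.DY]
  · rw [← dl_map g gπ, ← Matrix.map_mul, ← Matrix.map_mul, X.YD]
  · ext i j
    simp only [Matrix.map_apply, Matrix.sub_apply, map_sub, gc]
  · ext i j
    simp only [Matrix.map_apply, Matrix.sub_apply, map_sub, gc]

theorem reindex (X : Loc P B c p D γ Dt γt κ μ am) (e : ι' ≃ ι) :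
    Nonempty (Loc P B c (p ∘ e) (D.submatrix e e) γ (Dt.submatrix e e) γt κ μ am) := by
  refine intro X.nf.pb X.nf.a (X.nf.U.submatrix e id) (X.nf.U'.submatrix id e)
    (X.nf.V.submatrix e id) (X.nf.V'.submatrix id e) (X.Y.submatrix e id) (X.Y'.submatrix id e)
    X.nf.a_le (X.nf.evU.submatrix e id) (X.nf.evU'.submatrix id e) (X.nf.evV.submatrix e id)
    (X.nf.evV'.submatrix id e) (X.evY.submatrix e id) (X.evY'.submatrix id e)
    (X.nf.UV.submatrix e id) (X.nf.UV'.submatrix id e) ?_ (clo_mul_re X.nf.DU e)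
    (clo_re_mul X.nf.UD e) (clo_mul_re X.DY e) (clo_re_mul X.YD e) (X.YV.submatrix e id)
    (X.YV'.submatrix id e)
  rw [← submatrix_mul _ _ _ _ _ Function.bijective_id, X.nf.UU', submatrix_one_equiv]

theorem sum {p' : ι' → Bool} {E : Matrix ι' ι' K} {Et : Matrix ι' ι' A}
    (X : Loc P B c p D γ Dt γt κ μ am) (X' : Loc P B c p' E γ Et γt κ μ am) :
    Nonempty (Loc P B c (Sum.elim p p') (fromBlocks D 0 0 E) γ (fromBlocks Dt 0 0 Et) γt κ μ am) := by
  refine intro (Sum.elim X.nf.pb X'.nf.pb) (Sum.elim X.nf.a X'.nf.a) _ _ _ _ _ _ ?_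
    (clo_even_sum X.nf.evU X'.nf.evU) (clo_even_sum' X.nf.evU' X'.nf.evU')
    (clo_even_sum X.nf.evV X'.nf.evV) (clo_even_sum' X.nf.evV' X'.nf.evV')
    (clo_even_sum X.evY X'.evY) (clo_even_sum' X.evY' X'.evY')
    ((PairD.TM.fromBlocks X.nf.UV (.zero _ _) (.zero _ _) X'.nf.UV).submatrix _ _)
    ((PairD.TM.fromBlocks X.nf.UV' (.zero _ _) (.zero _ _) X'.nf.UV').submatrix _ _) ?_
    (clo_mul_sum X.nf.DU X'.nf.DU) (clo_sum_mul X.nf.UD X'.nf.UD) (clo_mul_sum X.DY X'.DY)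
    (clo_sum_mul X.YD X'.YD) ?_ ?_
  · rintro (b | b)
    exacts [X.nf.a_le b, X'.nf.a_le b]
  · rw [submatrix_mul_equiv, submatrix_id_id, fromBlocks_multiply]
    simp [X.nf.UU', X'.nf.UU']
  · rintro (i | i) ⟨j | j, t⟩
    · exact X.YV i (j, t)
    · simp
    · simp
    · exact X'.YV i (j, t)
  · rintro ⟨j | j, t⟩ (i | i)
    · exact X.YV' (j, t) i
    · simp
    · simp
    · exact X'.YV' (j, t) i

theorem flip (X : Loc P B c p D γ Dt γt κ μ am) :
    Nonempty (Loc P B c (fun i => !p i) D γ Dt γt κ μ am) :=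
  intro (fun b => !X.nf.pb b) X.nf.a X.nf.U X.nf.U' X.nf.V X.nf.V' X.Y X.Y' X.nf.a_le
    (clo_even_not X.nf.evU) (clo_even_not' X.nf.evU') (clo_even_not X.nf.evV)
    (clo_even_not' X.nf.evV') (clo_even_not X.evY) (clo_even_not' X.evY') X.nf.UV X.nf.UV' X.nf.UU'
    X.nf.DU X.nf.UD X.DY X.YD X.YV X.YV'

theorem transpose (X : Loc P B c p D γ Dt γt κ μ am) :
    Nonempty (Loc P B c (fun i => !p i) Dᵀ γ Dtᵀ γt κ μ am) := by
  refine intro X.nf.pb X.nf.a _ _ _ _ _ _ X.nf.a_le (clo_even_swp X.nf.evU')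
    (clo_even_swp' X.nf.evU) (clo_even_swp X.nf.evV') (clo_even_swp' X.nf.evV)
    (clo_even_swp X.evY') (clo_even_swp' X.evY) (X.nf.UV'.transpose.submatrix _ _)
    (X.nf.UV.transpose.submatrix _ _) ?_ (clo_mul_swp X.nf.UD) (clo_swp_mul X.nf.DU)
    (clo_mul_swp X.YD) (clo_swp_mul X.DY) (X.YV'.transpose.submatrix id (swp _))
    (X.YV.transpose.submatrix (swp _) id)
  rw [submatrix_mul_equiv, submatrix_id_id, ← transpose_mul, X.nf.UU', transpose_one]

/-- A local lift is one for every conjugate by a matrix congruent to the identity. -/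
theorem conj (X : Loc P B c p D γ Dt γt κ μ am) (hq : 1 ≤ q) {w : Matrix ι ι K}
    (hw : EvenM p p w) (hs : MemM (fil P.ϖ P.S q) w) (hG : D' * (1 + w) = (1 + w) * D) :
    Nonempty (Loc P B c p D' γ Dt γt κ μ am) := by
  obtain ⟨k, k1, k2, k3⟩ := P.inv_one_add (a := q) (by omega) hs
  have eG : EvenM p p (1 + w) := (EvenM.one p).add hw
  have ek : EvenM p p k := eG.of_inv k1 k2
  have hk : k * D' = D * k := by
    calc k * D' = k * (D' * (1 + w)) * k := by rw [mul_assoc, mul_assoc, k1, mul_one]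
      _ = D * k := by rw [hG, ← mul_assoc, k2, one_mul]
  refine intro X.nf.pb X.nf.a ((1 + w) * X.nf.U) (X.nf.U' * k) X.nf.V X.nf.V' X.Y X.Y' X.nf.a_le
    (eG.mul X.nf.evU) (X.nf.evU'.mul ek) X.nf.evV X.nf.evV' X.evY X.evY' ?_ ?_ ?_ ?_ ?_ X.DY X.YD
    X.YV X.YV'
  · have h := X.nf.UV.add (PairD.TM.kerL.2 (hs.mul X.nf.UV.fst))
    rw [add_zero] at h
    rwa [Matrix.add_mul, Matrix.one_mul]
  · have h := X.nf.UV'.add (PairD.TM.kerL.2 ((X.nf.UV'.fst.mul k3).lvl (add_comm _ _)))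
    rwa [add_zero, Matrix.mul_sub, Matrix.mul_one, add_sub_cancel] at h
  · rw [Matrix.mul_assoc, ← Matrix.mul_assoc X.nf.U, X.nf.UU', Matrix.one_mul, k1]
  · rw [← Matrix.mul_assoc, hG, Matrix.mul_assoc, X.nf.DU, Matrix.mul_assoc]
  · rw [Matrix.mul_assoc, hk, ← Matrix.mul_assoc, X.nf.UD, Matrix.mul_assoc]

/-- A local lift also lifts every small perturbation. -/
theorem perturb (X : Loc P B c p D γ Dt γt κ μ am) (hq : 1 ≤ q) {h : Matrix ι ι K}
    (o₁ : OddM p p D) (o₂ : OddM p p D') (o₃ : OddM p p h)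
    (hD : D * D = γ • (1 : Matrix ι ι K)) (hD' : D' * D' = γ • (1 : Matrix ι ι K))
    (hh : D * h + h * D = 1) (hs : MemM (fil P.ϖ P.S q) ((D' - D) * h)) :
    Nonempty (Loc P B c p D' γ Dt γt κ μ am) := by
  refine X.conj hq (oddM_mul_odd (oddM_sub o₂ o₁) o₃) hs ?_
  have e : 1 + (D' - D) * h = D' * h + h * D := by
    rw [← hh, sub_mul]
    abel
  rw [e, mul_add, add_mul, ← mul_assoc, hD', mul_assoc h, hD, smul_mul_assoc, mul_smul_comm,
    one_mul, mul_one, mul_assoc, add_comm]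

end Loc

end Pool.Agent.P.MP_f43029_ag.XL
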