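import Pool.Agent.P.MP_f43029_ag.XL.LCov

/-!
Exact lifts, pure algebra: comparison and contraction of local lifts.
-/

set_option autoImplicit false

noncomputable section

namespace Pool.Agent.P.MP_f43029_ag.XL

open Matrix

variable {K L A : Type} [CommRing K] [CommRing L] [CommRing A] {q : ℕ} {ι : Type} [Fintype ι]
  [DecidableEq ι]

namespace Loc

variable {P : PairD K L q} {B : Bdd A} {c : L →+* A} {p : ι → Bool} {D D' : Matrix ι ι K} {γ : K}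
  {Dt Dt' : Matrix ι ι A} {γt : A} {κ : ℕ} {μ am : ℤ}

theorem bV (hc : Cst P B c) (X : Loc P B c p D γ Dt γt κ μ am) :
    MemM (fil B.π B.Ap (-κ)) (X.nf.V.map c) := X.nf.UV.snd.map _ hc.cπ hc.cB

theorem bV' (hc : Cst P B c) (X : Loc P B c p D γ Dt γt κ μ am) :
    MemM (fil B.π B.Ap (-κ)) (X.nf.V'.map c) := X.nf.UV'.snd.map _ hc.cπ hc.cB

theorem bY (hc : Cst P B c) (X : Loc P B c p D γ Dt γt κ μ am) (hμ : 0 ≤ μ) :
    MemM (fil B.π B.Ap (-κ)) X.Y :=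
  ((X.YV.anti B.π_mem (by omega)).add (X.bV hc)).of_eq (sub_add_cancel _ _)

theorem bY' (hc : Cst P B c) (X : Loc P B c p D γ Dt γt κ μ am) (hμ : 0 ≤ μ) :
    MemM (fil B.π B.Ap (-κ)) X.Y' :=
  ((X.YV'.anti B.π_mem (by omega)).add (X.bV' hc)).of_eq (sub_add_cancel _ _)

theorem bVV (hc : Cst P B c) (X : Loc P B c p D γ Dt γt κ μ am) :
    MemM (fil B.π B.Ap (q - 2 * κ)) (X.nf.V.map c * X.nf.V'.map c - 1) := by
  have h := X.nf.VV.map _ hc.cπ hc.cB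
  rwa [Matrix.map_sub _ (map_sub _), Matrix.map_mul, Matrix.map_one _ (map_zero _) (map_one _)] at h

/-- Comparison of two local lifts for neighbouring lattices. -/
theorem cmp' (hc : Cst P B c) (X : Loc P B c p D γ Dt γt κ μ am)
    (X' : Loc P B c p D' γ Dt' γt κ μ am) {C e : ℕ} {γ' : L} (hγ : P.Dec C γ γ' e)
    (hγt : c γ' = γt) (ham : 2 * am ≤ C) (hμ : 5 * (κ : ℤ) + 1 ≤ μ) (hq : 6 * κ + 3 ≤ q)
    (w : ι → ℤ) (hw : ∀ i, |w i| ≤ κ) (hG : dg P.ϖ w * D' = D * dg P.ϖ w) :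
    ∃ Z, EvenM p p Z ∧ MemM (fil B.π B.Ap 1) (Z - 1) ∧
      dg B.π w * Z * Dt' = Dt * (dg B.π w * Z) := by
  have hπ := B.π_mem
  have hw₁ : ∀ i, -(κ : ℤ) ≤ w i := fun i => (abs_le.mp (hw i)).1
  have hw₂ : ∀ i, -(κ : ℤ) ≤ (-w) i := fun i => neg_le_neg (abs_le.mp (hw i)).2
  obtain ⟨Z, z₁, z₂, z₃⟩ := PairD.corr (l := 3 * κ) (a := X.nf.a) (a' := X'.nf.a) hγ
    (fun b b' => by have := X.nf.a_le b; have := X'.nf.a_le b'; omega)
    (((X.nf.UV'.mul (PairD.TM.dg P hw₁)).mul X'.nf.UV).lvl (by ring))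
    ((X.nf.evV'.mul (dg_even _ _ p)).mul X'.nf.evV) (by
      rw [Matrix.mul_assoc, ← X'.nf.DU, ← Matrix.mul_assoc, Matrix.mul_assoc _ _ D', hG,
        ← Matrix.mul_assoc, X.nf.UD]
      simp only [Matrix.mul_assoc])
  have z₄ := congrArg (·.map c) z₂
  have z₅ := z₃.map _ hc.cπ hc.cB
  simp only [Matrix.map_mul, dl_map c hc.cπ, hγt] at z₄
  rw [Matrix.map_sub _ (map_sub _), Matrix.map_mul, Matrix.map_mul, dg_map c hc.cπ] at z₅
  have bG := MemM.dg hπ hw₁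
  have bX := ((X.bV' hc).mul bG).mul (X'.bV hc)
  have bZ : MemM (fil B.π B.Ap (-κ + -κ + -κ)) (Z.map c) :=
    ((z₅.anti hπ (by omega)).add bX).of_eq (sub_add_cancel _ _)
  have bY' := X'.bY' hc (by omega)
  refine ⟨dg B.π (-w) * (X.Y * Z.map c * X'.Y'),
    (dg_even _ _ p).mul ((X.evY.mul (z₁.map (map_zero _))).mul X'.evY'), ?_, ?_⟩
  · have h : MemM (fil B.π B.Ap (κ + 1)) (X.Y * Z.map c * X'.Y' - dg B.π w) := by
      refine (((((((X.YV.mul bZ).mul bY').anti hπ (by omega)).add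
        ((((X.bV hc).mul z₅).mul bY').anti hπ (by omega))).add
        ((((X.bV hc).mul bX).mul X'.YV').anti hπ (by omega))).add
        (((((X.bVV hc).mul bG).mul (X'.bV hc)).mul (X'.bV' hc)).anti hπ (by omega))).add
        ((bG.mul (X'.bVV hc)).anti hπ (by omega))).of_eq ?_
      simp only [Matrix.sub_mul, Matrix.mul_sub, Matrix.mul_assoc, Matrix.one_mul, Matrix.mul_one]
      abel
    refine (((MemM.dg hπ hw₂).mul h).lvl (by ring)).of_eq ?_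
    rw [Matrix.mul_sub, dg_neg_mul]
  · rw [← Matrix.mul_assoc (dg B.π w), dg_mul_neg, Matrix.one_mul, Matrix.mul_assoc, X'.YD,
      ← Matrix.mul_assoc, Matrix.mul_assoc X.Y, z₄, ← Matrix.mul_assoc, ← X.DY]
    simp only [Matrix.mul_assoc]

/-- A local lift has a bounded contraction. -/
theorem contr' (hc : Cst P B c) (X : Loc P B c p D γ Dt γt κ μ am) (hμ : (κ : ℤ) + 1 ≤ μ)
    (hq : 2 * κ + 1 ≤ q) :
    ∃ h, OddM p p h ∧ Dt * h + h * Dt = 1 ∧ MemM (fil B.π B.Ap (-am - 2 * κ)) h := by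
  have hπ := B.π_mem
  have bY := X.bY hc (by omega)
  have bY' := X.bY' hc (by omega)
  have h₁ : MemM (fil B.π B.Ap 1) (X.Y * X.Y' - 1) := by
    refine ((((X.YV.mul bY').anti hπ (by omega)).add
      (((X.bV hc).mul X.YV').anti hπ (by omega))).add ((X.bVV hc).anti hπ (by omega))).of_eq ?_
    simp only [Matrix.sub_mul, Matrix.mul_sub]
    abel
  obtain ⟨k, k₁, k₂, k₃, k₄⟩ := B.inv_near le_rfl h₁
  have hD : Dt * (X.Y * X.Y') = X.Y * X.Y' * Dt := by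
    rw [← Matrix.mul_assoc, X.DY, Matrix.mul_assoc, ← X.YD, Matrix.mul_assoc]
  have hk : k * Dt = Dt * k := by
    rw [← Matrix.mul_one (k * Dt), ← k₁, ← Matrix.mul_assoc, Matrix.mul_assoc k, hD,
      ← Matrix.mul_assoc, k₂, Matrix.one_mul]
  have bk : MemM (fil B.π B.Ap 0) k :=
    ((k₃.anti hπ zero_le_one).add (MemM.one _ _)).of_eq (sub_add_cancel _ _)
  refine ⟨X.Y * hd B.π X.nf.a * X.Y' * k, oddM_mul_even (oddM_mul_even
    (X.evY.mul_odd (hd_odd _ _ _)) X.evY') (k₄ p (X.evY.mul X.evY')), ?_,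
    (((bY.mul (MemM.hd hπ X.nf.a_le)).mul bY').mul bk).lvl (by ring)⟩
  rw [Matrix.mul_assoc _ k, hk, ← Matrix.mul_assoc, ← Matrix.mul_assoc, ← Matrix.mul_assoc,
    ← Matrix.mul_assoc, X.DY, Matrix.mul_assoc _ X.Y' Dt, X.YD, ← Matrix.add_mul,
    ← Matrix.mul_assoc, ← Matrix.add_mul, Matrix.mul_assoc X.Y, Matrix.mul_assoc X.Y,
    ← Matrix.mul_add, dl_hd, Matrix.mul_one, k₁]

end Loc

namespace PairD

theorem subsingleton' (P : PairD K L q) (h : (1 : K) ∈ fil P.ϖ P.S 1) : Subsingleton K := by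
  obtain ⟨z, -, hz⟩ := P.jac _ (P.S.neg_mem h)
  refine subsingleton_of_zero_eq_one ?_
  rw [← hz, mul_neg, ← mul_assoc, _root_.zpow_neg_one, Units.mul_inv]
  simp

/-- A pair whose second component divides `π ^ (e + 1)` is invertible. -/
theorem T_inv' (P : PairD K L q) (hq : 2 ≤ q) {e : ℤ} {y : K} {y' z' : L} (h : (y, y') ∈ P.T e)
    (hz : y' * z' = 1) (hz' : z' ∈ fil P.π P.Bp (-e - 1)) :
    ∃ z, y * z = 1 ∧ (z, z') ∈ P.T (-e - 2) := by
  obtain ⟨x, hx⟩ := T_surj hz'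
  have h₁ := T_mul h hx
  rw [hz] at h₁
  have h₂ := T_sub h₁ (T_anti P.T_one (by omega))
  rw [sub_self, T_kerL] at h₂
  have h₃ : y * x - 1 ∈ fil P.ϖ P.S 1 := fil_anti P.ϖ_mem (by omega) h₂
  obtain ⟨u, hu, hu'⟩ := P.jac _ h₃
  rw [← mul_assoc, _root_.zpow_neg_one, Units.mul_inv, one_mul, add_sub_cancel] at hu'
  refine ⟨x * u, by rw [← mul_assoc, hu'], ?_⟩
  have h₄ : u - 1 ∈ fil P.ϖ P.S (q + -1) := by
    have := neg_mem (fil_mul h₂ (fil_zero.2 hu))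
    rw [sub_mul, hu', one_mul, neg_sub] at this
    exact fil_of_eq this (by ring)
  have h₅ := T_add (T_kerL.2 h₄) (T_anti P.T_one (by omega))
  rw [sub_add_cancel, zero_add] at h₅
  have h₆ := T_mul hx h₅
  rw [mul_one] at h₆
  exact T_anti h₆ (by omega)

end PairD

end Pool.Agent.P.MP_f43029_ag.XL
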