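import Pool.Agent.P.MP_f43029_ag.XL.LApi

/-!
Exact lifts: an approximate intertwiner of two normal forms can be corrected to an exact one.
-/

set_option autoImplicit false

noncomputable section

namespace Pool.Agent.P.MP_f43029_ag.XL

open Matrix

namespace PairD

variable {K L : Type} [CommRing K] [CommRing L] {q : ℕ} {P : PairD K L q}

theorem corr_one {l : ℤ} {x₀ x₁ m : K} {y₀ y₁ m' : L} (h₀ : (x₀, y₀) ∈ P.T (-l))
    (h₁ : (x₁, y₁) ∈ P.T (-l)) (hm : (m, m') ∈ P.T (-2)) (e : x₁ = m * x₀) :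
    m' * y₀ - y₁ ∈ fil P.π P.Bp (q - l - 2) := by
  have h2 := T_mul hm h₀
  rw [← e] at h2
  exact fil_of_eq (T_uniq h2 (T_anti h₁ (by omega))) (by ring)

theorem corr_diag {l a a' : ℤ} {x₀ x₁ : K} {y₀ y₁ : L} (h₀ : (x₀, y₀) ∈ P.T (-l))
    (h₁ : (x₁, y₁) ∈ P.T (-l))
    (e : x₁ * ((P.ϖ ^ a' : Kˣ) : K) = ((P.ϖ ^ a : Kˣ) : K) * x₀) :
    ∃ z₀ z₁ : L, z₁ * ((P.π ^ a' : Lˣ) : L) = ((P.π ^ a : Lˣ) : L) * z₀ ∧
      z₀ - y₀ ∈ fil P.π P.Bp (q - l - 2) ∧ z₁ - y₁ ∈ fil P.π P.Bp (q - l - 2) ∧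
      (y₀ = 0 → y₁ = 0 → z₀ = 0 ∧ z₁ = 0) := by
  rcases le_total a' a with h | h
  · refine ⟨y₀, ((P.π ^ (a + -a') : Lˣ) : L) * y₀, ?_, by simp, ?_, ?_⟩
    · rw [zpow_val_add]
      linear_combination (((P.π ^ a : Lˣ) : L) * y₀) * zpow_val_neg P.π a'
    · refine corr_one h₀ h₁ (T_anti (P.T_zpow _) (by omega)) ?_
      rw [zpow_val_add]
      linear_combination ((P.ϖ ^ (-a') : Kˣ) : K) * e - x₁ * zpow_val_neg P.ϖ a'
    · rintro rfl -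
      simp
  · refine ⟨((P.π ^ (a' + -a) : Lˣ) : L) * y₁, y₁, ?_, ?_, by simp, ?_⟩
    · rw [zpow_val_add]
      linear_combination (-((P.π ^ a' : Lˣ) : L) * y₁) * zpow_val_neg P.π a
    · refine corr_one h₁ h₀ (T_anti (P.T_zpow _) (by omega)) ?_
      rw [zpow_val_add]
      linear_combination -((P.ϖ ^ (-a) : Kˣ) : K) * e - x₀ * zpow_val_neg P.ϖ a
    · rintro - rfl
      simp

theorem corr_off {C e : ℕ} {γ : K} {γt : L} (hγ : P.Dec C γ γt e) {l a a' : ℤ} (haa : a + a' ≤ C)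
    {x₀ x₁ : K} {y₀ y₁ : L} (h₀ : (x₀, y₀) ∈ P.T (-l)) (h₁ : (x₁, y₁) ∈ P.T (-l))
    (h : x₁ * ((P.ϖ ^ a' : Kˣ) : K) = γ * ((P.ϖ ^ (-a) : Kˣ) : K) * x₀) :
    ∃ z₀ z₁ : L, z₁ * ((P.π ^ a' : Lˣ) : L) = γt * ((P.π ^ (-a) : Lˣ) : L) * z₀ ∧
      z₀ - y₀ ∈ fil P.π P.Bp (q - l - 2) ∧ z₁ - y₁ ∈ fil P.π P.Bp (q - l - 2) ∧
      (y₀ = 0 → y₁ = 0 → z₀ = 0 ∧ z₁ = 0) := by
  rcases le_or_gt (a + a') e with h' | h'
  · refine ⟨y₀, γt * ((P.π ^ (-a + -a') : Lˣ) : L) * y₀, ?_, by simp, ?_, ?_⟩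
    · rw [zpow_val_add]
      linear_combination (γt * ((P.π ^ (-a) : Lˣ) : L) * y₀) * zpow_val_neg P.π a'
    · refine corr_one h₀ h₁ (T_anti (T_mul hγ.2.1 (P.T_zpow _)) (by omega)) ?_
      rw [zpow_val_add]
      linear_combination ((P.ϖ ^ (-a') : Kˣ) : K) * h - x₁ * zpow_val_neg P.ϖ a'
    · rintro rfl -
      simp
  · obtain ⟨z, z', hz, hz', hT⟩ := hγ.2.2 (by omega)
    refine ⟨z' * ((P.π ^ (a + a') : Lˣ) : L) * y₁, y₁, ?_, ?_, by simp, ?_⟩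
    · rw [zpow_val_add]
      linear_combination (-((P.π ^ a' : Lˣ) : L) * y₁ * (γt * z')) * zpow_val_neg P.π a -
        (((P.π ^ a' : Lˣ) : L) * y₁) * hz'
    · refine corr_one h₁ h₀ (T_anti (T_mul hT (P.T_zpow _)) (by omega)) ?_
      rw [zpow_val_add]
      linear_combination -(z * ((P.ϖ ^ a : Kˣ) : K)) * h - (x₀ * (γ * z)) * zpow_val_neg P.ϖ a -
        x₀ * hz
    · rintro - rfl
      simp

/-- The correction lemma. -/
theorem corr {β β' : Type} [Fintype β] [DecidableEq β] [Fintype β'] [DecidableEq β']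
    {pb : β → Bool} {pb' : β' → Bool} {a : β → ℤ} {a' : β' → ℤ} {C e : ℕ} {γ : K} {γt : L}
    (hγ : P.Dec C γ γt e) (haa : ∀ b b', a b + a' b' ≤ C) {l : ℤ}
    {X : Matrix (β × Bool) (β' × Bool) K} {Xt : Matrix (β × Bool) (β' × Bool) L}
    (hX : P.TM (-l) X Xt) (hev : EvenM (bpar pb) (bpar pb') Xt)
    (h : X * dl P.ϖ γ a' = dl P.ϖ γ a * X) :
    ∃ Xh : Matrix (β × Bool) (β' × Bool) L, EvenM (bpar pb) (bpar pb') Xh ∧
      Xh * dl P.π γt a' = dl P.π γt a * Xh ∧ MemM (fil P.π P.Bp (q - l - 2)) (Xh - Xt) := by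
  have hd : ∀ b b', _ := fun b b' =>
    corr_diag (a := a b) (a' := a' b') (hX (b, false) (b', false)) (hX (b, true) (b', true))
      (by rw [← mul_dl_false P.ϖ γ a' X (b, true) b', h, dl_mul_true])
  have ho : ∀ b b', _ := fun b b' =>
    corr_off hγ (haa b b') (hX (b, true) (b', false)) (hX (b, false) (b', true))
      (by rw [← mul_dl_false P.ϖ γ a' X (b, false) b', h, dl_mul_false])
  choose d₀ d₁ hd₁ hd₂ hd₃ hd₄ using hd
  choose o₀ o₁ ho₁ ho₂ ho₃ ho₄ using ho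
  refine ⟨Matrix.of fun i j => match i.2, j.2 with
    | false, false => d₀ i.1 j.1
    | true, true => d₁ i.1 j.1
    | true, false => o₀ i.1 j.1
    | false, true => o₁ i.1 j.1, ?_, ?_, ?_⟩
  · rintro ⟨b, s⟩ ⟨b', t⟩ hp
    have hp' : bpar pb (b, !s) ≠ bpar pb' (b', !t) := by
      revert hp
      simp only [bpar]
      cases pb b <;> cases pb' b' <;> cases s <;> cases t <;> simp
    have e1 := hev _ _ hp
    have e2 := hev _ _ hp'
    cases s <;> cases t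
    · exact (hd₄ b b' e1 e2).1
    · exact (ho₄ b b' e2 e1).2
    · exact (ho₄ b b' e1 e2).1
    · exact (hd₄ b b' e2 e1).2
  · ext ⟨b, s⟩ ⟨b', t⟩
    have u1 := zpow_val_neg P.π (a b)
    have u2 := zpow_val_neg P.π (a' b')
    cases s <;> cases t
    · rw [mul_dl_false, dl_mul_false]
      exact ho₁ b b'
    · rw [mul_dl_true, dl_mul_false]
      change d₀ b b' * _ = _ * d₁ b b'
      linear_combination
        -(γt * ((P.π ^ (-a b) : Lˣ) : L) * ((P.π ^ (-a' b') : Lˣ) : L)) * hd₁ b b' -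
          (γt * ((P.π ^ (-a' b') : Lˣ) : L) * d₀ b b') * u1 +
          (γt * ((P.π ^ (-a b) : Lˣ) : L) * d₁ b b') * u2
    · rw [mul_dl_false, dl_mul_true]
      exact hd₁ b b'
    · rw [mul_dl_true, dl_mul_true]
      change o₀ b b' * _ = _ * o₁ b b'
      linear_combination
        -(((P.π ^ a b : Lˣ) : L) * ((P.π ^ (-a' b') : Lˣ) : L)) * ho₁ b b' -
          (γt * ((P.π ^ (-a' b') : Lˣ) : L) * o₀ b b') * u1 +
          (((P.π ^ a b : Lˣ) : L) * o₁ b b') * u2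
  · rintro ⟨b, s⟩ ⟨b', t⟩
    cases s <;> cases t
    exacts [hd₂ b b', ho₃ b b', ho₂ b b', hd₃ b b']

end PairD

end Pool.Agent.P.MP_f43029_ag.XL
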