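import Pool.Agent.P.MP_f43029_ag.XL.LIdem
import Pool.Agent.P.MP_f43029_ag.XL.LCorr

/-!
Exact lifts, pure algebra: gluing local data over an abstract finite cover.
-/

set_option autoImplicit false

noncomputable section

namespace Pool.Agent.P.MP_f43029_ag.XL

open Matrix

/-- Extension by zero after multiplication with a cut-off function. -/
structure Gl {A A' : Type} [CommRing A] [CommRing A'] (B : Bdd A) (B' : Bdd A') (r : A →+* A') where
  g : A' →+ A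
  mul : ∀ x y, g (r x * y) = x * g y
  bd : ∀ a y, y ∈ fil B'.π B'.Ap a → g y ∈ fil B.π B.Ap a

namespace Gl

variable {A A' : Type} [CommRing A] [CommRing A'] {B : Bdd A} {B' : Bdd A'} {r : A →+* A'}
  (G : Gl B B' r) {a b c : Type}

theorem mul_left [Fintype b] (X : Matrix a b A) (Y : Matrix b c A') :
    (X.map r * Y).map G.g = X * Y.map G.g := by
  ext i j
  simp only [Matrix.map_apply, Matrix.mul_apply, map_sum, G.mul]

theorem mul_right [Fintype b] (Y : Matrix a b A') (X : Matrix b c A) :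
    (Y * X.map r).map G.g = Y.map G.g * X := by
  ext i j
  simp only [Matrix.map_apply, Matrix.mul_apply, map_sum]
  exact Finset.sum_congr rfl fun k _ => by rw [mul_comm, G.mul, mul_comm]

theorem map_r (X : Matrix a b A) : (X.map r).map G.g = G.g 1 • X := by
  ext i j
  simp only [Matrix.map_apply, Matrix.smul_apply, smul_eq_mul]
  rw [← mul_one (r _), G.mul, mul_comm]

theorem map_smul (x : A) (Y : Matrix a b A') : (r x • Y).map G.g = x • Y.map G.g := by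
  ext i j
  simp only [Matrix.map_apply, Matrix.smul_apply, smul_eq_mul, G.mul]

theorem map_sub (X Y : Matrix a b A') : (X - Y).map G.g = X.map G.g - Y.map G.g :=
  Matrix.map_sub _ (_root_.map_sub G.g) _ _

theorem map_add (X Y : Matrix a b A') : (X + Y).map G.g = X.map G.g + Y.map G.g :=
  Matrix.map_add _ (_root_.map_add G.g) _ _

theorem mem {l : ℤ} {Y : Matrix a b A'} (h : MemM (fil B'.π B'.Ap l) Y) :
    MemM (fil B.π B.Ap l) (Y.map G.g) := fun i j => G.bd _ _ (h i j)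

end Gl

/-- A finite cover with a partition of unity. -/
structure Cov₁ {V A : Type} [Fintype V] [CommRing A] {Av : V → Type} [∀ v, CommRing (Av v)]
    (B : Bdd A) (Bv : ∀ v, Bdd (Av v)) (r : ∀ v, A →+* Av v) where
  g : ∀ v, Gl B (Bv v) (r v)
  sum : ∑ v, (g v).g 1 = 1

namespace Cov₁

variable {V A : Type} [Fintype V] [CommRing A] {Av : V → Type} [∀ v, CommRing (Av v)]
  {B : Bdd A} {Bv : ∀ v, Bdd (Av v)} {r : ∀ v, A →+* Av v} (𝒞 : Cov₁ B Bv r) {a b : Type}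

theorem sum_map (X : Matrix a b A) : ∑ v, (X.map (r v)).map (𝒞.g v).g = X := by
  simp only [Gl.map_r]
  rw [← Finset.sum_smul, 𝒞.sum, one_smul]

include 𝒞 in
/-- A matrix that vanishes on every piece of the cover vanishes. -/
theorem eq_of_local {X Y : Matrix a b A} (h : ∀ v, X.map (r v) = Y.map (r v)) : X = Y := by
  rw [← 𝒞.sum_map X, ← 𝒞.sum_map Y]
  exact Finset.sum_congr rfl fun v _ => by rw [h v]

variable {ι : Type} [Fintype ι] [DecidableEq ι] {p : ι → Bool}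

include 𝒞 in
/-- Local comparisons glue. -/
theorem cmp {G Dt Dt' : Matrix ι ι A} {l : ℤ}
    (h : ∀ v, ∃ Z, EvenM p p Z ∧ MemM (fil (Bv v).π (Bv v).Ap l) (Z - 1) ∧
      G.map (r v) * Z * Dt'.map (r v) = Dt.map (r v) * (G.map (r v) * Z)) :
    ∃ Z, EvenM p p Z ∧ MemM (fil B.π B.Ap l) (Z - 1) ∧ G * Z * Dt' = Dt * (G * Z) := by
  choose Z h₁ h₂ h₃ using h
  refine ⟨∑ v, (Z v).map (𝒞.g v).g, EvenM.sum _ fun v _ => (h₁ v).map (map_zero _), ?_, ?_⟩
  · rw [← 𝒞.sum_map 1, ← Finset.sum_sub_distrib]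
    refine MemM.sum _ fun v _ => ?_
    rw [← Gl.map_sub, Matrix.map_one _ (map_zero _) (map_one _)]
    exact (𝒞.g v).mem (h₂ v)
  · rw [Matrix.mul_sum, Matrix.sum_mul, Matrix.mul_sum]
    refine Finset.sum_congr rfl fun v _ => ?_
    rw [← Gl.mul_left, ← Gl.mul_right, ← Gl.mul_left, h₃]

include 𝒞 in
/-- Local contractions glue. -/
theorem contr {Dt : Matrix ι ι A} {l : ℤ}
    (h : ∀ v, ∃ h, OddM p p h ∧ Dt.map (r v) * h + h * Dt.map (r v) = 1 ∧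
      MemM (fil (Bv v).π (Bv v).Ap l) h) :
    ∃ h, OddM p p h ∧ Dt * h + h * Dt = 1 ∧ MemM (fil B.π B.Ap l) h := by
  choose Z h₁ h₂ h₃ using h
  refine ⟨∑ v, (Z v).map (𝒞.g v).g, oddM_sum _ fun v _ => oddM_map (h₁ v) (map_zero _), ?_,
    MemM.sum _ fun v _ => (𝒞.g v).mem (h₃ v)⟩
  rw [Matrix.mul_sum, Matrix.sum_mul, ← Finset.sum_add_distrib, ← 𝒞.sum_map 1]
  refine Finset.sum_congr rfl fun v _ => ?_
  rw [← Gl.mul_left, ← Gl.mul_right, ← Gl.map_add, h₂,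
    Matrix.map_one (r v) (map_zero _) (map_one _)]

end Cov₁

/-- A finite cover with double overlaps and a quadratic partition of unity. -/
structure Cov₂ {V A : Type} [Fintype V] [CommRing A] {Av : V → Type} [∀ v, CommRing (Av v)]
    {Aw : V → V → Type} [∀ v v', CommRing (Aw v v')] (B : Bdd A) (Bv : ∀ v, Bdd (Av v))
    (Bw : ∀ v v', Bdd (Aw v v')) (r : ∀ v, A →+* Av v) (r₁ : ∀ v v', Av v →+* Aw v v')
    (r₂ : ∀ v v', Av v' →+* Aw v v') where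
  rπ : ∀ v, r v B.π = (Bv v).π
  rA : ∀ v, ∀ y ∈ B.Ap, r v y ∈ (Bv v).Ap
  r₁π : ∀ v v', r₁ v v' (Bv v).π = (Bw v v').π
  rr : ∀ v v' x, r₁ v v' (r v x) = r₂ v v' (r v' x)
  ga : ∀ v, Gl B (Bv v) (r v)
  gb : ∀ v, Gl B (Bv v) (r v)
  ha : ∀ v v', Gl (Bv v) (Bw v v') (r₁ v v')
  hb : ∀ v v', Gl (Bv v) (Bw v v') (r₁ v v')
  ga_self : ∀ v y, r v ((ga v).g y) = r v ((ga v).g 1) * y
  ga_ha : ∀ v v' y, r v ((ga v').g y) = (ha v v').g (r₂ v v' y)
  gb_hb : ∀ v v' y, r v ((gb v').g y) = (hb v v').g (r₂ v v' y)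
  sum : ∑ v, (ga v).g 1 * (gb v).g 1 = 1

/-- Pairs over the pieces and the double overlaps of a cover. -/
structure PCov {V : Type} {Av : V → Type} [∀ v, CommRing (Av v)]
    {Aw : V → V → Type} [∀ v v', CommRing (Aw v v')] (Bv : ∀ v, Bdd (Av v))
    (Bw : ∀ v v', Bdd (Aw v v')) (r₁ : ∀ v v', Av v →+* Aw v v')
    (r₂ : ∀ v v', Av v' →+* Aw v v') {K L : V → Type} [∀ v, CommRing (K v)] [∀ v, CommRing (L v)]
    {q : ℕ} (P : ∀ v, PairD (K v) (L v) q) (c : ∀ v, L v →+* Av v) {Kw Lw : V → V → Type}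
    [∀ v v', CommRing (Kw v v')] [∀ v v', CommRing (Lw v v')]
    (Pw : ∀ v v', PairD (Kw v v') (Lw v v') q) where
  f₁ : ∀ v v', (P v).Hom (Pw v v')
  f₂ : ∀ v v', (P v').Hom (Pw v v')
  cw : ∀ v v', Lw v v' →+* Aw v v'
  cst : ∀ v, Cst (P v) (Bv v) (c v)
  cstw : ∀ v v', Cst (Pw v v') (Bw v v') (cw v v')
  c₁ : ∀ v v' y, r₁ v v' (c v y) = cw v v' ((f₁ v v').ψ y)
  c₂ : ∀ v v' y, r₂ v v' (c v' y) = cw v v' ((f₂ v v').ψ y)

section Blocks

variable {V α : Type} {β : V → Type} {a b : Type}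

/-- Stack matrices on top of each other. -/
def rowsS (X : ∀ v, Matrix (β v × Bool) b α) : Matrix ((Σ v, β v) × Bool) b α :=
  fun i j => X i.1.1 (i.1.2, i.2) j

/-- Put matrices next to each other. -/
def colsS (X : ∀ v, Matrix a (β v × Bool) α) : Matrix a ((Σ v, β v) × Bool) α :=
  fun i j => X j.1.1 i (j.1.2, j.2)

variable [CommRing α] [Fintype V] [∀ v, Fintype (β v)]

theorem colsS_mul_rowsS (X : ∀ v, Matrix a (β v × Bool) α) (Y : ∀ v, Matrix (β v × Bool) b α) :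
    colsS X * rowsS Y = ∑ v, X v * Y v := by
  ext i j
  simp only [Matrix.mul_apply, Matrix.sum_apply, colsS, rowsS, Fintype.sum_prod_type,
    Fintype.sum_sigma]

omit [Fintype V] [∀ v, Fintype (β v)] in
theorem mul_colsS [Fintype b] (Z : Matrix a b α) (X : ∀ v, Matrix b (β v × Bool) α) :
    Z * colsS X = colsS fun v => Z * X v := rfl

omit [Fintype V] [∀ v, Fintype (β v)] in
theorem rowsS_mul [Fintype a] (X : ∀ v, Matrix (β v × Bool) a α) (Z : Matrix a b α) :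
    rowsS X * Z = rowsS fun v => X v * Z := rfl

variable [DecidableEq V] [∀ v, DecidableEq (β v)] (u : αˣ) (γ : α) (e : ∀ v, β v → ℤ)

theorem dl_mul_rowsS (X : ∀ v, Matrix (β v × Bool) b α) :
    dl u γ (fun i : Σ v, β v => e i.1 i.2) * rowsS X = rowsS fun v => dl u γ (e v) * X v := by
  ext ⟨⟨v, i⟩, s⟩ j
  cases s
  · rw [dl_mul_false]
    exact (dl_mul_false u γ (e v) (X v) i j).symm
  · rw [dl_mul_true]
    exact (dl_mul_true u γ (e v) (X v) i j).symm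

theorem colsS_mul_dl (X : ∀ v, Matrix a (β v × Bool) α) :
    colsS X * dl u γ (fun i : Σ v, β v => e i.1 i.2) = colsS fun v => X v * dl u γ (e v) := by
  ext j ⟨⟨v, i⟩, s⟩
  cases s
  · rw [mul_dl_false]
    exact (mul_dl_false u γ (e v) (X v) j i).symm
  · rw [mul_dl_true]
    exact (mul_dl_true u γ (e v) (X v) j i).symm

end Blocks

theorem PairD.NF.VV {K L ι : Type} [CommRing K] [CommRing L] [Fintype ι] [DecidableEq ι] {q : ℕ}
    {P : PairD K L q} {p : ι → Bool} {D : Matrix ι ι K} {γ : K} {κ : ℕ} {am : ℤ}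
    (N : P.NF p D γ κ am) : MemM (fil P.π P.Bp (q - 2 * κ)) (N.V * N.V' - 1) := by
  have h := N.UV.mul N.UV'
  rw [N.UU'] at h
  exact (h.uniq ((PairD.TM.one P).anti (by omega))).lvl (by ring)

/-- The corrected transition matrix between two normal forms of the same matrix. -/
theorem exists_trans {K L K₁ L₁ K₂ L₂ ι : Type} [CommRing K] [CommRing L] [CommRing K₁]
    [CommRing L₁] [CommRing K₂] [CommRing L₂] [Fintype ι] [DecidableEq ι] {q : ℕ}
    {P : PairD K L q} {P₁ : PairD K₁ L₁ q} {P₂ : PairD K₂ L₂ q} (f₁ : P₁.Hom P) (f₂ : P₂.Hom P)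
    {p : ι → Bool} {D₁ : Matrix ι ι K₁} {D₂ : Matrix ι ι K₂} {γ₁ : K₁} {γ₂ : K₂} {κ : ℕ} {am : ℤ}
    (N₁ : P₁.NF p D₁ γ₁ κ am) (N₂ : P₂.NF p D₂ γ₂ κ am) (hD : D₁.map f₁.φ = D₂.map f₂.φ)
    {γ : K} {γ' : L} (h₁ : f₁.φ γ₁ = γ) (h₂ : f₂.φ γ₂ = γ) {C e : ℕ} (hγ : P.Dec C γ γ' e)
    (ham : 2 * am ≤ C) :
    ∃ Z, EvenM (bpar N₁.pb) (bpar N₂.pb) Z ∧ Z * dl P.π γ' N₂.a = dl P.π γ' N₁.a * Z ∧
      MemM (fil P.π P.Bp (q - 2 * κ - 2)) (Z - N₁.V'.map f₁.ψ * N₂.V.map f₂.ψ) := by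
  refine PairD.corr (X := N₁.U'.map f₁.φ * N₂.U.map f₂.φ) hγ
    (fun b b' => by have := N₁.a_le b; have := N₂.a_le b'; omega)
    (((f₁.TM N₁.UV').mul (f₂.TM N₂.UV)).lvl (by ring))
    ((N₁.evV'.map (map_zero _)).mul (N₂.evV.map (map_zero _))) ?_
  have e₁ := congrArg (·.map f₁.φ) N₁.UD
  have e₂ := congrArg (·.map f₂.φ) N₂.DU
  simp only [Matrix.map_mul, dl_map _ f₁.φϖ, dl_map _ f₂.φϖ, h₁, h₂] at e₁ e₂
  rw [Matrix.mul_assoc, ← e₂, ← hD, ← Matrix.mul_assoc, e₁, Matrix.mul_assoc]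

/-- Normal forms on the pieces of a cover give a global exact lift. -/
theorem Cov₂.lift {V A : Type} [Fintype V] [DecidableEq V] [CommRing A] {Av : V → Type}
    [∀ v, CommRing (Av v)] {Aw : V → V → Type} [∀ v v', CommRing (Aw v v')] {B : Bdd A}
    {Bv : ∀ v, Bdd (Av v)} {Bw : ∀ v v', Bdd (Aw v v')} {r : ∀ v, A →+* Av v}
    {r₁ : ∀ v v', Av v →+* Aw v v'} {r₂ : ∀ v v', Av v' →+* Aw v v'}
    (𝒞 : Cov₂ B Bv Bw r r₁ r₂) {K L : V → Type} [∀ v, CommRing (K v)] [∀ v, CommRing (L v)]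
    {q : ℕ} {P : ∀ v, PairD (K v) (L v) q} {c : ∀ v, L v →+* Av v} {Kw Lw : V → V → Type}
    [∀ v v', CommRing (Kw v v')] [∀ v v', CommRing (Lw v v')]
    {Pw : ∀ v v', PairD (Kw v v') (Lw v v') q} (𝒬 : PCov Bv Bw r₁ r₂ P c Pw)
    {ι : Type} [Fintype ι] [DecidableEq ι] {p : ι → Bool} {D : ∀ v, Matrix ι ι (K v)}
    {γ : ∀ v, K v} {γ' : ∀ v, L v} {γt : A} {κ C : ℕ} {am : ℤ}
    (hD : ∀ v v', (D v).map (𝒬.f₁ v v').φ = (D v').map (𝒬.f₂ v v').φ)
    (hγ : ∀ v v', (𝒬.f₁ v v').φ (γ v) = (𝒬.f₂ v v').φ (γ v'))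
    (hdec : ∀ v, ∃ e, (P v).Dec C (γ v) (γ' v) e) (hγt : ∀ v, c v (γ' v) = r v γt)
    (ham : 2 * am ≤ C) (hq : 10 * κ + 3 ≤ q) (N : ∀ v, (P v).NF p (D v) (γ v) κ am) :
    ∃ Dt : Matrix ι ι A, OddM p p Dt ∧ Dt * Dt = γt • (1 : Matrix ι ι A) ∧
      ∀ v, Nonempty (Loc (P v) (Bv v) (c v) p (D v) (γ v) (Dt.map (r v)) (r v γt) κ
        (q - 11 * κ - 2) am) := by
  choose ex hex using hdec
  choose Z₁ z₁ z₂ z₃ using fun v v' => exists_trans (𝒬.f₂ v v') (𝒬.f₁ v v') (N v') (N v)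
    (hD v v').symm (hγ v v').symm rfl ((𝒬.f₁ v v').Dec (hex v)) ham
  choose Z₂ y₁ y₂ y₃ using fun v v' => exists_trans (𝒬.f₁ v v') (𝒬.f₂ v v') (N v) (N v')
    (hD v v') rfl (hγ v v').symm ((𝒬.f₁ v v').Dec (hex v)) ham
  let pb : (Σ v, (N v).β) → Bool := fun i => (N i.1).pb i.2
  let a : (Σ v, (N v).β) → ℤ := fun i => (N i.1).a i.2
  let cV := fun v => (N v).V.map (c v)
  let cV' := fun v => (N v).V'.map (c v)
  let J := fun v => rowsS fun v' => ((Z₁ v v').map (𝒬.cw v v')).map (𝒞.ha v v').g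
  let J' := fun v => colsS fun v' => ((Z₂ v v').map (𝒬.cw v v')).map (𝒞.hb v v').g
  let io := rowsS fun v => (cV' v).map (𝒞.ga v).g
  let ro := colsS fun v => (cV v).map (𝒞.gb v).g
  let e := colsS fun v => (J v).map (𝒞.gb v).g
  have hdl : ∀ v v' {β : Type} [DecidableEq β] (a : β → ℤ),
      (dl (Bv v).π (r v γt) a).map (r₁ v v') =
        (dl (Pw v v').π ((𝒬.f₁ v v').ψ (γ' v)) a).map (𝒬.cw v v') := fun v v' β _ a => by
    rw [dl_map _ (𝒞.r₁π v v'), dl_map _ (𝒬.cstw v v').cπ, ← hγt, 𝒬.c₁]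
  have hJ : ∀ v, dl (Bv v).π (r v γt) a * J v = J v * dl (Bv v).π (r v γt) (N v).a := fun v => by
    rw [dl_mul_rowsS _ _ fun v => (N v).a, rowsS_mul]
    congr 1
    funext v'
    rw [← Gl.mul_left, ← Gl.mul_right, hdl, hdl, ← Matrix.map_mul, ← Matrix.map_mul, z₂]
  have hJ' : ∀ v, J' v * dl (Bv v).π (r v γt) a = dl (Bv v).π (r v γt) (N v).a * J' v := fun v => by
    rw [colsS_mul_dl _ _ fun v => (N v).a, mul_colsS]
    congr 1
    funext v'
    rw [← Gl.mul_left, ← Gl.mul_right, hdl, hdl, ← Matrix.map_mul, ← Matrix.map_mul, y₂]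
  have hc₁ : ∀ v v' {a b : Type} (X : Matrix a b (L v)), (X.map (c v)).map (r₁ v v') =
      (X.map (𝒬.f₁ v v').ψ).map (𝒬.cw v v') := fun v v' _ _ X => by
    ext i j
    exact 𝒬.c₁ v v' _
  have hc₂ : ∀ v v' {a b : Type} (X : Matrix a b (L v')), (X.map (c v')).map (r₂ v v') =
      (X.map (𝒬.f₂ v v').ψ).map (𝒬.cw v v') := fun v v' _ _ X => by
    ext i j
    exact 𝒬.c₂ v v' _
  have hJio : ∀ v, MemM (fil (Bv v).π (Bv v).Ap (q - 2 * κ - 2)) (J v - io.map (r v) * cV v) := by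
    rintro v ⟨⟨v', i⟩, s⟩ j
    have h1 : ((cV' v').map (𝒞.ga v').g).map (r v) =
        ((cV' v').map (r₂ v v')).map (𝒞.ha v v').g := by
      ext i j
      exact 𝒞.ga_ha v v' _
    have h2 := (𝒞.ha v v').mem ((z₃ v v').map _ (𝒬.cstw v v').cπ (𝒬.cstw v v').cB)
    rw [Matrix.map_sub _ (map_sub _), Matrix.map_mul, ← hc₁, ← hc₂, Gl.map_sub, Gl.mul_right,
      ← h1] at h2
    exact h2 (i, s) j
  have hJro : ∀ v, MemM (fil (Bv v).π (Bv v).Ap (q - 2 * κ - 2)) (J' v - cV' v * ro.map (r v)) := by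
    rintro v j ⟨⟨v', i⟩, s⟩
    have h1 : ((cV v').map (𝒞.gb v').g).map (r v) =
        ((cV v').map (r₂ v v')).map (𝒞.hb v v').g := by
      ext i j
      exact 𝒞.gb_hb v v' _
    have h2 := (𝒞.hb v v').mem ((y₃ v v').map _ (𝒬.cstw v v').cπ (𝒬.cstw v v').cB)
    rw [Matrix.map_sub _ (map_sub _), Matrix.map_mul, ← hc₁, ← hc₂, Gl.map_sub, Gl.mul_left,
      ← h1] at h2
    exact h2 j (i, s)
  have bV : ∀ v, MemM (fil (Bv v).π (Bv v).Ap (-κ)) (cV v) := fun v =>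
    (N v).UV.snd.map _ (𝒬.cst v).cπ (𝒬.cst v).cB
  have bV' : ∀ v, MemM (fil (Bv v).π (Bv v).Ap (-κ)) (cV' v) := fun v =>
    (N v).UV'.snd.map _ (𝒬.cst v).cπ (𝒬.cst v).cB
  have bio : MemM (fil B.π B.Ap (-κ)) io := fun i j => (𝒞.ga i.1.1).mem (bV' _) _ _
  have bro : MemM (fil B.π B.Ap (-κ)) ro := fun i j => (𝒞.gb j.1.1).mem (bV _) _ _
  have evJ : ∀ v, EvenM (bpar pb) (bpar (N v).pb) (J v) := fun v i j h =>
    ((z₁ v i.1.1).map (map_zero _)).map (map_zero _) _ _ h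
  have evJ' : ∀ v, EvenM (bpar (N v).pb) (bpar pb) (J' v) := fun v i j h =>
    ((y₁ v j.1.1).map (map_zero _)).map (map_zero _) _ _ h
  have evio : EvenM (bpar pb) p io := fun i j h =>
    ((N i.1.1).evV'.map (map_zero _)).map (map_zero _) _ _ h
  have evro : EvenM p (bpar pb) ro := fun i j h =>
    ((N j.1.1).evV.map (map_zero _)).map (map_zero _) _ _ h
  have eve : EvenM (bpar pb) (bpar pb) e := fun i j h => (evJ j.1.1).map (map_zero _) _ _ h
  have hδ : dl B.π γt a * e = e * dl B.π γt a := by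
    rw [colsS_mul_dl _ _ fun v => (N v).a, mul_colsS]
    congr 1
    funext v
    rw [← Gl.mul_left, ← Gl.mul_right, dl_map _ (𝒞.rπ v), dl_map _ (𝒞.rπ v), hJ]
  have h1 : MemM (fil B.π B.Ap (q - 2 * κ - 2)) (ro * io - 1) := by
    have e1 : (1 : Matrix ι ι A) = ∑ v, (𝒞.ga v).g 1 • (1 : Matrix ι ι (Av v)).map (𝒞.gb v).g := by
      have : ∀ v, (1 : Matrix ι ι (Av v)) = (1 : Matrix ι ι A).map (r v) := fun v =>
        (Matrix.map_one _ (map_zero _) (map_one _)).symm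
      simp only [this, Gl.map_r, smul_smul]
      rw [← Finset.sum_smul, 𝒞.sum, one_smul]
    rw [colsS_mul_rowsS, e1, ← Finset.sum_sub_distrib]
    refine MemM.sum _ fun v _ => ?_
    have e2 : ((cV' v).map (𝒞.ga v).g).map (r v) = r v ((𝒞.ga v).g 1) • cV' v := by
      ext i j
      exact 𝒞.ga_self v _
    rw [← Gl.mul_right, e2, Matrix.mul_smul, Gl.map_smul, ← smul_sub, ← Gl.map_sub]
    have h3 := (N v).VV.map _ (𝒬.cst v).cπ (𝒬.cst v).cB
    rw [Matrix.map_sub _ (map_sub _), Matrix.map_mul, Matrix.map_one _ (map_zero _) (map_one _)]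
      at h3
    exact (MemM.smul ((𝒞.ga v).bd 0 _ (one_mem_fil _ _)) ((𝒞.gb v).mem h3)).anti B.π_mem (by omega)
  have h2 : MemM (fil B.π B.Ap (q - 2 * κ - 2)) (io * ro - e) := by
    rintro j ⟨⟨v, i⟩, s⟩
    have h3 := (𝒞.gb v).mem (hJio v).neg
    rw [neg_sub, Gl.map_sub, Gl.mul_left] at h3
    exact h3 j (i, s)
  obtain ⟨Dt, t, s, E, d₁, d₂, evt, evs, d₃, d₄, d₅, d₆, bt, bs⟩ := B.idem_lift (γ := γt)
    (DD := dl B.π γt a * e) (l := κ) (by omega) (by omega) eve (oddM_mul_even (dl_odd _ _ _ pb) eve)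
    evio evro (by rw [← Matrix.mul_assoc, ← hδ]) (by
      rw [Matrix.mul_assoc, ← Matrix.mul_assoc e, ← hδ, Matrix.mul_assoc, ← Matrix.mul_assoc,
        dl_sq, Matrix.smul_mul, Matrix.one_mul]) bio bro h1 h2
  have hδE : t * E * (dl B.π γt a * e) = t * dl B.π γt a := by
    rw [hδ, ← Matrix.mul_assoc, d₄]
  have hEδ : dl B.π γt a * e * E * s = dl B.π γt a * s := by
    rw [Matrix.mul_assoc, Matrix.mul_assoc, ← Matrix.mul_assoc e, d₆]
  rw [hδE] at d₃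
  rw [hEδ] at d₅
  refine ⟨Dt, d₁, d₂, fun v => ?_⟩
  have hπ := (Bv v).π_mem
  have m : ∀ {a b : Type} {l : ℤ} {X : Matrix a b A}, MemM (fil B.π B.Ap l) X →
      MemM (fil (Bv v).π (Bv v).Ap l) (X.map (r v)) := fun h => h.map _ (𝒞.rπ v) (𝒞.rA v)
  have bt' := m bt
  have bs' := m bs
  have h1' := m h1
  rw [Matrix.map_sub _ (map_sub _)] at bt' bs' h1'
  rw [Matrix.map_mul, Matrix.map_one _ (map_zero _) (map_one _)] at h1'
  have bJ : MemM (fil (Bv v).π (Bv v).Ap (-(2 * κ))) (J v) :=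
    (((hJio v).anti hπ (by omega)).add (((m bio).mul (bV v)).lvl (by ring))).of_eq
      (sub_add_cancel _ _)
  have bJ' : MemM (fil (Bv v).π (Bv v).Ap (-(2 * κ))) (J' v) :=
    (((hJro v).anti hπ (by omega)).add (((bV' v).mul (m bro)).lvl (by ring))).of_eq
      (sub_add_cancel _ _)
  refine ⟨⟨N v, t.map (r v) * J v, J' v * s.map (r v), (evt.map (map_zero _)).mul (evJ v),
    (evJ' v).mul (evs.map (map_zero _)), ?_, ?_, ?_, ?_⟩⟩
  · rw [← Matrix.mul_assoc, ← Matrix.map_mul, d₃, Matrix.map_mul, dl_map _ (𝒞.rπ v),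
      Matrix.mul_assoc, hJ, Matrix.mul_assoc]
  · rw [Matrix.mul_assoc, ← Matrix.map_mul, d₅, Matrix.map_mul, dl_map _ (𝒞.rπ v),
      ← Matrix.mul_assoc, hJ', Matrix.mul_assoc]
  · refine ((((bt'.mul bJ).lvl (by ring)).add (((m bro).mul (hJio v)).anti hπ (by omega))).add
      ((h1'.mul (bV v)).anti hπ (by omega))).of_eq ?_
    simp only [Matrix.sub_mul, Matrix.mul_sub, Matrix.mul_assoc, Matrix.one_mul]
    abel
  · refine ((((bJ'.mul bs').anti hπ (by omega)).add (((hJro v).mul (m bio)).anti hπ (by omega))).add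
      (((bV' v).mul h1').anti hπ (by omega))).of_eq ?_
    simp only [Matrix.sub_mul, Matrix.mul_sub, Matrix.mul_assoc, Matrix.mul_one]
    abel

end Pool.Agent.P.MP_f43029_ag.XL
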