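import Pool.Agent.P.MP_f43029_ag.XL.Ctx
import Pool.Agent.P.MP_f43029_ag.XL.LCov

/-!
Exact lifts: the cover of the cube by the stars of its vertices and the existence of global lifts.
-/

set_option autoImplicit false

noncomputable section

namespace Pool.Agent.P.MP_f43029_ag.XL

open Matrix

variable {n : ℕ} {K F : Type} [Field K] [Field F] [CharZero K] [CharZero F] [Algebra K F]
  {𝔸 : Amb n K F} {R : Type} [CommRing R] {q : ℕ} {J : Type}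

theorem vf_le_jn_left (v v' : J → Bool) : Face.le (vf v) (jn v v') := fun j => by
  by_cases h : v j = v' j
  · exact Or.inr (if_pos h)
  · exact Or.inl (if_neg h)

theorem vf_le_jn_right (v v' : J → Bool) : Face.le (vf v') (jn v v') := fun j => by
  by_cases h : v j = v' j
  · exact Or.inr ((if_pos h).trans (congrArg some h))
  · exact Or.inl (if_neg h)

theorem St_anti {σ σ' : Face J} (h : σ.le σ') : St σ' ⊆ St σ := fun τ hτ j => by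
  rcases hτ j with h₁ | h₁
  · exact Or.inl h₁
  · rw [h₁]
    exact h j

theorem coe_incl {B B' : 𝔸.Cel} (h : B ≤ B') (y : 𝔸.loc B.1) : (𝔸.incl h y : F) = y :=
  Subring.coe_inclusion (Amb.loc_mono h) y

namespace Amb.Sys

variable {𝔅 𝔅' : 𝔸.Sys J}

theorem on_le_on' (l : 𝔅 ≤ 𝔅') {s s' : Set (Face J)} (h : s' ⊆ s) : 𝔅.on s ≤ 𝔅'.on s' := fun σ => by
  by_cases hσ : σ ∈ s'
  · rw [on_B _ hσ, on_B _ (h hσ)]
    exact l σ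
  · rw [on_B_top _ hσ]
    exact le_top

/-- Gluing as an abstract extension by zero. -/
def glOf (l : 𝔅 ≤ 𝔅') (P : MvPolynomial J ℤ) (h : ∀ σ, rC ℤ σ P = 0 ∨ 𝔅'.B σ ≤ 𝔅.B σ) :
    Gl 𝔅.bdd 𝔅'.bdd (mpA l) where
  g := gl P h
  mul := gl_mul P h l
  bd _ _ hy := gl_fil P h hy

theorem gl_cond (𝔅 : 𝔸.Sys J) {s : Set (Face J)} {P : MvPolynomial J ℤ}
    (hP : ∀ σ, σ ∉ s → rC ℤ σ P = 0) (σ : Face J) : rC ℤ σ P = 0 ∨ (𝔅.on s).B σ ≤ 𝔅.B σ := by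
  by_cases hσ : σ ∈ s
  · exact Or.inr (on_B _ hσ).le
  · exact Or.inl (hP σ hσ)

theorem gl_cond₂ (𝔅 : 𝔸.Sys J) {s s' t : Set (Face J)} {P : MvPolynomial J ℤ}
    (hP : ∀ σ, σ ∉ s' → rC ℤ σ P = 0) (ht : ∀ σ, σ ∈ s → σ ∈ s' → σ ∈ t) (σ : Face J) :
    rC ℤ σ P = 0 ∨ (𝔅.on t).B σ ≤ (𝔅.on s).B σ := by
  by_cases hσ : σ ∈ s'
  · refine Or.inr ?_
    by_cases hσ' : σ ∈ s
    · rw [on_B _ hσ', on_B _ (ht σ hσ' hσ)]
    · rw [on_B_top _ hσ']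
      exact le_top
  · exact Or.inl (hP σ hσ)

variable [Fintype J] [DecidableEq J]

/-- The cover by the stars of the vertices. -/
def cov₁ (𝔅 : 𝔸.Sys J) :
    Cov₁ 𝔅.bdd (fun v : J → Bool => (𝔅.on (St (vf v))).bdd) fun v => 𝔅.rs (vf v) where
  g v := glOf (𝔅.le_on _) (lam ℤ v) (𝔅.gl_cond fun _ => rC_lam)
  sum := by
    simp only [glOf, gl_one]
    rw [← map_sum, sum_lam, map_one]

/-- The cover by the stars of the vertices with its double overlaps. -/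
def cov₂ (𝔅 : 𝔸.Sys J) :
    Cov₂ 𝔅.bdd (fun v : J → Bool => (𝔅.on (St (vf v))).bdd) (fun v v' => (𝔅.on (St (jn v v'))).bdd)
      (fun v => 𝔅.rs (vf v)) (fun v v' => mpA (on_le_on' 𝔅.le_refl' (St_anti (vf_le_jn_left v v'))))
      fun v v' => mpA (on_le_on' 𝔅.le_refl' (St_anti (vf_le_jn_right v v'))) where
  rπ _ := mpA_π _
  rA _ _ := mpA_Ap _
  r₁π _ _ := mpA_π _
  rr _ _ _ := (mpA_mpA _ _ (𝔅.le_on _) _).trans (mpA_mpA _ _ (𝔅.le_on _) _).symm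
  ga v := glOf (𝔅.le_on _) (lam ℤ v) (𝔅.gl_cond fun _ => rC_lam)
  gb v := glOf (𝔅.le_on _) (lamb ℤ v) (𝔅.gl_cond fun _ => rC_lamb)
  ha v v' := glOf _ (lam ℤ v')
    (𝔅.gl_cond₂ (fun _ => rC_lam) fun _ h h' => mem_St_jn.mpr ⟨h, h'⟩)
  hb v v' := glOf _ (lamb ℤ v')
    (𝔅.gl_cond₂ (fun _ => rC_lamb) fun _ h h' => mem_St_jn.mpr ⟨h, h'⟩)
  ga_self v y := by
    have h := fun z => mpA_gl (lam ℤ v) (𝔅.gl_cond fun _ => rC_lam) (fun _ => Or.inr le_rfl)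
      (𝔅.le_on (St (vf v))) (le_refl' _) z
    refine (h y).trans (Eq.trans ?_ (congrArg (· * y) (h 1)).symm)
    rw [map_one, mul_comm, ← gl_mul _ _ (le_refl' _), mul_one]
  ga_ha _ _ _ := mpA_gl _ (𝔅.gl_cond fun _ => rC_lam)
    (𝔅.gl_cond₂ (fun _ => rC_lam) fun _ h h' => mem_St_jn.mpr ⟨h, h'⟩) _ _ _
  gb_hb _ _ _ := mpA_gl _ (𝔅.gl_cond fun _ => rC_lamb)
    (𝔅.gl_cond₂ (fun _ => rC_lamb) fun _ h h' => mem_St_jn.mpr ⟨h, h'⟩) _ _ _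
  sum := by
    simp only [glOf, gl_one, ← map_mul]
    rw [← map_sum, sum_lam_lamb, map_one]

omit [DecidableEq J] in
theorem Nice.cst_ok (𝒬 : PSys 𝔸 R q) (h : 𝔅.Nice) (σ : Face J) :
    Cst (𝒬.P (h.cel σ)) (𝔅.on (St σ)).bdd (h.cst σ) where
  cπ := by
    rw [𝒬.P_π]
    exact cF_π _ _
  cB y hy := by
    rw [𝒬.P_Bp] at hy
    exact cF_Bplus (𝔅.V_le σ) _ hy

omit [Fintype J] in
theorem Nice.upd (h : 𝔅.Nice) (j : J) (b : Bool) : (𝔅.upd j b).Nice where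
  base _ := h.base _
  mono σ σ' l := h.mono _ _ fun i => by
    by_cases hi : i = j
    · subst hi
      simp
    · simpa [Function.update_of_ne hi] using l i

omit [Fintype J] [DecidableEq J] in
theorem Nice.rs_c (h : 𝔅.Nice) (σ : Face J) (y : 𝔸.loc (𝔸.cell ∅)) :
    h.cst σ (𝔸.incl (B := 𝔸.c0) (B' := h.cel σ) (h.base σ) y) = 𝔅.rs σ (h.c y) :=
  (mpA_cF (𝔅.le_on _) h.base (h.le_star σ) y _
    (coe_incl (B := 𝔸.c0) (B' := h.cel σ) (h.base σ) y).symm).symm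

omit [Fintype J] [DecidableEq J] in
theorem Nice.mp_cst (h : 𝔅.Nice) (h' : 𝔅'.Nice) {σ σ' : Face J} (l : h.cel σ ≤ h'.cel σ')
    (l' : 𝔅.on (St σ) ≤ 𝔅'.on (St σ')) (y : 𝔸.loc (𝔅.B σ)) :
    mpA l' (h.cst σ y) = h'.cst σ' (𝔸.incl l y) :=
  mpA_cF l' (h.le_star σ) (h'.le_star σ') y _ (coe_incl l y).symm

/-- The pairs over the stars of the vertices. -/
def Nice.pcov (𝒬 : PSys 𝔸 R q) (h : 𝔅.Nice) :
    PCov (fun v : J → Bool => (𝔅.on (St (vf v))).bdd) (fun v v' => (𝔅.on (St (jn v v'))).bdd)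
      (fun v v' => mpA (on_le_on' 𝔅.le_refl' (St_anti (vf_le_jn_left v v'))))
      (fun v v' => mpA (on_le_on' 𝔅.le_refl' (St_anti (vf_le_jn_right v v'))))
      (fun v => 𝒬.P (h.cel (vf v))) (fun v => h.cst (vf v)) fun v v' => 𝒬.P (h.cel (jn v v')) where
  f₁ v v' := 𝒬.hom (h.mono _ _ (vf_le_jn_left v v'))
  f₂ v v' := 𝒬.hom (h.mono _ _ (vf_le_jn_right v v'))
  cw v v' := h.cst (jn v v')
  cst _ := h.cst_ok 𝒬 _
  cstw _ _ := h.cst_ok 𝒬 _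
  c₁ v v' := h.mp_cst h (h.mono _ _ (vf_le_jn_left v v')) _
  c₂ v v' := h.mp_cst h (h.mono _ _ (vf_le_jn_right v v')) _

end Amb.Sys

theorem PSys.mp_r (𝒬 : PSys 𝔸 R q) {B B' : 𝔸.Cel} (h : B ≤ B') (y : 𝒬.KK 𝔸.c0) :
    𝒬.mp h (𝒬.r B y) = 𝒬.r B' y := 𝒬.mp_mp _ _ _

variable [Fintype J] [DecidableEq J] {𝔅 : 𝔸.Sys J} {𝒬 : PSys 𝔸 R q} {ι : Type} [Fintype ι]
  [DecidableEq ι] {p : ι → Bool} {D : Matrix ι ι (𝒬.KK 𝔸.c0)} {γ : 𝒬.KK 𝔸.c0}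
  {γ₀ : 𝔸.loc (𝔸.cell ∅)} {κ : ℕ} {am : ℤ}

theorem lift_exists' (h : 𝔅.Nice) {C : ℕ} (hγ : Pot 𝒬 h C γ γ₀) (ham : 2 * am ≤ C)
    (hq : 10 * κ + 3 ≤ q)
    (hN : ∀ v : J → Bool,
      Nonempty ((𝒬.P (h.cel (vf v))).NF p (D.map (𝒬.r _)) (𝒬.r _ γ) κ am)) :
    ∃ Dt, Lift 𝒬 h p D γ γ₀ Dt κ (q - 11 * κ - 2) am := by
  obtain ⟨Dt, h₁, h₂, h₃⟩ := 𝔅.cov₂.lift (h.pcov 𝒬) (γt := h.c γ₀)
    (fun v v' => by
      ext i j
      exact (𝒬.mp_r _ _).trans (𝒬.mp_r _ _).symm)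
    (fun v v' => (𝒬.mp_r _ _).trans (𝒬.mp_r _ _).symm) hγ (fun v => h.rs_c _ _) ham hq
    fun v => (hN v).some
  exact ⟨Dt, h₁, h₂, h₃⟩

theorem lift_exists (h : 𝔅.Nice) {C : ℕ} (hγ : Pot 𝒬 h C γ γ₀) (ham : 2 * am ≤ C)
    (hq : 15 * κ + 3 ≤ q)
    (hN : ∀ v : J → Bool,
      Nonempty ((𝒬.P (h.cel (vf v))).NF p (D.map (𝒬.r _)) (𝒬.r _ γ) κ am)) :
    ∃ Dt, Lift 𝒬 h p D γ γ₀ Dt κ (q - 15 * κ - 2) am := by
  obtain ⟨Dt, h₁, h₂, h₃⟩ := lift_exists' h hγ ham (by omega) hN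
  refine ⟨Dt, h₁, h₂, fun v => ?_⟩
  obtain ⟨X⟩ := h₃ v
  exact ⟨{ X with
    YV := X.YV.anti (Bdd.π_mem _) (by omega)
    YV' := X.YV'.anti (Bdd.π_mem _) (by omega) }⟩

end Pool.Agent.P.MP_f43029_ag.XL
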