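import Pool.Agent.P.MP_f43029_ag.XL.LGaussB

/-!
Gaussian elimination: existence of normal forms.
-/

set_option autoImplicit false
set_option linter.unusedSectionVars false
set_option linter.unusedVariables false

noncomputable section

namespace Pool.Agent.P.MP_f43029_ag.XL

open Matrix

section

variable {K ι : Type} [CommRing K] [Fintype ι] [DecidableEq ι]

/-- The empty normal form. -/
def KNF.empty (u : Kˣ) (G : Subring K) (p : ι → Bool) {e : Matrix ι ι K} (he : e = 0)
    (D : Matrix ι ι K) (γ : K) (κ am : ℤ) : KNF u G p e D γ κ am where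
  β := Empty
  pb := fun b => b.elim
  a := fun b => b.elim
  a_le := fun b => b.elim
  U := 0
  U' := 0
  evU := fun _ _ _ => rfl
  evU' := fun _ _ _ => rfl
  mU := fun _ _ => zero_mem _
  mU' := fun _ _ => zero_mem _
  UU' := by rw [he, Matrix.zero_mul]
  DU := by rw [Matrix.zero_mul, Matrix.mul_zero]
  UD := by rw [Matrix.zero_mul, Matrix.mul_zero]

theorem eI_conj (I : Finset ι) (X : Matrix ι ι K) {i j : ι} (hi : i ∈ I) (hj : j ∈ I) :
    (eI K I * X * eI K I) i j = X i j := by
  rw [eI, mul_diagonal, diagonal_mul, if_pos hi, if_pos hj, one_mul, mul_one]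

theorem eI_supp {I : Finset ι} {D : Matrix ι ι K} (h1 : eI K I * D = D) (h2 : D * eI K I = D)
    {i j : ι} (h : ¬(i ∈ I ∧ j ∈ I)) : D i j = 0 := by
  by_cases hi : i ∈ I
  · have hj : j ∉ I := fun hj => h ⟨hi, hj⟩
    rw [← h2, eI, mul_diagonal, if_neg hj, mul_zero]
  · rw [← h1, eI, diagonal_mul, if_neg hi, zero_mul]

theorem pivot_entry (D : Matrix ι ι K) (k l i j : ι) (d : K) :
    (D - D * single l k d * D) i j = D i j - D i l * d * D k j := by
  rw [Matrix.sub_apply, Matrix.mul_apply, Finset.sum_eq_single k]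
  · rw [mul_single_apply_same]
  · intro b _ hb
    rw [mul_single_apply_of_ne _ _ _ _ _ hb, zero_mul]
  · exact fun h => absurd (Finset.mem_univ _) h

end

/-- The size of `y` is known on one side. -/
def KDec {K : Type} [CommRing K] (u : Kˣ) (G : Subring K) (C : ℕ) (y : K) (e : ℕ) : Prop :=
  e ≤ C ∧ y ∈ fil u G e ∧ (e < C → ∃ z, y * z = 1 ∧ z ∈ fil u G (-(e : ℤ) - 2))

/-- The statement proved by induction. -/
def GaussAt {R ι : Type} [CommRing R] [Fintype ι] [DecidableEq ι] (n : ℕ) (I : Finset ι)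
    (Ds : Matrix ι ι R) (s : R) (A0 : Finset R) : Prop :=
  ∀ (K : Type) [CommRing K] (u : Kˣ) (G S : Subring K) (φ : R →+* K) (C B : ℕ) (p : ι → Bool)
    (w : ι → ℤ) (D h : Matrix ι ι K) (γ z : K), G ≤ S → (u : K) ∈ G →
    ((1 : K) ∈ fil u S 1 → (1 : K) = 0) → (∀ a ∈ A0, ∃ e, KDec u G C (φ a) e) → OddM p p D →
    eI K I * D = D → D * eI K I = D → D * D = γ • eI K I → D * h + h * D = eI K I →
    MemM (fil u S (-(B : ℤ))) h → (∀ i j, w i - w j ≤ B) →
    (∀ i ∈ I, ∀ j ∈ I, φ s * D i j = ((u ^ (w j - w i) : Kˣ) : K) * φ (Ds i j)) →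
    φ s * z = 1 → z ∈ fil u S (-(B : ℤ)) → 2 ^ (n + 1) * (B + 3) ≤ C →
    Nonempty (KNF u G p (eI K I) D γ (2 * n) (2 ^ n * (B + 3)))

theorem gauss {R ι : Type} [CommRing R] [Fintype ι] [DecidableEq ι] (n : ℕ) :
    ∀ (I : Finset ι), I.card ≤ n → ∀ (Ds : Matrix ι ι R) (s : R),
      ∃ A0 : Finset R, GaussAt n I Ds s A0 := by
  classical
  induction n using Nat.strong_induction_on with
  | _ n ih =>
    intro I hI Ds s
    have key : ∀ x : ι × ι, ∃ A1 : Finset R, x.1 ∈ I → x.2 ∈ I → x.1 ≠ x.2 →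
        GaussAt (n - 2) ((I.erase x.1).erase x.2)
        (Matrix.of fun i j => Ds x.1 x.2 * Ds i j - Ds i x.2 * Ds x.1 j) (s * Ds x.1 x.2) A1 := by
      intro x
      by_cases hx : x.1 ∈ I ∧ x.2 ∈ I ∧ x.1 ≠ x.2
      · have h1 := Finset.card_erase_of_mem hx.1
        have h2 := Finset.card_erase_of_mem (Finset.mem_erase.2 ⟨hx.2.2.symm, hx.2.1⟩)
        have h3 := Finset.card_pos.2 ⟨_, hx.1⟩
        obtain ⟨A1, h1⟩ := ih (n - 2) (by omega) ((I.erase x.1).erase x.2) (by omega)
          (Matrix.of fun i j => Ds x.1 x.2 * Ds i j - Ds i x.2 * Ds x.1 j) (s * Ds x.1 x.2)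
        exact ⟨A1, fun _ _ _ => h1⟩
      · exact ⟨∅, fun h h' h'' => absurd ⟨h, h', h''⟩ hx⟩
    choose A1 hA1 using key
    refine ⟨insert s (Finset.univ.biUnion fun x : ι × ι => insert (Ds x.1 x.2) (A1 x)), ?_⟩
    intro K _ u G S φ C B p w D h γ z hGS hu hjac hdec hodd h1 h2 h3 hh mh hw hD hz mz hC
    have huS : (u : K) ∈ S := hGS hu
    by_cases h10 : (1 : K) = 0
    · have : Subsingleton K := subsingleton_of_zero_eq_one h10.symm
      exact ⟨KNF.empty u G p (Subsingleton.elim _ _) D γ _ _⟩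
    have hnt : ∀ a : ℤ, (1 : K) ∈ fil u S a → a ≤ 0 := fun a ha => by
      by_contra hlt
      exact h10 (hjac (fil_anti huS (by omega) ha))
    rcases I.eq_empty_or_nonempty with rfl | ⟨i0, hi0⟩
    · exact ⟨KNF.empty u G p (by simp [eI]) D γ _ _⟩
    have hC4 : 4 * (B + 3) ≤ C := by
      have h3 := Finset.card_pos.2 ⟨_, hi0⟩
      have : 2 ^ 2 ≤ 2 ^ (n + 1) := Nat.pow_le_pow_right (by norm_num) (by omega)
      exact (Nat.mul_le_mul_right _ this).trans hC
    obtain ⟨es, -, ms, hs⟩ := hdec s (Finset.mem_insert_self _ _)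
    have hes : (es : ℤ) ≤ B := by
      have := fil_mul (fil_mono u hGS _ ms) mz
      rw [hz] at this
      have := hnt _ this
      omega
    obtain ⟨z', hz', mz'⟩ := hs (by omega)
    obtain rfl : z' = z := by
      calc z' = z' * (φ s * z) := by rw [hz, mul_one]
        _ = z := by rw [← mul_assoc, mul_comm z', hz', one_mul]
    have hent : ∀ x : ι × ι, ∃ e, KDec u G C (φ (Ds x.1 x.2)) e := fun x =>
      hdec _ (Finset.mem_insert_of_mem
        (Finset.mem_biUnion.2 ⟨x, Finset.mem_univ _, Finset.mem_insert_self _ _⟩))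
    choose ee hee using hent
    obtain ⟨⟨k, l⟩, hkl, hmin⟩ := Finset.exists_min_image (I ×ˢ I)
      (fun x : ι × ι => w x.2 - w x.1 + ee x) ⟨(i0, i0), Finset.mem_product.2 ⟨hi0, hi0⟩⟩
    obtain ⟨hk, hl⟩ := Finset.mem_product.1 hkl
    simp only at hk hl hmin
    have hDz : ∀ i ∈ I, ∀ j ∈ I, D i j = ((u ^ (w j - w i) : Kˣ) : K) * φ (Ds i j) * z' :=
      fun i hi j hj => by rw [← hD i hi j hj, mul_right_comm, hz, one_mul]
    have mD : MemM (fil u G (w l - w k + ee (k, l) - es - 2)) D := fun i j => by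
      by_cases hij : i ∈ I ∧ j ∈ I
      · rw [hDz i hij.1 j hij.2]
        have := hmin (i, j) (Finset.mem_product.2 hij)
        exact fil_anti hu (by simp only at this; omega)
          (fil_mul (fil_mul (zpow_mem_fil u G _) (hee (i, j)).2.1) mz')
      · rw [eI_supp h1 h2 hij]
        exact zero_mem _
    have mDS := gmem_le (fil_mono u hGS _) mD
    have hE : w l - w k + ee (k, l) - es - 2 - B ≤ 0 := by
      apply hnt
      have h4 : (D * h + h * D) i0 i0 = 1 := by rw [hh, eI, diagonal_apply_eq, if_pos hi0]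
      rw [← h4, Matrix.add_apply]
      refine add_mem ?_ ?_
      · exact gmem_mul mDS mh i0 i0
      · have := gmem_mul mh mDS i0 i0
        rwa [add_comm] at this
    have hwkl := hw k l
    obtain ⟨zz, hzz, mzz⟩ := (hee (k, l)).2.2 (by omega)
    simp only at hzz
    have hd : D k l * (((u ^ (w k - w l) : Kˣ) : K) * zz * φ s) = 1 := by
      have h5 := zpow_val_neg u (w l - w k)
      rw [neg_sub] at h5
      rw [hDz k hk l hl]
      linear_combination (φ (Ds k l) * zz * (φ s * z')) * h5 + (φ s * z') * hzz + hz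
    set d := ((u ^ (w k - w l) : Kˣ) : K) * zz * φ s with hdd
    have md : d ∈ fil u G (-(w l - w k + ee (k, l) - es) - 2) :=
      fil_anti hu (by omega) (fil_mul (fil_mul (zpow_mem_fil u G _) mzz) ms)
    have hp : p k ≠ p l := fun hp => h10 (by rw [← hd, hodd k l hp, zero_mul])
    have hkl' : k ≠ l := fun h => hp (h ▸ rfl)
    have Rl := grel hk hl hkl' hodd h1 h2 h3 hd
    have hF := eI_erase (K := K) hk hl hkl'
    have oy : OddM p p (single l k d) := fun i j hij =>
      single_apply_of_ne _ _ _ _ _ fun h => hp (by rw [h.1, h.2, hij])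
    have my : MemM (fil u S (-(w l - w k + ee (k, l) - es) - 2)) (single l k d) := fun i j => by
      rw [single_apply]
      split_ifs
      exacts [fil_mono u hGS _ md, zero_mem _]
    have m1 : MemM (fil u S (-4)) (1 : Matrix ι ι K) := fun i j => by
      rw [Matrix.one_apply]
      split_ifs
      exacts [fil_anti huS (by norm_num) (one_mem_fil u S), zero_mem _]
    have mP : MemM (fil u S (-4)) ((1 - single l k d * D) * eI K ((I.erase k).erase l)) := by
      have := gmem_mul my mDS
      rw [show -(w l - w k + ee (k, l) - es) - 2 + (w l - w k + ee (k, l) - es - 2) = -4 by ring]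
        at this
      exact gmem_mul (gmem_sub m1 this) (eI_mem u S _)
    have mQ : MemM (fil u S (-4)) (eI K ((I.erase k).erase l) * (1 - D * single l k d)) := by
      have := gmem_mul mDS my
      rw [show w l - w k + ee (k, l) - es - 2 + (-(w l - w k + ee (k, l) - es) - 2) = -4 by ring]
        at this
      exact gmem_mul (eI_mem u S _) (gmem_sub m1 this)
    obtain ⟨m, rfl⟩ : ∃ m, n = m + 2 := by
      have := Finset.one_lt_card.2 ⟨k, hk, l, hl, hkl'⟩
      exact ⟨n - 2, by omega⟩
    have hC' : 2 ^ (m + 1) * (4 * B + 9 + 3) ≤ C := by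
      calc 2 ^ (m + 1) * (4 * B + 9 + 3) = 2 ^ (m + 2 + 1) * (B + 3) := by ring
        _ ≤ C := hC
    obtain ⟨N⟩ := hA1 (k, l) hk hl hkl' K u G S φ C (4 * B + 9) p w
      (eI K ((I.erase k).erase l) * (D - D * single l k d * D) * eI K ((I.erase k).erase l))
      (eI K ((I.erase k).erase l) * (1 - D * single l k d) * h *
        ((1 - single l k d * D) * eI K ((I.erase k).erase l))) γ (z' * zz) hGS hu hjac
      (fun a ha => hdec a (Finset.mem_insert_of_mem
        (Finset.mem_biUnion.2 ⟨(k, l), Finset.mem_univ _, Finset.mem_insert_of_mem ha⟩)))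
      (godd_ev (gev_odd (eI_even p _) (godd_sub hodd (gev_odd (godd_mul hodd oy) hodd)))
        (eI_even p _))
      (by rw [← hF]; exact Rl.FD' _) (by rw [← hF]; exact Rl.D'F _)
      (by
        have := Rl.D'D'
        rw [hF, smul_mul_assoc, one_mul] at this
        exact this)
      (by
        have := Rl.contr hh
        rw [hF] at this
        exact this)
      (gmem_le (fil_anti huS (by push_cast; omega)) (gmem_mul (gmem_mul mQ mh) mP))
      (fun i j => (hw i j).trans (by push_cast; omega))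
      (fun i hi j hj => by
        have hi' : i ∈ I := Finset.mem_of_mem_erase (Finset.mem_of_mem_erase hi)
        have hj' : j ∈ I := Finset.mem_of_mem_erase (Finset.mem_of_mem_erase hj)
        have e1 : ((u ^ (w j - w i) : Kˣ) : K) = ((u ^ (w l - w i) : Kˣ) : K) *
            ((u ^ (w k - w l) : Kˣ) : K) * ((u ^ (w j - w k) : Kˣ) : K) := by
          rw [← zpow_val_add, ← zpow_val_add]
          congr 2
          ring
        rw [eI_conj _ _ hi hj, pivot_entry, Matrix.of_apply, map_sub, map_mul, map_mul, map_mul]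
        have a1 := hD i hi' j hj'
        have a2 := hD i hi' l hl
        have a3 := hD k hk j hj'
        simp only
        rw [hdd]
        rw [e1] at a1 ⊢
        linear_combination φ (Ds k l) * a1 -
          (((u ^ (w k - w l) : Kˣ) : K) * (φ s * D i l) * (φ s * D k j)) * hzz -
          (((u ^ (w k - w l) : Kˣ) : K) * (φ s * D k j)) * a2 -
          (((u ^ (w k - w l) : Kˣ) : K) * ((u ^ (w l - w i) : Kˣ) : K) * φ (Ds i l)) * a3)
      (by
        simp only [map_mul]
        linear_combination (φ (Ds k l) * zz) * hz + hzz)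
      (fil_anti huS (by push_cast; omega) (fil_mul mz (fil_mono u hGS _ mzz))) hC'
    have hN := KNF.step hu hk hl hp hodd h1 h2 h3 hd (e := w l - w k + ee (k, l) - es)
      (by positivity) (by
        have h6 : (1 : ℤ) ≤ 2 ^ m := one_le_pow₀ (by norm_num)
        have h7 : (4 * (B : ℤ) + 9 + 3) ≤ 2 ^ m * (4 * (B : ℤ) + 9 + 3) :=
          le_mul_of_one_le_left (by positivity) h6
        push_cast
        omega) mD md N
    refine ⟨?_⟩
    convert hN using 1
    · simp only [Nat.add_sub_cancel]; push_cast; ring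
    · simp only [Nat.add_sub_cancel]; push_cast; ring

namespace PairD

/-- Normal forms exist on decided cells. -/
theorem nf_exists {R : Type} [CommRing R] (r : ℕ) (ι : Type) [Fintype ι] [DecidableEq ι]
    (hr : Fintype.card ι ≤ r) (p : ι → Bool) (D₀ : Matrix ι ι R) (ho : OddM p p D₀) (s : R) :
    ∃ A₀ : Finset R, ∀ {K L : Type} [CommRing K] [CommRing L] {q : ℕ} (P : PairD K L q)
      (φ : R →+* K) (H : R → L) (C b : ℕ), 2 ≤ q → 1 ≤ b → 16 ^ (r + 1) * b ≤ C →
      (∀ a ∈ A₀, ∃ e, P.Dec C (φ a) (H a) e) →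
      ∀ (w : ι → ℤ), (∀ i, |w i| ≤ b) → ∀ s' : K, φ s * s' = 1 → s' ∈ fil P.ϖ P.S (-(b : ℤ)) →
      ∀ (γ : K) (D h : Matrix ι ι K),
        (∀ i j, D i j = ((P.ϖ ^ (w j - w i) : Kˣ) : K) * φ (D₀ i j) * s') →
        D * D = γ • (1 : Matrix ι ι K) → MemM (fil P.ϖ P.S (-(b : ℤ))) h → D * h + h * D = 1 →
        Nonempty (P.NF p D γ (2 * r) ((16 ^ r * b : ℕ) : ℤ)) := by
  classical
  obtain ⟨A0, hA⟩ := gauss r (Finset.univ : Finset ι) hr D₀ s
  refine ⟨A0, ?_⟩
  intro K L _ _ q P φ Ht C b _ hb hC hdec w hw z hz mz γ D h hD h3 mh hh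
  have he : eI K (Finset.univ : Finset ι) = 1 := by simp [eI]
  have huS : (P.ϖ : K) ∈ P.S := P.fst_mem _ P.u_mem
  have hT : ∀ (a : ℤ) (y : K),
      y ∈ fil P.ϖ (P.Γ.map (RingHom.fst K L)) a ↔ ∃ y', (y, y') ∈ P.T a := by
    intro a y
    constructor
    · rintro ⟨⟨y1, y2⟩, h1, h2⟩
      refine ⟨((P.π ^ a : Lˣ) : L) * y2, PairD.mem_T.2 ?_⟩
      rw [← mul_assoc, zpow_val_neg', one_mul, ← h2]
      exact h1
    · rintro ⟨y', h1⟩
      exact ⟨_, PairD.mem_T.1 h1, rfl⟩
  have h16 : ∀ m : ℕ, 2 ^ (m + 1) * (2 * b + 3) ≤ 16 ^ (m + 1) * b := fun m => by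
    have h1 : 8 ^ 1 ≤ 8 ^ (m + 1) := Nat.pow_le_pow_right (by norm_num) (by omega)
    calc 2 ^ (m + 1) * (2 * b + 3) ≤ 2 ^ (m + 1) * (8 ^ (m + 1) * b) :=
          Nat.mul_le_mul_left _ (by nlinarith)
      _ = 16 ^ (m + 1) * b := by rw [← mul_assoc, ← mul_pow]; norm_num
  have hN : ∃ N : KNF P.ϖ (P.Γ.map (RingHom.fst K L)) p (eI K Finset.univ) D γ (2 * r)
      (2 ^ r * (((2 * b : ℕ) : ℤ) + 3)), ∀ x, N.a x ≤ ((16 ^ r * b : ℕ) : ℤ) := by
    rcases r with _ | r
    · have : IsEmpty ι := Fintype.card_eq_zero_iff.1 (Nat.le_zero.1 hr)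
      exact ⟨KNF.empty _ _ p (Subsingleton.elim _ _) D γ _ _, fun x => x.elim⟩
    obtain ⟨N⟩ := hA K P.ϖ (P.Γ.map (RingHom.fst K L)) P.S φ C (2 * b) p w D h γ z
      (by rintro _ ⟨y, hy, rfl⟩; exact P.fst_mem y hy) ⟨_, P.u_mem, rfl⟩
      (fun h1 => by
        obtain ⟨y, -, hy⟩ := P.jac _ (P.S.neg_mem h1)
        have h2 := zpow_val_neg P.ϖ 1
        rw [zpow_one] at h2
        rw [← hy, mul_one, mul_neg, h2, add_neg_cancel, zero_mul])
      (fun a ha => by
        obtain ⟨e, h1, h2, h4⟩ := hdec a ha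
        refine ⟨e, h1, (hT _ _).2 ⟨_, h2⟩, fun hlt => ?_⟩
        obtain ⟨y, y', h5, -, h6⟩ := h4 hlt
        exact ⟨y, h5, (hT _ _).2 ⟨_, h6⟩⟩)
      (fun i j hij => by rw [hD, ho i j hij, map_zero, mul_zero, zero_mul])
      (by rw [he, one_mul]) (by rw [he, mul_one]) (by rw [he, h3]) (by rw [he, hh])
      (gmem_le (fil_anti huS (by push_cast; omega)) mh)
      (fun i j => by
        have h1 := abs_le.1 (hw i)
        have h2 := abs_le.1 (hw j)
        push_cast
        omega)
      (fun i _ j _ => by rw [hD, mul_comm, mul_assoc, mul_comm z, hz, mul_one]) hz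
      (fil_anti huS (by push_cast; omega) mz) ((h16 _).trans hC)
    exact ⟨N, fun x => (N.a_le x).trans (by exact_mod_cast h16 r)⟩
  obtain ⟨N, hN⟩ := hN
  choose V hV using fun i j => (hT _ _).1 (N.mU i j)
  choose V' hV' using fun i j => (hT _ _).1 (N.mU' i j)
  refine ⟨{ β := N.β
            pb := N.pb
            a := N.a
            a_le := hN
            U := N.U
            U' := N.U'
            V := fun i j => if p i = bpar N.pb j then V i j else 0
            V' := fun i j => if bpar N.pb i = p j then V' i j else 0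
            evU := N.evU
            evU' := N.evU'
            evV := fun i j hij => if_neg hij
            evV' := fun i j hij => if_neg hij
            UV := fun i j => ?_
            UV' := fun i j => ?_
            UU' := N.UU'.trans he
            DU := N.DU
            UD := N.UD }⟩
  · dsimp only
    split_ifs with hij
    · have := hV i j
      push_cast
      exact this
    · rw [N.evU i j hij]
      exact zero_mem _
  · dsimp only
    split_ifs with hij
    · have := hV' i j
      push_cast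
      exact this
    · rw [N.evU' i j hij]
      exact zero_mem _

end PairD

end Pool.Agent.P.MP_f43029_ag.XL
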