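import Pool.Agent.P.MP_f43029_ag.XL.Basic

/-!
Gaussian elimination, one step: ring identities and the extension of a normal form by one block.
-/

set_option autoImplicit false

noncomputable section

namespace Pool.Agent.P.MP_f43029_ag.XL

open Matrix

/-- The relations between a pivot and the coordinate idempotents. -/
structure GRel {M : Type} [Ring M] (e a b D y g : M) : Prop where
  ee : e * e = e
  ea : e * a = a
  ae : a * e = a
  eb : e * b = b
  be : b * e = b
  aa : a * a = a
  bb : b * b = b
  ab : a * b = 0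
  ba : b * a = 0
  eD : e * D = D
  De : D * e = D
  DD : D * D = g * e
  gc : ∀ x, g * x = x * g
  ya : y * a = y
  yb : y * b = 0
  ay : a * y = 0
  bY : b * y = y
  aDy : a * D * y = a
  yDb : y * D * b = b
  aDa : a * D * a = 0
  bDb : b * D * b = 0

namespace GRel

variable {M : Type} [Ring M] {e a b D y g : M}

theorem ey (h : GRel e a b D y g) : e * y = y := by
  rw [← h.bY, ← mul_assoc, h.eb]

theorem ye (h : GRel e a b D y g) : y * e = y := by
  rw [← h.ya, mul_assoc, h.ae]

theorem yy (h : GRel e a b D y g) : y * y = 0 := by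
  calc y * y = y * a * y := by rw [h.ya]
    _ = 0 := by rw [mul_assoc, h.ay, mul_zero]

theorem yDy (h : GRel e a b D y g) : y * D * y = y := by
  calc y * D * y = y * (a * D * y) := by rw [← mul_assoc, ← mul_assoc, h.ya]
    _ = y := by rw [h.aDy, h.ya]

theorem Fy (h : GRel e a b D y g) : (e - a - b) * y = 0 := by
  rw [sub_mul, sub_mul, h.ey, h.ay, h.bY]; simp

theorem yF (h : GRel e a b D y g) : y * (e - a - b) = 0 := by
  rw [mul_sub, mul_sub, h.ye, h.ya, h.yb]; simp

theorem FF (h : GRel e a b D y g) : (e - a - b) * (e - a - b) = e - a - b := by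
  simp only [mul_sub, sub_mul, h.ee, h.ea, h.ae, h.eb, h.be, h.aa, h.bb, h.ab, h.ba]
  abel

theorem eF (h : GRel e a b D y g) : e * (e - a - b) = e - a - b := by
  simp only [mul_sub, h.ee, h.ea, h.eb]

theorem yDD (h : GRel e a b D y g) : y * D * D = g * y := by
  rw [mul_assoc, h.DD, ← mul_assoc, ← h.gc, mul_assoc, h.ye]

theorem DDy (h : GRel e a b D y g) : D * D * y = g * y := by
  rw [h.DD, mul_assoc, h.ey]

theorem FDy (h : GRel e a b D y g) : (e - a - b) * D * y = D * y - a := by
  have h1 : b * D * y = 0 := by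
    calc b * D * y = b * D * b * y := by rw [mul_assoc (b * D), h.bY]
      _ = 0 := by rw [h.bDb, zero_mul]
  rw [sub_mul, sub_mul, sub_mul, sub_mul, h.eD, h.aDy, h1, sub_zero]

theorem yDF (h : GRel e a b D y g) : y * D * (e - a - b) = y * D - b := by
  have h1 : y * D * a = 0 := by
    calc y * D * a = y * (a * D * a) := by rw [← mul_assoc, ← mul_assoc, h.ya]
      _ = 0 := by rw [h.aDa, mul_zero]
  rw [mul_sub, mul_sub, mul_assoc y D e, h.De, h.yDb, h1, sub_zero]

theorem PQ (h : GRel e a b D y g) :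
    (1 - y * D) * (e - a - b) * ((e - a - b) * (1 - D * y)) = e - y * D - D * y := by
  have h1 : y * D * (D * y) = 0 := by
    rw [← mul_assoc, h.yDD, mul_assoc, h.yy, mul_zero]
  have h2 : y * D * a = 0 := by
    calc y * D * a = y * (a * D * a) := by rw [← mul_assoc, ← mul_assoc, h.ya]
      _ = 0 := by rw [h.aDa, mul_zero]
  rw [mul_assoc, ← mul_assoc (e - a - b), h.FF, mul_sub, mul_one, ← mul_assoc (e - a - b), h.FDy,
    sub_mul, one_mul, mul_sub (y * D), h.yDF, mul_sub (y * D), h1, h2]
  abel

theorem QP (h : GRel e a b D y g) :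
    (e - a - b) * (1 - D * y) * ((1 - y * D) * (e - a - b)) = e - a - b := by
  have h1 : (1 - D * y) * (1 - y * D) = 1 - D * y - y * D := by
    have : D * y * (y * D) = 0 := by
      rw [mul_assoc, ← mul_assoc y, h.yy, zero_mul, mul_zero]
    rw [sub_mul, one_mul, mul_sub, mul_one, this]; abel
  have h2 : (1 - D * y - y * D) * (e - a - b) = e - a - b - y * (D * (e - a - b)) := by
    rw [sub_mul (1 - D * y), sub_mul 1, one_mul, mul_assoc D, h.yF, mul_zero, sub_zero, mul_assoc]
  rw [mul_assoc, ← mul_assoc (1 - D * y), h1, h2, mul_sub (e - a - b), h.FF, ← mul_assoc, h.Fy,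
    zero_mul, sub_zero]

theorem DP (h : GRel e a b D y g) :
    D * ((1 - y * D) * (e - a - b)) =
      (1 - y * D) * (e - a - b) * ((e - a - b) * (D - D * y * D) * (e - a - b)) := by
  have hG : D * (1 - y * D) = D - D * y * D := by rw [mul_sub, mul_one, mul_assoc]
  have h1 : a * (D - D * y * D) = 0 := by
    rw [mul_sub, ← mul_assoc, ← mul_assoc, h.aDy, sub_self]
  have h2 : e * (D - D * y * D) = D - D * y * D := by
    rw [mul_sub, ← mul_assoc, ← mul_assoc, h.eD]
  have h3 : (1 - y * D) * b = 0 := by rw [sub_mul, one_mul, h.yDb, sub_self]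
  have h4 : y * D * (D - D * y * D) = g * y := by
    rw [mul_sub, ← mul_assoc, ← mul_assoc, h.yDD, mul_assoc g, h.yy, mul_zero, zero_mul, sub_zero]
  rw [← mul_assoc, hG, mul_assoc (1 - y * D), ← mul_assoc (e - a - b), ← mul_assoc (e - a - b),
    h.FF, ← mul_assoc, ← mul_assoc, mul_assoc (1 - y * D), sub_mul (e - a), sub_mul e, h1, h2,
    sub_zero, mul_sub (1 - y * D), ← mul_assoc _ b, h3, zero_mul, sub_zero, sub_mul 1, one_mul, h4,
    sub_mul _ (g * y), mul_assoc g, h.yF, mul_zero, sub_zero]

theorem QD (h : GRel e a b D y g) :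
    (e - a - b) * (1 - D * y) * D =
      (e - a - b) * (D - D * y * D) * (e - a - b) * ((e - a - b) * (1 - D * y)) := by
  have hG : (1 - D * y) * D = D - D * y * D := by rw [sub_mul, one_mul]
  have h1 : (D - D * y * D) * b = 0 := by
    rw [sub_mul, mul_assoc D y, mul_assoc D, h.yDb, sub_self]
  have h2 : (D - D * y * D) * e = D - D * y * D := by
    rw [sub_mul, mul_assoc _ D e, h.De]
  have h3 : a * (1 - D * y) = 0 := by rw [mul_sub, mul_one, ← mul_assoc, h.aDy, sub_self]
  have h4 : (D - D * y * D) * (D * y) = g * y := by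
    rw [sub_mul, ← mul_assoc D D, h.DDy, mul_assoc _ D, ← mul_assoc D D, h.DDy, mul_assoc D,
      ← mul_assoc y, ← h.gc, mul_assoc g, h.yy, mul_zero, mul_zero, sub_zero]
  have h5 : (D - D * y * D) * (e - a - b) * (1 - D * y) = D - D * y * D - g * y := by
    rw [mul_sub _ (e - a), mul_sub _ e, h1, h2, sub_zero, sub_mul, mul_assoc _ a, h3, mul_zero,
      sub_zero, mul_sub, mul_one, h4]
  calc (e - a - b) * (1 - D * y) * D = (e - a - b) * (D - D * y * D - g * y) := by
        rw [mul_assoc, hG, mul_sub _ _ (g * y), h.gc, ← mul_assoc _ y, h.Fy, zero_mul, sub_zero]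
    _ = _ := by
        rw [← h5, mul_assoc _ (e - a - b) (_ * _), ← mul_assoc (e - a - b) (e - a - b), h.FF]
        simp only [mul_assoc]

theorem eP (h : GRel e a b D y g) :
    e * ((1 - y * D) * (e - a - b)) = (1 - y * D) * (e - a - b) := by
  rw [sub_mul 1, one_mul, mul_sub, h.eF, mul_assoc y, ← mul_assoc, h.ey]

theorem FD' (h : GRel e a b D y g) (X : M) :
    (e - a - b) * ((e - a - b) * X * (e - a - b)) = (e - a - b) * X * (e - a - b) := by
  rw [← mul_assoc, ← mul_assoc, h.FF]

theorem D'F (h : GRel e a b D y g) (X : M) :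
    (e - a - b) * X * (e - a - b) * (e - a - b) = (e - a - b) * X * (e - a - b) := by
  rw [mul_assoc, h.FF]

theorem D'D' (h : GRel e a b D y g) :
    (e - a - b) * (D - D * y * D) * (e - a - b) * ((e - a - b) * (D - D * y * D) * (e - a - b)) =
      g * (e - a - b) := by
  set D' := (e - a - b) * (D - D * y * D) * (e - a - b) with hD'
  set P := (1 - y * D) * (e - a - b) with hP
  set Q := (e - a - b) * (1 - D * y) with hQ
  have h1 : D * P = P * D' := h.DP
  have h2 : Q * D = D' * Q := h.QD
  have h3 : Q * P = e - a - b := h.QP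
  have h4 : D' * (e - a - b) = D' := h.D'F _
  calc D' * D' = D' * (Q * P) * D' := by rw [h3, h4]
    _ = Q * D * (D * P) := by rw [h1, h2]; simp only [mul_assoc]
    _ = g * (e - a - b) := by
      rw [mul_assoc, ← mul_assoc D, h.DD, mul_assoc g, h.eP, ← mul_assoc, ← h.gc, mul_assoc, h3]

theorem contr (h : GRel e a b D y g) {k : M} (hk : D * k + k * D = e) :
    (e - a - b) * (D - D * y * D) * (e - a - b) *
        ((e - a - b) * (1 - D * y) * k * ((1 - y * D) * (e - a - b))) +
      (e - a - b) * (1 - D * y) * k * ((1 - y * D) * (e - a - b)) *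
        ((e - a - b) * (D - D * y * D) * (e - a - b)) = e - a - b := by
  set D' := (e - a - b) * (D - D * y * D) * (e - a - b) with hD'
  set P := (1 - y * D) * (e - a - b) with hP
  set Q := (e - a - b) * (1 - D * y) with hQ
  have h1 : D * P = P * D' := h.DP
  have h2 : Q * D = D' * Q := h.QD
  have h3 : Q * P = e - a - b := h.QP
  calc D' * (Q * k * P) + Q * k * P * D' = Q * (D * k + k * D) * P := by
        rw [← mul_assoc D', ← mul_assoc D', ← h2, mul_assoc _ P, ← h1]; noncomm_ring
    _ = e - a - b := by rw [hk, mul_assoc, h.eP, h3]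

end GRel

end Pool.Agent.P.MP_f43029_ag.XL
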