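import Pool.Agent.P.MP_f43029_ag.XL.LGaussA
import Pool.Agent.P.MP_f43029_ag.XL.LApi

/-!
Gaussian elimination: normal forms on one side and their extension by one block.
-/

set_option autoImplicit false
set_option linter.unusedSectionVars false
set_option linter.unusedVariables false

noncomputable section

namespace Pool.Agent.P.MP_f43029_ag.XL

open Matrix

section join

variable {ι β β' K : Type} [CommRing K]

/-- Join two families of columns. -/
def gcj (X : Matrix ι (β × Bool) K) (X' : Matrix ι (β' × Bool) K) :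
    Matrix ι ((β ⊕ β') × Bool) K :=
  fun i s => Sum.elim (fun b => X i (b, s.2)) (fun b => X' i (b, s.2)) s.1

/-- Join two families of rows. -/
def grj (X : Matrix (β × Bool) ι K) (X' : Matrix (β' × Bool) ι K) :
    Matrix ((β ⊕ β') × Bool) ι K :=
  fun s i => Sum.elim (fun b => X (b, s.2) i) (fun b => X' (b, s.2) i) s.1

theorem gcj_mul_grj [Fintype β] [Fintype β'] (X : Matrix ι (β × Bool) K)
    (X' : Matrix ι (β' × Bool) K) (Y : Matrix (β × Bool) ι K) (Y' : Matrix (β' × Bool) ι K) :
    gcj X X' * grj Y Y' = X * Y + X' * Y' := by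
  ext i j
  simp [mul_apply, gcj, grj, Fintype.sum_prod_type, Fintype.sum_sum_type]

theorem mul_gcj [Fintype ι] (D : Matrix ι ι K) (X : Matrix ι (β × Bool) K)
    (X' : Matrix ι (β' × Bool) K) : D * gcj X X' = gcj (D * X) (D * X') := by
  ext i ⟨s, t⟩
  cases s <;> simp [mul_apply, gcj]

theorem grj_mul [Fintype ι] (D : Matrix ι ι K) (X : Matrix (β × Bool) ι K)
    (X' : Matrix (β' × Bool) ι K) : grj X X' * D = grj (X * D) (X' * D) := by
  ext ⟨s, t⟩ i
  cases s <;> simp [mul_apply, grj]

theorem gcj_mul_dl [Fintype β] [Fintype β'] [DecidableEq β] [DecidableEq β'] (u : Kˣ) (γ : K)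
    (a : β → ℤ) (a' : β' → ℤ) (X : Matrix ι (β × Bool) K) (X' : Matrix ι (β' × Bool) K) :
    gcj X X' * dl u γ (Sum.elim a a') = gcj (X * dl u γ a) (X' * dl u γ a') := by
  ext i ⟨s, t⟩
  cases s <;> simp [mul_apply, gcj, dl, Fintype.sum_prod_type]

theorem dl_mul_grj [Fintype β] [Fintype β'] [DecidableEq β] [DecidableEq β'] (u : Kˣ) (γ : K)
    (a : β → ℤ) (a' : β' → ℤ) (X : Matrix (β × Bool) ι K) (X' : Matrix (β' × Bool) ι K) :
    dl u γ (Sum.elim a a') * grj X X' = grj (dl u γ a * X) (dl u γ a' * X') := by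
  ext ⟨s, t⟩ i
  cases s <;> simp [mul_apply, grj, dl, Fintype.sum_prod_type]

end join

section api

variable {ι ι' ι'' K : Type} [CommRing K]

theorem gmem_mul [Fintype ι'] {u : Kˣ} {G : Subring K} {a b : ℤ} {X : Matrix ι ι' K}
    {Y : Matrix ι' ι'' K} (hX : MemM (fil u G a) X) (hY : MemM (fil u G b) Y) :
    MemM (fil u G (a + b)) (X * Y) := fun i j => by
  rw [mul_apply]
  exact sum_mem fun k _ => fil_mul (hX i k) (hY k j)

theorem gmem_sub {H : AddSubgroup K} {X Y : Matrix ι ι' K} (hX : MemM H X) (hY : MemM H Y) :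
    MemM H (X - Y) := fun i j => H.sub_mem (hX i j) (hY i j)

theorem gmem_le {H H' : AddSubgroup K} (h : H ≤ H') {X : Matrix ι ι' K} (hX : MemM H X) :
    MemM H' X := fun i j => h (hX i j)

theorem gev_mul [Fintype ι'] {p : ι → Bool} {p' : ι' → Bool} {p'' : ι'' → Bool}
    {X : Matrix ι ι' K} {Y : Matrix ι' ι'' K} (hX : EvenM p p' X) (hY : EvenM p' p'' Y) :
    EvenM p p'' (X * Y) := fun i j hij => by
  rw [mul_apply]
  refine Finset.sum_eq_zero fun k _ => ?_
  by_cases h : p i = p' k
  · rw [hY k j (h ▸ hij), mul_zero]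
  · rw [hX i k h, zero_mul]

theorem godd_mul [Fintype ι'] {p : ι → Bool} {p' : ι' → Bool} {p'' : ι'' → Bool}
    {X : Matrix ι ι' K} {Y : Matrix ι' ι'' K} (hX : OddM p p' X) (hY : OddM p' p'' Y) :
    EvenM p p'' (X * Y) := fun i j hij => by
  rw [mul_apply]
  refine Finset.sum_eq_zero fun k _ => ?_
  by_cases h : p i = p' k
  · rw [hX i k h, zero_mul]
  · rw [hY k j (by revert h hij; cases p i <;> cases p' k <;> cases p'' j <;> simp), mul_zero]

theorem gev_odd [Fintype ι'] {p : ι → Bool} {p' : ι' → Bool} {p'' : ι'' → Bool}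
    {X : Matrix ι ι' K} {Y : Matrix ι' ι'' K} (hX : EvenM p p' X) (hY : OddM p' p'' Y) :
    OddM p p'' (X * Y) := fun i j hij => by
  rw [mul_apply]
  refine Finset.sum_eq_zero fun k _ => ?_
  by_cases h : p i = p' k
  · rw [hY k j (h ▸ hij), mul_zero]
  · rw [hX i k h, zero_mul]

theorem godd_ev [Fintype ι'] {p : ι → Bool} {p' : ι' → Bool} {p'' : ι'' → Bool}
    {X : Matrix ι ι' K} {Y : Matrix ι' ι'' K} (hX : OddM p p' X) (hY : EvenM p' p'' Y) :
    OddM p p'' (X * Y) := fun i j hij => by
  rw [mul_apply]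
  refine Finset.sum_eq_zero fun k _ => ?_
  by_cases h : p i = p' k
  · rw [hX i k h, zero_mul]
  · rw [hY k j (hij ▸ fun h' => h h'.symm), mul_zero]

theorem gev_sub {p : ι → Bool} {p' : ι' → Bool} {X Y : Matrix ι ι' K} (hX : EvenM p p' X)
    (hY : EvenM p p' Y) : EvenM p p' (X - Y) := fun i j hij => by
  rw [Matrix.sub_apply, hX i j hij, hY i j hij, sub_zero]

theorem godd_sub {p : ι → Bool} {p' : ι' → Bool} {X Y : Matrix ι ι' K} (hX : OddM p p' X)
    (hY : OddM p p' Y) : OddM p p' (X - Y) := fun i j hij => by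
  rw [Matrix.sub_apply, hX i j hij, hY i j hij, sub_zero]

end api

/-- The coordinate idempotent of a set of indices. -/
def eI (K : Type) [CommRing K] {ι : Type} [DecidableEq ι] (I : Finset ι) : Matrix ι ι K :=
  diagonal fun i => if i ∈ I then 1 else 0

/-- A normal form on one side. -/
structure KNF {K : Type} [CommRing K] (u : Kˣ) (G : Subring K) {ι : Type} [Fintype ι]
    (p : ι → Bool) (e D : Matrix ι ι K) (γ : K) (κ am : ℤ) where
  β : Type
  [fβ : Fintype β]
  [dβ : DecidableEq β]
  pb : β → Bool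
  a : β → ℤ
  a_le : ∀ b, a b ≤ am
  U : Matrix ι (β × Bool) K
  U' : Matrix (β × Bool) ι K
  evU : EvenM p (bpar pb) U
  evU' : EvenM (bpar pb) p U'
  mU : MemM (fil u G (-κ)) U
  mU' : MemM (fil u G (-κ)) U'
  UU' : U * U' = e
  DU : D * U = U * dl u γ a
  UD : U' * D = dl u γ a * U'

attribute [instance] KNF.fβ KNF.dβ

variable {K ι : Type} [CommRing K] [Fintype ι] [DecidableEq ι]

theorem eI_even (p : ι → Bool) (I : Finset ι) : EvenM p p (eI K I) := fun i j hij =>
  diagonal_apply_ne _ fun h => hij (h ▸ rfl)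

theorem eI_mem (u : Kˣ) (G : Subring K) (I : Finset ι) : MemM (fil u G 0) (eI K I) := fun i j => by
  rw [fil_zero, eI, diagonal_apply]
  split_ifs
  exacts [G.one_mem, G.zero_mem, G.zero_mem]

theorem eI_erase {I : Finset ι} {k l : ι} (hk : k ∈ I) (hl : l ∈ I) (hkl : k ≠ l) :
    eI K I - single k k 1 - single l l 1 = eI K ((I.erase k).erase l) := by
  ext i j
  simp only [eI, Matrix.sub_apply, diagonal_apply, single_apply, Finset.mem_erase]
  by_cases hij : i = j
  · subst hij
    by_cases h1 : k = i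
    · subst h1; simp [hk, hkl.symm]
    · by_cases h2 : l = i
      · subst h2; simp [hl, hkl]
      · simp [h1, h2, Ne.symm h1, Ne.symm h2]
  · have h1 : ¬(k = i ∧ k = j) := fun h => hij (h.1.symm.trans h.2)
    have h2 : ¬(l = i ∧ l = j) := fun h => hij (h.1.symm.trans h.2)
    simp [hij, h1, h2]

theorem eI_single {I : Finset ι} {k : ι} (hk : k ∈ I) (j : ι) (c : K) :
    eI K I * single k j c = single k j c := by
  ext i i'
  rw [eI, diagonal_mul, single_apply]
  split_ifs with h1 h2 h2
  · rw [one_mul]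
  · rw [mul_zero]
  · exact absurd (h2.1 ▸ hk) h1
  · rw [mul_zero]

theorem single_eI {I : Finset ι} {k : ι} (hk : k ∈ I) (j : ι) (c : K) :
    single j k c * eI K I = single j k c := by
  ext i i'
  rw [eI, mul_diagonal, single_apply]
  split_ifs with h1 h2 h2
  · rw [mul_one]
  · exact absurd (h1.2 ▸ hk) h2
  · rw [zero_mul]
  · rw [zero_mul]

theorem grel {p : ι → Bool} {I : Finset ι} {D : Matrix ι ι K} {γ d : K} {k l : ι} (hk : k ∈ I)
    (hl : l ∈ I) (hkl : k ≠ l) (hodd : OddM p p D) (h1 : eI K I * D = D) (h2 : D * eI K I = D)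
    (h3 : D * D = γ • eI K I) (hd : D k l * d = 1) :
    GRel (eI K I) (single k k 1) (single l l 1) D (single l k d) (γ • (1 : Matrix ι ι K)) where
  ee := by
    rw [eI, diagonal_mul_diagonal]
    congr 1
    funext i
    split_ifs <;> simp
  ea := eI_single hk _ _
  ae := single_eI hk _ _
  eb := eI_single hl _ _
  be := single_eI hl _ _
  aa := by rw [single_mul_single_same, one_mul]
  bb := by rw [single_mul_single_same, one_mul]
  ab := single_mul_single_of_ne _ _ _ _ hkl _
  ba := single_mul_single_of_ne _ _ _ _ hkl.symm _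
  eD := h1
  De := h2
  DD := by rw [h3, smul_mul_assoc, one_mul]
  gc := fun x => by rw [smul_mul_assoc, one_mul, mul_smul_comm, mul_one]
  ya := by rw [single_mul_single_same, mul_one]
  yb := single_mul_single_of_ne _ _ _ _ hkl _
  ay := single_mul_single_of_ne _ _ _ _ hkl _
  bY := by rw [single_mul_single_same, one_mul]
  aDy := by rw [single_mul_mul_single, one_mul, hd]
  yDb := by rw [single_mul_mul_single, mul_one, mul_comm, hd]
  aDa := by rw [single_mul_mul_single, hodd k k rfl]; simp
  bDb := by rw [single_mul_mul_single, hodd l l rfl]; simp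

/-- The two new columns. -/
def gX (u : Kˣ) (D : Matrix ι ι K) (l : ι) (e : ℤ) : Matrix ι (Unit × Bool) K :=
  fun i s => if s.2 = true then D i l * ((u ^ (-e) : Kˣ) : K) else if i = l then 1 else 0

/-- The two new rows. -/
def gY (u : Kˣ) (D : Matrix ι ι K) (k : ι) (d : K) (e : ℤ) : Matrix (Unit × Bool) ι K :=
  fun s j => if s.2 = true then (if j = k then ((u ^ e : Kˣ) : K) * d else 0) else d * D k j

theorem gX_gY (u : Kˣ) (D : Matrix ι ι K) (k l : ι) (d : K) (e : ℤ) :
    gX u D l e * gY u D k d e = single l k d * D + D * single l k d := by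
  ext i j
  have h1 : (single l k d * D) i j = if i = l then d * D k j else 0 := by
    split_ifs with h
    · rw [h, single_mul_apply_same]
    · rw [single_mul_apply_of_ne _ _ _ _ _ h]
  have h2 : (D * single l k d) i j = if j = k then D i l * d else 0 := by
    split_ifs with h
    · rw [h, mul_single_apply_same]
    · rw [mul_single_apply_of_ne _ _ _ _ _ h]
  rw [Matrix.add_apply, h1, h2, mul_apply, Fintype.sum_prod_type]
  simp only [Finset.univ_unique, Finset.sum_singleton, Fintype.sum_bool, gX, gY, if_true,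
    Bool.false_eq_true, if_false]
  have := zpow_val_neg' u e
  split_ifs
  · linear_combination (D i l * d) * this
  · linear_combination (D i l * d) * this
  · ring
  · ring

theorem D_gX (u : Kˣ) {I : Finset ι} {D : Matrix ι ι K} {γ : K} {l : ι} (hl : l ∈ I)
    (h3 : D * D = γ • eI K I) (e : ℤ) :
    D * gX u D l e = gX u D l e * dl u γ (fun _ : Unit => e) := by
  ext i ⟨s, t⟩
  have := zpow_val_neg' u e
  have h := congrFun (congrFun h3 i) l
  rw [Matrix.mul_apply, Matrix.smul_apply, eI, diagonal_apply] at h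
  cases t
  · refine Eq.trans ?_ (mul_dl_false u γ (fun _ : Unit => e) _ i s).symm
    rw [Matrix.mul_apply]
    simp only [gX, if_true, Bool.false_eq_true, if_false, mul_ite, mul_one, mul_zero,
      Finset.sum_ite_eq', Finset.mem_univ]
    linear_combination (-D i l) * this
  · refine Eq.trans ?_ (mul_dl_true u γ (fun _ : Unit => e) _ i s).symm
    rw [Matrix.mul_apply]
    simp only [gX, if_true, Bool.false_eq_true, if_false, ← mul_assoc, ← Finset.sum_mul, h]
    by_cases hi : i = l
    · simp [hi, hl]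
    · simp [hi]

theorem gY_D (u : Kˣ) {I : Finset ι} {D : Matrix ι ι K} {γ : K} {k : ι} (hk : k ∈ I)
    (h3 : D * D = γ • eI K I) (d : K) (e : ℤ) :
    gY u D k d e * D = dl u γ (fun _ : Unit => e) * gY u D k d e := by
  ext ⟨s, t⟩ j
  have := zpow_val_neg' u e
  have h := congrFun (congrFun h3 k) j
  rw [Matrix.mul_apply, Matrix.smul_apply, eI, diagonal_apply] at h
  cases t
  · refine Eq.trans ?_ (dl_mul_false u γ (fun _ : Unit => e) _ s j).symm
    rw [Matrix.mul_apply]
    simp only [gY, if_true, Bool.false_eq_true, if_false, mul_assoc, ← Finset.mul_sum, h]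
    by_cases hj : k = j
    · subst hj
      simp only [hk, if_true, smul_eq_mul, mul_one]
      linear_combination (-γ * d) * this
    · simp [hj, Ne.symm hj]
  · refine Eq.trans ?_ (dl_mul_true u γ (fun _ : Unit => e) _ s j).symm
    rw [Matrix.mul_apply]
    simp only [gY, if_true, Bool.false_eq_true, if_false, ite_mul, zero_mul, Finset.sum_ite_eq',
      Finset.mem_univ, mul_assoc]

/-- Extension of a normal form by the pivot block. -/
def KNF.step {u : Kˣ} {G : Subring K} (hu : (u : K) ∈ G) {p : ι → Bool} {I : Finset ι}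
    {D : Matrix ι ι K} {γ d : K} {k l : ι} (hk : k ∈ I) (hl : l ∈ I) (hp : p k ≠ p l)
    (hodd : OddM p p D) (h1 : eI K I * D = D) (h2 : D * eI K I = D) (h3 : D * D = γ • eI K I)
    (hd : D k l * d = 1) {e κ am : ℤ} (hκ : 0 ≤ κ) (he : e ≤ am) (mD : MemM (fil u G (e - 2)) D)
    (md : d ∈ fil u G (-e - 2))
    (N : KNF u G p (eI K ((I.erase k).erase l))
      (eI K ((I.erase k).erase l) * (D - D * single l k d * D) * eI K ((I.erase k).erase l))
      γ κ am) : KNF u G p (eI K I) D γ (κ + 4) am := by
  have hkl : k ≠ l := fun h => hp (h ▸ rfl)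
  have R := grel hk hl hkl hodd h1 h2 h3 hd
  have hF := eI_erase (K := K) hk hl hkl
  have oy : OddM p p (single l k d) := fun i j hij =>
    single_apply_of_ne _ _ _ _ _ fun h => hp (by rw [h.1, h.2, hij])
  have my : MemM (fil u G (-e - 2)) (single l k d) := fun i j => by
    rw [single_apply]
    split_ifs
    exacts [md, zero_mem _]
  have m1 : MemM (fil u G (-4)) (1 : Matrix ι ι K) := fun i j => by
    rw [Matrix.one_apply]
    split_ifs
    exacts [fil_anti hu (by norm_num) (one_mem_fil u G), zero_mem _]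
  have e1 : EvenM p p (1 : Matrix ι ι K) := fun i j hij =>
    Matrix.one_apply_ne fun h => hij (h ▸ rfl)
  have mP : MemM (fil u G (-4)) ((1 - single l k d * D) * eI K ((I.erase k).erase l)) := by
    have := gmem_mul my mD
    rw [show -e - 2 + (e - 2) = -4 by ring] at this
    exact gmem_mul (gmem_sub m1 this) (eI_mem u G _)
  have mQ : MemM (fil u G (-4)) (eI K ((I.erase k).erase l) * (1 - D * single l k d)) := by
    have := gmem_mul mD my
    rw [show e - 2 + (-e - 2) = -4 by ring] at this
    exact gmem_mul (eI_mem u G _) (gmem_sub m1 this)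
  refine
    { β := N.β ⊕ Unit
      pb := Sum.elim N.pb fun _ => p l
      a := Sum.elim N.a fun _ => e
      a_le := ?_
      U := gcj ((1 - single l k d * D) * eI K ((I.erase k).erase l) * N.U) (gX u D l e)
      U' := grj (N.U' * (eI K ((I.erase k).erase l) * (1 - D * single l k d))) (gY u D k d e)
      evU := ?_
      evU' := ?_
      mU := ?_
      mU' := ?_
      UU' := ?_
      DU := ?_
      UD := ?_ }
  · rintro (b | b)
    exacts [N.a_le b, he]
  · rintro i ⟨b | b, t⟩ h
    · exact gev_mul (gev_mul (gev_sub e1 (godd_mul oy hodd)) (eI_even p _)) N.evU i (b, t) h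
    · cases t
      · have : i ≠ l := fun h' => h (by simp [bpar, h'])
        simp [gcj, gX, this]
      · have : p i = p l := by
          revert h; simp only [bpar, Sum.elim_inr]; cases p i <;> cases p l <;> simp
        simp [gcj, gX, hodd i l this]
  · rintro ⟨b | b, t⟩ i h
    · exact gev_mul N.evU' (gev_mul (eI_even p _) (gev_sub e1 (godd_mul hodd oy))) (b, t) i h
    · cases t
      · have : p k = p i := by
          revert h hp; simp only [bpar, Sum.elim_inr]
          cases p i <;> cases p l <;> cases p k <;> simp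
        simp [grj, gY, hodd k i this]
      · have : i ≠ k := fun h' => by
          revert h hp; simp only [bpar, Sum.elim_inr, h']; cases p l <;> cases p k <;> simp
        simp [grj, gY, this]
  · rintro i ⟨b | b, t⟩
    · have := gmem_mul mP N.mU i (b, t)
      rwa [show -4 + -κ = -(κ + 4) by ring] at this
    · cases t
      · simp only [gcj, gX, Sum.elim_inr, Bool.false_eq_true, if_false]
        split_ifs
        exacts [fil_anti hu (by omega) (one_mem_fil u G), zero_mem _]
      · simp only [gcj, gX, Sum.elim_inr, if_true]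
        exact fil_anti hu (by omega) (fil_mul (mD i l) (zpow_mem_fil u G (-e)))
  · rintro ⟨b | b, t⟩ i
    · have := gmem_mul N.mU' mQ (b, t) i
      rwa [show -κ + -4 = -(κ + 4) by ring] at this
    · cases t
      · simp only [grj, gY, Sum.elim_inr, Bool.false_eq_true, if_false]
        exact fil_anti hu (by omega) (fil_mul md (mD k i))
      · simp only [grj, gY, Sum.elim_inr, if_true]
        split_ifs
        exacts [fil_anti hu (by omega) (fil_mul (zpow_mem_fil u G e) md), zero_mem _]
  · rw [gcj_mul_grj, gX_gY, Matrix.mul_assoc _ N.U, ← Matrix.mul_assoc N.U, N.UU', ← hF,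
      ← mul_assoc (_ - _ - _) (_ - _ - _), R.FF, R.PQ]
    abel
  · have := R.DP
    rw [hF] at this
    rw [mul_gcj, gcj_mul_dl, D_gX u hl h3, ← Matrix.mul_assoc D, this, Matrix.mul_assoc _ _ N.U,
      N.DU, ← Matrix.mul_assoc]
  · have := R.QD
    rw [hF] at this
    rw [grj_mul, dl_mul_grj, gY_D u hk h3, Matrix.mul_assoc N.U', this, ← Matrix.mul_assoc N.U',
      N.UD, Matrix.mul_assoc _ N.U']

end Pool.Agent.P.MP_f43029_ag.XL
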