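import Pool.Agent.P.MP_f43029_ag.XL.LClo
import Pool.Agent.P.MP_f43029_ag.XL.CWk

/-!
Exact lifts, pure algebra: the pivot lemma, tensor products and Koszul complexes.
-/

set_option autoImplicit false
set_option linter.unusedSectionVars false

noncomputable section

namespace Pool.Agent.P.MP_f43029_ag.XL

open Matrix
open scoped Kronecker

variable {K L A : Type} [CommRing K] [CommRing L] [CommRing A] {q : ℕ} {ι ι' : Type} [Fintype ι]
  [DecidableEq ι] [Fintype ι'] [DecidableEq ι']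

section Pivot

variable {R : Type} [CommRing R]

/-- Two matrices side by side. -/
def pvCols (X Y : Matrix ι ι R) : Matrix ι (ι × Bool) R := fun i j =>
  if j.2 = true then Y i j.1 else X i j.1

/-- Two matrices on top of each other. -/
def pvRows (X Y : Matrix ι ι R) : Matrix (ι × Bool) ι R := fun i j =>
  if i.2 = true then Y i.1 j else X i.1 j

theorem pvCols_mul_pvRows (X Y X' Y' : Matrix ι ι R) :
    pvCols X Y * pvRows X' Y' = X * X' + Y * Y' := by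
  ext i j
  simp [Matrix.mul_apply, Fintype.sum_prod_type, pvCols, pvRows, Finset.sum_add_distrib, add_comm]

variable (u : Rˣ) (a : ι → ℤ) {D h : Matrix ι ι R}

theorem pv_retract (hD : D * D = 0) (hh : D * h + h * D = 1) :
    pvCols (h * D) (D * dg u (-a)) * pvRows (h * D) (dg u a * h) = 1 := by
  have h1 : D * h * D = D := by
    rw [eq_sub_of_add_eq hh, sub_mul, one_mul, mul_assoc, hD, mul_zero, sub_zero]
  rw [pvCols_mul_pvRows, mul_assoc D, ← mul_assoc (dg u (-a)), dg_neg_mul, one_mul, mul_assoc h,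
    ← mul_assoc D, h1, add_comm, hh]

theorem pv_mul (hD : D * D = 0) (hh : D * h + h * D = 1) :
    D * pvCols (h * D) (D * dg u (-a)) = pvCols (h * D) (D * dg u (-a)) * dl u 0 a := by
  have h1 : D * (h * D) = D := by
    rw [← mul_assoc, eq_sub_of_add_eq hh, sub_mul, one_mul, mul_assoc, hD, mul_zero, sub_zero]
  have h2 : D * (D * dg u (-a)) = 0 := by rw [← mul_assoc, hD, zero_mul]
  ext i ⟨j, t⟩
  cases t
  · rw [mul_dl_false]
    change (D * (h * D)) i j = (D * dg u (-a)) i j * _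
    rw [h1, dg, mul_diagonal, mul_assoc, Pi.neg_apply, zpow_val_neg', mul_one]
  · rw [mul_dl_true, zero_mul, mul_zero]
    change (D * (D * dg u (-a))) i j = 0
    rw [h2, Matrix.zero_apply]

theorem pv_mul' (hD : D * D = 0) :
    pvRows (h * D) (dg u a * h) * D = dl u 0 a * pvRows (h * D) (dg u a * h) := by
  ext ⟨i, t⟩ j
  cases t
  · rw [dl_mul_false, zero_mul, zero_mul]
    change (h * D * D) i j = 0
    rw [mul_assoc, hD, mul_zero, Matrix.zero_apply]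
  · rw [dl_mul_true]
    change (dg u a * h * D) i j = _ * (h * D) i j
    rw [mul_assoc, dg, diagonal_mul]

theorem pvCols_even {p : ι → Bool} {X Y : Matrix ι ι R} (hX : EvenM p p X) (hY : OddM p p Y) :
    EvenM p (bpar p) (pvCols X Y) := by
  rintro i ⟨j, t⟩ hij
  cases t
  · exact hX i j (by simpa [bpar] using hij)
  · exact hY i j (by simpa [bpar] using hij)

theorem pvRows_even {p : ι → Bool} {X Y : Matrix ι ι R} (hX : EvenM p p X) (hY : OddM p p Y) :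
    EvenM (bpar p) p (pvRows X Y) := by
  rintro ⟨i, t⟩ j hij
  cases t
  · exact hX i j (by simpa [bpar] using hij)
  · exact hY i j (by simpa [bpar] using hij)

theorem tens_anti {p : ι → Bool} {X X' : Matrix ι ι R} (hX : OddM p p X) (hX' : OddM p p X')
    (Y Y' : Matrix ι' ι' R) : tens p X Y * tens p X' Y' + tens p X' Y' * tens p X Y =
      (X * X' + X' * X) ⊗ₖ (1 : Matrix ι' ι' R) + (1 : Matrix ι ι R) ⊗ₖ (Y * Y' + Y' * Y) := by
  simp only [tens, Matrix.add_mul, Matrix.mul_add, ← mul_kronecker_mul, Matrix.one_mul,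
    Matrix.mul_one, sm_mul_sm, oddM_sm_comm hX, oddM_sm_comm hX', add_kronecker, kronecker_add]
  have e1 : ∀ (Z : Matrix ι ι R) (W : Matrix ι' ι' R), (-Z) ⊗ₖ W = -(Z ⊗ₖ W) := fun Z W => by
    ext i j
    simp
  rw [e1, e1]
  abel

theorem tens_kron {σ σ' : Type} [Fintype σ] [DecidableEq σ] [Fintype σ'] [DecidableEq σ']
    {p : ι → Bool} {r : σ → Bool} {D : Matrix ι ι R} {E : Matrix ι' ι' R} {M : Matrix σ σ R}
    {N : Matrix σ' σ' R} {U : Matrix ι σ R} {W : Matrix ι' σ' R} (hU : EvenM p r U)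
    (h₁ : D * U = U * M) (h₂ : E * W = W * N) : tens p D E * U ⊗ₖ W = U ⊗ₖ W * tens r M N := by
  simp only [tens, Matrix.add_mul, Matrix.mul_add, ← mul_kronecker_mul, Matrix.one_mul,
    Matrix.mul_one, h₁, h₂, hU.sm_comm]

theorem kron_tens {σ σ' : Type} [Fintype σ] [DecidableEq σ] [Fintype σ'] [DecidableEq σ']
    {p : ι → Bool} {r : σ → Bool} {D : Matrix ι ι R} {E : Matrix ι' ι' R} {M : Matrix σ σ R}
    {N : Matrix σ' σ' R} {U : Matrix σ ι R} {W : Matrix σ' ι' R} (hU : EvenM r p U)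
    (h₁ : U * D = M * U) (h₂ : W * E = N * W) : U ⊗ₖ W * tens p D E = tens r M N * U ⊗ₖ W := by
  simp only [tens, Matrix.add_mul, Matrix.mul_add, ← mul_kronecker_mul, Matrix.one_mul,
    Matrix.mul_one, h₁, h₂, hU.sm_comm]

variable {β β' : Type} [Fintype β] [DecidableEq β] [Fintype β'] [DecidableEq β']

/-- The same rank one matrix in every block. -/
def pvKb (β : Type) [DecidableEq β] (s t : R) : Matrix (β × Bool) (β × Bool) R := fun i j =>
  if i.1 = j.1 then k1 s t i.2 j.2 else 0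

theorem pvKb_odd (pb : β → Bool) (s t : R) : OddM (bpar pb) (bpar pb) (pvKb β s t) := by
  rintro ⟨i, x⟩ ⟨j, y⟩ hij
  simp only [pvKb]
  split_ifs with e
  · subst e
    exact CWk_k1_odd s t x y (by simpa [bpar] using hij)
  · rfl

theorem dl_pvKb (g s t : R) (a : β → ℤ) : dl u g a * pvKb β s t + pvKb β s t * dl u g a =
    diagonal fun i => t * ((u ^ a i.1 : Rˣ) : R) + s * (g * ((u ^ (-a i.1) : Rˣ) : R)) := by
  ext ⟨i, x⟩ ⟨j, y⟩
  rw [Matrix.add_apply]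
  by_cases e : i = j
  · subst e
    cases x <;> cases y <;>
      simp only [dl_mul_false, dl_mul_true, mul_dl_false, mul_dl_true] <;>
      simp [pvKb, k1, mul_comm, add_comm]
  · cases x <;> cases y <;>
      simp only [dl_mul_false, dl_mul_true, mul_dl_false, mul_dl_true] <;>
      simp [pvKb, e]

/-- The contraction of the tensor product of two normal forms, chosen block by block. -/
def pvTh (pb : β → Bool) (x₁ x₂ x₃ x₄ : β → β' → R) :
    Matrix ((β × Bool) × (β' × Bool)) ((β × Bool) × (β' × Bool)) R := fun i j =>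
  tens (bpar pb) (pvKb β (x₃ i.1.1 i.2.1) (x₁ i.1.1 i.2.1)) (pvKb β' (x₄ i.1.1 i.2.1) (x₂ i.1.1 i.2.1))
    i j

theorem pvTh_odd (pb : β → Bool) (pb' : β' → Bool) (x₁ x₂ x₃ x₄ : β → β' → R) :
    OddM (tpar (bpar pb) (bpar pb')) (tpar (bpar pb) (bpar pb')) (pvTh pb x₁ x₂ x₃ x₄) :=
  fun i j hij => tens_odd (pvKb_odd pb _ _) (pvKb_odd pb' _ _) i j hij

theorem pvTh_contr (g g' : R) (pb : β → Bool) (a : β → ℤ) (a' : β' → ℤ) {x₁ x₂ x₃ x₄ : β → β' → R}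
    (hx : ∀ b b', x₁ b b' * ((u ^ a b : Rˣ) : R) + x₃ b b' * (g * ((u ^ (-a b) : Rˣ) : R)) +
      (x₂ b b' * ((u ^ a' b' : Rˣ) : R) + x₄ b b' * (g' * ((u ^ (-a' b') : Rˣ) : R))) = 1) :
    tens (bpar pb) (dl u g a) (dl u g' a') * pvTh pb x₁ x₂ x₃ x₄ +
      pvTh pb x₁ x₂ x₃ x₄ * tens (bpar pb) (dl u g a) (dl u g' a') = 1 := by
  ext i j
  have h := congrFun (congrFun (tens_anti (dl_odd u g a pb)
    (pvKb_odd pb (x₃ i.1.1 i.2.1) (x₁ i.1.1 i.2.1)) (dl u g' a')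
    (pvKb β' (x₄ i.1.1 i.2.1) (x₂ i.1.1 i.2.1))) i) j
  rw [dl_pvKb, dl_pvKb, ← diagonal_one, ← diagonal_one, diagonal_kronecker_diagonal,
    diagonal_kronecker_diagonal, diagonal_add] at h
  have h2 : (1 : Matrix ((β × Bool) × (β' × Bool)) ((β × Bool) × (β' × Bool)) R) i j =
      if i = j then 1 else 0 := Matrix.one_apply
  rw [diagonal_apply, mul_one, one_mul, hx] at h
  rw [h2, ← h, Matrix.add_apply, Matrix.add_apply]
  congr 1
  rw [Matrix.mul_apply, Matrix.mul_apply]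
  refine Finset.sum_congr rfl fun k _ => ?_
  obtain ⟨⟨b, s⟩, ⟨b', s'⟩⟩ := i
  obtain ⟨⟨d, t⟩, ⟨d', t'⟩⟩ := k
  by_cases e : b = d ∧ b' = d'
  · obtain ⟨rfl, rfl⟩ := e
    rfl
  · have : tens (bpar pb) (dl u g a) (dl u g' a') ((b, s), (b', s')) ((d, t), (d', t')) = 0 := by
      rw [CWk_tens_apply]
      by_cases e1 : b = d
      · have e2 : b' ≠ d' := fun e2 => e ⟨e1, e2⟩
        simp [dl, e2]
      · simp [dl, e1]
    rw [this, zero_mul, zero_mul]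

end Pivot

namespace PairD

variable {P : PairD K L q}

theorem T_tens {a : ℤ} (p : ι → Bool) {E : Matrix ι ι K} {E' : Matrix ι ι L} {F : Matrix ι' ι' K}
    {F' : Matrix ι' ι' L} {i j : ι × ι'} (hE : (E i.1 j.1, E' i.1 j.1) ∈ P.T a)
    (hF : (F i.2 j.2, F' i.2 j.2) ∈ P.T a) : (tens p E F i j, tens p E' F' i j) ∈ P.T a := by
  obtain ⟨i, i'⟩ := i
  obtain ⟨j, j'⟩ := j
  rw [CWk_tens_apply, CWk_tens_apply]
  refine T_add ?_ ?_
  · split_ifs
    exacts [hE, (P.T a).zero_mem]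
  · split_ifs
    exacts [(P.T a).zsmul_mem hF _, (P.T a).zero_mem]

theorem T_dl {β : Type} [DecidableEq β] {γ : K} {γ' : L} {e x : ℤ} (hγ : (γ, γ') ∈ P.T e)
    (a : β → ℤ) (i j : β × Bool) (h₁ : x ≤ a j.1) (h₂ : x ≤ e - a j.1) :
    (dl P.ϖ γ a i j, dl P.π γ' a i j) ∈ P.T x := by
  simp only [dl]
  split_ifs
  · exact T_anti (P.T_zpow _) h₁
  · exact T_anti (T_mul hγ (P.T_zpow _)) (by omega)
  · exact (P.T x).zero_mem
  · exact (P.T x).zero_mem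

theorem T_pvKb {β : Type} [DecidableEq β] {s t : K} {s' t' : L} {x : ℤ} (hs : (s, s') ∈ P.T x)
    (ht : (t, t') ∈ P.T x) (i j : β × Bool) : (pvKb β s t i j, pvKb β s' t' i j) ∈ P.T x := by
  simp only [pvKb, k1]
  split_ifs
  exacts [hs, ht, (P.T x).zero_mem, (P.T x).zero_mem]

theorem TM_kos {n : ℕ} {z y : Fin n → K} {z' y' : Fin n → L} {x : ℤ}
    (hz : ∀ i, (z i, z' i) ∈ P.T x) (hy : ∀ i, (y i, y' i) ∈ P.T x) :
    P.TM x (kos n z y) (kos n z' y') := fun i j => by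
  have h := kos_mem (P.T x) n (fun i => (z i, z' i)) (fun i => (y i, y' i)) hz hy i j
  have h1 := congrFun (congrFun
    (kos_map (RingHom.fst K L) n (fun i => (z i, z' i)) fun i => (y i, y' i)) i) j
  have h2 := congrFun (congrFun
    (kos_map (RingHom.snd K L) n (fun i => (z i, z' i)) fun i => (y i, y' i)) i) j
  change _ = kos n z y i j at h1
  change _ = kos n z' y' i j at h2
  rw [← h1, ← h2]
  exact h

/-- The choice of a pivot in a block of the tensor product of two normal forms. -/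
theorem exists_pivot {C e : ℕ} {γ : K} {γ' : L} (hγ : P.Dec C γ γ' e) {a a' : ℤ} (ha : 2 * a ≤ C)
    (ha' : 2 * a' ≤ C) : ∃ (x : ℤ) (x₁ x₂ x₃ x₄ : K) (y₁ y₂ y₃ y₄ : L),
      x ≤ a ∧ x ≤ a' ∧ x ≤ e - a ∧ x ≤ e - a' ∧ (x₁, y₁) ∈ P.T (-x - 2) ∧ (x₂, y₂) ∈ P.T (-x - 2) ∧
      (x₃, y₃) ∈ P.T (-x - 2) ∧ (x₄, y₄) ∈ P.T (-x - 2) ∧
      x₁ * ((P.ϖ ^ a : Kˣ) : K) + x₃ * (γ * ((P.ϖ ^ (-a) : Kˣ) : K)) +
        (x₂ * ((P.ϖ ^ a' : Kˣ) : K) + x₄ * (-γ * ((P.ϖ ^ (-a') : Kˣ) : K))) = 1 ∧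
      y₁ * ((P.π ^ a : Lˣ) : L) + y₃ * (γ' * ((P.π ^ (-a) : Lˣ) : L)) +
        (y₂ * ((P.π ^ a' : Lˣ) : L) + y₄ * (-γ' * ((P.π ^ (-a') : Lˣ) : L))) = 1 := by
  have z0 : ∀ x, ((0 : K), (0 : L)) ∈ P.T x := fun x => (P.T x).zero_mem
  by_cases h1 : a ≤ a' ∧ a ≤ e - a ∧ a ≤ e - a'
  · refine ⟨a, _, 0, 0, 0, _, 0, 0, 0, le_rfl, h1.1, h1.2.1, h1.2.2,
      T_anti (P.T_zpow (-a)) (by omega), z0 _, z0 _, z0 _, ?_, ?_⟩
    · linear_combination zpow_val_neg' P.ϖ a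
    · linear_combination zpow_val_neg' P.π a
  by_cases h2 : a' ≤ a ∧ a' ≤ e - a ∧ a' ≤ e - a'
  · refine ⟨a', 0, _, 0, 0, 0, _, 0, 0, h2.1, le_rfl, h2.2.1, h2.2.2, z0 _,
      T_anti (P.T_zpow (-a')) (by omega), z0 _, z0 _, ?_, ?_⟩
    · linear_combination zpow_val_neg' P.ϖ a'
    · linear_combination zpow_val_neg' P.π a'
  obtain ⟨z, z', hz, hz', hT⟩ := hγ.2.2 (by omega)
  by_cases h3 : a' ≤ a
  · refine ⟨e - a, 0, 0, _, 0, 0, 0, _, 0, by omega, by omega, le_rfl, by omega, z0 _, z0 _,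
      T_anti (T_mul hT (P.T_zpow a)) (by omega), z0 _, ?_, ?_⟩
    · linear_combination hz + γ * z * zpow_val_neg P.ϖ a
    · linear_combination hz' + γ' * z' * zpow_val_neg P.π a
  · refine ⟨e - a', 0, 0, 0, _, 0, 0, 0, _, by omega, by omega, by omega, le_rfl, z0 _, z0 _, z0 _,
      T_neg (T_anti (T_mul hT (P.T_zpow a')) (by omega)), ?_, ?_⟩
    · linear_combination hz + γ * z * zpow_val_neg P.ϖ a'
    · linear_combination hz' + γ' * z' * zpow_val_neg P.π a'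

end PairD

namespace Loc

variable {P : PairD K L q} {B : Bdd A} {c : L →+* A} {p : ι → Bool} {D D' : Matrix ι ι K} {γ : K}
  {Dt Dt' : Matrix ι ι A} {γt : A} {κ : ℕ} {μ am : ℤ}

/-- The pivot lemma: a contractible complex whose contraction is as small as possible. -/
theorem pivot (hc : Cst P B c) {h : Matrix ι ι K} {E k : Matrix ι ι L} (a : ι → ℤ)
    (ha : ∀ i, a i ≤ am) (oD : OddM p p D) (oh : OddM p p h) (oE : OddM p p E) (ok : OddM p p k)
    (hD : D * D = 0) (hh : D * h + h * D = 1) (hE : E * E = 0) (hk : E * k + k * E = 1)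
    (bD : ∀ i j, (D i j, E i j) ∈ P.T (a j)) (bh : ∀ i j, (h i j, k i j) ∈ P.T (-a i - 2)) (μ : ℤ) :
    Nonempty (Loc P B c p D 0 (E.map c) 0 2 μ am) := by
  have b1 : P.TM 0 (D * dg P.ϖ (-a)) (E * dg P.π (-a)) := fun i j => by
    rw [dg, dg, mul_diagonal, mul_diagonal]
    exact PairD.T_anti (PairD.T_mul (bD i j) (P.T_zpow _)) (by simp)
  have b2 : P.TM (-2) (dg P.ϖ a * h) (dg P.π a * k) := fun i j => by
    rw [dg, dg, diagonal_mul, diagonal_mul]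
    exact PairD.T_anti (PairD.T_mul (P.T_zpow _) (bh i j)) (by omega)
  have b3 : P.TM (-2) (h * D) (k * E) := by
    have := ((PairD.TM.one P).anti (by omega : (-2 : ℤ) ≤ 0)).sub ((b1.mul b2).lvl (zero_add _))
    rwa [mul_assoc D, ← mul_assoc (dg P.ϖ (-a)), dg_neg_mul, one_mul, mul_assoc E,
      ← mul_assoc (dg P.π (-a)), dg_neg_mul, one_mul, ← eq_sub_of_add_eq' hh,
      ← eq_sub_of_add_eq' hk] at this
  have eV := pvCols_even (oddM_mul_odd ok oE) (oddM_mul_even oE (dg_even P.π (-a) p))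
  have eV' := pvRows_even (oddM_mul_odd ok oE) ((dg_even P.π a p).mul_odd ok)
  refine intro p a _ _ _ _ _ _ ha
    (pvCols_even (oddM_mul_odd oh oD) (oddM_mul_even oD (dg_even P.ϖ (-a) p)))
    (pvRows_even (oddM_mul_odd oh oD) ((dg_even P.ϖ a p).mul_odd oh)) eV eV'
    (eV.map (map_zero c)) (eV'.map (map_zero c)) ?_ ?_ (pv_retract _ a hD hh) (pv_mul _ a hD hh)
    (pv_mul' _ a hD) ?_ ?_ ?_ ?_
  · rintro i ⟨j, t⟩
    cases t
    exacts [b3 i j, b1.anti (by simp) i j]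
  · rintro ⟨i, t⟩ j
    cases t
    exacts [b3 i j, b2 i j]
  · rw [← Matrix.map_mul, pv_mul _ a hE hk, Matrix.map_mul, dl_map c hc.cπ, map_zero]
  · rw [← Matrix.map_mul, pv_mul' _ a hE, Matrix.map_mul, dl_map c hc.cπ, map_zero]
  · rw [sub_self]
    exact MemM.zero _
  · rw [sub_self]
    exact MemM.zero _

/-- A retract of a matrix with a local lift has a local lift. -/
theorem comp (hc : Cst P B c) {r : ι' → Bool} {M : Matrix ι' ι' K} {Mt : Matrix ι' ι' A}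
    {κ₀ κ₁ : ℕ} {μ₀ μ₁ : ℤ} (X : Loc P B c r M γ Mt γt κ₀ μ₀ am) {U : Matrix ι ι' K}
    {U' : Matrix ι' ι K} {V : Matrix ι ι' L} {V' : Matrix ι' ι L} {Y : Matrix ι ι' A}
    {Y' : Matrix ι' ι A} (evU : EvenM p r U) (evU' : EvenM r p U') (evV : EvenM p r V)
    (evV' : EvenM r p V') (evY : EvenM p r Y) (evY' : EvenM r p Y') (UV : P.TM (-(κ₁ : ℤ)) U V)
    (UV' : P.TM (-(κ₁ : ℤ)) U' V') (UU' : U * U' = 1) (DU : D * U = U * M) (UD : U' * D = M * U')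
    (DY : Dt * Y = Y * Mt) (YD : Y' * Dt = Mt * Y') (YV : MemM (fil B.π B.Ap μ₁) (Y - V.map c))
    (YV' : MemM (fil B.π B.Ap μ₁) (Y' - V'.map c)) (h₁ : μ ≤ μ₁ - κ₀) (h₂ : μ ≤ μ₀ - κ₁)
    (h₃ : μ ≤ μ₀ + μ₁) : Nonempty (Loc P B c p D γ Dt γt (κ₁ + κ₀) μ am) := by
  have hπ := B.π_mem
  refine intro X.nf.pb X.nf.a (U * X.nf.U) (X.nf.U' * U') (V * X.nf.V) (X.nf.V' * V') (Y * X.Y)
    (X.Y' * Y') X.nf.a_le (evU.mul X.nf.evU) (X.nf.evU'.mul evU') (evV.mul X.nf.evV)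
    (X.nf.evV'.mul evV') (evY.mul X.evY) (X.evY'.mul evY')
    ((UV.mul X.nf.UV).lvl (by push_cast; ring)) ((X.nf.UV'.mul UV').lvl (by push_cast; ring))
    ?_ ?_ ?_ ?_ ?_ ?_ ?_
  · rw [Matrix.mul_assoc, ← Matrix.mul_assoc X.nf.U, X.nf.UU', Matrix.one_mul, UU']
  · rw [← Matrix.mul_assoc, DU, Matrix.mul_assoc, X.nf.DU, Matrix.mul_assoc]
  · rw [Matrix.mul_assoc, UD, ← Matrix.mul_assoc, X.nf.UD, Matrix.mul_assoc]
  · rw [← Matrix.mul_assoc, DY, Matrix.mul_assoc, X.DY, Matrix.mul_assoc]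
  · rw [Matrix.mul_assoc, YD, ← Matrix.mul_assoc, X.YD, Matrix.mul_assoc]
  · have : Y * X.Y - (V * X.nf.V).map c = (Y - V.map c) * (X.Y - X.nf.V.map c) +
        (Y - V.map c) * X.nf.V.map c + V.map c * (X.Y - X.nf.V.map c) := by
      simp only [Matrix.map_mul, Matrix.sub_mul, Matrix.mul_sub]
      abel
    rw [this]
    exact (((YV.mul X.YV).anti hπ (by omega)).add
      ((YV.mul (hc.mem X.nf.UV.snd)).anti hπ (by omega))).add
      (((hc.mem UV.snd).mul X.YV).anti hπ (by omega))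
  · have : X.Y' * Y' - (X.nf.V' * V').map c = (X.Y' - X.nf.V'.map c) * (Y' - V'.map c) +
        X.nf.V'.map c * (Y' - V'.map c) + (X.Y' - X.nf.V'.map c) * V'.map c := by
      simp only [Matrix.map_mul, Matrix.sub_mul, Matrix.mul_sub]
      abel
    rw [this]
    exact (((X.YV'.mul YV').anti hπ (by omega)).add
      (((hc.mem X.nf.UV'.snd).mul YV').anti hπ (by omega))).add
      ((X.YV'.mul (hc.mem UV'.snd)).anti hπ (by omega))

theorem kron_near {a b a' b' : Type} {Y : Matrix a b A} {V : Matrix a b L} {Z : Matrix a' b' A}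
    {W : Matrix a' b' L} (hμ : 0 ≤ μ) (hY : MemM (fil B.π B.Ap μ) (Y - V.map c))
    (hZ : MemM (fil B.π B.Ap μ) (Z - W.map c)) (hV : MemM (fil B.π B.Ap (-(κ : ℤ))) (V.map c))
    (hW : MemM (fil B.π B.Ap (-(κ : ℤ))) (W.map c)) :
    MemM (fil B.π B.Ap (μ - κ)) (Y ⊗ₖ Z - (V ⊗ₖ W).map c) := by
  have : Y ⊗ₖ Z - (V ⊗ₖ W).map c = (Y - V.map c) ⊗ₖ (Z - W.map c) + (Y - V.map c) ⊗ₖ W.map c +
      V.map c ⊗ₖ (Z - W.map c) := by
    ext i j
    simp only [Matrix.sub_apply, Matrix.add_apply, Matrix.map_apply, kroneckerMap_apply, map_mul]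
    ring
  rw [this]
  exact (((hY.kron hZ).anti B.π_mem (by omega)).add ((hY.kron hW).lvl (by ring))).add
    ((hV.kron hZ).lvl (by ring))

theorem tens (hc : Cst P B c) {p' : ι' → Bool} {E : Matrix ι' ι' K} {Et : Matrix ι' ι' A}
    (X : Loc P B c p D γ Dt γt κ μ am) (X' : Loc P B c p' E (-γ) Et (-γt) κ μ am)
    {C e : ℕ} {γ' : L}
    (hγ : P.Dec C γ γ' e) (hγt : c γ' = γt) (ham : 2 * am ≤ C) (hμ : 0 ≤ μ) :
    Nonempty (Loc P B c (tpar p p') (tens p D E) 0 (tens p Dt Et) 0 (2 * κ + 2) (μ - κ - 2) am) := by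
  have hp := fun b b' => PairD.exists_pivot hγ (a := X.nf.a b) (a' := X'.nf.a b')
    (by have := X.nf.a_le b; omega) (by have := X'.nf.a_le b'; omega)
  choose x x₁ x₂ x₃ x₄ y₁ y₂ y₃ y₄ l₁ l₂ l₃ l₄ t₁ t₂ t₃ t₄ e₁ e₂ using hp
  obtain ⟨Z⟩ := pivot (am := am) (p := tpar (bpar X.nf.pb) (bpar X'.nf.pb)) hc
    (fun i => x i.1.1 i.2.1) (fun i => (l₁ _ _).trans (X.nf.a_le _))
    (tens_odd (dl_odd P.ϖ γ X.nf.a _) (dl_odd P.ϖ (-γ) X'.nf.a _)) (pvTh_odd _ _ x₁ x₂ x₃ x₄)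
    (tens_odd (dl_odd P.π γ' X.nf.a _) (dl_odd P.π (-γ') X'.nf.a _)) (pvTh_odd _ _ y₁ y₂ y₃ y₄)
    (by rw [tens_sq (dl_odd _ _ _ _) (dl_sq _ _ _) (dl_sq _ _ _), add_neg_cancel, zero_smul])
    (pvTh_contr _ _ _ _ _ _ e₁)
    (by rw [tens_sq (dl_odd _ _ _ _) (dl_sq _ _ _) (dl_sq _ _ _), add_neg_cancel, zero_smul])
    (pvTh_contr _ _ _ _ _ _ e₂)
    (fun i j => PairD.T_tens _ (PairD.T_dl hγ.2.1 _ _ _ (l₁ _ _) (l₃ _ _))
      (PairD.T_dl (PairD.T_neg hγ.2.1) _ _ _ (l₂ _ _) (l₄ _ _)))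
    (fun i j => PairD.T_tens _ (PairD.T_pvKb (t₃ _ _) (t₁ _ _) _ _)
      (PairD.T_pvKb (t₄ _ _) (t₂ _ _) _ _)) (μ + κ)
  rw [CWk_tens_map, dl_map c hc.cπ, dl_map c hc.cπ, map_neg, hγt] at Z
  refine Z.comp hc (κ₁ := 2 * κ) (μ₁ := μ - κ) (X.nf.evU.kron X'.nf.evU)
    (X.nf.evU'.kron X'.nf.evU') (X.nf.evV.kron X'.nf.evV) (X.nf.evV'.kron X'.nf.evV')
    (X.evY.kron X'.evY) (X.evY'.kron X'.evY') ((X.nf.UV.kron X'.nf.UV).lvl (by push_cast; ring))
    ((X.nf.UV'.kron X'.nf.UV').lvl (by push_cast; ring)) ?_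
    (tens_kron X.nf.evU X.nf.DU X'.nf.DU) (kron_tens X.nf.evU' X.nf.UD X'.nf.UD)
    (tens_kron X.evY X.DY X'.DY) (kron_tens X.evY' X.YD X'.YD)
    (kron_near hμ X.YV X'.YV (hc.mem X.nf.UV.snd) (hc.mem X'.nf.UV.snd))
    (kron_near hμ X.YV' X'.YV' (hc.mem X.nf.UV'.snd) (hc.mem X'.nf.UV'.snd))
    (by push_cast; omega) (by push_cast; omega) (by omega)
  rw [← mul_kronecker_mul, X.nf.UU', X'.nf.UU', one_kronecker_one]

/-- The Koszul complex where one coordinate is invertible. -/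
theorem kos (hc : Cst P B c) {n : ℕ} (z : Fin n → K) (z' : Fin n → L) (e : ℤ)
    (hz : ∀ i, (z i, z' i) ∈ P.T e) (i : Fin n) (y : K) (y' : L) (hy : z i * y = 1)
    (hy' : z' i * y' = 1) (hyT : (y, y') ∈ P.T (-e - 2)) (μ : ℤ) :
    Nonempty (Loc P B c (kpar n) (kos n z 0) 0 (kos n (fun i => c (z' i)) 0) 0 2 μ e) := by
  have hm : XL.kos n (fun i => c (z' i)) 0 = (XL.kos n z' 0).map c := by
    rw [kos_map]
    congr 1
    funext j
    simp
  rw [hm]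
  refine pivot hc (h := XL.kos n 0 (Pi.single i y)) (k := XL.kos n 0 (Pi.single i y')) (fun _ => e)
    (fun _ => le_rfl) (kos_odd _ _ _) (kos_odd _ _ _) (kos_odd _ _ _) (kos_odd _ _ _) ?_ ?_ ?_ ?_
    (PairD.TM_kos hz fun _ => (P.T e).zero_mem)
    (PairD.TM_kos (fun _ => (P.T _).zero_mem) fun j => ?_) μ
  · simp [kos_sq]
  · simp [kos_anti, Pi.single_apply, hy]
  · simp [kos_sq]
  · simp [kos_anti, Pi.single_apply, hy']
  · by_cases h : j = i
    · subst h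
      simpa using hyT
    · rw [Pi.single_eq_of_ne h, Pi.single_eq_of_ne h]
      exact (P.T _).zero_mem

end Loc

end Pool.Agent.P.MP_f43029_ag.XL
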