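import Pool.Agent.P.MP_f43029_ag.XL.LEx
import Pool.Agent.P.MP_f43029_ag.XL.LCmq
import Pool.Agent.P.MP_f43029_ag.XL.LTens
import Pool.Agent.P.MP_f43029_ag.Mx.Struct

/-!
Exact lifts: closure properties and comparison of global lifts.
-/

set_option autoImplicit false

noncomputable section

namespace Pool.Agent.P.MP_f43029_ag.XL

open Matrix

variable {n : ℕ} {K F : Type} [Field K] [Field F] [CharZero K] [CharZero F] [Algebra K F]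
  {𝔸 : Amb n K F} {R : Type} [CommRing R] {q : ℕ} {J : Type}
  {𝔅 𝔅' : 𝔸.Sys J} {𝒬 : PSys 𝔸 R q} {ι ι' : Type} [Fintype ι] [DecidableEq ι] [Fintype ι']
  [DecidableEq ι'] {p : ι → Bool} {p' : ι' → Bool} {D D' : Matrix ι ι (𝒬.KK 𝔸.c0)}
  {E : Matrix ι' ι' (𝒬.KK 𝔸.c0)} {γ : 𝒬.KK 𝔸.c0} {γ₀ : 𝔸.loc (𝔸.cell ∅)} {κ : ℕ} {μ am : ℤ}

theorem Pot.neg {h : 𝔅.Nice} {C : ℕ} (hγ : Pot 𝒬 h C γ γ₀) : Pot 𝒬 h C (-γ) (-γ₀) := fun v => by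
  obtain ⟨e, he⟩ := hγ v
  exact ⟨e, (congrArg₂ (fun a b => (𝒬.P _).Dec C a b e) (map_neg _ _)
    (map_neg (𝔸.incl (B := 𝔸.c0) (B' := h.cel (vf v)) (h.base _)) γ₀)).mpr he.neg⟩

theorem pot_zero (𝒬 : PSys 𝔸 R q) (h : 𝔅.Nice) (C : ℕ) : Pot 𝒬 h C 0 0 := fun v =>
  ⟨C, (congrArg₂ (fun a b => (𝒬.P _).Dec C a b C) (map_zero _)
    (map_zero (𝔸.incl (B := 𝔸.c0) (B' := h.cel (vf v)) (h.base _)))).mpr (PairD.Dec.zero _ C)⟩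

theorem Loc.cast {K L A : Type} [CommRing K] [CommRing L] [CommRing A] {P : PairD K L q}
    {B : Bdd A} {c : L →+* A} {D D' : Matrix ι ι K} {γ γ' : K} {Dt Dt' : Matrix ι ι A}
    {γt γt' : A} (X : Nonempty (Loc P B c p D γ Dt γt κ μ am)) (e₁ : D = D') (e₂ : γ = γ')
    (e₃ : Dt = Dt') (e₄ : γt = γt') : Nonempty (Loc P B c p D' γ' Dt' γt' κ μ am) := by
  subst e₁ e₂ e₃ e₄
  exact X

theorem Amb.Sys.Nice.mpA_c (h : 𝔅.Nice) (h' : 𝔅'.Nice) (l : 𝔅 ≤ 𝔅') (y : 𝔸.loc (𝔸.cell ∅)) :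
    Amb.Sys.mpA l (h.c y) = h'.c y := Amb.Sys.mpA_cF _ _ _ _ _ rfl

theorem map_sq {A A' : Type} [CommRing A] [CommRing A'] (φ : A →+* A') {X : Matrix ι ι A} {y : A}
    (h : X * X = y • (1 : Matrix ι ι A)) : X.map φ * X.map φ = φ y • (1 : Matrix ι ι A') := by
  rw [← Matrix.map_mul, h, Matrix.map_smul' _ _ _ (map_mul φ),
    Matrix.map_one _ (map_zero _) (map_one _)]

namespace Lift

variable {h : 𝔅.Nice} {Dt Dt' : Matrix ι ι 𝔅.A} {Et : Matrix ι' ι' 𝔅.A}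

theorem mono (X : Lift 𝒬 h p D γ γ₀ Dt κ μ am) {κ' : ℕ} {μ' am' : ℤ} (hκ : κ ≤ κ') (hμ : μ' ≤ μ)
    (ham : am ≤ am') : Lift 𝒬 h p D γ γ₀ Dt κ' μ' am' :=
  ⟨X.odd, X.sq, fun v => (X.loc v).some.mono hκ hμ ham⟩

theorem le (X : Lift 𝒬 h p D γ γ₀ Dt κ μ am) (h' : 𝔅'.Nice) (l : 𝔅 ≤ 𝔅') :
    Lift 𝒬 h' p D γ γ₀ (Dt.map (Amb.Sys.mpA l)) κ μ am := by
  refine ⟨oddM_map X.odd (map_zero _), by rw [map_sq _ X.sq, h.mpA_c h'], fun v => ?_⟩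
  have l₁ : h.cel (vf v) ≤ h'.cel (vf v) := l _
  have l₂ : 𝔅.on (St (vf v)) ≤ 𝔅'.on (St (vf v)) := Amb.Sys.on_le_on' l le_rfl
  have e : ∀ y, Amb.Sys.mpA l₂ (𝔅.rs (vf v) y) = 𝔅'.rs (vf v) (Amb.Sys.mpA l y) := fun y =>
    (Amb.Sys.mpA_mpA _ _ (fun σ => (l σ).trans (𝔅'.le_on _ σ)) _).trans
      (Amb.Sys.mpA_mpA _ _ _ _).symm
  refine Loc.cast ((X.loc v).some.map (𝒬.hom l₁) (Amb.Sys.mpA l₂) (Amb.Sys.mpA_π _)
    (fun _ => Amb.Sys.mpA_Ap _) (h.mp_cst h' l₁ l₂)) ?_ (𝒬.mp_r _ _) ?_ (by rw [e, h.mpA_c h'])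
  · ext i j
    exact 𝒬.mp_r _ _
  · ext i j
    exact e _

theorem sum (X : Lift 𝒬 h p D γ γ₀ Dt κ μ am) (X' : Lift 𝒬 h p' E γ γ₀ Et κ μ am) :
    Lift 𝒬 h (Sum.elim p p') (fromBlocks D 0 0 E) γ γ₀ (fromBlocks Dt 0 0 Et) κ μ am := by
  refine ⟨?_, ?_, fun v => Loc.cast ((X.loc v).some.sum (X'.loc v).some) ?_ rfl ?_ rfl⟩
  · rintro (i | i) (j | j) hij
    exacts [X.odd i j hij, rfl, rfl, X'.odd i j hij]
  · rw [fromBlocks_multiply, X.sq, X'.sq, ← fromBlocks_one, fromBlocks_smul]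
    simp only [Matrix.mul_zero, Matrix.zero_mul, add_zero, zero_add, smul_zero]
  · rw [fromBlocks_map, Matrix.map_zero _ (map_zero _), Matrix.map_zero _ (map_zero _)]
  · rw [fromBlocks_map, Matrix.map_zero _ (map_zero _), Matrix.map_zero _ (map_zero _)]

theorem transpose (X : Lift 𝒬 h p D γ γ₀ Dt κ μ am) :
    Lift 𝒬 h (fun i => !p i) Dᵀ γ γ₀ Dtᵀ κ μ am :=
  ⟨oddM_flip (oddM_transpose X.odd), by rw [← transpose_mul, X.sq, transpose_smul, transpose_one],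
    fun v => (X.loc v).some.transpose⟩

theorem perturb (X : Lift 𝒬 h p D γ γ₀ Dt κ μ am) (hq : 1 ≤ q) (o₁ : OddM p p D)
    (o₂ : OddM p p D') (hD : D * D = γ • (1 : Matrix ι ι _)) (hD' : D' * D' = γ • (1 : Matrix ι ι _))
    (hs : ∀ v : J → Bool, ∃ k : Matrix ι ι (𝒬.KK (h.cel (vf v))), OddM p p k ∧
      D.map (𝒬.r _) * k + k * D.map (𝒬.r _) = 1 ∧
      MemM (fil (𝒬.P _).ϖ (𝒬.P _).S q) ((D'.map (𝒬.r _) - D.map (𝒬.r _)) * k)) :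
    Lift 𝒬 h p D' γ γ₀ Dt κ μ am := by
  refine ⟨X.odd, X.sq, fun v => ?_⟩
  obtain ⟨k, h₁, h₂, h₃⟩ := hs v
  exact (X.loc v).some.perturb hq (oddM_map o₁ (map_zero _)) (oddM_map o₂ (map_zero _)) h₁
    (map_sq _ hD) (map_sq _ hD') h₂ h₃

variable [DecidableEq J]

theorem ev (X : Lift 𝒬 h p D γ γ₀ Dt κ μ am) (j : J) (b : Bool) (l : 𝔅.upd j b ≤ 𝔅.upd j b) :
    Lift 𝒬 (h.upd j b) p D γ γ₀ (Dt.map (Amb.Sys.evA j b l)) κ μ am := by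
  have ec : Amb.Sys.evA j b l (h.c γ₀) = (h.upd j b).c γ₀ := Amb.Sys.evA_cF _ _ _ _ _ _ _ rfl
  refine ⟨oddM_map X.odd (map_zero _), by rw [map_sq _ X.sq, ec], fun v => ?_⟩
  have hv : vf (Function.update v j b) = Function.update (vf v) j (some b) := by
    ext1 i
    by_cases hi : i = j
    · subst hi
      simp [vf]
    · simp [vf, Function.update_of_ne hi]
  have l₁ : h.cel (vf (Function.update v j b)) ≤ (h.upd j b).cel (vf v) := by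
    rw [hv]
    exact le_rfl
  have l₂ : (𝔅.on (St (vf (Function.update v j b)))).upd j b ≤ (𝔅.upd j b).on (St (vf v)) := by
    intro σ
    by_cases hσ : σ ∈ St (vf v)
    · rw [Amb.Sys.on_B _ hσ]
      refine (Amb.Sys.on_B _ (σ := Function.update σ j (some b)) fun i => ?_).le
      rw [hv]
      by_cases hi : i = j
      · subst hi
        simp
      · simpa [Function.update_of_ne hi] using hσ i
    · rw [Amb.Sys.on_B_top _ hσ]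
      exact le_top
  have e : ∀ y, Amb.Sys.evA j b l₂ (𝔅.rs _ y) = (𝔅.upd j b).rs (vf v) (Amb.Sys.evA j b l y) :=
    fun y => Amb.Sys.evA_mpA _ _ _ _ _ _ y
  refine Loc.cast ((X.loc (Function.update v j b)).some.map (𝒬.hom l₁) (Amb.Sys.evA j b l₂)
    (Amb.Sys.evA_π _ _ _) (fun _ => Amb.Sys.evA_Ap _ _ _) fun y =>
      Amb.Sys.evA_cF j b l₂ (h.le_star _) ((h.upd j b).le_star _) y _ (coe_incl l₁ y).symm)
    ?_ (𝒬.mp_r _ _) ?_ (by rw [e, ec])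
  · ext i j
    exact 𝒬.mp_r _ _
  · ext i j
    exact e _

variable [Fintype J]

omit [DecidableEq J] in
theorem tens (X : Lift 𝒬 h p D γ γ₀ Dt κ μ am) (X' : Lift 𝒬 h p' E (-γ) (-γ₀) Et κ μ am) {C : ℕ}
    (hγ : Pot 𝒬 h C γ γ₀) (ham : 2 * am ≤ C) (hμ : 0 ≤ μ) :
    Lift 𝒬 h (tpar p p') (tens p D E) 0 0 (tens p Dt Et) (2 * κ + 2) (μ - κ - 2) am := by
  refine ⟨tens_odd X.odd X'.odd, ?_, fun v => ?_⟩
  · rw [tens_sq X.odd X.sq X'.sq, map_neg, add_neg_cancel, map_zero]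
  obtain ⟨e, he⟩ := hγ v
  refine Loc.cast ((X.loc v).some.tens (h.cst_ok 𝒬 _)
    (Loc.cast (X'.loc v) rfl (map_neg _ _) rfl (by rw [map_neg, map_neg])).some he (h.rs_c _ _)
    ham hμ) (tens_map _ _ _ _).symm (map_zero _).symm (tens_map _ _ _ _).symm
    (by rw [map_zero, map_zero])

theorem cmp (X : Lift 𝒬 h p D γ γ₀ Dt κ μ am) (X' : Lift 𝒬 h p D' γ γ₀ Dt' κ μ am) {C : ℕ}
    (hγ : Pot 𝒬 h C γ γ₀) (ham : 2 * am ≤ C) (hμ : 5 * (κ : ℤ) + 1 ≤ μ) (hq : 6 * κ + 3 ≤ q)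
    (w : ι → ℤ) (hw : ∀ i, |w i| ≤ κ) (hG : dg (𝒬.P 𝔸.c0).ϖ w * D' = D * dg (𝒬.P 𝔸.c0).ϖ w) :
    ∃ Z, EvenM p p Z ∧ MemM (fil 𝔅.bdd.π 𝔅.bdd.Ap 1) (Z - 1) ∧
      dg 𝔅.bdd.π w * Z * Dt' = Dt * (dg 𝔅.bdd.π w * Z) := by
  refine 𝔅.cov₁.cmp fun v => ?_
  obtain ⟨e, he⟩ := hγ v
  have hG' := congrArg (·.map (𝒬.r (h.cel (vf v)))) hG
  simp only [Matrix.map_mul] at hG'
  rw [dg_map (𝒬.r _) (𝒬.mp_ϖ _)] at hG'
  rw [dg_map (𝔅.rs _) (Amb.Sys.mpA_π _)]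
  exact (X.loc v).some.cmp' (h.cst_ok 𝒬 _) (X'.loc v).some he (h.rs_c _ _) ham hμ hq w hw hG'

theorem contr (X : Lift 𝒬 h p D γ γ₀ Dt κ μ am) (hμ : (κ : ℤ) + 1 ≤ μ) (hq : 2 * κ + 1 ≤ q) :
    ∃ k, OddM p p k ∧ Dt * k + k * Dt = 1 ∧ MemM (fil 𝔅.bdd.π 𝔅.bdd.Ap (-am - 2 * κ)) k :=
  𝔅.cov₁.contr fun v => (X.loc v).some.contr' (h.cst_ok 𝒬 _) hμ hq

end Lift

end Pool.Agent.P.MP_f43029_ag.XL
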