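import Pool.Agent.P.MP_f43029_ag.XL.LApi

/-!
Exact lifts, pure algebra: the idempotent trick.
-/

set_option autoImplicit false

noncomputable section

namespace Pool.Agent.P.MP_f43029_ag.XL

open Matrix

namespace Bdd

variable {A : Type} [CommRing A] (B : Bdd A) {σ ι : Type} [Fintype σ] [DecidableEq σ] [Fintype ι]
  [DecidableEq ι]

/-- The Catalan series of a small matrix. -/
theorem exists_catalan {a : ℤ} (ha : 1 ≤ a) {w : Matrix σ σ A} (hw : MemM (fil B.π B.Ap a) w) :
    ∃ c : Matrix σ σ A, c = 1 + w * (c * c) ∧ MemM (fil B.π B.Ap 0) c ∧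
      ∀ y, y * w = w * y → y * c = c * y := by
  obtain ⟨ev, hX, hm, hc⟩ := B.cat σ w (hw.anti B.π_mem ha)
  refine ⟨ev (PowerSeries.map (Nat.castRingHom ℤ) PowerSeries.catalanSeries), ?_, hm _, hc _⟩
  have h := congrArg (fun s => ev (PowerSeries.map (Nat.castRingHom ℤ) s))
    PowerSeries.catalanSeries_sq_mul_X_add_one
  simp only [map_add, map_mul, map_one, PowerSeries.map_X, sq] at h
  have h2 : ∀ s : PowerSeries ℤ, ev PowerSeries.X * (ev s * ev s) =
      ev s * ev s * ev PowerSeries.X := fun s => by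
    rw [← map_mul, ← map_mul, ← map_mul, mul_comm]
  rw [← hX, h2, add_comm]
  exact h.symm

/-- An approximate idempotent `e` is corrected to the idempotent `e * E`. -/
theorem exists_idem {a l : ℤ} (ha : 1 ≤ a) (hl : 0 ≤ l) {e : Matrix σ σ A}
    (he : MemM (fil B.π B.Ap (-l)) e) (hw : MemM (fil B.π B.Ap a) (e - e * e)) :
    ∃ E : Matrix σ σ A, e * E * (e * E) = e * E ∧ MemM (fil B.π B.Ap (a - l)) (e * E - e) ∧
      ∀ y, y * e = e * y → y * E = E * y := by
  obtain ⟨c, hc, hcm, hcc⟩ := B.exists_catalan ha hw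
  set w := e - e * e with hwd
  have hwc : MemM (fil B.π B.Ap a) (w * c) := (hw.mul hcm).lvl (add_zero a)
  obtain ⟨g, g1, g2, g3, g4⟩ := B.inv_one_sub ha (hwc.add hwc)
  have cw : ∀ y, y * e = e * y → y * w = w * y := fun y hy => by
    rw [hwd, mul_sub, sub_mul, ← mul_assoc, hy, mul_assoc, hy, mul_assoc]
  have cwc : ∀ y, y * e = e * y → y * (w * c + w * c) = (w * c + w * c) * y := fun y hy => by
    rw [mul_add, add_mul, ← mul_assoc, cw y hy, mul_assoc, hcc y (cw y hy), mul_assoc]
  have ec : e * c = c * e := hcc e (cw e rfl)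
  have ew : e * w = w * e := cw e rfl
  have wc : w * c = c * w := hcc w rfl
  have eg : e * g = g * e := g4 e (cwc e rfl)
  have key : e * ((1 + (e - 1) * c) * g) = (e - w * c) * g := by
    rw [← mul_assoc, mul_add, mul_one, ← mul_assoc, mul_sub, mul_one, hwd]
    congr 1
    rw [sub_mul, sub_mul]
    abel
  have hxg : (w * c) * g = g * (w * c) := by
    refine g4 _ ?_
    rw [mul_add, add_mul]
  have hsq : (e - w * c) * (e - w * c) = (e - w * c) * (1 - (w * c + w * c)) := by
    have h1 : w * c * e = e * (w * c) := by rw [mul_assoc, ← ec, ← mul_assoc, ← ew, mul_assoc]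
    have h2 : w * c * (w * c) = w * c - w := by
      have : w * c = w * (1 + w * (c * c)) := by rw [← hc]
      rw [mul_add, mul_one] at this
      calc w * c * (w * c) = w * (c * w) * c := by simp only [mul_assoc]
        _ = w * (w * (c * c)) := by rw [← wc]; simp only [mul_assoc]
        _ = w * c - w := by rw [eq_sub_iff_add_eq, add_comm]; exact this.symm
    have h3 : e * e = e - w := by rw [hwd]; abel
    simp only [mul_sub, sub_mul, mul_add, mul_one, h1, h2, h3]
    abel
  refine ⟨(1 + (e - 1) * c) * g, ?_, ?_, fun y hy => ?_⟩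
  · rw [key]
    have hg : g * (e - w * c) = (e - w * c) * g :=
      calc g * (e - w * c) = g * e - g * (w * c) := mul_sub _ _ _
        _ = e * g - w * c * g := by rw [eg, hxg]
        _ = _ := (sub_mul _ _ _).symm
    calc (e - w * c) * g * ((e - w * c) * g) = (e - w * c) * (g * (e - w * c)) * g := by
          simp only [mul_assoc]
      _ = (e - w * c) * (e - w * c) * g * g := by rw [hg]; simp only [mul_assoc]
      _ = (e - w * c) * g := by rw [hsq, mul_assoc (e - w * c), g1, mul_one]
  · rw [key]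
    have h1 : (e - w * c) * g - e = e * (g - 1) - (w * c * (g - 1) + w * c) := by
      simp only [mul_sub, sub_mul, mul_one]
      abel
    rw [h1]
    exact ((he.mul g3).lvl (by ring)).sub
      (((hwc.mul g3).anti B.π_mem (by omega)).add (hwc.anti B.π_mem (by omega)))
  · have yc := hcc y (cw y hy)
    have yg := g4 y (cwc y hy)
    have : y * (1 + (e - 1) * c) = (1 + (e - 1) * c) * y := by
      rw [mul_add, add_mul, mul_one, one_mul, ← mul_assoc, mul_sub, hy, mul_one, mul_assoc, ← yc,
        ← mul_assoc, sub_mul e 1 y, one_mul]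
    rw [← mul_assoc, this, mul_assoc, yg, ← mul_assoc]

/-- The idempotent trick: a differential on an approximate retract gives an exact differential. -/
theorem idem_lift {pσ : σ → Bool} {p : ι → Bool} {e DD : Matrix σ σ A} {io : Matrix σ ι A}
    {ro : Matrix ι σ A} {γ : A} {l m : ℤ} (hl : 0 ≤ l) (hm : 8 * l + 1 ≤ m)
    (he : EvenM pσ pσ e) (hD : OddM pσ pσ DD) (hio : EvenM pσ p io) (hro : EvenM p pσ ro)
    (hc : e * DD = DD * e) (hsq : DD * DD = γ • (e * e))
    (bio : MemM (fil B.π B.Ap (-l)) io) (bro : MemM (fil B.π B.Ap (-l)) ro)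
    (h1 : MemM (fil B.π B.Ap m) (ro * io - 1)) (h2 : MemM (fil B.π B.Ap m) (io * ro - e)) :
    ∃ (Dt : Matrix ι ι A) (t : Matrix ι σ A) (s : Matrix σ ι A) (E : Matrix σ σ A),
      OddM p p Dt ∧ Dt * Dt = γ • (1 : Matrix ι ι A) ∧ EvenM p pσ t ∧ EvenM pσ p s ∧
      Dt * t = t * E * DD ∧ t * E * e = t ∧ s * Dt = DD * E * s ∧ e * E * s = s ∧
      MemM (fil B.π B.Ap (m - 7 * l)) (t - ro) ∧ MemM (fil B.π B.Ap (m - 5 * l)) (s - io) := by
  have hπ := B.π_mem
  obtain ⟨η, hη⟩ : ∃ x, x = io * ro - e := ⟨_, rfl⟩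
  obtain ⟨ζ, hζ⟩ : ∃ x, x = ro * io - 1 := ⟨_, rfl⟩
  rw [← hη] at h2
  rw [← hζ] at h1
  have bP : MemM (fil B.π B.Ap (-(2 * l))) (io * ro) := (bio.mul bro).lvl (by ring)
  have e_eq : e = io * ro - η := by rw [hη]; abel
  have ri : ro * io = 1 + ζ := by rw [hζ]; abel
  have be : MemM (fil B.π B.Ap (-(2 * l))) e := by
    rw [e_eq]
    exact bP.sub (h2.anti hπ (by omega))
  have hw : MemM (fil B.π B.Ap (m - 2 * l)) (e - e * e) := by
    have h3 : io * ro * (io * ro) = io * ro + io * ζ * ro := by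
      calc io * ro * (io * ro) = io * (ro * io) * ro := by simp only [Matrix.mul_assoc]
        _ = _ := by rw [ri, Matrix.mul_add, Matrix.mul_one, Matrix.add_mul]
    have : e - e * e = io * ro * η + η * (io * ro) - η - io * ζ * ro - η * η := by
      conv_lhs => rw [e_eq]
      rw [sub_mul, mul_sub, mul_sub, h3]
      abel
    rw [this]
    exact (((((bP.mul h2).lvl (by ring)).add ((h2.mul bP).lvl (by ring))).sub
      (h2.anti hπ (by omega))).sub (((bio.mul h1).mul bro).lvl (by ring))).sub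
      ((h2.mul h2).anti hπ (by omega))
  obtain ⟨E, hid, hE, hcE⟩ := B.exists_idem (a := m - 2 * l) (l := 2 * l) (by omega) (by omega)
    be hw
  have eE : e * E = E * e := hcE e rfl
  have dE : DD * E = E * DD := hcE DD hc.symm
  have evE : EvenM pσ pσ E :=
    (evenM_iff_comm pσ E).2 (hcE _ ((evenM_iff_comm pσ e).1 he))
  obtain ⟨ê, hê⟩ : ∃ x, x = e * E := ⟨_, rfl⟩
  rw [← hê] at hid hE
  have evê : EvenM pσ pσ ê := hê ▸ he.mul evE
  have hθ : MemM (fil B.π B.Ap (m - 4 * l)) (ê - e) := hE.lvl (by ring)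
  have dê : DD * ê = ê * DD := by rw [hê, ← mul_assoc, ← hc, mul_assoc, dE, mul_assoc]
  have Eê : E * ê = ê * E := by rw [hê, ← mul_assoc, ← eE]
  -- the two sides
  have hs : MemM (fil B.π B.Ap (m - 5 * l)) (ê * io - io) := by
    have : ê * io - io = (ê - e) * io + (io * ζ - η * io) := by
      conv_rhs => rw [Matrix.sub_mul, e_eq, Matrix.sub_mul, Matrix.mul_assoc, ri, Matrix.mul_add,
        Matrix.mul_one]
      abel
    rw [this]
    exact ((hθ.mul bio).lvl (by ring)).add
      (((bio.mul h1).anti hπ (by omega)).sub ((h2.mul bio).anti hπ (by omega)))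
  have hr : MemM (fil B.π B.Ap (m - 5 * l)) (ro * ê - ro) := by
    have : ro * ê - ro = ro * (ê - e) + (ζ * ro - ro * η) := by
      conv_rhs => rw [Matrix.mul_sub, e_eq, Matrix.mul_sub, ← Matrix.mul_assoc, ri, Matrix.add_mul,
        Matrix.one_mul]
      abel
    rw [this]
    exact ((bro.mul hθ).lvl (by ring)).add
      (((h1.mul bro).anti hπ (by omega)).sub ((bro.mul h2).anti hπ (by omega)))
  have hN : MemM (fil B.π B.Ap (m - 6 * l)) (ro * ê * io - 1) := by
    have : ro * ê * io - 1 = (ro * ê - ro) * io + ζ := by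
      rw [Matrix.sub_mul, hζ]
      abel
    rw [this]
    exact ((hr.mul bio).lvl (by ring)).add (h1.anti hπ (by omega))
  obtain ⟨k, k1, k2, k3, k4⟩ := B.inv_near (by omega) hN
  have evk : EvenM p p k := k4 p ((hro.mul evê).mul hio)
  have brê : MemM (fil B.π B.Ap (-l)) (ro * ê) := by
    have : ro * ê = ro * ê - ro + ro := by abel
    rw [this]
    exact (hr.anti hπ (by omega)).add bro
  obtain ⟨t, ht⟩ : ∃ x, x = k * (ro * ê) := ⟨_, rfl⟩
  obtain ⟨s, hsd⟩ : ∃ x, x = ê * io := ⟨_, rfl⟩
  rw [← hsd] at hs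
  have bt : MemM (fil B.π B.Ap (m - 7 * l)) (t - ro) := by
    have : t - ro = (k - 1) * (ro * ê) + (ro * ê - ro) := by
      rw [ht, Matrix.sub_mul, Matrix.one_mul]
      abel
    rw [this]
    exact ((k3.mul brê).lvl (by ring)).add (hr.anti hπ (by omega))
  have tê : t * ê = t := by rw [ht, Matrix.mul_assoc, Matrix.mul_assoc, hid]
  have ês : ê * s = s := by rw [hsd, ← Matrix.mul_assoc, hid]
  have ts : t * s = 1 := by
    rw [hsd, ← Matrix.mul_assoc, tê, ht, Matrix.mul_assoc, k2]
  have st : s * t = ê := by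
    have hsm : MemM (fil B.π B.Ap (m - 8 * l)) (ê - s * t) := by
      have : ê - s * t = (ê - e) - η - (s - io) * ro - io * (t - ro) - (s - io) * (t - ro) := by
        rw [hη]
        simp only [Matrix.sub_mul, Matrix.mul_sub]
        abel
      rw [this]
      exact ((((hθ.anti hπ (by omega)).sub (h2.anti hπ (by omega))).sub
        ((hs.mul bro).anti hπ (by omega))).sub ((bio.mul bt).lvl (by ring))).sub
        ((hs.mul bt).anti hπ (by omega))
    have hidem : (ê - s * t) * (ê - s * t) = ê - s * t := by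
      have a1 : ê * (s * t) = s * t := by rw [← Matrix.mul_assoc, ês]
      have a2 : s * t * ê = s * t := by rw [Matrix.mul_assoc, tê]
      have a3 : s * t * (s * t) = s * t := by
        rw [Matrix.mul_assoc, ← Matrix.mul_assoc t, ts, Matrix.one_mul]
      rw [mul_sub, sub_mul, sub_mul, hid, a1, a2, a3]
      abel
    exact (sub_eq_zero.1 (B.idem_eq_zero (by omega) hsm hidem)).symm
  have evt : EvenM p pσ t := ht ▸ evk.mul (hro.mul evê)
  have evs : EvenM pσ p s := hsd ▸ evê.mul hio
  have cê : DD * E * ê = ê * (DD * E) := by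
    rw [mul_assoc, Eê, ← mul_assoc, dê, mul_assoc]
  refine ⟨t * (DD * E) * s, t, s, E, oddM_mul_even (evt.mul_odd (oddM_mul_even hD evE)) evs, ?_,
    evt, evs, ?_, ?_, ?_, hê ▸ ês, bt, hs⟩
  · have h3 : DD * E * ê * (DD * E) = γ • ê := by
      calc DD * E * ê * (DD * E) = ê * (DD * (E * DD) * E) := by
            rw [cê]; simp only [mul_assoc]
        _ = ê * (DD * DD * (E * E)) := by rw [← dE]; simp only [mul_assoc]
        _ = γ • (ê * (e * (e * E) * E)) := by
            rw [hsq, smul_mul_assoc, mul_smul_comm]; simp only [mul_assoc]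
        _ = γ • (ê * (ê * ê)) := by
            congr 2
            rw [hê, mul_assoc e E, ← mul_assoc E e, ← eE]
            simp only [mul_assoc]
        _ = γ • ê := by rw [hid, hid]
    calc t * (DD * E) * s * (t * (DD * E) * s) = t * (DD * E * (s * t) * (DD * E)) * s := by
          simp only [Matrix.mul_assoc]
      _ = γ • (t * ê * s) := by rw [st, h3, Matrix.mul_smul, Matrix.smul_mul]
      _ = _ := by rw [tê, ts]
  · calc t * (DD * E) * s * t = t * (DD * E * (s * t)) := by simp only [Matrix.mul_assoc]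
      _ = t * E * DD := by rw [st, cê, ← Matrix.mul_assoc, tê, dE, Matrix.mul_assoc]
  · rw [Matrix.mul_assoc, ← eE, ← hê, tê]
  · calc s * (t * (DD * E) * s) = s * t * (DD * E) * s := by simp only [Matrix.mul_assoc]
      _ = DD * E * s := by rw [st, ← cê, Matrix.mul_assoc, ês]

end Bdd

end Pool.Agent.P.MP_f43029_ag.XL
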