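import Pool.Agent.P.MP_f43029_ag.XL.TPair
import Pool.Agent.P.MP_f43029_ag.Gr

/-!
The ambient fields: constants with a root of `p`, rational functions with derivations and residue.
-/

set_option autoImplicit false

noncomputable section

namespace Pool.Agent.P.MP_f43029_ag.XL

open Pool.Agent.Theta

section Const

variable (p : ℕ) [hp : Fact p.Prime] (k : Type) [Field k] [CharP k p] [PerfectRing k p]

omit [PerfectRing k p] in
theorem witt_charZero : CharZero (WittVector p k) := by
  obtain ⟨r, hr⟩ := CharP.exists (WittVector p k)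
  rcases CharP.char_is_prime_or_zero (WittVector p k) r with h | rfl
  · have h1 : (r : k) = 0 := by
      rw [← map_natCast (WittVector.constantCoeff (p := p) (R := k)), CharP.cast_eq_zero, map_zero]
    have h2 := (Nat.prime_dvd_prime_iff_eq hp.out h).mp ((CharP.cast_eq_zero_iff k p r).mp h1)
    exact absurd (h2 ▸ CharP.cast_eq_zero (WittVector p k) r) (WittVector.p_nonzero p k)
  · exact CharP.charP_to_charZero _

/-- The field of constants. -/
abbrev KW : Type := AlgebraicClosure (FractionRing (WittVector p k))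

omit [PerfectRing k p] in
theorem kw_inj : Function.Injective (algebraMap (WittVector p k) (KW p k)) := by
  rw [IsScalarTower.algebraMap_eq _ (FractionRing (WittVector p k))]
  exact (algebraMap (FractionRing (WittVector p k)) (KW p k)).injective.comp
    (IsFractionRing.injective _ _)

instance kw_charZero : CharZero (KW p k) :=
  have := witt_charZero p k
  charZero_of_injective_algebraMap (kw_inj p k)

theorem exists_consts {M : ℕ} (hM : 0 < M) : ∃ (V : Subring (KW p k)) (π : (KW p k)ˣ),
    IsNoetherianRing V ∧ (π : KW p k) ∈ V ∧ ((π⁻¹ : (KW p k)ˣ) : KW p k) ∉ V ∧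
    (π : KW p k) ^ M = p ∧ (∀ a, algebraMap (WittVector p k) (KW p k) a ∈ V) ∧
    ∀ N j : ℕ, N ≤ 2 ^ j → ((N : KW p k))⁻¹ ∈ fil π V (-((M * j : ℕ) : ℤ)) := by
  obtain ⟨π, hπ⟩ := IsAlgClosed.exists_pow_nat_eq (p : KW p k) hM
  have hp0 : (p : KW p k) ≠ 0 := Nat.cast_ne_zero.mpr hp.out.ne_zero
  have h0 : π ≠ 0 := fun h => hp0 (by rw [← hπ, h, zero_pow hM.ne'])
  let V := Algebra.adjoin (WittVector p k) {π}
  have hi : IsIntegral (WittVector p k) π := IsIntegral.of_pow hM (by
    rw [hπ, ← map_natCast (algebraMap (WittVector p k) (KW p k))]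
    exact isIntegral_algebraMap)
  have hV : π ∈ V := Algebra.self_mem_adjoin_singleton _ _
  refine ⟨V.toSubring, Units.mk0 π h0, ?_, hV, fun h => ?_, hπ, V.algebraMap_mem, fun N j hN => ?_⟩
  · have : Algebra.FiniteType (WittVector p k) V :=
      (Subalgebra.fg_iff_finiteType _).mp ⟨{π}, by simp [V]⟩
    exact Algebra.FiniteType.isNoetherianRing (WittVector p k) V
  · have h1 : IsIntegral (WittVector p k) π⁻¹ :=
      adjoin_le_integralClosure hi (by simpa using h)
    have h2 : IsIntegral (WittVector p k) ((p : FractionRing (WittVector p k))⁻¹) := by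
      rw [← isIntegral_algHom_iff (IsScalarTower.toAlgHom (WittVector p k)
        (FractionRing (WittVector p k)) (KW p k)) (algebraMap (FractionRing (WittVector p k)) (KW p k)).injective]
      rw [map_inv₀, map_natCast, ← hπ, ← inv_pow]
      exact h1.pow M
    obtain ⟨y, hy⟩ := IsIntegrallyClosed.isIntegral_iff.mp h2
    refine (WittVector.irreducible p (k := k)).not_isUnit (IsUnit.of_mul_eq_one y ?_)
    apply IsFractionRing.injective (WittVector p k) (FractionRing (WittVector p k))
    rw [map_mul, hy, map_natCast, map_one, mul_inv_cancel₀ (WittVector.FractionRing.p_nonzero p k)]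
  · rcases Nat.eq_zero_or_pos N with rfl | hN0
    · simp
    obtain ⟨a, u, hu, rfl⟩ := Nat.exists_eq_pow_mul_and_not_dvd hN0.ne' p hp.out.ne_one
    have ha : a ≤ j := by
      have h1 : 2 ^ a ≤ p ^ a := Nat.pow_le_pow_left hp.out.two_le a
      have h2 : p ^ a ≤ p ^ a * u :=
        Nat.le_mul_of_pos_right _ (Nat.pos_of_ne_zero fun h => hu (h ▸ dvd_zero _))
      exact (Nat.pow_le_pow_iff_right one_lt_two).mp (h1.trans (h2.trans hN))
    obtain ⟨b, rfl⟩ := Nat.exists_eq_add_of_le ha
    obtain ⟨v, hv⟩ := (WittVector.isUnit_of_coeff_zero_ne_zero (u : WittVector p k) (by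
      rw [← WittVector.constantCoeff_apply, map_natCast, Ne, CharP.cast_eq_zero_iff k p]
      exact hu)).exists_right_inv
    have h3 : (u : KW p k)⁻¹ = algebraMap (WittVector p k) (KW p k) v := by
      refine (eq_inv_of_mul_eq_one_right ?_).symm
      rw [← map_natCast (algebraMap (WittVector p k) (KW p k)), ← map_mul, hv, map_one]
    rw [mem_fil, neg_neg, zpow_natCast, Units.val_pow_eq_pow_val, Units.val_mk0, pow_mul, hπ,
      Nat.cast_mul, Nat.cast_pow, mul_inv, pow_add, h3, mul_mul_mul_comm,
      mul_inv_cancel₀ (pow_ne_zero _ hp0), one_mul]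
    exact V.mul_mem (V.pow_mem (natCast_mem V p) b) (V.algebraMap_mem v)

end Const

section Fn

variable (n : ℕ) (K : Type) [Field K]

/-- The field of rational functions. -/
abbrev FW : Type := FractionRing (MvPolynomial (Fin n) K)

/-- The coordinates. -/
def wF (i : Fin n) : (FW n K)ˣ :=
  Units.mk0 (algebraMap (MvPolynomial (Fin n) K) (FW n K) (MvPolynomial.X i))
    ((map_ne_zero_iff _ (IsFractionRing.injective _ _)).mpr (MvPolynomial.X_ne_zero i))

instance fw_charZero [CharZero K] : CharZero (FW n K) :=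
  charZero_of_injective_algebraMap (algebraMap K (FW n K)).injective

theorem exists_der1 (i : Fin n) : ∃ δ : FW n K →+ FW n K,
    (∀ a b, δ (a * b) = δ a * b + a * δ b) ∧ ∀ f : MvPolynomial (Fin n) K,
      δ (algebraMap _ _ f) = algebraMap _ _ (MvPolynomial.pderiv i f) := by
  let ι := algebraMap (MvPolynomial (Fin n) K) (FW n K)
  let φ : MvPolynomial (Fin n) K →+* TrivSqZeroExt (FW n K) (FW n K) :=
    { toFun := fun f => (ι f, ι (MvPolynomial.pderiv i f))
      map_one' := TrivSqZeroExt.ext (map_one ι) (by simp)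
      map_mul' := fun f g => TrivSqZeroExt.ext (map_mul ι f g) (by
        simp [mul_comm])
      map_zero' := TrivSqZeroExt.ext (map_zero ι) (by simp)
      map_add' := fun f g => TrivSqZeroExt.ext (map_add ι f g) (by simp) }
  have hu : ∀ y : nonZeroDivisors (MvPolynomial (Fin n) K), IsUnit (φ y) := fun y =>
    TrivSqZeroExt.isUnit_iff_isUnit_fst.mpr (IsLocalization.map_units (FW n K) y)
  let ψ : FW n K →+* TrivSqZeroExt (FW n K) (FW n K) := IsLocalization.lift hu
  have h1 : ∀ f, ψ (ι f) = φ f := IsLocalization.lift_eq hu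
  have h2 : ∀ x, (ψ x).fst = x := fun x => RingHom.congr_fun (IsLocalization.ringHom_ext
    (nonZeroDivisors (MvPolynomial (Fin n) K))
    (j := (TrivSqZeroExt.fstHom (FW n K) (FW n K) (FW n K)).toRingHom.comp ψ) (k := RingHom.id _)
    (RingHom.ext fun f => congrArg TrivSqZeroExt.fst (h1 f))) x
  refine ⟨AddMonoidHom.mk' (fun x => (ψ x).snd) fun a b => by rw [map_add, TrivSqZeroExt.snd_add],
    fun a b => ?_, fun f => congrArg TrivSqZeroExt.snd (h1 f)⟩
  simp only [AddMonoidHom.mk'_apply, map_mul, TrivSqZeroExt.snd_mul, h2, smul_eq_mul,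
    MulOpposite.smul_eq_mul_unop, MulOpposite.unop_op]
  ring

theorem exists_der : ∃ δ : Fin n → FW n K →+ FW n K, IsDer δ ∧
    (∀ i (c : K), δ i (algebraMap K (FW n K) c) = 0) ∧
    ∀ i j, δ i (wF n K j) = if i = j then 1 else 0 := by
  choose δ h1 h2 using exists_der1 n K
  have hc : ∀ i (c : K), δ i (algebraMap K (FW n K) c) = 0 := fun i c => by
    rw [IsScalarTower.algebraMap_apply K (MvPolynomial (Fin n) K), h2, MvPolynomial.algebraMap_eq,
      MvPolynomial.pderiv_C, map_zero]
  have hw : ∀ i j, δ i (wF n K j) = if i = j then 1 else 0 := fun i j => by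
    rw [wF, Units.val_mk0, h2]
    split_ifs with h
    · rw [h, MvPolynomial.pderiv_X_self, map_one]
    · rw [MvPolynomial.pderiv_X_of_ne (Ne.symm h), map_zero]
  refine ⟨δ, ⟨h1, fun i j a => ?_⟩, hc, hw⟩
  have hE : ∀ a b, δ i (δ j (a * b)) - δ j (δ i (a * b)) =
      (δ i (δ j a) - δ j (δ i a)) * b + a * (δ i (δ j b) - δ j (δ i b)) := fun a b => by
    simp only [h1, map_add]
    ring
  have hP : ∀ f : MvPolynomial (Fin n) K, δ i (δ j (algebraMap _ (FW n K) f)) -
      δ j (δ i (algebraMap _ (FW n K) f)) = 0 := by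
    intro f
    induction f using MvPolynomial.induction_on with
    | C c => simp [h2]
    | add f g hf hg => simp only [map_add]; linear_combination hf + hg
    | mul_X f l hf =>
      have h3 : ∀ i j, δ i (δ j (algebraMap _ (FW n K) (MvPolynomial.X l : MvPolynomial (Fin n) K)))
          = 0 := fun i j => by
        have h4 := hw j l
        rw [wF, Units.val_mk0] at h4
        rw [h4]
        split_ifs
        · simpa using hc i 1
        · exact map_zero _
      rw [map_mul, hE, hf, h3, h3]
      ring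
  obtain ⟨f, g, hg, rfl⟩ := IsFractionRing.div_surjective (A := MvPolynomial (Fin n) K) a
  have hg0 : algebraMap _ (FW n K) g ≠ 0 :=
    (map_ne_zero_iff _ (IsFractionRing.injective _ _)).mpr (nonZeroDivisors.ne_zero hg)
  have h5 := hE (algebraMap _ (FW n K) f / algebraMap _ (FW n K) g) (algebraMap _ (FW n K) g)
  rw [div_mul_cancel₀ _ hg0, hP, hP, mul_zero, add_zero] at h5
  exact sub_eq_zero.mp ((mul_eq_zero.mp h5.symm).resolve_right hg0)

theorem monom_indep :
    LinearIndependent K fun m : Fin n → ℤ => ((∏ i, wF n K i ^ m i : (FW n K)ˣ) : FW n K) := by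
  classical
  rw [linearIndependent_iff']
  intro s g hs m₀ hm₀
  let N : ℕ := s.sup fun m => Finset.univ.sup fun i => (m i).natAbs
  have hN : ∀ m ∈ s, ∀ i, 0 ≤ m i + N := fun m hm i => by
    have h1 : (m i).natAbs ≤ N :=
      (Finset.le_sup (f := fun i => (m i).natAbs) (Finset.mem_univ i)).trans
        (Finset.le_sup (f := fun m => Finset.univ.sup fun i => (m i).natAbs) hm)
    omega
  let φ : (Fin n → ℤ) → (Fin n →₀ ℕ) := fun m =>
    Finsupp.equivFunOnFinite.symm fun i => (m i + N).toNat
  have h1 : ∀ m ∈ s, ((∏ i, wF n K i ^ m i : (FW n K)ˣ) : FW n K) *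
      ((∏ i, wF n K i ^ (N : ℤ) : (FW n K)ˣ) : FW n K) =
      algebraMap (MvPolynomial (Fin n) K) _ (MvPolynomial.monomial (φ m) 1) := by
    intro m hm
    rw [← Units.val_mul, ← Finset.prod_mul_distrib, MvPolynomial.monomial_eq, map_one, one_mul,
      Finsupp.prod_fintype _ _ (by simp), map_prod, Units.coe_prod]
    refine Finset.prod_congr rfl fun i _ => ?_
    rw [← zpow_add, ← Int.toNat_of_nonneg (hN m hm i), zpow_natCast, Units.val_pow_eq_pow_val,
      map_pow]
    rfl
  have h2 : ∑ m ∈ s, MvPolynomial.monomial (φ m) (g m) = (0 : MvPolynomial (Fin n) K) := by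
    apply IsFractionRing.injective (MvPolynomial (Fin n) K) (FW n K)
    have h3 := congrArg (· * ((∏ i, wF n K i ^ (N : ℤ) : (FW n K)ˣ) : FW n K)) hs
    simp only [Finset.sum_mul, zero_mul, smul_mul_assoc] at h3
    rw [map_sum, map_zero, ← h3]
    refine Finset.sum_congr rfl fun m hm => ?_
    rw [h1 m hm, Algebra.smul_def, IsScalarTower.algebraMap_apply K (MvPolynomial (Fin n) K),
      ← map_mul, MvPolynomial.algebraMap_eq, MvPolynomial.C_mul_monomial, mul_one]
  have h4 := congrArg (MvPolynomial.coeff (φ m₀)) h2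
  rw [MvPolynomial.coeff_sum, MvPolynomial.coeff_zero, Finset.sum_eq_single m₀] at h4
  · simpa using h4
  · intro m hm hne
    rw [MvPolynomial.coeff_monomial, if_neg]
    intro h5
    refine hne (funext fun i => ?_)
    have h6 : (m i + N).toNat = (m₀ i + N).toNat := DFunLike.congr_fun h5 i
    have := hN m hm i
    have := hN m₀ hm₀ i
    omega
  · exact fun h => absurd hm₀ h

theorem exists_resF : ∃ res : FW n K →ₗ[K] K, ∀ m : Fin n → ℤ,
    res ((∏ i, wF n K i ^ m i : (FW n K)ˣ) : FW n K) = if m = fun _ => -1 then 1 else 0 := by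
  have h := monom_indep n K
  obtain ⟨res, hres⟩ := LinearMap.exists_extend
    ((Finsupp.lapply (fun _ => -1 : Fin n → ℤ)).comp h.repr)
  refine ⟨res, fun m => ?_⟩
  have h1 := LinearMap.congr_fun hres ⟨_, Submodule.subset_span ⟨m, rfl⟩⟩
  rw [LinearMap.comp_apply, LinearMap.comp_apply, h.repr_eq_single m _ rfl] at h1
  exact h1.trans (by rw [Finsupp.lapply_apply, Finsupp.single_apply])

end Fn

end Pool.Agent.P.MP_f43029_ag.XL
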