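import Pool.Agent.P.MP_f43029_ag.XL.TPoint
import Pool.Agent.P.MP_f43029_ag.XL.LApi

/-!
The pairs attached to subrings of a field: products over all valuation rings containing the subring.
-/

set_option autoImplicit false

noncomputable section

namespace Pool.Agent.P.MP_f43029_ag.XL

variable {F : Type} [Field F]

/-- Elements integral over `B` with a denominator that is a power of `π`. -/
def plus (π : F) (B : Subring F) (hB : π ∈ B) : Subring F where
  carrier := {y | IsIntegral B y ∧ ∃ e : ℕ, π ^ e * y ∈ B}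
  mul_mem' := fun {x y} ⟨h1, a, h2⟩ ⟨h3, b, h4⟩ => ⟨h1.mul h3, a + b, by
    have := B.mul_mem h2 h4
    convert this using 1
    ring⟩
  one_mem' := ⟨isIntegral_one, 0, by simp⟩
  add_mem' := fun {x y} ⟨h1, a, h2⟩ ⟨h3, b, h4⟩ => ⟨h1.add h3, a + b, by
    have := B.add_mem (B.mul_mem (B.pow_mem hB b) h2) (B.mul_mem (B.pow_mem hB a) h4)
    convert this using 1
    ring⟩
  zero_mem' := ⟨isIntegral_zero, 0, by simp⟩
  neg_mem' := fun {x} ⟨h1, a, h2⟩ => ⟨h1.neg, a, by rw [mul_neg]; exact B.neg_mem h2⟩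

theorem le_plus {π : F} {B : Subring F} (hB : π ∈ B) : B ≤ plus π B hB := fun y hy =>
  ⟨isIntegral_algebraMap (x := (⟨y, hy⟩ : B)), 0, by simpa using hy⟩

theorem isIntegral_mono {B B' : Subring F} (h : B ≤ B') {y : F} (hy : IsIntegral B y) :
    IsIntegral B' y :=
  hy.map_of_comp_eq (Subring.inclusion h) (RingHom.id F) (RingHom.ext fun _ => rfl)

theorem plus_mono {π : F} {B B' : Subring F} (hB : π ∈ B) (h : B ≤ B') :
    plus π B hB ≤ plus π B' (h hB) := fun _ ⟨h1, e, h2⟩ => ⟨isIntegral_mono h h1, e, h h2⟩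

/-- The subring `B` is contained in the valuation ring `O` of the algebraic closure. -/
def Over (B : Subring F) (O : ValuationSubring (AlgebraicClosure F)) : Prop :=
  ∀ b ∈ B, algebraMap F (AlgebraicClosure F) b ∈ O

theorem Over.mem {B : Subring F} {O : ValuationSubring (AlgebraicClosure F)} (h : Over B O)
    {y : F} (hy : IsIntegral B y) : algebraMap F (AlgebraicClosure F) y ∈ O := by
  let φ : B →+* O := ((algebraMap F (AlgebraicClosure F)).comp B.subtype).codRestrict O
    fun b => h b b.2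
  have h1 : IsIntegral O (algebraMap F (AlgebraicClosure F) y) :=
    hy.map_of_comp_eq φ (algebraMap F (AlgebraicClosure F)) (RingHom.ext fun _ => rfl)
  obtain ⟨z, hz⟩ := IsIntegrallyClosed.isIntegral_iff.mp h1
  rw [← hz]
  exact z.2

theorem isIntegral_of_forall {B : Subring F} {y : F}
    (h : ∀ O, Over B O → algebraMap F (AlgebraicClosure F) y ∈ O) : IsIntegral B y := by
  let f := algebraMap F (AlgebraicClosure F)
  have h1 : f y ∈ (integralClosure (Subring.closure (B.map f : Set (AlgebraicClosure F)))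
      (AlgebraicClosure F)).toSubring := by
    rw [← iInf_valuationSubring_superset, Subring.mem_iInf]
    exact fun V => h V.1 fun b hb => V.2 ⟨b, hb, rfl⟩
  rw [Subring.closure_eq] at h1
  have h2 : IsIntegral (B.map f) (f y) := h1
  have h3 : IsIntegral B (f y) :=
    h2.map_of_comp_eq (B.equivMapOfInjective f f.injective).symm.toRingHom (RingHom.id _) (by
      ext x
      obtain ⟨x, rfl⟩ := (B.equivMapOfInjective f f.injective).surjective x
      simp only [RingEquiv.toRingHom_eq_coe, RingHom.coe_comp, RingHom.coe_coe,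
        Function.comp_apply, RingEquiv.symm_apply_apply, RingHom.id_apply]
      rfl)
  exact (isIntegral_algHom_iff (IsScalarTower.toAlgHom B F (AlgebraicClosure F))
    f.injective).mp h3

/-- Points: valuation rings of the algebraic closure containing `B0` in which `π` is a nonunit. -/
structure Pnt (π : F) (B0 : Subring F) : Type where
  val : ValuationSubring (AlgebraicClosure F)
  prop : Over B0 val ∧ (algebraMap F (AlgebraicClosure F) π)⁻¹ ∉ val

/-- The image of an element of the base ring in a point. -/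
def Pnt.of {π : F} {B0 : Subring F} (O : Pnt π B0) : B0 →+* O.1 :=
  ((algebraMap F (AlgebraicClosure F)).comp B0.subtype).codRestrict O.1 fun b => O.2.1 b b.2

/-- Point data together with a ring in which the pseudo-uniformiser is invertible. -/
structure PtK (R O : Type) [CommRing R] [CommRing O] (π : O) (q : ℕ) extends Pt R O π q where
  K : Type
  [ringK : CommRing K]
  j : S →+* K
  u : Kˣ
  inj : Function.Injective j
  u_eq : (u : K) = j vp

attribute [instance] PtK.ringK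

theorem Pt.exists_ptK {R O : Type} [CommRing R] [CommRing O] {π : O} {q : ℕ} (P : Pt R O π q) :
    ∃ Q : PtK R O π q, Q.toPt = P := by
  obtain ⟨u, hu⟩ := IsLocalization.Away.algebraMap_isUnit (S := Localization.Away P.vp) P.vp
  refine ⟨⟨P, Localization.Away P.vp, algebraMap _ _, u, ?_, hu⟩, rfl⟩
  refine IsLocalization.injective _ (M := Submonoid.powers P.vp) ?_
  rintro _ ⟨n, rfl⟩
  exact pow_mem (mem_nonZeroDivisors_iff_left.mpr P.reg) n

section Pairs

variable {R : Type} [CommRing R] {π : Fˣ} {B0 : Subring F} {h0 : (π : F) ∈ B0} {q : ℕ}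
  (P : ∀ O : Pnt (π : F) B0, PtK R O.1 (O.of ⟨π, h0⟩) q)

/-- The product of the localised rings over all points above `B`. -/
abbrev KK (B : Subring F) : Type := ∀ O : {O : Pnt (π : F) B0 // Over B O.1}, (P O.1).K

/-- The structure map from `R`. -/
def iotaK (B : Subring F) : R →+* KK P B := RingHom.pi fun O => (P O.1).j.comp (P O.1).iota

/-- Restriction to the points above a larger ring. -/
def resK {B B' : Subring F} (h : B ≤ B') : KK P B →+* KK P B' :=
  RingHom.pi fun O => Pi.evalRingHom (fun O : {O : Pnt (π : F) B0 // Over B O.1} => (P O.1).K)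
    ⟨O.1, fun b hb => O.2 b (h hb)⟩

/-- The pseudo-uniformiser of the product. -/
def vpK (B : Subring F) : (KK P B)ˣ where
  val := fun O => (P O.1).u
  inv := fun O => ((P O.1).u⁻¹ : ((P O.1).K)ˣ)
  val_inv := funext fun O => (P O.1).u.mul_inv
  inv_val := funext fun O => (P O.1).u.inv_mul

/-- The integral elements of the product. -/
def SK (B : Subring F) : Subring (KK P B) := ⨅ O, (P O.1).j.range.comap (Pi.evalRingHom _ O)

theorem mem_SK {B : Subring F} {y : KK P B} : y ∈ SK P B ↔ ∀ O, ∃ s, (P O.1).j s = y O := by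
  simp [SK, Subring.mem_iInf]

/-- The relation at one point. -/
def relAt (O : Pnt (π : F) B0) : Subring ((P O).K × AlgebraicClosure F) :=
  (RingHom.eqLocus ((P O).rho.comp (RingHom.fst (P O).S O.1))
    ((Ideal.Quotient.mk _).comp (RingHom.snd (P O).S O.1))).map ((P O).j.prodMap O.1.subtype)

theorem mem_relAt {O : Pnt (π : F) B0} {y : (P O).K} {b : AlgebraicClosure F} :
    (y, b) ∈ relAt P O ↔ ∃ (s : (P O).S) (h : O.1), (P O).rho s = Ideal.Quotient.mk _ h ∧
      (P O).j s = y ∧ (h : AlgebraicClosure F) = b := by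
  constructor
  · rintro ⟨⟨s, h⟩, h1, h2⟩
    exact ⟨s, h, h1, congrArg Prod.fst h2, congrArg Prod.snd h2⟩
  · rintro ⟨s, h, h1, rfl, rfl⟩
    exact ⟨(s, h), h1, rfl⟩

/-- The ring of related pairs. -/
def GamK (B : Subring F) (hB : (π : F) ∈ B) : Subring (KK P B × F) :=
  (plus (π : F) B hB).comap (RingHom.snd _ _) ⊓ ⨅ O, (relAt P O.1).comap
    ((Pi.evalRingHom _ O).prodMap (algebraMap F (AlgebraicClosure F)))

theorem mem_GamK {B : Subring F} {hB : (π : F) ∈ B} {y : KK P B} {b : F} :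
    (y, b) ∈ GamK P B hB ↔ b ∈ plus (π : F) B hB ∧ ∀ O, ∃ (s : (P O.1).S) (h : O.1.1),
      (P O.1).rho s = Ideal.Quotient.mk _ h ∧ (P O.1).j s = y O ∧
        (h : AlgebraicClosure F) = algebraMap F _ b := by
  rw [GamK, Subring.mem_inf, Subring.mem_iInf]
  exact and_congr Iff.rfl (forall_congr' fun O => mem_relAt P)

theorem vpK_pow_mul {B : Subring F} (e : ℕ) (y : KK P B) (O : {O : Pnt (π : F) B0 // Over B O.1})
    (s : (P O.1).S) : (P O.1).j s = (((vpK P B ^ (-(e : ℤ)) : (KK P B)ˣ) : KK P B) * y) O ↔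
      (P O.1).j ((P O.1).vp ^ e * s) = y O := by
  have h1 := congrFun (zpow_val_neg (vpK P B) e) O
  have h2 : ((vpK P B ^ (e : ℤ) : (KK P B)ˣ) : KK P B) O = (P O.1).j ((P O.1).vp ^ e) := by
    rw [zpow_natCast, Units.val_pow_eq_pow_val, map_pow, ← (P O.1).u_eq]
    rfl
  rw [Pi.mul_apply, h2, Pi.one_apply] at h1
  rw [Pi.mul_apply, map_mul]
  constructor
  · intro h
    rw [h, ← mul_assoc, h1, one_mul]
  · intro h
    rw [← h]
    linear_combination (-(P O.1).j s) * h1

/-- The pair attached to a subring containing the base ring. -/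
def pairK (B : Subring F) (hB : B0 ≤ B) : PairD (KK P B) F q where
  ϖ := vpK P B
  π := π
  S := SK P B
  Bp := plus (π : F) B (hB h0)
  Γ := GamK P B (hB h0)
  u_mem := (mem_GamK P).mpr ⟨le_plus _ (hB h0), fun O =>
    ⟨(P O.1).vp, O.1.of ⟨π, h0⟩, (P O.1).rho_vp, (P O.1).u_eq.symm, rfl⟩⟩
  fst_mem := fun ⟨y, b⟩ hz => (mem_SK P).mpr fun O => by
    obtain ⟨s, -, -, hs, -⟩ := ((mem_GamK P).mp hz).2 O
    exact ⟨s, hs⟩
  snd_mem := fun ⟨y, b⟩ hz => ((mem_GamK P).mp hz).1
  kerL := fun y => by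
    rw [mem_GamK, mem_fil, mem_SK]
    constructor
    · rintro ⟨-, h⟩ O
      obtain ⟨s, t, h1, h2, h3⟩ := h O
      have h4 : t = 0 := Subtype.ext (by rw [h3, map_zero]; rfl)
      obtain ⟨s', rfl⟩ := (P O.1).ker s (by rw [h1, h4, map_zero])
      exact ⟨s', (vpK_pow_mul P q y O s').mpr h2⟩
    · intro h
      refine ⟨zero_mem _, fun O => ?_⟩
      obtain ⟨s, hs⟩ := h O
      refine ⟨_, 0, ?_, (vpK_pow_mul P q y O s).mp hs, by rw [map_zero]; rfl⟩
      have h1 : (P O.1).rho ((P O.1).vp ^ q) = 0 := by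
        rw [map_pow, (P O.1).rho_vp]
        exact (map_pow _ _ _).symm.trans
          (Ideal.Quotient.eq_zero_iff_mem.mpr (Ideal.mem_span_singleton_self _))
      rw [map_mul, h1, zero_mul, map_zero]
  kerR := fun y hy => by
    obtain ⟨⟨h1, e, h2⟩, h3⟩ := (mem_GamK P).mp hy
    have h4 : ((π ^ (-(q : ℤ)) : Fˣ) : F) = ((π : F) ^ q)⁻¹ := by simp
    rw [mem_fil, h4]
    refine ⟨isIntegral_of_forall fun O hO => ?_, e + q, ?_⟩
    · by_cases h5 : (algebraMap F (AlgebraicClosure F) π)⁻¹ ∈ O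
      · rw [map_mul, map_inv₀, map_pow, ← inv_pow]
        exact O.mul_mem _ _ (O.toSubring.pow_mem h5 q) (hO.mem h1)
      · obtain ⟨s, t, h6, h7, h8⟩ := h3 ⟨⟨O, fun b hb => hO b (hB hb), h5⟩, hO⟩
        have h9 : s = 0 := PtK.inj _ (by rw [h7, map_zero]; rfl)
        rw [h9, map_zero, eq_comm, Ideal.Quotient.eq_zero_iff_mem, Ideal.mem_span_singleton] at h6
        obtain ⟨r, hr⟩ := h6
        have h10 : algebraMap F (AlgebraicClosure F) y =
            algebraMap F (AlgebraicClosure F) π ^ q * (r : AlgebraicClosure F) := by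
          rw [← h8, hr]
          rfl
        have h11 : algebraMap F (AlgebraicClosure F) π ^ q ≠ 0 :=
          pow_ne_zero _ ((map_ne_zero _).mpr π.ne_zero)
        rw [map_mul, map_inv₀, map_pow, h10, inv_mul_cancel_left₀ h11]
        exact r.2
    · rwa [pow_add, mul_assoc, mul_inv_cancel_left₀ (pow_ne_zero _ π.ne_zero)]
  surj := fun b hb => by
    choose s hs using fun O : {O : Pnt (π : F) B0 // Over B O.1} =>
      (P O.1).surj (Ideal.Quotient.mk _ ⟨_, O.2.mem hb.1⟩)
    exact ⟨fun O => (P O.1).j (s O), (mem_GamK P).mpr ⟨hb, fun O =>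
      ⟨s O, _, hs O, rfl, rfl⟩⟩⟩
  jac := fun y hy => by
    choose s hs using (mem_SK P).mp hy
    choose z hz using fun O : {O : Pnt (π : F) B0 // Over B O.1} =>
      ((P O.1).unit (s O)).exists_right_inv
    refine ⟨fun O => (P O.1).j (z O), (mem_SK P).mpr fun O => ⟨z O, rfl⟩,
      funext fun O => ?_⟩
    have h := congrArg (P O.1).j (hz O)
    rw [map_mul, map_add, map_mul, map_one, hs, ← (P O.1).u_eq] at h
    exact h

/-- Restriction is a morphism of pairs. -/
def homK {B B' : Subring F} (hB : B0 ≤ B) (h : B ≤ B') :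
    (pairK P B hB).Hom (pairK P B' (hB.trans h)) where
  φ := resK P h
  ψ := RingHom.id F
  φϖ := rfl
  ψπ := rfl
  mapS := fun _ hy => (mem_SK P).mpr fun O => (mem_SK P).mp hy ⟨O.1, fun b hb => O.2 b (h hb)⟩
  mapΓ := fun ⟨_, _⟩ hz => (mem_GamK P).mpr ⟨plus_mono _ h ((mem_GamK P).mp hz).1, fun O =>
    ((mem_GamK P).mp hz).2 ⟨O.1, fun b hb => O.2 b (h hb)⟩⟩

theorem resK_resK {B B' B'' : Subring F} (h : B ≤ B') (h' : B' ≤ B'') (y : KK P B) :
    resK P h' (resK P h y) = resK P (h.trans h') y := rfl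

theorem resK_iota {B B' : Subring F} (h : B ≤ B') (a : R) :
    resK P h (iotaK P B a) = iotaK P B' a := rfl

theorem iotaK_mem (B : Subring F) (a : R) : iotaK P B a ∈ SK P B :=
  (mem_SK P).mpr fun O => ⟨(P O.1).iota a, rfl⟩

theorem tilt_pair {C : ℕ} {a : R} {H : B0} (hT : ∀ O, (P O).Tilt C a (O.of H)) {B : Subring F}
    (hB : B0 ≤ B) {e : ℕ} (he : e ≤ C) (hH : (H : F) ∈ fil π (plus (π : F) B (hB h0)) e) :
    (iotaK P B a, (H : F)) ∈ (pairK P B hB).T e := by
  rw [PairD.mem_T]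
  refine (mem_GamK P (hB := hB h0)).mpr ⟨hH, fun O => ?_⟩
  obtain ⟨s, h1, h2⟩ := hT O.1 e he ⟨_, O.2.mem hH.1⟩ (Subtype.ext (by
    change algebraMap F (AlgebraicClosure F) H = algebraMap F (AlgebraicClosure F) π ^ e *
      algebraMap F (AlgebraicClosure F) _
    rw [← map_pow, ← map_mul, ← mul_assoc, ← Units.val_pow_eq_pow_val, ← zpow_natCast,
      zpow_val_neg, one_mul]))
  exact ⟨s, _, h2, (vpK_pow_mul P e _ O s).mpr (by rw [← h1]; rfl), rfl⟩

end Pairs

theorem Pt.Tilt.add {R O : Type} [CommRing R] [CommRing O] {π : O} {q C : ℕ}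
    {P : Pt R O π q} {a : R} {H : O} (h : P.Tilt C a H) (y : O) :
    P.Tilt C a (H + π ^ (C + q) * y) := by
  intro e he h' hh
  obtain ⟨d, rfl⟩ := Nat.exists_eq_add_of_le he
  obtain ⟨s, h1, h2⟩ := h e he (h' - π ^ q * (π ^ d * y)) (by linear_combination hh)
  refine ⟨s, h1, ?_⟩
  rw [h2, Ideal.Quotient.eq, Ideal.mem_span_singleton]
  exact ⟨-(π ^ d * y), by ring⟩

/-- The data at all points exist. -/
theorem exists_points {p : ℕ} [hp : Fact p.Prime] {k : Type} [Field k] [CharP k p]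
    [PerfectRing k p] {D : ℕ} (g : SW p k D) (hg : MvPowerSeries.constantCoeff g = 0) (c : ℕ) :
    ∃ j0 : RW g → ℕ, ∀ j : ℕ, ∃ G : RW g → MvPolynomial (Fin D) (WittVector p k),
      ∀ (F : Type) [Field F] (π : Fˣ) (B0 : Subring F) (h0 : (π : F) ∈ B0)
        (θ : WittVector p k →+* B0) (w : Fin D → B0),
        (π : F) ^ (c * p ^ j + 2 * p ^ j) = p →
        ∃ P : ∀ O : Pnt (π : F) B0, PtK (RW g) O.1 (O.of ⟨π, h0⟩) (p ^ j),
          (∀ a, j0 a ≤ j → ∀ O, (P O).Tilt (c * p ^ j) a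
            (O.of (MvPolynomial.eval₂Hom θ (fun i => (⟨π, h0⟩ : B0) * w i) (G a)))) ∧
          ∀ i O, (P O).Tilt (c * p ^ j + p ^ j) (xW g i)
            (O.of (((⟨π, h0⟩ : B0) * w i) ^ p ^ j)) := by
  obtain ⟨j0, hj0⟩ := exists_tilts g hg c
  refine ⟨j0, fun j => ?_⟩
  obtain ⟨G, hG⟩ := hj0 j
  refine ⟨G, fun F _ π B0 h0 θ w hπ => ?_⟩
  have h : ∀ O : Pnt (π : F) B0, ∃ P : PtK (RW g) O.1 (O.of ⟨π, h0⟩) (p ^ j),
      (∀ a, j0 a ≤ j → P.Tilt (c * p ^ j) a
        (O.of (MvPolynomial.eval₂Hom θ (fun i => (⟨π, h0⟩ : B0) * w i) (G a)))) ∧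
      ∀ i, P.Tilt (c * p ^ j + p ^ j) (xW g i) (O.of (((⟨π, h0⟩ : B0) * w i) ^ p ^ j)) := by
    intro O
    have h1 : O.of ⟨π, h0⟩ ^ (c * p ^ j + 2 * p ^ j) = p := by
      rw [← map_pow, ← map_natCast O.of]
      congr 1
      exact Subtype.ext (by simpa using hπ)
    have h2 : ¬ IsUnit (O.of ⟨π, h0⟩) := fun h => O.2.2 (by
      obtain ⟨u, hu⟩ := h.exists_right_inv
      have h3 : algebraMap F (AlgebraicClosure F) π * (u : AlgebraicClosure F) = 1 :=
        congrArg Subtype.val hu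
      exact eq_inv_of_mul_eq_one_right h3 ▸ u.2)
    have hq : 1 ≤ p ^ j := Nat.one_le_pow _ _ hp.out.pos
    have : Fact (¬ IsUnit (p : O.1)) := ⟨fun h => h2 ((isUnit_pow_iff (by omega)).mp (h1 ▸ h))⟩
    obtain ⟨Fl⟩ := exists_flat (p := p) (O := O.1) (fun x => by
      obtain ⟨y, hy⟩ := IsAlgClosed.exists_pow_nat_eq (x : AlgebraicClosure F) hp.out.pos
      have h3 : IsIntegral O.1 y := IsIntegral.of_pow hp.out.pos (hy ▸ isIntegral_algebraMap (x := x))
      obtain ⟨z, hz⟩ := IsIntegrallyClosed.isIntegral_iff.mp h3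
      exact ⟨z, Subtype.ext (by rw [← hy, ← hz]; rfl)⟩)
      (π := O.of ⟨π, h0⟩) (fun h => (map_ne_zero (algebraMap F (AlgebraicClosure F))).mpr π.ne_zero
        (congrArg Subtype.val h)) h1
    obtain ⟨P, h3, h4⟩ := hG O.1 (O.of.comp θ) (O.of ⟨π, h0⟩) (fun i => O.of (w i)) Fl h1
    obtain ⟨P, rfl⟩ := P.exists_ptK
    refine ⟨P, fun a ha => ?_, fun i => ?_⟩
    · rw [MvPolynomial.map_eval₂Hom]
      simpa only [map_mul] using h3 a ha
    · rw [map_pow, map_mul]
      exact h4 i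
  choose P h1 h2 using h
  exact ⟨P, fun a ha O => h1 O a ha, fun i O => h2 O i⟩

end Pool.Agent.P.MP_f43029_ag.XL
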