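import Pool.Agent.P.MP_f43029_ag.XL.TWitt

/-!
The perfection of `O / p` for a valuation ring `O` in which every element has a `p`-th root.
-/

set_option autoImplicit false

namespace Pool.Agent.P.MP_f43029_ag.XL

section Tilt

variable {p : ℕ} [hp : Fact p.Prime] {O : Type} [CommRing O] [IsDomain O] [ValuationRing O]
  [hO : Fact (¬ IsUnit (p : O))]

theorem dvd_of_pow_dvd {x y : O} {n : ℕ} (hn : n ≠ 0) (h : x ^ n ∣ y ^ n) : x ∣ y :=
  (IsIntegrallyClosed.pow_dvd_pow_iff hn).mp h

omit hp hO in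
/-- An element congruent to `z` modulo `p` is divisible by `z` and divides it if `p ∤ z`. -/
theorem dvd_of_cong {z z' : O} (hz : ¬ (p : O) ∣ z) (h : (p : O) ∣ z' - z) : z ∣ z' ∧ z' ∣ z := by
  have h1 : z ∣ p := (ValuationRing.dvd_total z p).resolve_right hz
  have h2 : z' ∣ p := (ValuationRing.dvd_total z' p).resolve_right fun h3 =>
    hz ((dvd_sub_right h3).mp h)
  exact ⟨(dvd_sub_left dvd_rfl).mp (h1.trans h), (dvd_sub_right dvd_rfl).mp (h2.trans h)⟩

theorem perf_dvd {x z : Perfection (ModP O p) p} (hz : Perfection.coeff _ p 0 z ≠ 0)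
    (h : Perfection.coeff _ p 0 z ∣ Perfection.coeff _ p 0 x) : z ∣ x := by
  have hp0 : p ≠ 0 := hp.out.ne_zero
  choose xh hxh using fun n => Ideal.Quotient.mk_surjective (Perfection.coeff _ p n x)
  choose zh hzh using fun n => Ideal.Quotient.mk_surjective (Perfection.coeff _ p n z)
  have hx1 : ∀ n, (p : O) ∣ xh (n + 1) ^ p - xh n := fun n => by
    rw [← Ideal.mem_span_singleton, ← Ideal.Quotient.eq, map_pow, hxh, hxh,
      Perfection.coeff_pow_p']
  have hz1 : ∀ n, (p : O) ∣ zh (n + 1) ^ p - zh n := fun n => by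
    rw [← Ideal.mem_span_singleton, ← Ideal.Quotient.eq, map_pow, hzh, hzh,
      Perfection.coeff_pow_p']
  have hz2 : ∀ n, ¬ (p : O) ∣ zh n := fun n h1 =>
    Perfection.coeff_ne_zero_of_le hz (Nat.zero_le n) (by
      rw [← hzh, Ideal.Quotient.eq_zero_iff_mem, Ideal.mem_span_singleton]; exact h1)
  have hz3 : ∀ n, zh n ∣ p := fun n => (ValuationRing.dvd_total (zh n) p).resolve_right (hz2 n)
  have h1 : ∀ n, zh n ∣ xh n := by
    intro n
    induction n with
    | zero =>
      obtain ⟨y, hy⟩ := h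
      obtain ⟨y, rfl⟩ := Ideal.Quotient.mk_surjective y
      rw [← hxh, ← hzh, ← map_mul, Ideal.Quotient.eq, Ideal.mem_span_singleton] at hy
      exact (dvd_sub_left (dvd_mul_right _ _)).mp ((hz3 0).trans hy)
    | succ n ih =>
      refine dvd_of_pow_dvd hp0 ((dvd_of_cong (hz2 n) (hz1 n)).2.trans ?_)
      exact (dvd_sub_left ih).mp ((hz3 n).trans (hx1 n))
  choose y hy using h1
  have h2 : ∀ n, (p : O) ∣ zh n * (y (n + 1) ^ p - y n) := by
    intro n
    have h3 := dvd_sub (hx1 n) (Dvd.dvd.mul_right (hz1 n) (y (n + 1) ^ p))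
    convert h3 using 1
    rw [hy (n + 1), hy n, mul_pow]
    ring
  have h3 : ∀ n, (p : O) ∣ (y (n + 2) ^ p - y (n + 1)) ^ p := by
    intro n
    by_cases h0 : (p : O) = 0
    · have h4 := h2 (n + 1)
      rw [h0, zero_dvd_iff, mul_eq_zero] at h4
      rw [h4.resolve_left fun h5 => hz2 (n + 1) (by rw [h5]; exact dvd_zero _), zero_pow hp0]
      exact dvd_zero _
    · have h4 := pow_dvd_pow_of_dvd (h2 (n + 1)) p
      have h5 : zh (n + 1) ^ p ∣ p := (dvd_of_cong (hz2 n) (hz1 n)).2.trans (hz3 n)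
      have h6 : (p : O) * p ∣ p * (y (n + 2) ^ p - y (n + 1)) ^ p := by
        refine ((sq (p : O)).symm.dvd.trans (pow_dvd_pow _ hp.out.two_le)).trans (h4.trans ?_)
        rw [mul_pow]
        exact mul_dvd_mul_right h5 _
      exact (mul_dvd_mul_iff_left h0).mp h6
  refine ⟨⟨fun n => Ideal.Quotient.mk _ (y (n + 1)) ^ p, fun n => ?_⟩, Perfection.ext fun n => ?_⟩
  · have h4 : (Ideal.Quotient.mk (Ideal.span {(p : O)}) ((y (n + 2) ^ p - y (n + 1)) ^ p)) = 0 :=
      Ideal.Quotient.eq_zero_iff_mem.mpr (Ideal.mem_span_singleton.mpr (h3 n))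
    rw [map_pow, map_sub, sub_pow_char, map_pow, sub_eq_zero] at h4
    exact h4
  · rw [map_mul, Perfection.coeff_mk, ← Perfection.coeff_pow_p' x, ← Perfection.coeff_pow_p' z,
      ← hxh, ← hzh, hy (n + 1), map_mul, mul_pow]

theorem perf_dvd' {x z : Perfection (ModP O p) p} (n : ℕ) (hz : Perfection.coeff _ p n z ≠ 0)
    (h : Perfection.coeff _ p n z ∣ Perfection.coeff _ p n x) : z ∣ x := by
  have h1 := perf_dvd (x := ((frobeniusEquiv _ p).symm)^[n] x) (z := ((frobeniusEquiv _ p).symm)^[n] z)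
    (by rwa [Perfection.coeff_iterate_symm_frobeniusEquiv, zero_add])
    (by rwa [Perfection.coeff_iterate_symm_frobeniusEquiv,
      Perfection.coeff_iterate_symm_frobeniusEquiv, zero_add])
  have h2 := pow_dvd_pow_of_dvd h1 (p ^ n)
  have h3 : ∀ u : Perfection (ModP O p) p, (((frobeniusEquiv _ p).symm)^[n] u) ^ p ^ n = u := by
    intro u
    rw [← iterate_frobenius]
    exact Function.RightInverse.iterate (frobenius_apply_frobeniusEquiv_symm _ p) n u
  rwa [h3, h3] at h2

omit [IsDomain O] [ValuationRing O] in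
theorem perf_exists_ne {x z : Perfection (ModP O p) p} (hx : x ≠ 0) (hz : z ≠ 0) :
    ∃ n, Perfection.coeff _ p n x ≠ 0 ∧ Perfection.coeff _ p n z ≠ 0 := by
  obtain ⟨n, hn⟩ : ∃ n, Perfection.coeff _ p n x ≠ 0 := by
    by_contra! h
    exact hx (Perfection.ext fun n => by rw [h, map_zero])
  obtain ⟨m, hm⟩ : ∃ n, Perfection.coeff _ p n z ≠ 0 := by
    by_contra! h
    exact hz (Perfection.ext fun n => by rw [h, map_zero])
  exact ⟨n + m, Perfection.coeff_ne_zero_of_le hn (by omega),
    Perfection.coeff_ne_zero_of_le hm (by omega)⟩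

theorem perf_isDomain : IsDomain (Perfection (ModP O p) p) := by
  have : Nontrivial (Perfection (ModP O p) p) := CharP.nontrivial_of_char_ne_one hp.out.ne_one
  have : NoZeroDivisors (Perfection (ModP O p) p) := ⟨fun {x z} h => by
    by_contra! h1
    obtain ⟨n, hx, hz⟩ := perf_exists_ne h1.1 h1.2
    obtain ⟨a, ha⟩ := Ideal.Quotient.mk_surjective (Perfection.coeff _ p (n + 1) x)
    obtain ⟨b, hb⟩ := Ideal.Quotient.mk_surjective (Perfection.coeff _ p (n + 1) z)
    have h2 : (p : O) ∣ a * b := by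
      rw [← Ideal.mem_span_singleton, ← Ideal.Quotient.eq_zero_iff_mem, map_mul, ha, hb,
        ← map_mul, h, map_zero]
    have h3 : ∀ (a b : O), a ∣ b → (p : O) ∣ a * b →
        Ideal.Quotient.mk (Ideal.span {(p : O)}) b ^ p = 0 := by
      intro a b hab h4
      rw [← map_pow, Ideal.Quotient.eq_zero_iff_mem, Ideal.mem_span_singleton]
      exact h4.trans (((mul_dvd_mul_right hab b).trans (sq b).symm.dvd).trans
        (pow_dvd_pow _ hp.out.two_le))
    rcases ValuationRing.dvd_total a b with h4 | h4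
    · exact hz (by rw [← Perfection.coeff_pow_p', ← hb, h3 a b h4 h2])
    · exact hx (by rw [← Perfection.coeff_pow_p', ← ha, h3 b a h4 (mul_comm a b ▸ h2)])⟩
  exact NoZeroDivisors.to_isDomain _

theorem perf_preVal : PreValuationRing (Perfection (ModP O p) p) := by
  refine PreValuationRing.iff_dvd_total.mpr ⟨fun x z => ?_⟩
  by_cases hx : x = 0
  · exact Or.inr (hx ▸ dvd_zero _)
  by_cases hz : z = 0
  · exact Or.inl (hz ▸ dvd_zero _)
  obtain ⟨n, h1, h2⟩ := perf_exists_ne hx hz
  obtain ⟨a, ha⟩ := Ideal.Quotient.mk_surjective (Perfection.coeff _ p n x)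
  obtain ⟨b, hb⟩ := Ideal.Quotient.mk_surjective (Perfection.coeff _ p n z)
  rcases ValuationRing.dvd_total a b with h | h
  · exact Or.inl (perf_dvd' n h1 (by rw [← ha, ← hb]; exact map_dvd _ h))
  · exact Or.inr (perf_dvd' n h2 (by rw [← ha, ← hb]; exact map_dvd _ h))

theorem exists_flat (hroot : ∀ x : O, ∃ y, y ^ p = x) {π : O} (hπ0 : π ≠ 0)
    {M : ℕ} (hπ : π ^ M = p) : Nonempty (Flat p O π M) := by
  have hp0 : p ≠ 0 := hp.out.ne_zero
  have hsurj : Function.Surjective (frobenius (ModP O p) p) := fun x => by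
    obtain ⟨x, rfl⟩ := Ideal.Quotient.mk_surjective x
    obtain ⟨y, rfl⟩ := hroot x
    exact ⟨Ideal.Quotient.mk _ y, by rw [frobenius_def, map_pow]⟩
  choose rt hrt using hroot
  let t : Perfection (ModP O p) p := ⟨fun n => Ideal.Quotient.mk _ (rt^[n] π), fun n => by
    rw [← map_pow, Function.iterate_succ_apply', hrt]⟩
  have ht : ∀ n, Perfection.coeff _ p n t = Ideal.Quotient.mk _ (rt^[n] π) := fun n => rfl
  have hpne : (p : O) ≠ 0 := hπ ▸ pow_ne_zero _ hπ0
  have h1 : Perfection.coeff _ p 1 (t ^ M) ≠ 0 := by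
    rw [map_pow, ht, ← map_pow, Ne, Ideal.Quotient.eq_zero_iff_mem, Ideal.mem_span_singleton]
    intro h
    have h2 := pow_dvd_pow_of_dvd h p
    rw [← pow_mul, mul_comm, pow_mul, Function.iterate_one, hrt, hπ] at h2
    have h3 : (p : O) * p ∣ p * 1 := by
      rw [mul_one]
      exact ((sq (p : O)).symm.dvd.trans (pow_dvd_pow _ hp.out.two_le)).trans h2
    exact hO.out (isUnit_of_dvd_one ((mul_dvd_mul_iff_left hpne).mp h3))
  have hker : ∀ y : Perfection (ModP O p) p, Perfection.coeff _ p 0 y = 0 → t ^ M ∣ y := by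
    intro y hy
    refine perf_dvd' 1 h1 ?_
    obtain ⟨a, ha⟩ := Ideal.Quotient.mk_surjective (Perfection.coeff _ p 1 y)
    rw [← Perfection.coeff_pow_p', zero_add, ← ha, ← map_pow, Ideal.Quotient.eq_zero_iff_mem,
      Ideal.mem_span_singleton] at hy
    rw [map_pow, ht, ← ha, ← map_pow]
    refine map_dvd _ (dvd_of_pow_dvd hp0 ?_)
    rwa [← pow_mul, mul_comm, pow_mul, Function.iterate_one, hrt, hπ]
  have hroot' : ∀ (n : ℕ) (u : Perfection (ModP O p) p),
      (((frobeniusEquiv _ p).symm)^[n] u) ^ p ^ n = u := by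
    intro n u
    rw [← iterate_frobenius]
    exact Function.RightInverse.iterate (frobenius_apply_frobeniusEquiv_symm _ p) n u
  have hkern : ∀ (n : ℕ) (y : Perfection (ModP O p) p),
      Perfection.coeff _ p n y = 0 ↔ t ^ (M * p ^ n) ∣ y := by
    intro n y
    constructor
    · intro hy
      have h2 := pow_dvd_pow_of_dvd (hker (((frobeniusEquiv _ p).symm)^[n] y)
        (by rwa [Perfection.coeff_iterate_symm_frobeniusEquiv, zero_add])) (p ^ n)
      rwa [hroot', ← pow_mul] at h2
    · rintro ⟨u, rfl⟩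
      have h2 : Perfection.coeff _ p n (t ^ p ^ n) = Ideal.Quotient.mk _ π := by
        have := Perfection.coeff_iterate_frobenius t 0 n
        rwa [zero_add, iterate_frobenius] at this
      rw [map_mul, mul_comm M, pow_mul, map_pow, h2, ← map_pow, hπ,
        Ideal.Quotient.eq_zero_iff_mem.mpr (Ideal.mem_span_singleton_self _), zero_mul]
  have hM : M ≠ 0 := by
    rintro rfl
    exact hO.out (hπ ▸ by simp)
  have hA : ∀ (n : ℕ) (x : Perfection (ModP O p) p),
      x ∈ (Ideal.span {t} ^ n • ⊤ :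
        Submodule (Perfection (ModP O p) p) (Perfection (ModP O p) p)) ↔ t ^ n ∣ x := by
    intro n x
    rw [smul_eq_mul, Ideal.mul_top, Ideal.span_singleton_pow, Ideal.mem_span_singleton]
  have hc : IsAdicComplete (Ideal.span {t}) (Perfection (ModP O p) p) := by
    refine { haus' := fun x hx => ?_, prec' := fun f hf => ?_ }
    · exact Perfection.ext fun n => by
        rw [map_zero, hkern, ← hA]
        exact SModEq.zero.mp (hx _)
    · have h2 : ∀ {m n}, m ≤ n → t ^ m ∣ f m - f n := fun h =>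
        (hA _ _).mp (SModEq.sub_mem.mp (hf h))
      refine ⟨⟨fun n => Perfection.coeff _ p n (f (M * p ^ n)), fun n => ?_⟩, fun n => ?_⟩
      · rw [Perfection.coeff_pow_p', eq_comm, ← sub_eq_zero, ← map_sub, hkern]
        exact h2 (Nat.mul_le_mul_left _ (Nat.pow_le_pow_right hp.out.pos n.le_succ))
      · have hn : n ≤ M * p ^ n :=
          (Nat.lt_pow_self hp.out.one_lt).le.trans (Nat.le_mul_of_pos_left _ (by omega))
        rw [SModEq.sub_mem, hA, ← sub_add_sub_cancel _ (f (M * p ^ n))]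
        refine dvd_add (h2 hn) ((pow_dvd_pow t hn).trans ((hkern n _).mp ?_))
        rw [map_sub, Perfection.coeff_mk, sub_self]
  have := perf_isDomain (p := p) (O := O)
  have := perf_preVal (p := p) (O := O)
  have : ValuationRing (Perfection (ModP O p) p) := {}
  refine ⟨{
    A := Perfection (ModP O p) p
    t := t
    pr := Perfection.coeff _ p 0
    ne := fun h => h1 (by rw [h, zero_pow hM, map_zero])
    nonunit := fun h => ?_
    surj := Perfection.coeff_surjective hsurj 0
    ker := hker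
    pr_t := rfl
    lift := fun k _ _ _ κ => ⟨Perfection.lift p k _ κ, fun a =>
      RingHom.congr_fun ((Perfection.lift p k (ModP O p)).left_inv κ) a⟩ }⟩
  have h2 := (h.pow M).map (Perfection.coeff _ p 0)
  rw [(hkern 0 (t ^ M)).mpr (by simp)] at h2
  exact not_isUnit_zero h2

end Tilt

end Pool.Agent.P.MP_f43029_ag.XL
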