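import Pool.Agent.P.MP_f43029_ag.XL.Ctx
import Pool.Agent.P.MP_f43029_ag.XL.TAmb

/-! The ambient field, the points and the tilts exist. -/

set_option autoImplicit false

noncomputable section

namespace Pool.Agent.P.MP_f43029_ag.XL

/-- The ambient field. -/
theorem exists_amb (p : ℕ) [Fact p.Prime] (k : Type) [Field k] [IsAlgClosed k] [CharP k p] (n : ℕ) :
    ∃ (K F : Type) (_ : Field K) (_ : Field F) (_ : CharZero K) (_ : CharZero F) (_ : Algebra K F)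
      (θ : WittVector p k →+* K), ∀ M : ℕ, 0 < M →
        ∃ 𝔸 : Amb n K F, (∀ a, θ a ∈ 𝔸.V) ∧ (𝔸.π : K) ^ M = p := by
  refine ⟨KW p k, FW n (KW p k), inferInstance, inferInstance, inferInstance, inferInstance,
    inferInstance, algebraMap _ _, fun M hM => ?_⟩
  obtain ⟨V, π, h1, h2, h3, h4, h5, h6⟩ := exists_consts p k hM
  obtain ⟨δ, h7, h8, h9⟩ := exists_der n (KW p k)
  obtain ⟨res, h10⟩ := exists_resF n (KW p k)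
  exact ⟨⟨V, h1, π, h2, h3, M, h6, wF n _, δ, h7, h8, h9, res, h10⟩, h5, h4⟩

section Restr

variable {K F : Type} [CommRing K] [CommRing F] {q : ℕ}

theorem coe_zpow_sub {L : Subring F} {π' : Lˣ} {π : Fˣ} (h : ((π' : L) : F) = π) (a : ℤ) :
    (((π' ^ a : Lˣ) : L) : F) = (π ^ a : Fˣ) := map_zpow_val L.subtype h a

/-- Restriction of the second ring of a pair to a subring. -/
def PairD.restr (P : PairD K F q) (L : Subring F) (π' : Lˣ) (hπ : ((π' : L) : F) = P.π)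
    (Bp : Subring L) (hB : ∀ y : L, y ∈ Bp ↔ (y : F) ∈ P.Bp) : PairD K L q where
  ϖ := P.ϖ
  π := π'
  S := P.S
  Bp := Bp
  Γ := P.Γ.comap ((RingHom.id K).prodMap L.subtype)
  u_mem := by
    change ((P.ϖ : K), ((π' : L) : F)) ∈ P.Γ
    rw [hπ]
    exact P.u_mem
  fst_mem := fun _ hz => P.fst_mem _ hz
  snd_mem := fun _ hz => (hB _).mpr (P.snd_mem _ hz)
  kerL := P.kerL
  kerR := fun y hy => by
    rw [mem_fil, hB, Subring.coe_mul, coe_zpow_sub hπ]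
    exact P.kerR y hy
  surj := fun b hb => P.surj b ((hB b).mp hb)
  jac := P.jac

theorem PairD.restr_T {P : PairD K F q} {L : Subring F} {π' : Lˣ} {hπ : ((π' : L) : F) = P.π}
    {Bp : Subring L} {hB : ∀ y : L, y ∈ Bp ↔ (y : F) ∈ P.Bp} {a : ℤ} {y : K} {y' : L}
    (h : (y, (y' : F)) ∈ P.T a) : (y, y') ∈ (P.restr L π' hπ Bp hB).T a := by
  rw [PairD.mem_T] at h ⊢
  rw [← coe_zpow_sub hπ] at h
  exact h

theorem PairD.restr_Γ {P : PairD K F q} {L : Subring F} {π' : Lˣ} {hπ : ((π' : L) : F) = P.π}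
    {Bp : Subring L} {hB : ∀ y : L, y ∈ Bp ↔ (y : F) ∈ P.Bp} {z : K × L} :
    z ∈ (P.restr L π' hπ Bp hB).Γ ↔ (z.1, (z.2 : F)) ∈ P.Γ := Iff.rfl

end Restr

section Main

variable {n : ℕ} {K F : Type} [Field K] [Field F] [CharZero K] [CharZero F] [Algebra K F]
  (𝔸 : Amb n K F)

theorem Amb.ϖ_cel : (𝔸.ϖ : F) ∈ 𝔸.cell ∅ := Amb.VF_le_cell ∅ ⟨_, 𝔸.π_mem, rfl⟩

theorem Amb.w_cel (i : Fin n) : (𝔸.w i : F) ∈ 𝔸.cell ∅ :=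
  Subring.subset_closure (Or.inl (Or.inr ⟨i, rfl⟩))

theorem Amb.mem_Bplus_iff_plus (B : 𝔸.Cel) (y : 𝔸.loc B.1) :
    y ∈ 𝔸.Bplus B.1 ↔ (y : F) ∈ plus (𝔸.ϖ : F) B.1 (B.2 𝔸.ϖ_cel) := by
  refine ⟨fun h => ⟨h, ?_⟩, fun h => h.1⟩
  obtain ⟨a, ha⟩ := (Amb.mem_loc ((Amb.VF_le_cell ∅).trans B.2)).mp y.2
  have h1 := fil_anti (B.2 𝔸.ϖ_cel) (show -(a.natAbs : ℤ) ≤ a by omega) ha
  rw [mem_fil, neg_neg, zpow_natCast, Units.val_pow_eq_pow_val] at h1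
  exact ⟨_, h1⟩

/-- The system of pairs attached to data at all points. -/
def psys {R : Type} [CommRing R] {q : ℕ}
    (P : ∀ O : Pnt (𝔸.ϖ : F) (𝔸.cell ∅), PtK R O.1 (O.of ⟨𝔸.ϖ, 𝔸.ϖ_cel⟩) q) : PSys 𝔸 R q where
  KK B := KK P B.1
  P B := (pairK P B.1 B.2).restr (𝔸.loc B.1) (𝔸.πL B.1 ((Amb.VF_le_cell ∅).trans B.2)) rfl
    (𝔸.Bplus B.1) (𝔸.mem_Bplus_iff_plus B)
  P_π _ := rfl
  P_Bp _ := rfl
  mp h := resK P h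
  mp_mp h h' y := resK_resK P h h' y
  mp_ϖ := fun {B _} h => (homK P B.2 h).φϖ
  mp_S := fun {B _} h => (homK P B.2 h).mapS
  mp_Γ := fun {B _} h z hz =>
    PairD.restr_Γ.mpr ((homK P B.2 h).mapΓ (z.1, (z.2 : F)) (PairD.restr_Γ.mp hz))
  ι := iotaK P _
  ι_S := iotaK_mem P _

theorem psys_tilt {R : Type} [CommRing R] {q : ℕ}
    (P : ∀ O : Pnt (𝔸.ϖ : F) (𝔸.cell ∅), PtK R O.1 (O.of ⟨𝔸.ϖ, 𝔸.ϖ_cel⟩) q) {C : ℕ} {a : R}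
    {H : 𝔸.cell ∅} (hT : ∀ O, (P O).Tilt C a (O.of H)) (B : 𝔸.Cel) {e : ℕ} (he : e ≤ C)
    (hH : (H : F) ∈ fil 𝔸.ϖ B.1 e) (H' : 𝔸.loc B.1) (h : (H' : F) = H) (y : KK P B.1)
    (hy : y = iotaK P B.1 a) : (y, H') ∈ ((psys 𝔸 P).P B).T e := by
  have h1 := tilt_pair P hT B.2 he (fil_mono _ (le_plus _) _ hH)
  rw [← h, ← hy] at h1
  exact PairD.restr_T (P := pairK P B.1 B.2) (hπ := rfl) (hB := 𝔸.mem_Bplus_iff_plus B) h1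

theorem psys_r {R : Type} [CommRing R] {q : ℕ}
    (P : ∀ O : Pnt (𝔸.ϖ : F) (𝔸.cell ∅), PtK R O.1 (O.of ⟨𝔸.ϖ, 𝔸.ϖ_cel⟩) q) (B : 𝔸.Cel) (a : R) :
    (psys 𝔸 P).r B ((psys 𝔸 P).ι a) = iotaK P B.1 a := funext fun _ => rfl

theorem Amb.coe_incl' {B B' : 𝔸.Cel} (h : B ≤ B') (y : 𝔸.loc B.1) :
    ((𝔸.incl h y : 𝔸.loc B'.1) : F) = y := Subring.coe_inclusion _ y

end Main

/-- Points and tilts. -/
theorem exists_psys (p : ℕ) [Fact p.Prime] (k : Type) [Field k] [IsAlgClosed k] [CharP k p] (n : ℕ)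
    (g : SW p k (n + 1)) (hg : MvPowerSeries.constantCoeff g = 0) (A : Finset (RW g)) (c : ℕ) :
    ∃ j₀ : ℕ, ∀ j, j₀ ≤ j → ∀ (K F : Type) [Field K] [Field F] [CharZero K] [CharZero F]
      [Algebra K F] (θ : WittVector p k →+* K) (𝔸 : Amb (n + 1) K F), (∀ a, θ a ∈ 𝔸.V) →
      (𝔸.π : K) ^ ((c + 2) * p ^ j) = p →
      ∃ (𝒬 : PSys 𝔸 (RW g) (p ^ j)) (H : RW g → 𝔸.loc (𝔸.cell ∅)), (∀ a, (H a : F) ≠ 0) ∧
        (∀ a, (H a : F) ∈ 𝔸.cell ∅) ∧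
        (∀ a ∈ A, ∀ (B : 𝔸.Cel) (e : ℕ), e ≤ c * p ^ j → (H a : F) ∈ fil 𝔸.ϖ B.1 e →
          (𝒬.r B (𝒬.ι a), 𝔸.incl (B := 𝔸.c0) B.2 (H a)) ∈ (𝒬.P B).T e) ∧
        ∀ i, (𝒬.ι (xW g i), Tow.zc (𝔸 := 𝔸) (p ^ j) i) ∈ (𝒬.P 𝔸.c0).T (p ^ j : ℕ) := by
  obtain ⟨j0, hj0⟩ := exists_points g hg c
  refine ⟨A.sup j0, fun j hj K F _ _ _ _ _ θ 𝔸 hθ hπ => ?_⟩
  obtain ⟨G, hG⟩ := hj0 j
  let θ' : WittVector p k →+* 𝔸.cell ∅ := ((algebraMap K F).comp θ).codRestrict _ fun a =>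
    Amb.VF_le_cell ∅ ⟨_, hθ a, rfl⟩
  let w : Fin (n + 1) → 𝔸.cell ∅ := fun i => ⟨𝔸.w i, 𝔸.w_cel i⟩
  obtain ⟨P, h1, h2⟩ := hG F 𝔸.ϖ (𝔸.cell ∅) 𝔸.ϖ_cel θ' w (by
    change algebraMap K F 𝔸.π ^ _ = _
    rw [← add_mul, ← map_pow, hπ, map_natCast])
  have h3 : ∀ a, ∃ H : 𝔸.cell ∅, (H : F) ≠ 0 ∧ (a ∈ A → ∀ O, (P O).Tilt (c * p ^ j) a (O.of H)) := by
    intro a
    by_cases h : MvPolynomial.eval₂Hom θ' (fun i => (⟨𝔸.ϖ, 𝔸.ϖ_cel⟩ : 𝔸.cell ∅) * w i) (G a) = 0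
    · refine ⟨⟨𝔸.ϖ, 𝔸.ϖ_cel⟩ ^ (c * p ^ j + p ^ j), ?_, fun ha O => ?_⟩
      · rw [SubmonoidClass.coe_pow]
        exact pow_ne_zero _ 𝔸.ϖ.ne_zero
      have h4 := (h1 a ((Finset.le_sup ha).trans hj) O).add 1
      rwa [h, map_zero, zero_add, mul_one, ← map_pow] at h4
    · exact ⟨_, fun h' => h (Subtype.ext h'), fun ha => h1 a ((Finset.le_sup ha).trans hj)⟩
  choose H h4 h5 using h3
  refine ⟨psys 𝔸 P, fun a => ⟨H a, Subring.subset_closure (Or.inl (H a).2)⟩, h4, fun a => (H a).2,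
    fun a ha B e he hH => ?_, fun i => ?_⟩
  · exact psys_tilt 𝔸 P (h5 a ha) B he hH _ (𝔸.coe_incl' (B := 𝔸.c0) B.2 _) _ (psys_r 𝔸 P B a)
  · have h6 : (((⟨𝔸.ϖ, 𝔸.ϖ_cel⟩ * w i) ^ p ^ j : 𝔸.cell ∅) : F) = ((𝔸.ϖ : F) * 𝔸.w i) ^ p ^ j := by
      rw [SubmonoidClass.coe_pow, Subring.coe_mul]
    refine psys_tilt 𝔸 P (h2 i) 𝔸.c0 (Nat.le_add_left _ _) ?_ _ h6.symm _ rfl
    rw [mem_fil, h6, mul_pow, ← mul_assoc, ← Units.val_pow_eq_pow_val, ← zpow_natCast,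
      zpow_val_neg', one_mul]
    exact Subring.pow_mem _ (𝔸.w_cel i) _

end Pool.Agent.P.MP_f43029_ag.XL
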