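import Pool.Agent.P.MP_f43029_ag.Mx.Struct

/-!
Witt vectors over a perfect ring which is complete for an element `t`, the quotient by `p - γ`,
and the approximation of its elements by multiplicative representatives.
-/

set_option autoImplicit false

namespace Pool.Agent.P.MP_f43029_ag.XL

open WittVector

section Witt

variable {p : ℕ} [hp : Fact p.Prime] {A : Type} [CommRing A] [CharP A p] [PerfectRing A p]

theorem teich_mul_coeff (a : A) (x : WittVector p A) (i : ℕ) :
    (teichmuller p a * x).coeff i = a ^ p ^ i * x.coeff i := by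
  let y : WittVector p A := WittVector.mk p fun i => a ^ p ^ i * x.coeff i
  have hy : ∀ i, y.coeff i = a ^ p ^ i * x.coeff i := fun i => rfl
  have h1 := dvd_sub_sum_teichmuller_iterateFrobeniusEquiv_coeff x i
  have h2 := dvd_sub_sum_teichmuller_iterateFrobeniusEquiv_coeff y i
  have h3 : ∀ n, ((_root_.frobeniusEquiv A p).symm ^ n) (a ^ p ^ n) = a := by
    intro n
    induction n with
    | zero => simp
    | succ n ih =>
      rw [pow_succ, RingAut.mul_apply, pow_succ, pow_mul, ← frobenius_def,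
        ← coe_frobeniusEquiv, RingEquiv.symm_apply_apply, ih]
  have h4 : (p : WittVector p A) ^ (i + 1) ∣ teichmuller p a * x - y := by
    have h5 := dvd_sub (Dvd.dvd.mul_left h1 (teichmuller p a)) h2
    convert h5 using 1
    simp only [hy, map_mul, h3, mul_sub, Finset.mul_sum, mul_assoc]
    ring
  rw [← Ideal.mem_span_singleton, mem_span_p_pow_iff_le_coeff_eq_zero,
    ← le_coeff_eq_iff_le_sub_coeff_eq_zero] at h4
  rw [h4 i (Nat.lt_succ_self i), hy]

theorem teich_dvd_iff (a : A) (x : WittVector p A) :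
    teichmuller p a ∣ x ↔ ∀ i, a ^ p ^ i ∣ x.coeff i := by
  constructor
  · rintro ⟨y, rfl⟩ i
    rw [teich_mul_coeff]
    exact dvd_mul_right _ _
  · intro h
    choose y hy using h
    refine ⟨WittVector.mk p y, ?_⟩
    ext i
    rw [teich_mul_coeff, hy]
    rfl

theorem teich_regular {t : A} (ht : ∀ y, t * y = 0 → y = 0) (x : WittVector p A)
    (h : teichmuller p t * x = 0) : x = 0 := by
  ext i
  have h1 := congrArg (fun z => z.coeff i) h
  simp only [teich_mul_coeff, zero_coeff] at h1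
  rw [zero_coeff]
  generalize p ^ i = m at h1
  induction m with
  | zero => simpa using h1
  | succ m ih => exact ih (ht _ (by rw [← mul_assoc, ← pow_succ']; exact h1))

omit [CharP A p] [PerfectRing A p] in
theorem coeff_sub_mem (I : Ideal A) (x y : WittVector p A) :
    (∀ i, (x - y).coeff i ∈ I) ↔ ∀ i, x.coeff i - y.coeff i ∈ I := by
  have h1 : (∀ i, (x - y).coeff i ∈ I) ↔ WittVector.map (Ideal.Quotient.mk I) (x - y) = 0 := by
    rw [WittVector.map_eq_zero_iff]
    simp only [Ideal.Quotient.eq_zero_iff_mem]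
  rw [h1, map_sub, sub_eq_zero, WittVector.ext_iff]
  simp only [map_coeff, Ideal.Quotient.eq]

theorem witt_complete (t : A) [IsAdicComplete (Ideal.span {t}) A] :
    IsAdicComplete (Ideal.span {teichmuller p t}) (WittVector p A) := by
  have hm : ∀ (n : ℕ) (x : WittVector p A),
      x ∈ (Ideal.span {teichmuller p t} ^ n • ⊤ : Submodule (WittVector p A) (WittVector p A)) ↔
        ∀ i, t ^ (n * p ^ i) ∣ x.coeff i := by
    intro n x
    rw [smul_eq_mul, Ideal.mul_top, Ideal.span_singleton_pow, Ideal.mem_span_singleton,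
      ← map_pow, teich_dvd_iff]
    simp only [pow_mul]
  have hA : ∀ (n : ℕ) (x : A), x ∈ (Ideal.span {t} ^ n • ⊤ : Submodule A A) ↔ t ^ n ∣ x := by
    intro n x
    rw [smul_eq_mul, Ideal.mul_top, Ideal.span_singleton_pow, Ideal.mem_span_singleton]
  have hle : ∀ n i : ℕ, t ^ n ∣ t ^ (n * p ^ i) := fun n i =>
    pow_dvd_pow _ (Nat.le_mul_of_pos_right _ (pow_pos hp.out.pos _))
  refine { haus' := fun x hx => ?_, prec' := fun f hf => ?_ }
  · ext i
    rw [zero_coeff]
    refine IsHausdorff.haus (inferInstance : IsHausdorff (Ideal.span {t}) A) _ fun n => ?_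
    rw [SModEq.zero, hA]
    exact (hle n i).trans ((hm n x).mp (SModEq.zero.mp (hx n)) i)
  · have h1 : ∀ {m n}, m ≤ n → ∀ i, t ^ m ∣ (f m).coeff i - (f n).coeff i := by
      intro m n hmn
      have h2 := (hm m _).mp (SModEq.sub_mem.mp (hf hmn))
      have h3 := (coeff_sub_mem (Ideal.span {t ^ m}) (f m) (f n)).mp fun i =>
        Ideal.mem_span_singleton.mpr ((hle m i).trans (h2 i))
      exact fun i => Ideal.mem_span_singleton.mp (h3 i)
    have h2 : ∀ i, ∃ L : A, ∀ n, (f n).coeff i ≡ L [SMOD (Ideal.span {t} ^ n • ⊤ : Submodule A A)] :=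
      fun i => IsPrecomplete.prec (inferInstance : IsPrecomplete (Ideal.span {t}) A)
        fun {m n} hmn => SModEq.sub_mem.mpr ((hA _ _).mpr (h1 hmn i))
    choose L hL using h2
    refine ⟨WittVector.mk p L, fun n => SModEq.sub_mem.mpr ((hm _ _).mpr fun i => ?_)⟩
    have hn : n ≤ n * p ^ i := Nat.le_mul_of_pos_right _ (pow_pos hp.out.pos _)
    have h3 := (hm n _).mp (SModEq.sub_mem.mp (hf hn)) i
    have h4 := (coeff_sub_mem (Ideal.span {t ^ (n * p ^ i)}) (f (n * p ^ i))
      (WittVector.mk p L)).mpr fun j =>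
        Ideal.mem_span_singleton.mpr ((hA _ _).mp (SModEq.sub_mem.mp (hL j _)))
    have h5 := (coeff_sub_mem (Ideal.span {t ^ (n * p ^ i)}) (f n - WittVector.mk p L)
      (f n - f (n * p ^ i))).mp (by simpa using h4) i
    have h6 := Ideal.mem_span_singleton.mp h5
    exact (dvd_sub_left h3).mp h6

theorem exists_teich_add (a : WittVector p A) :
    ∃ a', a = teichmuller p (a.coeff 0) + p * a' := by
  have h : a - teichmuller p (a.coeff 0) ∈ Ideal.span {(p : WittVector p A)} := by
    rw [← ker_constantCoeff, RingHom.mem_ker, map_sub]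
    simp
  obtain ⟨b, hb⟩ := Ideal.mem_span_singleton.mp h
  exact ⟨b, by rw [← hb]; ring⟩

theorem p_regular {x y : WittVector p A} (h : p * x = p * y) : x = y :=
  sub_eq_zero.mp (eq_zero_of_p_mul_eq_zero _ (by rw [sub_mul, mul_comm x, mul_comm y, h, sub_self]))

/-- The state of the approximation: the tail of `a` is divisible by its leading representative
or by the representative of `s`. -/
def WSt (s : A) (a : WittVector p A) : Prop :=
  ∀ a', a = teichmuller p (a.coeff 0) + p * a' →
    (teichmuller p (a.coeff 0) ∣ a' ∨ teichmuller p s ∣ a')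

theorem WSt.of_unit {s z : A} {w : WittVector p A} (hw : IsUnit (w.coeff 0)) :
    WSt s (teichmuller p z * w) := by
  intro a' ha'
  obtain ⟨w', hw'⟩ := exists_teich_add w
  have h0 : (teichmuller p z * w).coeff 0 = z * w.coeff 0 := by rw [teich_mul_coeff]; simp
  rw [h0] at ha' ⊢
  have h1 : a' = teichmuller p z * w' := by
    refine p_regular (add_left_cancel (a := teichmuller p (z * w.coeff 0)) ?_)
    rw [← ha', map_mul]
    conv_lhs => rw [hw']
    ring
  left
  rw [h1, map_mul]
  exact Dvd.dvd.mul_right ((hw.map (teichmuller p)).mul_right_dvd.mpr dvd_rfl) _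

theorem WSt.of_dvd (s : A) (w : WittVector p A) : WSt s (teichmuller p s * w) := by
  intro a' ha'
  obtain ⟨w', hw'⟩ := exists_teich_add w
  have h0 : (teichmuller p s * w).coeff 0 = s * w.coeff 0 := by rw [teich_mul_coeff]; simp
  rw [h0] at ha'
  have h1 : a' = teichmuller p s * w' := by
    refine p_regular (add_left_cancel (a := teichmuller p (s * w.coeff 0)) ?_)
    rw [← ha', map_mul]
    conv_lhs => rw [hw']
    ring
  exact Or.inr ⟨w', h1⟩

theorem WSt.step [IsLocalRing A] [PreValuationRing A] {τ s : A} (hτ : ¬ IsUnit τ)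
    {γ a a' : WittVector p A} (hγ : teichmuller p τ ∣ γ) (h : WSt s a)
    (ha : a = teichmuller p (a.coeff 0) + p * a') :
    WSt (s * τ) (teichmuller p (a.coeff 0) + γ * a') := by
  obtain ⟨γ', rfl⟩ := hγ
  have hu : ∀ (v : A) (y : WittVector p A), ¬ IsUnit v →
      IsUnit ((1 + teichmuller p v * y).coeff 0) := by
    intro v y hv
    have h1 : (1 + teichmuller p v * y).coeff 0 = 1 - (-(v * y.coeff 0)) := by
      rw [add_coeff_zero, mul_coeff_zero]; simp
    rw [h1]
    refine IsLocalRing.isUnit_one_sub_self_of_mem_nonunits _ fun h2 => hv ?_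
    exact isUnit_of_mul_isUnit_left (IsUnit.neg_iff _ |>.mp h2)
  rcases h a' ha with ⟨y, rfl⟩ | ⟨y, rfl⟩
  · have := WSt.of_unit (s := s * τ) (z := a.coeff 0) (hu τ (γ' * y) hτ)
    convert this using 1
    ring
  · by_cases hz : s * τ ∣ a.coeff 0
    · obtain ⟨v, hv⟩ := hz
      have := WSt.of_dvd (s * τ) (teichmuller p v + γ' * y)
      convert this using 1
      rw [hv, map_mul, map_mul]
      ring
    · obtain ⟨v, hv⟩ := (ValuationRing.dvd_total (s * τ) (a.coeff 0)).resolve_left hz
      have hv' : ¬ IsUnit v := fun h1 => hz (by rw [hv]; exact h1.mul_right_dvd.mpr dvd_rfl)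
      have := WSt.of_unit (s := s * τ) (z := a.coeff 0) (hu v (γ' * y) hv')
      convert this using 1
      have h2 : teichmuller p s * teichmuller p τ = teichmuller p (a.coeff 0) * teichmuller p v := by
        rw [← map_mul, hv, map_mul]
      linear_combination (γ' * y) * h2

/-- The universal approximation. -/
theorem exists_approx {P : Type} [CommRing P] [CharP P p] [PerfectRing P p]
    (γ a : WittVector p P) (i : ℕ) : ∃ b d : WittVector p P, a = b + (p - γ) * d ∧
      ∀ (A : Type) [CommRing A] [CharP A p] [PerfectRing A p] [IsLocalRing A] [PreValuationRing A]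
        (φ : P →+* A) (τ : A), ¬ IsUnit τ → teichmuller p τ ∣ WittVector.map φ γ →
          WSt (τ ^ i) (WittVector.map φ b) := by
  induction i with
  | zero =>
    refine ⟨a, 0, by simp, fun A _ _ _ _ _ φ τ _ _ a' _ => Or.inr ?_⟩
    simp
  | succ i ih =>
    obtain ⟨b, d, hb, h⟩ := ih
    obtain ⟨b', hb'⟩ := exists_teich_add b
    refine ⟨teichmuller p (b.coeff 0) + γ * b', d + b', ?_, fun A _ _ _ _ _ φ τ hτ hγ => ?_⟩
    · rw [hb]
      conv_lhs => rw [hb']
      ring
    · have h1 := WSt.step hτ hγ (h A φ τ hτ hγ) (a' := WittVector.map φ b') (by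
        conv_lhs => rw [hb']
        rw [map_add, map_mul, map_natCast, map_teichmuller, map_coeff])
      rw [map_add, map_mul, map_teichmuller, pow_succ]
      rwa [map_coeff] at h1

end Witt

theorem exists_poly_approx {W : Type} [CommRing W] {D : ℕ} (L : ℕ) (s : MvPowerSeries (Fin D) W) :
    ∃ f : MvPolynomial (Fin D) W, s - f ∈
      Ideal.span (Set.range (MvPowerSeries.X : Fin D → MvPowerSeries (Fin D) W)) ^ L := by
  induction L generalizing s with
  | zero => exact ⟨0, by simp⟩
  | succ L ih =>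
    have h := mem_span_X D (s - MvPowerSeries.C (MvPowerSeries.constantCoeff s)) (by simp)
    obtain ⟨c, hc⟩ := Ideal.mem_span_range_iff_exists_fun.mp h
    choose f hf using fun i => ih (c i)
    refine ⟨MvPolynomial.C (MvPowerSeries.constantCoeff s) + ∑ i, f i * MvPolynomial.X i, ?_⟩
    have h1 : s - ((MvPolynomial.C (MvPowerSeries.constantCoeff s) +
        ∑ i, f i * MvPolynomial.X i : MvPolynomial (Fin D) W) : MvPowerSeries (Fin D) W) =
        ∑ i, (c i - (f i : MvPowerSeries (Fin D) W)) * MvPowerSeries.X i := by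
      rw [← MvPolynomial.coeToMvPowerSeries.ringHom_apply, map_add, map_sum]
      simp only [map_mul, MvPolynomial.coeToMvPowerSeries.ringHom_apply, MvPolynomial.coe_C,
        MvPolynomial.coe_X, sub_mul, Finset.sum_sub_distrib, hc]
      ring
    rw [h1, pow_succ]
    exact Ideal.sum_mem _ fun i _ => Ideal.mul_mem_mul (hf i) (Ideal.subset_span ⟨i, rfl⟩)

/-- The data attached to a point: a ring `S` receiving `R` which agrees with `O` modulo `π ^ q`. -/
structure Pt (R O : Type) [CommRing R] [CommRing O] (π : O) (q : ℕ) where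
  S : Type
  [ring : CommRing S]
  vp : S
  iota : R →+* S
  rho : S →+* O ⧸ Ideal.span {π ^ q}
  reg : ∀ y, vp * y = 0 → y = 0
  surj : Function.Surjective rho
  ker : ∀ y, rho y = 0 → vp ^ q ∣ y
  rho_vp : rho vp = Ideal.Quotient.mk _ π
  unit : ∀ y, IsUnit (1 + vp * y)

attribute [instance] Pt.ring

/-- `H` approximates `a` at the point, with relative precision, up to the exponent `C`. -/
def Pt.Tilt {R O : Type} [CommRing R] [CommRing O] {π : O} {q : ℕ} (P : Pt R O π q) (C : ℕ)
    (a : R) (H : O) : Prop :=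
  ∀ e ≤ C, ∀ h : O, H = π ^ e * h →
    ∃ s : P.S, P.iota a = P.vp ^ e * s ∧ P.rho s = Ideal.Quotient.mk _ h

/-- A perfect valuation ring which agrees with `O` modulo `p = π ^ M`. -/
structure Flat (p : ℕ) (O : Type) [CommRing O] (π : O) (M : ℕ) where
  A : Type
  [ring : CommRing A]
  [dom : IsDomain A]
  [val : ValuationRing A]
  [char : CharP A p]
  [perf : PerfectRing A p]
  t : A
  pr : A →+* O ⧸ Ideal.span {(p : O)}
  [compl : IsAdicComplete (Ideal.span {t}) A]
  ne : t ≠ 0
  nonunit : ¬ IsUnit t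
  surj : Function.Surjective pr
  ker : ∀ y, pr y = 0 → t ^ M ∣ y
  pr_t : pr t = Ideal.Quotient.mk _ π
  lift : ∀ (k : Type) [CommRing k] [CharP k p] [PerfectRing k p]
    (κ : k →+* O ⧸ Ideal.span {(p : O)}), ∃ κ' : k →+* A, ∀ a, pr (κ' a) = κ a

attribute [instance] Flat.ring Flat.dom Flat.val Flat.char Flat.perf Flat.compl

theorem Flat.div {p : ℕ} {O : Type} [CommRing O] {π : O} {M : ℕ} (Fl : Flat p O π M) {e : ℕ}
    (he : e ≤ M) {z : Fl.A} {h : O} (hz : Fl.pr z = Ideal.Quotient.mk _ (π ^ e * h)) :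
    ∃ u r, z = Fl.t ^ e * (u + Fl.t ^ (M - e) * r) ∧ Fl.pr u = Ideal.Quotient.mk _ h := by
  obtain ⟨u, hu⟩ := Fl.surj (Ideal.Quotient.mk _ h)
  obtain ⟨r, hr⟩ := Fl.ker (z - Fl.t ^ e * u) (by
    rw [map_sub, map_mul, map_pow, hz, hu, Fl.pr_t, map_mul, map_pow, sub_self])
  refine ⟨u, r, ?_, hu⟩
  rw [mul_add, ← mul_assoc, ← pow_add, Nat.add_sub_cancel' he, ← hr]
  ring

section Main

variable {p : ℕ} [hp : Fact p.Prime] {k : Type} [Field k] [CharP k p] [PerfectRing k p] {D : ℕ}

/-- The perfect closure of the polynomial ring. -/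
abbrev PC (p : ℕ) [Fact p.Prime] (k : Type) [Field k] [CharP k p] (D : ℕ) : Type :=
  PerfectClosure (MvPolynomial (Fin D) k) p

/-- The map from polynomials over `W(k)` to Witt vectors of the perfect closure. -/
noncomputable def psi (p : ℕ) [Fact p.Prime] (k : Type) [Field k] [CharP k p] (D : ℕ) :
    MvPolynomial (Fin D) (WittVector p k) →+* WittVector p (PC p k D) :=
  MvPolynomial.eval₂Hom (WittVector.map ((PerfectClosure.of _ p).comp MvPolynomial.C))
    fun i => teichmuller p (PerfectClosure.of _ p (MvPolynomial.X i))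

theorem exists_root_poly (z : PC p k D) : ∃ j0 : ℕ, ∀ j ≥ j0,
    ∃ G : MvPolynomial (Fin D) (WittVector p k),
      ∀ (A : Type) [CommRing A] [CharP A p] [PerfectRing A p] (φ : PC p k D →+* A) (κ : k →+* A)
        (y : Fin D → A), (∀ a, φ (PerfectClosure.of _ p (MvPolynomial.C a)) = κ a) →
        (∀ i, φ (PerfectClosure.of _ p (MvPolynomial.X i)) = y i ^ p ^ j) →
          φ z = MvPolynomial.eval₂Hom (κ.comp constantCoeff) y G := by
  obtain ⟨⟨n, f⟩, rfl⟩ := PerfectClosure.mk_surjective _ p z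
  refine ⟨n, fun j hj => ?_⟩
  obtain ⟨m, rfl⟩ := Nat.exists_eq_add_of_le hj
  let σ : k →+* k := (iterateFrobeniusEquiv k p (n + m)).symm
  obtain ⟨G, hG⟩ := MvPolynomial.map_surjective (σ := Fin D) _ (constantCoeff_surjective (R := k) p)
    (MvPolynomial.map σ (f ^ p ^ m))
  refine ⟨G, fun A _ _ _ φ κ y h1 h2 => ?_⟩
  have h3 : (iterateFrobenius A p (n + m)).comp ((MvPolynomial.eval₂Hom κ y).comp
      (MvPolynomial.map σ)) = φ.comp (PerfectClosure.of _ p) := by
    refine MvPolynomial.ringHom_ext (fun a => ?_) (fun i => ?_)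
    · simp only [RingHom.comp_apply, MvPolynomial.map_C, MvPolynomial.eval₂Hom_C, h1,
        iterateFrobenius_def]
      rw [← map_pow, ← iterateFrobeniusEquiv_def]
      simp [σ]
    · simp only [RingHom.comp_apply, MvPolynomial.map_X, MvPolynomial.eval₂Hom_X', h2,
        iterateFrobenius_def]
  have h4 : MvPolynomial.eval₂Hom (κ.comp constantCoeff) y G =
      MvPolynomial.eval₂Hom κ y (MvPolynomial.map σ (f ^ p ^ m)) := by
    rw [← hG, MvPolynomial.eval₂Hom_map_hom]
  refine (iterateFrobeniusEquiv A p (n + m)).injective ?_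
  have h5 := RingHom.congr_fun h3 (f ^ p ^ m)
  simp only [RingHom.comp_apply, iterateFrobenius_def] at h5
  rw [h4, iterateFrobeniusEquiv_def, iterateFrobeniusEquiv_def, h5, ← map_pow, map_pow _ f,
    ← PerfectClosure.iterate_frobenius_mk _ p n f, iterate_frobenius, ← pow_mul, ← pow_add]

/-- The point data built from a perfect model and an element `γ` divisible by `[t] ^ q`. -/
noncomputable def Flat.pt {O : Type} [CommRing O] {π : O} {M q : ℕ} (Fl : Flat p O π M)
    (hπ : π ^ M = p) (hq : 1 ≤ q) (hM : q ≤ M) (g : SW p k D) (Φ : SW p k D →+* WittVector p Fl.A)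
    (hg : teichmuller p Fl.t ^ q ∣ Φ g) : Pt (RW g) O π q :=
  have hle : Ideal.span {(p : O)} ≤ Ideal.span {π ^ q} :=
    Ideal.span_singleton_le_span_singleton.mpr (hπ ▸ pow_dvd_pow π hM)
  let ρ0 : WittVector p Fl.A →+* O ⧸ Ideal.span {π ^ q} :=
    (Ideal.Quotient.factor hle).comp (Fl.pr.comp constantCoeff)
  have h0 : ∀ a : Fl.A, ρ0 (teichmuller p a) = Ideal.Quotient.factor hle (Fl.pr a) := fun a => by
    simp [ρ0]
  have ht : ρ0 (teichmuller p Fl.t) = Ideal.Quotient.mk _ π := by rw [h0, Fl.pr_t]; rfl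
  have hp0 : ρ0 (p : WittVector p Fl.A) = 0 := by
    simp only [ρ0, RingHom.comp_apply]
    rw [map_natCast constantCoeff, CharP.cast_eq_zero Fl.A, map_zero, map_zero]
  have hγ0 : ρ0 (Φ g) = 0 := by
    obtain ⟨y, hy⟩ := hg
    rw [hy, map_mul, map_pow, ht, ← map_pow,
      Ideal.Quotient.eq_zero_iff_mem.mpr (Ideal.mem_span_singleton_self _), zero_mul]
  { S := WittVector p Fl.A ⧸ Ideal.span {(p : WittVector p Fl.A) - Φ g}
    vp := Ideal.Quotient.mk _ (teichmuller p Fl.t)
    iota := Ideal.quotientMap _ Φ (by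
      rw [Ideal.span_le]
      rintro _ rfl
      rw [SetLike.mem_coe, Ideal.mem_comap, map_sub, map_natCast]
      exact Ideal.mem_span_singleton_self _)
    rho := Ideal.Quotient.lift _ ρ0 fun a ha => by
      obtain ⟨b, rfl⟩ := Ideal.mem_span_singleton.mp ha
      rw [map_mul, map_sub, hp0, hγ0, sub_zero, zero_mul]
    reg := by
      intro y hy
      obtain ⟨y, rfl⟩ := Ideal.Quotient.mk_surjective y
      rw [← map_mul, Ideal.Quotient.eq_zero_iff_mem, Ideal.mem_span_singleton] at hy
      obtain ⟨z, hz⟩ := hy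
      obtain ⟨γ', hγ'⟩ := (dvd_pow_self _ (by omega : q ≠ 0)).trans hg
      have h1 : (p : WittVector p Fl.A) * z = teichmuller p Fl.t * (y + γ' * z) := by
        rw [hγ'] at hz
        linear_combination -hz
      have h2 : (y + γ' * z).coeff 0 = 0 := by
        have h3 := congrArg (fun w => w.coeff 0) h1
        simp only [teich_mul_coeff, mul_comm (p : WittVector p Fl.A), mul_charP_coeff_zero,
          pow_zero, pow_one] at h3
        exact (mul_eq_zero.mp h3.symm).resolve_left Fl.ne
      obtain ⟨u, hu⟩ := Ideal.mem_span_singleton.mp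
        ((mem_span_p_iff_coeff_zero_eq_zero _).mpr h2)
      have h4 : z = teichmuller p Fl.t * u := p_regular (by rw [h1, hu]; ring)
      rw [Ideal.Quotient.eq_zero_iff_mem, Ideal.mem_span_singleton]
      refine ⟨u, sub_eq_zero.mp (teich_regular (t := Fl.t)
        (fun w hw => (mul_eq_zero.mp hw).resolve_left Fl.ne) _ ?_)⟩
      rw [mul_sub, hz, h4]
      ring
    surj := by
      intro b
      obtain ⟨b, rfl⟩ := Ideal.Quotient.mk_surjective b
      obtain ⟨a, ha⟩ := Fl.surj (Ideal.Quotient.mk _ b)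
      exact ⟨Ideal.Quotient.mk _ (teichmuller p a), by
        rw [Ideal.Quotient.lift_mk, h0, ha]; rfl⟩
    ker := by
      intro y hy
      obtain ⟨y, rfl⟩ := Ideal.Quotient.mk_surjective y
      obtain ⟨y', hy'⟩ := exists_teich_add y
      rw [Ideal.Quotient.lift_mk, hy', map_add, map_mul, hp0, zero_mul, add_zero, h0] at hy
      obtain ⟨b, hb⟩ := Ideal.Quotient.mk_surjective (Fl.pr (y.coeff 0))
      rw [← hb, Ideal.Quotient.factor_mk, Ideal.Quotient.eq_zero_iff_mem,
        Ideal.mem_span_singleton] at hy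
      obtain ⟨h, rfl⟩ := hy
      obtain ⟨u, r, hu, -⟩ := Fl.div hM hb.symm
      obtain ⟨γ', hγ'⟩ := hg
      refine ⟨Ideal.Quotient.mk _ (teichmuller p (u + Fl.t ^ (M - q) * r) + γ' * y'), ?_⟩
      rw [← map_pow, ← map_mul, Ideal.Quotient.eq, Ideal.mem_span_singleton]
      refine ⟨y', ?_⟩
      conv_lhs => rw [hy', hu, map_mul, map_pow]
      rw [hγ']
      ring
    rho_vp := by rw [Ideal.Quotient.lift_mk, ht]
    unit := by
      intro y
      obtain ⟨y, rfl⟩ := Ideal.Quotient.mk_surjective y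
      have := witt_complete (p := p) Fl.t
      have h1 := IsAdicComplete.le_jacobson_bot (Ideal.span {teichmuller p Fl.t})
        (Ideal.mem_span_singleton_self _)
      have h2 := (Ideal.mem_jacobson_bot.mp h1 y).map
        (Ideal.Quotient.mk (Ideal.span {(p : WittVector p Fl.A) - Φ g}))
      rwa [map_add, map_mul, map_one, add_comm] at h2 }

omit [CharP k p] [PerfectRing k p] in
theorem Flat.exists_pt {O : Type} [CommRing O] {π : O} {M q : ℕ} (Fl : Flat p O π M)
    (hπ : π ^ M = p) (hq : 1 ≤ q) (hM : q ≤ M) (g : SW p k D) (Φ : SW p k D →+* WittVector p Fl.A)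
    (hg : teichmuller p Fl.t ^ q ∣ Φ g) :
    ∃ (P : Pt (RW g) O π q) (m : WittVector p Fl.A →+* P.S), m (p - Φ g) = 0 ∧
      P.vp = m (teichmuller p Fl.t) ∧ (∀ a, P.iota (Ideal.Quotient.mk _ a) = m (Φ a)) ∧
      ∀ a h, Fl.pr a = Ideal.Quotient.mk _ h →
        P.rho (m (teichmuller p a)) = Ideal.Quotient.mk _ h := by
  have hle : Ideal.span {(p : O)} ≤ Ideal.span {π ^ q} :=
    Ideal.span_singleton_le_span_singleton.mpr (hπ ▸ pow_dvd_pow π hM)
  refine ⟨Fl.pt hπ hq hM g Φ hg, Ideal.Quotient.mk (Ideal.span {(p : WittVector p Fl.A) - Φ g}),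
    Ideal.Quotient.eq_zero_iff_mem.mpr (Ideal.mem_span_singleton_self _), rfl, fun a => rfl,
    fun a h ha => ?_⟩
  change Ideal.Quotient.factor hle (Fl.pr (constantCoeff (teichmuller p a))) = _
  rw [constantCoeff_apply, teichmuller_coeff_zero, ha]
  rfl

theorem Flat.tilt {O R : Type} [CommRing O] [CommRing R] {π : O} {M q C : ℕ} (Fl : Flat p O π M)
    (P : Pt R O π q) (m : WittVector p Fl.A →+* P.S) (hv : P.vp = m (teichmuller p Fl.t))
    (hρ : ∀ a h, Fl.pr a = Ideal.Quotient.mk _ h →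
      P.rho (m (teichmuller p a)) = Ideal.Quotient.mk _ h)
    (hC : C + q ≤ M) {a : R} {z : Fl.A} {H : O}
    (hz : Fl.pr z = Ideal.Quotient.mk _ H) {y₁ y₂ : P.S}
    (ha : P.iota a = m (teichmuller p z) * (1 + P.vp ^ q * y₁) + P.vp ^ (C + q) * y₂) :
    P.Tilt C a H := by
  intro e he h hH
  obtain ⟨u, r, hu, hu'⟩ := Fl.div (by omega : e ≤ M) (hH ▸ hz)
  obtain ⟨d, rfl⟩ := Nat.exists_eq_add_of_le he
  obtain ⟨r', hr'⟩ := Ideal.Quotient.mk_surjective (Fl.pr r)
  have h2 : Fl.pr (u + Fl.t ^ (M - e) * r) = Ideal.Quotient.mk _ (h + π ^ (M - e) * r') := by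
    rw [map_add, map_mul, map_pow, hu', Fl.pr_t, ← hr', map_add, map_mul, map_pow]
  have h3 := hρ _ _ h2
  have h5 : (Ideal.Quotient.mk (Ideal.span {π ^ q}) π) ^ q = 0 := by
    rw [← map_pow, Ideal.Quotient.eq_zero_iff_mem]
    exact Ideal.mem_span_singleton_self _
  refine ⟨m (teichmuller p (u + Fl.t ^ (M - e) * r)) * (1 + P.vp ^ q * y₁) +
    P.vp ^ (d + q) * y₂, ?_, ?_⟩
  · rw [ha, hu, map_mul, map_pow, map_mul, map_pow, ← hv]
    ring
  · obtain ⟨n, hn⟩ := Nat.exists_eq_add_of_le (show q ≤ M - e by omega)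
    simp only [map_add, map_mul, map_pow, map_one, h3, P.rho_vp]
    rw [hn, pow_add, pow_add, h5]
    ring

/-- The approximation theorem at a point with a perfect model. -/
theorem exists_tilts (g : SW p k D) (hg : MvPowerSeries.constantCoeff g = 0) (c : ℕ) :
    ∃ j0 : RW g → ℕ, ∀ j : ℕ, ∃ G : RW g → MvPolynomial (Fin D) (WittVector p k),
      ∀ (O : Type) [CommRing O] (θ : WittVector p k →+* O) (π : O) (w : Fin D → O)
        (_ : Flat p O π (c * p ^ j + 2 * p ^ j)), π ^ (c * p ^ j + 2 * p ^ j) = p →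
        ∃ P : Pt (RW g) O π (p ^ j),
          (∀ a, j0 a ≤ j →
            P.Tilt (c * p ^ j) a (MvPolynomial.eval₂Hom θ (fun i => π * w i) (G a))) ∧
          ∀ i, P.Tilt (c * p ^ j + p ^ j) (xW g i) ((π * w i) ^ p ^ j) := by
  obtain ⟨gL, hgL⟩ := exists_poly_approx (c + 1) g
  choose s hs using (Ideal.Quotient.mk_surjective : Function.Surjective
    (Ideal.Quotient.mk (Ideal.span {(p : SW p k D) - g})))
  choose sL hsL using fun a => exists_poly_approx (c + 1) (s a)
  choose b d hb hSt using fun a => exists_approx (psi p k D gL) (psi p k D (sL a)) c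
  choose j0 hj0 using fun a => exists_root_poly ((b a).coeff 0)
  refine ⟨j0, fun j => ?_⟩
  have hG : ∀ a, ∃ G : MvPolynomial (Fin D) (WittVector p k), j0 a ≤ j →
      ∀ (A : Type) [CommRing A] [CharP A p] [PerfectRing A p] (φ : PC p k D →+* A) (κ : k →+* A)
        (y : Fin D → A), (∀ a, φ (PerfectClosure.of _ p (MvPolynomial.C a)) = κ a) →
        (∀ i, φ (PerfectClosure.of _ p (MvPolynomial.X i)) = y i ^ p ^ j) →
          φ ((b a).coeff 0) = MvPolynomial.eval₂Hom (κ.comp constantCoeff) y G := by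
    intro a
    by_cases h : j0 a ≤ j
    · obtain ⟨G, hG⟩ := hj0 a j h
      exact ⟨G, fun _ => hG⟩
    · exact ⟨0, fun h' => absurd h' h⟩
  choose G hG using hG
  refine ⟨G, fun O _ θ π w Fl hπ => ?_⟩
  have hq : 1 ≤ p ^ j := Nat.one_le_pow _ _ hp.out.pos
  generalize hqd : p ^ j = q at *
  let κ0 : k →+* O ⧸ Ideal.span {(p : O)} :=
    RingHom.liftOfSurjective constantCoeff (constantCoeff_surjective (R := k) p)
      ⟨(Ideal.Quotient.mk _).comp θ, by
        rw [ker_constantCoeff, Ideal.span_le]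
        rintro _ rfl
        rw [SetLike.mem_coe, RingHom.mem_ker, RingHom.comp_apply, map_natCast θ,
          Ideal.Quotient.eq_zero_iff_mem]
        exact Ideal.mem_span_singleton_self _⟩
  have hκ0 : ∀ a, κ0 (constantCoeff a) = Ideal.Quotient.mk _ (θ a) := fun a =>
    RingHom.liftOfSurjective_comp_apply ..
  obtain ⟨κ, hκ⟩ := Fl.lift k κ0
  choose wb hwb using fun i => Fl.surj (Ideal.Quotient.mk _ (w i))
  have := witt_complete (p := p) Fl.t
  obtain ⟨Φ, hΦX, hΦC⟩ := exists_pow_map (Ideal.span {teichmuller p Fl.t}) (WittVector.map κ)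
    (fun i => teichmuller p ((Fl.t * wb i) ^ q)) fun i => Ideal.mem_span_singleton.mpr (by
      rw [map_pow, map_mul]
      exact (dvd_mul_right _ _).trans (dvd_pow_self _ (by omega)))
  have hI : ∀ (L : ℕ) (x : SW p k D), x ∈ Ideal.span (Set.range
      (MvPowerSeries.X : Fin D → SW p k D)) ^ L → teichmuller p Fl.t ^ (L * q) ∣ Φ x := by
    intro L x hx
    have h1 : Ideal.span (Set.range (MvPowerSeries.X : Fin D → SW p k D)) ≤
        (Ideal.span {teichmuller p Fl.t ^ q}).comap Φ := by
      rw [Ideal.span_le]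
      rintro _ ⟨i, rfl⟩
      rw [SetLike.mem_coe, Ideal.mem_comap, hΦX, Ideal.mem_span_singleton, map_pow, map_mul,
        mul_pow]
      exact dvd_mul_right _ _
    have h2 := ((Ideal.pow_right_mono h1 L).trans (Ideal.le_comap_pow _ L)) hx
    rwa [Ideal.mem_comap, Ideal.span_singleton_pow, Ideal.mem_span_singleton, ← pow_mul,
      mul_comm q] at h2
  have hγ : teichmuller p Fl.t ^ q ∣ Φ g := by
    simpa using hI 1 g (by rw [pow_one]; exact mem_span_X D g hg)
  obtain ⟨P, m, hm, hv, hι, hρ⟩ := Fl.exists_pt hπ hq (by omega) g Φ hγ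
  let φ : PC p k D →+* Fl.A := PerfectClosure.lift _ p Fl.A
    (MvPolynomial.eval₂Hom κ fun i => (Fl.t * wb i) ^ q)
  have hφ : ∀ f, φ (PerfectClosure.of _ p f) =
      MvPolynomial.eval₂Hom κ (fun i => (Fl.t * wb i) ^ q) f := fun f =>
    RingHom.congr_fun ((PerfectClosure.lift _ p Fl.A).left_inv
      (MvPolynomial.eval₂Hom κ fun i => (Fl.t * wb i) ^ q)) f
  have hψ : ∀ f : MvPolynomial (Fin D) (WittVector p k),
      WittVector.map φ (psi p k D f) = Φ f := by
    intro f
    have h1 : (WittVector.map φ).comp (psi p k D) =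
        Φ.comp MvPolynomial.coeToMvPowerSeries.ringHom := by
      refine MvPolynomial.ringHom_ext (fun a => ?_) (fun i => ?_)
      · simp only [psi, RingHom.comp_apply, MvPolynomial.eval₂Hom_C,
          MvPolynomial.coeToMvPowerSeries.ringHom_apply, MvPolynomial.coe_C, hΦC]
        ext n
        simp only [map_coeff, RingHom.comp_apply, hφ, MvPolynomial.eval₂Hom_C]
      · simp only [psi, RingHom.comp_apply, MvPolynomial.eval₂Hom_X',
          MvPolynomial.coeToMvPowerSeries.ringHom_apply, MvPolynomial.coe_X, hΦX,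
          map_teichmuller, hφ]
    exact RingHom.congr_fun h1 f
  have hpr : ∀ i, Fl.pr (Fl.t * wb i) = Ideal.Quotient.mk _ (π * w i) := fun i => by
    rw [map_mul, Fl.pr_t, hwb, map_mul]
  refine ⟨P, fun a ha => ?_, fun i => ?_⟩
  · have h1 := hG a ha Fl.A φ κ (fun i => Fl.t * wb i)
      (fun a => by rw [hφ, MvPolynomial.eval₂Hom_C]) (fun i => by rw [hφ, MvPolynomial.eval₂Hom_X'])
    have h2 : Fl.pr (φ ((b a).coeff 0)) =
        Ideal.Quotient.mk _ (MvPolynomial.eval₂Hom θ (fun i => π * w i) (G a)) := by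
      rw [h1, MvPolynomial.map_eval₂Hom, MvPolynomial.map_eval₂Hom]
      congr 2
      · ext x
        simp only [RingHom.comp_apply, hκ, hκ0]
      · exact funext hpr
    obtain ⟨r, hr⟩ := hI _ _ hgL
    obtain ⟨r', hr'⟩ := hI _ _ (hsL a)
    obtain ⟨γ', hγ'⟩ := hγ
    rw [map_sub] at hr hr'
    have h3 := hSt a Fl.A φ (Fl.t ^ q) (fun h => Fl.nonunit ((isUnit_pow_iff (by omega)).mp h)) (by
      rw [hψ, map_pow, show Φ gL = Φ g - (Φ g - Φ gL) by ring, hr, hγ', add_mul, one_mul, pow_add]
      exact dvd_sub (dvd_mul_right _ _) (Dvd.dvd.mul_right (dvd_mul_left _ _) _))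
    obtain ⟨b', hb'⟩ := exists_teich_add (WittVector.map φ (b a))
    have h4 := congrArg (WittVector.map φ) (hb a)
    rw [map_add, map_mul, map_sub, map_natCast, hψ, hψ] at h4
    have h5 : m p = P.vp ^ q * m γ' := by
      rw [map_sub, sub_eq_zero] at hm
      rw [hm, hγ', map_mul, map_pow, hv]
    have h6 : P.iota a = m (teichmuller p (φ ((b a).coeff 0))) + P.vp ^ q * m γ' * m b' +
        P.vp ^ (c * q + q) * m (r' + r * WittVector.map φ (d a)) := by
      have h7 : Φ (s a) = teichmuller p (φ ((b a).coeff 0)) + p * b' +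
          teichmuller p Fl.t ^ (c * q + q) * (r' + r * WittVector.map φ (d a)) +
          (p - Φ g) * WittVector.map φ (d a) := by
        rw [← map_coeff, ← hb']
        rw [add_mul, one_mul] at hr hr'
        linear_combination hr' + h4 + WittVector.map φ (d a) * hr
      conv_lhs => rw [← hs a]
      rw [hι, h7, map_add, map_add, map_add, map_mul, map_mul, map_mul, hm, map_pow, ← hv, h5]
      ring
    rcases h3 b' hb' with ⟨y, hy⟩ | ⟨y, hy⟩
    · refine Fl.tilt P m hv hρ (by omega) h2 (y₁ := m γ' * m y)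
        (y₂ := m (r' + r * WittVector.map φ (d a))) ?_
      rw [h6, hy, map_mul, map_coeff]
      ring
    · refine Fl.tilt P m hv hρ (by omega) h2 (y₁ := 0)
        (y₂ := m γ' * m y + m (r' + r * WittVector.map φ (d a))) ?_
      rw [h6, hy, map_mul, map_pow, map_pow, map_pow, map_pow, ← hv]
      ring
  · refine Fl.tilt P m hv hρ (by omega) (z := (Fl.t * wb i) ^ q) (by rw [map_pow, hpr, map_pow])
      (y₁ := 0) (y₂ := 0) ?_
    rw [xW, hι, hΦX]
    ring

end Main

end Pool.Agent.P.MP_f43029_ag.XL
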