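import Pool.Agent.P.MP_f43029_ag.XL.TopE
import Pool.Agent.P.MP_f43029_ag.XL.TPsys

/-!
Exact lifts, assembly: the theorem on matrix factorizations over `W(k)[[x]] / (p - g)`.
-/

set_option autoImplicit false

noncomputable section

namespace Pool.Agent.P.MP_f43029_ag.XL

open Matrix Filter

theorem exists_ctx (p : ℕ) [Fact p.Prime] (k : Type) [Field k] [IsAlgClosed k] [CharP k p] (n : ℕ)
    (g : SW p k (n + 1)) (hg : MvPowerSeries.constantCoeff g = 0) :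
    ∃ (K F : Type) (_ : Field K) (_ : Field F) (_ : CharZero K) (_ : CharZero F)
      (_ : Algebra K F), ∀ t : Finset (RW g) × ℕ × ℕ,
        ∃ 𝔠 : Ctx n K F (RW g) (xW g), (𝔠.A, 𝔠.κ, 𝔠.c) = t := by
  obtain ⟨K, F, _, _, _, _, _, θ, h⟩ := exists_amb p k (n + 1)
  refine ⟨K, F, inferInstance, inferInstance, inferInstance, inferInstance, inferInstance, ?_⟩
  rintro ⟨A, κ, c⟩
  obtain ⟨j₀, hj⟩ := exists_psys p k n g hg A c
  have hp : 1 < p := (Fact.out : p.Prime).one_lt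
  obtain ⟨𝔸, h₁, h₂⟩ := h ((c + 2) * p ^ (j₀ + (100 * κ + 100))) (by positivity)
  obtain ⟨𝒬, H, a₁, a₂, a₃, a₄⟩ := hj _ (Nat.le_add_right _ _) K F θ 𝔸 h₁ h₂
  exact ⟨⟨𝔸, _, κ, c, A, (Nat.le_add_left _ j₀).trans (Nat.lt_pow_self hp).le, 𝒬, H, a₁, a₂, a₃,
    a₄⟩, rfl⟩

theorem idxW : IdxW := by
  classical
  intro p _ k _ _ _ D g hg hD N f ι₁ ι₂ _ _ _ _ p₁ p₂ E E' hE hE'
  obtain ⟨n, rfl⟩ : ∃ n, D = n + 1 := ⟨D - 1, by omega⟩
  obtain ⟨K, F, _, _, _, _, _, h⟩ := exists_ctx p k n g hg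
  choose u hu using h
  have ht : Tendsto u atTop (Ctx.flt n K F (RW g) (xW g)) :=
    tendsto_comap_iff.2 (tendsto_id.congr fun t => (hu t).symm)
  have he := ht.eventually (Ctx.ev_end K F (xW g) hE hE')
  exact ⟨_, atTop, inferInstance, _, _, inferInstance, inferInstance, _, _,
    Ctx.isIdxF K F (xW g) ht, Ctx.kos_cx (xW g), ht.eventually (Ctx.ev_kos K F (xW g)),
    fun h => he.mono fun _ hc => hc.1 h, fun h => he.mono fun _ hc => hc.2 h⟩

theorem mfw : MFW := MFW_of_IdxW idxW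

end Pool.Agent.P.MP_f43029_ag.XL
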