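import Pool.Agent.P.MP_f43029_ag.XL.AVan
import Pool.Agent.P.MP_f43029_ag.XL.Ctx

/-!
Exact lifts: contexts and the index.
-/

set_option autoImplicit false

noncomputable section

namespace Pool.Agent.P.MP_f43029_ag.XL

open Matrix Filter

/-- A context: ambient data, points and tilts of finitely many elements. -/
structure Ctx (n : ℕ) (K F : Type) [Field K] [Field F] [CharZero K] [CharZero F] [Algebra K F]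
    (R : Type) [CommRing R] (x : Fin (n + 1) → R) where
  𝔸 : Amb (n + 1) K F
  q : ℕ
  κ : ℕ
  c : ℕ
  A : Finset R
  hq : 100 * κ + 100 ≤ q
  𝒬 : PSys 𝔸 R q
  H : R → 𝔸.loc (𝔸.cell ∅)
  H_ne : ∀ a, (H a : F) ≠ 0
  H_mem : ∀ a, (H a : F) ∈ 𝔸.cell ∅
  tilt : ∀ a ∈ A, ∀ (B : 𝔸.Cel) (e : ℕ), e ≤ c * q → (H a : F) ∈ fil 𝔸.ϖ B.1 e →
    (𝒬.r B (𝒬.ι a), 𝔸.incl (B := 𝔸.c0) B.2 (H a)) ∈ (𝒬.P B).T e
  tiltX : ∀ i, (𝒬.ι (x i), Tow.zc (𝔸 := 𝔸) q i) ∈ (𝒬.P 𝔸.c0).T q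

namespace Ctx

variable {n : ℕ} {K F : Type} [Field K] [Field F] [CharZero K] [CharZero F] [Algebra K F]
  {R : Type} [CommRing R] {x : Fin (n + 1) → R} (𝔠 : Ctx n K F R x)

/-- The floor. -/
def C : ℕ := 𝔠.c * 𝔠.q

/-- The comparisons. -/
def I : Type := 𝔠.A × Fin 𝔠.C

instance : Fintype 𝔠.I := inferInstanceAs (Fintype (𝔠.A × Fin 𝔠.C))

instance : DecidableEq 𝔠.I := Classical.decEq _

/-- The tower of a context. -/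
def tow : Tow 𝔠.𝔸 𝔠.I where
  h c := Units.mk0 (𝔠.H c.1 : F) (𝔠.H_ne _) * 𝔠.𝔸.ϖ ^ (-((c.2 : ℕ) + 1 : ℤ))
  e := 𝔠.C
  h_mem c := by
    rw [Units.val_mul, Units.val_mk0]
    refine fil_anti (Amb.VF_le_cell ∅ ⟨_, 𝔠.𝔸.π_mem, rfl⟩) ?_
      (fil_mul (fil_zero.2 (𝔠.H_mem _)) (zpow_mem_fil _ _ _))
    have := c.2.2
    omega

theorem niceS : 𝔠.tow.sS.Nice := ⟨𝔠.tow.base_le_sS, 𝔠.tow.sS_mono⟩

theorem niceD : 𝔠.tow.sD.Nice := ⟨𝔠.tow.base_le_sD, 𝔠.tow.sD_mono⟩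

/-- The residue of a context. -/
def Res : 𝔠.tow.sS.Om →ₗ[ℚ] ℚ := 𝔠.tow.exists_res.choose

theorem isRes : 𝔠.tow.IsRes 𝔠.Res := 𝔠.tow.exists_res.choose_spec

variable {ι : Type} [Fintype ι] [DecidableEq ι]

/-- The lifts that are used in the definition of the index. -/
def Good (p : ι → Bool) (D : Matrix ι ι (𝔠.𝒬.KK 𝔠.𝔸.c0)) (Dt : Matrix ι ι 𝔠.tow.sS.A) : Prop :=
  Lift 𝔠.𝒬 𝔠.niceS p D 0 0 Dt 𝔠.κ (5 * 𝔠.κ + 1) (𝔠.C / 2 : ℕ)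

open Classical in
/-- The index of a family of complexes. -/
def Θ (p : ι → Bool) (D : Matrix ι ι (𝔠.𝒬.KK 𝔠.𝔸.c0)) : ℚ :=
  if h : ∃ y : Matrix ι ι 𝔠.tow.sS.A × Matrix ι ι 𝔠.tow.sS.A, 𝔠.Good p D y.1 ∧ Contr p y.1 y.2 then
    𝔠.Res (𝔠.tow.sS.dg.oo p (h.choose.1 + h.choose.2) (2 * n + 1))
  else 0

/-- The family attached to a matrix over `R` and weights. -/
def fam (D : Matrix ι ι R) (w : ι → ℤ) : Matrix ι ι (𝔠.𝒬.KK 𝔠.𝔸.c0) := fun i j =>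
  (((𝔠.𝒬.P 𝔠.𝔸.c0).ϖ ^ (w j - w i) : (𝔠.𝒬.KK 𝔠.𝔸.c0)ˣ) : 𝔠.𝒬.KK 𝔠.𝔸.c0) * 𝔠.𝒬.ι (D i j)

variable (n K F R x)

/-- The filter of large contexts. -/
def flt : Filter (Ctx n K F R x) := comap (fun 𝔠 => (𝔠.A, 𝔠.κ, 𝔠.c)) atTop

end Ctx

end Pool.Agent.P.MP_f43029_ag.XL
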