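import Pool.Agent.P.MP_f43029_ag.XL.Top0
import Pool.Agent.P.MP_f43029_ag.XL.LGlob
import Pool.Agent.P.MP_f43029_ag.XL.LGauss
import Pool.Agent.P.MP_f43029_ag.XL.CW

/-!
Exact lifts, assembly: decided vertices, existence of lifts in large contexts, the index.
-/

set_option autoImplicit false

noncomputable section

namespace Pool.Agent.P.MP_f43029_ag.XL

open Matrix Filter

section

variable {n : ℕ} {K F : Type} [Field K] [Field F] [CharZero K] [CharZero F] [Algebra K F]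
  {𝔸 : Amb n K F} {R : Type} [CommRing R] {q : ℕ}

theorem PSys.mem_fil (𝒬 : PSys 𝔸 R q) (B : 𝔸.Cel) {a : ℤ} {y : 𝔸.loc B.1}
    (h : (y : F) ∈ fil 𝔸.ϖ B.1 a) : y ∈ fil (𝒬.P B).π (𝒬.P B).Bp a := by
  rw [XL.mem_fil, 𝒬.P_Bp, 𝒬.P_π]
  have e := map_zpow_val (𝔸.loc B.1).subtype (u := 𝔸.πL B.1 ((Amb.VF_le_cell ∅).trans B.2))
    (u' := 𝔸.ϖ) rfl (-a)
  change IsIntegral B.1 ((𝔸.loc B.1).subtype (_ * y))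
  rw [map_mul, e]
  exact isIntegral_algebraMap (R := B.1) (A := F) (x := ⟨_, h⟩)

theorem Amb.incl_val {B B' : 𝔸.Cel} (h : B ≤ B') (y : 𝔸.loc B.1) :
    ((𝔸.incl h y : 𝔸.loc B'.1) : F) = y := Subring.coe_inclusion _ _

theorem PSys.inv (𝒬 : PSys 𝔸 R q) (hq : 2 ≤ q) (B : 𝔸.Cel) {e : ℤ} {y : 𝒬.KK B} {y' : 𝔸.loc B.1}
    (hT : (y, y') ∈ (𝒬.P B).T e) {t : F} (ht : (y' : F) * t = 1)
    (h : t ∈ fil 𝔸.ϖ B.1 (-e - 1)) :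
    ∃ z z', y * z = 1 ∧ y' * z' = 1 ∧ (z, z') ∈ (𝒬.P B).T (-e - 2) := by
  obtain ⟨z', hz'⟩ : ∃ z' : 𝔸.loc B.1, (z' : F) = t :=
    ⟨⟨t, (Amb.mem_loc ((Amb.VF_le_cell ∅).trans B.2)).2 ⟨_, h⟩⟩, rfl⟩
  subst hz'
  have hz : y' * z' = 1 := Subtype.ext ht
  obtain ⟨z, h1, h2⟩ := (𝒬.P B).T_inv' hq hT hz (𝒬.mem_fil B h)
  exact ⟨z, z', h1, hz, h2⟩

theorem PSys.r_ϖ (𝒬 : PSys 𝔸 R q) (B : 𝔸.Cel) : 𝒬.r B (𝒬.P 𝔸.c0).ϖ = (𝒬.P B).ϖ := 𝒬.mp_ϖ _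

theorem PSys.r_S (𝒬 : PSys 𝔸 R q) (B : 𝔸.Cel) (a : R) :
    𝒬.r B (𝒬.ι a) ∈ fil (𝒬.P B).ϖ (𝒬.P B).S 0 := fil_zero.2 (𝒬.mp_S _ _ (𝒬.ι_S a))

end

namespace Ctx

variable {n : ℕ} {K F : Type} [Field K] [Field F] [CharZero K] [CharZero F] [Algebra K F]
  {R : Type} [CommRing R] {x : Fin (n + 1) → R} (𝔠 : Ctx n K F R x)

theorem two_le_q : 2 ≤ 𝔠.q := by have := 𝔠.hq; omega

/-- All tilted elements have a known size on the cell. -/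
def Dcd (B : 𝔠.𝔸.Cel) : Prop :=
  ∀ a ∈ 𝔠.A, ∃ e, (𝔠.𝒬.P B).Dec 𝔠.C (𝔠.𝒬.r B (𝔠.𝒬.ι a))
    (𝔠.𝔸.incl (B := 𝔠.𝔸.c0) B.2 (𝔠.H a)) e

theorem inv_of_mem (B : 𝔠.𝔸.Cel) {a : R} {e : ℤ}
    (hT : (𝔠.𝒬.r B (𝔠.𝒬.ι a), 𝔠.𝔸.incl (B := 𝔠.𝔸.c0) B.2 (𝔠.H a)) ∈ (𝔠.𝒬.P B).T e)
    (h : (𝔠.H a : F)⁻¹ ∈ fil 𝔠.𝔸.ϖ B.1 (-e - 1)) :
    ∃ z z', 𝔠.𝒬.r B (𝔠.𝒬.ι a) * z = 1 ∧ 𝔠.𝔸.incl (B := 𝔠.𝔸.c0) B.2 (𝔠.H a) * z' = 1 ∧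
      (z, z') ∈ (𝔠.𝒬.P B).T (-e - 2) :=
  𝔠.𝒬.inv 𝔠.two_le_q B hT (t := (𝔠.H a : F)⁻¹)
    ((congrArg (· * (𝔠.H a : F)⁻¹) (Amb.incl_val (B := 𝔠.𝔸.c0) B.2 _)).trans
      (mul_inv_cancel₀ (𝔠.H_ne a))) h

theorem h_val (c : 𝔠.I) : (𝔠.tow.h c : F) =
    ((𝔠.𝔸.ϖ ^ (-((c.2 : ℕ) + 1 : ℤ)) : Fˣ) : F) * 𝔠.H c.1 := by
  change ((Units.mk0 (𝔠.H c.1 : F) (𝔠.H_ne _) * 𝔠.𝔸.ϖ ^ (-((c.2 : ℕ) + 1 : ℤ)) : Fˣ) : F) = _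
  rw [Units.val_mul, Units.val_mk0, mul_comm]

theorem h_inv (c : 𝔠.I) : (((𝔠.tow.h c)⁻¹ : Fˣ) : F) =
    ((𝔠.𝔸.ϖ ^ (-(-((c.2 : ℕ) : ℤ) - 1)) : Fˣ) : F) * (𝔠.H c.1 : F)⁻¹ := by
  rw [Units.val_inv_eq_inv_val, h_val, mul_inv, ← Units.val_inv_eq_inv_val, ← _root_.zpow_neg]
  congr 3
  ring

theorem dcd_of_gens (B : 𝔠.𝔸.Cel) (v : Cub n 𝔠.I → Bool) (hB : 𝔠.tow.gens (vf v) ⊆ B.1) :
    𝔠.Dcd B := by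
  classical
  intro a ha
  let Q : ℕ → Prop := fun e => (𝔠.H a : F) ∈ fil 𝔠.𝔸.ϖ B.1 e
  have h0 : Q 0 := fil_zero.2 (B.2 (𝔠.H_mem a))
  have he : Q (Nat.findGreatest Q 𝔠.C) := Nat.findGreatest_spec (Nat.zero_le _) h0
  have hle : Nat.findGreatest Q 𝔠.C ≤ 𝔠.C := Nat.findGreatest_le _
  have hT := 𝔠.tilt a ha B _ hle he
  refine ⟨_, hle, hT, fun hlt => 𝔠.inv_of_mem B hT ?_⟩
  let c : 𝔠.I := (⟨a, ha⟩, ⟨_, hlt⟩)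
  have hn : ¬Q (Nat.findGreatest Q 𝔠.C + 1) :=
    Nat.findGreatest_is_greatest (Nat.lt_succ_self _) hlt
  cases hv : v (Tow.cj c)
  · have : (((𝔠.tow.h c)⁻¹ : Fˣ) : F) ∈ B.1 := hB ⟨c, Or.inr ⟨by simp [vf, hv], rfl⟩⟩
    rw [h_inv] at this
    exact this
  · have : (𝔠.tow.h c : F) ∈ B.1 := hB ⟨c, Or.inl ⟨by simp [vf, hv], rfl⟩⟩
    rw [h_val] at this
    exact absurd this hn

theorem dcdS (v : Cub n 𝔠.I → Bool) : 𝔠.Dcd (𝔠.niceS.cel (vf v)) :=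
  𝔠.dcd_of_gens _ v fun _ hy => Subring.subset_closure (Or.inr (Or.inl hy))

theorem dcdD (v : Cub n 𝔠.I → Bool) : 𝔠.Dcd (𝔠.niceD.cel (vf v)) :=
  𝔠.dcd_of_gens _ v fun _ hy => Subring.subset_closure (Or.inr hy)

theorem upd_vf {J : Type} [DecidableEq J] (v : J → Bool) (j : J) (b : Bool) :
    Function.update (vf v) j (some b) = vf (Function.update v j b) := by
  funext i
  by_cases h : i = j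
  · subst h; simp [vf]
  · simp [vf, Function.update_of_ne h]

theorem dcdW (c : 𝔠.I) (v : Cub n 𝔠.I → Bool) :
    𝔠.Dcd ((𝔠.niceD.upd (Tow.cj c) false).cel (vf v)) :=
  𝔠.dcd_of_gens _ (Function.update v (Tow.cj c) false) fun _ hy => by
    rw [← upd_vf] at hy
    exact Subring.subset_closure (Or.inr hy)

theorem dcdU (c : 𝔠.I) (v : Cub n 𝔠.I → Bool) :
    𝔠.Dcd ((𝔠.niceS.upd (Tow.cj c) false).cel (vf v)) :=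
  𝔠.dcd_of_gens _ (Function.update v (Tow.cj c) false) fun _ hy => by
    rw [← upd_vf] at hy
    exact Subring.subset_closure (Or.inr (Or.inl hy))

theorem pot_of_dcd {𝔅 : 𝔠.𝔸.Sys (Cub n 𝔠.I)} (h : 𝔅.Nice) (hd : ∀ v, 𝔠.Dcd (h.cel (vf v)))
    {f : R} (hf : f ∈ 𝔠.A) : Pot 𝔠.𝒬 h 𝔠.C (𝔠.𝒬.ι f) (𝔠.H f) := fun v => hd v f hf

/-- At a vertex of the sphere one coordinate is invertible. -/
theorem exists_invX (v : Cub n 𝔠.I → Bool) :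
    ∃ i y y', 𝔠.𝒬.r (𝔠.niceS.cel (vf v)) (𝔠.𝒬.ι (x i)) * y = 1 ∧
      𝔠.𝔸.incl (B := 𝔠.𝔸.c0) (B' := 𝔠.niceS.cel (vf v)) (𝔠.niceS.base _) (Tow.zc 𝔠.q i) * y' = 1 ∧
      (y, y') ∈ (𝔠.𝒬.P (𝔠.niceS.cel (vf v))).T (-(𝔠.q : ℤ) - 2) := by
  obtain ⟨i, hi⟩ := 𝔠.tow.exists_inv v
  let B := 𝔠.niceS.cel (vf v)
  have hV : 𝔠.𝔸.VF ≤ B.1 := (Amb.VF_le_cell ∅).trans B.2
  have hϖ : (𝔠.𝔸.ϖ : F) ∈ B.1 := hV ⟨_, 𝔠.𝔸.π_mem, rfl⟩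
  have h1 : (((𝔠.𝔸.ϖ * 𝔠.𝔸.w i) ^ (-(𝔠.q : ℤ)) : Fˣ) : F) ∈ fil 𝔠.𝔸.ϖ B.1 (-(𝔠.q : ℤ) - 1) := by
    refine fil_anti hϖ (b := -(𝔠.q : ℤ)) (by omega) ?_
    rw [mem_fil, ← Units.val_mul, mul_zpow, ← mul_assoc, ← _root_.zpow_add, neg_neg,
      add_neg_cancel, zpow_zero, one_mul, _root_.zpow_neg, zpow_natCast, ← inv_pow,
      Units.val_pow_eq_pow_val]
    exact B.1.pow_mem hi _
  refine ⟨i, 𝔠.𝒬.inv 𝔠.two_le_q B ((𝔠.𝒬.hom (B := 𝔠.𝔸.c0) B.2).T (𝔠.tiltX i))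
    ((congrArg (· * _) (Amb.incl_val (B := 𝔠.𝔸.c0) B.2 _)).trans ?_) h1⟩
  change ((𝔠.𝔸.ϖ : F) * 𝔠.𝔸.w i) ^ 𝔠.q * (((𝔠.𝔸.ϖ * 𝔠.𝔸.w i) ^ (-(𝔠.q : ℤ)) : Fˣ) : F) = 1
  rw [← Units.val_mul, ← Units.val_pow_eq_pow_val, ← zpow_natCast, zpow_val_neg]

variable {ι κ : Type} [Fintype ι] [DecidableEq ι] [Fintype κ] [DecidableEq κ]

theorem fam_eq (D : Matrix ι ι R) (w : ι → ℤ) : 𝔠.fam D w =
    dg (𝔠.𝒬.P 𝔠.𝔸.c0).ϖ (-w) * D.map 𝔠.𝒬.ι * dg (𝔠.𝒬.P 𝔠.𝔸.c0).ϖ w := by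
  ext i j
  rw [dg, dg, mul_diagonal, diagonal_mul, fam, sub_eq_add_neg, zpow_val_add, map_apply,
    Pi.neg_apply]
  ring

omit [Fintype ι] [DecidableEq ι] in
theorem fam_zero (D : Matrix ι ι R) : 𝔠.fam D 0 = D.map 𝔠.𝒬.ι := by
  ext i j
  simp [fam]

theorem fam_mul (D E : Matrix ι ι R) (w : ι → ℤ) : 𝔠.fam (D * E) w = 𝔠.fam D w * 𝔠.fam E w := by
  simp only [fam_eq, Matrix.map_mul, Matrix.mul_assoc]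
  rw [← Matrix.mul_assoc (dg _ w), dg_mul_neg, Matrix.one_mul]

omit [Fintype ι] [DecidableEq ι] in
theorem fam_add (D E : Matrix ι ι R) (w : ι → ℤ) : 𝔠.fam (D + E) w = 𝔠.fam D w + 𝔠.fam E w := by
  ext i j
  simp [fam, mul_add]

omit [Fintype ι] in
theorem fam_smul_one (c : R) (w : ι → ℤ) :
    𝔠.fam (c • (1 : Matrix ι ι R)) w = 𝔠.𝒬.ι c • (1 : Matrix ι ι _) := by
  ext i j
  by_cases h : i = j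
  · subst h; simp [fam]
  · simp [fam, Matrix.one_apply_ne h]

omit [Fintype ι] [DecidableEq ι] in
theorem fam_odd {p : ι → Bool} {D : Matrix ι ι R} (h : OddM p p D) (w : ι → ℤ) :
    OddM p p (𝔠.fam D w) := fun i j e => by simp [fam, h i j e]

omit [Fintype ι] [DecidableEq ι] in
theorem fam_mem (B : 𝔠.𝔸.Cel) (D : Matrix ι ι R) {w : ι → ℤ} {b : ℤ} (hw : ∀ i, |w i| ≤ b) :
    MemM (fil (𝔠.𝒬.P B).ϖ (𝔠.𝒬.P B).S (-(2 * b))) ((𝔠.fam D w).map (𝔠.𝒬.r B)) := fun i j => by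
  rw [map_apply, fam, map_mul, map_zpow_val _ (𝔠.𝒬.r_ϖ B)]
  refine fil_anti (𝔠.𝒬.P B).ϖ_mem ?_ (fil_mul (zpow_mem_fil _ _ _) (𝔠.𝒬.r_S B _))
  have h1 := abs_le.1 (hw i)
  have h2 := abs_le.1 (hw j)
  omega

/-- A null-homotopy of an invertible element gives a contraction. -/
theorem contr_of_inv (B : 𝔠.𝔸.Cel) {D h : Matrix ι ι R} {t : R}
    (hh : D * h + h * D = t • (1 : Matrix ι ι R)) (w : ι → ℤ) {y : 𝔠.𝒬.KK B}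
    (hy : 𝔠.𝒬.r B (𝔠.𝒬.ι t) * y = 1) :
    (𝔠.fam D w).map (𝔠.𝒬.r B) * (y • (𝔠.fam h w).map (𝔠.𝒬.r B)) +
      (y • (𝔠.fam h w).map (𝔠.𝒬.r B)) * (𝔠.fam D w).map (𝔠.𝒬.r B) = 1 := by
  rw [Matrix.mul_smul, Matrix.smul_mul, ← smul_add, ← Matrix.map_mul, ← Matrix.map_mul,
    ← Matrix.map_add _ (map_add _), ← fam_mul, ← fam_mul, ← fam_add, hh, fam_smul_one, CW.smul_map,
    Matrix.map_one _ (map_zero _) (map_one _), smul_smul, mul_comm, hy, one_smul]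

end Ctx

/-- Lifts exist as soon as there are bounded contractions at the vertices. -/
theorem lift_of_contr {R ι : Type} [CommRing R] [Fintype ι] [DecidableEq ι] {p : ι → Bool}
    {D : Matrix ι ι R} (ho : OddM p p D) {f : R} (hsq : D * D = f • (1 : Matrix ι ι R)) :
    ∃ A₀ : Finset R, ∀ {n : ℕ} {K F : Type} [Field K] [Field F] [CharZero K] [CharZero F]
      [Algebra K F] {x : Fin (n + 1) → R} (𝔠 : Ctx n K F R x), A₀ ⊆ 𝔠.A →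
      Fintype.card ι ≤ 𝔠.κ → ∀ {𝔅 : 𝔠.𝔸.Sys (Cub n 𝔠.I)} (h : 𝔅.Nice),
      (∀ v, 𝔠.Dcd (h.cel (vf v))) → ∀ γ₀, Pot 𝔠.𝒬 h 𝔠.C (𝔠.𝒬.ι f) γ₀ → ∀ (b : ℕ) (w : ι → ℤ),
      1 ≤ b → 16 ^ (Fintype.card ι + 1) * b ≤ 𝔠.C → (∀ i, |w i| ≤ b) →
      (∀ v, ∃ k, MemM (fil (𝔠.𝒬.P (h.cel (vf v))).ϖ (𝔠.𝒬.P (h.cel (vf v))).S (-(b : ℤ))) k ∧
        (𝔠.fam D w).map (𝔠.𝒬.r _) * k + k * (𝔠.fam D w).map (𝔠.𝒬.r _) = 1) →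
      ∃ Dt, Lift 𝔠.𝒬 h p (𝔠.fam D w) (𝔠.𝒬.ι f) γ₀ Dt (2 * Fintype.card ι) (70 * 𝔠.κ + 98)
        ((16 ^ Fintype.card ι * b : ℕ) : ℤ) := by
  obtain ⟨A₀, hA⟩ := PairD.nf_exists _ ι le_rfl p D ho 1
  refine ⟨A₀, fun 𝔠 h₀ hκ 𝔅 h hd γ₀ hγ b w hb hC hw hk => ?_⟩
  have hq := 𝔠.hq
  have ham : 2 * ((16 ^ Fintype.card ι * b : ℕ) : ℤ) ≤ 𝔠.C := by
    have : 2 * (16 ^ Fintype.card ι * b) ≤ 𝔠.C := by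
      refine le_trans ?_ hC
      rw [pow_succ]
      nlinarith [Nat.zero_le (16 ^ Fintype.card ι * b)]
    exact_mod_cast this
  obtain ⟨Dt, hDt⟩ := lift_exists (p := p) (D := 𝔠.fam D w) (κ := 2 * Fintype.card ι) h hγ ham
    (by omega) fun v => by
      obtain ⟨k, hk1, hk2⟩ := hk v
      refine hA (𝔠.𝒬.P _) ((𝔠.𝒬.r _).comp 𝔠.𝒬.ι)
        (fun a => 𝔠.𝔸.incl (B := 𝔠.𝔸.c0) (h.base _) (𝔠.H a)) 𝔠.C b 𝔠.two_le_q hb hC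
        (fun a ha => hd v a (h₀ ha)) w hw 1 (by simp)
        (fil_anti (PairD.ϖ_mem _) (by omega) (one_mem_fil _ _)) _ _ k (fun i j => ?_) ?_ hk1 hk2
      · rw [map_apply, Ctx.fam, map_mul, map_zpow_val _ (𝔠.𝒬.r_ϖ _), mul_one]
        rfl
      · rw [← Matrix.map_mul, ← 𝔠.fam_mul, hsq, 𝔠.fam_smul_one, CW.smul_map,
          Matrix.map_one _ (map_zero _) (map_one _)]
  exact ⟨Dt, hDt.mono le_rfl (by push_cast; omega) le_rfl⟩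

end Pool.Agent.P.MP_f43029_ag.XL
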