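import Pool.Agent.P.MP_f43029_ag.XL.TopA
import Pool.Agent.P.MP_f43029_ag.XL.AHot
import Pool.Agent.P.MP_f43029_ag.Mx.RegW

/-!
Exact lifts, assembly: the index does not depend on the choices.
-/

set_option autoImplicit false

noncomputable section

namespace Pool.Agent.P.MP_f43029_ag.XL

open Matrix Filter

theorem contr_of_sq_zero {A ι : Type} [CommRing A] [Fintype ι] [DecidableEq ι] {p : ι → Bool}
    {D k : Matrix ι ι A} (ho : OddM p p D) (hD : D * D = 0) (hk : OddM p p k)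
    (h : D * k + k * D = 1) : Contr p D (k * D * k) := by
  have e1 : k * D = 1 - D * k := eq_sub_of_add_eq' h
  have e2 : D * k * D = D := by rw [mul_assoc, e1, mul_sub, ← mul_assoc, hD, zero_mul]; simp
  have e3 : D * (k * k) = k * k * D := by
    rw [mul_assoc k, e1, ← mul_assoc D, eq_sub_of_add_eq h, sub_mul, mul_sub, one_mul, mul_one,
      mul_assoc k D k, eq_sub_of_add_eq h]
  refine ⟨(oddM_mul_odd hk ho).mul_odd hk, ?_, ?_⟩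
  · calc k * D * k * (k * D * k) = k * (D * (k * k) * D) * k := by noncomm_ring
      _ = 0 := by rw [e3, mul_assoc (k * k), hD]; simp
  · calc D * (k * D * k) + k * D * k * D = D * k * D * k + k * (D * k * D) := by noncomm_ring
      _ = 1 := by rw [e2, h]

theorem Contr.invol {A ι : Type} [CommRing A] [Fintype ι] [DecidableEq ι] {p : ι → Bool}
    {D H : Matrix ι ι A} (h : Contr p D H) (hD : D * D = 0) : (D + H) * (D + H) = 1 := by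
  rw [add_mul, mul_add, mul_add, hD, h.sq, zero_add, add_zero, h.hom]

theorem Contr.conj {A ι : Type} [CommRing A] [Fintype ι] [DecidableEq ι] {p : ι → Bool}
    {D D' H G G' : Matrix ι ι A} (h : Contr p D' H) (hG : EvenM p p G) (hG' : EvenM p p G')
    (h1 : G * G' = 1) (h2 : G' * G = 1) (hD : G * D' = D * G) : Contr p D (G * H * G') := by
  have e : D = G * D' * G' := by rw [hD, mul_assoc, h1, mul_one]
  have m : ∀ X Y, G * X * G' * (G * Y * G') = G * (X * Y) * G' := fun X Y => by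
    calc G * X * G' * (G * Y * G') = G * X * (G' * G) * Y * G' := by noncomm_ring
      _ = _ := by rw [h2]; noncomm_ring
  refine ⟨oddM_mul_even (hG.mul_odd h.odd) hG', by rw [m, h.sq]; simp, ?_⟩
  rw [e, m, m, ← add_mul, ← mul_add, h.hom, mul_one, h1]

theorem Contr.map {A A' ι : Type} [CommRing A] [CommRing A'] [Fintype ι] [DecidableEq ι]
    {p : ι → Bool} {D H : Matrix ι ι A} (h : Contr p D H) (φ : A →+* A') :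
    Contr p (D.map φ) (H.map φ) :=
  ⟨h.odd.map' φ, by rw [← Matrix.map_mul, h.sq, Matrix.map_zero _ (map_zero _)], by
    rw [← Matrix.map_mul, ← Matrix.map_mul, ← Matrix.map_add _ (map_add _), h.hom,
      Matrix.map_one _ (map_zero _) (map_one _)]⟩

theorem DG.d_zpow {A Ω : Type} [CommRing A] [Ring Ω] [Algebra ℚ Ω] (G : DG A Ω) {u : Aˣ}
    (h : G.d (G.i u) = 0) (a : ℤ) : G.d (G.i ((u ^ a : Aˣ) : A)) = 0 := by
  have h1 : G.d 1 = 0 := by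
    have := G.d_mul 1 1
    simpa using this
  have hm : ∀ s t : A, G.d (G.i s) = 0 → G.d (G.i t) = 0 → G.d (G.i (s * t)) = 0 :=
    fun s t hs ht => by rw [map_mul, G.d_mul, hs, ht]; simp
  have hi : G.d (G.i ((u⁻¹ : Aˣ) : A)) = 0 := by
    have := G.d_mul (G.i u) (G.i ((u⁻¹ : Aˣ) : A))
    rw [← map_mul, Units.mul_inv, map_one, h1, h, zero_mul, zero_add, G.ε_i] at this
    have e := congrArg (G.i ((u⁻¹ : Aˣ) : A) * ·) this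
    simp only [mul_zero] at e
    rw [← mul_assoc, ← map_mul, Units.inv_mul, map_one, one_mul] at e
    exact e.symm
  induction a using Int.induction_on with
  | zero => simpa using h1
  | succ a ih => rw [_root_.zpow_add_one, Units.val_mul]; exact hm _ _ ih h
  | pred a ih => rw [_root_.zpow_sub_one, Units.val_mul]; exact hm _ _ ih hi

namespace Ctx

variable {n : ℕ} {K F : Type} [Field K] [Field F] [CharZero K] [CharZero F] [Algebra K F]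
  {R : Type} [CommRing R] {x : Fin (n + 1) → R}

theorem ev_large (A₀ : Finset R) (κ₀ c₀ : ℕ) :
    ∀ᶠ 𝔠 in flt n K F R x, A₀ ⊆ 𝔠.A ∧ κ₀ ≤ 𝔠.κ ∧ c₀ ≤ 𝔠.c := by
  classical
  exact Filter.mem_comap.2 ⟨_, Filter.Ici_mem_atTop (A₀, κ₀, c₀), fun 𝔠 h => ⟨h.1, h.2.1, h.2.2⟩⟩

variable {𝔠 : Ctx n K F R x} {ι : Type} [Fintype ι] [DecidableEq ι] {p : ι → Bool}
  {D D' : Matrix ι ι (𝔠.𝒬.KK 𝔠.𝔸.c0)} {Dt Dt' H H' : Matrix ι ι 𝔠.tow.sS.A}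

theorem Res_ex {ω ω' : 𝔠.tow.sS.Om} (h : 𝔠.tow.sS.dg.Ex (ω - ω')) : 𝔠.Res ω = 𝔠.Res ω' := by
  obtain ⟨η, hη⟩ := h
  rw [← sub_eq_zero, ← map_sub, ← hη, 𝔠.isRes.d]

theorem Good.sq (hg : 𝔠.Good p D Dt) : Dt * Dt = 0 := by
  rw [Lift.sq hg, map_zero, zero_smul]

theorem Good.contr (hg : 𝔠.Good p D Dt) : ∃ H, Contr p Dt H := by
  have hq := 𝔠.hq
  obtain ⟨k, h1, h2, -⟩ := Lift.contr hg (by omega) (by omega)
  exact ⟨_, contr_of_sq_zero (Lift.odd hg) hg.sq h1 h2⟩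

theorem Res_near (hg : 𝔠.Good p D Dt) (hH : Contr p Dt H) (hg' : 𝔠.Good p D' Dt')
    (hH' : Contr p Dt' H') (w : ι → ℤ) (hw : ∀ i, |w i| ≤ 𝔠.κ)
    (hG : dg (𝔠.𝒬.P 𝔠.𝔸.c0).ϖ w * D' = D * dg (𝔠.𝒬.P 𝔠.𝔸.c0).ϖ w) :
    𝔠.Res (𝔠.tow.sS.dg.oo p (Dt + H) (2 * n + 1)) =
      𝔠.Res (𝔠.tow.sS.dg.oo p (Dt' + H') (2 * n + 1)) := by
  have hq := 𝔠.hq
  obtain ⟨Z, hZe, hZ1, hZ⟩ := Lift.cmp hg hg' (pot_zero _ _ 𝔠.C) (by omega) le_rfl (by omega) w hw hG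
  obtain ⟨hZu, hZp⟩ := 𝔠.tow.sS.unip_of_small none 𝔠.tow.sS_free hZe hZ1
  have hC : IsUnit (dg 𝔠.tow.sS.bdd.π w) := IsUnit.of_mul_eq_one _ (dg_mul_neg _ w)
  have hCe : EvenM p p (dg 𝔠.tow.sS.bdd.π w) := dg_even _ _ p
  obtain ⟨G, hGv⟩ := hC.mul hZu
  have hGe : EvenM p p G.val := hGv ▸ hCe.mul hZe
  have h1 := hH'.conj (D := Dt) hGe (hGe.of_inv G.mul_inv G.inv_mul) G.mul_inv G.inv_mul (by rw [hGv, hZ])
  have hd : 𝔠.tow.sS.dg.dM (dg 𝔠.tow.sS.bdd.π w) = 0 := by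
    ext i j
    by_cases e : i = j
    · subst e
      simpa [DG.dM, dg] using 𝔠.tow.sS.dg.d_zpow 𝔠.tow.sS.d_π (w i)
    · simp [DG.dM, dg, diagonal_apply_ne _ e]
  rw [Res_ex (DG.oo_contr (𝔠.tow.sS.hot none 𝔠.tow.sS_free) (Lift.odd hg) hg.sq hH h1
    (odd_two_mul_add_one n))]
  refine Res_ex (DG.oo_conj (𝔠.tow.sS.hot none 𝔠.tow.sS_free) (oddM_add (Lift.odd hg') hH'.odd)
    (hH'.invol hg'.sq) hC hCe hd hZu hZe hZp ?_ (odd_two_mul_add_one n))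
  rw [mul_add, add_mul, hZ, ← hGv, mul_assoc (_ * H'), G.inv_mul, mul_one]

theorem Θ_eq (hg : 𝔠.Good p D Dt) (hH : Contr p Dt H) :
    𝔠.Θ p D = 𝔠.Res (𝔠.tow.sS.dg.oo p (Dt + H) (2 * n + 1)) := by
  have h : ∃ y : Matrix ι ι 𝔠.tow.sS.A × Matrix ι ι 𝔠.tow.sS.A,
      𝔠.Good p D y.1 ∧ Contr p y.1 y.2 := ⟨(Dt, H), hg, hH⟩
  rw [Θ, dif_pos h]
  exact Res_near h.choose_spec.1 h.choose_spec.2 hg hH 0 (by simp) (by simp [dg])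

theorem Θ_near (hg : 𝔠.Good p D Dt) (hg' : 𝔠.Good p D' Dt') (w : ι → ℤ) (hw : ∀ i, |w i| ≤ 𝔠.κ)
    (hG : dg (𝔠.𝒬.P 𝔠.𝔸.c0).ϖ w * D' = D * dg (𝔠.𝒬.P 𝔠.𝔸.c0).ϖ w) : 𝔠.Θ p D = 𝔠.Θ p D' := by
  obtain ⟨H, hH⟩ := hg.contr
  obtain ⟨H', hH'⟩ := hg'.contr
  rw [Θ_eq hg hH, Θ_eq hg' hH', Res_near hg hH hg' hH' w hw hG]

variable (𝔠)

/-- At a vertex of the sphere a power of a coordinate has a bounded inverse. -/
theorem exists_invPow (N : ℕ) (v : Cub n 𝔠.I → Bool) :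
    ∃ i y, 𝔠.𝒬.r (𝔠.niceS.cel (vf v)) (𝔠.𝒬.ι (x i ^ N)) * y = 1 ∧
      y ∈ fil (𝔠.𝒬.P (𝔠.niceS.cel (vf v))).ϖ (𝔠.𝒬.P (𝔠.niceS.cel (vf v))).S
        (-((2 * N * 𝔠.q : ℕ) : ℤ)) := by
  obtain ⟨i, y, y', h1, -, h2⟩ := 𝔠.exists_invX v
  refine ⟨i, y ^ N, by rw [map_pow, map_pow, ← mul_pow, h1, one_pow], ?_⟩
  have h3 : y ∈ fil (𝔠.𝒬.P (𝔠.niceS.cel (vf v))).ϖ (𝔠.𝒬.P (𝔠.niceS.cel (vf v))).S
      (-((2 * 𝔠.q : ℕ) : ℤ)) :=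
    fil_anti (PairD.ϖ_mem _) (by have := 𝔠.two_le_q; omega) (PairD.T_fst h2)
  induction N with
  | zero => simpa using one_mem_fil _ _
  | succ N ih =>
    rw [pow_succ]
    convert fil_mul ih h3 using 2
    push_cast
    ring

theorem vertex_contr {N : ℕ} {f : R} {D : Matrix ι ι R} (hD : IsObj x N f p D) (b : ℕ)
    (w : ι → ℤ) (hw : ∀ i, |w i| ≤ ((b * 𝔠.q : ℕ) : ℤ)) (v : Cub n 𝔠.I → Bool) :
    ∃ k, MemM (fil (𝔠.𝒬.P (𝔠.niceS.cel (vf v))).ϖ (𝔠.𝒬.P (𝔠.niceS.cel (vf v))).S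
        (-(((2 * b + 2 * N + 1) * 𝔠.q : ℕ) : ℤ))) k ∧
      (𝔠.fam D w).map (𝔠.𝒬.r _) * k + k * (𝔠.fam D w).map (𝔠.𝒬.r _) = 1 := by
  obtain ⟨h, -, hh⟩ := hD.supp
  obtain ⟨i, y, h1, h2⟩ := 𝔠.exists_invPow N v
  refine ⟨_, fun a c => ?_, 𝔠.contr_of_inv _ (hh i) w h1⟩
  refine fil_anti (PairD.ϖ_mem _) ?_ (fil_mul h2 (𝔠.fam_mem _ (h i) hw a c))
  push_cast
  nlinarith [Int.natCast_nonneg 𝔠.q]

variable (K F)

omit 𝔠 in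
/-- Lifts over the sphere exist in large contexts. -/
theorem ev_lift {N : ℕ} {f : R} {D : Matrix ι ι R} (hD : IsObj x N f p D) (b : ℕ) :
    ∃ a : ℕ, ∀ᶠ 𝔠 in flt n K F R x, ∀ γ₀, Pot 𝔠.𝒬 𝔠.niceS 𝔠.C (𝔠.𝒬.ι f) γ₀ → ∀ w : ι → ℤ,
      (∀ i, |w i| ≤ ((b * 𝔠.q : ℕ) : ℤ)) → ∃ Dt, Lift 𝔠.𝒬 𝔠.niceS p (𝔠.fam D w) (𝔠.𝒬.ι f) γ₀ Dt
        (2 * Fintype.card ι) (70 * 𝔠.κ + 98) ((a * 𝔠.q : ℕ) : ℤ) := by
  obtain ⟨A₀, hA⟩ := lift_of_contr hD.odd hD.sq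
  refine ⟨16 ^ Fintype.card ι * (2 * b + 2 * N + 1), ?_⟩
  filter_upwards [ev_large A₀ (Fintype.card ι) (16 ^ (Fintype.card ι + 1) * (2 * b + 2 * N + 1))]
    with 𝔠 ⟨h1, h2, h3⟩ γ₀ hγ w hw
  have hq := 𝔠.two_le_q
  rw [mul_assoc]
  refine hA 𝔠 h1 h2 𝔠.niceS 𝔠.dcdS γ₀ hγ _ w (by nlinarith) ?_ (fun i => (hw i).trans ?_)
    (𝔠.vertex_contr hD b w hw)
  · rw [← mul_assoc]
    exact Nat.mul_le_mul_right _ h3
  · exact_mod_cast Nat.mul_le_mul_right _ (by omega)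

omit 𝔠 in
theorem ev_good {D : Matrix ι ι R} (hD : Cx x p D) (b : ℕ) :
    ∀ᶠ 𝔠 in flt n K F R x, ∀ w : ι → ℤ, (∀ i, |w i| ≤ ((b * 𝔠.q : ℕ) : ℤ)) →
      ∃ Dt, 𝔠.Good p (𝔠.fam D w) Dt := by
  obtain ⟨N, hD⟩ := hD
  obtain ⟨a, ha⟩ := ev_lift K F hD b
  filter_upwards [ha, ev_large ∅ (2 * Fintype.card ι) (2 * a)] with 𝔠 h ⟨_, h2, h3⟩ w hw
  rw [map_zero] at h
  obtain ⟨Dt, hDt⟩ := h 0 (pot_zero _ _ _) w hw
  refine ⟨Dt, hDt.mono h2 (by omega) ?_⟩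
  have : 2 * (a * 𝔠.q) ≤ 𝔠.C := by
    rw [← mul_assoc]
    exact Nat.mul_le_mul_right _ h3
  omega

end Ctx

end Pool.Agent.P.MP_f43029_ag.XL
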