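import Pool.Agent.P.MP_f43029_ag.XL.TopB

/-!
Exact lifts, assembly: the formal properties of the index and the Koszul complex.
-/

set_option autoImplicit false

noncomputable section

namespace Pool.Agent.P.MP_f43029_ag.XL

open Matrix Filter

theorem Contr.sum {A ι κ : Type} [CommRing A] [Fintype ι] [DecidableEq ι] [Fintype κ]
    [DecidableEq κ] {p : ι → Bool} {p' : κ → Bool} {D H : Matrix ι ι A} {D' H' : Matrix κ κ A}
    (h : Contr p D H) (h' : Contr p' D' H') :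
    Contr (Sum.elim p p') (fromBlocks D 0 0 D') (fromBlocks H 0 0 H') :=
  ⟨oddM_blocks h.odd (fun _ _ _ => rfl) (fun _ _ _ => rfl) h'.odd,
    by simp [fromBlocks_multiply, h.sq, h'.sq],
    by simp [fromBlocks_multiply, fromBlocks_add, h.hom, h'.hom]⟩

namespace Ctx

variable {n : ℕ} (K F : Type) [Field K] [Field F] [CharZero K] [CharZero F] [Algebra K F]
  {R : Type} [CommRing R] {x : Fin (n + 1) → R}
  {ι κ : Type} [Fintype ι] [DecidableEq ι] [Fintype κ] [DecidableEq κ] {p : ι → Bool}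
  {p' : κ → Bool}

theorem ev_sum {X : Matrix ι ι R} {X' : Matrix κ κ R} (hX : Cx x p X) (hX' : Cx x p' X') :
    ∀ᶠ 𝔠 in flt n K F R x, 𝔠.Θ (Sum.elim p p') (𝔠.fam (fromBlocks X 0 0 X') 0) =
      𝔠.Θ p (𝔠.fam X 0) + 𝔠.Θ p' (𝔠.fam X' 0) := by
  filter_upwards [ev_good K F hX 0, ev_good K F hX' 0] with 𝔠 h h'
  obtain ⟨Dt, hg⟩ := h 0 (by simp)
  obtain ⟨Dt', hg'⟩ := h' 0 (by simp)
  obtain ⟨H, hH⟩ := hg.contr
  obtain ⟨H', hH'⟩ := hg'.contr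
  have e : 𝔠.fam (fromBlocks X 0 0 X') 0 = fromBlocks (𝔠.fam X 0) 0 0 (𝔠.fam X' 0) := by
    simp only [fam_zero, fromBlocks_map, Matrix.map_zero _ (map_zero _)]
  rw [e, Θ_eq (Lift.sum hg hg') (hH.sum hH'), Θ_eq hg hH, Θ_eq hg' hH', fromBlocks_add, add_zero,
    add_zero, DG.oo_sum _ _ _ _ _ _ (Nat.succ_pos _), map_add]

theorem ev_contr {X h : Matrix ι ι R} (ho : OddM p p X) (hX : X * X = 0)
    (hh : X * h + h * X = 1) : ∀ᶠ 𝔠 in flt n K F R x, 𝔠.Θ p (𝔠.fam X 0) = 0 := by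
  obtain ⟨A₀, hA⟩ := lift_of_contr ho (f := 0) (by rw [hX, zero_smul])
  filter_upwards [ev_large A₀ (2 * Fintype.card ι) (16 ^ (Fintype.card ι + 1))]
    with 𝔠 ⟨h1, h2, h3⟩
  have hq := 𝔠.hq
  have hC : 16 ^ (Fintype.card ι + 1) * 1 ≤ 𝔠.C := Nat.mul_le_mul h3 (by omega)
  obtain ⟨Dt, hDt⟩ := hA 𝔠 h1 (by omega) 𝔠.niceD 𝔠.dcdD 0 (by rw [map_zero]; exact pot_zero _ _ _)
    1 0 le_rfl hC (by simp) fun v => ⟨_, fun i j => by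
      rw [one_smul]
      exact fil_anti (PairD.ϖ_mem _) (by omega) (𝔠.fam_mem _ h (b := 0) (by simp) i j),
      𝔠.contr_of_inv _ (t := 1) (y := 1) (h := h) (by rw [hh, one_smul]) 0 (by simp)⟩
  rw [map_zero] at hDt
  have hD : Lift 𝔠.𝒬 𝔠.niceD p (𝔠.fam X 0) 0 0 Dt 𝔠.κ (5 * 𝔠.κ + 1) (𝔠.C / 2 : ℕ) := by
    refine hDt.mono h2 (by omega) ?_
    rw [pow_succ] at hC
    omega
  obtain ⟨k, k1, k2, -⟩ := hD.contr (by omega) (by omega)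
  have hs : Dt * Dt = 0 := by rw [hD.sq, map_zero, zero_smul]
  have hH := contr_of_sq_zero hD.odd hs k1 k2
  rw [Θ_eq (hD.le 𝔠.niceS 𝔠.tow.sD_le) (hH.map _), ← Matrix.map_add _ (map_add _)]
  have := 𝔠.isRes.disc _ (𝔠.tow.sD.dg.oo_closed (oddM_add hD.odd hH.odd) (hH.invol hs)
    (odd_two_mul_add_one n))
  rwa [DG.oo_map] at this

/-- The index does not see a rescaling of the basis. -/
theorem ev_scale {X : Matrix ι ι R} (hX : Cx x p X) (wt : ι → ℕ) (b : ℕ) :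
    ∀ᶠ 𝔠 in flt n K F R x, ∀ m : ℕ, m ≤ b * 𝔠.q →
      𝔠.Θ p (𝔠.fam X 0) = 𝔠.Θ p (𝔠.fam X fun i => m * wt i) := by
  filter_upwards [ev_good K F hX (b * ∑ i, wt i), ev_large ∅ (∑ i, wt i) 0] with 𝔠 h ⟨_, h2, _⟩
  have hw : ∀ i, wt i ≤ ∑ i, wt i := fun i =>
    Finset.single_le_sum (fun _ _ => Nat.zero_le _) (Finset.mem_univ i)
  have hg : ∀ m : ℕ, m ≤ b * 𝔠.q → ∃ Dt, 𝔠.Good p (𝔠.fam X fun i => m * wt i) Dt := fun m hm =>
    h _ fun i => by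
      rw [abs_of_nonneg (by positivity), mul_right_comm]
      exact_mod_cast Nat.mul_le_mul hm (hw i)
  intro m hm
  induction m with
  | zero => simp only [Nat.cast_zero, zero_mul]; rfl
  | succ m ih =>
    obtain ⟨D₁, g₁⟩ := hg m (by omega)
    obtain ⟨D₂, g₂⟩ := hg (m + 1) hm
    rw [ih (by omega)]
    refine Θ_near g₁ g₂ (fun i => wt i) (fun i => ?_) ?_
    · rw [abs_of_nonneg (by positivity)]
      exact_mod_cast (hw i).trans h2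
    · rw [fam_eq, fam_eq, ← Matrix.mul_assoc, ← Matrix.mul_assoc, dg_mul, Matrix.mul_assoc _ (dg _ _),
        dg_mul]
      congr 3 <;> funext i <;> simp <;> ring

theorem ev_pert {X X₀ : Matrix ι ι R} (s : ℕ) (wt : ι → ℕ) (hX : Cx x p X) (hX₀ : Cx x p X₀)
    (h₀ : ∀ i j, X₀ i j ≠ 0 → wt j = wt i + s) (h₁ : ∀ i j, X i j ≠ X₀ i j → wt i + s < wt j) :
    ∀ᶠ 𝔠 in flt n K F R x, 𝔠.Θ p (𝔠.fam X 0) = 𝔠.Θ p (𝔠.fam X₀ 0) := by
  obtain ⟨N, hN⟩ := id hX₀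
  obtain ⟨h, ho, hh⟩ := hN.supp
  filter_upwards [ev_scale K F hX wt (2 * N + 1), ev_scale K F hX₀ wt (2 * N + 1),
    ev_good K F hX₀ ((2 * N + 1) * ∑ i, wt i)] with 𝔠 e e₀ hg
  obtain ⟨m, hm⟩ : ∃ m, m = (2 * N + 1) * 𝔠.q := ⟨_, rfl⟩
  obtain ⟨Dt, g₀⟩ := hg (fun i => m * wt i) fun i => by
    rw [abs_of_nonneg (by positivity), mul_right_comm, ← hm]
    exact_mod_cast Nat.mul_le_mul_left m
      (Finset.single_le_sum (fun _ _ => Nat.zero_le _) (Finset.mem_univ i))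
  have hq := 𝔠.two_le_q
  have sq : ∀ Y : Matrix ι ι R, Y * Y = 0 → ∀ w, 𝔠.fam Y w * 𝔠.fam Y w =
      (0 : 𝔠.𝒬.KK 𝔠.𝔸.c0) • (1 : Matrix ι ι _) := fun Y hY w => by
    rw [← fam_mul, hY, zero_smul]
    ext i j
    simp [fam]
  have e1 : (𝔠.fam X₀ fun i => m * wt i) =
      (((𝔠.𝒬.P 𝔠.𝔸.c0).ϖ ^ ((m * s : ℕ) : ℤ) : (𝔠.𝒬.KK 𝔠.𝔸.c0)ˣ) : 𝔠.𝒬.KK 𝔠.𝔸.c0) •
        𝔠.fam X₀ 0 := by
    ext i j
    by_cases z : X₀ i j = 0
    · simp [fam, z]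
    · simp only [fam, h₀ i j z, Matrix.smul_apply, Pi.zero_apply, sub_self, zpow_zero,
        Units.val_one, one_mul, smul_eq_mul]
      congr 3
      push_cast
      ring
  have g : 𝔠.Good p (𝔠.fam X fun i => m * wt i) Dt := by
    refine Lift.perturb g₀ (by omega) (𝔠.fam_odd hX₀.odd _) (𝔠.fam_odd hX.odd _) (sq _ hX₀.sq _)
      (sq _ hX.sq _) fun v => ?_
    obtain ⟨l, y, y1, y2⟩ := 𝔠.exists_invPow N v
    refine ⟨((𝔠.𝒬.P (𝔠.niceS.cel (vf v))).ϖ ^ (-((m * s : ℕ) : ℤ))).val •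
      y • (𝔠.fam (h l) 0).map (𝔠.𝒬.r _),
      oddM_smul (oddM_smul ((𝔠.fam_odd (ho l) 0).map' _) _) _, ?_, ?_⟩
    · rw [e1, CW.smul_map, map_zpow_val _ (𝔠.𝒬.r_ϖ _), smul_mul_smul_comm, smul_mul_smul_comm,
        mul_comm (Units.val _) (Units.val _), ← smul_add, 𝔠.contr_of_inv _ (hh l) 0 y1, mul_comm,
        zpow_val_neg, one_smul]
    · have a1 : MemM (fil (𝔠.𝒬.P (𝔠.niceS.cel (vf v))).ϖ (𝔠.𝒬.P _).S ((m * s + m : ℕ) : ℤ))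
          ((𝔠.fam X fun i => m * wt i).map (𝔠.𝒬.r _) -
            (𝔠.fam X₀ fun i => m * wt i).map (𝔠.𝒬.r _)) := fun i j => by
        rw [Matrix.sub_apply, map_apply, map_apply, fam, fam, ← map_sub, ← mul_sub, ← map_sub]
        by_cases z : X i j = X₀ i j
        · simp [z]
        · rw [map_mul, map_zpow_val _ (𝔠.𝒬.r_ϖ _)]
          refine fil_anti (PairD.ϖ_mem _) ?_ (fil_mul (zpow_mem_fil _ _ _) (𝔠.𝒬.r_S _ _))
          have := Nat.mul_le_mul_left m (h₁ i j z)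
          zify at this ⊢
          linarith
      have a2 : MemM (fil (𝔠.𝒬.P (𝔠.niceS.cel (vf v))).ϖ (𝔠.𝒬.P _).S _)
          (((𝔠.𝒬.P (𝔠.niceS.cel (vf v))).ϖ ^ (-((m * s : ℕ) : ℤ))).val •
            y • (𝔠.fam (h l) 0).map (𝔠.𝒬.r _)) := fun i j =>
        fil_mul (zpow_mem_fil _ _ _) (fil_mul y2 (𝔠.fam_mem _ (h l) (b := 0) (by simp) i j))
      refine (a1.mul a2).anti (PairD.ϖ_mem _) (le_of_eq ?_)
      rw [hm]
      push_cast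
      ring
  obtain ⟨H, hH⟩ := g.contr
  rw [e m hm.le, e₀ m hm.le, Θ_eq g hH, Θ_eq g₀ hH]

variable (x)

theorem isIdxF {C : Type} {𝓕 : Filter C} {u : C → Ctx n K F R x}
    (hu : Tendsto u 𝓕 (flt n K F R x)) :
    IsIdxF x 𝓕 fun c _ _ _ p X => (u c).Θ p ((u c).fam X 0) where
  sum _ _ _ _ _ _ _ _ _ _ h h' := hu.eventually (ev_sum K F h h')
  contr _ _ _ _ _ _ h₁ h₂ _ h₄ := hu.eventually (ev_contr K F h₁ h₂ h₄)
  pert _ _ _ _ _ _ s wt _ h₁ h₂ h₃ h₄ := hu.eventually (ev_pert K F s wt h₁ h₂ h₃ h₄)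

theorem kos_cx : Cx x (kpar (n + 1)) (kos (n + 1) x 0) :=
  ⟨1, kos_odd _ _ _, by simp [kos_sq], fun j => kos (n + 1) 0 (Pi.single j 1),
    fun _ => kos_odd _ _ _, fun j => by simp [kos_anti, Pi.single_apply]⟩

theorem ev_kos : ∀ᶠ 𝔠 in flt n K F R x, 𝔠.Θ (kpar (n + 1)) (𝔠.fam (kos (n + 1) x 0) 0) ≠ 0 := by
  filter_upwards [ev_large ∅ 2 2] with 𝔠 ⟨_, h2, h3⟩
  have hq := 𝔠.two_le_q
  obtain ⟨y, y1, y2⟩ := 𝔠.isRes.kos 𝔠.q (by omega)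
  have g : 𝔠.Good (kpar (n + 1)) (𝔠.fam (kos (n + 1) x 0) 0)
      (kos (n + 1) (fun i => 𝔠.niceS.c (Tow.zc 𝔠.q i)) 0) := by
    refine Lift.mono (κ := 2) (μ := 5 * 𝔠.κ + 1) (am := 𝔠.q)
      ⟨kos_odd _ _ _, by simp [kos_sq], fun v => ?_⟩ h2 le_rfl ?_
    · obtain ⟨i, z, z', z1, z2, z3⟩ := 𝔠.exists_invX v
      have := Loc.kos (𝔠.niceS.cst_ok 𝔠.𝒬 (vf v)) (fun i => 𝔠.𝒬.r _ (𝔠.𝒬.ι (x i)))
        (fun i => 𝔠.𝔸.incl (B := 𝔠.𝔸.c0) (B' := 𝔠.niceS.cel (vf v)) (𝔠.niceS.base _)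
          (Tow.zc 𝔠.q i)) 𝔠.q
        (fun i => (𝔠.𝒬.hom (B := 𝔠.𝔸.c0) (𝔠.niceS.cel (vf v)).2).T (𝔠.tiltX i)) i z z' z1 z2 z3
        (5 * 𝔠.κ + 1)
      rw [fam_zero, kos_map, kos_map, kos_map, map_zero, map_zero, map_zero]
      convert this using 3
      · rfl
      · funext i; simp
      · funext i
        exact Amb.Sys.mpA_cF _ _ _ _ _ (Amb.incl_val (B := 𝔠.𝔸.c0) _ _).symm
      · funext i; simp
    · have : 2 * 𝔠.q ≤ 𝔠.C := Nat.mul_le_mul_right _ h3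
      omega
  have hH : Contr (kpar (n + 1)) (kos (n + 1) (fun i => 𝔠.niceS.c (Tow.zc 𝔠.q i)) 0)
      (kos (n + 1) 0 y) :=
    ⟨kos_odd _ _ _, by simp [kos_sq], by
      rw [kos_anti]
      simp only [Pi.zero_apply, mul_zero, add_zero]
      exact (congrArg (· • (1 : Matrix _ _ _)) y1).trans (one_smul _ _)⟩
  rw [Θ_eq g hH, ← kos_add, add_zero, zero_add]
  exact y2

end Ctx

end Pool.Agent.P.MP_f43029_ag.XL
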