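import Pool.Agent.P.MP_f43029_ag.XL.TopC
import Pool.Agent.P.MP_f43029_ag.XL.As

/-!
Exact lifts, assembly: the end game.
-/

set_option autoImplicit false

noncomputable section

namespace Pool.Agent.P.MP_f43029_ag.XL

open Matrix Filter Amb

theorem Amb.Sys.cF_congr {n : ℕ} {K F : Type} [Field K] [Field F] [CharZero K] [CharZero F]
    [Algebra K F] {𝔸 : Amb n K F} {J : Type} (𝔅 : 𝔸.Sys J) {B B' : Subring F}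
    (hB : ∀ σ, B ≤ 𝔅.B σ) (hB' : ∀ σ, B' ≤ 𝔅.B σ) (y : 𝔸.loc B) (y' : 𝔸.loc B')
    (e : (y : F) = y') : 𝔅.cF B hB y = 𝔅.cF B' hB' y' := by
  rw [← Sys.mpA_cF (𝔅 := 𝔅) (𝔅' := 𝔅) (fun _ => le_rfl) hB hB' y y' e, Sys.mpA_self]

theorem Amb.Sys.cF_unit {n : ℕ} {K F : Type} [Field K] [Field F] [CharZero K] [CharZero F]
    [Algebra K F] {𝔸 : Amb n K F} {J : Type} (𝔅 : 𝔸.Sys J) {B B' : Subring F}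
    (hB : ∀ σ, B ≤ 𝔅.B σ) (hB' : ∀ σ, B' ≤ 𝔅.B σ) (hV : 𝔸.VF ≤ B') (hBB : B ≤ B') (y : 𝔸.loc B)
    {t : F} (ht : (y : F) * t = 1) {a : ℤ} (h : t ∈ fil 𝔸.ϖ B' a) : IsUnit (𝔅.cF B hB y) := by
  obtain ⟨y', hy'⟩ : ∃ y' : 𝔸.loc B', (y' : F) = y := ⟨⟨y, loc_mono hBB y.2⟩, rfl⟩
  obtain ⟨z, rfl⟩ : ∃ z : 𝔸.loc B', (z : F) = t := ⟨⟨t, (mem_loc hV).2 ⟨_, h⟩⟩, rfl⟩
  have e : y' * z = 1 := Subtype.ext (by rw [Subring.coe_mul, hy', ht, Subring.coe_one])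
  rw [𝔅.cF_congr hB hB' y y' hy'.symm]
  exact (IsUnit.of_mul_eq_one z e).map _

namespace Ctx

variable {n : ℕ} {K F : Type} [Field K] [Field F] [CharZero K] [CharZero F] [Algebra K F]
  {R : Type} [CommRing R] {x : Fin (n + 1) → R} (𝔠 : Ctx n K F R x) (τ : 𝔠.I)

theorem niceW : (𝔠.tow.sW τ).Nice := 𝔠.niceD.upd (Tow.cj τ) false

/-- The cell generated by one element. -/
def cel1 (y : F) : 𝔠.𝔸.Cel := ⟨𝔠.𝔸.cell {y}, cell_mono (Set.empty_subset _)⟩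

theorem mem_cel1 (y : F) : y ∈ (𝔠.cel1 y).1 := Subring.subset_closure (Or.inr rfl)

theorem cel1_le_sW (σ : Face (Cub n 𝔠.I)) :
    (𝔠.cel1 (((𝔠.tow.h τ)⁻¹ : Fˣ) : F)).1 ≤ (𝔠.tow.sW τ).B σ :=
  cell_mono (Set.singleton_subset_iff.2 ⟨τ, Or.inr ⟨by simp, rfl⟩⟩)

theorem cel1_le_sT (σ : Face (Cub n 𝔠.I)) : (𝔠.cel1 (𝔠.tow.h τ : F)).1 ≤ (𝔠.tow.sT τ).B σ := by
  change _ ≤ @ite _ (σ ∈ {σ : Face (Cub n 𝔠.I) | σ (Tow.cj τ) ≠ some false})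
    (Classical.propDecidable _) (𝔠.tow.sS.B σ) ⊤
  split_ifs with h
  · exact cell_mono (Set.singleton_subset_iff.2 (Or.inl ⟨τ, Or.inl ⟨h, rfl⟩⟩))
  · exact le_top

theorem inv_mem {B : Subring F} (h : (((𝔠.tow.h τ)⁻¹ : Fˣ) : F) ∈ B) :
    (𝔠.H τ.1 : F)⁻¹ ∈ fil 𝔠.𝔸.ϖ B (-((τ.2 : ℕ) : ℤ) - 1) := by
  rw [h_inv] at h
  exact h

theorem unit_W : IsUnit ((𝔠.niceW τ).c (𝔠.H τ.1)) :=
  (𝔠.tow.sW τ).cF_unit _ (𝔠.cel1_le_sW τ) (VF_le_cell _) (𝔠.cel1 _).2 _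
    (mul_inv_cancel₀ (𝔠.H_ne _)) (𝔠.inv_mem τ (𝔠.mem_cel1 _))

theorem le_sT : 𝔠.tow.sS ≤ 𝔠.tow.sT τ := 𝔠.tow.sS.le_on _

theorem small_T : Sys.mpA (𝔠.le_sT τ) (𝔠.niceS.c (𝔠.H τ.1)) ∈
    fil (𝔠.tow.sT τ).bdd.π (𝔠.tow.sT τ).bdd.Ap (((τ.2 : ℕ) : ℤ) + 1) := by
  obtain ⟨B, hB⟩ : ∃ B, B = 𝔠.cel1 (𝔠.tow.h τ : F) := ⟨_, rfl⟩
  have hle : ∀ σ, B.1 ≤ (𝔠.tow.sT τ).B σ := hB ▸ 𝔠.cel1_le_sT τ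
  have hV := (VF_le_cell ∅).trans B.2
  have e' : Sys.mpA (𝔠.le_sT τ) (𝔠.niceS.c (𝔠.H τ.1)) =
      (𝔠.tow.sT τ).cF B.1 hle (𝔠.𝔸.incl (B := 𝔠.𝔸.c0) B.2 (𝔠.H τ.1)) :=
    Sys.mpA_cF _ _ hle _ _ (incl_val (B := 𝔠.𝔸.c0) B.2 _).symm
  rw [e']
  have h1 : 𝔠.𝔸.incl (B := 𝔠.𝔸.c0) B.2 (𝔠.H τ.1) ∈
      fil (𝔠.𝒬.P B).π (𝔠.𝒬.P B).Bp (((τ.2 : ℕ) : ℤ) + 1) := by
    refine 𝔠.𝒬.mem_fil B ?_
    have h2 : (𝔠.tow.h τ : F) ∈ B.1 := hB ▸ 𝔠.mem_cel1 _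
    rw [h_val] at h2
    exact (congrArg (· ∈ _) (incl_val (B := 𝔠.𝔸.c0) B.2 _)).mpr h2
  rw [𝔠.𝒬.P_π, 𝔠.𝒬.P_Bp] at h1
  exact fil_map _ (Sys.cF_π hV hle) (fun y hy => Sys.cF_Bplus hV hle hy) h1

theorem inv_W (v : Cub n 𝔠.I → Bool) :
    ∃ y, 𝔠.𝒬.r ((𝔠.niceW τ).cel (vf v)) (𝔠.𝒬.ι τ.1) * y = 1 ∧
      y ∈ fil (𝔠.𝒬.P ((𝔠.niceW τ).cel (vf v))).ϖ (𝔠.𝒬.P ((𝔠.niceW τ).cel (vf v))).S
        (-((τ.2 : ℕ) : ℤ) - 2) := by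
  obtain ⟨e, -, h1, h2⟩ := 𝔠.dcdW τ v τ.1 τ.1.2
  rcases le_or_gt (τ.2 : ℕ) e with h | h
  · obtain ⟨z, z', a1, -, a2⟩ := 𝔠.inv_of_mem ((𝔠.niceW τ).cel (vf v))
      (PairD.T_anti h1 (Int.ofNat_le.2 h)) (𝔠.inv_mem τ (𝔠.cel1_le_sW τ _ (𝔠.mem_cel1 _)))
    exact ⟨z, a1, PairD.T_fst a2⟩
  · obtain ⟨z, z', a1, -, a2⟩ := h2 (h.trans τ.2.2)
    exact ⟨z, a1, fil_anti (PairD.ϖ_mem _) (by omega) (PairD.T_fst a2)⟩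

variable {𝔠 τ} {ι : Type} [Fintype ι] [DecidableEq ι] {p : ι → Bool}

theorem obj_of_lift {D : Matrix ι ι (𝔠.𝒬.KK 𝔠.𝔸.c0)} {γ : 𝔠.𝒬.KK 𝔠.𝔸.c0}
    {γ₀ : 𝔠.𝔸.loc (𝔠.𝔸.cell ∅)} {Dt : Matrix ι ι 𝔠.tow.sS.A} {DW : Matrix ι ι (𝔠.tow.sW τ).A}
    {κ : ℕ} {μ am am' : ℤ} (X : Lift 𝔠.𝒬 𝔠.niceS p D γ γ₀ Dt κ μ am)
    (XW : Lift 𝔠.𝒬 (𝔠.niceW τ) p D γ γ₀ DW κ μ am')
    (hP : Pot 𝔠.𝒬 (𝔠.niceS.upd (Tow.cj τ) false) 𝔠.C γ γ₀)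
    (hT : Sys.mpA (𝔠.le_sT τ) (𝔠.niceS.c γ₀) ∈
      fil (𝔠.tow.sT τ).bdd.π (𝔠.tow.sT τ).bdd.Ap (((τ.2 : ℕ) : ℤ) + 1))
    (hκ : κ ≤ 𝔠.κ) (hμ : 5 * (κ : ℤ) + 1 ≤ μ) (h1 : am ≤ am') (h2 : 2 * am' ≤ 𝔠.C)
    (h3 : 2 * am + 4 * κ ≤ (τ.2 : ℕ)) :
    (𝔠.tow.geo τ 𝔠.isRes).Obj p Dt (𝔠.niceS.c γ₀) ((𝔠.niceW τ).c γ₀) := by
  have hq := 𝔠.hq
  refine ⟨X.odd, X.sq, ?_, ?_⟩
  · obtain ⟨k, k1, k2, k3⟩ := X.contr (by omega) (by omega)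
    have l := 𝔠.le_sT τ
    have k4 := k3.map (Sys.mpA l) (Sys.mpA_π l) fun y hy => Sys.mpA_Ap l hy
    refine (𝔠.tow.sT τ).bdd.contr (D := Dt.map (Sys.mpA l)) (h := k.map (Sys.mpA l))
      (γ := Sys.mpA l (𝔠.niceS.c γ₀)) (X.odd.map' _) ?_ (k1.map' _) ?_
      ((MemM.smul hT (k4.mul k4)).anti (Bdd.π_mem _) (by omega))
    · rw [← Matrix.map_mul, X.sq, CW.smul_map, Matrix.map_one _ (map_zero _) (map_one _)]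
    · rw [← Matrix.map_mul, ← Matrix.map_mul, ← Matrix.map_add _ (map_add _), k2,
        Matrix.map_one _ (map_zero _) (map_one _)]
  · obtain ⟨Z, z1, z2, z3⟩ := ((X.mono le_rfl le_rfl h1).ev (Tow.cj τ) false fun _ => le_rfl).cmp
      (XW.le _ (𝔠.tow.sW_le τ)) hP h2 hμ (by omega) 0 (by simp) (by simp [dg])
    have l := 𝔠.tow.upd_le_sU τ
    rw [dg_zero, Matrix.one_mul] at z3
    have z4 := z2.map (Sys.mpA l) (Sys.mpA_π l) fun y hy => Sys.mpA_Ap l hy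
    rw [Matrix.map_sub _ (map_sub _), Matrix.map_one _ (map_zero _) (map_one _)] at z4
    obtain ⟨u1, u2⟩ := (𝔠.tow.sU τ).unip_of_small none (𝔠.tow.sU_free τ) (z1.map' _) z4
    refine ⟨DW, Z.map (Sys.mpA l), XW.odd, XW.sq, z1.map' _, u1, u2, ?_⟩
    have z5 := congrArg (·.map (Sys.mpA l)) z3
    simp only [Matrix.map_mul] at z5
    convert z5 using 2
    · ext i j
      exact (Sys.mpA_mpA (𝔠.tow.sW_le τ) l (𝔠.tow.sW_le_sU τ) _).symm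
    · ext i j
      exact Sys.evA_mpA (Tow.cj τ) false (fun _ => le_rfl) (𝔠.tow.sU_upd τ) (𝔠.tow.sS.le_on _) l _

variable (K F x)

omit 𝔠 τ in
theorem ev_liftW {f : R} {D : Matrix ι ι R} (ho : OddM p p D)
    (hD : D * D = f • (1 : Matrix ι ι R)) (b : ℕ) :
    ∀ᶠ 𝔠 in flt n K F R x, ∀ (τ : 𝔠.I) γ₀, Pot 𝔠.𝒬 (𝔠.niceW τ) 𝔠.C (𝔠.𝒬.ι f) γ₀ →
      (∀ v, ∃ y, 𝔠.𝒬.r ((𝔠.niceW τ).cel (vf v)) (𝔠.𝒬.ι f) * y = 1 ∧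
        y ∈ fil (𝔠.𝒬.P ((𝔠.niceW τ).cel (vf v))).ϖ (𝔠.𝒬.P ((𝔠.niceW τ).cel (vf v))).S
          (-(((b + 1) * 𝔠.q : ℕ) : ℤ))) →
      ∃ Dt, Lift 𝔠.𝒬 (𝔠.niceW τ) p (𝔠.fam D 0) (𝔠.𝒬.ι f) γ₀ Dt (2 * Fintype.card ι)
        (70 * 𝔠.κ + 98) ((16 ^ Fintype.card ι * (b + 1) * 𝔠.q : ℕ) : ℤ) := by
  obtain ⟨A₀, hA⟩ := lift_of_contr ho hD
  filter_upwards [ev_large A₀ (Fintype.card ι) (16 ^ (Fintype.card ι + 1) * (b + 1))]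
    with 𝔠 ⟨h1, h2, h3⟩ τ γ₀ hγ hy
  have hq := 𝔠.two_le_q
  rw [mul_assoc]
  refine hA 𝔠 h1 h2 (𝔠.niceW τ) (𝔠.dcdW τ) γ₀ hγ _ 0 (by nlinarith) ?_ (fun i => by simp)
    fun v => ?_
  · rw [← mul_assoc]
    exact Nat.mul_le_mul_right _ h3
  · obtain ⟨y, y1, y2⟩ := hy v
    refine ⟨_, (MemM.smul y2 (𝔠.fam_mem _ (D * PP R p false) (b := 0) (by simp))).lvl (by simp),
      𝔠.contr_of_inv _ ?_ 0 y1⟩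
    rw [← Matrix.mul_assoc, hD, Matrix.mul_assoc, show false = !true from rfl, ← CW.PP_odd ho,
      ← Matrix.mul_assoc, hD, ← Matrix.mul_add, Bool.not_true, CW.PP_add, Matrix.mul_one]

omit 𝔠 τ in
theorem ev_end {ι' : Type} [Fintype ι'] [DecidableEq ι'] {p' : ι' → Bool} {N : ℕ} {f : R}
    {E : Matrix ι ι R} {E' : Matrix ι' ι' R} (hE : IsObj x N f p E) (hE' : IsObj x N (-f) p' E') :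
    ∀ᶠ 𝔠 in flt n K F R x,
      (Odd (n + 1) → 𝔠.Θ (tpar p p') (𝔠.fam (tens p E E') 0) = 0) ∧
      (Even (n + 1) → 𝔠.Θ (tpar (fun i => !p i) p') (𝔠.fam (tens (fun i => !p i) Eᵀ E') 0) =
        -(-1) ^ ((n + 1) / 2) * 𝔠.Θ (tpar p p') (𝔠.fam (tens p E E') 0)) := by
  obtain ⟨a₁, l₁⟩ := ev_lift K F hE 0
  obtain ⟨a₂, l₂⟩ := ev_lift K F hE' 0
  obtain ⟨a, ha⟩ : ∃ a, a = a₁ + a₂ := ⟨_, rfl⟩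
  obtain ⟨r, hr⟩ : ∃ r, r = Fintype.card ι + Fintype.card ι' := ⟨_, rfl⟩
  filter_upwards [l₁, l₂, ev_liftW K F x hE.odd hE.sq (2 * a + 1),
    ev_liftW K F x hE'.odd hE'.sq (2 * a + 1), ev_large {f} (4 * r + 2) (2 * (16 ^ r * (2 * a + 2)))]
    with 𝔠 l₁ l₂ w₁ w₂ ⟨h1, h2, h3⟩
  have hq := 𝔠.hq
  have hf : f ∈ 𝔠.A := h1 (Finset.mem_singleton_self f)
  have hC : 2 * (16 ^ r * (2 * a + 2) * 𝔠.q) ≤ 𝔠.C := by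
    rw [← mul_assoc]
    exact Nat.mul_le_mul_right _ h3
  have h16 : ∀ s ≤ r, 16 ^ s * (2 * a + 1 + 1) * 𝔠.q ≤ 16 ^ r * (2 * a + 2) * 𝔠.q := fun s hs =>
    Nat.mul_le_mul_right _ (Nat.mul_le_mul_right _ (Nat.pow_le_pow_right (by norm_num) hs))
  have h0 := h16 0 (Nat.zero_le _)
  have e0 : 16 ^ 0 * (2 * a + 1 + 1) * 𝔠.q = 2 * (a * 𝔠.q) + 2 * 𝔠.q := by ring
  have e1 : (2 * a + 1) * 𝔠.q = 2 * (a * 𝔠.q) + 𝔠.q := by ring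
  have e2 : (2 * a + 1 + 1) * 𝔠.q = 2 * (a * 𝔠.q) + 2 * 𝔠.q := by ring
  have e3 : a * 𝔠.q = a₁ * 𝔠.q + a₂ * 𝔠.q := by rw [ha, add_mul]
  obtain ⟨τ, t1, t2⟩ : ∃ τ : 𝔠.I, (τ.1 : R) = f ∧ (τ.2 : ℕ) = (2 * a + 1) * 𝔠.q :=
    ⟨(⟨f, hf⟩, ⟨(2 * a + 1) * 𝔠.q, by omega⟩), rfl, rfl⟩
  have PS := 𝔠.pot_of_dcd 𝔠.niceS 𝔠.dcdS hf
  have PW := 𝔠.pot_of_dcd (𝔠.niceW τ) (𝔠.dcdW τ) hf
  have PU := 𝔠.pot_of_dcd _ (𝔠.dcdU τ) hf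
  have hT := 𝔠.small_T τ
  have hU := 𝔠.unit_W τ
  have hy := 𝔠.inv_W τ
  rw [t1] at hT hU hy
  rw [map_neg] at l₂ w₂
  obtain ⟨D₁, X₁⟩ := l₁ _ PS 0 (by simp)
  obtain ⟨D₂, X₂⟩ := l₂ _ PS.neg 0 (by simp)
  obtain ⟨W₁, Y₁⟩ := w₁ τ _ PW fun v => by
    obtain ⟨y, y1, y2⟩ := hy v
    exact ⟨y, y1, fil_anti (PairD.ϖ_mem _) (by omega) y2⟩
  obtain ⟨W₂, Y₂⟩ := w₂ τ _ PW.neg fun v => by
    obtain ⟨y, y1, y2⟩ := hy v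
    exact ⟨-y, by rw [map_neg, neg_mul_neg, y1],
      neg_mem (fil_anti (PairD.ϖ_mem _) (by omega) y2)⟩
  replace X₁ := X₁.mono (κ' := 2 * r) (am' := (a * 𝔠.q : ℕ)) (by omega) le_rfl (by omega)
  replace X₂ := X₂.mono (κ' := 2 * r) (am' := (a * 𝔠.q : ℕ)) (by omega) le_rfl (by omega)
  replace Y₁ := Y₁.mono (κ' := 2 * r) (am' := (16 ^ r * (2 * a + 2) * 𝔠.q : ℕ)) (by omega) le_rfl
    (Int.ofNat_le.2 (h16 _ (by omega)))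
  replace Y₂ := Y₂.mono (κ' := 2 * r) (am' := (16 ^ r * (2 * a + 2) * 𝔠.q : ℕ)) (by omega) le_rfl
    (Int.ofNat_le.2 (h16 _ (by omega)))
  have O₁ := obj_of_lift X₁ Y₁ PU hT (by omega) (by omega) (by omega) (by omega) (by omega)
  have O₂ := obj_of_lift X₂ Y₂ PU.neg (by rw [map_neg, map_neg]; exact neg_mem hT) (by omega)
    (by omega) (by omega) (by omega) (by omega)
  rw [map_neg, map_neg] at O₂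
  obtain ⟨k₁, a1, a2, -⟩ := X₁.contr (by omega) (by omega)
  obtain ⟨k₂, b1, b2, -⟩ := X₂.contr (by omega) (by omega)
  have hb : ∀ σ, 𝔠.𝔸.cell ∅ ≤ (𝔠.tow.sU τ).B σ := fun σ =>
    (𝔠.tow.base_le_sS σ).trans (𝔠.tow.sS.le_on _ σ)
  have c1 : (𝔠.tow.geo τ 𝔠.isRes).ρU.a (𝔠.niceS.c (𝔠.H f)) = (𝔠.tow.sU τ).cF _ hb (𝔠.H f) :=
    Sys.mpA_cF (𝔠.tow.sS.le_on _) 𝔠.niceS.base hb _ _ rfl
  obtain ⟨H, H', hH, hH', r1, r2⟩ := (𝔠.tow.geo τ 𝔠.isRes).endgame (Nat.succ_pos n) hU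
    (by rw [c1]; exact Sys.mpA_cF (𝔠.tow.sW_le_sU τ) (𝔠.niceW τ).base hb _ _ rfl)
    (by rw [c1]; exact Sys.evA_cF (Tow.cj τ) false (𝔠.tow.sU_upd τ) hb hb _ _ rfl)
    O₁ O₂ ⟨k₁, a1, a2⟩ ⟨k₂, b1, b2⟩
  have g : 𝔠.Good (tpar p p') (𝔠.fam (tens p E E') 0) (tens p D₁ D₂) := by
    rw [fam_zero, CWk_tens_map, ← fam_zero, ← fam_zero]
    exact (X₁.tens X₂ PS (by omega) (by omega)).mono (by omega) (by push_cast; omega) (by omega)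
  have g' : 𝔠.Good (tpar (fun i => !p i) p') (𝔠.fam (tens (fun i => !p i) Eᵀ E') 0)
      (tens (fun i => !p i) D₁ᵀ D₂) := by
    rw [fam_zero, CWk_tens_map, transpose_map, ← fam_zero, ← fam_zero]
    exact (X₁.transpose.tens X₂ PS (by omega) (by omega)).mono (by omega) (by push_cast; omega)
      (by omega)
  rw [Θ_eq g hH, Θ_eq g' hH']
  exact ⟨r1, r2⟩

end Ctx

end Pool.Agent.P.MP_f43029_ag.XL
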